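import Mathlib

/-!
# 2-coloured complete graphs: disjoint edges of both colours
-/

namespace Pool.Agent.Lib.MP_a05470_co

/-- The 2-coloured complete graph with red graph `R` has `a` red edges and `b` blue edges which
are pairwise disjoint (the edges are `f (i, false) f (i, true)`). -/
def HasMatching {h : ℕ} (R : SimpleGraph (Fin h)) (a b : ℕ) : Prop :=
  ∃ f : (Fin a ⊕ Fin b) × Bool → Fin h, Function.Injective f ∧
    (∀ i, R.Adj (f (Sum.inl i, false)) (f (Sum.inl i, true))) ∧
    (∀ j, ¬ R.Adj (f (Sum.inr j, false)) (f (Sum.inr j, true)))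

end Pool.Agent.Lib.MP_a05470_co
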