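import Mathlib
import Pool.Agent.Lib.MP_a05470_co.MatchDefs

/-!
# Matchings bound the chromatic numbers and exclude equal parts
-/

namespace Pool.Agent.Lib.MP_a05470_co

open Finset

/-- `b` disjoint non-edges save `b` colours. -/
theorem colorable_of_nonedges {V : Type} [Fintype V] [DecidableEq V] (G : SimpleGraph V) {b : ℕ}
    (p : Fin b × Bool → V) (hp : Function.Injective p)
    (hn : ∀ j, ¬ G.Adj (p (j, false)) (p (j, true))) : G.Colorable (Fintype.card V - b) := by
  classical
  set T : Finset V := univ.image (fun j : Fin b => p (j, true)) with hT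
  have hTc : T.card = b := by
    rw [hT, card_image_of_injective _ (fun i j h => by simpa using hp h)]
    simp
  have hmem : ∀ j : Fin b, p (j, true) ∈ T := fun j => mem_image_of_mem _ (mem_univ j)
  have hnot : ∀ j : Fin b, p (j, false) ∉ T := by
    intro j hj
    rw [hT, mem_image] at hj
    obtain ⟨i, -, hi⟩ := hj
    have := hp hi
    simp at this
  have hex : ∀ v : V, ∃ z : {z // z ∉ T}, (v ∉ T → z.1 = v) ∧
      ∀ j, v = p (j, true) → z.1 = p (j, false) := by
    intro v
    by_cases hv : v ∈ T
    · rw [hT, mem_image] at hv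
      obtain ⟨j, -, hj⟩ := hv
      refine ⟨⟨p (j, false), hnot j⟩, fun h => absurd (hj ▸ hmem j) h, fun i hi => ?_⟩
      have h1 : p (j, true) = p (i, true) := by rw [hj, hi]
      have h2 := hp h1
      have h3 : j = i := by simpa using h2
      rw [h3]
    · refine ⟨⟨v, hv⟩, fun _ => rfl, fun i hi => absurd (hi ▸ hmem i) hv⟩
  choose c hc1 hc2 using hex
  have hcol : G.Coloring {z // z ∉ T} := by
    refine SimpleGraph.Coloring.mk c ?_
    intro v w hvw hcvw
    have hne : v ≠ w := hvw.ne
    by_cases hv : v ∈ T
    · obtain ⟨j, -, hj⟩ := mem_image.1 (hT ▸ hv)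
      have e1 := hc2 v j hj.symm
      by_cases hw : w ∈ T
      · obtain ⟨i, -, hi⟩ := mem_image.1 (hT ▸ hw)
        have e2 := hc2 w i hi.symm
        rw [hcvw, e2] at e1
        have h2 := hp e1
        have h3 : i = j := by simpa using h2
        apply hne
        rw [← hj, ← hi, h3]
      · have e2 := hc1 w hw
        rw [hcvw, e2] at e1
        apply hn j
        rw [← e1, show p (j, true) = v from hj]
        exact hvw.symm
    · have e1 := hc1 v hv
      by_cases hw : w ∈ T
      · obtain ⟨i, -, hi⟩ := mem_image.1 (hT ▸ hw)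
        have e2 := hc2 w i hi.symm
        rw [← hcvw, e1] at e2
        apply hn i
        rw [← e2, show p (i, true) = w from hi]
        exact hvw
      · have e2 := hc1 w hw
        apply hne
        rw [← e1, ← e2, hcvw]
  have h4 : Fintype.card {z // z ∉ T} = Fintype.card V - b := by
    rw [Fintype.card_subtype_compl, Fintype.card_coe, hTc]
  have h5 := hcol.colorable
  rwa [h4] at h5

/-- A graph all of whose components are complete bipartite with equal parts has even order. -/
theorem even_of_equal {V : Type} [Fintype V] [DecidableEq V] (κ : V → V) (σ : V → Bool)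
    (h2 : ∀ i, (univ.filter (fun x => κ x = i ∧ σ x = true)).card =
      (univ.filter (fun x => κ x = i ∧ σ x = false)).card) : Even (Fintype.card V) := by
  classical
  have h : (Fintype.card V : ℕ) = ∑ i : V, (univ.filter (fun x => κ x = i)).card := by
    rw [← card_univ]
    exact card_eq_sum_card_fiberwise (fun x _ => mem_univ _)
  rw [h]
  refine Finset.even_sum _ (fun i _ => ?_)
  have h3 : (univ.filter (fun x => κ x = i)) = (univ.filter (fun x => κ x = i ∧ σ x = true)) ∪
      (univ.filter (fun x => κ x = i ∧ σ x = false)) := by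
    ext x
    cases hx : σ x <;> simp [hx]
  rw [h3, card_union_of_disjoint, h2]
  · exact ⟨_, rfl⟩
  · rw [disjoint_left]
    intro x hx hy
    simp only [mem_filter] at hx hy
    rw [hx.2.2] at hy
    exact absurd hy.2.2 (by simp)

/-- Equal parts leave no perfect pairing with exactly one non-edge. -/
theorem not_equal_of_pairing {V : Type} [Fintype V] [DecidableEq V] (G : SimpleGraph V)
    {a : ℕ} (p : (Fin a ⊕ Fin 1) × Bool → V) (hp : Function.Injective p)
    (hcard : Fintype.card V = 2 * a + 2)
    (he : ∀ i, G.Adj (p (Sum.inl i, false)) (p (Sum.inl i, true)))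
    (hn : ¬ G.Adj (p (Sum.inr 0, false)) (p (Sum.inr 0, true)))
    (κ : V → V) (σ : V → Bool) (h1 : ∀ x y, G.Adj x y ↔ κ x = κ y ∧ σ x ≠ σ y)
    (h2 : ∀ i, (univ.filter (fun x => κ x = i ∧ σ x = true)).card =
      (univ.filter (fun x => κ x = i ∧ σ x = false)).card) : False := by
  classical
  set s : V → ℤ := fun v => if σ v = true then 1 else -1 with hs
  have hbij : Function.Bijective p := by
    refine (Fintype.bijective_iff_injective_and_card p).2 ⟨hp, ?_⟩
    rw [hcard]
    simp
    ring
  have hzero : ∀ i : V, ∑ v, (if κ v = i then s v else 0) = 0 := by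
    intro i
    have e1 : ∀ v, (if κ v = i then s v else 0) =
        (if κ v = i ∧ σ v = true then (1 : ℤ) else 0) -
          (if κ v = i ∧ σ v = false then (1 : ℤ) else 0) := by
      intro v
      cases hv : σ v <;> by_cases hk : κ v = i <;> simp [hs, hv, hk]
    rw [sum_congr rfl (fun v _ => e1 v), sum_sub_distrib, sum_boole, sum_boole]
    have := h2 i
    rw [this]
    ring
  have hsum : ∀ i : V, ∑ v, (if κ v = i then s v else 0) =
      ∑ c : (Fin a ⊕ Fin 1) × Bool, (if κ (p c) = i then s (p c) else 0) := by
    intro i
    exact (Function.Bijective.sum_comp hbij (fun v => if κ v = i then s v else 0)).symm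
  have hsplit : ∀ i : V, (if κ (p (Sum.inr 0, false)) = i then s (p (Sum.inr 0, false)) else 0) +
      (if κ (p (Sum.inr 0, true)) = i then s (p (Sum.inr 0, true)) else 0) = 0 := by
    intro i
    have e1 := hzero i
    rw [hsum i, Fintype.sum_prod_type] at e1
    simp only [Fintype.sum_bool] at e1
    rw [Fintype.sum_sum_type] at e1
    have e2 : ∑ x : Fin a, ((if κ (p (Sum.inl x, true)) = i then s (p (Sum.inl x, true)) else 0) +
        (if κ (p (Sum.inl x, false)) = i then s (p (Sum.inl x, false)) else 0)) = 0 := by
      refine sum_eq_zero (fun x _ => ?_)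
      have e3 := (h1 _ _).1 (he x)
      rw [e3.1]
      by_cases hk : κ (p (Sum.inl x, true)) = i
      · rw [if_pos hk, if_pos hk]
        have e4 := e3.2
        simp only [hs]
        cases h5 : σ (p (Sum.inl x, false)) <;> cases h6 : σ (p (Sum.inl x, true)) <;>
          simp_all
      · rw [if_neg hk, if_neg hk]
        rfl
    rw [e2] at e1
    simp only [univ_unique, sum_singleton, zero_add] at e1
    have e7 : (default : Fin 1) = 0 := rfl
    rw [e7] at e1
    rw [add_comm]
    exact e1
  have hk : κ (p (Sum.inr 0, false)) = κ (p (Sum.inr 0, true)) := by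
    by_contra hne
    have := hsplit (κ (p (Sum.inr 0, false)))
    rw [if_pos rfl, if_neg (fun h => hne h.symm)] at this
    simp only [hs] at this
    split_ifs at this <;> omega
  have h3 := hsplit (κ (p (Sum.inr 0, false)))
  rw [if_pos rfl, if_pos hk.symm] at h3
  apply hn
  rw [h1]
  refine ⟨hk, ?_⟩
  intro h4
  simp only [hs, h4] at h3
  split_ifs at h3 <;> omega

end Pool.Agent.Lib.MP_a05470_co
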