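import Pool.Agent.Lib.MP_a05470_co.Cover

set_option autoImplicit false

namespace Pool.Agent.Lib.MP_a05470_co

open Finset Classical

section Bal

variable {V : Type} {H : SimpleGraph V} {X Y : Finset V} {j k : ℕ} {κ : V → V} {σ : V → Bool}

/-- The components of `H` inside `Y` are complete bipartite with equal parts: `κ` gives the
component of a vertex and `σ` the side. -/
structure BalOn (H : SimpleGraph V) (Y : Finset V) (κ : V → V) (σ : V → Bool) : Prop where
  adj : ∀ x ∈ Y, ∀ y ∈ Y, (H.Adj x y ↔ κ x = κ y ∧ σ x ≠ σ y)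
  card : ∀ i, (Y.filter (fun x => κ x = i ∧ σ x = true)).card =
    (Y.filter (fun x => κ x = i ∧ σ x = false)).card

theorem BalOn.partner (h : BalOn H Y κ σ) {x : V} (hx : x ∈ Y) : ∃ x' ∈ Y, H.Adj x x' := by
  have hc := h.card (κ x)
  cases hs : σ x with
  | true =>
    have h1 : 1 ≤ (Y.filter (fun z => κ z = κ x ∧ σ z = true)).card :=
      Finset.card_pos.2 ⟨x, Finset.mem_filter.2 ⟨hx, rfl, hs⟩⟩
    rw [hc] at h1
    obtain ⟨x', hx'⟩ := Finset.card_pos.1 h1
    rw [Finset.mem_filter] at hx'
    refine ⟨x', hx'.1, (h.adj x hx x' hx'.1).2 ⟨hx'.2.1.symm, ?_⟩⟩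
    rw [hs, hx'.2.2]
    decide
  | false =>
    have h1 : 1 ≤ (Y.filter (fun z => κ z = κ x ∧ σ z = false)).card :=
      Finset.card_pos.2 ⟨x, Finset.mem_filter.2 ⟨hx, rfl, hs⟩⟩
    rw [← hc] at h1
    obtain ⟨x', hx'⟩ := Finset.card_pos.1 h1
    rw [Finset.mem_filter] at hx'
    refine ⟨x', hx'.1, (h.adj x hx x' hx'.1).2 ⟨hx'.2.1.symm, ?_⟩⟩
    rw [hs, hx'.2.2]
    decide

theorem card_filter_sdiff_pair {x y : V} (hx : x ∈ Y) (hy : y ∈ Y) (hxy : x ≠ y) (P : V → Prop)
    [DecidablePred P] :
    ((Y \ {x, y}).filter P).card + ((if P x then 1 else 0) + (if P y then 1 else 0)) =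
      (Y.filter P).card := by
  have h1 : ({x, y} : Finset V) ⊆ Y := by
    intro q hq
    rw [Finset.mem_insert, Finset.mem_singleton] at hq
    rcases hq with rfl | rfl
    · exact hx
    · exact hy
  rw [Finset.card_filter, Finset.card_filter, ← Finset.sum_sdiff h1, Finset.sum_pair hxy]

theorem BalOn.remove (h : BalOn H Y κ σ) {x y : V} (hx : x ∈ Y) (hy : y ∈ Y) (hxy : H.Adj x y) :
    BalOn H (Y \ {x, y}) κ σ := by
  have h1 := (h.adj x hx y hy).1 hxy
  refine ⟨fun a ha b hb => h.adj a (Finset.mem_sdiff.1 ha).1 b (Finset.mem_sdiff.1 hb).1, ?_⟩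
  intro i
  have hc := h.card i
  have e1 := card_filter_sdiff_pair hx hy (H.ne_of_adj hxy) (fun z => κ z = i ∧ σ z = true)
  have e2 := card_filter_sdiff_pair hx hy (H.ne_of_adj hxy) (fun z => κ z = i ∧ σ z = false)
  have h2 : ((if κ x = i ∧ σ x = true then 1 else 0) + (if κ y = i ∧ σ y = true then 1 else 0) : ℕ) =
      (if κ x = i ∧ σ x = false then 1 else 0) + (if κ y = i ∧ σ y = false then 1 else 0) := by
    rw [h1.1]
    have h3 := h1.2
    by_cases hi : κ y = i
    · cases hsx : σ x <;> cases hsy : σ y <;> simp_all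
    · simp [hi]
  omega

theorem BalOn.cov (j : ℕ) : ∀ {Y : Finset V}, BalOn H Y κ σ → Y.card = 2 * j → Cov H j Y := by
  induction j with
  | zero =>
    intro Y _ hc
    have : Y = ∅ := Finset.card_eq_zero.1 (by omega)
    rw [this]
    exact cov_empty
  | succ j ih =>
    intro Y h hc
    obtain ⟨x, hx⟩ := Finset.card_pos.1 (show 0 < Y.card by omega)
    obtain ⟨x', hx', hxx⟩ := h.partner hx
    have hcard := card_sdiff_pair hx hx' (H.ne_of_adj hxx)
    apply (ih (h.remove hx hx' hxx) (by omega)).add (clique_pair hxx)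
    intro z hz
    simp only [Finset.mem_sdiff, Finset.mem_insert, Finset.mem_singleton]
    tauto

theorem BalOn.card_le (h : BalOn H Y κ σ) (hX : X ⊆ Y) (hc : Cov H k X) : X.card ≤ 2 * k := by
  obtain ⟨P, h1, h2, h3⟩ := hc
  have h4 : X ⊆ P.biUnion (fun K => K ∩ X) := by
    intro x hx
    obtain ⟨K, hK, hxK⟩ := h2 x hx
    rw [Finset.mem_biUnion]
    exact ⟨K, hK, Finset.mem_inter.2 ⟨hxK, hx⟩⟩
  have h5 : ∀ K ∈ P, (K ∩ X).card ≤ 2 := by
    intro K hK
    by_contra hcon
    push Not at hcon
    obtain ⟨a, ha, b, hb, c, hc, hab, hac, hbc⟩ := Finset.two_lt_card.1 hcon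
    rw [Finset.mem_inter] at ha hb hc
    have e1 := ((h.adj a (hX ha.2) b (hX hb.2)).1 (h3 K hK a ha.1 b hb.1 hab)).2
    have e2 := ((h.adj a (hX ha.2) c (hX hc.2)).1 (h3 K hK a ha.1 c hc.1 hac)).2
    have e3 := ((h.adj b (hX hb.2) c (hX hc.2)).1 (h3 K hK b hb.1 c hc.1 hbc)).2
    revert e1 e2 e3
    generalize σ a = p
    generalize σ b = q
    generalize σ c = r
    revert p q r
    decide
  have h6 := Finset.card_biUnion_le_card_mul P (fun K => K ∩ X) 2 h5
  have h7 := Finset.card_le_card h4
  omega

theorem BalOn.tight (h : BalOn H Y κ σ) (hc : Y.card = 2 * j) : Tight H j Y := by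
  refine ⟨hc, h.cov j hc, ?_⟩
  intro u hu hcov
  have h1 := h.card_le (Finset.erase_subset u Y) hcov
  rw [Finset.card_erase_of_mem hu] at h1
  have : 1 ≤ Y.card := Finset.card_pos.2 ⟨u, hu⟩
  omega

/-- `Y` is tight and no blue pair can be split off -/
def NG (H : SimpleGraph V) (j : ℕ) (Y : Finset V) : Prop :=
  Tight H j Y ∧ ∀ x ∈ Y, ∀ y ∈ Y, Hᶜ.Adj x y → ¬ Cov H (j - 1) (Y \ {x, y})

theorem NG.remove (h : NG H j Y) {x y : V} (hx : x ∈ Y) (hy : y ∈ Y) (hxy : H.Adj x y) :
    NG H (j - 1) (Y \ {x, y}) := by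
  obtain ⟨hT, hN⟩ := h
  have hcard := hT.1
  have hcc := card_sdiff_pair hx hy (H.ne_of_adj hxy)
  have hcov : Cov H (j - 1) (Y \ {x, y}) := by
    obtain ⟨x', hx', hxx, h1⟩ := hT.partner hx
    by_cases hyx' : y = x'
    · rw [hyx']
      exact h1.2.1
    · have hym : y ∈ Y \ {x, x'} := by
        simp only [Finset.mem_sdiff, Finset.mem_insert, Finset.mem_singleton]
        exact ⟨hy, by
          have := H.ne_of_adj hxy
          tauto⟩
      obtain ⟨y', hy', hyy, h2⟩ := h1.partner hym
      have hc1 := card_sdiff_pair hx hx' (H.ne_of_adj hxx)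
      have hc2 := card_sdiff_pair hym hy' (H.ne_of_adj hyy)
      simp only [Finset.mem_sdiff, Finset.mem_insert, Finset.mem_singleton, not_or] at hy'
      by_cases hr : H.Adj x' y'
      · have h3 : Cov H (j - 1 - 1 + 1) (Y \ {x, y}) := by
          apply h2.2.1.add (clique_pair hr)
          intro z hz
          simp only [Finset.mem_sdiff, Finset.mem_insert, Finset.mem_singleton] at hz ⊢
          tauto
        exact h3.mono (by omega)
      · exfalso
        apply hN x' hx' y' hy'.1 (compl_adj_of (Ne.symm hy'.2.2) hr)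
        have h3 : Cov H (j - 1 - 1 + 1) (Y \ {x', y'}) := by
          apply h2.2.1.add (clique_pair hxy)
          intro z hz
          simp only [Finset.mem_sdiff, Finset.mem_insert, Finset.mem_singleton] at hz ⊢
          tauto
        exact h3.mono (by omega)
  refine ⟨hT.remove hx hy hxy hcov, ?_⟩
  intro z hz w hw hzw hcov2
  have hcc2 := card_sdiff_pair hz hw (Hᶜ.ne_of_adj hzw)
  simp only [Finset.mem_sdiff, Finset.mem_insert, Finset.mem_singleton, not_or] at hz hw
  apply hN z hz.1 w hw.1 hzw
  have h3 : Cov H (j - 1 - 1 + 1) (Y \ {z, w}) := by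
    apply hcov2.add (clique_pair hxy)
    intro a ha
    simp only [Finset.mem_sdiff, Finset.mem_insert, Finset.mem_singleton] at ha ⊢
    tauto
  exact h3.mono (by omega)

theorem NG.path (h : NG H j Y) {x y z t : V} (hx : x ∈ Y) (hy : y ∈ Y) (hz : z ∈ Y) (ht : t ∈ Y)
    (hxt : x ≠ t) (hxy : H.Adj x y) (hyz : H.Adj y z) (hzt : H.Adj z t) : H.Adj x t := by
  by_cases hxz : x = z
  · rw [hxz]
    exact hzt
  by_cases hyt : y = t
  · rw [← hyt]
    exact hxy
  by_contra hcon
  have hyz' := H.ne_of_adj hyz
  have hzm : z ∈ Y \ {x, y} := by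
    simp only [Finset.mem_sdiff, Finset.mem_insert, Finset.mem_singleton]
    exact ⟨hz, by
      have := Ne.symm hyz'
      have := Ne.symm hxz
      tauto⟩
  have htm : t ∈ Y \ {x, y} := by
    simp only [Finset.mem_sdiff, Finset.mem_insert, Finset.mem_singleton]
    exact ⟨ht, by
      have := Ne.symm hyt
      have := Ne.symm hxt
      tauto⟩
  have h1 := h.remove hx hy hxy
  have h2 := h1.remove hzm htm hzt
  have hc0 := h.1.1
  have hc1 := card_sdiff_pair hx hy (H.ne_of_adj hxy)
  have hc2 := card_sdiff_pair hzm htm (H.ne_of_adj hzt)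
  apply h.2 x hx t ht (compl_adj_of hxt hcon)
  have h3 : Cov H (j - 1 - 1 + 1) (Y \ {x, t}) := by
    apply h2.1.2.1.add (clique_pair hyz)
    intro a ha
    simp only [Finset.mem_sdiff, Finset.mem_insert, Finset.mem_singleton] at ha ⊢
    tauto
  exact h3.mono (by omega)

theorem NG.triangle (h : NG H j Y) {x y z : V} (hx : x ∈ Y) (hy : y ∈ Y) (hz : z ∈ Y)
    (hxy : H.Adj x y) (hxz : H.Adj x z) (hyz : H.Adj y z) : False := by
  have h1 := h.remove hx hy hxy
  apply h.1.two_blue hx hy hxy h1.1 (y := z) _ ⟨hxz, hyz⟩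
  simp only [Finset.mem_sdiff, Finset.mem_insert, Finset.mem_singleton]
  exact ⟨hz, by
    have := Ne.symm (H.ne_of_adj hxz)
    have := Ne.symm (H.ne_of_adj hyz)
    tauto⟩

/-- adding a red pair to a balanced set -/
theorem BalOn.extend {x y : V} (hB : BalOn H (Y \ {x, y}) κ σ) (hx : x ∈ Y) (hy : y ∈ Y)
    (hxy : H.Adj x y) (i : V) (s : Bool)
    (hxs : ∀ a ∈ Y \ {x, y}, (H.Adj x a ↔ κ a = i ∧ σ a ≠ s))
    (hys : ∀ a ∈ Y \ {x, y}, (H.Adj y a ↔ κ a = i ∧ σ a = s)) :
    BalOn H Y (fun a => if a = x ∨ a = y then i else κ a)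
      (fun a => if a = x then s else if a = y then !s else σ a) := by
  have hne := H.ne_of_adj hxy
  have hb1 : ∀ p q : Bool, (!p) ≠ q → q = p := by decide
  have hm : ∀ a ∈ Y, a ≠ x → a ≠ y → a ∈ Y \ {x, y} := by
    intro a ha h1 h2
    simp only [Finset.mem_sdiff, Finset.mem_insert, Finset.mem_singleton]
    tauto
  refine ⟨?_, ?_⟩
  · intro a ha b hb
    by_cases hax : a = x
    · rw [hax]
      by_cases hbx : b = x
      · rw [hbx]
        simp
      · by_cases hby : b = y
        · rw [hby]
          simp [hxy, Ne.symm hne]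
        · simp only [hbx, hby, true_or, or_self, if_true, if_false]
          rw [hxs b (hm b hb hbx hby)]
          constructor
          · rintro ⟨h1, h2⟩
            exact ⟨h1.symm, Ne.symm h2⟩
          · rintro ⟨h1, h2⟩
            exact ⟨h1.symm, Ne.symm h2⟩
    · by_cases hay : a = y
      · rw [hay]
        by_cases hbx : b = x
        · rw [hbx]
          simp [hxy.symm, Ne.symm hne]
        · by_cases hby : b = y
          · rw [hby]
            simp
          · simp only [hbx, hby, Ne.symm hne, or_true, or_self, if_true, if_false]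
            rw [hys b (hm b hb hbx hby)]
            constructor
            · rintro ⟨h1, h2⟩
              refine ⟨h1.symm, ?_⟩
              rw [h2]
              cases s <;> decide
            · rintro ⟨h1, h2⟩
              exact ⟨h1.symm, hb1 _ _ h2⟩
      · by_cases hbx : b = x
        · rw [hbx]
          simp only [hax, hay, true_or, or_self, if_true, if_false]
          rw [H.adj_comm, hxs a (hm a ha hax hay)]
        · by_cases hby : b = y
          · rw [hby]
            simp only [hax, hay, Ne.symm hne, or_true, or_self, if_true, if_false]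
            rw [H.adj_comm, hys a (hm a ha hax hay)]
            constructor
            · rintro ⟨h1, h2⟩
              refine ⟨h1, ?_⟩
              rw [h2]
              cases s <;> decide
            · rintro ⟨h1, h2⟩
              exact ⟨h1, hb1 _ _ (Ne.symm h2)⟩
          · simp only [hax, hay, hbx, hby, or_self, if_false]
            exact hB.adj a (hm a ha hax hay) b (hm b hb hbx hby)
  · intro l
    have hc := hB.card l
    have e1 := card_filter_sdiff_pair hx hy hne (fun a => (if a = x ∨ a = y then i else κ a) = l ∧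
      (if a = x then s else if a = y then !s else σ a) = true)
    have e2 := card_filter_sdiff_pair hx hy hne (fun a => (if a = x ∨ a = y then i else κ a) = l ∧
      (if a = x then s else if a = y then !s else σ a) = false)
    have e3 : ∀ r : Bool, (Y \ {x, y}).filter (fun a => (if a = x ∨ a = y then i else κ a) = l ∧
        (if a = x then s else if a = y then !s else σ a) = r) =
        (Y \ {x, y}).filter (fun a => κ a = l ∧ σ a = r) := by
      intro r
      apply Finset.filter_congr
      intro a ha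
      simp only [Finset.mem_sdiff, Finset.mem_insert, Finset.mem_singleton, not_or] at ha
      simp only [ha.2.1, ha.2.2, or_self, if_false]
    rw [e3] at e1 e2
    simp only [true_or, or_true, if_true, Ne.symm hne, if_false] at e1 e2
    by_cases hi : i = l
    · cases s <;> simp_all
    · simp only [hi, false_and, if_false, add_zero] at e1 e2
      rw [← e1, ← e2, hc]

theorem NG.attach (h : NG H j Y) {x y z : V} (hx : x ∈ Y) (hy : y ∈ Y) (hxy : H.Adj x y)
    (hB : BalOn H (Y \ {x, y}) κ σ) (hz : z ∈ Y \ {x, y}) (hxz : H.Adj x z) :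
    ∃ (κ' : V → V) (σ' : V → Bool), BalOn H Y κ' σ' ∧
      ((∀ a ∈ Y \ {x, y}, κ a ∈ Y) → κ z ∈ Y → ∀ a ∈ Y, κ' a ∈ Y) := by
  obtain ⟨w, hw, hzw⟩ := hB.partner hz
  have hzw' := (hB.adj z hz w hw).1 hzw
  have hz' := hz
  have hw' := hw
  simp only [Finset.mem_sdiff, Finset.mem_insert, Finset.mem_singleton, not_or] at hz' hw'
  have hyw : H.Adj y w :=
    h.path hy hx hz'.1 hw'.1 (Ne.symm hw'.2.2) hxy.symm hxz hzw
  have hb : ∀ p q r : Bool, p ≠ q → (r ≠ q ↔ r = p) := by decide
  refine ⟨_, _, hB.extend hx hy hxy (κ z) (!σ z) ?_ ?_, ?_⟩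
  · intro a ha
    have ha' := ha
    simp only [Finset.mem_sdiff, Finset.mem_insert, Finset.mem_singleton, not_or] at ha'
    constructor
    · intro hxa
      have haw : H.Adj a w := by
        apply h.path ha'.1 hx hy hw'.1 _ hxa.symm hxy hyw
        rintro rfl
        exact h.triangle hx hy ha'.1 hxy hxa hyw
      have h1 := (hB.adj a ha w hw).1 haw
      refine ⟨h1.1.trans hzw'.1.symm, ?_⟩
      have h2 := (hb _ _ (σ a) hzw'.2).1 h1.2
      rw [h2]
      cases σ z <;> decide
    · rintro ⟨h1, h2⟩
      have h3 : σ a = σ z := by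
        revert h2
        generalize σ a = p
        generalize σ z = q
        revert p q
        decide
      have haw : H.Adj a w := by
        rw [hB.adj a ha w hw]
        exact ⟨h1.trans hzw'.1, by rw [h3]; exact hzw'.2⟩
      exact h.path hx hy hw'.1 ha'.1 (Ne.symm ha'.2.1) hxy hyw haw.symm
  · intro a ha
    have ha' := ha
    simp only [Finset.mem_sdiff, Finset.mem_insert, Finset.mem_singleton, not_or] at ha'
    constructor
    · intro hya
      have haz : H.Adj a z := by
        apply h.path ha'.1 hy hx hz'.1 _ hya.symm hxy.symm hxz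
        rintro rfl
        exact h.triangle hx hy ha'.1 hxy hxz hya
      have h1 := (hB.adj a ha z hz).1 haz
      refine ⟨h1.1, ?_⟩
      have h2 := h1.2
      revert h2
      generalize σ a = p
      generalize σ z = q
      revert p q
      decide
    · rintro ⟨h1, h2⟩
      have haz : H.Adj a z := by
        rw [hB.adj a ha z hz]
        refine ⟨h1, ?_⟩
        rw [h2]
        cases σ z <;> decide
      exact h.path hy hx hz'.1 ha'.1 (Ne.symm ha'.2.2) hxy.symm hxz haz.symm
  · intro h1 h2 a ha
    by_cases haxy : a = x ∨ a = y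
    · simp only [haxy, if_true]
      exact h2
    · simp only [haxy, if_false]
      rw [not_or] at haxy
      apply h1
      simp only [Finset.mem_sdiff, Finset.mem_insert, Finset.mem_singleton]
      tauto

/-- sets from which no blue pair can be split off are balanced -/
theorem NG.bal (j : ℕ) : ∀ {Y : Finset V}, NG H j Y →
    ∃ (κ : V → V) (σ : V → Bool), BalOn H Y κ σ ∧ ∀ a ∈ Y, κ a ∈ Y := by
  induction j with
  | zero =>
    intro Y h
    have hc := h.1.1
    have hY : Y = ∅ := Finset.card_eq_zero.1 (by omega)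
    subst hY
    exact ⟨id, fun _ => true, ⟨by simp, by simp⟩, by simp⟩
  | succ j ih =>
    intro Y h
    have hc := h.1.1
    obtain ⟨x, hx⟩ := Finset.card_pos.1 (show 0 < Y.card by omega)
    obtain ⟨y, hy, hxy, _⟩ := h.1.partner hx
    have h1 := h.remove hx hy hxy
    obtain ⟨κ, σ, hB, hmem⟩ := ih h1
    have hsub : ∀ a ∈ Y \ {x, y}, κ a ∈ Y := fun a ha => (Finset.mem_sdiff.1 (hmem a ha)).1
    by_cases hnx : ∃ z ∈ Y \ {x, y}, H.Adj x z
    · obtain ⟨z, hz, hxz⟩ := hnx
      obtain ⟨κ', σ', hB', h2⟩ := h.attach hx hy hxy hB hz hxz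
      exact ⟨κ', σ', hB', h2 hsub (hsub z hz)⟩
    · by_cases hny : ∃ z ∈ Y \ {x, y}, H.Adj y z
      · obtain ⟨z, hz, hyz⟩ := hny
        rw [Finset.pair_comm x y] at hB hz hsub
        obtain ⟨κ', σ', hB', h2⟩ := h.attach hy hx hxy.symm hB hz hyz
        exact ⟨κ', σ', hB', h2 hsub (hsub z hz)⟩
      · push Not at hnx hny
        refine ⟨_, _, hB.extend hx hy hxy x true ?_ ?_, ?_⟩
        · intro a ha
          constructor
          · intro h3
            exact absurd h3 (hnx a ha)
          · rintro ⟨h3, _⟩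
            have h4 := hmem a ha
            rw [h3] at h4
            simp at h4
        · intro a ha
          constructor
          · intro h3
            exact absurd h3 (hny a ha)
          · rintro ⟨h3, _⟩
            have h4 := hmem a ha
            rw [h3] at h4
            simp at h4
        · intro a ha
          by_cases haxy : a = x ∨ a = y
          · simp only [haxy, if_true]
            exact hx
          · simp only [haxy, if_false]
            rw [not_or] at haxy
            apply hsub
            simp only [Finset.mem_sdiff, Finset.mem_insert, Finset.mem_singleton]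
            tauto

end Bal

end Pool.Agent.Lib.MP_a05470_co
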