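import Mathlib

set_option autoImplicit false

namespace Pool.Agent.Lib.MP_a05470_co

open Finset Classical Filter Topology

/-- The 2-coloured multigraph with red graph `Gr` and blue graph `Gb` contains the one with red
graph `Hr` and blue graph `Hb`. -/
def Contains {V W : Type} (Hr Hb : SimpleGraph V) (Gr Gb : SimpleGraph W) : Prop :=
  ∃ f : V → W, Function.Injective f ∧
    ∀ x y, (Hr.Adj x y → Gr.Adj (f x) (f y)) ∧ (Hb.Adj x y → Gb.Adj (f x) (f y))

/-- The weight `p e(Gr) + (1 - p) e(Gb)`. -/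
noncomputable def weight {W : Type} (p : ℝ) (Gr Gb : SimpleGraph W) : ℝ :=
  p * Gr.edgeSet.ncard + (1 - p) * Gb.edgeSet.ncard

/-- `ex_p(n, H)`: the largest weight of a 2-coloured multigraph on `n` vertices that does not
contain `H`. -/
noncomputable def ex {V : Type} (p : ℝ) (Hr Hb : SimpleGraph V) (n : ℕ) : ℝ :=
  sSup {w | ∃ Gr Gb : SimpleGraph (Fin n), ¬ Contains Hr Hb Gr Gb ∧ w = weight p Gr Gb}

section general

variable {V : Type} {Hr Hb : SimpleGraph V} {p : ℝ}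

theorem weight_set_finite (p : ℝ) (Hr Hb : SimpleGraph V) (n : ℕ) :
    {w | ∃ Gr Gb : SimpleGraph (Fin n), ¬ Contains Hr Hb Gr Gb ∧ w = weight p Gr Gb}.Finite := by
  have : Finite (SimpleGraph (Fin n) × SimpleGraph (Fin n)) := inferInstance
  refine Set.Finite.subset (Set.finite_range
    (fun G : SimpleGraph (Fin n) × SimpleGraph (Fin n) => weight p G.1 G.2)) ?_
  rintro w ⟨Gr, Gb, _, rfl⟩
  exact ⟨(Gr, Gb), rfl⟩

theorem weight_le_ex {n : ℕ} {Gr Gb : SimpleGraph (Fin n)} (h : ¬ Contains Hr Hb Gr Gb) :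
    weight p Gr Gb ≤ ex p Hr Hb n :=
  le_csSup (weight_set_finite p Hr Hb n).bddAbove ⟨Gr, Gb, h, rfl⟩

theorem not_contains_bot (hH : ∃ x y, Hr.Adj x y ∨ Hb.Adj x y) (n : ℕ) :
    ¬ Contains Hr Hb (⊥ : SimpleGraph (Fin n)) ⊥ := by
  rintro ⟨f, _, hf⟩
  obtain ⟨x, y, h | h⟩ := hH
  · exact (hf x y).1 h
  · exact (hf x y).2 h

theorem exists_extremal (hH : ∃ x y, Hr.Adj x y ∨ Hb.Adj x y) (p : ℝ) (n : ℕ) :
    ∃ Gr Gb : SimpleGraph (Fin n), ¬ Contains Hr Hb Gr Gb ∧ ex p Hr Hb n = weight p Gr Gb := by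
  have hne : {w | ∃ Gr Gb : SimpleGraph (Fin n), ¬ Contains Hr Hb Gr Gb ∧
      w = weight p Gr Gb}.Nonempty := ⟨_, ⊥, ⊥, not_contains_bot hH n, rfl⟩
  exact hne.csSup_mem (weight_set_finite p Hr Hb n)

/-- edges as half of the number of adjacent ordered pairs -/
theorem two_edges {n : ℕ} (G : SimpleGraph (Fin n)) :
    (2 : ℝ) * G.edgeSet.ncard = ∑ u : Fin n, ∑ v : Fin n, if G.Adj u v then (1 : ℝ) else 0 := by
  have h1 : G.edgeSet.ncard = G.edgeFinset.card := by
    rw [← SimpleGraph.coe_edgeFinset, Set.ncard_coe_finset]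
  have h2 := SimpleGraph.sum_degrees_eq_twice_card_edges G
  have h3 : ∀ u, (∑ v : Fin n, if G.Adj u v then (1 : ℝ) else 0) = (G.degree u : ℝ) := by
    intro u
    rw [← SimpleGraph.card_neighborFinset_eq_degree]
    rw [Finset.sum_ite]
    simp only [Finset.sum_const, nsmul_eq_mul, mul_one, smul_zero, add_zero]
    congr 2
    ext v
    simp
  simp_rw [h3]
  rw [h1]
  exact_mod_cast h2.symm

/-- the number of vertices not adjacent to `v` (including `v`) -/
noncomputable def nonadj {W : Type} [Fintype W] (G : SimpleGraph W) (v : W) : ℕ :=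
  (Finset.univ.filter (fun u => ¬ G.Adj v u)).card

theorem sum_adj_row {n : ℕ} (G : SimpleGraph (Fin n)) (v : Fin n) :
    (∑ u : Fin n, if G.Adj v u then (1 : ℝ) else 0) = n - nonadj G v := by
  have h1 : (Finset.univ.filter (fun u => G.Adj v u)).card +
      (Finset.univ.filter (fun u => ¬ G.Adj v u)).card = n := by
    rw [Finset.card_filter_add_card_filter_not]
    simp
  rw [Finset.sum_ite]
  simp only [Finset.sum_const, nsmul_eq_mul, mul_one, smul_zero, add_zero]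
  unfold nonadj
  have h2 : ((Finset.univ.filter (fun u => G.Adj v u)).card : ℝ) +
      (Finset.univ.filter (fun u => ¬ G.Adj v u)).card = n := by exact_mod_cast h1
  linarith

/-- deleting a vertex: the edges lost are the edges at `v` -/
theorem edges_delete {n : ℕ} (G : SimpleGraph (Fin (n + 1))) (v : Fin (n + 1)) :
    (G.edgeSet.ncard : ℝ) = (G.comap v.succAbove).edgeSet.ncard + ((n + 1 : ℕ) - nonadj G v) := by
  have h1 := two_edges G
  have h2 := two_edges (G.comap v.succAbove)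
  have h3 := sum_adj_row G v
  have h4 : (∑ u : Fin (n + 1), ∑ w : Fin (n + 1), if G.Adj u w then (1 : ℝ) else 0) =
      (∑ w : Fin (n + 1), if G.Adj v w then (1 : ℝ) else 0) +
      ∑ i : Fin n, ((if G.Adj (v.succAbove i) v then (1 : ℝ) else 0) +
        ∑ j : Fin n, if G.Adj (v.succAbove i) (v.succAbove j) then (1 : ℝ) else 0) := by
    rw [Fin.sum_univ_succAbove _ v]
    congr 1
    apply Finset.sum_congr rfl
    intro i _
    rw [Fin.sum_univ_succAbove _ v]
  have h5 : (∑ w : Fin (n + 1), if G.Adj v w then (1 : ℝ) else 0) =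
      ∑ i : Fin n, (if G.Adj (v.succAbove i) v then (1 : ℝ) else 0) := by
    rw [Fin.sum_univ_succAbove _ v]
    simp only [SimpleGraph.irrefl, if_false, zero_add]
    apply Finset.sum_congr rfl
    intro i _
    rw [G.adj_comm]
  rw [Finset.sum_add_distrib] at h4
  rw [← h5] at h4
  simp only [SimpleGraph.comap_adj] at h2
  rw [h4, ← h2, h3] at h1
  linarith

theorem weight_delete {n : ℕ} (p : ℝ) (Gr Gb : SimpleGraph (Fin (n + 1))) (v : Fin (n + 1)) :
    weight p Gr Gb = weight p (Gr.comap v.succAbove) (Gb.comap v.succAbove) +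
      ((n + 1 : ℕ) - (p * nonadj Gr v + (1 - p) * nonadj Gb v)) := by
  unfold weight
  rw [edges_delete Gr v, edges_delete Gb v]
  ring

theorem not_contains_comap {m n : ℕ} {Gr Gb : SimpleGraph (Fin n)} (f : Fin m ↪ Fin n)
    (h : ¬ Contains Hr Hb Gr Gb) : ¬ Contains Hr Hb (Gr.comap f) (Gb.comap f) := by
  rintro ⟨g, hg, hh⟩
  exact h ⟨fun x => f (g x), fun x y hxy => hg (f.injective hxy), fun x y => hh x y⟩

/-- total weight through the vertices -/
theorem two_weight {n : ℕ} (p : ℝ) (Gr Gb : SimpleGraph (Fin n)) :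
    2 * weight p Gr Gb = ∑ v : Fin n, ((n : ℝ) - (p * nonadj Gr v + (1 - p) * nonadj Gb v)) := by
  have h1 : ∀ G : SimpleGraph (Fin n), (2 : ℝ) * G.edgeSet.ncard =
      ∑ v : Fin n, ((n : ℝ) - nonadj G v) := by
    intro G
    rw [two_edges]
    exact Finset.sum_congr rfl (fun v _ => sum_adj_row G v)
  unfold weight
  have h2 : 2 * (p * (Gr.edgeSet.ncard : ℝ) + (1 - p) * Gb.edgeSet.ncard) =
      p * (2 * Gr.edgeSet.ncard) + (1 - p) * (2 * Gb.edgeSet.ncard) := by ring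
  rw [h2, h1, h1, Finset.mul_sum, Finset.mul_sum, ← Finset.sum_add_distrib]
  apply Finset.sum_congr rfl
  intro v _
  ring

theorem weight_nonneg {n : ℕ} (hp0 : 0 ≤ p) (hp1 : p ≤ 1) (Gr Gb : SimpleGraph (Fin n)) :
    0 ≤ weight p Gr Gb := by
  unfold weight
  have : 0 ≤ 1 - p := by linarith
  positivity

theorem ex_nonneg (hH : ∃ x y, Hr.Adj x y ∨ Hb.Adj x y) (hp0 : 0 ≤ p) (hp1 : p ≤ 1) (n : ℕ) :
    0 ≤ ex p Hr Hb n := by
  obtain ⟨Gr, Gb, _, h⟩ := exists_extremal hH p n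
  rw [h]
  exact weight_nonneg hp0 hp1 _ _

/-- averaging over the deletion of a vertex -/
theorem ex_succ_mul (hH : ∃ x y, Hr.Adj x y ∨ Hb.Adj x y) (p : ℝ) (n : ℕ) :
    ((n : ℝ) - 1) * ex p Hr Hb (n + 1) ≤ (n + 1) * ex p Hr Hb n := by
  obtain ⟨Gr, Gb, hG, h⟩ := exists_extremal hH p (n + 1)
  have h1 : ∀ v : Fin (n + 1), weight p Gr Gb - (((n + 1 : ℕ) : ℝ) -
      (p * nonadj Gr v + (1 - p) * nonadj Gb v)) ≤ ex p Hr Hb n := by
    intro v
    have h2 := weight_delete p Gr Gb v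
    have h3 : weight p (Gr.comap v.succAbove) (Gb.comap v.succAbove) ≤ ex p Hr Hb n :=
      weight_le_ex (not_contains_comap (v.succAboveEmb) hG)
    linarith
  have h4 := Finset.sum_le_sum (fun v (_ : v ∈ (Finset.univ : Finset (Fin (n + 1)))) => h1 v)
  rw [Finset.sum_sub_distrib, ← two_weight p Gr Gb] at h4
  simp only [Finset.sum_const, Finset.card_univ, Fintype.card_fin, nsmul_eq_mul] at h4
  rw [h]
  push_cast at h4
  linarith

/-- the density `ex_p(n,H) / C(n,2)` converges -/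
theorem exists_limit (hH : ∃ x y, Hr.Adj x y ∨ Hb.Adj x y) (hp0 : 0 ≤ p) (hp1 : p ≤ 1) :
    ∃ μ : ℝ, Tendsto (fun n : ℕ => ex p Hr Hb n / (n.choose 2 : ℝ)) atTop (𝓝 μ) := by
  have hanti : Antitone (fun n : ℕ => ex p Hr Hb (n + 2) / ((n + 2).choose 2 : ℝ)) := by
    apply antitone_nat_of_succ_le
    intro n
    have h1 := ex_succ_mul hH p (n + 2)
    have e1 : (((n + 2).choose 2 : ℕ) : ℝ) = (n + 2) * (n + 1) / 2 := by
      rw [Nat.cast_choose_two]
      push_cast
      ring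
    have e2 : (((n + 1 + 2).choose 2 : ℕ) : ℝ) = (n + 3) * (n + 2) / 2 := by
      rw [Nat.cast_choose_two]
      push_cast
      ring
    show ex p Hr Hb (n + 1 + 2) / (((n + 1 + 2).choose 2 : ℕ) : ℝ) ≤
      ex p Hr Hb (n + 2) / (((n + 2).choose 2 : ℕ) : ℝ)
    rw [e1, e2, div_le_div_iff₀ (by positivity) (by positivity)]
    have h2 : n + 1 + 2 = n + 2 + 1 := by ring
    rw [h2]
    push_cast at h1
    have h3 : (0 : ℝ) ≤ (n + 2) / 2 := by positivity
    have h4 := mul_le_mul_of_nonneg_left h1 h3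
    calc ex p Hr Hb (n + 2 + 1) * ((n + 2) * (n + 1) / 2) =
        (n + 2) / 2 * (((n : ℝ) + 2 - 1) * ex p Hr Hb (n + 2 + 1)) := by ring
      _ ≤ (n + 2) / 2 * (((n : ℝ) + 2 + 1) * ex p Hr Hb (n + 2)) := h4
      _ = ex p Hr Hb (n + 2) * ((n + 3) * (n + 2) / 2) := by ring
  have hbdd : BddBelow (Set.range (fun n : ℕ => ex p Hr Hb (n + 2) / ((n + 2).choose 2 : ℝ))) := by
    refine ⟨0, ?_⟩
    rintro x ⟨n, rfl⟩
    have := ex_nonneg hH hp0 hp1 (n + 2) (Hr := Hr) (Hb := Hb)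
    positivity
  refine ⟨_, (tendsto_add_atTop_iff_nat 2).1 (tendsto_atTop_ciInf hanti hbdd)⟩

/-- The main reduction: if every 2-coloured multigraph on `n` vertices (`n` large) in which
`a (number of non-red neighbours) + b (number of non-blue neighbours) ≤ (1 - ε) n` for every
vertex contains `H`, then `μ_p(H) ≤ 1 - 1/(a+b)` for `p = a/(a+b)`. -/
def Forces {V : Type} (a b : ℝ) (Hr Hb : SimpleGraph V) : Prop :=
  ∀ ε : ℝ, 0 < ε → ∃ N : ℕ, ∀ n : ℕ, N ≤ n → ∀ Gr Gb : SimpleGraph (Fin n),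
    (∀ v, a * nonadj Gr v + b * nonadj Gb v ≤ (1 - ε) * n) → Contains Hr Hb Gr Gb

theorem ex_bound {a b ε : ℝ} (hab : 0 < a + b)
    (hH : ∃ x y, Hr.Adj x y ∨ Hb.Adj x y) {N : ℕ}
    (hN : ∀ n : ℕ, N ≤ n → ∀ Gr Gb : SimpleGraph (Fin n),
      (∀ v, a * nonadj Gr v + b * nonadj Gb v ≤ (1 - ε) * n) → Contains Hr Hb Gr Gb) (n : ℕ) :
    ex (a / (a + b)) Hr Hb (N + n) ≤ ex (a / (a + b)) Hr Hb N +
      (1 - (1 - ε) / (a + b)) * (n * N + n * (n + 1) / 2) := by
  induction n with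
  | zero => simp
  | succ n ih =>
    obtain ⟨Gr, Gb, hG, h⟩ := exists_extremal hH (a / (a + b)) (N + n + 1)
    have h1 : ∃ v, (1 - ε) * ((N + n + 1 : ℕ) : ℝ) < a * nonadj Gr v + b * nonadj Gb v := by
      by_contra hcon
      push Not at hcon
      exact hG (hN (N + n + 1) (by omega) Gr Gb hcon)
    obtain ⟨v, hv⟩ := h1
    have h2 := weight_delete (a / (a + b)) Gr Gb v
    have h3 : weight (a / (a + b)) (Gr.comap v.succAbove) (Gb.comap v.succAbove) ≤
        ex (a / (a + b)) Hr Hb (N + n) :=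
      weight_le_ex (not_contains_comap (v.succAboveEmb) hG)
    have h4 : a / (a + b) * nonadj Gr v + (1 - a / (a + b)) * nonadj Gb v =
        (a * nonadj Gr v + b * nonadj Gb v) / (a + b) := by
      field_simp
      ring
    have h5 : (1 - ε) / (a + b) * ((N + n + 1 : ℕ) : ℝ) ≤
        (a * nonadj Gr v + b * nonadj Gb v) / (a + b) := by
      rw [div_mul_eq_mul_div]
      exact div_le_div_of_nonneg_right hv.le hab.le
    have h6 : N + (n + 1) = N + n + 1 := by ring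
    rw [h6, h, h2, h4]
    push_cast at h5 ih ⊢
    have h7 : (1 - (1 - ε) / (a + b)) * (((n : ℝ) + 1) * N + (n + 1) * (n + 1 + 1) / 2) =
        (1 - (1 - ε) / (a + b)) * (n * N + n * (n + 1) / 2) +
        ((N : ℝ) + n + 1) - (1 - ε) / (a + b) * ((N : ℝ) + n + 1) := by ring
    rw [h7]
    linarith

theorem limit_bound (c C : ℝ) (N : ℕ) :
    Tendsto (fun n : ℕ => (C + c * ((n : ℝ) * N + n * (n + 1) / 2)) / ((N + n).choose 2 : ℝ))
      atTop (𝓝 c) := by
  have h1 : (fun n : ℕ => (C + c * ((n : ℝ) * N + n * (n + 1) / 2)) / ((N + n).choose 2 : ℝ)) =ᶠ[atTop]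
      (fun n : ℕ => (C * (1 / (n : ℝ)) * (1 / (n : ℝ)) + c * (N * (1 / (n : ℝ)) + (1 + 1 / (n : ℝ)) / 2)) /
        ((N * (1 / (n : ℝ)) + 1) * (N * (1 / (n : ℝ)) + 1 - 1 / (n : ℝ)) / 2)) := by
    filter_upwards [eventually_gt_atTop 1] with n hn
    have hn0 : (n : ℝ) ≠ 0 := by
      have : 0 < n := by omega
      positivity
    have hn1 : (1 : ℝ) < n := by exact_mod_cast hn
    rw [Nat.cast_choose_two]
    push_cast
    have hN : (0 : ℝ) ≤ N := by positivity
    have e1 : (N : ℝ) + n - 1 ≠ 0 := by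
      have : (0 : ℝ) < N + n - 1 := by linarith
      exact this.ne'
    have e2 : (N : ℝ) + n ≠ 0 := by
      have : (0 : ℝ) < N + n := by linarith
      exact this.ne'
    have e3 : (N : ℝ) * (1 / n) + 1 = (N + n) / n := by field_simp
    have e4 : (N : ℝ) * (1 / n) + 1 - 1 / n = (N + n - 1) / n := by field_simp
    rw [e4, e3]
    field_simp
  rw [tendsto_congr' h1]
  have h2 : Tendsto (fun n : ℕ => 1 / (n : ℝ)) atTop (𝓝 0) := tendsto_one_div_atTop_nhds_zero_nat
  have h3 : Tendsto (fun n : ℕ => (C * (1 / (n : ℝ)) * (1 / (n : ℝ)) +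
      c * (N * (1 / (n : ℝ)) + (1 + 1 / (n : ℝ)) / 2)) /
        ((N * (1 / (n : ℝ)) + 1) * (N * (1 / (n : ℝ)) + 1 - 1 / (n : ℝ)) / 2)) atTop
      (𝓝 ((C * 0 * 0 + c * (N * 0 + (1 + 0) / 2)) / ((N * 0 + 1) * (N * 0 + 1 - 0) / 2))) := by
    apply Tendsto.div
    · apply Tendsto.add
      · exact (h2.const_mul C).mul h2
      · apply Tendsto.const_mul
        apply Tendsto.add (h2.const_mul _)
        exact (h2.const_add 1).div_const 2
    · apply Tendsto.div_const
      apply Tendsto.mul ((h2.const_mul _).add_const 1)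
      exact ((h2.const_mul _).add_const 1).sub h2
    · norm_num
  convert h3 using 2
  ring

theorem mu_le_of_forces {a b : ℝ} (ha : 0 ≤ a) (hb : 0 ≤ b) (hab : 0 < a + b)
    (hH : ∃ x y, Hr.Adj x y ∨ Hb.Adj x y) (hF : Forces a b Hr Hb) :
    ∃ μ : ℝ, Tendsto (fun n : ℕ => ex (a / (a + b)) Hr Hb n / (n.choose 2 : ℝ)) atTop (𝓝 μ) ∧
      μ ≤ 1 - 1 / (a + b) := by
  have hp0 : 0 ≤ a / (a + b) := by positivity
  have hp1 : a / (a + b) ≤ 1 := by
    rw [div_le_one hab]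
    linarith
  obtain ⟨μ, hμ⟩ := exists_limit (Hr := Hr) (Hb := Hb) hH hp0 hp1
  refine ⟨μ, hμ, ?_⟩
  have h1 : ∀ ε : ℝ, 0 < ε → μ ≤ 1 - (1 - ε) / (a + b) := by
    intro ε hε
    obtain ⟨N, hN⟩ := hF ε hε
    have h2 : Tendsto (fun n : ℕ => ex (a / (a + b)) Hr Hb (N + n) / ((N + n).choose 2 : ℝ))
        atTop (𝓝 μ) := by
      have h3 := (tendsto_add_atTop_iff_nat N).2 hμ
      simpa [add_comm] using h3
    have h4 := limit_bound (1 - (1 - ε) / (a + b)) (ex (a / (a + b)) Hr Hb N) N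
    apply le_of_tendsto_of_tendsto h2 h4
    filter_upwards with n
    apply div_le_div_of_nonneg_right _ (by positivity)
    exact ex_bound hab hH hN n
  have h5 : Tendsto (fun ε : ℝ => 1 - (1 - ε) / (a + b)) (𝓝[>] 0) (𝓝 (1 - (1 - 0) / (a + b))) := by
    apply Tendsto.mono_left _ nhdsWithin_le_nhds
    apply Continuous.tendsto
    fun_prop
  have h6 := ge_of_tendsto h5 (by
    filter_upwards [self_mem_nhdsWithin] with ε hε
    exact h1 ε hε)
  simpa using h6

end general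

end Pool.Agent.Lib.MP_a05470_co
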