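import Pool.Agent.Lib.MP_a05470_co.LowerHalf

set_option autoImplicit false

namespace Pool.Agent.Lib.MP_a05470_co

open Finset Classical Filter Topology

section HalfValue

variable {V : Type} {H : SimpleGraph V}

theorem tendsto_half {s : ℝ} (hs : 0 < s) (hH : ∃ x y, H.Adj x y ∨ Hᶜ.Adj x y)
    (hF : Forces s s H Hᶜ)
    (hlow : ∀ μ : ℝ, Tendsto (fun n : ℕ => ex (1 / 2) H Hᶜ n / (n.choose 2 : ℝ)) atTop (𝓝 μ) →
      1 - 1 / (2 * s) ≤ μ) :
    Tendsto (fun n : ℕ => ex (1 / 2) H Hᶜ n / (n.choose 2 : ℝ)) atTop (𝓝 (1 - 1 / (2 * s))) := by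
  obtain ⟨μ, hμ, hle⟩ := mu_le_of_forces hs.le hs.le (by linarith) hH hF
  have h1 : s / (s + s) = 1 / 2 := by
    field_simp
    ring
  rw [h1] at hμ
  have h2 : s + s = 2 * s := by ring
  rw [h2] at hle
  have h3 := le_antisymm hle (hlow μ hμ)
  rwa [← h3]

theorem BalOn.even_card (k : ℕ) {κ : V → V} {σ : V → Bool} : ∀ {Y : Finset V}, Y.card ≤ k →
    BalOn H Y κ σ → Even Y.card := by
  induction k with
  | zero =>
    intro Y hY _
    have : Y.card = 0 := by omega
    rw [this]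
    exact Even.zero
  | succ k ih =>
    intro Y hY hB
    rcases Y.eq_empty_or_nonempty with rfl | ⟨x, hx⟩
    · simp
    · obtain ⟨x', hx', hxx⟩ := hB.partner hx
      have hc := card_sdiff_pair hx hx' (H.ne_of_adj hxx)
      have h1 := ih (Y := Y \ {x, x'}) (by omega) (hB.remove hx hx' hxx)
      rw [← hc]
      exact h1.add even_two

/-- the exceptional graphs -/
theorem half_bal [Fintype V] (hV : 2 ≤ Fintype.card V) {κ : V → V} {σ : V → Bool}
    (hB : BalOn H Finset.univ κ σ) :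
    Tendsto (fun n : ℕ => ex (1 / 2) H Hᶜ n / (n.choose 2 : ℝ)) atTop
      (𝓝 (1 - 1 / (Fintype.card V : ℝ))) := by
  obtain ⟨m, hm⟩ := hB.even_card (Finset.univ : Finset V).card le_rfl
  rw [Finset.card_univ] at hm
  have hm2 : Fintype.card V = 2 * m := by omega
  have hm1 : 1 ≤ m := by omega
  have hcov : Cov H m Finset.univ := hB.cov m (by rw [Finset.card_univ]; exact hm2)
  have hF : Forces (m : ℝ) m H Hᶜ :=
    forces_odd hm1 (by omega) (hB.colorable_two.mono (by omega))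
      ((colorable_of_cov hcov).mono (by omega))
  have hH : ∃ x y, H.Adj x y ∨ Hᶜ.Adj x y := by
    obtain ⟨x, hx⟩ := Finset.card_pos.1
      (show 0 < (Finset.univ : Finset V).card by rw [Finset.card_univ]; omega)
    obtain ⟨x', _, hxx⟩ := hB.partner hx
    exact ⟨x, x', Or.inl hxx⟩
  have h1 := tendsto_half (s := (m : ℝ)) (by exact_mod_cast hm1) hH hF
    (fun μ hμ => mu_ge_bal hB hm1 hm2 hμ)
  have h2 : (Fintype.card V : ℝ) = 2 * m := by exact_mod_cast hm2
  rw [h2]
  exact h1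

theorem half_general [Fintype V] (hV : 2 ≤ Fintype.card V)
    (hn1 : ∀ (κ : V → V) (σ : V → Bool), ¬ BalOn H Finset.univ κ σ)
    (hn2 : ∀ (κ : V → V) (σ : V → Bool), ¬ BalOn Hᶜ Finset.univ κ σ) {K : ℕ} (hK : 2 ≤ K)
    (h1 : H.Colorable K) (h2 : Hᶜ.Colorable K)
    (h3 : ¬ H.Colorable (K - 1) ∨ ¬ Hᶜ.Colorable (K - 1)) :
    Tendsto (fun n : ℕ => ex (1 / 2) H Hᶜ n / (n.choose 2 : ℝ)) atTop
      (𝓝 (1 - 1 / ((max (Fintype.card V - 1) (2 * (K - 1)) : ℕ) : ℝ))) := by
  have hH : ∃ x y, H.Adj x y ∨ Hᶜ.Adj x y := by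
    obtain ⟨x, y, hxy⟩ := Fintype.one_lt_card_iff.1 (show 1 < Fintype.card V by omega)
    refine ⟨x, y, ?_⟩
    by_cases h : H.Adj x y
    · exact Or.inl h
    · exact Or.inr (compl_adj_of hxy h)
  have hlow1 : ∀ μ : ℝ, Tendsto (fun n : ℕ => ex (1 / 2) H Hᶜ n / (n.choose 2 : ℝ)) atTop (𝓝 μ) →
      1 - 1 / ((Fintype.card V : ℝ) - 1) ≤ μ := fun μ hμ => mu_ge H hV hμ
  have hlow2 : ∀ μ : ℝ, Tendsto (fun n : ℕ => ex (1 / 2) H Hᶜ n / (n.choose 2 : ℝ)) atTop (𝓝 μ) →
      1 - 1 / (2 * ((K - 1 : ℕ) : ℝ)) ≤ μ := by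
    intro μ hμ
    rcases h3 with h3 | h3
    · have h4 : Tendsto (fun n : ℕ => ex (1 / 2) Hᶜ Hᶜᶜ n / (n.choose 2 : ℝ)) atTop (𝓝 μ) := by
        rw [compl_compl]
        have h5 : (fun n : ℕ => ex (1 / 2) Hᶜ H n / (n.choose 2 : ℝ)) =
            (fun n : ℕ => ex (1 / 2) H Hᶜ n / (n.choose 2 : ℝ)) := by
          funext n
          rw [ex_swap]
        rw [h5]
        exact hμ
      exact mu_ge_chi (H := Hᶜ) (by omega) (by rwa [compl_compl]) h4
    · exact mu_ge_chi (by omega) h3 hμ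
  rcases Nat.lt_or_ge (2 * (K - 1)) (Fintype.card V - 1) with hc | hc
  · rw [max_eq_left hc.le]
    have hcast : ((Fintype.card V - 1 : ℕ) : ℝ) = (Fintype.card V : ℝ) - 1 := by
      push_cast [show 1 ≤ Fintype.card V by omega]
      ring
    rw [hcast]
    rcases Nat.even_or_odd' (Fintype.card V) with ⟨m, hm | hm⟩
    · have hng1 : ¬ NG H m Finset.univ := by
        intro h
        obtain ⟨κ, σ, hB, _⟩ := h.bal
        exact hn1 κ σ hB
      have hng2 : ¬ NG Hᶜ m Finset.univ := by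
        intro h
        obtain ⟨κ, σ, hB, _⟩ := h.bal
        exact hn2 κ σ hB
      have hF := forces_even (by omega) hm (h1.mono (by omega)) (h2.mono (by omega)) hng1 hng2
      have hm1 : (1 : ℝ) ≤ m := by
        have : 1 ≤ m := by omega
        exact_mod_cast this
      have e1 : (Fintype.card V : ℝ) - 1 = 2 * ((m : ℝ) - 1 / 2) := by
        rw [hm]
        push_cast
        ring
      rw [e1]
      apply tendsto_half (by linarith) hH hF
      rw [← e1]
      exact hlow1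
    · have hF : Forces (m : ℝ) m H Hᶜ :=
        forces_odd (by omega) hm.le (h1.mono (by omega)) (h2.mono (by omega))
      have e1 : (Fintype.card V : ℝ) - 1 = 2 * (m : ℝ) := by
        rw [hm]
        push_cast
        ring
      have hm1 : (0 : ℝ) < m := by
        have : 0 < m := by omega
        exact_mod_cast this
      rw [e1]
      apply tendsto_half hm1 hH hF
      rw [← e1]
      exact hlow1
  · rw [max_eq_right hc]
    have hF : Forces ((K - 1 : ℕ) : ℝ) ((K - 1 : ℕ) : ℝ) H Hᶜ :=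
      forces_odd (by omega) (by omega) (h1.mono (by omega)) (h2.mono (by omega))
    have hm1 : (0 : ℝ) < ((K - 1 : ℕ) : ℝ) := by
      have : 0 < K - 1 := by omega
      exact_mod_cast this
    rw [Nat.cast_mul, Nat.cast_ofNat]
    exact tendsto_half hm1 hH hF hlow2

theorem colorable_iff_toNat [Fintype V] (G : SimpleGraph V) (k : ℕ) :
    G.Colorable k ↔ G.chromaticNumber.toNat ≤ k := by
  have h1 : G.chromaticNumber ≠ ⊤ := by
    rw [SimpleGraph.chromaticNumber_ne_top_iff_exists]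
    exact ⟨_, G.colorable_of_fintype⟩
  have h2 : ((G.chromaticNumber.toNat : ℕ) : ℕ∞) = G.chromaticNumber := ENat.natCast_toNat h1
  rw [← SimpleGraph.chromaticNumber_le_iff_colorable, ← h2]
  exact Nat.cast_le

end HalfValue

end Pool.Agent.Lib.MP_a05470_co
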