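import Pool.Agent.Lib.MP_a05470_co.UnivForces
import Pool.Agent.Lib.MP_a05470_co.HalfValue

set_option autoImplicit false

namespace Pool.Agent.Lib.MP_a05470_co

open Finset Classical Filter Topology

/-- relabelling the vertices of `H` -/
theorem forces_congr {V V' : Type} (φ : V ≃ V') {H : SimpleGraph V'} {a b : ℝ}
    (h : Forces a b (H.comap φ) (H.comap φ)ᶜ) : Forces a b H Hᶜ := by
  intro ε hε
  obtain ⟨N, hN⟩ := h ε hε
  refine ⟨N, fun n hn Gr Gb hG => ?_⟩
  obtain ⟨f, hf, hh⟩ := hN n hn Gr Gb hG
  refine ⟨fun x => f (φ.symm x), hf.comp φ.symm.injective, fun x y => ?_⟩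
  have h1 := hh (φ.symm x) (φ.symm y)
  simp only [SimpleGraph.compl_adj, SimpleGraph.comap_adj, Equiv.apply_symm_apply,
    ne_eq, EmbeddingLike.apply_eq_iff_eq] at h1
  exact ⟨h1.1, fun h2 => h1.2 ((SimpleGraph.compl_adj H x y).1 h2)⟩

/-- a vertex set `W` without red edges inside, into which the rest of `H` can be matched in red,
and which has more than half of the vertices -/
theorem forces_koenig {V : Type} [Fintype V] (H : SimpleGraph V) (W : Finset V)
    (hW : ∀ x ∈ W, ∀ y ∈ W, ¬ H.Adj x y) (hcard : Fintype.card V < 2 * W.card)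
    (hne : W.card < Fintype.card V) (f : {x // ¬ x ∈ W} → {x // x ∈ W})
    (hf : Function.Injective f) (hfa : ∀ x : {x // ¬ x ∈ W}, H.Adj x (f x)) :
    Forces ((Fintype.card V : ℝ) - W.card) ((W.card : ℝ) - 1) H Hᶜ := by
  have hc1 : Fintype.card {x // x ∈ W} = W.card := Fintype.card_coe W
  have hc2 : Fintype.card {x // ¬ x ∈ W} = Fintype.card V - W.card := by
    rw [Fintype.card_subtype_compl, hc1]
  have : Nonempty {x // ¬ x ∈ W} := by
    rw [← Fintype.card_pos_iff, hc2]
    omega
  let φ : {x // ¬ x ∈ W} ⊕ {x // x ∈ W} ≃ V := (Equiv.sumComm _ _).trans (Equiv.sumCompl _)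
  have h1 := forces_univ f hf (by rw [hc1, hc2]; omega) (H.comap φ)
    (fun y y' => hW y.1 y.2 y'.1 y'.2) (fun x => hfa x)
  rw [hc1, hc2, Nat.cast_sub hne.le] at h1
  exact forces_congr φ h1

/-- the graph without edges -/
theorem forces_bot {V : Type} [Fintype V] {h : ℕ} (hh : Fintype.card V = h + 1) :
    ∃ a b : ℝ, 0 ≤ a ∧ 0 ≤ b ∧ a + b = (h : ℝ) ∧ Forces a b (⊥ : SimpleGraph V) (⊥ : SimpleGraph V)ᶜ := by
  have h0 : Forces 0 0 ((⊥ : SimpleGraph (Unit ⊕ Fin h)).comap Sum.inl)
      ((⊥ : SimpleGraph (Unit ⊕ Fin h)).comap Sum.inl)ᶜ := by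
    intro ε hε
    refine ⟨1, fun n hn Gr Gb _ => ⟨fun _ => ⟨0, hn⟩, fun x y _ => Subsingleton.elim x y, ?_⟩⟩
    intro x y
    have hxy : x = y := Subsingleton.elim x y
    subst hxy
    exact ⟨fun h => (SimpleGraph.irrefl _ h).elim, fun h => (SimpleGraph.irrefl _ h).elim⟩
  obtain ⟨a, b, ha, hb, hab, hF⟩ := forces_extend h (⊥ : SimpleGraph (Unit ⊕ Fin h))
    (fun _ => false) (fun i x => by simp) (fun i j _ => by simp) 0 0 le_rfl le_rfl h0
  refine ⟨a, b, ha, hb, by rw [hab]; ring, ?_⟩
  have hcard : Fintype.card (Unit ⊕ Fin h) = Fintype.card V := by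
    rw [hh, Fintype.card_sum]
    simp [add_comm]
  let φ : (Unit ⊕ Fin h) ≃ V := Fintype.equivOfCardEq hcard
  apply forces_congr φ
  have e1 : (⊥ : SimpleGraph V).comap φ = ⊥ := by
    ext x y
    simp
  rw [e1]
  exact hF

/-- König: in a bipartite graph, a maximum independent set `W` has at least half of the vertices,
and the rest can be matched into it. -/
theorem exists_koenig {V : Type} [Fintype V] (H : SimpleGraph V) (hH : H.Colorable 2) :
    ∃ W : Finset V, (∀ x ∈ W, ∀ y ∈ W, ¬ H.Adj x y) ∧ Fintype.card V ≤ 2 * W.card ∧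
      ∃ f : {x // ¬ x ∈ W} → {x // x ∈ W}, Function.Injective f ∧
        ∀ x : {x // ¬ x ∈ W}, H.Adj x (f x) := by
  obtain ⟨C⟩ := hH
  obtain ⟨W, hW, hmax⟩ := Finset.exists_max_image
    ((Finset.univ : Finset (Finset V)).filter (fun W => ∀ x ∈ W, ∀ y ∈ W, ¬ H.Adj x y))
    Finset.card ⟨∅, by simp⟩
  rw [Finset.mem_filter] at hW
  have hWi := hW.2
  have hWmax : ∀ W' : Finset V, (∀ x ∈ W', ∀ y ∈ W', ¬ H.Adj x y) → W'.card ≤ W.card := by
    intro W' h
    apply hmax W'
    rw [Finset.mem_filter]
    exact ⟨Finset.mem_univ _, h⟩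
  refine ⟨W, hWi, ?_, ?_⟩
  · have hcl : ∀ c : Fin 2, ((Finset.univ : Finset V).filter (fun x => C x = c)).card ≤ W.card := by
      intro c
      apply hWmax
      intro x hx y hy hxy
      rw [Finset.mem_filter] at hx hy
      exact C.valid hxy (hx.2.trans hy.2.symm)
    have h1 : (Finset.univ : Finset V).card =
        ∑ c : Fin 2, ((Finset.univ : Finset V).filter (fun x => C x = c)).card :=
      Finset.card_eq_sum_card_fiberwise (fun x _ => Finset.mem_coe.2 (Finset.mem_univ _))
    rw [Fin.sum_univ_two, Finset.card_univ] at h1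
    have h2 := hcl 0
    have h3 := hcl 1
    omega
  · -- Hall
    let t : {x // ¬ x ∈ W} → Finset {x // x ∈ W} := fun x =>
      Finset.univ.filter (fun y => H.Adj x y)
    have hall : ∀ A : Finset {x // ¬ x ∈ W}, A.card ≤ (A.biUnion t).card := by
      -- for a set in one class
      have hone : ∀ (c : Fin 2) (A : Finset {x // ¬ x ∈ W}), (∀ x ∈ A, C x = c) →
          A.card ≤ (A.biUnion t).card := by
        intro c A hA
        let A' : Finset V := A.image Subtype.val
        let T' : Finset V := (A.biUnion t).image Subtype.val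
        have hA'c : A'.card = A.card := Finset.card_image_of_injective _ Subtype.val_injective
        have hT'c : T'.card = (A.biUnion t).card :=
          Finset.card_image_of_injective _ Subtype.val_injective
        have hA'W : Disjoint (W \ T') A' := by
          rw [Finset.disjoint_left]
          intro x hx hx'
          rw [Finset.mem_sdiff] at hx
          rw [Finset.mem_image] at hx'
          obtain ⟨y, _, rfl⟩ := hx'
          exact y.2 hx.1
        have hT'W : T' ⊆ W := by
          intro x hx
          rw [Finset.mem_image] at hx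
          obtain ⟨y, _, rfl⟩ := hx
          exact y.2
        have hcross : ∀ x ∈ A', ∀ y ∈ W \ T', ¬ H.Adj x y := by
          intro x hx y hy hxy
          rw [Finset.mem_image] at hx
          obtain ⟨x', hx', rfl⟩ := hx
          rw [Finset.mem_sdiff] at hy
          apply hy.2
          rw [Finset.mem_image]
          refine ⟨⟨y, hy.1⟩, ?_, rfl⟩
          rw [Finset.mem_biUnion]
          exact ⟨x', hx', Finset.mem_filter.2 ⟨Finset.mem_univ _, hxy⟩⟩
        have h1 := hWmax ((W \ T') ∪ A') (by
          intro x hx y hy hxy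
          rw [Finset.mem_union] at hx hy
          rcases hx with hx | hx
          · rcases hy with hy | hy
            · exact hWi x (Finset.mem_sdiff.1 hx).1 y (Finset.mem_sdiff.1 hy).1 hxy
            · exact hcross y hy x hx hxy.symm
          · rcases hy with hy | hy
            · exact hcross x hx y hy hxy
            · rw [Finset.mem_image] at hx hy
              obtain ⟨x', hx', rfl⟩ := hx
              obtain ⟨y', hy', rfl⟩ := hy
              exact C.valid hxy ((hA x' hx').trans (hA y' hy').symm))
        rw [Finset.card_union_of_disjoint hA'W, Finset.card_sdiff_of_subset hT'W] at h1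
        have h2 := Finset.card_le_card hT'W
        omega
      intro A
      have h0 := hone 0 (A.filter (fun x : {x // ¬ x ∈ W} => C x = 0)) (fun x hx => (Finset.mem_filter.1 hx).2)
      have h1 := hone 1 (A.filter (fun x : {x // ¬ x ∈ W} => ¬ C x = 0)) (fun x hx => by
        have h2 := (Finset.mem_filter.1 hx).2
        revert h2
        generalize C (x : V) = c
        revert c
        decide)
      have h2 := Finset.card_filter_add_card_filter_not (s := A) (fun x => C (x : V) = 0)
      have h3 : A.biUnion t = (A.filter (fun x : {x // ¬ x ∈ W} => C x = 0)).biUnion t ∪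
          (A.filter (fun x : {x // ¬ x ∈ W} => ¬ C x = 0)).biUnion t := by
        rw [← Finset.union_biUnion, Finset.filter_union_filter_not_eq]
      have h4 : Disjoint ((A.filter (fun x : {x // ¬ x ∈ W} => C x = 0)).biUnion t)
          ((A.filter (fun x : {x // ¬ x ∈ W} => ¬ C x = 0)).biUnion t) := by
        rw [Finset.disjoint_left]
        intro y hy hy'
        rw [Finset.mem_biUnion] at hy hy'
        obtain ⟨x, hx, hxy⟩ := hy
        obtain ⟨x', hx', hxy'⟩ := hy'
        have e1 := (Finset.mem_filter.1 hx).2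
        have e2 := (Finset.mem_filter.1 hx').2
        have e3 := C.valid (Finset.mem_filter.1 hxy).2
        have e4 := C.valid (Finset.mem_filter.1 hxy').2
        revert e1 e2 e3 e4
        generalize C (x : V) = c
        generalize C (x' : V) = c'
        generalize C (y : V) = c''
        revert c c' c''
        decide
      rw [h3, Finset.card_union_of_disjoint h4]
      omega
    obtain ⟨f, hf, hft⟩ := (Finset.all_card_le_biUnion_card_iff_exists_injective t).1 hall
    exact ⟨f, hf, fun x => (Finset.mem_filter.1 (hft x)).2⟩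

/-- `H` bipartite -/
theorem forces_bip {V : Type} [Fintype V] (H : SimpleGraph V) (hV : 3 ≤ Fintype.card V)
    (hn1 : ∀ (κ : V → V) (σ : V → Bool), ¬ BalOn H Finset.univ κ σ)
    (hn2 : ∀ (κ : V → V) (σ : V → Bool), ¬ BalOn Hᶜ Finset.univ κ σ) (hH : H.Colorable 2) :
    ∃ a b : ℝ, 0 ≤ a ∧ 0 ≤ b ∧ a + b = (Fintype.card V : ℝ) - 1 ∧ Forces a b H Hᶜ := by
  obtain ⟨W, hW, hc, f, hf, hfa⟩ := exists_koenig H hH
  have hWV : W.card ≤ Fintype.card V := Finset.card_le_univ W
  rcases Nat.lt_or_ge W.card (Fintype.card V) with h1 | h1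
  · rcases Nat.lt_or_ge (Fintype.card V) (2 * W.card) with h2 | h2
    · have h3 : (W.card : ℝ) < Fintype.card V := by exact_mod_cast h1
      have h4 : (1 : ℝ) ≤ W.card := by
        have : 1 ≤ W.card := by omega
        exact_mod_cast this
      exact ⟨_, _, by linarith, by linarith, by ring, forces_koenig H W hW h2 h1 f hf hfa⟩
    · have hm : Fintype.card V = 2 * W.card := le_antisymm hc h2
      have hm2 : 2 ≤ W.card := by omega
      have hcol : Hᶜ.Colorable W.card := by
        have h3 : Hᶜ.Coloring {x // x ∈ W} := by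
          refine SimpleGraph.Coloring.mk (fun x => if hx : x ∈ W then ⟨x, hx⟩ else f ⟨x, hx⟩) ?_
          intro x y hxy
          rw [SimpleGraph.compl_adj] at hxy
          by_cases hx : x ∈ W
          · by_cases hy : y ∈ W
            · rw [dif_pos hx, dif_pos hy]
              intro h
              exact hxy.1 (congrArg Subtype.val h)
            · rw [dif_pos hx, dif_neg hy]
              intro h
              have h5 := hfa ⟨y, hy⟩
              rw [← h] at h5
              exact hxy.2 h5.symm
          · by_cases hy : y ∈ W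
            · rw [dif_neg hx, dif_pos hy]
              intro h
              have h5 := hfa ⟨x, hx⟩
              rw [h] at h5
              exact hxy.2 h5
            · rw [dif_neg hx, dif_neg hy]
              intro h
              exact hxy.1 (congrArg Subtype.val (hf h))
        have h4 := h3.colorable
        rwa [Fintype.card_coe] at h4
      have hng1 : ¬ NG H W.card Finset.univ := by
        intro h
        obtain ⟨κ, σ, hB, _⟩ := h.bal
        exact hn1 κ σ hB
      have hng2 : ¬ NG Hᶜ W.card Finset.univ := by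
        intro h
        obtain ⟨κ, σ, hB, _⟩ := h.bal
        exact hn2 κ σ hB
      have hF := forces_even hm2 hm (hH.mono hm2) hcol hng1 hng2
      have h4 : (2 : ℝ) ≤ W.card := by exact_mod_cast hm2
      refine ⟨_, _, by linarith, by linarith, ?_, hF⟩
      rw [hm]
      push_cast
      ring
  · have hWu : W = Finset.univ := Finset.eq_univ_of_card W (le_antisymm hWV h1)
    have hbot : H = ⊥ := by
      ext x y
      simp only [SimpleGraph.bot_adj, iff_false]
      exact hW x (by rw [hWu]; exact Finset.mem_univ _) y (by rw [hWu]; exact Finset.mem_univ _)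
    obtain ⟨a, b, ha, hb, hab, hF⟩ := forces_bot (V := V) (h := Fintype.card V - 1) (by omega)
    rw [hbot]
    refine ⟨a, b, ha, hb, ?_, hF⟩
    rw [hab, Nat.cast_sub (by omega)]
    simp

end Pool.Agent.Lib.MP_a05470_co
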