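import Pool.Agent.Lib.MP_a05470_co.Basic

set_option autoImplicit false

namespace Pool.Agent.Lib.MP_a05470_co

open Finset Classical Filter Topology

section Boxes

variable {n : ℕ} {Gr Gb : SimpleGraph (Fin n)}

/-- a box: a nonempty set of vertices in which every pair has exactly one colour -/
def IsBox (Gr Gb : SimpleGraph (Fin n)) (C : Finset (Fin n)) : Prop :=
  C.Nonempty ∧ ∀ x ∈ C, ∀ y ∈ C, x ≠ y → (Gr.Adj x y ↔ ¬ Gb.Adj x y)

/-- a family of boxes, green between different boxes -/
def IsFam (Gr Gb : SimpleGraph (Fin n)) (F : Finset (Finset (Fin n))) : Prop :=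
  (∀ C ∈ F, IsBox Gr Gb C) ∧
    ∀ C ∈ F, ∀ D ∈ F, C ≠ D → ∀ x ∈ C, ∀ y ∈ D, Gr.Adj x y ∧ Gb.Adj x y

theorem IsFam.disj {F : Finset (Finset (Fin n))} (hF : IsFam Gr Gb F) :
    ∀ C ∈ F, ∀ D ∈ F, C ≠ D → Disjoint C D := by
  intro C hC D hD hCD
  rw [Finset.disjoint_left]
  intro x hx hx'
  exact Gr.irrefl (hF.2 C hC D hD hCD x hx x hx').1

theorem IsFam.sum_card_le {F : Finset (Finset (Fin n))} (hF : IsFam Gr Gb F) :
    ∑ C ∈ F, C.card ≤ n := by
  have h1 : (F.biUnion id).card = ∑ C ∈ F, C.card := by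
    apply Finset.card_biUnion
    intro C hC D hD hCD
    exact hF.disj C hC D hD hCD
  rw [← h1]
  calc (F.biUnion id).card ≤ (Finset.univ : Finset (Fin n)).card := Finset.card_le_univ _
    _ = n := by simp

/-- the potential of a box with `d` vertices -/
noncomputable def phi (n d : ℕ) : ℝ := ∑ j ∈ Finset.range d, (1 / ((n : ℝ) + 1)) ^ j

/-- the vertices of `C` green to `v` -/
noncomputable def grn (Gr Gb : SimpleGraph (Fin n)) (v : Fin n) (C : Finset (Fin n)) :
    Finset (Fin n) :=
  C.filter (fun x => Gr.Adj v x ∧ Gb.Adj v x)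

theorem grn_subset (v : Fin n) (C : Finset (Fin n)) : grn Gr Gb v C ⊆ C :=
  Finset.filter_subset _ _

theorem phi_succ (n d : ℕ) : phi n (d + 1) = phi n d + (1 / ((n : ℝ) + 1)) ^ d := by
  unfold phi
  rw [Finset.sum_range_succ]

theorem phi_loss (n m d e : ℕ) (hde : d ≤ e) (h : d = e ∨ m ≤ d) :
    phi n e ≤ phi n d + ((e : ℝ) - d) * (1 / ((n : ℝ) + 1)) ^ m := by
  rcases h with rfl | h
  · simp
  · obtain ⟨t, rfl⟩ := Nat.exists_eq_add_of_le hde
    induction t with
    | zero => simp
    | succ t ih =>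
      have h1 := ih (by omega)
      have h2 : d + (t + 1) = d + t + 1 := by ring
      rw [h2, phi_succ]
      have h3 : (1 / ((n : ℝ) + 1)) ^ (d + t) ≤ (1 / ((n : ℝ) + 1)) ^ m := by
        apply pow_le_pow_of_le_one (by positivity)
        · rw [div_le_one (by positivity)]
          have : (0 : ℝ) ≤ n := by positivity
          linarith
        · omega
      push_cast at h1 ⊢
      nlinarith

theorem grn_injOn {F : Finset (Finset (Fin n))} (hF : IsFam Gr Gb F) (v : Fin n)
    (hne : ∀ C ∈ F, (grn Gr Gb v C).Nonempty) :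
    Set.InjOn (grn Gr Gb v) (F : Set (Finset (Fin n))) := by
  intro C hC D hD hCD
  by_contra hcon
  obtain ⟨x, hx⟩ := hne C hC
  have h1 : x ∈ D := grn_subset v D (by rw [← hCD]; exact hx)
  exact (Finset.disjoint_left.1 (hF.disj C hC D hD hcon)) (grn_subset v C hx) h1

/-- total loss of potential -/
theorem loss_le {F F0 : Finset (Finset (Fin n))} (hF : IsFam Gr Gb F) (h0 : F0 ⊆ F) (v : Fin n)
    (m : ℕ) (hm : ∀ C ∈ F0, (grn Gr Gb v C).card = C.card ∨ m ≤ (grn Gr Gb v C).card) :
    ∑ C ∈ F0, phi n C.card ≤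
      ∑ C ∈ F0, phi n (grn Gr Gb v C).card + n * (1 / ((n : ℝ) + 1)) ^ m := by
  have h1 : ∀ C ∈ F0, phi n C.card ≤ phi n (grn Gr Gb v C).card +
      ((C.card : ℝ)) * (1 / ((n : ℝ) + 1)) ^ m := by
    intro C hC
    have h2 := phi_loss n m (grn Gr Gb v C).card C.card
      (Finset.card_le_card (grn_subset v C)) (hm C hC)
    have h3 : (0 : ℝ) ≤ ((grn Gr Gb v C).card : ℝ) * (1 / ((n : ℝ) + 1)) ^ m := by positivity
    linarith
  have h2 := Finset.sum_le_sum h1
  rw [Finset.sum_add_distrib, ← Finset.sum_mul] at h2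
  have h3 : (∑ C ∈ F0, (C.card : ℝ)) ≤ n := by
    have h4 : ∑ C ∈ F0, C.card ≤ n :=
      (Finset.sum_le_sum_of_subset h0).trans hF.sum_card_le
    exact_mod_cast h4
  have h4 : (0 : ℝ) ≤ (1 / ((n : ℝ) + 1)) ^ m := by positivity
  have h5 := mul_le_mul_of_nonneg_right h3 h4
  linarith

theorem gain_gt (n m : ℕ) : (n : ℝ) * (1 / ((n : ℝ) + 1)) ^ (m + 1) < (1 / ((n : ℝ) + 1)) ^ m := by
  have h1 : (0 : ℝ) < (1 / ((n : ℝ) + 1)) ^ m := by positivity
  rw [pow_succ]
  have h2 : (n : ℝ) * (1 / ((n : ℝ) + 1)) < 1 := by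
    rw [mul_one_div, div_lt_one (by positivity)]
    linarith
  calc (n : ℝ) * ((1 / ((n : ℝ) + 1)) ^ m * (1 / ((n : ℝ) + 1))) =
      ((n : ℝ) * (1 / ((n : ℝ) + 1))) * (1 / ((n : ℝ) + 1)) ^ m := by ring
    _ < 1 * (1 / ((n : ℝ) + 1)) ^ m := mul_lt_mul_of_pos_right h2 h1
    _ = _ := one_mul _

theorem grn_sub_box {C : Finset (Fin n)} (hC : IsBox Gr Gb C) (v : Fin n)
    (hne : (grn Gr Gb v C).Nonempty) : IsBox Gr Gb (grn Gr Gb v C) :=
  ⟨hne, fun x hx y hy hxy => hC.2 x (grn_subset v C hx) y (grn_subset v C hy) hxy⟩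

/-- a family of boxes maximising the potential -/
theorem exists_max_family (Gr Gb : SimpleGraph (Fin n)) :
    ∃ F : Finset (Finset (Fin n)), IsFam Gr Gb F ∧ ∀ F', IsFam Gr Gb F' →
      ∑ C ∈ F', phi n C.card ≤ ∑ C ∈ F, phi n C.card := by
  set 𝒮 : Finset (Finset (Finset (Fin n))) := Finset.univ.filter (fun F => IsFam Gr Gb F) with h𝒮
  have hne : 𝒮.Nonempty := ⟨∅, by rw [h𝒮, Finset.mem_filter]; exact ⟨Finset.mem_univ _, by
    constructor <;> simp⟩⟩
  obtain ⟨F, hF, hmax⟩ := Finset.exists_max_image 𝒮 (fun F => ∑ C ∈ F, phi n C.card) hne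
  rw [h𝒮, Finset.mem_filter] at hF
  refine ⟨F, hF.2, fun F' hF' => hmax F' ?_⟩
  rw [h𝒮, Finset.mem_filter]
  exact ⟨Finset.mem_univ _, hF'⟩

/-- first move: a new box -/
theorem move_new {F : Finset (Finset (Fin n))} (hF : IsFam Gr Gb F)
    (hmax : ∀ F', IsFam Gr Gb F' → ∑ C ∈ F', phi n C.card ≤ ∑ C ∈ F, phi n C.card) (v : Fin n)
    (hne : ∀ C ∈ F, (grn Gr Gb v C).Nonempty) : False := by
  set F' := insert {v} (F.image (grn Gr Gb v)) with hF'
  have hnot : ({v} : Finset (Fin n)) ∉ F.image (grn Gr Gb v) := by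
    intro h
    rw [Finset.mem_image] at h
    obtain ⟨C, _, h1⟩ := h
    have h2 : v ∈ grn Gr Gb v C := by rw [h1]; exact Finset.mem_singleton_self v
    unfold grn at h2
    rw [Finset.mem_filter] at h2
    exact Gr.irrefl h2.2.1
  have hfam : IsFam Gr Gb F' := by
    constructor
    · intro C hC
      rw [hF', Finset.mem_insert] at hC
      rcases hC with rfl | hC
      · refine ⟨Finset.singleton_nonempty v, ?_⟩
        intro x hx y hy hxy
        rw [Finset.mem_singleton] at hx hy
        exact absurd (hx.trans hy.symm) hxy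
      · rw [Finset.mem_image] at hC
        obtain ⟨C, hC, rfl⟩ := hC
        exact grn_sub_box (hF.1 C hC) v (hne C hC)
    · intro C hC D hD hCD x hx y hy
      rw [hF', Finset.mem_insert] at hC hD
      rcases hC with rfl | hC
      · rcases hD with rfl | hD
        · exact absurd rfl hCD
        · rw [Finset.mem_image] at hD
          obtain ⟨D, hD, rfl⟩ := hD
          rw [Finset.mem_singleton] at hx
          subst hx
          unfold grn at hy
          exact (Finset.mem_filter.1 hy).2
      · rw [Finset.mem_image] at hC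
        obtain ⟨C, hC, rfl⟩ := hC
        rcases hD with rfl | hD
        · rw [Finset.mem_singleton] at hy
          subst hy
          unfold grn at hx
          have := (Finset.mem_filter.1 hx).2
          exact ⟨this.1.symm, this.2.symm⟩
        · rw [Finset.mem_image] at hD
          obtain ⟨D, hD, rfl⟩ := hD
          have hne' : C ≠ D := fun h => hCD (by rw [h])
          exact hF.2 C hC D hD hne' x (grn_subset v C hx) y (grn_subset v D hy)
  have h1 := hmax F' hfam
  rw [hF', Finset.sum_insert hnot, Finset.sum_image (grn_injOn hF v hne)] at h1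
  have h2 := loss_le hF (subset_refl F) v 1 (fun C hC => Or.inr (Finset.card_pos.2 (hne C hC)))
  have h3 := gain_gt n 0
  have h4 : phi n ({v} : Finset (Fin n)).card = 1 := by
    rw [Finset.card_singleton]
    unfold phi
    simp
  rw [h4] at h1
  simp only [pow_zero, zero_add] at h3
  linarith

/-- second move: `v` joins the box `C0` -/
theorem move_join {F : Finset (Finset (Fin n))} (hF : IsFam Gr Gb F)
    (hmax : ∀ F', IsFam Gr Gb F' → ∑ C ∈ F', phi n C.card ≤ ∑ C ∈ F, phi n C.card) (v : Fin n)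
    {k : ℕ} {C0 : Finset (Fin n)} (hC0 : C0 ∈ F) (hcard : C0.card ≤ k)
    (hv : ∀ x ∈ C0, (Gr.Adj v x ↔ ¬ Gb.Adj v x)) (hvC : v ∉ C0)
    (hother : ∀ C ∈ F, C ≠ C0 → (grn Gr Gb v C).card = C.card ∨ k + 1 ≤ (grn Gr Gb v C).card) :
    False := by
  have hne : ∀ C ∈ F.erase C0, (grn Gr Gb v C).Nonempty := by
    intro C hC
    rw [Finset.mem_erase] at hC
    rw [← Finset.card_pos]
    rcases hother C hC.2 hC.1 with h | h
    · rw [h]
      exact Finset.card_pos.2 (hF.1 C hC.2).1
    · omega
  have hFe : IsFam Gr Gb (F.erase C0) :=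
    ⟨fun C hC => hF.1 C (Finset.mem_of_mem_erase hC), fun C hC D hD =>
      hF.2 C (Finset.mem_of_mem_erase hC) D (Finset.mem_of_mem_erase hD)⟩
  set F' := insert (insert v C0) ((F.erase C0).image (grn Gr Gb v)) with hF'
  have hnot : (insert v C0 : Finset (Fin n)) ∉ (F.erase C0).image (grn Gr Gb v) := by
    intro h
    rw [Finset.mem_image] at h
    obtain ⟨C, _, h1⟩ := h
    have h2 : v ∈ grn Gr Gb v C := by rw [h1]; exact Finset.mem_insert_self _ _
    unfold grn at h2
    rw [Finset.mem_filter] at h2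
    exact Gr.irrefl h2.2.1
  have hcross : ∀ D ∈ F.erase C0, ∀ x ∈ insert v C0, ∀ y ∈ grn Gr Gb v D,
      Gr.Adj x y ∧ Gb.Adj x y := by
    intro D hD x hx y hy
    rw [Finset.mem_erase] at hD
    rcases Finset.mem_insert.1 hx with rfl | hx
    · unfold grn at hy
      exact (Finset.mem_filter.1 hy).2
    · exact hF.2 C0 hC0 D hD.2 (Ne.symm hD.1) x hx y (grn_subset v D hy)
  have hfam : IsFam Gr Gb F' := by
    constructor
    · intro C hC
      rw [hF', Finset.mem_insert] at hC
      rcases hC with rfl | hC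
      · refine ⟨⟨v, Finset.mem_insert_self _ _⟩, ?_⟩
        intro x hx y hy hxy
        rcases Finset.mem_insert.1 hx with hx' | hx'
        · rcases Finset.mem_insert.1 hy with hy' | hy'
          · exact absurd (hx'.trans hy'.symm) hxy
          · rw [hx']
            exact hv y hy'
        · rcases Finset.mem_insert.1 hy with hy' | hy'
          · rw [hy', Gr.adj_comm, Gb.adj_comm]
            exact hv x hx'
          · exact (hF.1 C0 hC0).2 x hx' y hy' hxy
      · rw [Finset.mem_image] at hC
        obtain ⟨C, hC, rfl⟩ := hC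
        exact grn_sub_box (hFe.1 C hC) v (hne C hC)
    · intro C hC D hD hCD x hx y hy
      rw [hF', Finset.mem_insert] at hC hD
      rcases hC with hC | hC
      · rcases hD with hD | hD
        · exact absurd (hC.trans hD.symm) hCD
        · rw [Finset.mem_image] at hD
          obtain ⟨D, hD, rfl⟩ := hD
          rw [hC] at hx
          exact hcross D hD x hx y hy
      · rw [Finset.mem_image] at hC
        obtain ⟨C, hC, rfl⟩ := hC
        rcases hD with hD | hD
        · rw [hD] at hy
          have := hcross C hC y hy x hx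
          exact ⟨this.1.symm, this.2.symm⟩
        · rw [Finset.mem_image] at hD
          obtain ⟨D, hD, rfl⟩ := hD
          have hne' : C ≠ D := fun h => hCD (by rw [h])
          exact hFe.2 C hC D hD hne' x (grn_subset v C hx) y (grn_subset v D hy)
  have h1 := hmax F' hfam
  rw [hF', Finset.sum_insert hnot, Finset.sum_image (grn_injOn hFe v hne)] at h1
  have h2 := loss_le hF (Finset.erase_subset C0 F) v (k + 1) (fun C hC =>
    hother C (Finset.mem_of_mem_erase hC) (Finset.ne_of_mem_erase hC))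
  have h3 := gain_gt n k
  have h4 : phi n (insert v C0).card = phi n C0.card + (1 / ((n : ℝ) + 1)) ^ C0.card := by
    rw [Finset.card_insert_of_notMem hvC, phi_succ]
  have h5 : (1 / ((n : ℝ) + 1)) ^ k ≤ (1 / ((n : ℝ) + 1)) ^ C0.card := by
    apply pow_le_pow_of_le_one (by positivity)
    · rw [div_le_one (by positivity)]
      have : (0 : ℝ) ≤ n := by positivity
      linarith
    · exact hcard
  have h6 : ∑ C ∈ F, phi n C.card = phi n C0.card + ∑ C ∈ F.erase C0, phi n C.card :=
    (Finset.add_sum_erase F (fun C => phi n C.card) hC0).symm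
  rw [h4, h6] at h1
  linarith

/-- number of missing colours between `C` and `v` -/
noncomputable def tau (Gr Gb : SimpleGraph (Fin n)) (v : Fin n) (C : Finset (Fin n)) : ℝ :=
  ∑ x ∈ C, ((if Gr.Adj x v then (0 : ℝ) else 1) + (if Gb.Adj x v then (0 : ℝ) else 1))

theorem tau_nonneg (v : Fin n) (C : Finset (Fin n)) : 0 ≤ tau Gr Gb v C := by
  unfold tau
  apply Finset.sum_nonneg
  intro x _
  split_ifs <;> norm_num

theorem tau_term_ge {v x : Fin n} (h : ¬ (Gr.Adj v x ∧ Gb.Adj v x)) :
    (1 : ℝ) ≤ (if Gr.Adj x v then (0 : ℝ) else 1) + (if Gb.Adj x v then (0 : ℝ) else 1) := by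
  rw [Gr.adj_comm, Gb.adj_comm] at h
  split_ifs with h1 h2 h2
  · exact absurd ⟨h1, h2⟩ h
  · norm_num
  · norm_num
  · norm_num

theorem tau_ge_sub (v : Fin n) (C : Finset (Fin n)) :
    (C.card : ℝ) - (grn Gr Gb v C).card ≤ tau Gr Gb v C := by
  have h1 : ((C \ grn Gr Gb v C).card : ℝ) = (C.card : ℝ) - (grn Gr Gb v C).card := by
    have := Finset.card_sdiff_add_card_eq_card (grn_subset (Gr := Gr) (Gb := Gb) v C)
    have h2 : ((C \ grn Gr Gb v C).card : ℝ) + (grn Gr Gb v C).card = C.card := by
      exact_mod_cast this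
    linarith
  rw [← h1]
  unfold tau
  calc ((C \ grn Gr Gb v C).card : ℝ) = ∑ x ∈ C \ grn Gr Gb v C, (1 : ℝ) := by simp
    _ ≤ ∑ x ∈ C \ grn Gr Gb v C, ((if Gr.Adj x v then (0 : ℝ) else 1) +
        (if Gb.Adj x v then (0 : ℝ) else 1)) := by
        apply Finset.sum_le_sum
        intro x hx
        rw [Finset.mem_sdiff] at hx
        apply tau_term_ge
        intro h
        apply hx.2
        unfold grn
        rw [Finset.mem_filter]
        exact ⟨hx.1, h⟩
    _ ≤ _ := by
        apply Finset.sum_le_sum_of_subset_of_nonneg Finset.sdiff_subset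
        intro x _ _
        split_ifs <;> norm_num

/-- a vertex missing two colours raises `tau` by one more -/
theorem tau_ge_succ (v : Fin n) (C : Finset (Fin n)) (hg : grn Gr Gb v C = ∅) {y : Fin n}
    (hy : y ∈ C) (h1 : ¬ Gr.Adj y v) (h2 : ¬ Gb.Adj y v) :
    (C.card : ℝ) + 1 ≤ tau Gr Gb v C := by
  unfold tau
  rw [← Finset.add_sum_erase C _ hy, if_neg h1, if_neg h2]
  have h3 : (C.card : ℝ) = (C.erase y).card + 1 := by
    have := Finset.card_erase_add_one hy
    exact_mod_cast this.symm
  have h4 : ((C.erase y).card : ℝ) ≤ ∑ x ∈ C.erase y, ((if Gr.Adj x v then (0 : ℝ) else 1) +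
        (if Gb.Adj x v then (0 : ℝ) else 1)) := by
    calc ((C.erase y).card : ℝ) = ∑ x ∈ C.erase y, (1 : ℝ) := by simp
      _ ≤ _ := by
        apply Finset.sum_le_sum
        intro x hx
        apply tau_term_ge
        intro h
        have h5 : x ∈ grn Gr Gb v C := by
          unfold grn
          rw [Finset.mem_filter]
          exact ⟨Finset.mem_of_mem_erase hx, h⟩
        rw [hg] at h5
        exact absurd h5 (Finset.notMem_empty x)
  rw [h3]
  linarith

/-- the box with `d` vertices is counted `k` times, and once more if `d > k` -/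
noncomputable def cc (k : ℕ) (C : Finset (Fin n)) : ℝ := k + (if k < C.card then (1 : ℝ) else 0)

theorem cc_nonneg (k : ℕ) (C : Finset (Fin n)) : 0 ≤ cc k C := by
  unfold cc
  split_ifs <;> positivity

theorem cc_succ_ge {k : ℕ} {C : Finset (Fin n)} (hC : C.Nonempty) :
    (k : ℝ) + 1 ≤ cc k C * ((C.card : ℝ) + 1) / C.card := by
  have h0 : (0 : ℝ) < C.card := by exact_mod_cast Finset.card_pos.2 hC
  rw [le_div_iff₀ h0]
  unfold cc
  split_ifs with h
  · nlinarith [(by positivity : (0 : ℝ) ≤ k)]
  · have h1 : (C.card : ℝ) ≤ k := by exact_mod_cast not_lt.1 h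
    nlinarith

/-- every vertex is hit with total weight at least `k + 1` -/
theorem hit_ge {F : Finset (Finset (Fin n))} (hF : IsFam Gr Gb F)
    (hmax : ∀ F', IsFam Gr Gb F' → ∑ C ∈ F', phi n C.card ≤ ∑ C ∈ F, phi n C.card) (k : ℕ)
    (v : Fin n) : (k : ℝ) + 1 ≤ ∑ C ∈ F, cc k C * tau Gr Gb v C / C.card := by
  have hnn : ∀ C ∈ F, 0 ≤ cc k C * tau Gr Gb v C / C.card := fun C _ =>
    div_nonneg (mul_nonneg (cc_nonneg k C) (tau_nonneg v C)) (by positivity)
  have hsingle : ∀ C0 ∈ F, cc k C0 * tau Gr Gb v C0 / C0.card ≤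
      ∑ C ∈ F, cc k C * tau Gr Gb v C / C.card := fun C0 hC0 =>
    Finset.single_le_sum hnn hC0
  have hbox1 : ∀ C0 ∈ F, (C0.card : ℝ) + 1 ≤ tau Gr Gb v C0 →
      (k : ℝ) + 1 ≤ ∑ C ∈ F, cc k C * tau Gr Gb v C / C.card := by
    intro C0 hC0 h
    refine le_trans (cc_succ_ge (hF.1 C0 hC0).1) (le_trans ?_ (hsingle C0 hC0))
    apply div_le_div_of_nonneg_right _ (by positivity)
    exact mul_le_mul_of_nonneg_left h (cc_nonneg k C0)
  by_cases hin : ∃ C0 ∈ F, v ∈ C0
  · obtain ⟨C0, hC0, hv⟩ := hin
    apply hbox1 C0 hC0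
    unfold tau
    rw [← Finset.add_sum_erase C0 _ hv, if_neg Gr.irrefl, if_neg Gb.irrefl]
    have h3 : (C0.card : ℝ) = (C0.erase v).card + 1 := by
      have := Finset.card_erase_add_one hv
      exact_mod_cast this.symm
    have h4 : ((C0.erase v).card : ℝ) ≤ ∑ x ∈ C0.erase v, ((if Gr.Adj x v then (0 : ℝ) else 1) +
        (if Gb.Adj x v then (0 : ℝ) else 1)) := by
      calc ((C0.erase v).card : ℝ) = ∑ x ∈ C0.erase v, (1 : ℝ) := by simp
        _ ≤ _ := by
          apply Finset.sum_le_sum
          intro x hx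
          rw [Finset.mem_erase] at hx
          apply tau_term_ge
          intro h
          have h5 := (hF.1 C0 hC0).2 v hv x hx.2 (Ne.symm hx.1)
          exact h5.1 h.1 h.2
    rw [h3]
    linarith
  · push Not at hin
    by_cases hne : ∀ C ∈ F, (grn Gr Gb v C).Nonempty
    · exact (move_new hF hmax v hne).elim
    · push Not at hne
      obtain ⟨C0, hC0, hg⟩ := hne
      have hcard0 : (0 : ℝ) < C0.card := by exact_mod_cast Finset.card_pos.2 (hF.1 C0 hC0).1
      have htau0 : (C0.card : ℝ) ≤ tau Gr Gb v C0 := by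
        have := tau_ge_sub (Gr := Gr) (Gb := Gb) v C0
        rw [hg, Finset.card_empty] at this
        simpa using this
      have hc0 : cc k C0 ≤ cc k C0 * tau Gr Gb v C0 / C0.card := by
        rw [le_div_iff₀ hcard0]
        exact mul_le_mul_of_nonneg_left htau0 (cc_nonneg k C0)
      by_cases hk : k < C0.card
      · refine le_trans ?_ (le_trans hc0 (hsingle C0 hC0))
        unfold cc
        rw [if_pos hk]
      · have hcc0 : cc k C0 = k := by
          unfold cc
          rw [if_neg hk, add_zero]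
        by_cases hall : ∀ x ∈ C0, (Gr.Adj v x ↔ ¬ Gb.Adj v x)
        · by_cases hoth : ∀ C ∈ F, C ≠ C0 →
            (grn Gr Gb v C).card = C.card ∨ k + 1 ≤ (grn Gr Gb v C).card
          · exact (move_join hF hmax v hC0 (by omega) hall (hin C0 hC0) hoth).elim
          · push Not at hoth
            obtain ⟨C, hC, hCC0, h1, h2⟩ := hoth
            have hcard : (0 : ℝ) < C.card := by exact_mod_cast Finset.card_pos.2 (hF.1 C hC).1
            have hz : (grn Gr Gb v C).card + 1 ≤ C.card := by
              have := Finset.card_le_card (grn_subset (Gr := Gr) (Gb := Gb) v C)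
              omega
            have hone : (1 : ℝ) ≤ cc k C * tau Gr Gb v C / C.card := by
              rw [le_div_iff₀ hcard, one_mul]
              have h3 := tau_ge_sub (Gr := Gr) (Gb := Gb) v C
              refine le_trans ?_ (mul_le_mul_of_nonneg_left h3 (cc_nonneg k C))
              have h4 : ((grn Gr Gb v C).card : ℝ) ≤ k := by
                have : (grn Gr Gb v C).card ≤ k := by omega
                exact_mod_cast this
              have h5 : ((grn Gr Gb v C).card : ℝ) + 1 ≤ C.card := by exact_mod_cast hz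
              have h6 : (0 : ℝ) ≤ k := by positivity
              unfold cc
              split_ifs with h
              · nlinarith
              · have h7 : (C.card : ℝ) ≤ k := by exact_mod_cast not_lt.1 h
                nlinarith
            have hsum : cc k C0 * tau Gr Gb v C0 / C0.card + cc k C * tau Gr Gb v C / C.card ≤
                ∑ C ∈ F, cc k C * tau Gr Gb v C / C.card := by
              rw [← Finset.add_sum_erase F _ hC0]
              apply add_le_add_right
              apply Finset.single_le_sum (f := fun C => cc k C * tau Gr Gb v C / C.card)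
                (fun D hD => hnn D (Finset.mem_of_mem_erase hD))
              rw [Finset.mem_erase]
              exact ⟨hCC0, hC⟩
            rw [hcc0] at hc0
            rw [hcc0] at hsum
            linarith
        · push Not at hall
          obtain ⟨y, hy, hy'⟩ := hall
          apply hbox1 C0 hC0
          have hny : ¬ (Gr.Adj v y ∧ Gb.Adj v y) := by
            intro h
            have h5 : y ∈ grn Gr Gb v C0 := by
              unfold grn
              rw [Finset.mem_filter]
              exact ⟨hy, h⟩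
            rw [hg] at h5
            exact absurd h5 (Finset.notMem_empty y)
          have h1 : ¬ Gr.Adj v y ∧ ¬ Gb.Adj v y := by tauto
          exact tau_ge_succ v C0 hg hy (fun h => h1.1 h.symm) (fun h => h1.2 h.symm)

/-- the structure theorem -/
theorem exists_family (Gr Gb : SimpleGraph (Fin n)) {T : ℝ}
    (hT : ∀ v, (nonadj Gr v : ℝ) + nonadj Gb v ≤ T) :
    ∃ F : Finset (Finset (Fin n)), IsFam Gr Gb F ∧ ∀ k : ℕ,
      (n : ℝ) * (k + 1) ≤ T * (k * F.card + (F.filter (fun C => k < C.card)).card) := by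
  obtain ⟨F, hF, hmax⟩ := exists_max_family Gr Gb
  refine ⟨F, hF, fun k => ?_⟩
  have h1 : ∑ v : Fin n, ((k : ℝ) + 1) ≤ ∑ v : Fin n, ∑ C ∈ F, cc k C * tau Gr Gb v C / C.card :=
    Finset.sum_le_sum (fun v _ => hit_ge hF hmax k v)
  rw [Finset.sum_const, Finset.card_univ, Fintype.card_fin, nsmul_eq_mul, Finset.sum_comm] at h1
  refine h1.trans ?_
  have h2 : ∀ C ∈ F, ∑ v : Fin n, cc k C * tau Gr Gb v C / C.card ≤ T * cc k C := by
    intro C hC
    have hcard : (0 : ℝ) < C.card := by exact_mod_cast Finset.card_pos.2 (hF.1 C hC).1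
    have h3 : ∑ v : Fin n, tau Gr Gb v C ≤ C.card * T := by
      unfold tau
      rw [Finset.sum_comm]
      calc ∑ x ∈ C, ∑ v : Fin n, ((if Gr.Adj x v then (0 : ℝ) else 1) +
            (if Gb.Adj x v then (0 : ℝ) else 1)) ≤ ∑ x ∈ C, T := by
            apply Finset.sum_le_sum
            intro x _
            have h4 : ∀ G : SimpleGraph (Fin n), ∑ v : Fin n, (if G.Adj x v then (0 : ℝ) else 1) =
                nonadj G x := by
              intro G
              unfold nonadj
              rw [Finset.card_filter]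
              push_cast
              apply Finset.sum_congr rfl
              intro v _
              by_cases h : G.Adj x v <;> simp [h]
            rw [Finset.sum_add_distrib, h4, h4]
            exact hT x
        _ = C.card * T := by rw [Finset.sum_const, nsmul_eq_mul]
    rw [← Finset.sum_div, ← Finset.mul_sum, div_le_iff₀ hcard]
    calc cc k C * ∑ v : Fin n, tau Gr Gb v C ≤ cc k C * (C.card * T) :=
          mul_le_mul_of_nonneg_left h3 (cc_nonneg k C)
      _ = T * cc k C * C.card := by ring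
  refine (Finset.sum_le_sum h2).trans (le_of_eq ?_)
  rw [← Finset.mul_sum]
  congr 1
  unfold cc
  rw [Finset.sum_add_distrib, Finset.sum_const, nsmul_eq_mul, ← Finset.sum_filter]
  simp
  ring

end Boxes

end Pool.Agent.Lib.MP_a05470_co
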