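import Pool.Agent.Lib.MP_a05470_co.Special

set_option autoImplicit false

namespace Pool.Agent.Lib.MP_a05470_co

open Finset Classical

section ClaimE

variable {V : Type} {H : SimpleGraph V} {X Y : Finset V} {j k b : ℕ} {κ : V → V} {σ : V → Bool}

/-- `b` disjoint blue pairs can be split off such that the rest is covered by `k` red cliques -/
def Peel (H : SimpleGraph V) (k : ℕ) : ℕ → Finset V → Prop
  | 0, X => Cov H k X
  | b + 1, X => ∃ u ∈ X, ∃ w ∈ X, Hᶜ.Adj u w ∧ Peel H k b (X \ {u, w})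

theorem Two.peel (h : Two H k b X) (ih : ∀ Y : Finset V, Y.card + 4 = X.card → Cov H k Y →
    HasMat Hᶜ Y b → Peel H j b Y) : Peel H j (b + 2) X := by
  obtain ⟨a, ha, b', hb', hab, c, hc, d, hd, hcd, h1, h2⟩ := h
  have hc1 := card_sdiff_pair ha hb' (Hᶜ.ne_of_adj hab)
  have hc2 := card_sdiff_pair hc hd (Hᶜ.ne_of_adj hcd)
  exact ⟨a, ha, b', hb', hab, c, hc, d, hd, hcd, ih _ (by omega) h1 h2⟩

/-- splitting off one blue pair -/
theorem step_one (hcard : X.card = 2 * j) (hcov : Cov H j X) (hM : HasMat Hᶜ X (b + 1))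
    (hb : b + 3 ≤ j) :
    NG H j X ∨ ∃ u ∈ X, ∃ w ∈ X, Hᶜ.Adj u w ∧ Cov H (j - 1) (X \ {u, w}) ∧
      HasMat Hᶜ (X \ {u, w}) b := by
  by_cases hA : ∃ u ∈ X, Cov H (j - 1) (X.erase u)
  · right
    obtain ⟨u, hu, hcu⟩ := hA
    obtain ⟨T, hT, hTc⟩ := hM
    have hTne : T.Nonempty := by
      rw [← Finset.card_pos]
      omega
    have hcuw : ∀ w, Cov H (j - 1) (X \ {u, w}) := by
      intro w
      apply hcu.sub
      intro a ha
      simp only [Finset.mem_sdiff, Finset.mem_insert, Finset.mem_singleton, Finset.mem_erase] at ha ⊢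
      tauto
    by_cases hcovd : ∃ e ∈ T, u ∈ e
    · obtain ⟨e, he, hue⟩ := hcovd
      obtain ⟨x, hx, y, hy, hxy, rfl⟩ := hT.1 e he
      have hcard2 : (T.erase {x, y}).card = b := by
        rw [Finset.card_erase_of_mem he]
        omega
      rw [Finset.mem_insert, Finset.mem_singleton] at hue
      rcases hue with rfl | rfl
      · exact ⟨u, hu, y, hy, hxy, hcuw y, T.erase {u, y}, hT.erase_edge he, hcard2⟩
      · refine ⟨u, hu, x, hx, hxy.symm, hcuw x, T.erase {x, u}, ?_, hcard2⟩
        have := hT.erase_edge he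
        rwa [Finset.pair_comm u x]
    · push Not at hcovd
      by_cases hnb : ∃ x ∈ X, Hᶜ.Adj u x
      · obtain ⟨x, hx, hux⟩ := hnb
        exact ⟨u, hu, x, hx, hux, hcuw x, hT.remove_pair hTc hcovd⟩
      · push Not at hnb
        have hred : ∀ x ∈ X, x ≠ u → H.Adj u x := by
          intro x hx hxu
          by_contra h
          exact hnb x hx (by rw [SimpleGraph.compl_adj]; exact ⟨Ne.symm hxu, h⟩)
        obtain ⟨e, he⟩ := hTne
        obtain ⟨x, hx, y, hy, hxy, rfl⟩ := hT.1 e he
        have hcard2 : (T.erase {x, y}).card = b := by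
          rw [Finset.card_erase_of_mem he]
          omega
        refine ⟨x, hx, y, hy, hxy, ?_, T.erase {x, y}, hT.erase_edge he, hcard2⟩
        obtain ⟨ι, c, hc, hK⟩ := hcu.col
        have hux : x ≠ u := by
          rintro rfl
          exact hcovd _ he (by simp)
        have hxm : x ∈ X.erase u := Finset.mem_erase.2 ⟨hux, hx⟩
        apply Cov.sub _ (Finset.sdiff_subset : X \ {x, y} ⊆ X)
        apply cov_of_col (c := Function.update c u (c x))
        · intro p hp q hq hpq hcpq
          by_cases hpu : p = u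
          · rw [hpu]
            exact hred q hq (fun h => hpq (hpu.trans h.symm))
          · by_cases hqu : q = u
            · rw [hqu]
              exact (hred p hp hpu).symm
            · rw [Function.update_of_ne hpu, Function.update_of_ne hqu] at hcpq
              exact hc p (Finset.mem_erase.2 ⟨hpu, hp⟩) q (Finset.mem_erase.2 ⟨hqu, hq⟩) hpq hcpq
        · refine (Finset.card_le_card ?_).trans hK
          intro i hi
          rw [Finset.mem_image] at hi ⊢
          obtain ⟨q, hq, rfl⟩ := hi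
          by_cases hqu : q = u
          · rw [hqu, Function.update_self]
            exact ⟨x, hxm, rfl⟩
          · rw [Function.update_of_ne hqu]
            exact ⟨q, Finset.mem_erase.2 ⟨hqu, hq⟩, rfl⟩
  · push Not at hA
    have hT : Tight H j X := ⟨hcard, hcov, hA⟩
    by_cases hG : ∃ x ∈ X, ∃ y ∈ X, Hᶜ.Adj x y ∧ Cov H (j - 1) (X \ {x, y})
    · right
      obtain ⟨x, hx, y, hy, hxy, hc⟩ := hG
      refine ⟨x, hx, y, hy, hxy, hc, ?_⟩
      have hxy' : x ≠ y ∧ ¬ H.Adj x y := by
        rw [SimpleGraph.compl_adj] at hxy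
        exact hxy
      obtain ⟨x', hx', hxx, h1⟩ := hT.partner hx
      have hym : y ∈ X \ {x, x'} := by
        simp only [Finset.mem_sdiff, Finset.mem_insert, Finset.mem_singleton, not_or]
        refine ⟨hy, Ne.symm hxy'.1, ?_⟩
        rintro rfl
        exact hxy'.2 hxx
      obtain ⟨y', hy', hyy, h2⟩ := h1.partner hym
      obtain ⟨t, ht⟩ : ∃ t, 2 * t ≤ j - 1 - 1 ∧ b ≤ 2 * t := by
        rcases Nat.even_or_odd b with ⟨r, hr⟩ | ⟨r, hr⟩
        · exact ⟨r, by omega, by omega⟩
        · exact ⟨r + 1, by omega, by omega⟩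
      have h3 := (h2.hasMat t ht.1).mono ht.2
      apply h3.sub
      intro a ha
      simp only [Finset.mem_sdiff, Finset.mem_insert, Finset.mem_singleton] at ha ⊢
      tauto
    · left
      push Not at hG
      exact ⟨hT, hG⟩

/-- two blue pairs from two red pairs -/
theorem NG.two (h : NG H (j + 2) X) {t : ℕ} (ht : 2 * t ≤ j) : Two H j (2 * t) X := by
  have hcard := h.1.1
  obtain ⟨x, hx⟩ := Finset.card_pos.1 (show 0 < X.card by omega)
  obtain ⟨x', hx', hxx, _⟩ := h.1.partner hx
  have h1 := h.remove hx hx' hxx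
  have hc1 := card_sdiff_pair hx hx' (H.ne_of_adj hxx)
  obtain ⟨y, hy⟩ := Finset.card_pos.1 (show 0 < (X \ {x, x'}).card by omega)
  obtain ⟨y', hy', hyy, _⟩ := h1.1.partner hy
  have h2 := h1.remove hy hy' hyy
  have hT : Tight H j ((X \ {x, x'}) \ {y, y'}) := h2.1
  have hM := hT.hasMat t ht
  obtain ⟨κ, σ, hB, _⟩ := h.bal
  simp only [Finset.mem_sdiff, Finset.mem_insert, Finset.mem_singleton, not_or] at hy hy'
  have a1 := hB.not_both hx hx' hy.1 hxx
  have a2 := hB.not_both hx hx' hy'.1 hxx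
  have a3 := hB.not_both hy.1 hy'.1 hx hyy
  have a4 := hB.not_both hy.1 hy'.1 hx' hyy
  have hne1 := H.ne_of_adj hxx
  have hne2 := H.ne_of_adj hyy
  rw [H.adj_comm y x, H.adj_comm y x'] at a1
  rw [H.adj_comm y' x, H.adj_comm y' x'] at a2
  rw [H.adj_comm x y, H.adj_comm x y'] at a3
  rw [H.adj_comm x' y, H.adj_comm x' y'] at a4
  rcases two_blue_edges (Ne.symm hy.2.1) (Ne.symm hy'.2.1) (Ne.symm hy.2.2) (Ne.symm hy'.2.2)
    a1 a2 a3 a4 with ⟨b1, b2⟩ | ⟨b1, b2⟩
  · refine ⟨x, hx, y, hy.1, b1, x', ?_, y', ?_, b2, ?_, ?_⟩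
    · simp only [Finset.mem_sdiff, Finset.mem_insert, Finset.mem_singleton, not_or]
      exact ⟨hx', Ne.symm hne1, Ne.symm hy.2.2⟩
    · simp only [Finset.mem_sdiff, Finset.mem_insert, Finset.mem_singleton, not_or]
      exact ⟨hy'.1, hy'.2.1, Ne.symm hne2⟩
    · apply hT.2.1.sub
      intro a ha
      simp only [Finset.mem_sdiff, Finset.mem_insert, Finset.mem_singleton] at ha ⊢
      tauto
    · apply hM.sub
      intro a ha
      simp only [Finset.mem_sdiff, Finset.mem_insert, Finset.mem_singleton] at ha ⊢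
      tauto
  · refine ⟨x, hx, y', hy'.1, b1, x', ?_, y, ?_, b2, ?_, ?_⟩
    · simp only [Finset.mem_sdiff, Finset.mem_insert, Finset.mem_singleton, not_or]
      exact ⟨hx', Ne.symm hne1, Ne.symm hy'.2.2⟩
    · simp only [Finset.mem_sdiff, Finset.mem_insert, Finset.mem_singleton, not_or]
      exact ⟨hy.1, hy.2.1, hne2⟩
    · apply hT.2.1.sub
      intro a ha
      simp only [Finset.mem_sdiff, Finset.mem_insert, Finset.mem_singleton] at ha ⊢
      tauto
    · apply hM.sub
      intro a ha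
      simp only [Finset.mem_sdiff, Finset.mem_insert, Finset.mem_singleton] at ha ⊢
      tauto

/-- splitting off an even number of blue pairs -/
theorem peel_even (t : ℕ) : ∀ {j : ℕ} {X : Finset V}, X.card = 2 * j → Cov H j X →
    HasMat Hᶜ X (2 * t) → 2 * t + 2 ≤ j → Peel H (j - 2 * t) (2 * t) X := by
  induction t with
  | zero => exact fun _ hcov _ _ => hcov
  | succ t ih =>
    intro j X hcard hcov hM hj
    obtain ⟨j, rfl⟩ : ∃ i, j = i + 4 := ⟨j - 4, by omega⟩
    have hgoal : Peel H (j + 4 - 2 * (t + 1)) (2 * (t + 1)) X ↔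
        Peel H (j + 2 - 2 * t) (2 * t + 2) X := by
      have e1 : j + 4 - 2 * (t + 1) = j + 2 - 2 * t := by omega
      rw [e1, Nat.mul_succ]
    rw [hgoal]
    have hfin : Two H (j + 2) (2 * t) X → Peel H (j + 2 - 2 * t) (2 * t + 2) X := by
      intro h
      apply h.peel
      intro Y hY hcY hMY
      exact ih (j := j + 2) (by omega) hcY hMY (by omega)
    have e2 : 2 * (t + 1) = (2 * t + 1) + 1 := by ring
    rw [e2] at hM
    rcases step_one hcard hcov hM (by omega) with h | ⟨u, hu, w, hw, huw, hc, hM1⟩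
    · exact hfin (NG.two (j := j + 2) h (by omega))
    · have hcu := card_sdiff_pair hu hw (Hᶜ.ne_of_adj huw)
      have hc3 : (X \ {u, w}).card = 2 * (j + 3) := by omega
      have hc' : Cov H (j + 3) (X \ {u, w}) := hc
      rcases step_one hc3 hc' hM1 (by omega) with h | ⟨p, hp, q, hq, hpq, hc2, hM2⟩
      · obtain ⟨κ, σ, hB, _⟩ := h.bal
        exact hfin (special hB hc3 (by omega) hu hw huw hcov)
      · exact hfin ⟨u, hu, w, hw, huw, p, hp, q, hq, hpq, hc2, hM2⟩

/-- splitting off blue pairs, the exceptional sets being excluded -/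
theorem peel_all (hcard : X.card = 2 * j) (hcov : Cov H j X) (hM : HasMat Hᶜ X b)
    (hb : b + 2 ≤ j) (hng : ¬ NG H j X) : Peel H (j - b) b X := by
  rcases Nat.even_or_odd' b with ⟨t, rfl | rfl⟩
  · exact peel_even t hcard hcov hM hb
  · rcases step_one hcard hcov hM (by omega) with h | ⟨u, hu, w, hw, huw, hc, hM1⟩
    · exact absurd h hng
    · have hcu := card_sdiff_pair hu hw (Hᶜ.ne_of_adj huw)
      have h1 := peel_even t (j := j - 1) (by omega) hc hM1 (by omega)
      have e1 : j - 1 - 2 * t = j - (2 * t + 1) := by omega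
      rw [e1] at h1
      exact ⟨u, hu, w, hw, huw, h1⟩

end ClaimE

end Pool.Agent.Lib.MP_a05470_co
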