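import Pool.Agent.Lib.MP_a05470_co.Dominate

set_option autoImplicit false

namespace Pool.Agent.Lib.MP_a05470_co

open Finset Classical

section Clique

variable {n : ℕ} {Gr Gb : SimpleGraph (Fin n)}

/-- Choosing a green clique greedily, each time a vertex at which `f` is smallest. -/
theorem greedy_clique {a : ℕ} (D : ∀ v, a * (Finset.univ.filter
    (fun u => ¬ (Gr.Adj v u ∧ Gb.Adj v u))).card ≤ n) (hn : 0 < n) (f : Fin n → ℕ) (k : ℕ) :
    ∀ (S : Finset (Fin n)) (c : ℕ), k * n ≤ a * S.card → (∀ v ∈ S, c ≤ f v) →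
    ∃ x : Fin k → Fin n, (∀ i, x i ∈ S) ∧
      (∀ i j, i ≠ j → Gr.Adj (x i) (x j) ∧ Gb.Adj (x i) (x j)) ∧
      n * ∑ i, f (x i) + a * S.card * c ≤ a * ∑ v ∈ S, f v + k * n * c := by
  induction k with
  | zero =>
    intro S c _ hc
    refine ⟨fun i => i.elim0, fun i => i.elim0, fun i => i.elim0, ?_⟩
    have h1 : S.card * c ≤ ∑ v ∈ S, f v := by
      have := Finset.card_nsmul_le_sum S f c hc
      simpa using this
    have h2 : a * (S.card * c) ≤ a * ∑ v ∈ S, f v := Nat.mul_le_mul_left a h1
    simp only [Finset.univ_eq_empty, Finset.sum_empty, mul_zero, zero_add, zero_mul, add_zero]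
    calc a * S.card * c = a * (S.card * c) := by ring
      _ ≤ _ := h2
  | succ k ih =>
    intro S c hS hc
    have hSne : S.Nonempty := by
      rw [Finset.nonempty_iff_ne_empty]
      rintro rfl
      simp at hS
      omega
    obtain ⟨y, hyS, hy⟩ := Finset.exists_min_image S f hSne
    set S' := S.filter (fun u => Gr.Adj y u ∧ Gb.Adj y u) with hS'
    set T := S.filter (fun u => ¬ (Gr.Adj y u ∧ Gb.Adj y u)) with hT
    have hcard : S'.card + T.card = S.card := Finset.card_filter_add_card_filter_not _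
    have hsum : ∑ v ∈ S', f v + ∑ v ∈ T, f v = ∑ v ∈ S, f v := Finset.sum_filter_add_sum_filter_not _ _ _
    have hTn : a * T.card ≤ n := by
      refine le_trans (Nat.mul_le_mul_left a (Finset.card_le_card ?_)) (D y)
      intro u hu
      rw [hT, Finset.mem_filter] at hu
      rw [Finset.mem_filter]
      exact ⟨Finset.mem_univ _, hu.2⟩
    have hS'n : k * n ≤ a * S'.card := by
      have h1 : a * S'.card + a * T.card = a * S.card := by rw [← mul_add, hcard]
      have h2 : (k + 1) * n = k * n + n := by ring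
      omega
    obtain ⟨x, hx1, hx2, hx3⟩ := ih S' (f y) hS'n (fun v hv => hy v (Finset.mem_filter.1 hv).1)
    refine ⟨Fin.cons y x, ?_, ?_, ?_⟩
    · intro i
      refine Fin.cases ?_ (fun i => ?_) i
      · exact hyS
      · exact (Finset.mem_filter.1 (hx1 i)).1
    · intro i j
      refine Fin.cases ?_ (fun i => ?_) i
      · refine Fin.cases (fun h => absurd rfl h) (fun j _ => ?_) j
        exact (Finset.mem_filter.1 (hx1 j)).2
      · refine Fin.cases (fun _ => ?_) (fun j hij => ?_) j
        · have := (Finset.mem_filter.1 (hx1 i)).2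
          exact ⟨this.1.symm, this.2.symm⟩
        · exact hx2 i j (fun h => hij (congrArg Fin.succ h))
    · rw [Fin.sum_univ_succ]
      simp only [Fin.cons_zero, Fin.cons_succ]
      have h1 : T.card * f y ≤ ∑ v ∈ T, f v := by
        have := Finset.card_nsmul_le_sum T f (f y) (fun v hv => hy v (Finset.mem_filter.1 hv).1)
        simpa using this
      have h2 : c ≤ f y := hc y hyS
      rw [← hsum, ← hcard]
      -- (a |S| - (k+1) n) (f y - c) ≥ 0
      obtain ⟨d, hd⟩ := Nat.exists_eq_add_of_le h2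
      obtain ⟨e, he⟩ := Nat.exists_eq_add_of_le hS
      rw [← hcard] at he
      have h3 : a * (S'.card + T.card) * f y = (k + 1) * n * f y + e * f y := by
        rw [he]; ring
      have h4 : a * (S'.card + T.card) * c = (k + 1) * n * c + e * c := by
        rw [he]; ring
      have h5 : a * (T.card * f y) ≤ a * ∑ v ∈ T, f v := Nat.mul_le_mul_left a h1
      have h6 : e * c ≤ e * f y := Nat.mul_le_mul_left e h2
      nlinarith

/-- a largest blue clique -/
theorem exists_max_clique (G : SimpleGraph (Fin n)) :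
    ∃ Q : Finset (Fin n), (∀ x ∈ Q, ∀ y ∈ Q, x ≠ y → G.Adj x y) ∧
      ∀ Q' : Finset (Fin n), (∀ x ∈ Q', ∀ y ∈ Q', x ≠ y → G.Adj x y) → Q'.card ≤ Q.card := by
  obtain ⟨Q, hQ, hmax⟩ := Finset.exists_max_image
    ((Finset.univ : Finset (Fin n)).powerset.filter
      (fun Q => ∀ x ∈ Q, ∀ y ∈ Q, x ≠ y → G.Adj x y)) Finset.card ⟨∅, by simp⟩
  rw [Finset.mem_filter] at hQ
  refine ⟨Q, hQ.2, fun Q' hQ' => hmax Q' ?_⟩
  rw [Finset.mem_filter, Finset.mem_powerset]
  exact ⟨Finset.subset_univ _, hQ'⟩

theorem sum_filter_card (Q : Finset (Fin n)) (G : SimpleGraph (Fin n)) :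
    ∑ v, (Q.filter (fun q => ¬ G.Adj v q)).card = ∑ q ∈ Q, nonadj G q := by
  simp only [nonadj, Finset.card_filter]
  rw [Finset.sum_comm]
  apply Finset.sum_congr rfl
  intro q _
  apply Finset.sum_congr rfl
  intro v _
  rw [G.adj_comm]

/-- The combinatorial core: `b + 1` vertices of a largest blue clique, all joined in red to the `a`
vertices `x i` of a green clique, and in blue too, except that `x i` may be joined in red only to a
vertex `y i`, where the `y i` are distinct. -/
theorem clique_core {a b : ℕ} (hab : a ≤ b) (hn : 0 < n)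
    (hG : ∀ v, a * nonadj Gr v + b * nonadj Gb v < n) :
    ∃ (x y : Fin a → Fin n) (W : Finset (Fin n)),
      (∀ i j, i ≠ j → Gr.Adj (x i) (x j) ∧ Gb.Adj (x i) (x j)) ∧
      Function.Injective y ∧ b + 1 ≤ W.card ∧
      (∀ w ∈ W, ∀ w' ∈ W, w ≠ w' → Gb.Adj w w') ∧
      (∀ i, ∀ w ∈ W, Gr.Adj (x i) w ∧ (w ≠ y i → Gb.Adj (x i) w)) := by
  obtain ⟨Q, hQ, hmax⟩ := exists_max_clique Gb
  set N : Fin n → Finset (Fin n) := fun v => Q.filter (fun q => ¬ Gr.Adj v q) with hN
  set M : Fin n → Finset (Fin n) := fun v => Q.filter (fun q => ¬ Gb.Adj v q) with hM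
  have hsub : ∀ v, M v ⊆ Q := fun v => Finset.filter_subset _ _
  have hself : ∀ v ∈ Q, v ∈ M v := fun v hv => Finset.mem_filter.2 ⟨hv, Gb.irrefl⟩
  have hadjM : ∀ v, ∀ q ∈ Q, q ∉ M v → Gb.Adj v q := by
    intro v q hq h
    by_contra hcon
    exact h (Finset.mem_filter.2 ⟨hq, hcon⟩)
  have hadjN : ∀ v, ∀ q ∈ Q, q ∉ N v → Gr.Adj v q := by
    intro v q hq h
    by_contra hcon
    exact h (Finset.mem_filter.2 ⟨hq, hcon⟩)
  -- every vertex has a non-neighbour in `Q`
  have hMne : ∀ v, 1 ≤ (M v).card := by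
    intro v
    rw [Nat.one_le_iff_ne_zero, Finset.card_ne_zero, Finset.nonempty_iff_ne_empty]
    intro h
    have hv : v ∉ Q := by
      intro hv
      have := hself v hv
      rw [h] at this
      exact absurd this (Finset.notMem_empty _)
    have h1 := hmax (insert v Q) (by
      intro x hx y hy hxy
      rcases Finset.mem_insert.1 hx with hx' | hx'
      · rcases Finset.mem_insert.1 hy with hy' | hy'
        · exact absurd (hx'.trans hy'.symm) hxy
        · rw [hx']
          exact hadjM v y hy' (by rw [h]; exact Finset.notMem_empty _)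
      · rcases Finset.mem_insert.1 hy with hy' | hy'
        · rw [hy']
          exact (hadjM v x hx' (by rw [h]; exact Finset.notMem_empty _)).symm
        · exact hQ x hx' y hy' hxy)
    rw [Finset.card_insert_of_notMem hv] at h1
    omega
  -- the function to be minimised
  set f : Fin n → ℕ := fun v => (N v).card + (M v).card - 1 with hf
  have hf1 : ∀ v, f v + 1 = (N v).card + (M v).card := by
    intro v
    have := hMne v
    show (N v).card + (M v).card - 1 + 1 = _
    omega
  have hsumN : ∑ v, (N v).card = ∑ q ∈ Q, nonadj Gr q := sum_filter_card Q Gr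
  have hsumM : ∑ v, (M v).card = ∑ q ∈ Q, nonadj Gb q := sum_filter_card Q Gb
  have hQne : 0 < Q.card := by
    have h1 := hMne ⟨0, hn⟩
    have h2 := Finset.card_le_card (hsub ⟨0, hn⟩)
    omega
  have htot : a * ∑ v, f v + b * n < Q.card * n := by
    have h1 : ∑ v, f v + n = ∑ v, (N v).card + ∑ v, (M v).card := by
      rw [← Finset.sum_add_distrib, ← Finset.sum_congr rfl (fun v _ => hf1 v),
        Finset.sum_add_distrib]
      simp
    have h2 : n ≤ ∑ v, (M v).card := by
      have : ∑ v : Fin n, 1 ≤ ∑ v, (M v).card := Finset.sum_le_sum (fun v _ => hMne v)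
      simpa using this
    have h3 : ∑ q ∈ Q, (a * nonadj Gr q + b * nonadj Gb q) < ∑ q ∈ Q, n :=
      Finset.sum_lt_sum_of_nonempty (Finset.card_pos.1 hQne) (fun q _ => hG q)
    rw [Finset.sum_add_distrib, ← Finset.mul_sum, ← Finset.mul_sum, ← hsumN, ← hsumM,
      Finset.sum_const, smul_eq_mul] at h3
    obtain ⟨d, rfl⟩ := Nat.exists_eq_add_of_le hab
    have h4 : a * (∑ v, f v + n) = a * (∑ v, (N v).card + ∑ v, (M v).card) := by rw [h1]
    have h5 : d * n ≤ d * ∑ v, (M v).card := Nat.mul_le_mul_left d h2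
    nlinarith
  -- the green clique
  have hD : ∀ v, a * (Finset.univ.filter (fun u => ¬ (Gr.Adj v u ∧ Gb.Adj v u))).card ≤ n := by
    intro v
    have h1 : (Finset.univ.filter (fun u => ¬ (Gr.Adj v u ∧ Gb.Adj v u))).card ≤
        nonadj Gr v + nonadj Gb v := by
      unfold nonadj
      refine le_trans (Finset.card_le_card ?_) (Finset.card_union_le _ _)
      intro u hu
      rw [Finset.mem_filter] at hu
      rw [Finset.mem_union, Finset.mem_filter, Finset.mem_filter]
      by_cases h : Gr.Adj v u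
      · exact Or.inr ⟨hu.1, fun h' => hu.2 ⟨h, h'⟩⟩
      · exact Or.inl ⟨hu.1, h⟩
    have h2 := hG v
    have h3 := Nat.mul_le_mul_left a h1
    have h4 : a * nonadj Gb v ≤ b * nonadj Gb v := Nat.mul_le_mul_right _ hab
    have h5 : a * (nonadj Gr v + nonadj Gb v) = a * nonadj Gr v + a * nonadj Gb v := by ring
    omega
  obtain ⟨x, _, hx2, hx3⟩ := greedy_clique hD hn f a Finset.univ 0 (by simp) (by simp)
  simp only [mul_zero, add_zero] at hx3
  have hsumx : ∑ i, f (x i) + b < Q.card := by
    have h1 : n * (∑ i, f (x i) + b) < n * Q.card := by nlinarith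
    exact Nat.lt_of_mul_lt_mul_left h1
  -- Hall
  have hall : ∀ A : Finset (Fin a), A.card ≤ (A.biUnion (fun i => M (x i))).card := by
    intro A
    by_contra hcon
    push Not at hcon
    set B := A.biUnion (fun i => M (x i)) with hB
    have hBQ : B ⊆ Q := by
      rw [hB, Finset.biUnion_subset]
      exact fun i _ => hsub _
    have hBm : ∀ i ∈ A, ∀ q ∈ Q, q ∉ B → Gb.Adj (x i) q := by
      intro i hi q hq hqB
      exact hadjM _ q hq (fun h => hqB (Finset.mem_biUnion.2 ⟨i, hi, h⟩))
    have hinj : Function.Injective x := by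
      intro i j hij
      by_contra hne
      have := (hx2 i j hne).1
      rw [hij] at this
      exact Gr.irrefl this
    have hdisj : Disjoint (Q \ B) (A.image x) := by
      rw [Finset.disjoint_left]
      intro q hq hqx
      rw [Finset.mem_image] at hqx
      obtain ⟨i, hi, rfl⟩ := hqx
      rw [Finset.mem_sdiff] at hq
      exact hq.2 (Finset.mem_biUnion.2 ⟨i, hi, hself _ hq.1⟩)
    have h1 := hmax ((Q \ B) ∪ A.image x) (by
      intro u hu v hv huv
      rcases Finset.mem_union.1 hu with hu | hu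
      · rw [Finset.mem_sdiff] at hu
        rcases Finset.mem_union.1 hv with hv | hv
        · rw [Finset.mem_sdiff] at hv
          exact hQ u hu.1 v hv.1 huv
        · rw [Finset.mem_image] at hv
          obtain ⟨i, hi, rfl⟩ := hv
          exact (hBm i hi u hu.1 hu.2).symm
      · rw [Finset.mem_image] at hu
        obtain ⟨i, hi, rfl⟩ := hu
        rcases Finset.mem_union.1 hv with hv | hv
        · rw [Finset.mem_sdiff] at hv
          exact hBm i hi v hv.1 hv.2
        · rw [Finset.mem_image] at hv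
          obtain ⟨j, hj, rfl⟩ := hv
          exact (hx2 i j (fun h => huv (congrArg x h))).2)
    rw [Finset.card_union_of_disjoint hdisj, Finset.card_image_of_injective _ hinj] at h1
    have h2 := Finset.card_sdiff_add_card_eq_card hBQ
    omega
  obtain ⟨y, hyinj, hy⟩ := (Finset.all_card_le_biUnion_card_iff_exists_injective
    (fun i => M (x i))).1 hall
  -- the remaining vertices of `Q`
  set Z := (Finset.univ : Finset (Fin a)).biUnion (fun i => N (x i) ∪ (M (x i)).erase (y i)) with hZ
  have hZcard : Z.card ≤ ∑ i, f (x i) := by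
    rw [hZ]
    refine Finset.card_biUnion_le.trans (Finset.sum_le_sum fun i _ => ?_)
    have h1 := Finset.card_union_le (N (x i)) ((M (x i)).erase (y i))
    have h2 : ((M (x i)).erase (y i)).card = (M (x i)).card - 1 :=
      Finset.card_erase_of_mem (hy i)
    have h3 := hf1 (x i)
    have h4 := hMne (x i)
    omega
  refine ⟨x, y, Q \ Z, hx2, hyinj, ?_, ?_, ?_⟩
  · have h1 := Finset.le_card_sdiff Z Q
    omega
  · intro w hw w' hw' hne
    exact hQ w (Finset.mem_sdiff.1 hw).1 w' (Finset.mem_sdiff.1 hw').1 hne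
  · intro i w hw
    rw [Finset.mem_sdiff] at hw
    refine ⟨hadjN _ w hw.1 fun h => hw.2 ?_, fun hne => hadjM _ w hw.1 fun h => hw.2 ?_⟩
    · exact Finset.mem_biUnion.2 ⟨i, Finset.mem_univ _, Finset.mem_union_left _ h⟩
    · exact Finset.mem_biUnion.2 ⟨i, Finset.mem_univ _, Finset.mem_union_right _
        (Finset.mem_erase.2 ⟨hne, h⟩)⟩

/-- If `V(H)` is the disjoint union of `U` and `W`, where `W` is a blue clique with `b + 1` vertices
and a red matching joins the `a ≤ b` vertices of `U` to vertices of `W`, then every multigraph with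
`a (non-red degree) + b (non-blue degree) < n` at each vertex contains `H`. -/
theorem contains_matching {V : Type} {H : SimpleGraph V} {a b : ℕ} (hab : a ≤ b)
    (hn : 0 < n) (hG : ∀ v, a * nonadj Gr v + b * nonadj Gb v < n)
    (u : Fin a → V) (w : Fin (b + 1) → V) (hui : Function.Injective u)
    (hcov : ∀ z, (∃ i, z = u i) ∨ ∃ j, z = w j)
    (hW : ∀ j j', ¬ H.Adj (w j) (w j'))
    (hM : ∀ i : Fin a, H.Adj (u i) (w (Fin.castLE (by omega) i))) : Contains H Hᶜ Gr Gb := by
  obtain ⟨x, y, W, hx, hy, hWcard, hWb, hxW⟩ := clique_core hab hn hG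
  -- a subset of `W` with `b + 1` elements that contains the `y i` that are in `W`
  obtain ⟨t, ht1, ht2, ht3⟩ := Finset.exists_subsuperset_card_eq
    (s := (Finset.univ.image y) ∩ W) (t := W) (n := b + 1) Finset.inter_subset_right (by
      have h1 : ((Finset.univ.image y) ∩ W).card ≤ (Finset.univ.image y).card :=
        Finset.card_le_card Finset.inter_subset_left
      have h2 : (Finset.univ.image y).card ≤ a := by
        refine Finset.card_image_le.trans ?_
        simp
      omega) hWcard
  set s : Set (Fin (b + 1)) := {j | ∃ h : (j : ℕ) < a, y ⟨j, h⟩ ∈ W} with hs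
  set g0 : Fin (b + 1) → Fin n := fun j => if h : (j : ℕ) < a then y ⟨j, h⟩ else ⟨0, hn⟩ with hg0
  have hg0v : ∀ (j : Fin (b + 1)) (h : (j : ℕ) < a), g0 j = y ⟨j, h⟩ := fun j h => dif_pos h
  obtain ⟨g, hg⟩ := Set.MapsTo.exists_equiv_extend_of_card_eq (α := Fin (b + 1)) (t := t)
    (by rw [Fintype.card_fin, ht3]) (s := s) (f := g0) (by
      rintro j ⟨h, hj⟩
      rw [hg0v j h]
      exact ht1 (Finset.mem_inter.2 ⟨Finset.mem_image_of_mem _ (Finset.mem_univ _), hj⟩)) (by
      rintro j ⟨h, hj⟩ j' ⟨h', hj'⟩ hjj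
      rw [hg0v j h, hg0v j' h'] at hjj
      have := hy hjj
      rw [Fin.mk.injEq] at this
      exact Fin.ext this)
  have hgW : ∀ j, (g j : Fin n) ∈ W := fun j => ht2 (g j).2
  have hginj : Function.Injective (fun j => (g j : Fin n)) := fun j j' h =>
    g.injective (Subtype.ext h)
  have hgy : ∀ (i : Fin a) (j : Fin (b + 1)), (i : ℕ) ≠ j → (g j : Fin n) ≠ y i := by
    intro i j hij h
    have h1 : y i ∈ W := by rw [← h]; exact hgW j
    have h2 : (⟨i, by omega⟩ : Fin (b + 1)) ∈ s := ⟨i.2, h1⟩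
    have h3 := hg _ h2
    rw [hg0v _ i.2] at h3
    have h4 : (g ⟨i, by omega⟩ : Fin n) = g j := by
      rw [h, h3]
    have h5 := hginj h4
    apply hij
    rw [← h5]
  -- the two maps are injective, and their ranges are disjoint
  have hxinj : Function.Injective x := by
    intro i j hij
    by_contra hne
    have := (hx i j hne).1
    rw [hij] at this
    exact Gr.irrefl this
  have hwi : ∀ j j', g j = g j' → w j = w j' := fun j j' h => by rw [g.injective h]
  have huw : ∀ i j, u i ≠ w j := by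
    intro i j h
    have := hM i
    rw [h] at this
    exact hW _ _ this
  -- the map
  set F : V → Fin n := fun z => if h : ∃ i, z = u i then x h.choose
    else if h' : ∃ j, z = w j then g h'.choose else ⟨0, hn⟩ with hF
  have hFu : ∀ i, F (u i) = x i := by
    intro i
    have h : ∃ i', u i = u i' := ⟨i, rfl⟩
    have h1 : F (u i) = x h.choose := dif_pos h
    rw [h1, ← hui h.choose_spec]
  have hFw : ∀ j, ∃ j', w j = w j' ∧ F (w j) = g j' := by
    intro j
    have h : ¬ ∃ i, w j = u i := by
      rintro ⟨i, hi⟩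
      exact huw i j hi.symm
    have h' : ∃ j', w j = w j' := ⟨j, rfl⟩
    refine ⟨h'.choose, h'.choose_spec, ?_⟩
    have h1 : F (w j) = if h' : ∃ j', w j = w j' then (g h'.choose : Fin n) else ⟨0, hn⟩ :=
      dif_neg h
    rw [h1, dif_pos h']
  have hxg : ∀ i j, x i ≠ g j := by
    intro i j h
    have := (hxW i _ (hgW j)).1
    rw [← h] at this
    exact Gr.irrefl this
  have hxgb : ∀ (i : Fin a) (j : Fin (b + 1)), (i : ℕ) ≠ j → Gb.Adj (x i) (g j) :=
    fun i j hij => (hxW i _ (hgW j)).2 (hgy i j hij)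
  have hub : ∀ (i : Fin a) (j : Fin (b + 1)), ¬ H.Adj (u i) (w j) → (i : ℕ) ≠ j := by
    intro i j h hij
    apply h
    have h1 : j = Fin.castLE (by omega) i := Fin.ext (by rw [← hij]; rfl)
    rw [h1]
    exact hM i
  refine ⟨F, ?_, ?_⟩
  · intro z z' hzz
    rcases hcov z with ⟨i, rfl⟩ | ⟨j, rfl⟩
    · rcases hcov z' with ⟨i', rfl⟩ | ⟨j', rfl⟩
      · rw [hFu, hFu] at hzz
        rw [hxinj hzz]
      · obtain ⟨k, _, hk2⟩ := hFw j'
        rw [hFu, hk2] at hzz
        exact absurd hzz (hxg i k)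
    · obtain ⟨k, hk1, hk2⟩ := hFw j
      rcases hcov z' with ⟨i', rfl⟩ | ⟨j', rfl⟩
      · rw [hFu, hk2] at hzz
        exact absurd hzz.symm (hxg i' k)
      · obtain ⟨k', hk1', hk2'⟩ := hFw j'
        rw [hk2, hk2'] at hzz
        rw [hk1, hk1', hginj hzz]
  · intro z z'
    rcases hcov z with ⟨i, rfl⟩ | ⟨j, rfl⟩
    · rcases hcov z' with ⟨i', rfl⟩ | ⟨j', rfl⟩
      · rw [hFu, hFu]
        constructor
        · intro h
          exact (hx i i' (fun hc => H.ne_of_adj h (congrArg u hc))).1
        · intro h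
          exact (hx i i' (fun hc => Hᶜ.ne_of_adj h (congrArg u hc))).2
      · obtain ⟨k, hk1, hk2⟩ := hFw j'
        rw [hFu, hk2, hk1]
        refine ⟨fun _ => (hxW i _ (hgW k)).1, fun h => ?_⟩
        rw [SimpleGraph.compl_adj] at h
        exact hxgb i k (hub i k h.2)
    · obtain ⟨k, hk1, hk2⟩ := hFw j
      rcases hcov z' with ⟨i', rfl⟩ | ⟨j', rfl⟩
      · rw [hFu, hk2, hk1]
        refine ⟨fun _ => (hxW i' _ (hgW k)).1.symm, fun h => ?_⟩
        have h' := h.symm
        rw [SimpleGraph.compl_adj] at h'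
        exact (hxgb i' k (hub i' k h'.2)).symm
      · obtain ⟨k', hk1', hk2'⟩ := hFw j'
        rw [hk2, hk2', hk1, hk1']
        refine ⟨fun h => absurd h (hW _ _), fun h => ?_⟩
        apply hWb _ (hgW k) _ (hgW k')
        intro hc
        exact Hᶜ.ne_of_adj h (by rw [hginj hc])

theorem forces_matching {V : Type} {H : SimpleGraph V} {a b : ℕ} (hab : a ≤ b)
    (u : Fin a → V) (w : Fin (b + 1) → V) (hui : Function.Injective u)
    (hcov : ∀ z, (∃ i, z = u i) ∨ ∃ j, z = w j)
    (hW : ∀ j j', ¬ H.Adj (w j) (w j'))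
    (hM : ∀ i : Fin a, H.Adj (u i) (w (Fin.castLE (by omega) i))) :
    Forces (a : ℝ) (b : ℝ) H Hᶜ := by
  intro ε hε
  refine ⟨1, fun n hn Gr Gb hG => ?_⟩
  apply contains_matching hab (by omega) _ u w hui hcov hW hM
  intro v
  have h1 := hG v
  have h2 : (0 : ℝ) < n := by exact_mod_cast (show 0 < n by omega)
  have h3 : ((a * nonadj Gr v + b * nonadj Gb v : ℕ) : ℝ) < n := by
    push_cast
    nlinarith
  exact_mod_cast h3

end Clique

end Pool.Agent.Lib.MP_a05470_co
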