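import Pool.Agent.Lib.MP_a05470_co.Dominate

set_option autoImplicit false

namespace Pool.Agent.Lib.MP_a05470_co

open Finset Classical Filter Topology

/-- from the density bound to the minimum degree condition -/
theorem forces_of_mu {V : Type} {Hr Hb : SimpleGraph V} {p μ c : ℝ} (hp0 : 0 ≤ p) (hp1 : p ≤ 1)
    (hc : 0 < c) (hμ : Tendsto (fun n : ℕ => ex p Hr Hb n / (n.choose 2 : ℝ)) atTop (𝓝 μ))
    (hle : μ ≤ 1 - 1 / c) : Forces (p * c) ((1 - p) * c) Hr Hb := by
  intro ε hε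
  have h1 : μ < 1 - 1 / c + ε / c := by
    have : 0 < ε / c := by positivity
    linarith
  obtain ⟨N, hN⟩ := eventually_atTop.1 (hμ.eventually_lt_const h1)
  refine ⟨N + 2, fun n hn Gr Gb hG => ?_⟩
  by_contra hcon
  have h2 := hN n (by omega)
  have hn2 : (2 : ℝ) ≤ n := by
    have : 2 ≤ n := by omega
    exact_mod_cast this
  have hch : ((n.choose 2 : ℕ) : ℝ) = n * (n - 1) / 2 := by
    rw [Nat.cast_choose_two]
  have hpos : (0 : ℝ) < n * (n - 1) / 2 := by nlinarith
  rw [hch, div_lt_iff₀ hpos] at h2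
  have h3 : weight p Gr Gb ≤ ex p Hr Hb n := weight_le_ex hcon
  have h4 := two_weight p Gr Gb
  have h5 : ∑ v : Fin n, ((n : ℝ) - (1 - ε) * n / c) ≤
      ∑ v : Fin n, ((n : ℝ) - (p * nonadj Gr v + (1 - p) * nonadj Gb v)) := by
    apply Finset.sum_le_sum
    intro v _
    have h6 := hG v
    have h7 : p * nonadj Gr v + (1 - p) * nonadj Gb v ≤ (1 - ε) * n / c := by
      rw [le_div_iff₀ hc]
      calc (p * (nonadj Gr v : ℝ) + (1 - p) * nonadj Gb v) * c =
          p * c * nonadj Gr v + (1 - p) * c * nonadj Gb v := by ring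
        _ ≤ _ := h6
    linarith
  rw [← h4] at h5
  simp only [Finset.sum_const, Finset.card_univ, Fintype.card_fin, nsmul_eq_mul] at h5
  have h8 : 0 ≤ weight p Gr Gb := weight_nonneg hp0 hp1 _ _
  have h9 : (n : ℝ) * ((n : ℝ) - (1 - ε) * n / c) = (1 - 1 / c + ε / c) * (n * n) := by
    field_simp
    ring
  rw [h9] at h5
  set X := 1 - 1 / c + ε / c with hX
  rcases le_or_gt 0 X with hX0 | hX0
  · nlinarith
  · nlinarith

end Pool.Agent.Lib.MP_a05470_co
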