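import Pool.Agent.Lib.MP_a05470_co.Bip

set_option autoImplicit false

namespace Pool.Agent.Lib.MP_a05470_co

open Finset Classical Filter Topology

/-- an independent set with more than half of the vertices, into which the rest is matched -/
theorem forces_koenig' {V : Type} [Fintype V] (H : SimpleGraph V) (W : Finset V)
    (hW : ∀ x ∈ W, ∀ y ∈ W, ¬ H.Adj x y) (hcard : Fintype.card V < 2 * W.card)
    (f : {x // x ∉ W} → V) (hf : Function.Injective f)
    (hfa : ∀ x : {x // x ∉ W}, f x ∈ W ∧ H.Adj x (f x)) :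
    ∃ a b : ℝ, 0 ≤ a ∧ 0 ≤ b ∧ a + b = (Fintype.card V : ℝ) - 1 ∧ Forces a b H Hᶜ := by
  have hWV : W.card ≤ Fintype.card V := Finset.card_le_univ W
  have h4 : (1 : ℝ) ≤ W.card := by
    have : 1 ≤ W.card := by omega
    exact_mod_cast this
  rcases Nat.lt_or_ge W.card (Fintype.card V) with h1 | h1
  · have h3 : (W.card : ℝ) < Fintype.card V := by exact_mod_cast h1
    refine ⟨_, _, by linarith, by linarith, by ring, forces_koenig H W hW hcard h1
      (fun x => ⟨f x, (hfa x).1⟩) (fun x y hxy => hf (congrArg Subtype.val hxy))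
      (fun x => (hfa x).2)⟩
  · have hWu : W = Finset.univ := Finset.eq_univ_of_card W (le_antisymm hWV h1)
    have hbot : H = ⊥ := by
      ext x y
      simp only [SimpleGraph.bot_adj, iff_false]
      exact hW x (by rw [hWu]; exact Finset.mem_univ _) y (by rw [hWu]; exact Finset.mem_univ _)
    obtain ⟨a, b, ha, hb, hab, hF⟩ := forces_bot (V := V) (h := Fintype.card V - 1) (by omega)
    rw [hbot]
    refine ⟨a, b, ha, hb, ?_, hF⟩
    rw [hab, Nat.cast_sub (by omega)]
    simp

/-- both chromatic numbers at most `(|V|+1)/2`, and not exceptional -/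
theorem forces_balanced {V : Type} [Fintype V] (H : SimpleGraph V) (hV : 2 ≤ Fintype.card V)
    (hn1 : ∀ (κ : V → V) (σ : V → Bool), ¬ BalOn H Finset.univ κ σ)
    (hn2 : ∀ (κ : V → V) (σ : V → Bool), ¬ BalOn Hᶜ Finset.univ κ σ)
    (h1 : 2 * H.chromaticNumber.toNat ≤ Fintype.card V + 1)
    (h2 : 2 * Hᶜ.chromaticNumber.toNat ≤ Fintype.card V + 1) :
    ∃ a b : ℝ, 0 ≤ a ∧ 0 ≤ b ∧ a + b = (Fintype.card V : ℝ) - 1 ∧ Forces a b H Hᶜ := by
  have hK1 : H.Colorable H.chromaticNumber.toNat := (colorable_iff_toNat H _).2 le_rfl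
  have hK2 : Hᶜ.Colorable Hᶜ.chromaticNumber.toNat := (colorable_iff_toNat Hᶜ _).2 le_rfl
  rcases Nat.even_or_odd' (Fintype.card V) with ⟨m, hm | hm⟩
  · have hK1' := hK1.mono (show H.chromaticNumber.toNat ≤ m by omega)
    have hK2' := hK2.mono (show Hᶜ.chromaticNumber.toNat ≤ m by omega)
    have hm2 : 2 ≤ m := by
      by_contra hcon
      have hm1 : m = 1 := by omega
      obtain ⟨x, y, hxy⟩ := Fintype.one_lt_card_iff.1 (show 1 < Fintype.card V by omega)
      subst hm1
      obtain ⟨C1⟩ := hK1'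
      obtain ⟨C2⟩ := hK2'
      by_cases h : H.Adj x y
      · exact C1.valid h (Subsingleton.elim _ _)
      · exact C2.valid (compl_adj_of hxy h) (Subsingleton.elim _ _)
    have hng1 : ¬ NG H m Finset.univ := by
      intro h
      obtain ⟨κ, σ, hB, _⟩ := h.bal
      exact hn1 κ σ hB
    have hng2 : ¬ NG Hᶜ m Finset.univ := by
      intro h
      obtain ⟨κ, σ, hB, _⟩ := h.bal
      exact hn2 κ σ hB
    have hF := forces_even hm2 hm hK1' hK2' hng1 hng2
    have h4 : (2 : ℝ) ≤ m := by exact_mod_cast hm2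
    refine ⟨_, _, by linarith, by linarith, ?_, hF⟩
    rw [hm]
    push_cast
    ring
  · have hF : Forces (m : ℝ) m H Hᶜ :=
      forces_odd (by omega) hm.le (hK1.mono (by omega)) (hK2.mono (by omega))
    refine ⟨_, _, by positivity, by positivity, ?_, hF⟩
    rw [hm]
    push_cast
    ring

end Pool.Agent.Lib.MP_a05470_co
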