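import Pool.Agent.Lib.MP_a05470_co.Peel

set_option autoImplicit false

namespace Pool.Agent.Lib.MP_a05470_co

open Finset Classical

section Cover

variable {V : Type} {H : SimpleGraph V} {X Y : Finset V} {j k : ℕ}

/-- `X` is covered by at most `k` cliques of `H` -/
def Cov (H : SimpleGraph V) (k : ℕ) (X : Finset V) : Prop :=
  ∃ P : Finset (Finset V), P.card ≤ k ∧ (∀ x ∈ X, ∃ K ∈ P, x ∈ K) ∧
    ∀ K ∈ P, ∀ x ∈ K, ∀ y ∈ K, x ≠ y → H.Adj x y

theorem Cov.sub (h : Cov H k X) (hY : Y ⊆ X) : Cov H k Y := by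
  obtain ⟨P, h1, h2, h3⟩ := h
  exact ⟨P, h1, fun x hx => h2 x (hY hx), h3⟩

theorem Cov.mono (h : Cov H k X) (hk : k ≤ j) : Cov H j X := by
  obtain ⟨P, h1, h2, h3⟩ := h
  exact ⟨P, h1.trans hk, h2, h3⟩

theorem cov_empty : Cov H k ∅ := ⟨∅, by simp, by simp, by simp⟩

/-- adding a clique -/
theorem Cov.add (h : Cov H k X) {K : Finset V} (hK : ∀ x ∈ K, ∀ y ∈ K, x ≠ y → H.Adj x y)
    (hY : ∀ y ∈ Y, y ∈ X ∨ y ∈ K) : Cov H (k + 1) Y := by
  obtain ⟨P, h1, h2, h3⟩ := h
  refine ⟨insert K P, (Finset.card_insert_le K P).trans (by omega), ?_, ?_⟩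
  · intro y hy
    rcases hY y hy with h | h
    · obtain ⟨L, hL, hy'⟩ := h2 y h
      exact ⟨L, Finset.mem_insert_of_mem hL, hy'⟩
    · exact ⟨K, Finset.mem_insert_self _ _, h⟩
  · intro L hL
    rcases Finset.mem_insert.1 hL with rfl | hL
    · exact hK
    · exact h3 L hL

theorem clique_pair {x y : V} (h : H.Adj x y) :
    ∀ a ∈ ({x, y} : Finset V), ∀ b ∈ ({x, y} : Finset V), a ≠ b → H.Adj a b := by
  intro a ha b hb hab
  rw [Finset.mem_insert, Finset.mem_singleton] at ha hb
  rcases ha with rfl | rfl <;> rcases hb with rfl | rfl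
  · exact absurd rfl hab
  · exact h
  · exact h.symm
  · exact absurd rfl hab

theorem image_card_le {ι : Type} [DecidableEq ι] {P : Finset ι} (c : V → ι)
    (h : ∀ x ∈ X, c x ∈ P) : (X.image c).card ≤ P.card :=
  Finset.card_le_card (Finset.image_subset_iff.2 h)

theorem Cov.col (h : Cov H k X) : ∃ (ι : Type) (c : V → ι), CliqueCol H X c ∧
    (X.image c).card ≤ k := by
  obtain ⟨P, h1, h2, h3⟩ := h
  choose! f hf1 hf2 using h2
  refine ⟨Finset V, f, ?_, ?_⟩
  · intro x hx y hy hxy hf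
    apply h3 (f x) (hf1 x hx) x (hf2 x hx) y _ hxy
    rw [hf]
    exact hf2 y hy
  · have h4 : ∀ D : DecidableEq (Finset V), (@Finset.image V (Finset V) D f X).card ≤ k :=
      fun D => (image_card_le f hf1).trans h1
    exact h4 _

theorem cov_of_col {ι : Type} {c : V → ι} (h : CliqueCol H X c) (hk : (X.image c).card ≤ k) :
    Cov H k X := by
  refine ⟨(X.image c).image (fun i => X.filter (fun x => c x = i)),
    Finset.card_image_le.trans hk, ?_, ?_⟩
  · intro x hx
    refine ⟨X.filter (fun y => c y = c x), Finset.mem_image.2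
      ⟨c x, Finset.mem_image_of_mem c hx, rfl⟩, ?_⟩
    rw [Finset.mem_filter]
    exact ⟨hx, rfl⟩
  · intro K hK x hx y hy hxy
    rw [Finset.mem_image] at hK
    obtain ⟨i, _, rfl⟩ := hK
    rw [Finset.mem_filter] at hx hy
    exact h x hx.1 y hy.1 hxy (hx.2.trans hy.2.symm)

/-- no vertex can be deleted to lower the clique cover number -/
def Tight (H : SimpleGraph V) (j : ℕ) (Y : Finset V) : Prop :=
  Y.card = 2 * j ∧ Cov H j Y ∧ ∀ u ∈ Y, ¬ Cov H (j - 1) (Y.erase u)

theorem Tight.remove (h : Tight H j Y) {x y : V} (hx : x ∈ Y) (hy : y ∈ Y) (hxy : H.Adj x y)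
    (hc : Cov H (j - 1) (Y \ {x, y})) : Tight H (j - 1) (Y \ {x, y}) := by
  have h1 := card_sdiff_pair hx hy (H.ne_of_adj hxy)
  have h2 := h.1
  refine ⟨by omega, hc, ?_⟩
  intro u hu hcov
  have huY := (Finset.mem_sdiff.1 hu).1
  apply h.2.2 u huY
  have h3 : 1 ≤ (Y \ {x, y}).card := Finset.card_pos.2 ⟨u, hu⟩
  have h4 := hcov.add (clique_pair hxy) (Y := Y.erase u) (by
    intro z hz
    rw [Finset.mem_erase] at hz
    by_cases hzxy : z ∈ ({x, y} : Finset V)
    · exact Or.inr hzxy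
    · exact Or.inl (Finset.mem_erase.2 ⟨hz.1, Finset.mem_sdiff.2 ⟨hz.2, hzxy⟩⟩))
  exact h4.mono (by omega)

theorem Tight.partner (h : Tight H j Y) {x : V} (hx : x ∈ Y) :
    ∃ x' ∈ Y, H.Adj x x' ∧ Tight H (j - 1) (Y \ {x, x'}) := by
  obtain ⟨hcard, hcov, hcrit⟩ := h
  obtain ⟨ι, c, hc, hK⟩ := hcov.col
  have himage : ∀ u ∈ Y, ((Y.filter (fun z => c z ≠ c u)).image c).card + 1 = (Y.image c).card := by
    intro u hu
    have h1 : (Y.filter (fun z => c z ≠ c u)).image c = (Y.image c).erase (c u) := by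
      ext i
      rw [Finset.mem_erase, Finset.mem_image, Finset.mem_image]
      constructor
      · rintro ⟨z, hz, rfl⟩
        rw [Finset.mem_filter] at hz
        exact ⟨hz.2, z, hz.1, rfl⟩
      · rintro ⟨h1, z, hz, rfl⟩
        exact ⟨z, Finset.mem_filter.2 ⟨hz, h1⟩, rfl⟩
    rw [h1]
    exact Finset.card_erase_add_one (Finset.mem_image_of_mem c hu)
  have hcovc : ∀ u ∈ Y, Cov H (j - 1) (Y.filter (fun z => c z ≠ c u)) := by
    intro u hu
    apply cov_of_col (hc.sub (Finset.filter_subset _ _))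
    have := himage u hu
    omega
  -- every class has another vertex
  have hex : ∀ u ∈ Y, ∃ z ∈ Y, z ≠ u ∧ c z = c u := by
    intro u hu
    by_contra hcon
    push Not at hcon
    apply hcrit u hu
    apply (hcovc u hu).sub
    intro z hz
    rw [Finset.mem_erase] at hz
    rw [Finset.mem_filter]
    exact ⟨hz.2, hcon z hz.2 hz.1⟩
  have hge : ∀ i ∈ Y.image c, 2 ≤ (Y.filter (fun z => c z = i)).card := by
    intro i hi
    rw [Finset.mem_image] at hi
    obtain ⟨u, hu, rfl⟩ := hi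
    obtain ⟨z, hz, hzu, hcz⟩ := hex u hu
    have h1 : ({u, z} : Finset V) ⊆ Y.filter (fun a => c a = c u) := by
      intro a ha
      rw [Finset.mem_insert, Finset.mem_singleton] at ha
      rw [Finset.mem_filter]
      rcases ha with rfl | rfl
      · exact ⟨hu, rfl⟩
      · exact ⟨hz, hcz⟩
    have h2 := Finset.card_le_card h1
    rwa [Finset.card_pair (Ne.symm hzu)] at h2
  have hsum := Finset.card_eq_sum_card_fiberwise (f := c) (s := Y) (t := Y.image c)
    (fun x hx => Finset.mem_coe.2 (Finset.mem_image_of_mem c hx))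
  obtain ⟨x', hx', hxx', hcx'⟩ := hex x hx
  -- the class of x is a pair
  have hle : (Y.filter (fun z => c z = c x)).card ≤ 2 := by
    by_contra hcon
    push Not at hcon
    have h1 : ∑ i ∈ Y.image c, 2 < ∑ i ∈ Y.image c, (Y.filter (fun z => c z = i)).card :=
      Finset.sum_lt_sum hge ⟨c x, Finset.mem_image_of_mem c hx, hcon⟩
    rw [← hsum, Finset.sum_const, smul_eq_mul, hcard] at h1
    apply hcrit x hx
    apply Cov.sub _ (Finset.erase_subset x Y)
    exact cov_of_col hc (by omega)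
  have hclass : Y.filter (fun z => c z = c x) = {x, x'} := by
    symm
    apply Finset.eq_of_subset_of_card_le
    · intro a ha
      rw [Finset.mem_insert, Finset.mem_singleton] at ha
      rw [Finset.mem_filter]
      rcases ha with rfl | rfl
      · exact ⟨hx, rfl⟩
      · exact ⟨hx', hcx'⟩
    · rw [Finset.card_pair (Ne.symm hxx')]
      exact hle
  have hadj : H.Adj x x' := hc x hx x' hx' (Ne.symm hxx') hcx'.symm
  refine ⟨x', hx', hadj, ?_⟩
  apply Tight.remove ⟨hcard, hcov, hcrit⟩ hx hx' hadj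
  apply (hcovc x hx).sub
  intro z hz
  rw [Finset.mem_sdiff, ← hclass, Finset.mem_filter] at hz
  rw [Finset.mem_filter]
  exact ⟨hz.1, fun h => hz.2 ⟨hz.1, h⟩⟩

/-- in a tight set no vertex is adjacent to both ends of a pair -/
theorem Tight.two_blue (h : Tight H j Y) {x x' : V} (hx : x ∈ Y) (hx' : x' ∈ Y)
    (hxx : H.Adj x x') (h1 : Tight H (j - 1) (Y \ {x, x'})) {y : V} (hy : y ∈ Y \ {x, x'}) :
    ¬ (H.Adj x y ∧ H.Adj x' y) := by
  rintro ⟨ha, hb⟩
  obtain ⟨y', hy', hyy, h2⟩ := h1.partner hy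
  have hy'Y := (Finset.mem_sdiff.1 hy').1
  have hc1 := card_sdiff_pair hx hx' (H.ne_of_adj hxx)
  have hc2 := card_sdiff_pair hy hy' (H.ne_of_adj hyy)
  have hcard := h.1
  apply h.2.2 y' hy'Y
  have h3 : Cov H (j - 1 - 1 + 1) (Y.erase y') := by
    apply h2.2.1.add (K := {x, x', y})
    · intro a ha' b hb' hab
      simp only [Finset.mem_insert, Finset.mem_singleton] at ha' hb'
      rcases ha' with rfl | rfl | rfl <;> rcases hb' with rfl | rfl | rfl
      · exact absurd rfl hab
      · exact hxx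
      · exact ha
      · exact hxx.symm
      · exact absurd rfl hab
      · exact hb
      · exact ha.symm
      · exact hb.symm
      · exact absurd rfl hab
    · intro z hz
      rw [Finset.mem_erase] at hz
      simp only [Finset.mem_sdiff, Finset.mem_insert, Finset.mem_singleton]
      tauto
  exact h3.mono (by omega)

/-- adding a pair to a matching -/
theorem HasMat.add {B : SimpleGraph V} {b : ℕ} {u w : V} (hu : u ∈ X) (hw : w ∈ X)
    (huw : B.Adj u w) (h : HasMat B (X \ {u, w}) b) : HasMat B X (b + 1) := by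
  obtain ⟨T, hT, hTc⟩ := h
  have hd : ∀ f ∈ T, Disjoint {u, w} f := by
    intro f hf
    rw [Finset.disjoint_left]
    intro z hz hzf
    have h2 : z ∈ T.biUnion id := by
      rw [Finset.mem_biUnion]
      exact ⟨f, hf, hzf⟩
    have h3 := hT.biUnion_subset h2
    rw [Finset.mem_sdiff] at h3
    exact h3.2 hz
  have hnot : ({u, w} : Finset V) ∉ T := by
    intro h
    have h1 := hd _ h
    rw [Finset.disjoint_self_iff_empty] at h1
    exact Finset.insert_ne_empty _ _ h1
  refine ⟨insert {u, w} T, ⟨?_, ?_⟩, ?_⟩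
  · intro e he
    rcases Finset.mem_insert.1 he with rfl | he
    · exact ⟨u, hu, w, hw, huw, rfl⟩
    · obtain ⟨p, hp, q, hq, hpq, rfl⟩ := hT.1 e he
      exact ⟨p, (Finset.mem_sdiff.1 hp).1, q, (Finset.mem_sdiff.1 hq).1, hpq, rfl⟩
  · intro e he f hf hef
    rcases Finset.mem_insert.1 he with he' | he'
    · rcases Finset.mem_insert.1 hf with hf' | hf'
      · exact absurd (he'.trans hf'.symm) hef
      · rw [he']
        exact hd f hf'
    · rcases Finset.mem_insert.1 hf with hf' | hf'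
      · rw [hf']
        exact (hd e he').symm
      · exact hT.2 e he' f hf' hef
  · rw [Finset.card_insert_of_notMem hnot, hTc]

theorem HasMat.sub {B : SimpleGraph V} {b : ℕ} (h : HasMat B X b) (hY : X ⊆ Y) : HasMat B Y b := by
  obtain ⟨T, hT, hTc⟩ := h
  refine ⟨T, ⟨?_, hT.2⟩, hTc⟩
  intro e he
  obtain ⟨p, hp, q, hq, hpq, rfl⟩ := hT.1 e he
  exact ⟨p, hY hp, q, hY hq, hpq, rfl⟩

theorem hasMat_zero {B : SimpleGraph V} : HasMat B X 0 := ⟨∅, ⟨by simp, by simp⟩, rfl⟩

theorem compl_adj_of {x y : V} (h1 : x ≠ y) (h2 : ¬ H.Adj x y) : Hᶜ.Adj x y := by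
  rw [SimpleGraph.compl_adj]
  exact ⟨h1, h2⟩

/-- four vertices in two pairs carry two disjoint blue edges -/
theorem two_blue_edges {x x' y y' : V} (hxy : x ≠ y) (hxy' : x ≠ y') (hx'y : x' ≠ y)
    (hx'y' : x' ≠ y') (h1 : ¬ (H.Adj x y ∧ H.Adj x' y)) (h2 : ¬ (H.Adj x y' ∧ H.Adj x' y'))
    (h3 : ¬ (H.Adj y x ∧ H.Adj y' x)) (h4 : ¬ (H.Adj y x' ∧ H.Adj y' x')) :
    (Hᶜ.Adj x y ∧ Hᶜ.Adj x' y') ∨ (Hᶜ.Adj x y' ∧ Hᶜ.Adj x' y) := by
  rw [H.adj_comm y x, H.adj_comm y' x] at h3
  rw [H.adj_comm y x', H.adj_comm y' x'] at h4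
  by_cases ha : H.Adj x y
  · right
    exact ⟨compl_adj_of hxy' (fun h => h3 ⟨ha, h⟩), compl_adj_of hx'y (fun h => h1 ⟨ha, h⟩)⟩
  · by_cases hb : H.Adj x' y'
    · right
      exact ⟨compl_adj_of hxy' (fun h => h2 ⟨h, hb⟩), compl_adj_of hx'y (fun h => h4 ⟨h, hb⟩)⟩
    · left
      exact ⟨compl_adj_of hxy ha, compl_adj_of hx'y' hb⟩

/-- a tight set has many disjoint blue edges -/
theorem Tight.hasMat (t : ℕ) : ∀ {j : ℕ} {Y : Finset V}, Tight H j Y → 2 * t ≤ j →
    HasMat Hᶜ Y (2 * t) := by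
  induction t with
  | zero => exact fun _ _ => hasMat_zero
  | succ t ih =>
    intro j Y hY ht
    have hcard := hY.1
    have hne : Y.Nonempty := by
      rw [← Finset.card_pos]
      omega
    obtain ⟨x, hx⟩ := hne
    obtain ⟨x', hx', hxx, h1⟩ := hY.partner hx
    have hne1 : (Y \ {x, x'}).Nonempty := by
      rw [← Finset.card_pos]
      have := h1.1
      omega
    obtain ⟨y, hy⟩ := hne1
    obtain ⟨y', hy', hyy, h2⟩ := h1.partner hy
    have hyY := Finset.mem_sdiff.1 hy
    have hy'Y := Finset.mem_sdiff.1 hy'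
    simp only [Finset.mem_insert, Finset.mem_singleton, not_or] at hyY hy'Y
    have ha := hY.two_blue hx hx' hxx h1 hy
    have hb := hY.two_blue hx hx' hxx h1 hy'
    -- the pair y y' seen from x and x'
    have hcov : Cov H (j - 1) (Y \ {y, y'}) := by
      have hc2 := card_sdiff_pair hy hy' (H.ne_of_adj hyy)
      have hc1 := card_sdiff_pair hx hx' (H.ne_of_adj hxx)
      have h3 : Cov H (j - 1 - 1 + 1) (Y \ {y, y'}) := by
        apply h2.2.1.add (clique_pair hxx)
        intro z hz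
        simp only [Finset.mem_sdiff, Finset.mem_insert, Finset.mem_singleton] at hz ⊢
        tauto
      exact h3.mono (by omega)
    have h1' : Tight H (j - 1) (Y \ {y, y'}) := hY.remove hyY.1 hy'Y.1 hyy hcov
    have hxm : x ∈ Y \ {y, y'} := by
      simp only [Finset.mem_sdiff, Finset.mem_insert, Finset.mem_singleton]
      exact ⟨hx, by tauto⟩
    have hx'm : x' ∈ Y \ {y, y'} := by
      simp only [Finset.mem_sdiff, Finset.mem_insert, Finset.mem_singleton]
      exact ⟨hx', by tauto⟩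
    have hc := hY.two_blue hyY.1 hy'Y.1 hyy h1' hxm
    have hd := hY.two_blue hyY.1 hy'Y.1 hyy h1' hx'm
    have hrest := ih h2 (by omega)
    have hkey := two_blue_edges (H := H) (Ne.symm hyY.2.1) (Ne.symm hy'Y.2.1)
      (Ne.symm hyY.2.2) (Ne.symm hy'Y.2.2) ha hb hc hd
    have h2t : 2 * (t + 1) = 2 * t + 1 + 1 := by ring
    rw [h2t]
    rcases hkey with ⟨e1, e2⟩ | ⟨e1, e2⟩
    · apply HasMat.add hx hyY.1 e1
      apply HasMat.add (u := x') (w := y') _ _ e2
      · apply hrest.sub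
        intro z hz
        simp only [Finset.mem_sdiff, Finset.mem_insert, Finset.mem_singleton] at hz ⊢
        tauto
      · simp only [Finset.mem_sdiff, Finset.mem_insert, Finset.mem_singleton]
        exact ⟨hx', by
          have := H.ne_of_adj hxx
          tauto⟩
      · simp only [Finset.mem_sdiff, Finset.mem_insert, Finset.mem_singleton]
        exact ⟨hy'Y.1, by
          have := H.ne_of_adj hyy
          tauto⟩
    · apply HasMat.add hx hy'Y.1 e1
      apply HasMat.add (u := x') (w := y) _ _ e2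
      · apply hrest.sub
        intro z hz
        simp only [Finset.mem_sdiff, Finset.mem_insert, Finset.mem_singleton] at hz ⊢
        tauto
      · simp only [Finset.mem_sdiff, Finset.mem_insert, Finset.mem_singleton]
        exact ⟨hx', by
          have := H.ne_of_adj hxx
          tauto⟩
      · simp only [Finset.mem_sdiff, Finset.mem_insert, Finset.mem_singleton]
        exact ⟨hyY.1, by
          have := H.ne_of_adj hyy
          tauto⟩

end Cover

end Pool.Agent.Lib.MP_a05470_co
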