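import Pool.Agent.Lib.MP_a05470_co.Weighted

set_option autoImplicit false

namespace Pool.Agent.Lib.MP_a05470_co

open Finset Classical Filter Topology

section crown

variable {V : Type} [Fintype V] {a b l : ℝ} {Gr Gb : SimpleGraph V} {x : V → ℝ}

/-- green pairs -/
def Green (Gr Gb : SimpleGraph V) (u v : V) : Prop := Gr.Adj u v ∧ Gb.Adj u v

omit [Fintype V] in
theorem Green.symm {u v : V} (h : Green Gr Gb u v) : Green Gr Gb v u := ⟨h.1.symm, h.2.symm⟩

omit [Fintype V] in
theorem Green.ne {u v : V} (h : Green Gr Gb u v) : u ≠ v := h.1.ne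

/-- the vertices not green to `v` (with `v`) -/
noncomputable def ngr (Gr Gb : SimpleGraph V) (v : V) : Finset V :=
  univ.filter (fun z => ¬ Green Gr Gb v z)

/-- the vertices not joined to `v` in `G` (with `v`) -/
noncomputable def nnb (G : SimpleGraph V) (v : V) : Finset V := univ.filter (fun z => ¬ G.Adj v z)

theorem nmass_eq (G : SimpleGraph V) (x : V → ℝ) (v : V) : nmass G x v = ∑ z ∈ nnb G v, x z := by
  unfold nmass nnb
  rw [Finset.sum_filter]
  refine Finset.sum_congr rfl (fun z _ => ?_)
  by_cases h : G.Adj v z <;> simp [h]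

theorem Core.ngr_mass (h : Core a b Gr Gb x l) (v : V) :
    ∑ z ∈ ngr Gr Gb v, x z = nmass Gr x v + nmass Gb x v - x v := by
  have h1 : x v = ∑ z, if z = v then x z else 0 := by simp
  rw [h1]
  unfold ngr nmass
  rw [Finset.sum_filter, ← Finset.sum_add_distrib, ← Finset.sum_sub_distrib]
  refine Finset.sum_congr rfl (fun z _ => ?_)
  by_cases hz : z = v
  · subst hz
    simp [Green]
  · have h2 := h.complete v z (Ne.symm hz)
    unfold Green
    by_cases h3 : Gr.Adj v z <;> by_cases h4 : Gb.Adj v z <;> (simp [h3, h4, hz]; try tauto)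

theorem nmass_nonneg (G : SimpleGraph V) {x : V → ℝ} (hx : ∀ v, 0 ≤ x v) (v : V) :
    0 ≤ nmass G x v := by
  unfold nmass
  exact Finset.sum_nonneg (fun z _ => by split_ifs; exacts [le_rfl, hx z])

theorem Core.m_lt (ha : 0 < a) (hab : a ≤ b) (h : Core a b Gr Gb x l) (hl : l < 1) (v : V) :
    nmass Gr x v + nmass Gb x v < 1 / a := by
  rw [lt_div_iff₀ ha]
  have h1 := h.dense v
  have h2 := nmass_nonneg Gb (fun v => (h.pos v).le) v
  nlinarith

/-- a greedy green clique: every vertex green to all of it has smaller non-blue mass -/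
theorem Core.exists_greedy (ha : 0 < a) (hab : a ≤ b) (h : Core a b Gr Gb x l) (hl : l < 1)
    (s : ℕ) (hs : (s : ℝ) ≤ a) :
    ∃ u : Fin s → V, (∀ i j, i ≠ j → Green Gr Gb (u i) (u j)) ∧
      ∀ v, (∀ i, Green Gr Gb (u i) v) → ∀ i, nmass Gb x v ≤ nmass Gb x (u i) := by
  induction s with
  | zero => exact ⟨fun i => i.elim0, fun i => i.elim0, fun _ _ i => i.elim0⟩
  | succ s ih =>
    obtain ⟨u, hu1, hu2⟩ := ih (by push_cast at hs; linarith)
    have hne : (univ.filter (fun v => ∀ i, Green Gr Gb (u i) v)).Nonempty := by
      by_contra hcon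
      rw [Finset.not_nonempty_iff_eq_empty] at hcon
      have hcov : ∀ v, ∃ i, v ∈ ngr Gr Gb (u i) := by
        intro v
        by_contra hc
        push Not at hc
        have : v ∈ univ.filter (fun v => ∀ i, Green Gr Gb (u i) v) := by
          simp only [mem_filter, mem_univ, true_and]
          intro i
          by_contra hg
          exact hc i (by simp [ngr, hg])
        rw [hcon] at this
        exact absurd this (Finset.notMem_empty v)
      have h1 : (1 : ℝ) ≤ ∑ i : Fin s, ∑ z ∈ ngr Gr Gb (u i), x z := by
        rw [← h.sum]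
        calc ∑ v, x v ≤ ∑ v, ∑ i : Fin s, if v ∈ ngr Gr Gb (u i) then x v else 0 := by
              refine Finset.sum_le_sum (fun v _ => ?_)
              obtain ⟨i, hi⟩ := hcov v
              refine le_trans (by rw [if_pos hi]) (Finset.single_le_sum
                (f := fun i : Fin s => if v ∈ ngr Gr Gb (u i) then x v else 0)
                (fun j _ => by split_ifs; exacts [(h.pos v).le, le_rfl]) (mem_univ i))
          _ = _ := by
              rw [Finset.sum_comm]
              refine Finset.sum_congr rfl (fun i _ => ?_)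
              rw [Finset.sum_ite_mem, Finset.univ_inter]
      have h2 : ∑ i : Fin s, ∑ z ∈ ngr Gr Gb (u i), x z ≤ ∑ _i : Fin s, 1 / a := by
        refine Finset.sum_le_sum (fun i _ => ?_)
        rw [h.ngr_mass]
        have h3 := h.m_lt ha hab hl (u i)
        have h4 := h.pos (u i)
        linarith
      rw [Finset.sum_const, Finset.card_univ, Fintype.card_fin, nsmul_eq_mul, mul_one_div] at h2
      have h3 : (s : ℝ) / a < 1 := by
        rw [div_lt_one ha]
        push_cast at hs
        linarith
      linarith
    obtain ⟨w, hw, hwmax⟩ := Finset.exists_max_image _ (fun v => nmass Gb x v) hne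
    simp only [mem_filter, mem_univ, true_and] at hw hwmax
    refine ⟨Fin.snoc u w, ?_, ?_⟩
    · intro i j hij
      induction i using Fin.lastCases with
      | last =>
        induction j using Fin.lastCases with
        | last => exact absurd rfl hij
        | cast j =>
          rw [Fin.snoc_last, Fin.snoc_castSucc]
          exact (hw j).symm
      | cast i =>
        induction j using Fin.lastCases with
        | last =>
          rw [Fin.snoc_last, Fin.snoc_castSucc]
          exact hw i
        | cast j =>
          rw [Fin.snoc_castSucc, Fin.snoc_castSucc]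
          exact hu1 i j (fun h => hij (by rw [h]))
    · intro v hv i
      have hv' : ∀ i, Green Gr Gb (u i) v := by
        intro i
        have := hv i.castSucc
        rwa [Fin.snoc_castSucc] at this
      induction i using Fin.lastCases with
      | last =>
        rw [Fin.snoc_last]
        exact hwmax v hv'
      | cast i =>
        rw [Fin.snoc_castSucc]
        exact hu2 v hv' i

/-- THE CROWN LEMMA for `b ≥ 2a`. -/
theorem Core.crown (ha : 0 < a) (hab : 2 * a ≤ b) (h : Core a b Gr Gb x l) (hl : l < 1)
    (s : ℕ) (hs : (s : ℝ) ≤ a) :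
    ∃ u w : Fin s → V, (∀ i j, i ≠ j → Green Gr Gb (u i) (u j)) ∧
      (∀ i j, i ≠ j → Gb.Adj (w i) (w j)) ∧ (∀ i, Gr.Adj (u i) (w i)) ∧
      (∀ i j, i ≠ j → Green Gr Gb (u i) (w j)) ∧
      ∃ μ : ℝ, μ < 1 ∧ (1 - μ ≤ ∑ v ∈ univ.filter
        (fun v => (∀ i, Green Gr Gb (u i) v) ∧ ∀ i, Gb.Adj (w i) v), x v) ∧
        ∀ v, (∀ i, Green Gr Gb (u i) v) → μ ≤ s * (nmass Gr x v + nmass Gb x v) := by
  have hb : 0 < b := by linarith
  have hab' : a ≤ b := by linarith
  have hxp := h.pos
  have hxn : ∀ v, 0 ≤ x v := fun v => (hxp v).le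
  obtain ⟨u, hu1, hu2⟩ := h.exists_greedy ha hab' hl s hs
  -- red-only neighbours
  set NRo : Fin s → Finset V := fun i => univ.filter (fun z => z ≠ u i ∧ ¬ Gb.Adj (u i) z) with hNRo
  set C1 : Finset (Fin s) := univ.filter (fun i => ∃ z ∈ NRo i, ∀ j, j ≠ i → Green Gr Gb (u j) z)
    with hC1
  set μ : ℝ := ∑ i, (nmass Gr x (u i) + nmass Gb x (u i)) with hμ
  have hμ1 : s ≠ 0 → μ < 1 := by
    intro hs0
    have h1 : μ < ∑ _i : Fin s, 1 / a := by
      refine Finset.sum_lt_sum_of_nonempty ?_ (fun i _ => h.m_lt ha hab' hl (u i))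
      exact ⟨⟨0, Nat.pos_of_ne_zero hs0⟩, mem_univ _⟩
    rw [Finset.sum_const, Finset.card_univ, Fintype.card_fin, nsmul_eq_mul, mul_one_div] at h1
    exact lt_of_lt_of_le h1 ((div_le_one ha).2 hs)
  have hμ1' : μ < 1 := by
    by_cases hs0 : s = 0
    · subst hs0
      rw [hμ]
      simp
    · exact hμ1 hs0
  -- disjointness of the red-only neighbourhoods
  have hdisj : ∀ i j z, i ≠ j → z ∈ NRo i → z ∈ NRo j → False := by
    intro i j z hij hi hj
    simp only [hNRo, mem_filter, mem_univ, true_and] at hi hj
    exact h.lemmaP ha hab (Ne.symm hi.1) hj.1 (hu1 i j hij) hi.2 (fun h => hj.2 h.symm)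
  have hchoice : ∀ i, ∃ z, i ∈ C1 → z ∈ NRo i ∧ ∀ j, j ≠ i → Green Gr Gb (u j) z := by
    intro i
    by_cases hi : i ∈ C1
    · obtain ⟨z, hz⟩ := (mem_filter.1 hi).2
      exact ⟨z, fun _ => hz⟩
    · exact ⟨u i, fun h => absurd h hi⟩
  choose w0 hw0 using hchoice
  -- removed sets
  set Rem : (Fin s → V) → Finset (Fin s) → Finset V := fun w A => univ.filter
    (fun v => (∃ i, v ∈ ngr Gr Gb (u i)) ∨ ∃ i ∈ A, v ∈ nnb Gb (w i)) with hRem
  have hbase : ∑ v ∈ Rem w0 C1, x v ≤ μ - ∑ i ∈ univ \ C1, nmass Gb x (u i) := by
    -- every removed vertex is not green to some `u i`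
    have h1 : ∀ v ∈ Rem w0 C1, ∃ i, v ∈ ngr Gr Gb (u i) := by
      intro v hv
      simp only [hRem, mem_filter, mem_univ, true_and] at hv
      rcases hv with hv | ⟨i, hi, hv⟩
      · exact hv
      · refine ⟨i, ?_⟩
        obtain ⟨hz1, hz2⟩ := hw0 i hi
        simp only [hNRo, mem_filter, mem_univ, true_and] at hz1
        simp only [ngr, nnb, mem_filter, mem_univ, true_and] at hv ⊢
        intro hg
        by_cases hvw : w0 i = v
        · rw [← hvw] at hg
          exact hz1.2 hg.2
        · exact h.lemmaP ha hab (Ne.symm hz1.1) hvw hg hz1.2 hv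
    -- number of non-green `u i`
    have h2 : ∑ i, ∑ z ∈ ngr Gr Gb (u i), x z = ∑ v, x v * ((univ.filter
        (fun i => v ∈ ngr Gr Gb (u i))).card : ℝ) := by
      calc ∑ i, ∑ z ∈ ngr Gr Gb (u i), x z = ∑ i, ∑ v, if v ∈ ngr Gr Gb (u i) then x v else 0 := by
            refine Finset.sum_congr rfl (fun i _ => ?_)
            rw [Finset.sum_ite_mem, Finset.univ_inter]
        _ = ∑ v, ∑ i, if v ∈ ngr Gr Gb (u i) then x v else 0 := Finset.sum_comm
        _ = _ := by
            refine Finset.sum_congr rfl (fun v _ => ?_)
            rw [Finset.card_filter]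
            push_cast
            rw [Finset.mul_sum]
            exact Finset.sum_congr rfl (fun i _ => by split_ifs <;> simp)
    have h3 : ∑ v ∈ Rem w0 C1, x v + ∑ i ∈ univ \ C1, ∑ z ∈ NRo i, x z ≤
        ∑ i, ∑ z ∈ ngr Gr Gb (u i), x z := by
      rw [h2]
      have h4 : ∑ i ∈ univ \ C1, ∑ z ∈ NRo i, x z = ∑ v, ∑ i ∈ univ \ C1,
          if v ∈ NRo i then x v else 0 := by
        rw [Finset.sum_comm]
        refine Finset.sum_congr rfl (fun i _ => ?_)
        rw [Finset.sum_ite_mem, Finset.univ_inter]
      have h5 : ∑ v ∈ Rem w0 C1, x v = ∑ v, if v ∈ Rem w0 C1 then x v else 0 := by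
        rw [Finset.sum_ite_mem, Finset.univ_inter]
      rw [h4, h5, ← Finset.sum_add_distrib]
      refine Finset.sum_le_sum (fun v _ => ?_)
      by_cases hv : ∃ i ∈ univ \ C1, v ∈ NRo i
      · obtain ⟨i, hi, hvi⟩ := hv
        have h6 : (∑ i ∈ univ \ C1, if v ∈ NRo i then x v else 0) = x v := by
          rw [Finset.sum_eq_single_of_mem i hi, if_pos hvi]
          intro j _ hji
          rw [if_neg]
          exact fun hvj => hdisj j i v hji hvj hvi
        rw [h6]
        have h7 : i ∉ C1 := by simpa using hi
        have h8 : ∃ j, j ≠ i ∧ ¬ Green Gr Gb (u j) v := by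
          by_contra hcon
          push Not at hcon
          exact h7 (by
            rw [hC1, mem_filter]
            exact ⟨mem_univ _, v, hvi, hcon⟩)
        obtain ⟨j, hji, hj⟩ := h8
        have h9 : (2 : ℕ) ≤ (univ.filter (fun i => v ∈ ngr Gr Gb (u i))).card := by
          have hsub : ({j, i} : Finset (Fin s)) ⊆ univ.filter (fun i => v ∈ ngr Gr Gb (u i)) := by
            intro k hk
            simp only [mem_insert, mem_singleton] at hk
            simp only [mem_filter, mem_univ, true_and, ngr]
            rcases hk with rfl | rfl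
            · exact hj
            · simp only [hNRo, mem_filter, mem_univ, true_and] at hvi
              exact fun hg => hvi.2 hg.2
          have := Finset.card_le_card hsub
          rwa [Finset.card_pair hji] at this
        have h10 : (2 : ℝ) ≤ ((univ.filter (fun i => v ∈ ngr Gr Gb (u i))).card : ℝ) := by
          exact_mod_cast h9
        have h11 : (if v ∈ Rem w0 C1 then x v else 0) ≤ x v := by
          split_ifs
          exacts [le_rfl, hxn v]
        nlinarith [hxp v]
      · push Not at hv
        have h6 : (∑ i ∈ univ \ C1, if v ∈ NRo i then x v else 0) = 0 :=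
          Finset.sum_eq_zero (fun i hi => if_neg (hv i hi))
        rw [h6, add_zero]
        split_ifs with hvR
        · obtain ⟨i, hi⟩ := h1 v hvR
          have h9 : 1 ≤ (univ.filter (fun i => v ∈ ngr Gr Gb (u i))).card :=
            Finset.card_pos.2 ⟨i, by simp [hi]⟩
          have h10 : (1 : ℝ) ≤ ((univ.filter (fun i => v ∈ ngr Gr Gb (u i))).card : ℝ) := by
            exact_mod_cast h9
          nlinarith [hxp v]
        · exact mul_nonneg (hxn v) (Nat.cast_nonneg _)
    have h4 : ∀ i, ∑ z ∈ NRo i, x z = nmass Gb x (u i) - x (u i) := by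
      intro i
      rw [nmass_eq]
      have h5 : nnb Gb (u i) = insert (u i) (NRo i) := by
        ext z
        simp only [nnb, hNRo, mem_insert, mem_filter, mem_univ, true_and]
        by_cases hz : z = u i
        · subst hz
          simp
        · simp [hz]
      rw [h5, Finset.sum_insert (by simp [hNRo])]
      ring
    have h5 : ∑ i ∈ univ \ C1, ∑ z ∈ NRo i, x z =
        ∑ i ∈ univ \ C1, nmass Gb x (u i) - ∑ i ∈ univ \ C1, x (u i) := by
      rw [← Finset.sum_sub_distrib]
      exact Finset.sum_congr rfl (fun i _ => h4 i)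
    have h6 : ∑ i, ∑ z ∈ ngr Gr Gb (u i), x z = μ - ∑ i, x (u i) := by
      rw [hμ, ← Finset.sum_sub_distrib]
      exact Finset.sum_congr rfl (fun i _ => h.ngr_mass (u i))
    have h7 : ∑ i ∈ univ \ C1, x (u i) ≤ ∑ i, x (u i) :=
      Finset.sum_le_sum_of_subset_of_nonneg (Finset.subset_univ _) (fun i _ _ => hxn _)
    rw [h5, h6] at h3
    linarith
  -- choose the remaining `w i` one by one
  have hstep : ∀ T : Finset (Fin s), ∃ w : Fin s → V,
      (∀ i ∈ C1 ∪ T, ∀ j ∈ C1 ∪ T, i ≠ j → Gb.Adj (w i) (w j)) ∧
      (∀ i ∈ C1 ∪ T, Gr.Adj (u i) (w i)) ∧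
      (∀ i, ∀ j ∈ C1 ∪ T, i ≠ j → Green Gr Gb (u i) (w j)) ∧
      ∑ v ∈ Rem w (C1 ∪ T), x v ≤ μ - ∑ i ∈ univ \ (C1 ∪ T), nmass Gb x (u i) := by
    intro T
    induction T using Finset.induction_on with
    | empty =>
      refine ⟨w0, ?_, ?_, ?_, ?_⟩
      · intro i hi j hj hij
        rw [Finset.union_empty] at hi hj
        obtain ⟨hi1, hi2⟩ := hw0 i hi
        obtain ⟨hj1, hj2⟩ := hw0 j hj
        simp only [hNRo, mem_filter, mem_univ, true_and] at hi1 hj1
        by_contra hcon
        have hne : w0 i ≠ w0 j := by
          intro he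
          have := hj2 i hij
          rw [← he] at this
          exact hi1.2 this.2
        exact h.lemmaP ha hab (Ne.symm hi1.1) hne (hj2 i hij) hi1.2 hcon
      · intro i hi
        rw [Finset.union_empty] at hi
        obtain ⟨hi1, _⟩ := hw0 i hi
        simp only [hNRo, mem_filter, mem_univ, true_and] at hi1
        exact (h.complete (u i) (w0 i) (Ne.symm hi1.1)).resolve_right hi1.2
      · intro i j hj hij
        rw [Finset.union_empty] at hj
        exact (hw0 j hj).2 i hij
      · rw [Finset.union_empty]
        exact hbase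
    | insert k T hk ih =>
      obtain ⟨w, hw1, hw2, hw3, hw4⟩ := ih
      by_cases hkC : k ∈ C1
      · have he : C1 ∪ insert k T = C1 ∪ T := by
          rw [Finset.union_insert, Finset.insert_eq_of_mem (mem_union_left _ hkC)]
        rw [he]
        exact ⟨w, hw1, hw2, hw3, hw4⟩
      · have hkA : k ∉ C1 ∪ T := by simp [hkC, hk]
        set A := C1 ∪ T with hA
        have he : C1 ∪ insert k T = insert k A := by rw [Finset.union_insert]
        rw [he]
        -- there is a vertex outside the removed set
        have hlt : ∑ v ∈ Rem w A, x v < 1 := by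
          have : 0 ≤ ∑ i ∈ univ \ A, nmass Gb x (u i) :=
            Finset.sum_nonneg (fun i _ => nmass_nonneg Gb hxn _)
          linarith
        obtain ⟨z, hz⟩ : ∃ z, z ∉ Rem w A := by
          by_contra hcon
          push Not at hcon
          have : Rem w A = univ := Finset.eq_univ_of_forall hcon
          rw [this, h.sum] at hlt
          exact lt_irrefl _ hlt
        simp only [hRem, mem_filter, mem_univ, true_and, not_or, not_exists, not_and] at hz
        obtain ⟨hz1, hz2⟩ := hz
        have hzg : ∀ i, Green Gr Gb (u i) z := by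
          intro i
          have := hz1 i
          simp only [ngr, mem_filter, mem_univ, true_and, not_not] at this
          exact this
        have hzb : ∀ i ∈ A, Gb.Adj (w i) z := by
          intro i hi
          have := hz2 i hi
          simp only [nnb, mem_filter, mem_univ, true_and, not_not] at this
          exact this
        have hzr : nmass Gb x z ≤ nmass Gb x (u k) := hu2 z hzg k
        have hupd : ∀ i ∈ A, Function.update w k z i = w i := by
          intro i hi
          rw [Function.update_of_ne]
          rintro rfl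
          exact hkA hi
        refine ⟨Function.update w k z, ?_, ?_, ?_, ?_⟩
        · intro i hi j hj hij
          rcases Finset.mem_insert.1 hi with hik | hi'
          · rcases Finset.mem_insert.1 hj with hjk | hj'
            · exact absurd (hik.trans hjk.symm) hij
            · rw [hik, Function.update_self, hupd j hj']
              exact (hzb j hj').symm
          · rcases Finset.mem_insert.1 hj with hjk | hj'
            · rw [hjk, Function.update_self, hupd i hi']
              exact hzb i hi'
            · rw [hupd i hi', hupd j hj']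
              exact hw1 i hi' j hj' hij
        · intro i hi
          rcases Finset.mem_insert.1 hi with hik | hi'
          · rw [hik, Function.update_self]
            exact (hzg k).1
          · rw [hupd i hi']
            exact hw2 i hi'
        · intro i j hj hij
          rcases Finset.mem_insert.1 hj with hjk | hj'
          · rw [hjk, Function.update_self]
            exact hzg i
          · rw [hupd j hj']
            exact hw3 i j hj' hij
        · have h1 : Rem (Function.update w k z) (insert k A) ⊆ Rem w A ∪ nnb Gb z := by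
            intro v hv
            simp only [hRem, mem_filter, mem_univ, true_and] at hv
            rw [mem_union]
            rcases hv with hv | ⟨i, hi, hv⟩
            · left
              simp only [hRem, mem_filter, mem_univ, true_and]
              exact Or.inl hv
            · rcases Finset.mem_insert.1 hi with rfl | hi
              · right
                rw [Function.update_self] at hv
                exact hv
              · left
                simp only [hRem, mem_filter, mem_univ, true_and]
                rw [hupd i hi] at hv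
                exact Or.inr ⟨i, hi, hv⟩
          have h2 : ∑ v ∈ Rem (Function.update w k z) (insert k A), x v ≤
              ∑ v ∈ Rem w A, x v + ∑ v ∈ nnb Gb z, x v := by
            refine (Finset.sum_le_sum_of_subset_of_nonneg h1 (fun i _ _ => hxn _)).trans ?_
            rw [← Finset.sum_union_inter]
            exact le_add_of_nonneg_right (Finset.sum_nonneg (fun i _ => hxn _))
          rw [← nmass_eq] at h2
          have h3 : univ \ A = insert k (univ \ insert k A) := by
            ext i
            simp only [Finset.mem_sdiff, Finset.mem_univ, true_and, Finset.mem_insert]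
            by_cases hik : i = k
            · subst hik
              simp [hkA]
            · simp [hik]
          rw [h3, Finset.sum_insert (by simp)] at hw4
          linarith
  obtain ⟨w, hw1, hw2, hw3, hw4⟩ := hstep univ
  have hCu : C1 ∪ univ = univ := by ext i; simp
  rw [hCu] at hw1 hw2 hw3 hw4
  simp only [mem_univ, true_implies] at hw1 hw2 hw3
  refine ⟨u, w, hu1, hw1, hw2, hw3, μ, hμ1', ?_, ?_⟩
  · rw [Finset.sdiff_self, Finset.sum_empty, sub_zero] at hw4
    have h1 : univ.filter (fun v => (∀ i, Green Gr Gb (u i) v) ∧ ∀ i, Gb.Adj (w i) v) =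
        univ \ Rem w univ := by
      ext v
      simp only [hRem, ngr, nnb, Finset.mem_filter, Finset.mem_univ, true_and, Finset.mem_sdiff,
        not_or, not_exists, not_not]
    rw [h1]
    have h2 : ∑ v ∈ univ \ Rem w univ, x v + ∑ v ∈ Rem w univ, x v = 1 := by
      rw [Finset.sum_sdiff (Finset.subset_univ _), h.sum]
    linarith
  · intro v hv
    rw [hμ]
    calc ∑ i, (nmass Gr x (u i) + nmass Gb x (u i)) ≤
        ∑ _i : Fin s, (nmass Gr x v + nmass Gb x v) := by
          refine Finset.sum_le_sum (fun i _ => ?_)
          have h1 := h.dense v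
          have h2 := h.dense (u i)
          have h3 := hu2 v hv i
          -- `a (t + r) = l - (b - a) r`
          have h4 : a * (nmass Gr x (u i) + nmass Gb x (u i)) ≤
              a * (nmass Gr x v + nmass Gb x v) := by nlinarith
          exact le_of_mul_le_mul_left h4 ha
      _ = _ := by
          rw [Finset.sum_const, Finset.card_univ, Fintype.card_fin, nsmul_eq_mul]

theorem nmass_comap_le (G : SimpleGraph V) {x : V → ℝ} (hx : ∀ v, 0 ≤ x v) (P : V → Prop)
    [Fintype {v // P v}] (v : {v // P v}) :
    nmass (G.comap ((↑) : {v // P v} → V)) (fun v => x v) v ≤ nmass G x v := by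
  unfold nmass
  have h1 : (∑ u : {v // P v}, if (G.comap ((↑) : {v // P v} → V)).Adj v u then 0 else x u) =
      ∑ u ∈ univ.filter P, if G.Adj v u then 0 else x u := by
    rw [Finset.sum_subtype (univ.filter P) (p := P) (by simp)
      (fun u => if G.Adj v u then 0 else x u)]
    exact Finset.sum_congr rfl (fun u _ => by simp only [SimpleGraph.comap_adj])
  refine (le_of_eq h1).trans ?_
  exact Finset.sum_le_sum_of_subset_of_nonneg (Finset.filter_subset _ _)
    (fun u _ _ => by split_ifs; exacts [le_rfl, hx u])

end crown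

/-- Removal of a crown when `b ≥ 2a`: `s` vertices `U`, matched in red into a blue clique `I` of
`s` vertices which have all their red neighbours in `U`. -/
theorem forces_crown {R : Type} {s : ℕ} {a b : ℝ} (ha : 0 < a) (hab : 2 * a ≤ b)
    (hs : (s : ℝ) ≤ a) (H : SimpleGraph (Fin s ⊕ (Fin s ⊕ R)))
    (hm : ∀ i, H.Adj (Sum.inl i) (Sum.inr (Sum.inl i)))
    (hI : ∀ i j, ¬ H.Adj (Sum.inr (Sum.inl i)) (Sum.inr (Sum.inl j)))
    (hIR : ∀ i r, ¬ H.Adj (Sum.inr (Sum.inl i)) (Sum.inr (Sum.inr r)))
    (hF : Forces (a - s) (b - s) (H.comap (fun r => Sum.inr (Sum.inr r)))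
      (H.comap (fun r => Sum.inr (Sum.inr r)))ᶜ) :
    Forces a b H Hᶜ := by
  refine forces_of_core ha.le (by linarith) (by linarith) ?_
  intro V _ Gr Gb x l h hl
  obtain ⟨u, w, hu, hw, huw, hgw, μ, hμ1, hF1, hF2⟩ := h.crown ha hab hl s hs
  have hlpos := h.l_pos ha.le (by linarith) (by linarith)
  have hxn : ∀ v, 0 ≤ x v := fun v => (h.pos v).le
  set P : V → Prop := fun v => (∀ i, Green Gr Gb (u i) v) ∧ ∀ i, Gb.Adj (w i) v with hP
  have hsum : ∑ v : {v // P v}, x v = ∑ v ∈ univ.filter P, x v :=
    (Finset.sum_subtype (univ.filter P) (p := P) (by simp) (fun v => x v)).symm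
  have hcont : Contains (H.comap (fun r => Sum.inr (Sum.inr r)))
      (H.comap (fun r => Sum.inr (Sum.inr r)))ᶜ
      (Gr.comap ((↑) : {v // P v} → V)) (Gb.comap ((↑) : {v // P v} → V)) := by
    refine contains_of_weighted (by linarith) (by linarith) hF _ _ (fun v => x v)
      (fun v => hxn v) (by rw [hsum]; linarith) hl (fun v _ => ?_)
    have h1 := nmass_comap_le Gr hxn P v
    have h2 := nmass_comap_le Gb hxn P v
    have h3 := h.dense v
    have h4 := hF2 v v.2.1
    have h5 : (a - s) * nmass (Gr.comap ((↑) : {v // P v} → V)) (fun v => x v) v ≤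
        (a - s) * nmass Gr x v := mul_le_mul_of_nonneg_left h1 (by linarith)
    have h6 : (b - s) * nmass (Gb.comap ((↑) : {v // P v} → V)) (fun v => x v) v ≤
        (b - s) * nmass Gb x v := mul_le_mul_of_nonneg_left h2 (by linarith)
    rw [hsum]
    have h7 : l * (1 - μ) ≤ l * ∑ v ∈ univ.filter P, x v :=
      mul_le_mul_of_nonneg_left hF1 hlpos.le
    have h8 : 0 ≤ μ ∨ μ < 0 := le_or_gt 0 μ
    have h9 : l * μ ≤ μ := by
      have h10 : 0 ≤ μ := by
        -- `μ` is at least zero: otherwise `F` would have mass larger than one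
        by_contra hneg
        push Not at hneg
        have h11 : ∑ v ∈ univ.filter P, x v ≤ 1 := by
          rw [← h.sum]
          exact Finset.sum_le_sum_of_subset_of_nonneg (Finset.filter_subset _ _)
            (fun v _ _ => hxn v)
        linarith
      nlinarith
    linarith
  obtain ⟨f, hf, hadj⟩ := hcont
  -- the embedding
  let F : Fin s ⊕ (Fin s ⊕ R) → V := Sum.elim u (Sum.elim w (fun r => (f r : V)))
  have hred : ∀ p q, H.Adj p q → Gr.Adj (F p) (F q) := by
    rintro (i | i | r) (j | j | r') hpq
    · exact (hu i j (fun h => hpq.ne (by rw [h]))).1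
    · by_cases hij : i = j
      · subst hij
        exact huw i
      · exact (hgw i j hij).1
    · exact ((f r').2.1 i).1
    · by_cases hij : i = j
      · subst hij
        exact (huw i).symm
      · exact (hgw j i (Ne.symm hij)).1.symm
    · exact absurd hpq (hI i j)
    · exact absurd hpq (hIR i r')
    · exact ((f r).2.1 j).1.symm
    · exact absurd hpq.symm (hIR j r)
    · exact (hadj r r').1 hpq
  have hblue : ∀ p q, p ≠ q → ¬ H.Adj p q → Gb.Adj (F p) (F q) := by
    rintro (i | i | r) (j | j | r') hne hpq
    · exact (hu i j (fun h => hne (by rw [h]))).2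
    · by_cases hij : i = j
      · subst hij
        exact absurd (hm i) hpq
      · exact (hgw i j hij).2
    · exact ((f r').2.1 i).2
    · by_cases hij : i = j
      · subst hij
        exact absurd (hm i).symm hpq
      · exact (hgw j i (Ne.symm hij)).2.symm
    · exact hw i j (fun h => hne (by rw [h]))
    · exact (f r').2.2 i
    · exact ((f r).2.1 j).2.symm
    · exact ((f r).2.2 j).symm
    · refine (hadj r r').2 ?_
      rw [SimpleGraph.compl_adj]
      exact ⟨fun h => hne (by rw [h]), hpq⟩
  refine ⟨F, fun p q hpq => ?_, fun p q => ⟨hred p q, fun h => ?_⟩⟩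
  · by_contra hne
    by_cases h1 : H.Adj p q
    · exact (hred p q h1).ne hpq
    · exact (hblue p q hne h1).ne hpq
  · rw [SimpleGraph.compl_adj] at h
    exact hblue p q h.1 h.2

end Pool.Agent.Lib.MP_a05470_co
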