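import Pool.Agent.Lib.MP_a05470_co.Basic

set_option autoImplicit false

namespace Pool.Agent.Lib.MP_a05470_co

open Finset Classical Filter Topology

theorem contains_swap {V W : Type} {Hr Hb : SimpleGraph V} {Gr Gb : SimpleGraph W}
    (h : Contains Hr Hb Gr Gb) : Contains Hb Hr Gb Gr := by
  obtain ⟨f, hf, hh⟩ := h
  exact ⟨f, hf, fun x y => ⟨(hh x y).2, (hh x y).1⟩⟩

theorem forces_swap {V : Type} {Hr Hb : SimpleGraph V} {a b : ℝ} (h : Forces a b Hr Hb) :
    Forces b a Hb Hr := by
  intro ε hε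
  obtain ⟨N, hN⟩ := h ε hε
  refine ⟨N, fun n hn Gr Gb hG => contains_swap (hN n hn Gb Gr fun v => ?_)⟩
  have := hG v
  linarith

/-- the number of non-neighbours does not increase when passing to an induced subgraph -/
theorem nonadj_comap_le {W W' : Type} [Fintype W] [Fintype W'] (G : SimpleGraph W) (f : W' ↪ W)
    (v : W') : nonadj (G.comap f) v ≤ nonadj G (f v) := by
  unfold nonadj
  apply Finset.card_le_card_of_injOn f
  · intro u hu
    simpa using hu
  · exact f.injective.injOn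

/-- restricting a multigraph to a set of vertices: an induced sub-multigraph on `Fin m` -/
theorem contains_of_subset {V : Type} {Hr Hb : SimpleGraph V} {a b : ℝ} (ha : 0 ≤ a) (hb : 0 ≤ b)
    {n : ℕ} {Gr Gb : SimpleGraph (Fin n)} (S : Finset (Fin n)) {ε : ℝ} {N : ℕ}
    (hN : ∀ n : ℕ, N ≤ n → ∀ Gr Gb : SimpleGraph (Fin n),
      (∀ v, a * nonadj Gr v + b * nonadj Gb v ≤ (1 - ε) * n) → Contains Hr Hb Gr Gb)
    (hS : N ≤ S.card)
    (hdeg : ∀ v ∈ S, a * nonadj Gr v + b * nonadj Gb v ≤ (1 - ε) * S.card) :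
    ∃ f : V → Fin n, Function.Injective f ∧ (∀ x, f x ∈ S) ∧
      ∀ x y, (Hr.Adj x y → Gr.Adj (f x) (f y)) ∧ (Hb.Adj x y → Gb.Adj (f x) (f y)) := by
  let g : Fin S.card ↪ Fin n := (S.orderEmbOfFin rfl).toEmbedding
  have hg : ∀ i, g i ∈ S := fun i => S.orderEmbOfFin_mem rfl i
  obtain ⟨f, hf, hh⟩ := hN S.card hS (Gr.comap g) (Gb.comap g) (by
    intro v
    have h1 : ((nonadj (Gr.comap g) v : ℕ) : ℝ) ≤ nonadj Gr (g v) := by
      exact_mod_cast nonadj_comap_le Gr g v
    have h2 : ((nonadj (Gb.comap g) v : ℕ) : ℝ) ≤ nonadj Gb (g v) := by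
      exact_mod_cast nonadj_comap_le Gb g v
    have h3 := hdeg (g v) (hg v)
    have h4 := mul_le_mul_of_nonneg_left h1 ha
    have h5 := mul_le_mul_of_nonneg_left h2 hb
    linarith)
  exact ⟨fun x => g (f x), fun x y hxy => hf (g.injective hxy), fun x => hg _, hh⟩

theorem card_adj {n : ℕ} (G : SimpleGraph (Fin n)) (v : Fin n) :
    (Finset.univ.filter (fun u => G.Adj v u)).card = n - nonadj G v := by
  have h1 : (Finset.univ.filter (fun u => G.Adj v u)).card +
      (Finset.univ.filter (fun u => ¬ G.Adj v u)).card = n := by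
    rw [Finset.card_filter_add_card_filter_not]
    simp
  unfold nonadj
  omega

/-- extending a copy by one vertex -/
theorem contains_insert {V V' : Type} {Hr Hb : SimpleGraph V} {W : Type}
    {Gr Gb : SimpleGraph W} (e : V' → V) (v : V) (he : ∀ x, x = v ∨ ∃ i, x = e i)
    (hev : ∀ i, e i ≠ v) (hei : Function.Injective e) (w : W) (f : V' → W)
    (hf : Function.Injective f) (hne : ∀ x, w ≠ f x)
    (hh : ∀ x y, ((Hr.comap e).Adj x y → Gr.Adj (f x) (f y)) ∧
      ((Hb.comap e).Adj x y → Gb.Adj (f x) (f y)))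
    (hw : ∀ x, (Hr.Adj v (e x) → Gr.Adj w (f x)) ∧
      (Hb.Adj v (e x) → Gb.Adj w (f x))) : Contains Hr Hb Gr Gb := by
  obtain ⟨F, hF1, hF2⟩ : ∃ F : V → W, F v = w ∧ ∀ i, F (e i) = f i := by
    refine ⟨fun x => if h : ∃ i, e i = x then f h.choose else w, ?_, ?_⟩
    · have h : ¬ ∃ i, e i = v := by
        rintro ⟨i, hi⟩
        exact hev i hi
      show (if h : ∃ i, e i = v then f h.choose else w) = w
      rw [dif_neg h]
    · intro i
      have h : ∃ j, e j = e i := ⟨i, rfl⟩
      show (if h : ∃ j, e j = e i then f h.choose else w) = f i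
      rw [dif_pos h]
      exact congrArg f (hei h.choose_spec)
  refine ⟨F, ?_, ?_⟩
  · intro x y hxy
    rcases he x with rfl | ⟨i, rfl⟩
    · rcases he y with rfl | ⟨j, rfl⟩
      · rfl
      · rw [hF1, hF2] at hxy
        exact absurd hxy (hne j)
    · rcases he y with rfl | ⟨j, rfl⟩
      · rw [hF1, hF2] at hxy
        exact absurd hxy.symm (hne i)
      · rw [hF2, hF2] at hxy
        rw [hf hxy]
  · intro x y
    rcases he x with rfl | ⟨i, rfl⟩
    · rcases he y with rfl | ⟨j, rfl⟩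
      · exact ⟨fun h => absurd h (Hr.irrefl), fun h => absurd h (Hb.irrefl)⟩
      · rw [hF1, hF2]
        exact hw j
    · rcases he y with rfl | ⟨j, rfl⟩
      · rw [hF1, hF2]
        exact ⟨fun h => ((hw i).1 h.symm).symm, fun h => ((hw i).2 h.symm).symm⟩
      · rw [hF2, hF2]
        exact hh i j

/-- adding a vertex that is joined to all the others in blue (only) -/
theorem forces_dominate {V V' : Type} {Hr Hb : SimpleGraph V} {a b : ℝ} (ha : 0 ≤ a)
    (hb : 0 ≤ b) (e : V' → V) (v : V) (he : ∀ x, x = v ∨ ∃ i, x = e i)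
    (hev : ∀ i, e i ≠ v) (hei : Function.Injective e) (hv : ∀ i, ¬ Hr.Adj v (e i))
    (hF : Forces a b (Hr.comap e) (Hb.comap e)) : Forces a (b + 1) Hr Hb := by
  intro ε hε
  obtain ⟨N, hN⟩ := hF ε hε
  refine ⟨⌈(N + 1 : ℝ) / ε⌉₊ + 1, ?_⟩
  intro n hn Gr Gb hG
  have hn1 : 0 < n := by omega
  have : Nonempty (Fin n) := ⟨⟨0, hn1⟩⟩
  have hn0 : (0 : ℝ) < n := by exact_mod_cast hn1
  obtain ⟨w, _, hw⟩ := Finset.exists_min_image (Finset.univ : Finset (Fin n)) (fun u => nonadj Gb u)
    Finset.univ_nonempty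
  set S := Finset.univ.filter (fun u => Gb.Adj w u) with hS
  have hScard : S.card = n - nonadj Gb w := card_adj Gb w
  have hle : nonadj Gb w ≤ n := by
    have : nonadj Gb w ≤ (Finset.univ : Finset (Fin n)).card := Finset.card_filter_le _ _
    simpa using this
  have hScardR : (S.card : ℝ) = n - nonadj Gb w := by
    rw [hScard, Nat.cast_sub hle]
  have hRw : (nonadj Gb w : ℝ) ≤ (1 - ε) * n := by
    have h1 := hG w
    have h2 : (0 : ℝ) ≤ nonadj Gr w := by positivity
    have h3 : (0 : ℝ) ≤ nonadj Gb w := by positivity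
    nlinarith [mul_nonneg ha h2, mul_nonneg hb h3]
  have hSbig : N ≤ S.card := by
    have h1 : ε * n ≤ S.card := by
      rw [hScardR]
      linarith
    have h2 : (N + 1 : ℝ) / ε ≤ n := by
      have h3 : ((⌈(N + 1 : ℝ) / ε⌉₊ + 1 : ℕ) : ℝ) ≤ n := by exact_mod_cast hn
      have h4 := Nat.le_ceil ((N + 1 : ℝ) / ε)
      push_cast at h3
      linarith
    have h3 : (N + 1 : ℝ) ≤ ε * n := by
      rw [div_le_iff₀ hε] at h2
      linarith
    have h4 : (N : ℝ) ≤ S.card := by linarith
    exact_mod_cast h4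
  obtain ⟨f, hf, hfS, hh⟩ := contains_of_subset (Gr := Gr) (Gb := Gb) ha hb S hN hSbig (by
    intro u _
    have h1 := hG u
    have h2 : (nonadj Gb w : ℝ) ≤ nonadj Gb u := by exact_mod_cast hw u (Finset.mem_univ u)
    have h3 : (0 : ℝ) ≤ nonadj Gb w := by positivity
    rw [hScardR]
    nlinarith)
  have hne : ∀ x, w ≠ f x := by
    intro x hx
    have h1 := hfS x
    rw [← hx, hS, Finset.mem_filter] at h1
    exact Gb.irrefl h1.2
  have hadj : ∀ x, Gb.Adj w (f x) := by
    intro x
    have h1 := hfS x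
    rw [hS, Finset.mem_filter] at h1
    exact h1.2
  exact contains_insert e v he hev hei w f hf hne hh
    (fun x => ⟨fun hx => absurd hx (hv _), fun _ => hadj x⟩)

/-- Adding vertices one after another, each joined to all earlier ones in one colour: the vertex
set is `V ⊕ Fin l`, the vertex `inr i` is joined in red (`c i = true`) or in blue (`c i = false`) to
all of `V` and to the earlier `inr i'`. -/
theorem forces_extend {V : Type} (l : ℕ) : ∀ (H : SimpleGraph (V ⊕ Fin l)) (c : Fin l → Bool)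
    (_ : ∀ i x, H.Adj (Sum.inr i) (Sum.inl x) ↔ c i = true)
    (_ : ∀ i j, j < i → (H.Adj (Sum.inr i) (Sum.inr j) ↔ c i = true)) (a b : ℝ)
    (_ : 0 ≤ a) (_ : 0 ≤ b) (_ : Forces a b (H.comap Sum.inl) (H.comap Sum.inl)ᶜ),
    ∃ a' b' : ℝ, 0 ≤ a' ∧ 0 ≤ b' ∧ a' + b' = a + b + l ∧ Forces a' b' H Hᶜ := by
  induction l with
  | zero =>
    intro H c _ _ a b ha hb hF
    refine ⟨a, b, ha, hb, by simp, ?_⟩
    intro ε hε
    obtain ⟨N, hN⟩ := hF ε hε
    refine ⟨N, fun n hn Gr Gb hG => ?_⟩
    obtain ⟨f, hf, hh⟩ := hN n hn Gr Gb hG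
    refine ⟨Sum.elim f (fun i => i.elim0), ?_, ?_⟩
    · rintro (x | i) (y | j) hxy
      · exact congrArg Sum.inl (hf hxy)
      · exact j.elim0
      · exact i.elim0
      · exact i.elim0
    · rintro (x | i) (y | j)
      · refine ⟨fun h => (hh x y).1 h, fun h => (hh x y).2 ?_⟩
        rw [SimpleGraph.compl_adj] at h ⊢
        exact ⟨fun hxy => h.1 (congrArg Sum.inl hxy), h.2⟩
      · exact j.elim0
      · exact i.elim0
      · exact i.elim0
  | succ l ih =>
    intro H c h1 h2 a b ha hb hF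
    let e : V ⊕ Fin l → V ⊕ Fin (l + 1) := Sum.map id Fin.castSucc
    have hei : Function.Injective e := Function.Injective.sumMap Function.injective_id
      (Fin.castSucc_injective l)
    have he : ∀ x : V ⊕ Fin (l + 1), x = Sum.inr (Fin.last l) ∨ ∃ i, x = e i := by
      rintro (x | i)
      · exact Or.inr ⟨Sum.inl x, rfl⟩
      · rcases Fin.eq_castSucc_or_eq_last i with ⟨j, rfl⟩ | rfl
        · exact Or.inr ⟨Sum.inr j, rfl⟩
        · exact Or.inl rfl
    have hev : ∀ i, e i ≠ Sum.inr (Fin.last l) := by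
      rintro (x | i) h
      · exact absurd h (by simp [e])
      · have h3 : Fin.castSucc i = Fin.last l := Sum.inr_injective h
        exact absurd h3 (Fin.castSucc_ne_last i)
    have hcomap : (H.comap e).comap Sum.inl = H.comap Sum.inl := rfl
    obtain ⟨a', b', ha', hb', hab, hF'⟩ := ih (H.comap e) (fun i => c i.castSucc)
      (fun i x => h1 i.castSucc x)
      (fun i j hij => h2 i.castSucc j.castSucc (by simpa using hij)) a b ha hb
      (by rw [hcomap]; exact hF)
    have hcompl : (H.comap e)ᶜ = Hᶜ.comap e := by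
      ext x y
      simp only [SimpleGraph.compl_adj, SimpleGraph.comap_adj]
      exact ⟨fun h => ⟨fun h3 => h.1 (hei h3), h.2⟩, fun h => ⟨fun h3 => h.1 (congrArg e h3), h.2⟩⟩
    rw [hcompl] at hF'
    have hadj : ∀ i, H.Adj (Sum.inr (Fin.last l)) (e i) ↔ c (Fin.last l) = true := by
      rintro (x | i)
      · exact h1 _ x
      · exact h2 _ _ (Fin.castSucc_lt_last i)
    cases hc : c (Fin.last l) with
    | false =>
      refine ⟨a', b' + 1, ha', by linarith, by push_cast; linarith, ?_⟩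
      refine forces_dominate ha' hb' e (Sum.inr (Fin.last l)) he hev hei ?_ hF'
      intro i hi
      rw [hadj, hc] at hi
      exact Bool.false_ne_true hi
    | true =>
      refine ⟨a' + 1, b', by linarith, hb', by push_cast; linarith, ?_⟩
      apply forces_swap
      refine forces_dominate hb' ha' e (Sum.inr (Fin.last l)) he hev hei ?_ (forces_swap hF')
      intro i hi
      rw [SimpleGraph.compl_adj] at hi
      exact hi.2 ((hadj i).2 hc)

end Pool.Agent.Lib.MP_a05470_co
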