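import Pool.Agent.Lib.MP_a05470_co.Crown
import Pool.Agent.Lib.MP_a05470_co.Dominate

set_option autoImplicit false

namespace Pool.Agent.Lib.MP_a05470_co

open Finset Classical Filter Topology

section dec

variable {V : Type} [Fintype V] {H : SimpleGraph V}

/-- the neighbours of `I` inside `R` -/
noncomputable def nbrIn (H : SimpleGraph V) (R I : Finset V) : Finset V :=
  R.filter (fun v => ∃ i ∈ I, H.Adj i v)

/-- no nonempty independent subset `I` of `R` has at most `|I|` neighbours in `R` -/
def CrownFree (H : SimpleGraph V) (R : Finset V) : Prop :=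
  ∀ I ⊆ R, I.Nonempty → (∀ x ∈ I, ∀ y ∈ I, ¬ H.Adj x y) → I.card < (nbrIn H R I).card

/-- `W` is independent, its neighbours in `R` are in `U`, and `U` is matched into `W` -/
structure IsCrown (H : SimpleGraph V) (R U W : Finset V) : Prop where
  subU : U ⊆ R
  subW : W ⊆ R
  disj : Disjoint U W
  indep : ∀ x ∈ W, ∀ y ∈ W, ¬ H.Adj x y
  nbr : ∀ w ∈ W, ∀ v ∈ R, H.Adj w v → v ∈ U
  matching : ∃ f : V → V, Set.InjOn f U ∧ ∀ u ∈ U, f u ∈ W ∧ H.Adj u (f u)

theorem exists_crown_of_not_free {R : Finset V} (h : ¬ CrownFree H R) :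
    ∃ U W : Finset V, IsCrown H R U W ∧ W.Nonempty := by
  unfold CrownFree at h
  push Not at h
  obtain ⟨I0, hI0R, hI0ne, hI0ind, hI0card⟩ := h
  obtain ⟨I, hI, hImin⟩ := Finset.exists_min_image
    (R.powerset.filter (fun I => I.Nonempty ∧ (∀ x ∈ I, ∀ y ∈ I, ¬ H.Adj x y) ∧
      (nbrIn H R I).card ≤ I.card)) Finset.card
    ⟨I0, by
      simp only [Finset.mem_filter, Finset.mem_powerset]
      exact ⟨hI0R, hI0ne, hI0ind, hI0card⟩⟩
  simp only [Finset.mem_filter, Finset.mem_powerset] at hI hImin
  obtain ⟨hIR, hIne, hIind, hIcard⟩ := hI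
  set N := nbrIn H R I with hN
  -- Hall's condition for `N` into `I`
  have hall : ∀ s : Finset {x // x ∈ N}, s.card ≤
      (s.biUnion (fun x => I.filter (fun i => H.Adj i x))).card := by
    intro s
    by_contra hlt
    push Not at hlt
    set B := s.biUnion (fun x => I.filter (fun i => H.Adj i x)) with hB
    set X : Finset V := s.image Subtype.val with hX
    have hXcard : X.card = s.card := Finset.card_image_of_injective _ Subtype.val_injective
    have hBI : B ⊆ I := by
      intro i hi
      obtain ⟨x, _, hx⟩ := Finset.mem_biUnion.1 hi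
      exact (Finset.mem_filter.1 hx).1
    have hXN : X ⊆ N := by
      intro v hv
      obtain ⟨x, _, rfl⟩ := Finset.mem_image.1 hv
      exact x.2
    have hsne : s.Nonempty := by
      rw [Finset.nonempty_iff_ne_empty]
      rintro rfl
      simp at hlt
    have hBne : B.Nonempty := by
      obtain ⟨x, hx⟩ := hsne
      have hxN := x.2
      simp only [hN, nbrIn, Finset.mem_filter] at hxN
      obtain ⟨_, i, hi, hadj⟩ := hxN
      exact ⟨i, Finset.mem_biUnion.2 ⟨x, hx, Finset.mem_filter.2 ⟨hi, hadj⟩⟩⟩
    set I' := I \ B with hI'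
    have hI'card : I'.card = I.card - B.card := Finset.card_sdiff_of_subset hBI
    have hBle : B.card ≤ I.card := Finset.card_le_card hBI
    have hN' : nbrIn H R I' ⊆ N \ X := by
      intro v hv
      simp only [nbrIn, Finset.mem_filter] at hv
      obtain ⟨hvR, i, hi, hadj⟩ := hv
      rw [hI', Finset.mem_sdiff] at hi
      rw [Finset.mem_sdiff]
      refine ⟨by
        simp only [hN, nbrIn, Finset.mem_filter]
        exact ⟨hvR, i, hi.1, hadj⟩, fun hvX => hi.2 ?_⟩
      obtain ⟨x, hx, rfl⟩ := Finset.mem_image.1 hvX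
      exact Finset.mem_biUnion.2 ⟨x, hx, Finset.mem_filter.2 ⟨hi.1, hadj⟩⟩
    have h1 : (nbrIn H R I').card ≤ N.card - X.card := by
      refine (Finset.card_le_card hN').trans (le_of_eq ?_)
      exact Finset.card_sdiff_of_subset hXN
    have h2 : X.card ≤ N.card := Finset.card_le_card hXN
    have h3 : 0 < B.card := hBne.card_pos
    have h4 : (nbrIn H R I').card < I'.card := by omega
    have h5 := hImin I' ⟨(Finset.sdiff_subset).trans hIR, Finset.card_pos.1 (by omega),
      fun x hx y hy => hIind x (Finset.mem_sdiff.1 hx).1 y (Finset.mem_sdiff.1 hy).1, h4.le⟩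
    omega
  obtain ⟨f, hf, hfm⟩ := (Finset.all_card_le_biUnion_card_iff_exists_injective _).1 hall
  refine ⟨N, I, ⟨Finset.filter_subset _ _, hIR, ?_, hIind, ?_, ?_⟩, hIne⟩
  · rw [Finset.disjoint_left]
    intro v hv hvI
    simp only [hN, nbrIn, Finset.mem_filter] at hv
    obtain ⟨_, i, hi, hadj⟩ := hv
    exact hIind i hi v hvI hadj
  · intro w hw v hv hadj
    simp only [hN, nbrIn, Finset.mem_filter]
    exact ⟨hv, w, hw, hadj⟩
  · refine ⟨fun v => if h : v ∈ N then f ⟨v, h⟩ else v, ?_, ?_⟩
    · intro u hu v hv huv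
      have hu' : u ∈ N := hu
      have hv' : v ∈ N := hv
      simp only [hu', hv', dif_pos] at huv
      exact congrArg Subtype.val (hf huv)
    · intro u hu
      simp only [hu, dif_pos]
      have := hfm ⟨u, hu⟩
      rw [Finset.mem_filter] at this
      exact ⟨this.1, this.2.symm⟩

/-- The maximal crown: what remains is crown-free. -/
theorem exists_crown (H : SimpleGraph V) (R : Finset V) :
    ∃ U W : Finset V, IsCrown H R U W ∧ CrownFree H (R \ (U ∪ W)) := by
  induction hn : R.card using Nat.strong_induction_on generalizing R with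
  | _ n ih =>
    by_cases hfree : CrownFree H R
    · refine ⟨∅, ∅, ⟨by simp, by simp, by simp, by simp, by simp, fun v => v, by simp, by simp⟩,
        by simpa using hfree⟩
    · obtain ⟨U1, W1, h1, hne⟩ := exists_crown_of_not_free hfree
      have hUW : U1 ∪ W1 ⊆ R := Finset.union_subset h1.subU h1.subW
      have hlt : (R \ (U1 ∪ W1)).card < n := by
        rw [← hn]
        apply Finset.card_lt_card
        refine ⟨Finset.sdiff_subset, fun h => ?_⟩
        obtain ⟨w, hw⟩ := hne
        have := h (h1.subW hw)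
        rw [Finset.mem_sdiff] at this
        exact this.2 (Finset.mem_union_right _ hw)
      obtain ⟨U2, W2, h2, hf2⟩ := ih _ hlt _ rfl
      obtain ⟨f1, hf1, hf1'⟩ := h1.matching
      obtain ⟨f2, hf2', hf2''⟩ := h2.matching
      have hU2 : ∀ v ∈ U2, v ∉ U1 ∧ v ∉ W1 ∧ v ∈ R := by
        intro v hv
        have := h2.subU hv
        rw [Finset.mem_sdiff, Finset.mem_union, not_or] at this
        exact ⟨this.2.1, this.2.2, this.1⟩
      have hW2 : ∀ v ∈ W2, v ∉ U1 ∧ v ∉ W1 ∧ v ∈ R := by
        intro v hv
        have := h2.subW hv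
        rw [Finset.mem_sdiff, Finset.mem_union, not_or] at this
        exact ⟨this.2.1, this.2.2, this.1⟩
      refine ⟨U1 ∪ U2, W1 ∪ W2, ⟨?_, ?_, ?_, ?_, ?_, ?_⟩, ?_⟩
      · exact Finset.union_subset h1.subU (fun v hv => (hU2 v hv).2.2)
      · exact Finset.union_subset h1.subW (fun v hv => (hW2 v hv).2.2)
      · rw [Finset.disjoint_union_left, Finset.disjoint_union_right, Finset.disjoint_union_right]
        refine ⟨⟨h1.disj, ?_⟩, ?_, h2.disj⟩
        · rw [Finset.disjoint_right]
          exact fun v hv => (hW2 v hv).1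
        · rw [Finset.disjoint_left]
          exact fun v hv => (hU2 v hv).2.1
      · intro x hx y hy hadj
        rw [Finset.mem_union] at hx hy
        rcases hx with hx | hx <;> rcases hy with hy | hy
        · exact h1.indep x hx y hy hadj
        · exact (hW2 y hy).1 (h1.nbr x hx y (hW2 y hy).2.2 hadj)
        · exact (hW2 x hx).1 (h1.nbr y hy x (hW2 x hx).2.2 hadj.symm)
        · exact h2.indep x hx y hy hadj
      · intro w hw v hv hadj
        rw [Finset.mem_union] at hw ⊢
        rcases hw with hw | hw
        · exact Or.inl (h1.nbr w hw v hv hadj)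
        · by_cases hv1 : v ∈ U1
          · exact Or.inl hv1
          · by_cases hv2 : v ∈ W1
            · exact absurd (h1.nbr v hv2 w (hW2 w hw).2.2 hadj.symm) (hW2 w hw).1
            · right
              refine h2.nbr w hw v ?_ hadj
              rw [Finset.mem_sdiff, Finset.mem_union, not_or]
              exact ⟨hv, hv1, hv2⟩
      · refine ⟨fun v => if v ∈ U1 then f1 v else f2 v, ?_, ?_⟩
        · intro u hu v hv huv
          simp only at huv
          rw [Finset.mem_coe, Finset.mem_union] at hu hv
          by_cases hu1 : u ∈ U1 <;> by_cases hv1 : v ∈ U1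
          · rw [if_pos hu1, if_pos hv1] at huv
            exact hf1 hu1 hv1 huv
          · rw [if_pos hu1, if_neg hv1] at huv
            have hv2 := hv.resolve_left hv1
            have h3 := (hW2 _ (hf2'' v hv2).1).2.1
            rw [← huv] at h3
            exact absurd (hf1' u hu1).1 h3
          · rw [if_neg hu1, if_pos hv1] at huv
            have hu2 := hu.resolve_left hu1
            have h3 := (hW2 _ (hf2'' u hu2).1).2.1
            rw [huv] at h3
            exact absurd (hf1' v hv1).1 h3
          · rw [if_neg hu1, if_neg hv1] at huv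
            exact hf2' (hu.resolve_left hu1) (hv.resolve_left hv1) huv
        · intro u hu
          rw [Finset.mem_union] at hu
          by_cases hu1 : u ∈ U1
          · simp only [if_pos hu1]
            exact ⟨Finset.mem_union_left _ (hf1' u hu1).1, (hf1' u hu1).2⟩
          · simp only [if_neg hu1]
            have hu2 := hu.resolve_left hu1
            exact ⟨Finset.mem_union_right _ (hf2'' u hu2).1, (hf2'' u hu2).2⟩
      · have he : R \ (U1 ∪ U2 ∪ (W1 ∪ W2)) = (R \ (U1 ∪ W1)) \ (U2 ∪ W2) := by
          ext v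
          simp only [Finset.mem_sdiff, Finset.mem_union]
          tauto
        rw [he]
        exact hf2

/-- a crown saves `|W|` cliques in every clique cover -/
theorem IsCrown.colorable {U W : Finset V} (h : IsCrown H univ U W) {k : ℕ}
    (hk : Hᶜ.Colorable k) :
    (H.comap ((↑) : {v // v ∉ U ∪ W} → V))ᶜ.Colorable (k - W.card) := by
  obtain ⟨C⟩ := hk
  have hinj : Set.InjOn C W := by
    intro x hx y hy hxy
    by_contra hne
    exact C.valid (show Hᶜ.Adj x y by
      rw [SimpleGraph.compl_adj]
      exact ⟨hne, h.indep x hx y hy⟩) hxy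
  have hnot : ∀ v : {v // v ∉ U ∪ W}, C v ∉ W.image C := by
    intro v hv
    obtain ⟨w, hw, hwv⟩ := Finset.mem_image.1 hv
    have hv2 := v.2
    rw [Finset.mem_union, not_or] at hv2
    refine C.valid (show Hᶜ.Adj w v by
      rw [SimpleGraph.compl_adj]
      refine ⟨?_, fun hadj => hv2.1 (h.nbr w hw v (mem_univ _) hadj)⟩
      rintro rfl
      exact hv2.2 hw) hwv
  have hcol : (H.comap ((↑) : {v // v ∉ U ∪ W} → V))ᶜ.Coloring {c : Fin k // c ∉ W.image C} :=
    SimpleGraph.Coloring.mk (fun v => ⟨C v, hnot v⟩) (by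
      intro v w hvw heq
      rw [SimpleGraph.compl_adj] at hvw
      refine C.valid (show Hᶜ.Adj v w by
        rw [SimpleGraph.compl_adj]
        exact ⟨fun h => hvw.1 (Subtype.ext h), hvw.2⟩) (congrArg Subtype.val heq))
  have h1 := hcol.colorable
  have h2 : Fintype.card {c : Fin k // c ∉ W.image C} = k - W.card := by
    rw [Fintype.card_subtype_compl, Fintype.card_fin]
    congr 1
    rw [Fintype.card_coe, Finset.card_image_of_injOn hinj]
  rwa [h2] at h1

end dec

/-- Adding vertices that are isolated in red. -/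
theorem forces_isolated {V : Type} [Fintype V] {H : SimpleGraph V} {a : ℝ} (ha : 0 ≤ a)
    (E : Finset V) : ∀ b : ℝ, 0 ≤ b → (∀ v ∈ E, ∀ y, ¬ H.Adj v y) →
      Forces a b (H.comap ((↑) : {x // x ∉ E} → V)) (H.comap ((↑) : {x // x ∉ E} → V))ᶜ →
      Forces a (b + E.card) H Hᶜ := by
  induction E using Finset.induction_on with
  | empty =>
    intro b _ _ hF
    have : Forces a b H Hᶜ := by
      intro ε hε
      obtain ⟨N, hN⟩ := hF ε hε
      refine ⟨N, fun n hn Gr Gb hG => ?_⟩
      obtain ⟨g, hg, hh⟩ := hN n hn Gr Gb hG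
      refine ⟨fun v => g ⟨v, by simp⟩, fun x y hxy => congrArg Subtype.val (hg hxy), ?_⟩
      intro x y
      refine ⟨fun h => (hh _ _).1 h, fun h => (hh _ _).2 ?_⟩
      rw [SimpleGraph.compl_adj] at h ⊢
      exact ⟨fun he => h.1 (congrArg Subtype.val he), h.2⟩
    simpa using this
  | insert v E hv ih =>
    intro b hb hiso hF
    have h1 : Forces a (b + 1) (H.comap ((↑) : {x // x ∉ E} → V))
        (H.comap ((↑) : {x // x ∉ E} → V))ᶜ := by
      refine forces_dominate ha hb (fun x : {x // x ∉ insert v E} =>
        (⟨x, fun h => x.2 (Finset.mem_insert_of_mem h)⟩ : {x // x ∉ E})) ⟨v, hv⟩ ?_ ?_ ?_ ?_ ?_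
      · intro x
        by_cases hx : (x : V) = v
        · exact Or.inl (Subtype.ext hx)
        · exact Or.inr ⟨⟨x, fun h => by
            rcases Finset.mem_insert.1 h with h | h
            · exact hx h
            · exact x.2 h⟩, rfl⟩
      · intro i h
        have h2 : (i : V) = v := congrArg Subtype.val h
        exact i.2 (by rw [h2]; exact Finset.mem_insert_self _ _)
      · intro x y hxy
        exact Subtype.ext (congrArg (fun z : {x // x ∉ E} => (z : V)) hxy)
      · intro i
        exact hiso v (Finset.mem_insert_self _ _) _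
      · have e2 : (H.comap ((↑) : {x // x ∉ E} → V))ᶜ.comap
            (fun x : {x // x ∉ insert v E} =>
              (⟨x, fun h => x.2 (Finset.mem_insert_of_mem h)⟩ : {x // x ∉ E})) =
            (H.comap ((↑) : {x // x ∉ insert v E} → V))ᶜ := by
          ext x y
          simp only [SimpleGraph.comap_adj, SimpleGraph.compl_adj, ne_eq, Subtype.mk.injEq]
          constructor
          · rintro ⟨h1, h2⟩
            exact ⟨fun h => h1 (congrArg Subtype.val h), h2⟩
          · rintro ⟨h1, h2⟩
            exact ⟨fun h => h1 (Subtype.ext h), h2⟩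
        rw [e2]
        exact hF
    have h2 := ih (b + 1) (by linarith)
      (fun w hw => hiso w (Finset.mem_insert_of_mem hw)) h1
    rw [Finset.card_insert_of_notMem hv]
    have e : b + ((E.card + 1 : ℕ) : ℝ) = b + 1 + E.card := by push_cast; ring
    rw [e]
    exact h2

/-- congruence on the source of a comap -/
theorem forces_congr' {V V' : Type} (φ : V ≃ V') {H : SimpleGraph V} {H' : SimpleGraph V'}
    (hφ : ∀ x y, H.Adj x y ↔ H'.Adj (φ x) (φ y)) {a b : ℝ} (h : Forces a b H Hᶜ) :
    Forces a b H' H'ᶜ := by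
  intro ε hε
  obtain ⟨N, hN⟩ := h ε hε
  refine ⟨N, fun n hn Gr Gb hG => ?_⟩
  obtain ⟨f, hf, hh⟩ := hN n hn Gr Gb hG
  refine ⟨fun x => f (φ.symm x), hf.comp φ.symm.injective, fun x y => ?_⟩
  have h1 := hh (φ.symm x) (φ.symm y)
  simp only [SimpleGraph.compl_adj, hφ, Equiv.apply_symm_apply,
    ne_eq, EmbeddingLike.apply_eq_iff_eq] at h1
  exact ⟨h1.1, fun h2 => h1.2 ((SimpleGraph.compl_adj H' x y).1 h2)⟩

/-- REMOVAL OF A CROWN for `b ≥ 2a`. -/
theorem forces_of_crown {V : Type} [Fintype V] {H : SimpleGraph V} {U W : Finset V}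
    (h : IsCrown H univ U W) {a b : ℝ} (ha : 0 < a) (hab : 2 * a ≤ b) (hU : (U.card : ℝ) ≤ a)
    (hW : (W.card : ℝ) ≤ b)
    (hF : Forces (a - U.card) (b - W.card) (H.comap ((↑) : {v // v ∉ U ∪ W} → V))
      (H.comap ((↑) : {v // v ∉ U ∪ W} → V))ᶜ) :
    Forces a b H Hᶜ := by
  obtain ⟨f, hf, hfW⟩ := h.matching
  set s := U.card with hs
  have hcardf : (U.image f).card = s := Finset.card_image_of_injOn hf
  have hsubf : U.image f ⊆ W := by
    intro w hw
    obtain ⟨u, hu, rfl⟩ := Finset.mem_image.1 hw
    exact (hfW u hu).1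
  have hsW : s ≤ W.card := by rw [← hcardf]; exact Finset.card_le_card hsubf
  -- the enumeration of `U`
  let e : Fin s ≃ {x // x ∈ U} := (Finset.equivFin U).symm
  have hdisj : ∀ v, v ∈ U → v ∉ W := fun v hv hw => Finset.disjoint_left.1 h.disj hv hw
  -- the rest after removing the matched part
  set S : Finset V := U ∪ U.image f with hS
  have hmem : ∀ v, v ∉ U → v ∉ U.image f → v ∉ S := by
    intro v h1 h2 h3
    rcases Finset.mem_union.1 h3 with h3 | h3
    · exact h1 h3
    · exact h2 h3
  -- first step: add the unmatched vertices of `W`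
  set E : Finset {v // v ∉ S} := univ.filter (fun v => (v : V) ∈ W) with hE
  have hEcard : E.card = W.card - s := by
    have h1 : E.card = (W \ U.image f).card := by
      rw [← Finset.card_map ⟨((↑) : {v // v ∉ S} → V), Subtype.val_injective⟩]
      congr 1
      ext v
      simp only [Finset.mem_map, Function.Embedding.coeFn_mk, Finset.mem_sdiff, hE,
        Finset.mem_filter, Finset.mem_univ, true_and]
      constructor
      · rintro ⟨x, hx, rfl⟩
        exact ⟨hx, fun hc => x.2 (Finset.mem_union_right _ hc)⟩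
      · rintro ⟨h1, h2⟩
        exact ⟨⟨v, hmem v (fun hc => hdisj v hc h1) h2⟩, h1, rfl⟩
    rw [h1, Finset.card_sdiff_of_subset hsubf, hcardf]
  have hF1 : Forces (a - s) (b - W.card + E.card) (H.comap ((↑) : {v // v ∉ S} → V))
      (H.comap ((↑) : {v // v ∉ S} → V))ᶜ := by
    refine forces_isolated (by linarith) E _ (by linarith) ?_ ?_
    · intro v hv y hadj
      have hvW : (v : V) ∈ W := (Finset.mem_filter.1 hv).2
      exact y.2 (Finset.mem_union_left _ (h.nbr v hvW y (Finset.mem_univ _) hadj))
    · let φ : {v // v ∉ U ∪ W} ≃ {x : {v // v ∉ S} // x ∉ E} :=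
        { toFun := fun v => ⟨⟨v, hmem v (fun hc => v.2 (Finset.mem_union_left _ hc))
              (fun hc => v.2 (Finset.mem_union_right _ (hsubf hc)))⟩, fun hc =>
              v.2 (Finset.mem_union_right _ (Finset.mem_filter.1 hc).2)⟩
          invFun := fun x => ⟨x.1.1, fun hc => by
            rcases Finset.mem_union.1 hc with hc | hc
            · exact x.1.2 (Finset.mem_union_left _ hc)
            · exact x.2 (Finset.mem_filter.2 ⟨Finset.mem_univ _, hc⟩)⟩
          left_inv := fun v => rfl
          right_inv := fun x => rfl }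
      exact forces_congr' φ (fun x y => Iff.rfl) hF
  have hF2 : Forces (a - s) (b - s) (H.comap ((↑) : {v // v ∉ S} → V))
      (H.comap ((↑) : {v // v ∉ S} → V))ᶜ := by
    have : b - W.card + E.card = b - s := by
      rw [hEcard, Nat.cast_sub hsW]
      ring
    rwa [this] at hF1
  -- second step: the crown lemma
  let g : Fin s ⊕ (Fin s ⊕ {v // v ∉ S}) → V :=
    Sum.elim (fun i => e i) (Sum.elim (fun i => f (e i)) (fun v => v))
  have hg : Function.Bijective g := by
    constructor
    · rintro (i | i | x) (j | j | y) hxy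
      · exact congrArg Sum.inl (e.injective (Subtype.ext hxy))
      · exact absurd (hfW _ (e j).2).1 (fun hc => hdisj _ (e i).2 (by
          have : (e i : V) = f (e j) := hxy
          rw [this]
          exact hc))
      · exact absurd (Finset.mem_union_left _ (e i).2) (by
          have : (e i : V) = y := hxy
          rw [this]
          exact y.2)
      · exact absurd (hfW _ (e i).2).1 (fun hc => hdisj _ (e j).2 (by
          have : f (e i) = (e j : V) := hxy
          rw [← this]
          exact hc))
      · have h1 : (e i : V) = e j := hf (e i).2 (e j).2 hxy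
        exact congrArg (Sum.inr ∘ Sum.inl) (e.injective (Subtype.ext h1))
      · exact absurd (Finset.mem_union_right _ (Finset.mem_image_of_mem f (e i).2)) (by
          have : f (e i) = y := hxy
          rw [this]
          exact y.2)
      · exact absurd (Finset.mem_union_left _ (e j).2) (by
          have : (x : V) = (e j : V) := hxy
          rw [← this]
          exact x.2)
      · exact absurd (Finset.mem_union_right _ (Finset.mem_image_of_mem f (e j).2)) (by
          have : (x : V) = f (e j) := hxy
          rw [← this]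
          exact x.2)
      · exact congrArg (Sum.inr ∘ Sum.inr) (Subtype.ext hxy)
    · intro v
      by_cases h1 : v ∈ U
      · exact ⟨Sum.inl (e.symm ⟨v, h1⟩), by simp [g]⟩
      · by_cases h2 : v ∈ U.image f
        · obtain ⟨u, hu, rfl⟩ := Finset.mem_image.1 h2
          exact ⟨Sum.inr (Sum.inl (e.symm ⟨u, hu⟩)), by simp [g]⟩
        · exact ⟨Sum.inr (Sum.inr ⟨v, hmem v h1 h2⟩), rfl⟩
  have hF3 : Forces a b (H.comap g) (H.comap g)ᶜ := by
    refine forces_crown (R := {v // v ∉ S}) ha hab hU (H.comap g) ?_ ?_ ?_ hF2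
    · intro i
      exact (hfW _ (e i).2).2
    · intro i j hadj
      exact h.indep _ (hfW _ (e i).2).1 _ (hfW _ (e j).2).1 hadj
    · intro i r hadj
      exact r.2 (Finset.mem_union_left _ (h.nbr _ (hfW _ (e i).2).1 r (Finset.mem_univ _) hadj))
  exact forces_congr' (Equiv.ofBijective g hg) (fun x y => Iff.rfl) hF3

end Pool.Agent.Lib.MP_a05470_co
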