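import Pool.Agent.Lib.MP_a05470_co.Peel

set_option autoImplicit false

namespace Pool.Agent.Lib.MP_a05470_co

open Finset Classical

section Odd

variable {n : ℕ} {V : Type} {Gr Gb : SimpleGraph (Fin n)} {H : SimpleGraph V}

/-- the family of boxes given by a minimum degree condition -/
theorem family_of_degree {S ε : ℝ} (hS : 0 < S) (hε : 0 < ε) (hn : 0 < n)
    (hG : ∀ v, S * nonadj Gr v + S * nonadj Gb v ≤ (1 - ε) * n) :
    ∃ F : Finset (Finset (Fin n)), IsFam Gr Gb F ∧ ∀ k : ℕ,
      S * (k + 1) < k * F.card + (F.filter (fun C => k < C.card)).card := by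
  obtain ⟨F, hF, hk⟩ := exists_family Gr Gb (T := (1 - ε) * n / S) (by
    intro v
    rw [le_div_iff₀ hS]
    have := hG v
    linarith)
  refine ⟨F, hF, fun k => ?_⟩
  have h1 := hk k
  set Z : ℝ := k * F.card + (F.filter (fun C => k < C.card)).card with hZ
  have hZ0 : 0 ≤ Z := by positivity
  have hn' : (0 : ℝ) < n := by exact_mod_cast hn
  rw [div_mul_eq_mul_div, le_div_iff₀ hS] at h1
  have h2 : S * ((k : ℝ) + 1) ≤ (1 - ε) * Z := by
    have h3 : (n : ℝ) * (S * ((k : ℝ) + 1)) ≤ n * ((1 - ε) * Z) := by nlinarith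
    exact le_of_mul_le_mul_left h3 hn'
  have h3 : 0 < S * ((k : ℝ) + 1) := by positivity
  have h4 : 0 < Z := by
    rcases hZ0.eq_or_lt with h | h
    · rw [← h] at h2
      linarith
    · exact h
  nlinarith

theorem exists_col {s : ℕ} [Fintype V] (h : Hᶜ.Colorable (s + 1)) :
    ∃ (ι : Type) (c : V → ι), CliqueCol H Finset.univ c ∧
      (Finset.univ.image c).card ≤ s + 1 := by
  obtain ⟨C⟩ := h
  refine ⟨Fin (s + 1), C, ?_, ?_⟩
  · intro x _ y _ hxy hc
    by_contra hcon
    exact C.valid (show Hᶜ.Adj x y by rw [SimpleGraph.compl_adj]; exact ⟨hxy, hcon⟩) hc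
  · refine (Finset.card_le_univ _).trans (le_of_eq ?_)
    simp

theorem contains_odd [Fintype V] {s : ℕ} (hV : Fintype.card V ≤ 2 * s + 1)
    (h1 : H.Colorable (s + 1)) (h2 : Hᶜ.Colorable (s + 1)) {F : Finset (Finset (Fin n))}
    (hF : IsFam Gr Gb F)
    (hk : ∀ k : ℕ, 1 ≤ k → (s : ℤ) * (k + 1) + 1 ≤
      k * F.card + (F.filter (fun C => k < C.card)).card) : Contains H Hᶜ Gr Gb := by
  apply contains_of_packable hF
  by_cases hb : HasMat Hᶜ Finset.univ (boxesOf Gb F).card
  · obtain ⟨ι, c, hc, hK⟩ := exists_col h2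
    exact packable_case hF hV hc hK hb hk
  · by_cases hr : HasMat H Finset.univ (boxesOf Gr F).card
    · have hF' : IsFam Gb Gr F := by
        refine ⟨fun C hC => ⟨(hF.1 C hC).1, ?_⟩, ?_⟩
        · intro x hx y hy hxy
          have := (hF.1 C hC).2 x hx y hy hxy
          tauto
        · intro C hC D hD hCD x hx y hy
          exact (hF.2 C hC D hD hCD x hx y hy).symm
      obtain ⟨ι, c, hc, hK⟩ := exists_col (H := Hᶜ) (s := s) (by rwa [compl_compl])
      have h3 := packable_case (H := Hᶜ) hF' hV hc hK (by rwa [compl_compl]) hk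
      have h4 := h3.swap
      rwa [compl_compl] at h4
    · apply packable_both hF hb hr
      have h3 := hk 1 le_rfl
      refine hV.trans ?_
      push_cast at h3
      have h4 : ((2 * s + 1 : ℕ) : ℤ) ≤
          ((F.card + (F.filter (fun C => 1 < C.card)).card : ℕ) : ℤ) := by
        push_cast
        linarith
      exact_mod_cast h4

theorem forces_odd [Fintype V] {s : ℕ} (hs : 1 ≤ s) (hV : Fintype.card V ≤ 2 * s + 1)
    (h1 : H.Colorable (s + 1)) (h2 : Hᶜ.Colorable (s + 1)) : Forces (s : ℝ) s H Hᶜ := by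
  intro ε hε
  refine ⟨1, fun n hn Gr Gb hG => ?_⟩
  obtain ⟨F, hF, hk⟩ := family_of_degree (by exact_mod_cast hs) hε (by omega) hG
  apply contains_odd hV h1 h2 hF
  intro k _
  have h3 := hk k
  have h4 : (((s : ℤ) * (k + 1) : ℤ) : ℝ) <
      ((k * F.card + (F.filter (fun C => k < C.card)).card : ℤ) : ℝ) := by
    push_cast
    exact h3
  have h5 : (s : ℤ) * (k + 1) < k * F.card + (F.filter (fun C => k < C.card)).card := by
    exact_mod_cast h4
  omega

end Odd

end Pool.Agent.Lib.MP_a05470_co
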