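import Pool.Agent.Lib.MP_a05470_co.CrownDec
import Pool.Agent.Lib.MP_a05470_co.Odd

set_option autoImplicit false

namespace Pool.Agent.Lib.MP_a05470_co

open Finset Classical Filter Topology

/-- Nordhaus–Gaddum, in the form of two partial colourings -/
theorem nordhaus {V : Type} (G : SimpleGraph V) (S : Finset V) :
    ∃ (k l : ℕ) (c d : V → ℕ), k + l ≤ S.card + 1 ∧ (∀ v ∈ S, c v < k) ∧ (∀ v ∈ S, d v < l) ∧
      (∀ u ∈ S, ∀ v ∈ S, G.Adj u v → c u ≠ c v) ∧
      (∀ u ∈ S, ∀ v ∈ S, u ≠ v → ¬ G.Adj u v → d u ≠ d v) := by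
  induction S using Finset.induction_on with
  | empty => exact ⟨0, 0, fun _ => 0, fun _ => 0, by simp, by simp, by simp, by simp, by simp⟩
  | insert v S hv ih =>
    obtain ⟨k, l, c, d, hkl, hc, hd, hc', hd'⟩ := ih
    have hne : ∀ u ∈ S, u ≠ v := fun u hu h => hv (h ▸ hu)
    -- colour `v` with `i` in the first and with `j` in the second colouring
    have key : ∀ (k' l' i j : ℕ), k ≤ k' → l ≤ l' → i < k' → j < l' →
        (∀ u ∈ S, G.Adj v u → c u ≠ i) → (∀ u ∈ S, ¬ G.Adj v u → d u ≠ j) →
        k' + l' ≤ (insert v S).card + 1 →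
        ∃ (k l : ℕ) (c d : V → ℕ), k + l ≤ (insert v S).card + 1 ∧
          (∀ v' ∈ insert v S, c v' < k) ∧ (∀ v' ∈ insert v S, d v' < l) ∧
          (∀ u ∈ insert v S, ∀ v' ∈ insert v S, G.Adj u v' → c u ≠ c v') ∧
          (∀ u ∈ insert v S, ∀ v' ∈ insert v S, u ≠ v' → ¬ G.Adj u v' → d u ≠ d v') := by
      intro k' l' i j hk' hl' hi hj h1 h2 h3
      refine ⟨k', l', Function.update c v i, Function.update d v j, h3, ?_, ?_, ?_, ?_⟩
      · intro u hu
        rcases Finset.mem_insert.1 hu with rfl | hu
        · rwa [Function.update_self]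
        · rw [Function.update_of_ne (hne u hu)]
          exact lt_of_lt_of_le (hc u hu) hk'
      · intro u hu
        rcases Finset.mem_insert.1 hu with rfl | hu
        · rwa [Function.update_self]
        · rw [Function.update_of_ne (hne u hu)]
          exact lt_of_lt_of_le (hd u hu) hl'
      · intro u hu w hw hadj
        rcases Finset.mem_insert.1 hu with hu' | hu' <;> rcases Finset.mem_insert.1 hw with hw' | hw'
        · exact absurd (hu'.trans hw'.symm) hadj.ne
        · rw [hu', Function.update_self, Function.update_of_ne (hne w hw')]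
          exact fun h => h1 w hw' (hu' ▸ hadj) h.symm
        · rw [hw', Function.update_self, Function.update_of_ne (hne u hu')]
          exact fun h => h1 u hu' (hw' ▸ hadj.symm) h
        · rw [Function.update_of_ne (hne w hw'), Function.update_of_ne (hne u hu')]
          exact hc' u hu' w hw' hadj
      · intro u hu w hw huw hadj
        rcases Finset.mem_insert.1 hu with hu' | hu' <;> rcases Finset.mem_insert.1 hw with hw' | hw'
        · exact absurd (hu'.trans hw'.symm) huw
        · rw [hu', Function.update_self, Function.update_of_ne (hne w hw')]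
          exact fun h => h2 w hw' (hu' ▸ hadj) h.symm
        · rw [hw', Function.update_self, Function.update_of_ne (hne u hu')]
          exact fun h => h2 u hu' (fun h' => hadj (by rw [hw']; exact h'.symm)) h
        · rw [Function.update_of_ne (hne w hw'), Function.update_of_ne (hne u hu')]
          exact hd' u hu' w hw' huw hadj
    have hcard : (insert v S).card = S.card + 1 := Finset.card_insert_of_notMem hv
    by_cases h1 : ∃ i < k, ∀ u ∈ S, G.Adj v u → c u ≠ i
    · obtain ⟨i, hi, h1⟩ := h1
      exact key k (l + 1) i l le_rfl (by omega) hi (by omega) h1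
        (fun u hu _ => (hd u hu).ne) (by omega)
    · by_cases h2 : ∃ j < l, ∀ u ∈ S, ¬ G.Adj v u → d u ≠ j
      · obtain ⟨j, hj, h2⟩ := h2
        exact key (k + 1) l k j (by omega) le_rfl (by omega) hj (fun u hu _ => (hc u hu).ne)
          h2 (by omega)
      · push Not at h1 h2
        have h3 : k ≤ (S.filter (fun u => G.Adj v u)).card := by
          have : Finset.range k ⊆ (S.filter (fun u => G.Adj v u)).image c := by
            intro i hi
            obtain ⟨u, hu, hadj, hcu⟩ := h1 i (Finset.mem_range.1 hi)
            exact Finset.mem_image.2 ⟨u, Finset.mem_filter.2 ⟨hu, hadj⟩, hcu⟩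
          calc k = (Finset.range k).card := (Finset.card_range k).symm
            _ ≤ _ := Finset.card_le_card this
            _ ≤ _ := Finset.card_image_le
        have h4 : l ≤ (S.filter (fun u => ¬ G.Adj v u)).card := by
          have : Finset.range l ⊆ (S.filter (fun u => ¬ G.Adj v u)).image d := by
            intro i hi
            obtain ⟨u, hu, hadj, hcu⟩ := h2 i (Finset.mem_range.1 hi)
            exact Finset.mem_image.2 ⟨u, Finset.mem_filter.2 ⟨hu, hadj⟩, hcu⟩
          calc l = (Finset.range l).card := (Finset.card_range l).symm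
            _ ≤ _ := Finset.card_le_card this
            _ ≤ _ := Finset.card_image_le
        have h5 := Finset.card_filter_add_card_filter_not (s := S) (fun u => G.Adj v u)
        exact key (k + 1) (l + 1) k l (by omega) (by omega) (by omega) (by omega)
          (fun u hu _ => (hc u hu).ne) (fun u hu _ => (hd u hu).ne) (by omega)

/-- Nordhaus–Gaddum: if `Gᶜ` is not `t`-colourable then `G` is `(n - t)`-colourable -/
theorem colorable_of_not {V : Type} [Fintype V] (G : SimpleGraph V) {t n : ℕ}
    (hn : Fintype.card V ≤ t + n) (h : ¬ Gᶜ.Colorable t) : G.Colorable n := by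
  obtain ⟨k, l, c, d, hkl, hc, hd, hc', hd'⟩ := nordhaus G Finset.univ
  rw [Finset.card_univ] at hkl
  have h1 : G.Colorable k := by
    have := (SimpleGraph.Coloring.mk (fun v => (⟨c v, hc v (mem_univ _)⟩ : Fin k)) (by
      intro u v huv h2
      exact hc' u (mem_univ _) v (mem_univ _) huv (congrArg Fin.val h2)) : G.Coloring (Fin k)).colorable
    simpa using this
  have h2 : Gᶜ.Colorable l := by
    have := (SimpleGraph.Coloring.mk (fun v => (⟨d v, hd v (mem_univ _)⟩ : Fin l)) (by
      intro u v huv h2
      rw [SimpleGraph.compl_adj] at huv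
      exact hd' u (mem_univ _) v (mem_univ _) huv.1 huv.2 (congrArg Fin.val h2)) :
        Gᶜ.Coloring (Fin l)).colorable
    simpa using this
  have h3 : t < l := by
    by_contra hcon
    exact h (h2.mono (not_lt.1 hcon))
  exact h1.mono (by omega)

section

variable {V : Type} [Fintype V] {H : SimpleGraph V}

/-- the cliques of the rest and `|W|` further cliques cover everything -/
theorem IsCrown.colorable_conv {U W : Finset V} (h : IsCrown H univ U W) {k : ℕ}
    (hk : (H.comap ((↑) : {v // v ∉ U ∪ W} → V))ᶜ.Colorable k) : Hᶜ.Colorable (k + W.card) := by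
  obtain ⟨C⟩ := hk
  obtain ⟨f, hf, hfW⟩ := h.matching
  have hrest : ∀ v, v ∉ U → v ∉ W → v ∉ U ∪ W := by
    intro v h1 h2 h3
    rcases Finset.mem_union.1 h3 with h3 | h3
    exacts [h1 h3, h2 h3]
  let D : V → Fin k ⊕ {x // x ∈ W} := fun v =>
    if hU : v ∈ U then Sum.inr ⟨f v, (hfW v hU).1⟩
    else if hW : v ∈ W then Sum.inr ⟨v, hW⟩
    else Sum.inl (C ⟨v, hrest v hU hW⟩)
  have hcol : Hᶜ.Coloring (Fin k ⊕ {x // x ∈ W}) := SimpleGraph.Coloring.mk D (by
    intro u v huv heq
    rw [SimpleGraph.compl_adj] at huv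
    simp only [D] at heq
    by_cases hu : u ∈ U
    · by_cases hv : v ∈ U
      · simp only [hu, hv, dif_pos, Sum.inr.injEq, Subtype.mk.injEq] at heq
        exact huv.1 (hf hu hv heq)
      · by_cases hv' : v ∈ W
        · simp only [hu, hv, hv', dif_pos, dif_neg, not_false_eq_true, Sum.inr.injEq,
            Subtype.mk.injEq] at heq
          exact huv.2 (heq ▸ (hfW u hu).2)
        · simp [hu, hv, hv'] at heq
    · by_cases hu' : u ∈ W
      · by_cases hv : v ∈ U
        · simp only [hu, hu', hv, dif_pos, dif_neg, not_false_eq_true, Sum.inr.injEq,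
            Subtype.mk.injEq] at heq
          exact huv.2 (heq ▸ (hfW v hv).2.symm)
        · by_cases hv' : v ∈ W
          · simp only [hu, hu', hv, hv', dif_pos, dif_neg, not_false_eq_true, Sum.inr.injEq,
              Subtype.mk.injEq] at heq
            exact huv.1 heq
          · simp [hu, hu', hv, hv'] at heq
      · by_cases hv : v ∈ U
        · simp [hu, hu', hv] at heq
        · by_cases hv' : v ∈ W
          · simp [hu, hu', hv, hv'] at heq
          · simp only [hu, hu', hv, hv', dif_neg, not_false_eq_true, Sum.inl.injEq] at heq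
            refine C.valid ?_ heq
            rw [SimpleGraph.compl_adj]
            exact ⟨fun h => huv.1 (congrArg Subtype.val h), huv.2⟩)
  have h1 := hcol.colorable
  rw [Fintype.card_sum, Fintype.card_fin, Fintype.card_coe] at h1
  exact h1

omit [Fintype V] in
/-- the rest of a crown decomposition is crown-free as a graph -/
theorem CrownFree.comap {R : Finset V} {P : V → Prop} [Fintype {v // P v}] (hP : ∀ v, v ∈ R ↔ P v)
    (h : CrownFree H R) : CrownFree (H.comap ((↑) : {v // P v} → V)) univ := by
  intro I _ hne hind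
  have h1 := h (I.map ⟨((↑) : {v // P v} → V), Subtype.val_injective⟩) (by
      intro v hv
      obtain ⟨x, _, rfl⟩ := Finset.mem_map.1 hv
      exact (hP _).2 x.2) (hne.map) (by
      intro x hx y hy hadj
      obtain ⟨x', hx', rfl⟩ := Finset.mem_map.1 hx
      obtain ⟨y', hy', rfl⟩ := Finset.mem_map.1 hy
      exact hind x' hx' y' hy' hadj)
  rw [Finset.card_map] at h1
  refine lt_of_lt_of_le h1 ?_
  rw [← Finset.card_map ⟨((↑) : {v // P v} → V), Subtype.val_injective⟩]
  apply Finset.card_le_card
  intro v hv
  simp only [nbrIn, Finset.mem_filter] at hv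
  obtain ⟨hvR, i, hi, hadj⟩ := hv
  obtain ⟨i', hi', rfl⟩ := Finset.mem_map.1 hi
  rw [Finset.mem_map]
  refine ⟨⟨v, (hP v).1 hvR⟩, ?_, rfl⟩
  simp only [nbrIn, Finset.mem_filter, Finset.mem_univ, true_and]
  exact ⟨i', hi', hadj⟩

/-- a graph whose complement needs as many colours as there are vertices has no edge -/
theorem no_edge_of_not_colorable {n : ℕ} (hn : Fintype.card V = n + 1)
    (h : ¬ Hᶜ.Colorable n) (x y : V) : ¬ H.Adj x y := by
  intro hadj
  apply h
  have hcol : Hᶜ.Coloring {v : V // v ≠ y} := SimpleGraph.Coloring.mk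
    (fun v => if hv : v = y then ⟨x, hadj.ne⟩ else ⟨v, hv⟩) (by
      intro u v huv heq
      rw [SimpleGraph.compl_adj] at huv
      by_cases hu : u = y
      · by_cases hv : v = y
        · exact huv.1 (hu.trans hv.symm)
        · simp only [hu, hv, dif_pos, dif_neg, not_false_eq_true, Subtype.mk.injEq] at heq
          rw [hu, ← heq] at huv
          exact huv.2 hadj.symm
      · by_cases hv : v = y
        · simp only [hu, hv, dif_pos, dif_neg, not_false_eq_true, Subtype.mk.injEq] at heq
          rw [hv, heq] at huv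
          exact huv.2 hadj
        · simp only [hu, hv, dif_neg, not_false_eq_true, Subtype.mk.injEq] at heq
          exact huv.1 heq)
  have h1 := hcol.colorable
  have h2 : Fintype.card {v : V // v ≠ y} = n := by
    rw [Fintype.card_subtype_compl, Fintype.card_subtype_eq]
    omega
  rwa [h2] at h1

end

/-- a graph with one vertex -/
theorem forces_one {V : Type} [Fintype V] (hV : Fintype.card V ≤ 1) {H : SimpleGraph V} :
    Forces 0 0 H Hᶜ := by
  have hs : Subsingleton V := Fintype.card_le_one_iff_subsingleton.1 hV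
  intro ε hε
  refine ⟨1, fun n hn Gr Gb _ => ⟨fun _ => ⟨0, hn⟩, fun x y _ => Subsingleton.elim x y, ?_⟩⟩
  intro x y
  have hxy : x = y := Subsingleton.elim x y
  subst hxy
  exact ⟨fun h => (SimpleGraph.irrefl _ h).elim, fun h => (SimpleGraph.irrefl _ h).elim⟩

/-- THE CASE `b ≥ 2a` OF THE MAIN THEOREM, assuming the crown-free case `J`. -/
theorem forces_of_crownfree
    (J : ∀ (R : Type) [Fintype R] (H' : SimpleGraph R) (a' b' : ℕ), 1 ≤ a' → a' ≤ b' →
      Fintype.card R = a' + b' + 1 → CrownFree H' univ → H'ᶜ.Colorable (b' + 1) →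
      ¬ H'ᶜ.Colorable b' → Forces (a' : ℝ) b' H' H'ᶜ)
    {V : Type} [Fintype V] (H : SimpleGraph V) {a b : ℕ} (ha : 1 ≤ a) (hab : 2 * a ≤ b)
    (hV : Fintype.card V = a + b + 1) (hcol : Hᶜ.Colorable (b + 1)) (hnot : ¬ Hᶜ.Colorable b) :
    Forces (a : ℝ) b H Hᶜ := by
  obtain ⟨U, W, hUW, hfree⟩ := exists_crown H univ
  obtain ⟨f, hf, hfW⟩ := hUW.matching
  have hcardf : (U.image f).card = U.card := Finset.card_image_of_injOn hf
  have hsubf : U.image f ⊆ W := by
    intro w hw
    obtain ⟨u, hu, rfl⟩ := Finset.mem_image.1 hw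
    exact (hfW u hu).1
  have hUWcard : U.card ≤ W.card := by rw [← hcardf]; exact Finset.card_le_card hsubf
  have hunion : (U ∪ W).card = U.card + W.card := Finset.card_union_of_disjoint hUW.disj
  have hWb : W.card ≤ b + 1 := by
    obtain ⟨C⟩ := hcol
    have hinj : Set.InjOn C W := by
      intro x hx y hy hxy
      by_contra hne
      exact C.valid (show Hᶜ.Adj x y by
        rw [SimpleGraph.compl_adj]
        exact ⟨hne, hUW.indep x hx y hy⟩) hxy
    have h1 := Finset.card_le_univ (W.image C)
    rwa [Finset.card_image_of_injOn hinj, Fintype.card_fin] at h1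
  have hcardR : ∀ T : Finset V, Fintype.card {v // v ∉ T} = a + b + 1 - T.card := by
    intro T
    rw [Fintype.card_subtype_compl, Fintype.card_coe, hV]
  have hle : (U ∪ W).card ≤ a + b + 1 := by rw [← hV]; exact Finset.card_le_univ _
  -- colourability of the rest
  have hcolR := hUW.colorable hcol
  have hnotR : ∀ k, k + W.card ≤ b →
      ¬ (H.comap ((↑) : {v // v ∉ U ∪ W} → V))ᶜ.Colorable k := by
    intro k hk hc
    exact hnot ((hUW.colorable_conv hc).mono hk)
  -- `|U| ≤ a`
  have hUa : U.card ≤ a := by
    by_contra hcon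
    push Not at hcon
    have h1 : Fintype.card {v // v ∉ U ∪ W} + W.card ≤ b := by
      rw [hcardR, hunion]
      rw [hunion] at hle
      omega
    exact hnotR _ h1 (SimpleGraph.Coloring.colorable (SimpleGraph.selfColoring _))
  by_cases hcase : W.card ≤ b ∧ a - U.card ≤ b - W.card
  · obtain ⟨hWb', hcase⟩ := hcase
    have hF : Forces ((a - U.card : ℕ) : ℝ) ((b - W.card : ℕ) : ℝ)
        (H.comap ((↑) : {v // v ∉ U ∪ W} → V)) (H.comap ((↑) : {v // v ∉ U ∪ W} → V))ᶜ := by
      have hcf : CrownFree (H.comap ((↑) : {v // v ∉ U ∪ W} → V)) univ :=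
        hfree.comap (P := fun v => v ∉ U ∪ W) (fun v => by simp)
      refine J _ _ _ _ ?_ hcase ?_ hcf ?_ (hnotR _ (by omega))
      · -- otherwise the rest is independent
        by_contra hcon
        have hUa' : U.card = a := by omega
        have hc1 : Fintype.card {v // v ∉ U ∪ W} = (b - W.card) + 1 := by
          rw [hcardR, hunion]
          omega
        have h1 := no_edge_of_not_colorable hc1 (hnotR _ (by omega))
        have hne : (univ : Finset {v // v ∉ U ∪ W}).Nonempty := by
          rw [Finset.univ_nonempty_iff, ← Fintype.card_pos_iff, hc1]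
          omega
        have h2 := hcf univ (Finset.Subset.refl _) hne (fun x _ y _ => h1 x y)
        have h3 : nbrIn (H.comap ((↑) : {v // v ∉ U ∪ W} → V)) univ univ = ∅ := by
          ext v
          simp only [nbrIn, Finset.mem_filter, Finset.mem_univ, true_and, Finset.notMem_empty,
            iff_false, not_exists]
          exact fun i => h1 i v
        rw [h3] at h2
        simp at h2
      · rw [hcardR, hunion]
        omega
      · refine hcolR.mono ?_
        omega
    rw [Nat.cast_sub hUa, Nat.cast_sub hWb'] at hF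
    exact forces_of_crown hUW (by exact_mod_cast ha) (by exact_mod_cast hab)
      (by exact_mod_cast hUa) (by exact_mod_cast hWb') hF
  · -- keep some vertices of `W`
    set c := a - U.card with hc
    have h1 : b - c ≤ W.card := by
      by_cases h : W.card ≤ b
      · have : ¬ (a - U.card ≤ b - W.card) := fun h2 => hcase ⟨h, h2⟩
        omega
      · omega
    have hcb : c ≤ b := by omega
    obtain ⟨W1, hW1f, hW1W, hW1card⟩ := Finset.exists_subsuperset_card_eq hsubf
      (show (U.image f).card ≤ b - c by rw [hcardf]; omega) h1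
    have hcr : IsCrown H univ U W1 :=
      ⟨hUW.subU, Finset.subset_univ _, Finset.disjoint_of_subset_right hW1W hUW.disj,
        fun x hx y hy => hUW.indep x (hW1W hx) y (hW1W hy),
        fun w hw v hv hadj => hUW.nbr w (hW1W hw) v hv hadj,
        ⟨f, hf, fun u hu => ⟨hW1f (Finset.mem_image_of_mem f hu), (hfW u hu).2⟩⟩⟩
    have hunion1 : (U ∪ W1).card = U.card + W1.card := Finset.card_union_of_disjoint hcr.disj
    have hc1 : Fintype.card {v // v ∉ U ∪ W1} = 2 * c + 1 := by
      rw [hcardR, hunion1, hW1card]
      omega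
    have hF : Forces ((c : ℕ) : ℝ) ((c : ℕ) : ℝ)
        (H.comap ((↑) : {v // v ∉ U ∪ W1} → V)) (H.comap ((↑) : {v // v ∉ U ∪ W1} → V))ᶜ := by
      rcases Nat.eq_zero_or_pos c with h0 | h0
      · rw [h0] at hc1 ⊢
        have := forces_one (V := {v // v ∉ U ∪ W1}) (by omega)
          (H := H.comap ((↑) : {v // v ∉ U ∪ W1} → V))
        simpa using this
      · have h2 : (H.comap ((↑) : {v // v ∉ U ∪ W1} → V))ᶜ.Colorable (c + 1) := by
          refine (hcr.colorable hcol).mono ?_
          omega
        have h3 : ¬ (H.comap ((↑) : {v // v ∉ U ∪ W1} → V))ᶜ.Colorable c := by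
          intro h
          exact hnot ((hcr.colorable_conv h).mono (by omega))
        exact forces_odd h0 hc1.le (colorable_of_not _ (by omega) h3) h2
    have e1 : ((c : ℕ) : ℝ) = a - U.card := by rw [hc, Nat.cast_sub hUa]
    have e2 : ((c : ℕ) : ℝ) = b - W1.card := by
      rw [hW1card, Nat.cast_sub hcb]
      ring
    rw [e1] at hF
    rw [← e1] at hF
    have hF' : Forces ((a : ℝ) - U.card) ((b : ℝ) - W1.card)
        (H.comap ((↑) : {v // v ∉ U ∪ W1} → V)) (H.comap ((↑) : {v // v ∉ U ∪ W1} → V))ᶜ := by
      rw [← e1, ← e2]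
      exact hF
    have hW1b : W1.card ≤ b := by rw [hW1card]; omega
    exact forces_of_crown hcr (by exact_mod_cast ha) (by exact_mod_cast hab)
      (by exact_mod_cast hUa) (by exact_mod_cast hW1b) hF'

end Pool.Agent.Lib.MP_a05470_co
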