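import Mathlib
import Pool.Agent.Lib.MP_a05470_co.MatchDefs

/-!
# 2-coloured multigraphs: definitions

A 2-coloured multigraph on `Fin n` is a pair `(Gr, Gb)` of simple graphs (red and blue). A
2-coloured complete graph without green edges on `Fin h` is given by its red graph `R`; its blue
graph is the complement of `R`.
-/

namespace Pool.Agent.Lib.MP_a05470_co

/-- The 2-coloured complete graph with red graph `R` is contained in `(Gr, Gb)`. -/
def Contains {h n : ℕ} (R : SimpleGraph (Fin h)) (Gr Gb : SimpleGraph (Fin n)) : Prop :=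
  ∃ φ : Fin h → Fin n, Function.Injective φ ∧ ∀ u v, u ≠ v →
    (R.Adj u v → Gr.Adj (φ u) (φ v)) ∧ (¬ R.Adj u v → Gb.Adj (φ u) (φ v))

/-- The weight `p e(Gr) + (1 - p) e(Gb)`. -/
noncomputable def weight (p : ℝ) {n : ℕ} (Gr Gb : SimpleGraph (Fin n)) : ℝ :=
  p * (Gr.edgeSet.ncard : ℝ) + (1 - p) * (Gb.edgeSet.ncard : ℝ)

/-- The largest weight of a 2-coloured multigraph on `n` vertices which does not contain the
2-coloured complete graph with red graph `R`. -/
noncomputable def exWeight (p : ℝ) (n : ℕ) {h : ℕ} (R : SimpleGraph (Fin h)) : ℝ :=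
  sSup {w : ℝ | ∃ Gr Gb : SimpleGraph (Fin n), ¬ Contains R Gr Gb ∧ w = weight p Gr Gb}

end Pool.Agent.Lib.MP_a05470_co
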