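import Mathlib

/-!
# Dense 2-coloured multigraphs contain nearly green cliques

`Gr`, `Gb` are the red and the blue graph. `pw u v` is the number of colours of the pair `u v`
and `d2 u v = 2 - pw u v` the number of missing colours. If every vertex of `W` has
`∑_{u ∈ W} pw v u > (2 - 2 / r) |W|`, then `W` contains `r + 1` vertices among which every vertex
misses at most one colour in total.
-/

open Finset

namespace Pool.Agent.Lib.MP_a05470_co

variable {V : Type*} (Gr Gb : SimpleGraph V)

open Classical in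
/-- The number of colours of a pair. -/
noncomputable def pw (u v : V) : ℕ := (if Gr.Adj u v then 1 else 0) + (if Gb.Adj u v then 1 else 0)

open Classical in
/-- The number of colours missing at a pair. -/
noncomputable def d2 (u v : V) : ℕ := (if Gr.Adj u v then 0 else 1) + (if Gb.Adj u v then 0 else 1)

theorem pw_add_d2 (u v : V) : pw Gr Gb u v + d2 Gr Gb u v = 2 := by
  unfold pw d2
  split_ifs <;> rfl

theorem pw_comm (u v : V) : pw Gr Gb u v = pw Gr Gb v u := by
  classical
  unfold pw
  congr 1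
  · exact if_congr (Gr.adj_comm u v) rfl rfl
  · exact if_congr (Gb.adj_comm u v) rfl rfl

theorem d2_comm (u v : V) : d2 Gr Gb u v = d2 Gr Gb v u := by
  classical
  unfold d2
  congr 1
  · exact if_congr (Gr.adj_comm u v) rfl rfl
  · exact if_congr (Gb.adj_comm u v) rfl rfl

theorem pw_self (u : V) : pw Gr Gb u u = 0 := by
  unfold pw
  simp

variable [DecidableEq V]

/-- Every vertex of `S` misses at most one colour in `S`. -/
def GoodSet (S : Finset V) : Prop := ∀ u ∈ S, ∑ v ∈ S.erase u, d2 Gr Gb u v ≤ 1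

/-- The total number of missing colours. -/
noncomputable def defi (S : Finset V) : ℕ := ∑ u ∈ S, ∑ v ∈ S.erase u, d2 Gr Gb u v

theorem defi_le {S : Finset V} (h : GoodSet Gr Gb S) : defi Gr Gb S ≤ S.card := by
  unfold defi
  calc ∑ u ∈ S, ∑ v ∈ S.erase u, d2 Gr Gb u v ≤ ∑ _u ∈ S, 1 := Finset.sum_le_sum h
    _ = S.card := by simp

/-- Averaging: some vertex outside `S` misses at most one colour towards `S`. -/
theorem exists_outside (W S : Finset V) (r : ℕ) (hr : 1 ≤ r)
    (hW : ∀ v ∈ W, (2 * r - 2) * W.card < r * ∑ u ∈ W, pw Gr Gb v u) (hWne : W.Nonempty)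
    (hSW : S ⊆ W) (hS : S.card ≤ r) (hlt : S ≠ W) :
    ∃ v ∈ W, v ∉ S ∧ ∑ u ∈ S, d2 Gr Gb v u ≤ 1 := by
  rcases S.eq_empty_or_nonempty with h0 | hne
  · subst h0
    obtain ⟨v, hv⟩ := hWne
    exact ⟨v, hv, by simp, by simp⟩
  by_contra hcon
  push Not at hcon
  have hs1 : 1 ≤ S.card := hne.card_pos
  -- every vertex of `W` has at most `2|S| - 2` towards `S`
  have h1 : ∀ v ∈ W, ∑ u ∈ S, pw Gr Gb v u ≤ 2 * S.card - 2 := by
    intro v hv
    by_cases hvS : v ∈ S
    · rw [← Finset.add_sum_erase S _ hvS, pw_self]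
      calc 0 + ∑ u ∈ S.erase v, pw Gr Gb v u ≤ 0 + ∑ _u ∈ S.erase v, 2 := by
            gcongr with u _
            have := pw_add_d2 Gr Gb v u
            omega
        _ = 2 * S.card - 2 := by
            rw [Finset.sum_const, Finset.card_erase_of_mem hvS, smul_eq_mul]; omega
    · have h2 := hcon v hv hvS
      have h3 : ∑ u ∈ S, pw Gr Gb v u + ∑ u ∈ S, d2 Gr Gb v u = 2 * S.card := by
        rw [← Finset.sum_add_distrib, Finset.sum_congr rfl (fun u _ => pw_add_d2 Gr Gb v u)]
        simp [mul_comm]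
      omega
  have h2 : ∑ v ∈ W, ∑ u ∈ S, pw Gr Gb v u ≤ W.card * (2 * S.card - 2) := by
    calc _ ≤ ∑ _v ∈ W, (2 * S.card - 2) := Finset.sum_le_sum h1
      _ = _ := by simp
  have h3 : S.card * ((2 * r - 2) * W.card) < r * ∑ v ∈ W, ∑ u ∈ S, pw Gr Gb v u := by
    rw [Finset.sum_comm, Finset.mul_sum]
    calc S.card * ((2 * r - 2) * W.card) = ∑ _u ∈ S, ((2 * r - 2) * W.card) := by simp
      _ < ∑ u ∈ S, r * ∑ v ∈ W, pw Gr Gb v u := by
          refine Finset.sum_lt_sum_of_nonempty hne fun u hu => ?_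
          have := hW u (hSW hu)
          simp only [pw_comm Gr Gb _ u]
          exact this
  have h4 : S.card * ((2 * r - 2) * W.card) < r * (W.card * (2 * S.card - 2)) :=
    lt_of_lt_of_le h3 (Nat.mul_le_mul_left _ h2)
  have h5 : W.card * (S.card * (2 * r - 2)) < W.card * (r * (2 * S.card - 2)) := by
    calc W.card * (S.card * (2 * r - 2)) = S.card * ((2 * r - 2) * W.card) := by ring
      _ < _ := h4
      _ = _ := by ring
  have h6 := Nat.lt_of_mul_lt_mul_left h5
  have h7 : S.card * (2 * r - 2) + 2 * S.card = 2 * (r * S.card) := by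
    obtain ⟨t, rfl⟩ : ∃ t, r = t + 1 := ⟨r - 1, by omega⟩
    rw [show 2 * (t + 1) - 2 = 2 * t by omega]
    ring
  have h8 : r * (2 * S.card - 2) + 2 * r = 2 * (r * S.card) := by
    obtain ⟨t, ht⟩ : ∃ t, S.card = t + 1 := ⟨S.card - 1, by omega⟩
    rw [ht, show 2 * (t + 1) - 2 = 2 * t by omega]
    ring
  omega

/-- **Structure lemma.** -/
theorem exists_goodSet (W : Finset V) (r : ℕ) (hr : 1 ≤ r)
    (hW : ∀ v ∈ W, (2 * r - 2) * W.card < r * ∑ u ∈ W, pw Gr Gb v u) (hWne : W.Nonempty) :
    ∃ S ⊆ W, S.card = r + 1 ∧ GoodSet Gr Gb S := by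
  classical
  -- `W` has more than `r` elements
  have hWcard : r < W.card := by
    obtain ⟨v, hv⟩ := hWne
    have h1 := hW v hv
    have h2 : ∑ u ∈ W, pw Gr Gb v u ≤ 2 * W.card - 2 := by
      rw [← Finset.add_sum_erase W _ hv, pw_self]
      calc 0 + ∑ u ∈ W.erase v, pw Gr Gb v u ≤ 0 + ∑ _u ∈ W.erase v, 2 := by
            gcongr with u _
            have := pw_add_d2 Gr Gb v u
            omega
        _ = 2 * W.card - 2 := by
            rw [Finset.sum_const, Finset.card_erase_of_mem hv, smul_eq_mul]; omega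
    have hW1 : 1 ≤ W.card := Finset.card_pos.mpr ⟨v, hv⟩
    have h3 : (2 * r - 2) * W.card < r * (2 * W.card - 2) :=
      lt_of_lt_of_le h1 (Nat.mul_le_mul_left _ h2)
    have h7 : (2 * r - 2) * W.card + 2 * W.card = 2 * (r * W.card) := by
      obtain ⟨t, rfl⟩ : ∃ t, r = t + 1 := ⟨r - 1, by omega⟩
      rw [show 2 * (t + 1) - 2 = 2 * t by omega]
      ring
    have h8 : r * (2 * W.card - 2) + 2 * r = 2 * (r * W.card) := by
      obtain ⟨t, ht⟩ : ∃ t, W.card = t + 1 := ⟨W.card - 1, by omega⟩
      rw [ht, show 2 * (t + 1) - 2 = 2 * t by omega]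
      ring
    omega
  set F : Finset (Finset V) := W.powerset.filter (fun S => S.card ≤ r + 1 ∧ GoodSet Gr Gb S) with hF
  have hFne : F.Nonempty := by
    refine ⟨∅, ?_⟩
    rw [hF, mem_filter, mem_powerset]
    exact ⟨Finset.empty_subset _, by simp, fun u hu => absurd hu (Finset.notMem_empty u)⟩
  obtain ⟨S, hSF, hmax⟩ := Finset.exists_max_image F
    (fun S => ((2 * (r + 2) * S.card : ℕ) : ℤ) - (defi Gr Gb S : ℤ)) hFne
  rw [hF, mem_filter, mem_powerset] at hSF
  obtain ⟨hSW, hScard, hSgood⟩ := hSF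
  refine ⟨S, hSW, ?_, hSgood⟩
  by_contra hne
  have hSr : S.card ≤ r := by omega
  have hSneW : S ≠ W := by
    intro h
    rw [h] at hSr
    omega
  obtain ⟨v, hvW, hvS, hvd⟩ := exists_outside Gr Gb W S r hr hW hWne hSW hSr hSneW
  by_cases hgood : GoodSet Gr Gb (insert v S)
  · -- `S + v` is good
    have hmem : insert v S ∈ F := by
      rw [hF, mem_filter, mem_powerset]
      refine ⟨Finset.insert_subset hvW hSW, ?_, hgood⟩
      rw [Finset.card_insert_of_notMem hvS]
      omega
    have h1 := hmax _ hmem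
    have h2 := defi_le Gr Gb hgood
    rw [Finset.card_insert_of_notMem hvS] at h1 h2
    push_cast at h1
    have h3 : (defi Gr Gb (insert v S) : ℤ) ≤ S.card + 1 := by exact_mod_cast h2
    have h4 : (0 : ℤ) ≤ defi Gr Gb S := by positivity
    have h5 : (S.card : ℤ) ≤ r := by exact_mod_cast hSr
    nlinarith
  · -- exchange
    have hex : ∃ u ∈ S, d2 Gr Gb u v = 1 ∧ 1 ≤ ∑ w ∈ S.erase u, d2 Gr Gb u w := by
      unfold GoodSet at hgood
      push Not at hgood
      obtain ⟨u, hu, hu2⟩ := hgood
      rcases Finset.mem_insert.mp hu with h | h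
      · subst h
        rw [Finset.erase_insert hvS] at hu2
        omega
      · have huv : u ≠ v := fun h' => hvS (h' ▸ h)
        have e1 : (insert v S).erase u = insert v (S.erase u) := by
          rw [Finset.erase_insert_of_ne huv.symm]
        rw [e1, Finset.sum_insert (fun h' => hvS (Finset.mem_of_mem_erase h'))] at hu2
        have h3 := hSgood u h
        have h4 : d2 Gr Gb u v ≤ 1 := by
          rw [d2_comm]
          calc d2 Gr Gb v u ≤ ∑ w ∈ S, d2 Gr Gb v w :=
                Finset.single_le_sum (f := fun w => d2 Gr Gb v w) (fun _ _ => Nat.zero_le _) h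
            _ ≤ 1 := hvd
        exact ⟨u, h, by omega, by omega⟩
    obtain ⟨u, huS, huv1, hu1⟩ := hex
    -- `v` is completely joined to the rest of `S`
    have hvrest : ∀ w ∈ S.erase u, d2 Gr Gb v w = 0 := by
      have h1 : d2 Gr Gb v u + ∑ w ∈ S.erase u, d2 Gr Gb v w ≤ 1 := by
        rw [Finset.add_sum_erase S (fun w => d2 Gr Gb v w) huS]
        exact hvd
      rw [d2_comm, huv1] at h1
      have h2 : ∑ w ∈ S.erase u, d2 Gr Gb v w = 0 := by omega
      exact fun w hw => (Finset.sum_eq_zero_iff.mp h2) w hw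
    have hvne : v ∉ S.erase u := fun h => hvS (Finset.mem_of_mem_erase h)
    set S' := insert v (S.erase u) with hS'
    have hsum : ∀ w ∈ S.erase u, ∑ x ∈ S'.erase w, d2 Gr Gb w x =
        ∑ x ∈ (S.erase u).erase w, d2 Gr Gb w x := by
      intro w hw
      have hwv : w ≠ v := fun h' => hvne (h' ▸ hw)
      rw [hS', Finset.erase_insert_of_ne hwv.symm,
        Finset.sum_insert (fun h' => hvne (Finset.mem_of_mem_erase h')), d2_comm, hvrest w hw,
        zero_add]
    have hsumv : ∑ x ∈ S'.erase v, d2 Gr Gb v x = 0 := by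
      rw [hS', Finset.erase_insert hvne]
      exact Finset.sum_eq_zero hvrest
    have hle : ∀ w ∈ S.erase u, ∑ x ∈ (S.erase u).erase w, d2 Gr Gb w x + d2 Gr Gb w u =
        ∑ x ∈ S.erase w, d2 Gr Gb w x := by
      intro w hw
      have huw : u ∈ S.erase w := by
        rw [Finset.mem_erase] at hw ⊢
        exact ⟨fun h => hw.1 h.symm, huS⟩
      rw [Finset.erase_right_comm, add_comm]
      exact Finset.add_sum_erase (S.erase w) (fun x => d2 Gr Gb w x) huw
    have hgood' : GoodSet Gr Gb S' := by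
      intro w hw
      rcases Finset.mem_insert.mp hw with h | h
      · subst h
        rw [hsumv]
        exact Nat.zero_le _
      · rw [hsum w h]
        have h1 := hle w h
        have h2 := hSgood w (Finset.mem_of_mem_erase h)
        omega
    have hcard' : S'.card = S.card := by
      rw [hS', Finset.card_insert_of_notMem hvne, Finset.card_erase_of_mem huS]
      have : 1 ≤ S.card := Finset.card_pos.mpr ⟨u, huS⟩
      omega
    have hmem : S' ∈ F := by
      rw [hF, mem_filter, mem_powerset]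
      refine ⟨Finset.insert_subset hvW ((Finset.erase_subset _ _).trans hSW), by omega, hgood'⟩
    have h1 := hmax _ hmem
    have h2 : defi Gr Gb S' < defi Gr Gb S := by
      unfold defi
      rw [hS', Finset.sum_insert hvne, ← hS', hsumv, zero_add,
        Finset.sum_congr rfl hsum, ← Finset.add_sum_erase S _ huS]
      have h3 : ∑ w ∈ S.erase u, ∑ x ∈ (S.erase u).erase w, d2 Gr Gb w x ≤
          ∑ w ∈ S.erase u, ∑ x ∈ S.erase w, d2 Gr Gb w x := by
        refine Finset.sum_le_sum fun w hw => ?_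
        have := hle w hw
        omega
      omega
    have h3 : (defi Gr Gb S' : ℤ) < defi Gr Gb S := by exact_mod_cast h2
    rw [hcard'] at h1
    linarith

/-- The number of ordered coloured pairs in `W`. -/
noncomputable def tot (W : Finset V) : ℕ := ∑ v ∈ W, ∑ u ∈ W, pw Gr Gb v u

/-- **From density to nearly green cliques.** -/
theorem exists_goodSet_of_tot (r : ℕ) (hr : 1 ≤ r) (n : ℕ) : ∀ W : Finset V, W.card = n →
    (2 * r - 2) * (n * (n + 1)) < r * tot Gr Gb W →
    ∃ S ⊆ W, S.card = r + 1 ∧ GoodSet Gr Gb S := by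
  induction n with
  | zero =>
    intro W hW htot
    rw [Finset.card_eq_zero] at hW
    subst hW
    simp [tot] at htot
  | succ n ih =>
    intro W hW htot
    by_cases hall : ∀ v ∈ W, (2 * r - 2) * W.card < r * ∑ u ∈ W, pw Gr Gb v u
    · exact exists_goodSet Gr Gb W r hr hall (Finset.card_pos.mp (by omega))
    · push Not at hall
      obtain ⟨v, hv, hvle⟩ := hall
      have hcard : (W.erase v).card = n := by
        rw [Finset.card_erase_of_mem hv, hW]; rfl
      have hdec : tot Gr Gb W = tot Gr Gb (W.erase v) + 2 * ∑ u ∈ W, pw Gr Gb v u := by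
        unfold tot
        rw [← Finset.add_sum_erase W _ hv]
        have h1 : ∑ w ∈ W.erase v, ∑ u ∈ W, pw Gr Gb w u =
            ∑ w ∈ W.erase v, ∑ u ∈ W.erase v, pw Gr Gb w u + ∑ w ∈ W.erase v, pw Gr Gb v w := by
          rw [← Finset.sum_add_distrib]
          refine Finset.sum_congr rfl fun w _ => ?_
          rw [← Finset.add_sum_erase W (fun u => pw Gr Gb w u) hv, pw_comm Gr Gb w v, add_comm]
        have h2 : ∑ w ∈ W.erase v, pw Gr Gb v w = ∑ w ∈ W, pw Gr Gb v w := by
          rw [← Finset.add_sum_erase W (fun u => pw Gr Gb v u) hv, pw_self, zero_add]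
        rw [h1, h2]
        ring
      obtain ⟨S, hSW, hS⟩ := ih (W.erase v) hcard (by
        rw [hdec] at htot
        rw [hW] at hvle
        have h5 : r * (tot Gr Gb (W.erase v) + 2 * ∑ u ∈ W, pw Gr Gb v u) =
            r * tot Gr Gb (W.erase v) + r * (2 * ∑ u ∈ W, pw Gr Gb v u) := by ring
        have h3 : (2 * r - 2) * ((n + 1) * (n + 1 + 1)) =
            (2 * r - 2) * (n * (n + 1)) + 2 * ((2 * r - 2) * (n + 1)) := by ring
        have h4 : r * (2 * ∑ u ∈ W, pw Gr Gb v u) = 2 * (r * ∑ u ∈ W, pw Gr Gb v u) := by ring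
        omega)
      exact ⟨S, hSW.trans (Finset.erase_subset _ _), hS⟩

end Pool.Agent.Lib.MP_a05470_co
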