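import Mathlib
import Pool.Agent.Lib.MP_a05470_co.Defs
import Pool.Agent.Lib.MP_a05470_co.Struct

/-!
# Embedding into a nearly green clique
-/

open Finset

namespace Pool.Agent.Lib.MP_a05470_co

theorem good_unique {V : Type*} [DecidableEq V] {Gr Gb : SimpleGraph V} {S : Finset V}
    (hS : GoodSet Gr Gb S) {u v w : V} (hu : u ∈ S) (hv : v ∈ S) (hw : w ∈ S) (huv : u ≠ v)
    (huw : u ≠ w) (h1 : 1 ≤ d2 Gr Gb u v) (h2 : 1 ≤ d2 Gr Gb u w) : v = w := by
  by_contra hvw
  have h3 := hS u hu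
  have h4 : v ∈ S.erase u := Finset.mem_erase.mpr ⟨huv.symm, hv⟩
  have h5 : w ∈ (S.erase u).erase v :=
    Finset.mem_erase.mpr ⟨fun h => hvw h.symm, Finset.mem_erase.mpr ⟨huw.symm, hw⟩⟩
  rw [← Finset.add_sum_erase _ _ h4, ← Finset.add_sum_erase _ _ h5] at h3
  omega

theorem good_le_one {V : Type*} [DecidableEq V] {Gr Gb : SimpleGraph V} {S : Finset V}
    (hS : GoodSet Gr Gb S) {u v : V} (hu : u ∈ S) (hv : v ∈ S) (huv : u ≠ v) :
    d2 Gr Gb u v ≤ 1 := by
  have h3 := hS u hu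
  have h4 : v ∈ S.erase u := Finset.mem_erase.mpr ⟨huv.symm, hv⟩
  rw [← Finset.add_sum_erase _ _ h4] at h3
  omega

theorem contains_of_goodSet {n h : ℕ} (Gr Gb : SimpleGraph (Fin n)) (R : SimpleGraph (Fin h))
    (hR : ∀ a b, a + b = h / 2 → HasMatching R a b) (S : Finset (Fin n)) (hSc : S.card = h)
    (hh : 1 ≤ h) (hS : GoodSet Gr Gb S) : Contains R Gr Gb := by
  classical
  set ER : Finset (Fin n × Fin n) :=
    (S ×ˢ S).filter (fun p => p.1 < p.2 ∧ Gr.Adj p.1 p.2 ∧ ¬ Gb.Adj p.1 p.2) with hER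
  set EB : Finset (Fin n × Fin n) :=
    (S ×ˢ S).filter (fun p => p.1 < p.2 ∧ ¬ Gr.Adj p.1 p.2 ∧ Gb.Adj p.1 p.2) with hEB
  have hmemR : ∀ p ∈ ER, (p.1 ∈ S ∧ p.2 ∈ S) ∧ p.1 < p.2 ∧ Gr.Adj p.1 p.2 ∧ ¬ Gb.Adj p.1 p.2 := by
    intro p hp
    rw [hER, mem_filter, mem_product] at hp
    exact hp
  have hmemB : ∀ p ∈ EB, (p.1 ∈ S ∧ p.2 ∈ S) ∧ p.1 < p.2 ∧ ¬ Gr.Adj p.1 p.2 ∧ Gb.Adj p.1 p.2 := by
    intro p hp
    rw [hEB, mem_filter, mem_product] at hp
    exact hp
  set pt : (ER ⊕ EB) → Fin n × Fin n := Sum.elim (fun e => e.1) (fun e => e.1) with hpt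
  have hptS : ∀ e, ((pt e).1 ∈ S ∧ (pt e).2 ∈ S) ∧ (pt e).1 < (pt e).2 ∧
      1 ≤ d2 Gr Gb (pt e).1 (pt e).2 := by
    rintro (e | e)
    · obtain ⟨h1, h2, h3, h4⟩ := hmemR e.1 e.2
      refine ⟨h1, h2, ?_⟩
      show 1 ≤ d2 Gr Gb e.1.1 e.1.2
      unfold d2
      rw [if_neg h4]
      omega
    · obtain ⟨h1, h2, h3, h4⟩ := hmemB e.1 e.2
      refine ⟨h1, h2, ?_⟩
      show 1 ≤ d2 Gr Gb e.1.1 e.1.2
      unfold d2
      rw [if_neg h3]
      omega
  have hptinj : Function.Injective pt := by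
    rintro (e | e) (e' | e') hee
    · have : e.1 = e'.1 := hee
      rw [Subtype.ext this]
    · have h5 : e.1 = e'.1 := hee
      have h1 := (hmemR e.1 e.2).2.2.1
      have h2 := (hmemB e'.1 e'.2).2.2.1
      rw [← h5] at h2
      exact absurd h1 h2
    · have h5 : e.1 = e'.1 := hee
      have h1 := (hmemB e.1 e.2).2.2.1
      have h2 := (hmemR e'.1 e'.2).2.2.1
      rw [← h5] at h2
      exact absurd h2 h1
    · have : e.1 = e'.1 := hee
      rw [Subtype.ext this]
  set ε : (ER ⊕ EB) × Bool → Fin n := fun x => cond x.2 (pt x.1).2 (pt x.1).1 with hε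
  have hεS : ∀ x, ε x ∈ S := by
    rintro ⟨e, c⟩
    cases c
    · exact (hptS e).1.1
    · exact (hptS e).1.2
  have hεinj : Function.Injective ε := by
    rintro ⟨e, c⟩ ⟨e', c'⟩ hx
    obtain ⟨⟨h1, h2⟩, h3, h4⟩ := hptS e
    obtain ⟨⟨h1', h2'⟩, h3', h4'⟩ := hptS e'
    cases c <;> cases c'
    · -- first, first
      have hx : (pt e).1 = (pt e').1 := hx
      have h5 : (pt e).2 = (pt e').2 := by
        refine good_unique hS h1 h2 h2' h3.ne ?_ h4 ?_
        · rw [hx]; exact h3'.ne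
        · rw [hx]; exact h4'
      have h6 : e = e' := hptinj (Prod.ext hx h5)
      rw [h6]
    · -- first, second
      have hx : (pt e).1 = (pt e').2 := hx
      have h5 : (pt e).2 = (pt e').1 := by
        refine good_unique hS h1 h2 h1' h3.ne ?_ h4 ?_
        · rw [hx]; exact h3'.ne'
        · rw [hx, d2_comm]; exact h4'
      rw [hx, h5] at h3
      exact absurd h3 (not_lt.mpr h3'.le)
    · -- second, first
      have hx : (pt e).2 = (pt e').1 := hx
      have h5 : (pt e).1 = (pt e').2 := by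
        refine good_unique hS h2 h1 h2' h3.ne' ?_ ?_ ?_
        · rw [hx]; exact h3'.ne
        · rw [d2_comm]; exact h4
        · rw [hx]; exact h4'
      rw [hx, h5] at h3
      exact absurd h3 (not_lt.mpr h3'.le)
    · -- second, second
      have hx : (pt e).2 = (pt e').2 := hx
      have h5 : (pt e).1 = (pt e').1 := by
        refine good_unique hS h2 h1 h1' h3.ne' ?_ ?_ ?_
        · rw [hx]; exact h3'.ne'
        · rw [d2_comm]; exact h4
        · rw [hx, d2_comm]; exact h4'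
      have h6 : e = e' := hptinj (Prod.ext h5 hx)
      rw [h6]
  have hcard : 2 * (ER.card + EB.card) ≤ h := by
    have h1 : Fintype.card ((ER ⊕ EB) × Bool) ≤ Fintype.card S :=
      Fintype.card_le_of_injective (fun x => (⟨ε x, hεS x⟩ : S))
        (fun x y hxy => hεinj (congrArg Subtype.val hxy))
    simp only [Fintype.card_prod, Fintype.card_sum, Fintype.card_coe, Fintype.card_bool] at h1
    omega
  obtain ⟨f, hfinj, hfR, hfB⟩ := hR (h / 2 - EB.card) EB.card (by omega)
  set emb : (ER ⊕ EB) → (Fin (h / 2 - EB.card) ⊕ Fin EB.card) :=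
    Sum.map (fun e => Fin.castLE (by omega) (ER.equivFin e)) (fun e => EB.equivFin e) with hemb
  have hembinj : Function.Injective emb := by
    refine Function.Injective.sumMap ?_ ?_
    · intro a b hab
      have := Fin.castLE_injective _ hab
      exact ER.equivFin.injective this
    · exact EB.equivFin.injective
  set ι : (ER ⊕ EB) × Bool → Fin h := fun x => f (emb x.1, x.2) with hι
  have hιinj : Function.Injective ι := by
    rintro ⟨e, c⟩ ⟨e', c'⟩ hx
    have h1 := hfinj hx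
    simp only [Prod.mk.injEq] at h1
    rw [hembinj h1.1, h1.2]
  obtain ⟨s0, hs0⟩ : S.Nonempty := Finset.card_pos.mp (by omega)
  set f0 : Fin h → Fin n := Function.extend ι ε (fun _ => s0) with hf0
  have hf0ι : ∀ x, f0 (ι x) = ε x := fun x => hιinj.extend_apply ε _ x
  obtain ⟨g, hg⟩ := Finset.exists_equiv_extend_of_card_eq (α := Fin h) (t := S)
    (by rw [Fintype.card_fin, hSc]) (s := Finset.univ.image ι) (f := f0)
    (by
      intro y hy
      obtain ⟨i, hi, rfl⟩ := Finset.mem_image.mp hy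
      obtain ⟨x, _, rfl⟩ := Finset.mem_image.mp hi
      rw [hf0ι]
      exact hεS x)
    (by
      intro i hi j hj hij
      obtain ⟨x, _, rfl⟩ := Finset.mem_image.mp (Finset.mem_coe.mp hi)
      obtain ⟨y, _, rfl⟩ := Finset.mem_image.mp (Finset.mem_coe.mp hj)
      rw [hf0ι, hf0ι] at hij
      rw [hεinj hij])
  have hgι : ∀ x, ((g (ι x) : S) : Fin n) = ε x := by
    intro x
    rw [hg (ι x) (Finset.mem_image_of_mem _ (Finset.mem_univ _)), hf0ι]
  have hginj : Function.Injective (fun i => ((g i : S) : Fin n)) := fun i j hij =>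
    g.injective (Subtype.ext hij)
  -- a pair which is an edge `e`
  have key : ∀ (e : ER ⊕ EB) (u v : Fin h), ((g u : S) : Fin n) = (pt e).1 →
      ((g v : S) : Fin n) = (pt e).2 → u = ι (e, false) ∧ v = ι (e, true) := by
    intro e u v hu hv
    constructor
    · apply hginj
      show ((g u : S) : Fin n) = ((g (ι (e, false)) : S) : Fin n)
      rw [hgι, hu]
      rfl
    · apply hginj
      show ((g v : S) : Fin n) = ((g (ι (e, true)) : S) : Fin n)
      rw [hgι, hv]
      rfl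
  -- the statement for ordered pairs
  have main : ∀ u v : Fin h, ((g u : S) : Fin n) < ((g v : S) : Fin n) →
      (R.Adj u v → Gr.Adj ((g u : S) : Fin n) ((g v : S) : Fin n)) ∧
      (¬ R.Adj u v → Gb.Adj ((g u : S) : Fin n) ((g v : S) : Fin n)) := by
    intro u v huv
    set x := ((g u : S) : Fin n) with hx
    set y := ((g v : S) : Fin n) with hy
    have hxS : x ∈ S := (g u).2
    have hyS : y ∈ S := (g v).2
    have hd := good_le_one hS hxS hyS huv.ne
    by_cases hr : Gr.Adj x y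
    · by_cases hb : Gb.Adj x y
      · exact ⟨fun _ => hr, fun _ => hb⟩
      · -- red only
        have hp : (x, y) ∈ ER := by
          rw [hER, mem_filter, mem_product]
          exact ⟨⟨hxS, hyS⟩, huv, hr, hb⟩
        obtain ⟨h1, h2⟩ := key (Sum.inl ⟨(x, y), hp⟩) u v rfl rfl
        refine ⟨fun _ => hr, fun h3 => absurd ?_ h3⟩
        rw [h1, h2]
        exact hfR _
    · by_cases hb : Gb.Adj x y
      · have hp : (x, y) ∈ EB := by
          rw [hEB, mem_filter, mem_product]
          exact ⟨⟨hxS, hyS⟩, huv, hr, hb⟩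
        obtain ⟨h1, h2⟩ := key (Sum.inr ⟨(x, y), hp⟩) u v rfl rfl
        refine ⟨fun h3 => absurd h3 ?_, fun _ => hb⟩
        rw [h1, h2]
        exact hfB _
      · exfalso
        unfold d2 at hd
        rw [if_neg hr, if_neg hb] at hd
        omega
  refine ⟨fun i => ((g i : S) : Fin n), hginj, fun u v huv => ?_⟩
  rcases lt_trichotomy (((g u : S) : Fin n)) ((g v : S) : Fin n) with hlt | heq | hgt
  · exact main u v hlt
  · exact absurd (hginj heq) huv
  · obtain ⟨h1, h2⟩ := main v u hgt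
    refine ⟨fun h3 => (h1 h3.symm).symm, fun h3 => (h2 (fun h4 => h3 h4.symm)).symm⟩

end Pool.Agent.Lib.MP_a05470_co
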