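import Mathlib
import Pool.Agent.Lib.MP_a05470_co.Embed

/-!
# The extremal density at `p = 1/2`
-/

open Finset Filter Topology

namespace Pool.Agent.Lib.MP_a05470_co

theorem tot_univ {n : ℕ} (Gr Gb : SimpleGraph (Fin n)) :
    (tot Gr Gb Finset.univ : ℝ) = 2 * ((Gr.edgeSet.ncard : ℝ) + (Gb.edgeSet.ncard : ℝ)) := by
  classical
  have h1 : ∀ G : SimpleGraph (Fin n), ∑ v : Fin n, ∑ u : Fin n, (if G.Adj v u then 1 else 0) =
      2 * G.edgeSet.ncard := by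
    intro G
    have h2 := G.sum_degrees_eq_twice_card_edges
    have h3 : G.edgeSet.ncard = G.edgeFinset.card := by
      rw [← SimpleGraph.coe_edgeFinset, Set.ncard_coe_finset]
    rw [h3, ← h2]
    refine Finset.sum_congr rfl fun v _ => ?_
    rw [← SimpleGraph.card_neighborFinset_eq_degree, SimpleGraph.neighborFinset_eq_filter,
      Finset.card_filter]
  have h2 : tot Gr Gb Finset.univ = 2 * Gr.edgeSet.ncard + 2 * Gb.edgeSet.ncard := by
    rw [← h1 Gr, ← h1 Gb, ← Finset.sum_add_distrib]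
    unfold tot pw
    refine Finset.sum_congr rfl fun v _ => ?_
    rw [← Finset.sum_add_distrib]
  rw [h2]
  push_cast
  ring

theorem not_contains_bot {h n : ℕ} (hh : 2 ≤ h) (R : SimpleGraph (Fin h)) :
    ¬ Contains R (⊥ : SimpleGraph (Fin n)) ⊥ := by
  rintro ⟨φ, _, hφ⟩
  have h1 := hφ ⟨0, by omega⟩ ⟨1, by omega⟩ (by simp)
  by_cases hr : R.Adj ⟨0, by omega⟩ ⟨1, by omega⟩
  · exact h1.1 hr
  · exact h1.2 hr

theorem exWeight_bddAbove (p : ℝ) (n : ℕ) {h : ℕ} (R : SimpleGraph (Fin h)) :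
    BddAbove {w : ℝ | ∃ Gr Gb : SimpleGraph (Fin n), ¬ Contains R Gr Gb ∧ w = weight p Gr Gb} := by
  apply Set.Finite.bddAbove
  refine (Set.finite_range (fun x : SimpleGraph (Fin n) × SimpleGraph (Fin n) =>
    weight p x.1 x.2)).subset ?_
  rintro w ⟨Gr, Gb, _, rfl⟩
  exact ⟨(Gr, Gb), rfl⟩

theorem exWeight_half_le {h : ℕ} (hh : 2 ≤ h) (R : SimpleGraph (Fin h))
    (hR : ∀ a b, a + b = h / 2 → HasMatching R a b) (n : ℕ) :
    exWeight (1 / 2) n R ≤ (1 - 1 / ((h : ℝ) - 1)) * (n * (n + 1) / 2) := by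
  unfold exWeight
  refine csSup_le ⟨_, ⊥, ⊥, not_contains_bot hh R, rfl⟩ ?_
  rintro w ⟨Gr, Gb, hnot, rfl⟩
  obtain ⟨r, rfl⟩ : ∃ r, h = r + 1 := ⟨h - 1, by omega⟩
  have hr : 1 ≤ r := by omega
  have hr0 : (0 : ℝ) < r := by exact_mod_cast hr
  have hle : r * tot Gr Gb Finset.univ ≤ (2 * r - 2) * (n * (n + 1)) := by
    by_contra hcon
    push Not at hcon
    obtain ⟨S, _, hSc, hS⟩ := exists_goodSet_of_tot Gr Gb r hr n Finset.univ (by simp) hcon
    exact hnot (contains_of_goodSet Gr Gb R hR S hSc (by omega) hS)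
  have hle' : (r : ℝ) * (tot Gr Gb Finset.univ : ℝ) ≤ (2 * r - 2) * (n * (n + 1)) := by
    have h1 : ((r * tot Gr Gb Finset.univ : ℕ) : ℝ) ≤ (((2 * r - 2) * (n * (n + 1)) : ℕ) : ℝ) := by
      exact_mod_cast hle
    rw [Nat.cast_mul, Nat.cast_mul, Nat.cast_sub (by omega)] at h1
    push_cast at h1
    exact h1
  rw [tot_univ] at hle'
  unfold weight
  have h2 : (1 - 1 / (((r + 1 : ℕ) : ℝ) - 1)) * (n * (n + 1) / 2) =
      ((2 * r - 2) * (n * (n + 1))) / (4 * r) := by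
    push_cast
    have : (r : ℝ) + 1 - 1 = r := by ring
    rw [this]
    field_simp
    ring
  rw [h2, le_div_iff₀ (by positivity)]
  nlinarith

open Classical in
theorem turan_le_exWeight (p : ℝ) {h : ℕ} (hh : 2 ≤ h) (R : SimpleGraph (Fin h)) (n : ℕ) :
    ((SimpleGraph.turanGraph n (h - 1)).edgeFinset.card : ℝ) ≤ exWeight p n R := by
  unfold exWeight
  refine le_csSup (exWeight_bddAbove p n R)
    ⟨SimpleGraph.turanGraph n (h - 1), SimpleGraph.turanGraph n (h - 1), ?_, ?_⟩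
  · rintro ⟨φ, hφinj, hφ⟩
    have hcf := SimpleGraph.turanGraph_cliqueFree (n := n) (r := h - 1) (by omega)
    have hadj : ∀ u v, u ≠ v → (SimpleGraph.turanGraph n (h - 1)).Adj (φ u) (φ v) := by
      intro u v huv
      by_cases hr : R.Adj u v
      · exact (hφ u v huv).1 hr
      · exact (hφ u v huv).2 hr
    refine hcf (Finset.univ.map ⟨φ, hφinj⟩) ?_
    rw [SimpleGraph.isNClique_iff]
    constructor
    · intro x hx y hy hxy
      rw [Finset.mem_coe, Finset.mem_map] at hx hy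
      obtain ⟨u, _, rfl⟩ := hx
      obtain ⟨v, _, rfl⟩ := hy
      exact hadj u v (fun huv => hxy (by rw [huv]))
    · rw [Finset.card_map, Finset.card_univ, Fintype.card_fin]
      omega
  · unfold weight
    have h3 : (SimpleGraph.turanGraph n (h - 1)).edgeSet.ncard =
        (SimpleGraph.turanGraph n (h - 1)).edgeFinset.card := by
      rw [← SimpleGraph.coe_edgeFinset, Set.ncard_coe_finset]
    rw [h3]
    ring

theorem turan_ge (n r : ℕ) (hr : 1 ≤ r) :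
    ((n : ℝ) ^ 2 - (r : ℝ) ^ 2) * ((r : ℝ) - 1) / (2 * r) - 1 ≤
      ((SimpleGraph.turanGraph n r).edgeFinset.card : ℝ) := by
  have h1 := SimpleGraph.card_edgeFinset_turanGraph (n := n) (r := r)
  have h2 : (n ^ 2 - (n % r) ^ 2) * (r - 1) / (2 * r) ≤ (SimpleGraph.turanGraph n r).edgeFinset.card := by
    rw [h1]; exact Nat.le_add_right _ _
  have hr0 : (0 : ℝ) < r := by exact_mod_cast hr
  have h3 : (((n ^ 2 - (n % r) ^ 2) * (r - 1) : ℕ) : ℝ) / ((2 * r : ℕ) : ℝ) - 1 ≤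
      (((n ^ 2 - (n % r) ^ 2) * (r - 1) / (2 * r) : ℕ) : ℝ) := by
    have h4 := Nat.lt_div_mul_add (a := (n ^ 2 - (n % r) ^ 2) * (r - 1)) (b := 2 * r) (by omega)
    have h5 : (((n ^ 2 - (n % r) ^ 2) * (r - 1) : ℕ) : ℝ) <
        (((n ^ 2 - (n % r) ^ 2) * (r - 1) / (2 * r) : ℕ) : ℝ) * ((2 * r : ℕ) : ℝ) +
          ((2 * r : ℕ) : ℝ) := by
      exact_mod_cast h4
    have h6 : (0 : ℝ) < ((2 * r : ℕ) : ℝ) := by push_cast; linarith
    rw [sub_le_iff_le_add, div_le_iff₀ h6]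
    nlinarith
  have h7 : n % r < r := Nat.mod_lt _ (by omega)
  have h8 : ((n % r : ℕ) : ℝ) ^ 2 ≤ (r : ℝ) ^ 2 := by
    have : ((n % r : ℕ) : ℝ) ≤ r := by exact_mod_cast h7.le
    gcongr
  have h9 : (n % r) ^ 2 ≤ n ^ 2 := Nat.pow_le_pow_left (Nat.mod_le _ _) 2
  have h10 : ((n : ℝ) ^ 2 - (r : ℝ) ^ 2) * ((r : ℝ) - 1) / (2 * r) ≤
      (((n ^ 2 - (n % r) ^ 2) * (r - 1) : ℕ) : ℝ) / ((2 * r : ℕ) : ℝ) := by
    rw [Nat.cast_mul, Nat.cast_sub h9, Nat.cast_sub hr]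
    push_cast
    have : (0 : ℝ) ≤ (r : ℝ) - 1 := by
      have : (1 : ℝ) ≤ r := by exact_mod_cast hr
      linarith
    gcongr
  have h11 : (((n ^ 2 - (n % r) ^ 2) * (r - 1) / (2 * r) : ℕ) : ℝ) ≤
      ((SimpleGraph.turanGraph n r).edgeFinset.card : ℝ) := by exact_mod_cast h2
  linarith

/-- **The density theorem.** -/
theorem tendsto_exWeight {h : ℕ} (hh : 2 ≤ h) (R : SimpleGraph (Fin h))
    (hR : ∀ a b, a + b = h / 2 → HasMatching R a b) :
    Tendsto (fun n : ℕ => exWeight (1 / 2) n R / (n.choose 2 : ℝ)) atTop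
      (𝓝 (1 - 1 / ((h : ℝ) - 1))) := by
  obtain ⟨r, rfl⟩ : ∃ r, h = r + 1 := ⟨h - 1, by omega⟩
  have hr : 1 ≤ r := by omega
  have hr0 : (0 : ℝ) < r := by exact_mod_cast hr
  have hcast : (((r + 1 : ℕ) : ℝ) - 1) = r := by push_cast; ring
  have hinv : Tendsto (fun n : ℕ => ((n : ℝ))⁻¹) atTop (𝓝 0) := tendsto_inv_atTop_nhds_zero_nat
  -- the upper function
  have hup : Tendsto (fun n : ℕ => (1 - 1 / (r : ℝ)) * ((1 + (n : ℝ)⁻¹) / (1 - (n : ℝ)⁻¹))) atTop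
      (𝓝 (1 - 1 / (r : ℝ))) := by
    have h1 : Tendsto (fun n : ℕ => (1 - 1 / (r : ℝ)) * ((1 + (n : ℝ)⁻¹) / (1 - (n : ℝ)⁻¹))) atTop
        (𝓝 ((1 - 1 / (r : ℝ)) * ((1 + 0) / (1 - 0)))) := by
      refine Tendsto.const_mul _ (Tendsto.div ?_ ?_ (by norm_num))
      · exact hinv.const_add 1
      · exact hinv.const_sub 1
    simpa using h1
  have hlow : Tendsto (fun n : ℕ => (((1 - (r : ℝ) ^ 2 * ((n : ℝ)⁻¹) ^ 2) * ((r : ℝ) - 1) / r -
      2 * ((n : ℝ)⁻¹) ^ 2) / (1 - (n : ℝ)⁻¹))) atTop (𝓝 (1 - 1 / (r : ℝ))) := by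
    have hsq : Tendsto (fun n : ℕ => ((n : ℝ)⁻¹) ^ 2) atTop (𝓝 0) := by
      have := hinv.pow 2
      simpa using this
    have h1 : Tendsto (fun n : ℕ => (((1 - (r : ℝ) ^ 2 * ((n : ℝ)⁻¹) ^ 2) * ((r : ℝ) - 1) / r -
        2 * ((n : ℝ)⁻¹) ^ 2) / (1 - (n : ℝ)⁻¹))) atTop
        (𝓝 (((1 - (r : ℝ) ^ 2 * 0) * ((r : ℝ) - 1) / r - 2 * 0) / (1 - 0))) := by
      refine Tendsto.div ?_ (hinv.const_sub 1) (by norm_num)
      refine Tendsto.sub ?_ (hsq.const_mul 2)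
      refine Tendsto.div_const (Tendsto.mul_const _ ?_) _
      exact (hsq.const_mul _).const_sub 1
    have h2 : (((1 - (r : ℝ) ^ 2 * 0) * ((r : ℝ) - 1) / r - 2 * 0) / (1 - 0)) = 1 - 1 / (r : ℝ) := by
      field_simp
      ring
    rwa [h2] at h1
  rw [hcast]
  refine tendsto_of_tendsto_of_tendsto_of_le_of_le' hlow hup ?_ ?_
  · filter_upwards [eventually_ge_atTop (r + 2)] with n hn
    have hnr : (2 : ℝ) ≤ n := by
      have : 2 ≤ n := by omega
      exact_mod_cast this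
    have h1 := turan_ge n r hr
    have h2 := turan_le_exWeight (1 / 2) hh R n
    rw [Nat.add_sub_cancel] at h2
    have hch : (n.choose 2 : ℝ) = n * (n - 1) / 2 := Nat.cast_choose_two ℝ n
    have hchpos : (0 : ℝ) < n.choose 2 := by rw [hch]; nlinarith
    rw [le_div_iff₀ hchpos]
    refine le_trans (le_of_eq ?_) (h1.trans ?_)
    · rw [hch]
      have hn0 : (n : ℝ) ≠ 0 := by linarith
      have hn1 : (n : ℝ) - 1 ≠ 0 := by linarith
      have hn2 : 1 - (n : ℝ)⁻¹ ≠ 0 := by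
        intro h
        have : (n : ℝ)⁻¹ = 1 := by linarith
        rw [inv_eq_one] at this
        linarith
      have e : (1 - (n : ℝ)⁻¹) = (n - 1) / n := by field_simp
      rw [e]
      field_simp
    · convert h2
  · filter_upwards [eventually_ge_atTop 2] with n hn
    have hnr : (2 : ℝ) ≤ n := by exact_mod_cast hn
    have h1 := exWeight_half_le hh R hR n
    rw [hcast] at h1
    have hch : (n.choose 2 : ℝ) = n * (n - 1) / 2 := Nat.cast_choose_two ℝ n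
    have hchpos : (0 : ℝ) < n.choose 2 := by rw [hch]; nlinarith
    rw [div_le_iff₀ hchpos]
    refine h1.trans (le_of_eq ?_)
    rw [hch]
    have hn0 : (n : ℝ) ≠ 0 := by linarith
    have hn1 : (n : ℝ) - 1 ≠ 0 := by linarith
    have e : (1 - (n : ℝ)⁻¹) = (n - 1) / n := by field_simp
    have e2 : (1 + (n : ℝ)⁻¹) = (n + 1) / n := by field_simp
    rw [e, e2]
    field_simp

end Pool.Agent.Lib.MP_a05470_co
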