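import Pool.Agent.Lib.MP_a05470_co.ClaimE
import Pool.Agent.Lib.MP_a05470_co.Odd

set_option autoImplicit false

namespace Pool.Agent.Lib.MP_a05470_co

open Finset Classical

section Even

variable {n : ℕ} {V : Type} {Gr Gb : SimpleGraph (Fin n)} {H : SimpleGraph V}

theorem IsFam.swap {F : Finset (Finset (Fin n))} (hF : IsFam Gr Gb F) : IsFam Gb Gr F := by
  refine ⟨fun C hC => ⟨(hF.1 C hC).1, ?_⟩, ?_⟩
  · intro x hx y hy hxy
    have := (hF.1 C hC).2 x hx y hy hxy
    tauto
  · intro C hC D hD hCD x hx y hy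
    exact (hF.2 C hC D hD hCD x hx y hy).symm

/-- boxes with a blue pair take blue pairs, the others are red boxes -/
theorem packable_peel_even {q : ℕ} (b : ℕ) : ∀ {Ib Ir : Finset (Finset (Fin n))}, Ib.card = b →
    (∀ C ∈ Ib ∪ Ir, C.Nonempty) → (∀ C ∈ Ib, ∃ p ∈ C, ∃ q ∈ C, Gb.Adj p q) →
    (∀ C ∈ Ir, ∀ x ∈ C, ∀ y ∈ C, x ≠ y → Gr.Adj x y) → Disjoint Ib Ir →
    (∀ k : ℕ, 1 ≤ k → ((k : ℤ) - 1) * (q - 1) + 2 * q ≤
      k * Ir.card + (Ir.filter (fun C => k < C.card)).card) →
    ∀ {X : Finset V}, Peel H q b X → X.card = 2 * q + 2 * b →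
    Packable H Gr Gb X (Ib ∪ Ir) := by
  induction b with
  | zero =>
    intro Ib Ir hIb hne _ hIr _ hyp X hP hX
    rw [Finset.card_eq_zero] at hIb
    subst hIb
    rw [Finset.empty_union] at hne ⊢
    obtain ⟨ι, c, hc, hK⟩ := Cov.col hP
    apply packable_red Ir.card rfl hne hIr hc
    intro k hk
    have h1 := hyp k hk
    have h2 : ((X.image c).card : ℤ) ≤ q := by exact_mod_cast hK
    have h3 : (X.card : ℤ) = 2 * q := by exact_mod_cast hX
    have h4 : (1 : ℤ) ≤ k := by exact_mod_cast hk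
    rw [h3]
    nlinarith
  | succ b ih =>
    intro Ib Ir hIb hne hblue hIr hdisj hyp X hP hX
    have hIbne : Ib.Nonempty := by
      rw [← Finset.card_pos]
      omega
    obtain ⟨C, hC⟩ := hIbne
    obtain ⟨u, hu, w, hw, huw, hP'⟩ := hP
    have hcard := card_sdiff_pair hu hw (Hᶜ.ne_of_adj huw)
    have g1 : ∀ D ∈ Ib.erase C ∪ Ir, D.Nonempty := by
      intro D hD
      apply hne
      rw [Finset.mem_union] at hD ⊢
      exact hD.imp Finset.mem_of_mem_erase id
    have h1 : Packable H Gr Gb (X \ {u, w}) (Ib.erase C ∪ Ir) :=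
      ih (by rw [Finset.card_erase_of_mem hC]; omega) g1
        (fun D hD => hblue D (Finset.mem_of_mem_erase hD)) hIr
        (hdisj.mono_left (Finset.erase_subset C Ib)) hyp hP' (by omega)
    obtain ⟨p, hp, q, hq, hpq⟩ := hblue C hC
    have h2 := (packable_box (loc_blue (Gr := Gr) hp hq hpq huw)).union h1 (by
      rw [Finset.disjoint_singleton_left, Finset.mem_union]
      rintro (h | h)
      · exact Finset.notMem_erase C Ib h
      · exact Finset.disjoint_left.1 hdisj hC h)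
    have h3 : ({C} : Finset (Finset (Fin n))) ∪ (Ib.erase C ∪ Ir) = Ib ∪ Ir := by
      rw [← Finset.union_assoc, ← Finset.insert_eq, Finset.insert_erase hC]
    have h4 : ({u, w} : Finset V) ∪ (X \ {u, w}) = X := by
      apply Finset.union_sdiff_of_subset
      intro z hz
      rw [Finset.mem_insert, Finset.mem_singleton] at hz
      rcases hz with rfl | rfl
      · exact hu
      · exact hw
    rwa [h3, h4] at h2

theorem packable_case_even [Fintype V] {F : Finset (Finset (Fin n))} (hF : IsFam Gr Gb F)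
    {m : ℕ} (hV : Fintype.card V = 2 * m) (hcov : Cov H m Finset.univ)
    (hng : ¬ NG H m Finset.univ) (hb : HasMat Hᶜ Finset.univ (boxesOf Gb F).card)
    (hbm : (boxesOf Gb F).card + 2 ≤ m)
    (hk : ∀ k : ℕ, (2 * (m : ℤ) - 1) * (k + 1) + 1 ≤
      2 * (k * F.card + (F.filter (fun C => k < C.card)).card)) :
    Packable H Gr Gb Finset.univ F := by
  have hne : ∀ C ∈ F, C.Nonempty := fun C hC => (hF.1 C hC).1
  have hsub := boxesOf_subset Gb F
  have hun : boxesOf Gb F ∪ (F \ boxesOf Gb F) = F := Finset.union_sdiff_of_subset hsub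
  have h1 : ∀ C ∈ boxesOf Gb F ∪ (F \ boxesOf Gb F), C.Nonempty := by
    rw [hun]
    exact hne
  have h2 : ∀ C ∈ boxesOf Gb F, ∃ p ∈ C, ∃ q ∈ C, Gb.Adj p q := by
    intro C hC
    unfold boxesOf at hC
    exact (Finset.mem_filter.1 hC).2
  have h3 : ∀ C ∈ F \ boxesOf Gb F, ∀ x ∈ C, ∀ y ∈ C, x ≠ y → Gr.Adj x y := by
    intro C hC x hx y hy hxy
    rw [Finset.mem_sdiff] at hC
    rw [(hF.1 C hC.1).2 x hx y hy hxy]
    intro h
    apply hC.2
    unfold boxesOf
    rw [Finset.mem_filter]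
    exact ⟨hC.1, x, hx, y, hy, h⟩
  have hcardV : (Finset.univ : Finset V).card = 2 * m := by
    rw [Finset.card_univ]
    exact hV
  have hpeel := peel_all hcardV hcov hb hbm hng
  have hqm : ((m - (boxesOf Gb F).card : ℕ) : ℤ) = (m : ℤ) - (boxesOf Gb F).card := by
    push_cast [show (boxesOf Gb F).card ≤ m by omega]
    ring
  have h4 : ∀ k : ℕ, 1 ≤ k → ((k : ℤ) - 1) * (((m - (boxesOf Gb F).card : ℕ) : ℤ) - 1) +
      2 * ((m - (boxesOf Gb F).card : ℕ) : ℤ) ≤
      k * (F \ boxesOf Gb F).card + ((F \ boxesOf Gb F).filter (fun C => k < C.card)).card := by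
    intro k hk1
    have h1 := hk k
    have h2 : ((F \ boxesOf Gb F).card : ℤ) = F.card - (boxesOf Gb F).card := by
      have := Finset.card_sdiff_add_card_eq_card hsub
      have h3 : ((F \ boxesOf Gb F).card : ℤ) + (boxesOf Gb F).card = F.card := by
        exact_mod_cast this
      linarith
    have h3 : (F.filter (fun C => k < C.card)).card ≤
        ((F \ boxesOf Gb F).filter (fun C => k < C.card)).card + (boxesOf Gb F).card := by
      have h4 : F.filter (fun C => k < C.card) ⊆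
          ((F \ boxesOf Gb F).filter (fun C => k < C.card)) ∪ boxesOf Gb F := by
        intro C hC
        rw [Finset.mem_filter] at hC
        rw [Finset.mem_union, Finset.mem_filter, Finset.mem_sdiff]
        by_cases h : C ∈ boxesOf Gb F
        · exact Or.inr h
        · exact Or.inl ⟨⟨hC.1, h⟩, hC.2⟩
      exact (Finset.card_le_card h4).trans (Finset.card_union_le _ _)
    have h5 : ((F.filter (fun C => k < C.card)).card : ℤ) ≤
        ((F \ boxesOf Gb F).filter (fun C => k < C.card)).card + (boxesOf Gb F).card := by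
      exact_mod_cast h3
    rw [h2, hqm]
    rcases Nat.lt_or_ge k 2 with hk2 | hk2
    · have hk1' : k = 1 := by omega
      subst hk1'
      push_cast at h1 ⊢
      omega
    · have hk2' : (2 : ℤ) ≤ k := by exact_mod_cast hk2
      nlinarith
  have h5 := packable_peel_even (H := H) (Gr := Gr) (Gb := Gb)
    (q := m - (boxesOf Gb F).card) (boxesOf Gb F).card rfl h1 h2 h3
    Finset.disjoint_sdiff h4 hpeel (by rw [hcardV]; omega)
  rwa [hun] at h5

/-- the cases in which only one colour is used for the pairs -/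
theorem packable_side [Fintype V] {F : Finset (Finset (Fin n))} (hF : IsFam Gr Gb F)
    {m : ℕ} (hV : Fintype.card V = 2 * m) (hcov : Cov H m Finset.univ)
    (hng : ¬ NG H m Finset.univ) (hb : HasMat Hᶜ Finset.univ (boxesOf Gb F).card)
    (hk : ∀ k : ℕ, (2 * (m : ℤ) - 1) * (k + 1) + 1 ≤
      2 * (k * F.card + (F.filter (fun C => k < C.card)).card)) (hN : m ≤ F.card)
    (hN1 : 2 * m ≤ F.card + (F.filter (fun C => 1 < C.card)).card) :
    Packable H Gr Gb Finset.univ F ∨ ((boxesOf Gb F).card + 1 = m ∧ F.card = m) := by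
  by_cases h1 : (boxesOf Gb F).card + 2 ≤ m
  · exact Or.inl (packable_case_even hF hV hcov hng hb h1 hk)
  · by_cases h2 : 2 * m ≤ F.card + (boxesOf Gb F).card
    · left
      obtain ⟨T, hT, hTc⟩ := hb.mono (b := 2 * m - F.card) (by omega)
      have hR : IsMat H Finset.univ (∅ : Finset (Finset V)) := ⟨by simp, by simp⟩
      apply packable_pairs hF hT hR
      · intro e _ f hf
        simp at hf
      · omega
      · simp
      · rw [Finset.card_empty]
        omega
      · rw [Finset.card_empty]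
        omega
    · right
      omega

theorem pair_cases {x y x' y' : V} (h : ({x, y} : Finset V) = {x', y'}) :
    (x = x' ∧ y = y') ∨ (x = y' ∧ y = x') := by
  have h1 : (({x, y} : Finset V) : Set V) = (({x', y'} : Finset V) : Set V) := by rw [h]
  rw [Finset.coe_pair, Finset.coe_pair] at h1
  exact Set.pair_eq_pair_iff.1 h1

/-- there are a red pair and a blue pair which are disjoint -/
def Mixed (H : SimpleGraph V) : Prop :=
  ∃ x y z t, H.Adj x y ∧ Hᶜ.Adj z t ∧ x ≠ z ∧ x ≠ t ∧ y ≠ z ∧ y ≠ t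

theorem isMat_insert {B : SimpleGraph V} {X : Finset V} {T : Finset (Finset V)} {u w : V}
    (hu : u ∈ X) (hw : w ∈ X) (huw : B.Adj u w) (hT : IsMat B (X \ {u, w}) T) :
    IsMat B X (insert {u, w} T) ∧ (insert {u, w} T).card = T.card + 1 := by
  have hd : ∀ f ∈ T, Disjoint {u, w} f := by
    intro f hf
    rw [Finset.disjoint_left]
    intro z hz hzf
    have h2 : z ∈ T.biUnion id := by
      rw [Finset.mem_biUnion]
      exact ⟨f, hf, hzf⟩
    have h3 := hT.biUnion_subset h2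
    rw [Finset.mem_sdiff] at h3
    exact h3.2 hz
  have hnot : ({u, w} : Finset V) ∉ T := by
    intro h
    have h1 := hd _ h
    rw [Finset.disjoint_self_iff_empty] at h1
    exact Finset.insert_ne_empty _ _ h1
  refine ⟨⟨?_, ?_⟩, ?_⟩
  · intro e he
    rcases Finset.mem_insert.1 he with rfl | he
    · exact ⟨u, hu, w, hw, huw, rfl⟩
    · obtain ⟨p, hp, q, hq, hpq, rfl⟩ := hT.1 e he
      exact ⟨p, (Finset.mem_sdiff.1 hp).1, q, (Finset.mem_sdiff.1 hq).1, hpq, rfl⟩
  · intro e he f hf hef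
    rcases Finset.mem_insert.1 he with he' | he'
    · rcases Finset.mem_insert.1 hf with hf' | hf'
      · exact absurd (he'.trans hf'.symm) hef
      · rw [he']
        exact hd f hf'
    · rcases Finset.mem_insert.1 hf with hf' | hf'
      · rw [hf']
        exact (hd e he').symm
      · exact hT.2 e he' f hf' hef
  · rw [Finset.card_insert_of_notMem hnot]

/-- a perfect pairing with a red pair and a blue pair -/
theorem exists_mixed_pairing [Fintype V] {m : ℕ} (hV : Fintype.card V = 2 * m) (hmix : Mixed H) :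
    ∃ Tb Tr : Finset (Finset V), IsMat Hᶜ Finset.univ Tb ∧ IsMat H Finset.univ Tr ∧
      (∀ e ∈ Tb, ∀ f ∈ Tr, Disjoint e f) ∧ Tb.card + Tr.card = m ∧ 1 ≤ Tb.card ∧ 1 ≤ Tr.card := by
  obtain ⟨x, y, z, t, hxy, hzt, n1, n2, n3, n4⟩ := hmix
  have hzt' : z ≠ t ∧ ¬ H.Adj z t := by
    rw [SimpleGraph.compl_adj] at hzt
    exact hzt
  have hxm : x ∈ (Finset.univ : Finset V) := Finset.mem_univ x
  have hym : y ∈ (Finset.univ : Finset V) := Finset.mem_univ y
  have hzm : z ∈ (Finset.univ : Finset V) \ {x, y} := by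
    simp only [Finset.mem_sdiff, Finset.mem_insert, Finset.mem_singleton, not_or]
    exact ⟨Finset.mem_univ z, Ne.symm n1, Ne.symm n3⟩
  have htm : t ∈ (Finset.univ : Finset V) \ {x, y} := by
    simp only [Finset.mem_sdiff, Finset.mem_insert, Finset.mem_singleton, not_or]
    exact ⟨Finset.mem_univ t, Ne.symm n2, Ne.symm n4⟩
  have hc1 := card_sdiff_pair hxm hym (H.ne_of_adj hxy)
  have hc2 := card_sdiff_pair hzm htm hzt'.1
  rw [Finset.card_univ, hV] at hc1
  obtain ⟨T, hT, hTc⟩ := exists_pairs (V := V) (m - 2)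
    (X := (Finset.univ \ {x, y}) \ {z, t}) (by omega)
  obtain ⟨hT1, hT1c⟩ := isMat_insert hzm htm (B := ⊤) hzt'.1 hT
  obtain ⟨hT2, hT2c⟩ := isMat_insert hxm hym (B := ⊤) (H.ne_of_adj hxy) hT1
  set T2 := insert {x, y} (insert {z, t} T) with hT2def
  have hB : IsMat Hᶜ Finset.univ (T2.filter (fun e => ∃ x y, Hᶜ.Adj x y ∧ e = {x, y})) := by
    refine ⟨?_, (hT2.sub (Finset.filter_subset _ _)).2⟩
    intro e he
    rw [Finset.mem_filter] at he
    obtain ⟨x, y, hxy, rfl⟩ := he.2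
    exact ⟨x, Finset.mem_univ x, y, Finset.mem_univ y, hxy, rfl⟩
  have hR : IsMat H Finset.univ (T2.filter (fun e => ¬ ∃ x y, Hᶜ.Adj x y ∧ e = {x, y})) := by
    refine ⟨?_, (hT2.sub (Finset.filter_subset _ _)).2⟩
    intro e he
    rw [Finset.mem_filter] at he
    obtain ⟨x, _, y, _, hxy, rfl⟩ := hT2.1 e he.1
    refine ⟨x, Finset.mem_univ x, y, Finset.mem_univ y, ?_, rfl⟩
    by_contra hcon
    exact he.2 ⟨x, y, by rw [SimpleGraph.compl_adj]; exact ⟨hxy, hcon⟩, rfl⟩
  refine ⟨_, _, hB, hR, ?_, ?_, ?_, ?_⟩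
  · intro e he f hf
    rw [Finset.mem_filter] at he hf
    apply hT2.2 e he.1 f hf.1
    intro h
    rw [h] at he
    exact hf.2 he.2
  · rw [Finset.card_filter_add_card_filter_not, hT2c, hT1c, hTc]
    omega
  · rw [Nat.one_le_iff_ne_zero, ← Nat.pos_iff_ne_zero, Finset.card_pos]
    refine ⟨{z, t}, ?_⟩
    rw [Finset.mem_filter, hT2def]
    exact ⟨by simp, z, t, hzt, rfl⟩
  · rw [Nat.one_le_iff_ne_zero, ← Nat.pos_iff_ne_zero, Finset.card_pos]
    refine ⟨{x, y}, ?_⟩
    rw [Finset.mem_filter, hT2def]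
    refine ⟨by simp, ?_⟩
    rintro ⟨p, q, hpq, he⟩
    rw [SimpleGraph.compl_adj] at hpq
    rcases pair_cases he with ⟨rfl, rfl⟩ | ⟨rfl, rfl⟩
    · exact hpq.2 hxy
    · exact hpq.2 hxy.symm

theorem packable_mixed [Fintype V] {F : Finset (Finset (Fin n))} (hF : IsFam Gr Gb F)
    {m : ℕ} (hV : Fintype.card V = 2 * m) (hmix : Mixed H) (hN : F.card = m)
    (hN1 : 2 * m ≤ F.card + (F.filter (fun C => 1 < C.card)).card)
    (hb : m ≤ (boxesOf Gb F).card + 1 ∨ ¬ HasMat Hᶜ Finset.univ (boxesOf Gb F).card)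
    (hr : m ≤ (boxesOf Gr F).card + 1 ∨ ¬ HasMat H Finset.univ (boxesOf Gr F).card) :
    Packable H Gr Gb Finset.univ F := by
  obtain ⟨Tb, Tr, hB, hR, hdisj, hsum, h1, h2⟩ := exists_mixed_pairing hV hmix
  apply packable_pairs hF hB hR hdisj
  · rcases hb with hb | hb
    · omega
    · by_contra hcon
      exact hb (HasMat.mono ⟨_, hB, rfl⟩ (not_le.1 hcon).le)
  · rcases hr with hr | hr
    · omega
    · by_contra hcon
      exact hr (HasMat.mono ⟨_, hR, rfl⟩ (not_le.1 hcon).le)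
  · omega
  · omega

theorem contains_even [Fintype V] {m : ℕ} (hV : Fintype.card V = 2 * m)
    (h1 : Cov H m Finset.univ) (h2 : Cov Hᶜ m Finset.univ) (hn1 : ¬ NG H m Finset.univ)
    (hn2 : ¬ NG Hᶜ m Finset.univ) (hmix : Mixed H)
    {F : Finset (Finset (Fin n))} (hF : IsFam Gr Gb F)
    (hk : ∀ k : ℕ, (2 * (m : ℤ) - 1) * (k + 1) + 1 ≤
      2 * (k * F.card + (F.filter (fun C => k < C.card)).card)) : Contains H Hᶜ Gr Gb := by
  apply contains_of_packable hF
  have hN : m ≤ F.card := by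
    have h3 := hk 0
    have h4 : (F.filter (fun C => 0 < C.card)).card ≤ F.card := Finset.card_filter_le _ _
    push_cast at h3
    omega
  have hN1 : 2 * m ≤ F.card + (F.filter (fun C => 1 < C.card)).card := by
    have h3 := hk 1
    push_cast at h3
    omega
  have hsw : HasMat H Finset.univ (boxesOf Gr F).card → Packable H Gr Gb Finset.univ F ∨
      ((boxesOf Gr F).card + 1 = m ∧ F.card = m) := by
    intro hr
    rcases packable_side (H := Hᶜ) hF.swap hV h2 hn2 (by rwa [compl_compl]) hk hN hN1 with h | h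
    · left
      have h4 := h.swap
      rwa [compl_compl] at h4
    · exact Or.inr h
  by_cases hb : HasMat Hᶜ Finset.univ (boxesOf Gb F).card
  · rcases packable_side hF hV h1 hn1 hb hk hN hN1 with h | ⟨hb1, hN2⟩
    · exact h
    · by_cases hr : HasMat H Finset.univ (boxesOf Gr F).card
      · rcases hsw hr with h | ⟨hr1, _⟩
        · exact h
        · exact packable_mixed hF hV hmix hN2 hN1 (Or.inl hb1.ge) (Or.inl hr1.ge)
      · exact packable_mixed hF hV hmix hN2 hN1 (Or.inl hb1.ge) (Or.inr hr)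
  · by_cases hr : HasMat H Finset.univ (boxesOf Gr F).card
    · rcases hsw hr with h | ⟨hr1, hN2⟩
      · exact h
      · exact packable_mixed hF hV hmix hN2 hN1 (Or.inr hb) (Or.inl hr1.ge)
    · apply packable_both hF hb hr
      rw [hV]
      exact hN1

theorem cov_of_colorable [Fintype V] {k : ℕ} (h : Hᶜ.Colorable k) : Cov H k Finset.univ := by
  obtain ⟨C⟩ := h
  apply cov_of_col (c := C)
  · intro x _ y _ hxy hc
    by_contra hcon
    exact C.valid (show Hᶜ.Adj x y by rw [SimpleGraph.compl_adj]; exact ⟨hxy, hcon⟩) hc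
  · refine (Finset.card_le_univ _).trans (le_of_eq ?_)
    simp

theorem exists_adj [Fintype V] {k : ℕ} (h : Hᶜ.Colorable k) (hk : k < Fintype.card V) :
    ∃ x y, H.Adj x y := by
  obtain ⟨C⟩ := h
  obtain ⟨x, y, hxy, hc⟩ := Fintype.exists_ne_map_eq_of_card_lt C (by simpa using hk)
  refine ⟨x, y, ?_⟩
  by_contra hcon
  exact C.valid (show Hᶜ.Adj x y by rw [SimpleGraph.compl_adj]; exact ⟨hxy, hcon⟩) hc

theorem cov_one {X : Finset V} (h : Cov H 1 X) {r s : V} (hr : r ∈ X) (hs : s ∈ X)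
    (hrs : r ≠ s) : H.Adj r s := by
  obtain ⟨P, h1, h2, h3⟩ := h
  obtain ⟨K, hK, hrK⟩ := h2 r hr
  obtain ⟨L, hL, hsL⟩ := h2 s hs
  have hKL : K = L := Finset.card_le_one.1 h1 K hK L hL
  rw [← hKL] at hsL
  exact h3 K hK r hrK s hsL hrs

theorem mixed_four [Fintype V] (hV : Fintype.card V = 4) (hcov : Cov H 2 Finset.univ)
    (hng : ¬ NG H 2 Finset.univ) (hblue : ∃ x y, Hᶜ.Adj x y) : Mixed H := by
  by_contra hmix
  have key : ∀ p q, Hᶜ.Adj p q → ∃ r s, r ≠ s ∧ r ≠ p ∧ r ≠ q ∧ s ≠ p ∧ s ≠ q ∧ ¬ H.Adj r s := by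
    intro p q hpq
    have hc := card_sdiff_pair (Finset.mem_univ p) (Finset.mem_univ q) (Hᶜ.ne_of_adj hpq)
    rw [Finset.card_univ, hV] at hc
    obtain ⟨r, s, hrs, he⟩ := Finset.card_eq_two.1 (show (Finset.univ \ {p, q}).card = 2 by omega)
    have hr : r ∈ Finset.univ \ {p, q} := by rw [he]; simp
    have hs : s ∈ Finset.univ \ {p, q} := by rw [he]; simp
    simp only [Finset.mem_sdiff, Finset.mem_insert, Finset.mem_singleton, not_or] at hr hs
    exact ⟨r, s, hrs, hr.2.1, hr.2.2, hs.2.1, hs.2.2, fun h =>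
      hmix ⟨r, s, p, q, h, hpq, hr.2.1, hr.2.2, hs.2.1, hs.2.2⟩⟩
  apply hng
  refine ⟨⟨by rw [Finset.card_univ, hV], hcov, ?_⟩, ?_⟩
  · intro u _ hcu
    obtain ⟨p, q, hpq⟩ := hblue
    have hne := Hᶜ.ne_of_adj hpq
    have hpq' : ¬ H.Adj p q := by
      rw [SimpleGraph.compl_adj] at hpq
      exact hpq.2
    obtain ⟨r, s, hrs, n1, n2, n3, n4, hn⟩ := key p q hpq
    by_cases hpu : p = u
    · apply hn
      apply cov_one hcu _ _ hrs
      · rw [← hpu]
        exact Finset.mem_erase.2 ⟨n1, Finset.mem_univ r⟩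
      · rw [← hpu]
        exact Finset.mem_erase.2 ⟨n3, Finset.mem_univ s⟩
    · by_cases hqu : q = u
      · apply hn
        apply cov_one hcu _ _ hrs
        · rw [← hqu]
          exact Finset.mem_erase.2 ⟨n2, Finset.mem_univ r⟩
        · rw [← hqu]
          exact Finset.mem_erase.2 ⟨n4, Finset.mem_univ s⟩
      · apply hpq'
        exact cov_one hcu (Finset.mem_erase.2 ⟨hpu, Finset.mem_univ p⟩)
          (Finset.mem_erase.2 ⟨hqu, Finset.mem_univ q⟩) hne
  · intro p _ q _ hpq hc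
    obtain ⟨r, s, hrs, n1, n2, n3, n4, hn⟩ := key p q hpq
    apply hn
    apply cov_one hc _ _ hrs
    · simp only [Finset.mem_sdiff, Finset.mem_insert, Finset.mem_singleton, not_or]
      exact ⟨Finset.mem_univ r, n1, n2⟩
    · simp only [Finset.mem_sdiff, Finset.mem_insert, Finset.mem_singleton, not_or]
      exact ⟨Finset.mem_univ s, n3, n4⟩

theorem mixed_large [Fintype V] (hV : 5 ≤ Fintype.card V) (hred : ∃ x y, H.Adj x y)
    (hblue : ∃ x y, Hᶜ.Adj x y) : Mixed H := by
  by_contra hmix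
  obtain ⟨x, y, hxy⟩ := hred
  obtain ⟨p, q, hpq⟩ := hblue
  have key : ∀ a b, H.Adj a b → ∀ c d, c ≠ d → a ≠ c → a ≠ d → b ≠ c → b ≠ d → H.Adj c d := by
    intro a b hab c d hcd n1 n2 n3 n4
    by_contra hcon
    exact hmix ⟨a, b, c, d, hab, compl_adj_of hcd hcon, n1, n2, n3, n4⟩
  have hpq' : ¬ H.Adj p q := by
    rw [SimpleGraph.compl_adj] at hpq
    exact hpq.2
  have hne := Hᶜ.ne_of_adj hpq
  have hnxy := H.ne_of_adj hxy
  -- two vertices outside x, y, and one of p, q
  have h3 : ∀ v, ∃ c d, c ≠ d ∧ c ≠ x ∧ c ≠ y ∧ c ≠ v ∧ d ≠ x ∧ d ≠ y ∧ d ≠ v := by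
    intro v
    have h4 : ({x, y, v} : Finset V).card ≤ 3 := Finset.card_le_three
    have h5 : (Finset.univ \ {x, y, v} : Finset V).card + ({x, y, v} : Finset V).card =
        (Finset.univ : Finset V).card :=
      Finset.card_sdiff_add_card_eq_card (Finset.subset_univ _)
    rw [Finset.card_univ] at h5
    obtain ⟨c, hc, d, hd, hcd⟩ := Finset.one_lt_card.1
      (show 1 < (Finset.univ \ {x, y, v} : Finset V).card by omega)
    simp only [Finset.mem_sdiff, Finset.mem_insert, Finset.mem_singleton, not_or] at hc hd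
    exact ⟨c, d, hcd, hc.2.1, hc.2.2.1, hc.2.2.2, hd.2.1, hd.2.2.1, hd.2.2.2⟩
  by_cases hp : p = x ∨ p = y
  · obtain ⟨c, d, hcd, c1, c2, c3, d1, d2, d3⟩ := h3 q
    have hcd' := key x y hxy c d hcd (Ne.symm c1) (Ne.symm d1) (Ne.symm c2) (Ne.symm d2)
    have hcp : c ≠ p ∧ d ≠ p := by
      rcases hp with rfl | rfl
      · exact ⟨c1, d1⟩
      · exact ⟨c2, d2⟩
    exact hpq' (key c d hcd' p q hne hcp.1 c3 hcp.2 d3)
  · by_cases hq : q = x ∨ q = y
    · obtain ⟨c, d, hcd, c1, c2, c3, d1, d2, d3⟩ := h3 p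
      have hcd' := key x y hxy c d hcd (Ne.symm c1) (Ne.symm d1) (Ne.symm c2) (Ne.symm d2)
      have hcq : c ≠ q ∧ d ≠ q := by
        rcases hq with rfl | rfl
        · exact ⟨c1, d1⟩
        · exact ⟨c2, d2⟩
      exact hpq' (key c d hcd' p q hne c3 hcq.1 d3 hcq.2)
    · rw [not_or] at hp hq
      exact hpq' (key x y hxy p q hne (Ne.symm hp.1) (Ne.symm hq.1) (Ne.symm hp.2)
        (Ne.symm hq.2))

theorem forces_even [Fintype V] {m : ℕ} (hm : 2 ≤ m) (hV : Fintype.card V = 2 * m)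
    (h1 : H.Colorable m) (h2 : Hᶜ.Colorable m) (hn1 : ¬ NG H m Finset.univ)
    (hn2 : ¬ NG Hᶜ m Finset.univ) : Forces ((m : ℝ) - 1 / 2) ((m : ℝ) - 1 / 2) H Hᶜ := by
  have hred : ∃ x y, H.Adj x y := exists_adj h2 (by omega)
  have hblue : ∃ x y, Hᶜ.Adj x y := exists_adj (H := Hᶜ) (by rwa [compl_compl]) (by omega)
  have hc1 : Cov H m Finset.univ := cov_of_colorable h2
  have hc2 : Cov Hᶜ m Finset.univ := cov_of_colorable (by rwa [compl_compl])
  have hmix : Mixed H := by
    rcases Nat.lt_or_ge 2 m with h | h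
    · exact mixed_large (by omega) hred hblue
    · have hm2 : m = 2 := by omega
      subst hm2
      exact mixed_four (by omega) hc1 hn1 hblue
  intro ε hε
  refine ⟨1, fun n hn Gr Gb hG => ?_⟩
  have hm' : (2 : ℝ) ≤ m := by exact_mod_cast hm
  obtain ⟨F, hF, hk⟩ := family_of_degree (by linarith) hε (by omega) hG
  apply contains_even hV hc1 hc2 hn1 hn2 hmix hF
  intro k
  have h3 := hk k
  have h4 : (((2 * (m : ℤ) - 1) * (k + 1) : ℤ) : ℝ) <
      ((2 * (k * F.card + (F.filter (fun C => k < C.card)).card) : ℤ) : ℝ) := by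
    push_cast
    linarith
  have h5 : (2 * (m : ℤ) - 1) * (k + 1) <
      2 * (k * F.card + (F.filter (fun C => k < C.card)).card) := by
    exact_mod_cast h4
  omega

end Even

end Pool.Agent.Lib.MP_a05470_co
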