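import Pool.Agent.Lib.MP_a05470_co.JForces
import Pool.Agent.Lib.MP_a05470_co.Bip

/-!
# The normal form of a graph with large clique cover number

`V = RA + U + P_1 + ... + P_(s+g)`: `RA` is balanced (`2A+1` vertices, clique cover number `A+1`),
the `P_j` are tight (`2c_j+1` vertices, clique cover number `c_j+1`), critical and connected, there
are no edges between `RA` and the `P_j`, nor between different `P_j`, and the `s` vertices of `U`
are matched into the first `s` of the `P_j`.
-/

set_option autoImplicit false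
set_option linter.unusedSectionVars false

namespace Pool.Agent.Lib.MP_a05470_co

open Finset Classical

namespace JT

variable {V : Type} [Fintype V] {R : SimpleGraph V}

/-- A tight critical piece. -/
structure TightPiece (R : SimpleGraph V) (P : Finset V) (c : ℕ) : Prop where
  card : P.card = 2 * c + 1
  conn : (R.comap (Subtype.val : {x // x ∈ P} → V)).Preconnected
  crit : Crit R P
  theta : th R P = c + 1
  size : c = 0 ∨ 2 ≤ c

/-- The normal form: `ι` indexes the pieces, `Sum.inl i` is the piece of the `i`-th vertex of `U`. -/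
structure NF (R : SimpleGraph V) (a g A s : ℕ) (RA : Finset V) (u : Fin s → V)
    (P : Fin s ⊕ Fin g → Finset V) (c : Fin s ⊕ Fin g → ℕ) : Prop where
  inj : Function.Injective u
  cover : ∀ v, v ∈ RA ∨ (∃ i, v = u i) ∨ ∃ j, v ∈ P j
  disj_u : ∀ i, u i ∉ RA
  disj_P : ∀ i j, u i ∉ P j
  sep : ∀ i j, i ≠ j → Sep R (P i) (P j)
  sepA : ∀ j, Sep R RA (P j)
  piece : ∀ j, TightPiece R (P j) (c j)
  adj : ∀ i, ∃ h ∈ P (Sum.inl i), R.Adj (u i) h
  cardA : RA.card = 2 * A + 1
  thA : th R RA = A + 1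
  sum : A + ∑ j, c j + s = a

/-- the graph of the edges inside `X` -/
def inside (R : SimpleGraph V) (X : Finset V) : SimpleGraph V where
  Adj x y := R.Adj x y ∧ x ∈ X ∧ y ∈ X
  symm := ⟨fun _ _ h => ⟨h.1.symm, h.2.2, h.2.1⟩⟩
  loopless := ⟨fun _ h => h.1.ne rfl⟩

theorem exists_min_subset (R : SimpleGraph V) :
    ∃ X : Finset V, th R X = th R univ ∧ Crit R X := by
  have h : ∃ X : Finset V, th R X = th R univ := ⟨univ, rfl⟩
  obtain ⟨X, hX, hmin⟩ := exists_min_image (univ.filter (fun X : Finset V => th R X = th R univ))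
    Finset.card (by
      obtain ⟨X, hX⟩ := h
      exact ⟨X, mem_filter.2 ⟨mem_univ _, hX⟩⟩)
  rw [mem_filter] at hX
  refine ⟨X, hX.2, fun x hx => ?_⟩
  by_contra hcon
  push Not at hcon
  have h1 : th R (X.erase x) = th R univ :=
    le_antisymm (th_mono (subset_univ _)) (hX.2 ▸ hcon)
  have h2 := hmin (X.erase x) (mem_filter.2 ⟨mem_univ _, h1⟩)
  rw [card_erase_of_mem hx] at h2
  have := card_pos.2 ⟨x, hx⟩
  omega

/-- the component of `x` in the graph induced on `X` -/
noncomputable def cmp (R : SimpleGraph V) (X : Finset V) (x : V) : Finset V :=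
  X.filter (fun y => (inside R X).Reachable x y)

/-- the components of the graph induced on `X` -/
noncomputable def cmps (R : SimpleGraph V) (X : Finset V) : Finset (Finset V) := X.image (cmp R X)

section Cmps

variable {X C D : Finset V}

theorem cmps_sub (hC : C ∈ cmps R X) : C ⊆ X := by
  obtain ⟨x, hx, rfl⟩ := mem_image.1 hC
  exact filter_subset _ _

theorem cmps_ne (hC : C ∈ cmps R X) : C.Nonempty := by
  obtain ⟨x, hx, rfl⟩ := mem_image.1 hC
  exact ⟨x, mem_filter.2 ⟨hx, SimpleGraph.Reachable.refl _⟩⟩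

theorem cmps_closed (hC : C ∈ cmps R X) {x y : V} (hx : x ∈ C) (hy : y ∈ X) (h : R.Adj x y) :
    y ∈ C := by
  have hxX := cmps_sub hC hx
  obtain ⟨z, hz, rfl⟩ := mem_image.1 hC
  refine mem_filter.2 ⟨hy, (mem_filter.1 hx).2.trans ?_⟩
  exact (show (inside R X).Adj x y from ⟨h, hxX, hy⟩).reachable

theorem cmps_sep (hC : C ∈ cmps R X) (hD : D ∈ cmps R X) (h : C ≠ D) : Sep R C D := by
  have hd : Disjoint C D := by
    rw [Finset.disjoint_left]
    intro x hx hy
    apply h
    obtain ⟨z, hz, rfl⟩ := mem_image.1 hC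
    obtain ⟨w, hw, rfl⟩ := mem_image.1 hD
    have h1 : (inside R X).Reachable z w := (mem_filter.1 hx).2.trans (mem_filter.1 hy).2.symm
    ext y
    simp only [cmp, mem_filter]
    exact ⟨fun h2 => ⟨h2.1, h1.symm.trans h2.2⟩, fun h2 => ⟨h2.1, h1.trans h2.2⟩⟩
  exact ⟨hd, fun x hx y hy hadj =>
    disjoint_left.1 hd (cmps_closed hC hx (cmps_sub hD hy) hadj) hy⟩

theorem cmps_cover {x : V} (hx : x ∈ X) : ∃ C ∈ cmps R X, x ∈ C :=
  ⟨cmp R X x, mem_image_of_mem _ hx, mem_filter.2 ⟨hx, SimpleGraph.Reachable.refl _⟩⟩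

theorem cmps_preconn (hC : C ∈ cmps R X) :
    (R.comap (Subtype.val : {x // x ∈ C} → V)).Preconnected := by
  have h1 : ((inside R X).comap (Subtype.val : {x // x ∈ C} → V)).Preconnected := by
    apply preconn_of_closed
    · intro x hx y hadj
      exact cmps_closed hC hx hadj.2.2 hadj.1
    · intro x hx y hy
      obtain ⟨z, hz, rfl⟩ := mem_image.1 hC
      exact (mem_filter.1 hx).2.symm.trans (mem_filter.1 hy).2
  have h2 : (inside R X).comap (Subtype.val : {x // x ∈ C} → V) =
      R.comap (Subtype.val : {x // x ∈ C} → V) := by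
    ext x y
    rw [SimpleGraph.comap_adj, SimpleGraph.comap_adj]
    exact ⟨fun h => h.1, fun h => ⟨h, cmps_sub hC x.2, cmps_sub hC y.2⟩⟩
  rwa [h2] at h1

theorem cmps_crit (hX : Crit R X) (hC : C ∈ cmps R X) : Crit R C := by
  have h1 : X = C ∪ (X \ C) := (union_sdiff_of_subset (cmps_sub hC)).symm
  rw [h1] at hX
  apply hX.part
  refine ⟨disjoint_sdiff, ?_⟩
  intro x hx y hy hadj
  rw [mem_sdiff] at hy
  exact hy.2 (cmps_closed hC hx hy.1 hadj)

theorem cmps_data (hX : Crit R X) (hC : C ∈ cmps R X) :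
    ∃ c, th R C = c + 1 ∧ 2 * c + 1 ≤ C.card ∧ (c = 0 ∨ 2 ≤ c) := by
  rcases Nat.lt_or_ge C.card 2 with h | h
  · have h1 : C.card = 1 := by
      have := card_pos.2 (cmps_ne hC)
      omega
    obtain ⟨x, rfl⟩ := card_eq_one.1 h1
    exact ⟨0, th_singleton x, by simp, Or.inl rfl⟩
  · obtain ⟨c, h1, h2, h3, _⟩ := crit_data (cmps_preconn hC) (cmps_crit hX hC) h
    exact ⟨c, h2, h3, Or.inr h1⟩

end Cmps

/-- The result of choosing a maximal Hall violator: `T` is a set of tight pieces, `U` a set of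
vertices that can be matched into them; there is no edge between a piece and the vertices outside
that piece and `U`. -/
structure Setup (R : SimpleGraph V) (a g : ℕ) (T : Finset (Finset V)) (U : Finset V)
    (c : Finset V → ℕ) : Prop where
  piece : ∀ C ∈ T, TightPiece R C (c C)
  disjT : ∀ C ∈ T, ∀ D ∈ T, C ≠ D → Disjoint C D
  disjU : ∀ C ∈ T, Disjoint U C
  nbr : ∀ C ∈ T, ∀ x ∈ C, ∀ y, R.Adj x y → y ∈ C ∨ y ∈ U
  hall : ∀ Q ⊆ U, Q.card ≤ (T.filter (fun C => ∃ q ∈ Q, ∃ x ∈ C, R.Adj q x)).card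
  card : g + 1 + U.card ≤ T.card
  th_rest : th R (univ \ U) = a + g + 1

theorem exists_setup {a g : ℕ} (hV : Fintype.card V = 2 * a + g + 1)
    (hth : th R univ = a + g + 1) :
    ∃ (T : Finset (Finset V)) (U : Finset V) (c : Finset V → ℕ), Setup R a g T U c := by
  obtain ⟨X, hXth, hX⟩ := exists_min_subset R
  set Cs := cmps R X with hCs
  have hdata : ∀ C ∈ Cs, ∃ c, th R C = c + 1 ∧ 2 * c + 1 ≤ C.card ∧ (c = 0 ∨ 2 ≤ c) :=
    fun C hC => cmps_data hX hC
  choose! c hc using hdata
  set T := Cs.filter (fun C => C.card = 2 * c C + 1) with hT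
  set Nb : Finset V → Finset (Finset V) := fun W => T.filter (fun C => ∃ w ∈ W, ∃ x ∈ C, R.Adj w x)
    with hNb
  set U0 := univ \ X with hU0
  -- counting
  have hcov : Cs.biUnion id = X := by
    ext x
    rw [mem_biUnion]
    constructor
    · rintro ⟨C, hC, hx⟩
      exact cmps_sub hC hx
    · intro hx
      obtain ⟨C, hC, hxC⟩ := cmps_cover (R := R) hx
      exact ⟨C, hC, hxC⟩
  have hsepC : ∀ C ∈ Cs, ∀ D ∈ Cs, C ≠ D → Sep R C D := fun C hC D hD h => cmps_sep hC hD h
  have hth' : ∑ C ∈ Cs, (c C + 1) = a + g + 1 := by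
    have h1 := th_biUnion (R := R) Cs id hsepC
    rw [← hth, ← hXth, ← hcov, h1]
    exact sum_congr rfl (fun C hC => (hc C hC).1.symm)
  have hcard : ∑ C ∈ Cs, C.card = X.card := by
    have h1 := card_biUnion (s := Cs) (t := id) (fun C hC D hD h => (hsepC C hC D hD h).1)
    rw [← hcov, h1]
    rfl
  have hs3 : ∑ C ∈ Cs, (2 * c C + 2 - (if C.card = 2 * c C + 1 then 1 else 0)) ≤
      ∑ C ∈ Cs, C.card := by
    apply sum_le_sum
    intro C hC
    have := (hc C hC).2.1
    split_ifs with h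
    · omega
    · omega
  have hs4 : ∑ C ∈ Cs, (2 * c C + 2 - (if C.card = 2 * c C + 1 then 1 else 0)) + T.card =
      ∑ C ∈ Cs, 2 * (c C + 1) := by
    rw [hT, card_filter, ← sum_add_distrib]
    apply sum_congr rfl
    intro C _
    split_ifs with h
    · omega
    · omega
  rw [← mul_sum] at hs4
  have hU0c : U0.card + X.card = 2 * a + g + 1 := by
    rw [hU0, card_sdiff_add_card, union_eq_left.2 (subset_univ X), card_univ, hV]
  have hTc : g + 1 + U0.card ≤ T.card := by omega
  -- the maximal violator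
  obtain ⟨U', hU', hmax⟩ := exists_max_image U0.powerset (fun W => W.card + (T \ Nb W).card)
    ⟨∅, empty_mem_powerset _⟩
  rw [mem_powerset] at hU'
  set U2 := U0 \ U' with hU2
  have hNbT : ∀ W, Nb W ⊆ T := fun W => filter_subset _ _
  have hU2c : U2.card + U'.card = U0.card := by
    rw [hU2, card_sdiff_add_card, union_eq_left.2 hU']
  have hempty : Nb ∅ = ∅ := by
    rw [hNb]
    apply filter_eq_empty_iff.2
    rintro C _ ⟨w, hw, _⟩
    exact absurd hw (notMem_empty w)
  have hTU : g + 1 + U2.card ≤ (T \ Nb U').card := by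
    have h1 := hmax ∅ (empty_mem_powerset _)
    rw [hempty, sdiff_empty, card_empty] at h1
    omega
  have hTCs : ∀ C ∈ T \ Nb U', C ∈ Cs := fun C hC => (mem_filter.1 (mem_sdiff.1 hC).1).1
  have hTX : ∀ C ∈ T \ Nb U', Disjoint U2 C := by
    intro C hC
    rw [Finset.disjoint_left]
    intro x hx hx'
    exact (mem_sdiff.1 (mem_sdiff.1 hx).1).2 (cmps_sub (hTCs C hC) hx')
  refine ⟨T \ Nb U', U2, c, ?_, ?_, hTX, ?_, ?_, hTU, ?_⟩
  · intro C hC
    exact ⟨(mem_filter.1 (mem_sdiff.1 hC).1).2, cmps_preconn (hTCs C hC), cmps_crit hX (hTCs C hC),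
      (hc _ (hTCs C hC)).1, (hc _ (hTCs C hC)).2.2⟩
  · intro C hC D hD h
    exact (hsepC C (hTCs C hC) D (hTCs D hD) h).1
  · intro C hC x hx y hadj
    by_cases hyX : y ∈ X
    · exact Or.inl (cmps_closed (hTCs C hC) hx hyX hadj)
    · right
      have h1 : y ∈ U0 := mem_sdiff.2 ⟨mem_univ _, hyX⟩
      refine mem_sdiff.2 ⟨h1, fun h2 => ?_⟩
      exact (mem_sdiff.1 hC).2 (mem_filter.2 ⟨(mem_sdiff.1 hC).1, y, h2, x, hx, hadj.symm⟩)
  · intro Q hQ
    have h1 := hmax (U' ∪ Q) (mem_powerset.2 (union_subset hU' (hQ.trans sdiff_subset)))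
    have hdis : Disjoint U' Q := by
      rw [Finset.disjoint_left]
      intro x hx hx'
      exact (mem_sdiff.1 (hQ hx')).2 hx
    rw [card_union_of_disjoint hdis] at h1
    set S := (T \ Nb U').filter (fun C => ∃ q ∈ Q, ∃ x ∈ C, R.Adj q x) with hS
    have h2 : (T \ Nb U') \ S ⊆ T \ Nb (U' ∪ Q) := by
      intro C hC
      rw [mem_sdiff] at hC
      rw [mem_sdiff]
      refine ⟨(mem_sdiff.1 hC.1).1, fun h3 => ?_⟩
      rw [hNb, mem_filter] at h3
      obtain ⟨_, w, hw, x, hx, hadj⟩ := h3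
      rw [mem_union] at hw
      rcases hw with hw | hw
      · exact (mem_sdiff.1 hC.1).2 (mem_filter.2 ⟨(mem_sdiff.1 hC.1).1, w, hw, x, hx, hadj⟩)
      · exact hC.2 (mem_filter.2 ⟨hC.1, w, hw, x, hx, hadj⟩)
    have h3 : S ⊆ T \ Nb U' := filter_subset _ _
    have h4 := card_le_card h2
    have h5 : S.card + ((T \ Nb U') \ S).card = (T \ Nb U').card := by
      rw [add_comm, card_sdiff_add_card, union_eq_left.2 h3]
    omega
  · apply le_antisymm
    · rw [← hth]
      exact th_mono (subset_univ _)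
    · rw [← hth, ← hXth]
      apply th_mono
      intro x hx
      rw [mem_sdiff]
      exact ⟨mem_univ _, fun h => (mem_sdiff.1 (mem_sdiff.1 h).1).2 hx⟩

namespace Setup

variable {a g : ℕ} {T : Finset (Finset V)} {U : Finset V} {c : Finset V → ℕ}

theorem sep (h : Setup R a g T U c) {C D : Finset V} (hC : C ∈ T) (hD : D ∈ T) (hCD : C ≠ D) :
    Sep R C D := by
  refine ⟨h.disjT C hC D hD hCD, fun x hx y hy hadj => ?_⟩
  rcases h.nbr C hC x hx y hadj with h1 | h1
  · exact disjoint_left.1 (h.disjT C hC D hD hCD) h1 hy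
  · exact disjoint_left.1 (h.disjU D hD) h1 hy

/-- the pieces of a subset of `T` are separated from everything outside them and `U` -/
theorem sep_rest (h : Setup R a g T U c) {S : Finset (Finset V)} (hS : S ⊆ T) :
    Sep R (S.biUnion id) ((univ \ U) \ S.biUnion id) := by
  refine ⟨disjoint_sdiff, fun x hx y hy hadj => ?_⟩
  rw [mem_biUnion] at hx
  obtain ⟨C, hC, hx⟩ := hx
  rw [mem_sdiff, mem_sdiff] at hy
  rcases h.nbr C (hS hC) x hx y hadj with h1 | h1
  · exact hy.2 (mem_biUnion.2 ⟨C, hC, h1⟩)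
  · exact hy.1.2 h1

theorem sub_rest (h : Setup R a g T U c) {S : Finset (Finset V)} (hS : S ⊆ T) :
    S.biUnion id ⊆ univ \ U := by
  intro x hx
  rw [mem_biUnion] at hx
  obtain ⟨C, hC, hx⟩ := hx
  exact mem_sdiff.2 ⟨mem_univ _, fun h1 => disjoint_left.1 (h.disjU C (hS hC)) h1 hx⟩

theorem th_pieces (h : Setup R a g T U c) {S : Finset (Finset V)} (hS : S ⊆ T) :
    th R (S.biUnion id) = ∑ C ∈ S, (c C + 1) := by
  have h1 := th_biUnion (R := R) S id (fun C hC D hD hCD => h.sep (hS hC) (hS hD) hCD)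
  rw [h1]
  exact sum_congr rfl (fun C hC => (h.piece C (hS hC)).theta)

theorem card_pieces (h : Setup R a g T U c) {S : Finset (Finset V)} (hS : S ⊆ T) :
    (S.biUnion id).card = ∑ C ∈ S, (2 * c C + 1) := by
  have h1 := card_biUnion (s := S) (t := id)
    (fun C hC D hD hCD => h.disjT C (hS hC) D (hS hD) hCD)
  rw [h1]
  exact sum_congr rfl (fun C hC => (h.piece C (hS hC)).card)

theorem th_sdiff (h : Setup R a g T U c) {S : Finset (Finset V)} (hS : S ⊆ T) :
    th R ((univ \ U) \ S.biUnion id) + ∑ C ∈ S, (c C + 1) = a + g + 1 := by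
  have h1 := th_union_sep (h.sep_rest hS)
  rw [union_sdiff_of_subset (h.sub_rest hS), h.th_rest, h.th_pieces hS] at h1
  omega

/-- the total size of a set of pieces that is not everything -/
theorem sum_lt (h : Setup R a g T U c) {S : Finset (Finset V)} (hS : S ⊆ T) {C0 : Finset V}
    (hC0 : C0 ∈ T) (hC0S : C0 ∉ S) : ∑ C ∈ S, (c C + 1) + (c C0 + 1) ≤ a + g + 1 := by
  have h1 := h.th_sdiff (insert_subset hC0 hS)
  rw [sum_insert hC0S] at h1
  omega

/-- **The normal form (N)** from a matching of `U` into the pieces. -/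
theorem nf (h : Setup R a g T U c) (hV : Fintype.card V = 2 * a + g + 1)
    (f : {x // x ∈ U} → Finset V) (hinj : Function.Injective f)
    (hf : ∀ x, f x ∈ T ∧ ∃ y ∈ f x, R.Adj x.1 y) {G : Finset (Finset V)} (hGT : G ⊆ T)
    (hGc : G.card = g) (hGf : ∀ C ∈ G, ∀ x, f x ≠ C) {C0 : Finset V} (hC0 : C0 ∈ T)
    (hC0G : C0 ∉ G) (hC0f : ∀ x, f x ≠ C0) :
    ∃ (A : ℕ) (RA : Finset V) (u : Fin U.card → V) (P : Fin U.card ⊕ Fin g → Finset V)
      (c' : Fin U.card ⊕ Fin g → ℕ), NF R a g A U.card RA u P c' ∧ C0 ⊆ RA ∧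
      ∀ j, ∃ C ∈ G, c' (Sum.inr j) = c C := by
  let eU : Fin U.card ≃ {x // x ∈ U} := (Finset.equivFinOfCardEq rfl).symm
  let eG : Fin g ≃ {x // x ∈ G} := (Finset.equivFinOfCardEq hGc).symm
  set P : Fin U.card ⊕ Fin g → Finset V := Sum.elim (fun i => f (eU i)) (fun j => (eG j).1)
    with hP
  have hPinj : Function.Injective P := by
    rintro (i | i) (j | j) hij
    · exact congrArg Sum.inl (eU.injective (hinj hij))
    · exact absurd hij (hGf _ (eG j).2 (eU i))
    · exact absurd hij.symm (hGf _ (eG i).2 (eU j))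
    · exact congrArg Sum.inr (eG.injective (Subtype.ext hij))
  have hPT : ∀ j, P j ∈ T := by
    rintro (i | i)
    · exact (hf (eU i)).1
    · exact hGT (eG i).2
  have hPC0 : ∀ j, P j ≠ C0 := by
    rintro (i | i) h1
    · exact hC0f _ h1
    · exact hC0G (by rw [← h1]; exact (eG i).2)
  set S : Finset (Finset V) := univ.image P with hS
  have hST : S ⊆ T := by
    intro C hC
    rw [hS, mem_image] at hC
    obtain ⟨j, _, rfl⟩ := hC
    exact hPT j
  have hC0S : C0 ∉ S := by
    rw [hS, mem_image]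
    rintro ⟨j, _, h1⟩
    exact hPC0 j h1
  have hsum : ∀ F : Finset V → ℕ, ∑ C ∈ S, F C = ∑ j, F (P j) := by
    intro F
    rw [hS, sum_image (fun i _ j _ h => hPinj h)]
  have hconst : ∑ _j : Fin U.card ⊕ Fin g, 1 = U.card + g := by
    rw [sum_const, card_univ, Fintype.card_sum, Fintype.card_fin, Fintype.card_fin, smul_eq_mul,
      mul_one]
  have hle := h.sum_lt hST hC0 hC0S
  have hth := h.th_sdiff hST
  rw [hsum, sum_add_distrib, hconst] at hle hth
  have hcd := h.card_pieces hST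
  rw [hsum, sum_add_distrib, hconst, ← mul_sum] at hcd
  set RA : Finset V := (univ \ U) \ S.biUnion id with hRA
  have hRAc : RA.card = 2 * (a - U.card - ∑ j, c (P j)) + 1 := by
    have h1 : RA.card + (S.biUnion id).card = (univ \ U).card := by
      rw [hRA, card_sdiff_add_card, union_eq_left.2 (h.sub_rest hST)]
    have h2 : (univ \ U).card + U.card = 2 * a + g + 1 := by
      rw [card_sdiff_add_card, union_eq_left.2 (subset_univ U), card_univ, hV]
    omega
  refine ⟨a - U.card - ∑ j, c (P j), RA, fun i => (eU i).1, P, fun j => c (P j), ⟨?_, ?_, ?_, ?_,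
    ?_, ?_, ?_, ?_, hRAc, ?_, ?_⟩, ?_, fun j => ⟨(eG j).1, (eG j).2, rfl⟩⟩
  · exact fun i j h1 => eU.injective (Subtype.ext h1)
  · intro v
    by_cases h1 : v ∈ U
    · right; left
      exact ⟨eU.symm ⟨v, h1⟩, by simp⟩
    · by_cases h2 : v ∈ S.biUnion id
      · right; right
        rw [mem_biUnion] at h2
        obtain ⟨C, hC, h2⟩ := h2
        rw [hS, mem_image] at hC
        obtain ⟨j, _, rfl⟩ := hC
        exact ⟨j, h2⟩
      · exact Or.inl (mem_sdiff.2 ⟨mem_sdiff.2 ⟨mem_univ _, h1⟩, h2⟩)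
  · intro i h1
    exact (mem_sdiff.1 (mem_sdiff.1 h1).1).2 (eU i).2
  · intro i j h1
    exact disjoint_left.1 (h.disjU _ (hPT j)) (eU i).2 h1
  · exact fun i j hij => h.sep (hPT i) (hPT j) (fun h' => hij (hPinj h'))
  · intro j
    have h1 := h.sep_rest hST
    have h2 : P j ⊆ S.biUnion id :=
      subset_biUnion_of_mem id (mem_image_of_mem P (mem_univ j))
    refine ⟨disjoint_of_subset_right h2 h1.1.symm, fun x hx y hy hadj => ?_⟩
    exact h1.2 y (h2 hy) x hx hadj.symm
  · exact fun j => h.piece _ (hPT j)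
  · intro i
    obtain ⟨_, y, hy, hadj⟩ := hf (eU i)
    exact ⟨y, hy, hadj⟩
  · omega
  · omega
  · intro x hx
    refine mem_sdiff.2 ⟨mem_sdiff.2 ⟨mem_univ _, fun h1 => ?_⟩, fun h1 => ?_⟩
    · exact disjoint_left.1 (h.disjU C0 hC0) h1 hx
    · obtain ⟨C, hC, hxC⟩ := mem_biUnion.1 h1
      exact disjoint_left.1 (h.disjT C0 hC0 C (hST hC) (fun h2 => hC0S (h2 ▸ hC))) hx hxC

/-- **A good matching of `U` into the pieces**: `PW` is matched into a set `S` of trivial pieces
whose neighbours are all in `PW`, the rest of `U` is matched outside `S`, and all the trivial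
pieces outside `S` are matched. -/
theorem matching (h : Setup R a g T U c) :
    ∃ (f : {x // x ∈ U} → Finset V) (PW : Finset V) (S : Finset (Finset V)),
      Function.Injective f ∧ (∀ x, f x ∈ T ∧ ∃ y ∈ f x, R.Adj x.1 y) ∧ PW ⊆ U ∧ S ⊆ T ∧
      (∀ C ∈ S, c C = 0) ∧ (∀ x : {x // x ∈ U}, x.1 ∈ PW ↔ f x ∈ S) ∧
      (∀ C ∈ S, ∀ x ∈ C, ∀ y, R.Adj x y → y ∈ PW) ∧
      (∀ C ∈ T, c C = 0 → C ∉ S → ∃ x, f x = C) ∧ (S.card ≤ PW.card → PW = ∅) := by
  set Tr := T.filter (fun C => c C = 0) with hTr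
  set N : Finset (Finset V) → Finset V :=
    fun W => U.filter (fun u => ∃ C ∈ W, ∃ x ∈ C, R.Adj u x) with hN
  obtain ⟨S, hSTr, hmax'⟩ := exists_max_image Tr.powerset
    (fun W => (Tr.card + 1) * (W.card + (U \ N W).card) + (Tr.card - W.card))
    ⟨∅, empty_mem_powerset _⟩
  have hmax : ∀ W ∈ Tr.powerset, W.card + (U \ N W).card ≤ S.card + (U \ N S).card := by
    intro W hW
    by_contra hcon
    push Not at hcon
    have h1 := Nat.mul_le_mul_left (Tr.card + 1) (Nat.succ_le_of_lt hcon)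
    have h2 : (Tr.card + 1) * (W.card + (U \ N W).card) + (Tr.card - W.card) ≤
        (Tr.card + 1) * (S.card + (U \ N S).card) + (Tr.card - S.card) := hmax' W hW
    rw [Nat.mul_succ] at h1
    omega
  have htie : S.card + (U \ N S).card ≤ U.card → S = ∅ := by
    intro h0
    have h1 : (Tr.card + 1) * ((∅ : Finset (Finset V)).card + (U \ N ∅).card) +
        (Tr.card - (∅ : Finset (Finset V)).card) ≤
        (Tr.card + 1) * (S.card + (U \ N S).card) + (Tr.card - S.card) :=
      hmax' ∅ (empty_mem_powerset _)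
    have h2 : N ∅ = ∅ := by
      rw [hN]
      apply filter_eq_empty_iff.2
      rintro v _ ⟨C, hC, _⟩
      exact absurd hC (notMem_empty C)
    rw [h2, card_empty, sdiff_empty, zero_add, Nat.sub_zero] at h1
    have h3 := Nat.mul_le_mul_left (Tr.card + 1) h0
    have h4 := card_le_card (mem_powerset.1 hSTr)
    have h5 : S.card = 0 := by omega
    exact card_eq_zero.1 h5
  rw [mem_powerset] at hSTr
  have hST : S ⊆ T := hSTr.trans (filter_subset _ _)
  have hNU : ∀ W, N W ⊆ U := fun W => filter_subset _ _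
  set PW := N S with hPW
  have hcardN : ∀ W, (U \ N W).card + (N W).card = U.card := fun W => by
    rw [card_sdiff_add_card, union_eq_left.2 (hNU W)]
  -- first Hall condition
  obtain ⟨m1, hm1, hm1'⟩ : ∃ f : {x // x ∈ PW} → Finset V, Function.Injective f ∧
      ∀ x, f x ∈ S.filter (fun C => ∃ y ∈ C, R.Adj x.1 y) := by
    apply (Finset.all_card_le_biUnion_card_iff_exists_injective
      (fun x : {x // x ∈ PW} => S.filter (fun C => ∃ y ∈ C, R.Adj x.1 y))).1
    intro Q
    set B := Q.biUnion (fun x : {x // x ∈ PW} => S.filter (fun C => ∃ y ∈ C, R.Adj x.1 y)) with hB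
    set Q' := Q.map ⟨Subtype.val, Subtype.val_injective⟩ with hQ'
    have hQc : Q'.card = Q.card := card_map _
    have hQP : Q' ⊆ PW := by
      intro x hx
      rw [hQ', mem_map] at hx
      obtain ⟨y, _, rfl⟩ := hx
      exact y.2
    have hBS : B ⊆ S := by
      intro C hC
      rw [hB, mem_biUnion] at hC
      obtain ⟨x, _, hC⟩ := hC
      exact (mem_filter.1 hC).1
    have h1 : (S \ B).card + (U \ N (S \ B)).card ≤ S.card + (U \ PW).card :=
      hmax (S \ B) (mem_powerset.2 (sdiff_subset.trans hSTr))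
    have h2 : N (S \ B) ⊆ PW \ Q' := by
      intro v hv
      rw [hN, mem_filter] at hv
      obtain ⟨hvU, C, hC, x, hx, hadj⟩ := hv
      rw [mem_sdiff] at hC ⊢
      have hvP : v ∈ PW := mem_filter.2 ⟨hvU, C, hC.1, x, hx, hadj⟩
      refine ⟨hvP, fun hv => hC.2 ?_⟩
      rw [hQ', mem_map] at hv
      obtain ⟨y, hy, rfl⟩ := hv
      rw [hB, mem_biUnion]
      exact ⟨y, hy, mem_filter.2 ⟨hC.1, x, hx, hadj⟩⟩
    have h3 := card_le_card h2
    have h4 : (PW \ Q').card + Q'.card = PW.card := by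
      rw [card_sdiff_add_card, union_eq_left.2 hQP]
    have h5 : (S \ B).card + B.card = S.card := by
      rw [card_sdiff_add_card, union_eq_left.2 hBS]
    have h6 := hcardN (S \ B)
    have h7 : (U \ PW).card + PW.card = U.card := hcardN S
    omega
  -- the other trivial pieces
  have hH2 : ∀ Y ⊆ Tr \ S, Y.card ≤ (N Y \ PW).card := by
    intro Y hY
    have hYS : Disjoint S Y := by
      rw [Finset.disjoint_left]
      intro C hC hC'
      exact (mem_sdiff.1 (hY hC')).2 hC
    have h1 : (S ∪ Y).card + (U \ N (S ∪ Y)).card ≤ S.card + (U \ PW).card :=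
      hmax (S ∪ Y) (mem_powerset.2 (union_subset hSTr (hY.trans sdiff_subset)))
    rw [card_union_of_disjoint hYS] at h1
    have h2 : N (S ∪ Y) ⊆ PW ∪ (N Y \ PW) := by
      intro v hv
      rw [hN, mem_filter] at hv
      obtain ⟨hvU, C, hC, x, hx, hadj⟩ := hv
      rw [mem_union] at hC ⊢
      by_cases h3 : v ∈ PW
      · exact Or.inl h3
      · right
        rcases hC with hC | hC
        · exact absurd (mem_filter.2 ⟨hvU, C, hC, x, hx, hadj⟩) h3
        · exact mem_sdiff.2 ⟨mem_filter.2 ⟨hvU, C, hC, x, hx, hadj⟩, h3⟩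
    have h3 := (card_le_card h2).trans (card_union_le _ _)
    have h6 := hcardN (S ∪ Y)
    have h7 : (U \ PW).card + PW.card = U.card := hcardN S
    omega
  have hH3 : ∀ Q ⊆ U \ PW, Q.card ≤ ((T \ S).filter (fun C => ∃ q ∈ Q, ∃ x ∈ C, R.Adj q x)).card := by
    intro Q hQ
    refine (h.hall Q (hQ.trans sdiff_subset)).trans (card_le_card ?_)
    intro C hC
    rw [mem_filter] at hC ⊢
    obtain ⟨hCT, q, hq, x, hx, hadj⟩ := hC
    refine ⟨mem_sdiff.2 ⟨hCT, fun hCS => ?_⟩, q, hq, x, hx, hadj⟩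
    exact (mem_sdiff.1 (hQ hq)).2 (mem_filter.2 ⟨(mem_sdiff.1 (hQ hq)).1, C, hCS, x, hx, hadj⟩)
  have hle : (U \ PW).card ≤ (T \ S).card :=
    (hH3 _ (Subset.refl _)).trans (card_le_card (filter_subset _ _))
  obtain ⟨δ, hδ⟩ := Nat.exists_eq_add_of_le hle
  obtain ⟨m2, hm2, hm2'⟩ : ∃ f : {x // x ∈ U \ PW} ⊕ Fin δ → Finset V, Function.Injective f ∧
      ∀ x, f x ∈ (Sum.elim (fun x : {x // x ∈ U \ PW} => (T \ S).filter
        (fun C => ∃ y ∈ C, R.Adj x.1 y)) (fun _ : Fin δ => (T \ S).filter (fun C => c C ≠ 0)) x) := by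
    apply (Finset.all_card_le_biUnion_card_iff_exists_injective _).1
    intro L
    set B := L.biUnion (Sum.elim (fun x : {x // x ∈ U \ PW} => (T \ S).filter
        (fun C => ∃ y ∈ C, R.Adj x.1 y)) (fun _ : Fin δ => (T \ S).filter (fun C => c C ≠ 0)))
      with hB
    -- the two parts of L
    set Q := (U \ PW).filter (fun x => ∃ y ∈ L, ∃ z : {x // x ∈ U \ PW}, y = Sum.inl z ∧ z.1 = x)
      with hQ
    have hLc : L.card = Q.card + (univ.filter (fun i : Fin δ => Sum.inr i ∈ L)).card := by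
      have h1 : L = ((U \ PW).attach.filter (fun x => Sum.inl x ∈ L)).map
          ⟨Sum.inl, Sum.inl_injective⟩ ∪ (univ.filter (fun i : Fin δ => Sum.inr i ∈ L)).map
          ⟨Sum.inr, Sum.inr_injective⟩ := by
        ext y
        rw [mem_union, mem_map, mem_map]
        constructor
        · intro hy
          rcases y with y | y
          · exact Or.inl ⟨y, mem_filter.2 ⟨mem_attach _ _, hy⟩, rfl⟩
          · exact Or.inr ⟨y, mem_filter.2 ⟨mem_univ _, hy⟩, rfl⟩
        · rintro (⟨z, hz, rfl⟩ | ⟨z, hz, rfl⟩)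
          · exact (mem_filter.1 hz).2
          · exact (mem_filter.1 hz).2
      have h2 : Disjoint (((U \ PW).attach.filter (fun x => Sum.inl x ∈ L)).map
          (⟨Sum.inl, Sum.inl_injective⟩ : {x // x ∈ U \ PW} ↪ {x // x ∈ U \ PW} ⊕ Fin δ))
          ((univ.filter (fun i : Fin δ => Sum.inr i ∈ L)).map
          ⟨Sum.inr, Sum.inr_injective⟩) := by
        rw [Finset.disjoint_left]
        intro y hy hy'
        rw [mem_map] at hy hy'
        obtain ⟨z, _, rfl⟩ := hy
        obtain ⟨z', _, h3⟩ := hy'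
        exact absurd h3 (by simp)
      have h3 : ((U \ PW).attach.filter (fun x => Sum.inl x ∈ L)).card = Q.card := by
        rw [← card_map ⟨Subtype.val, Subtype.val_injective⟩]
        congr 1
        ext x
        rw [mem_map, hQ, mem_filter]
        constructor
        · rintro ⟨z, hz, rfl⟩
          exact ⟨z.2, _, (mem_filter.1 hz).2, z, rfl, rfl⟩
        · rintro ⟨_, y, hy, z, rfl, rfl⟩
          exact ⟨z, mem_filter.2 ⟨mem_attach _ _, hy⟩, rfl⟩
      have h4 := congrArg Finset.card h1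
      rw [card_union_of_disjoint h2, card_map, card_map, h3] at h4
      exact h4
    have hQU : Q ⊆ U \ PW := filter_subset _ _
    have hQB : (T \ S).filter (fun C => ∃ q ∈ Q, ∃ x ∈ C, R.Adj q x) ⊆ B := by
      intro C hC
      rw [mem_filter] at hC
      obtain ⟨hCT, q, hq, x, hx, hadj⟩ := hC
      rw [hQ, mem_filter] at hq
      obtain ⟨_, y, hy, z, rfl, rfl⟩ := hq
      rw [hB, mem_biUnion]
      exact ⟨_, hy, mem_filter.2 ⟨hCT, x, hx, hadj⟩⟩
    rcases (univ.filter (fun i : Fin δ => Sum.inr i ∈ L)).eq_empty_or_nonempty with h1 | ⟨i, hi⟩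
    · rw [hLc, h1, card_empty, add_zero]
      exact (hH3 Q hQU).trans (card_le_card hQB)
    · have hi' : Sum.inr i ∈ L := (mem_filter.1 hi).2
      have h2 : (univ.filter (fun i : Fin δ => Sum.inr i ∈ L)).card ≤ δ :=
        (card_filter_le _ _).trans (by rw [card_univ, Fintype.card_fin])
      set Y := (Tr \ S).filter (fun C => ¬ ∃ q ∈ Q, ∃ x ∈ C, R.Adj q x) with hY
      have h3 := hH2 Y (filter_subset _ _)
      have h4 : N Y \ PW ⊆ (U \ PW) \ Q := by
        intro v hv
        rw [mem_sdiff, hN, mem_filter] at hv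
        obtain ⟨⟨hvU, C, hC, x, hx, hadj⟩, hvP⟩ := hv
        rw [mem_sdiff, mem_sdiff]
        refine ⟨⟨hvU, hvP⟩, fun hvQ => ?_⟩
        exact (mem_filter.1 hC).2 ⟨v, hvQ, x, hx, hadj⟩
      have h5 := card_le_card h4
      have h6 : ((U \ PW) \ Q).card + Q.card = (U \ PW).card := by
        rw [card_sdiff_add_card, union_eq_left.2 hQU]
      have h7 : (T \ S) \ Y ⊆ B := by
        intro C hC
        rw [mem_sdiff] at hC
        by_cases h8 : c C = 0
        · have h9 : ∃ q ∈ Q, ∃ x ∈ C, R.Adj q x := by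
            by_contra h10
            exact hC.2 (mem_filter.2 ⟨mem_sdiff.2 ⟨mem_filter.2 ⟨(mem_sdiff.1 hC.1).1, h8⟩,
              (mem_sdiff.1 hC.1).2⟩, h10⟩)
          exact hQB (mem_filter.2 ⟨hC.1, h9⟩)
        · rw [hB, mem_biUnion]
          exact ⟨_, hi', mem_filter.2 ⟨hC.1, h8⟩⟩
      have h8 := card_le_card h7
      have hYT : Y ⊆ T \ S := by
        intro C hC
        rw [hY, mem_filter, mem_sdiff] at hC
        exact mem_sdiff.2 ⟨(mem_filter.1 hC.1.1).1, hC.1.2⟩
      have h9 : ((T \ S) \ Y).card + Y.card = (T \ S).card := by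
        rw [card_sdiff_add_card, union_eq_left.2 hYT]
      rw [hLc]
      omega
  have hm2mem : ∀ x, m2 x ∈ T \ S := by
    intro x
    have h1 := hm2' x
    rcases x with x | x
    · exact (mem_filter.1 h1).1
    · exact (mem_filter.1 h1).1
  have hm2sur : ∀ C ∈ T \ S, ∃ x, m2 x = C := by
    intro C hC
    have h1 : univ.image m2 = T \ S := by
      apply eq_of_subset_of_card_le
      · intro D hD
        rw [mem_image] at hD
        obtain ⟨x, _, rfl⟩ := hD
        exact hm2mem x
      · rw [card_image_of_injective _ hm2, card_univ, Fintype.card_sum, Fintype.card_fin,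
          Fintype.card_coe]
        omega
    rw [← h1, mem_image] at hC
    obtain ⟨x, _, hx⟩ := hC
    exact ⟨x, hx⟩
  -- the matching
  set f : {x // x ∈ U} → Finset V := fun x => if hx : x.1 ∈ PW then m1 ⟨x.1, hx⟩ else
    m2 (Sum.inl ⟨x.1, mem_sdiff.2 ⟨x.2, hx⟩⟩) with hfdef
  have hf1 : ∀ x : {x // x ∈ U}, ∀ hx : x.1 ∈ PW, f x = m1 ⟨x.1, hx⟩ := by
    intro x hx
    simp only [hfdef, dif_pos hx]
  have hf2 : ∀ x : {x // x ∈ U}, ∀ hx : x.1 ∉ PW,
      f x = m2 (Sum.inl ⟨x.1, mem_sdiff.2 ⟨x.2, hx⟩⟩) := by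
    intro x hx
    simp only [hfdef, dif_neg hx]
  have hiff : ∀ x : {x // x ∈ U}, x.1 ∈ PW ↔ f x ∈ S := by
    intro x
    constructor
    · intro hx
      rw [hf1 x hx]
      exact (mem_filter.1 (hm1' _)).1
    · intro hx
      by_contra hx'
      rw [hf2 x hx'] at hx
      exact (mem_sdiff.1 (hm2mem _)).2 hx
  refine ⟨f, PW, S, ?_, ?_, hNU S, hST, ?_, hiff, ?_, ?_, ?_⟩
  · intro x y hxy
    by_cases hx : x.1 ∈ PW
    · have hy : y.1 ∈ PW := (hiff y).2 (hxy ▸ (hiff x).1 hx)
      rw [hf1 x hx, hf1 y hy] at hxy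
      exact Subtype.ext (congrArg (fun z : {x // x ∈ PW} => z.1) (hm1 hxy))
    · have hy : y.1 ∉ PW := fun hy => hx ((hiff x).2 (hxy ▸ (hiff y).1 hy))
      rw [hf2 x hx, hf2 y hy] at hxy
      have h1 := Sum.inl_injective (hm2 hxy)
      exact Subtype.ext (congrArg (fun z : {x // x ∈ U \ PW} => z.1) h1)
  · intro x
    by_cases hx : x.1 ∈ PW
    · have h1 := hm1' ⟨x.1, hx⟩
      rw [hf1 x hx]
      rw [mem_filter] at h1
      exact ⟨hST h1.1, h1.2⟩
    · have h1 := hm2' (Sum.inl ⟨x.1, mem_sdiff.2 ⟨x.2, hx⟩⟩)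
      rw [hf2 x hx]
      have h2 := mem_filter.1 h1
      exact ⟨(mem_sdiff.1 h2.1).1, h2.2⟩
  · exact fun C hC => (mem_filter.1 (hSTr hC)).2
  · intro C hC x hx y hadj
    rcases h.nbr C (hST hC) x hx y hadj with h1 | h1
    · exfalso
      have h2 := (h.piece C (hST hC)).card
      rw [(mem_filter.1 (hSTr hC)).2] at h2
      have h3 := card_le_one.1 (by omega : C.card ≤ 1) x hx y h1
      exact R.ne_of_adj hadj h3
    · exact mem_filter.2 ⟨h1, C, hC, x, hx, hadj.symm⟩
  · intro C hC hc0 hCS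
    obtain ⟨x, hx⟩ := hm2sur C (mem_sdiff.2 ⟨hC, hCS⟩)
    rcases x with x | x
    · have hxU := mem_sdiff.1 x.2
      refine ⟨⟨x.1, hxU.1⟩, ?_⟩
      rw [hf2 ⟨x.1, hxU.1⟩ hxU.2]
      exact hx
    · exfalso
      have h1 := hm2' (Sum.inr x)
      rw [hx] at h1
      exact (mem_filter.1 h1).2 hc0
  · intro hle'
    have h1 : (U \ PW).card + PW.card = U.card := hcardN S
    have h2 : S = ∅ := htie (by
      have h3 : (U \ N S).card = (U \ PW).card := rfl
      omega)
    apply eq_empty_of_forall_notMem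
    intro v hv
    obtain ⟨_, C, hC, _⟩ := mem_filter.1 hv
    rw [h2] at hC
    exact absurd hC (notMem_empty C)

end Setup

/-- The normal form for the picks outside of the family: only the vertices `u i`, matched to the
trivial pieces `w i`, are picked; `W0` consists of the unmatched trivial pieces; `D 0, ..., D g'`
are unmatched pieces (nontrivial, if `1 ≤ g'`), and `E` is the rest. -/
structure NF2 (R : SimpleGraph V) (a g s g' e t : ℕ) (u w : Fin s → V) (W0 E : Finset V)
    (D : Fin (g' + 1) → Finset V) (d : Fin (g' + 1) → ℕ) : Prop where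
  inj_u : Function.Injective u
  inj_w : Function.Injective w
  cover : ∀ v, (∃ i, v = u i) ∨ (∃ i, v = w i) ∨ v ∈ W0 ∨ (∃ j, v ∈ D j) ∨ v ∈ E
  uw : ∀ i j, u i ≠ w j
  uW0 : ∀ i, u i ∉ W0
  uD : ∀ i j, u i ∉ D j
  uE : ∀ i, u i ∉ E
  wW0 : ∀ i, w i ∉ W0
  wD : ∀ i j, w i ∉ D j
  wE : ∀ i, w i ∉ E
  W0D : ∀ j, Disjoint W0 (D j)
  W0E : Disjoint W0 E
  DE : ∀ j, Disjoint (D j) E
  adj : ∀ i, R.Adj (u i) (w i)
  nbrw : ∀ i v, R.Adj (w i) v → ∃ j, v = u j
  nbr0 : ∀ x ∈ W0, ∀ v, R.Adj x v → ∃ j, v = u j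
  W0card : W0.card + g' = g
  sepD : ∀ i j, i ≠ j → Sep R (D i) (D j)
  piece : ∀ j, TightPiece R (D j) (d j)
  big : 1 ≤ g' → ∀ j, 2 ≤ d j
  cardE : E.card = 2 * e
  sum : e + ∑ j, d j + s = a
  th_E : ∀ x ∈ D 0, th R (insert x E) = e + 1
  mat : HasMat R E t

theorem th_biUnion_le {ι : Type} (S : Finset ι) (X : ι → Finset V) :
    th R (S.biUnion X) ≤ ∑ i ∈ S, th R (X i) := by
  induction S using Finset.induction_on with
  | empty => rw [biUnion_empty, th_empty, sum_empty]
  | insert i S hi ih =>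
    rw [biUnion_insert, sum_insert hi]
    exact th_union_le.trans (Nat.add_le_add_left ih _)

theorem th_le_card (X : Finset V) : th R X ≤ X.card := by
  have := th_compl R X
  rcases X.eq_empty_or_nonempty with rfl | h
  · rw [th_empty]
    exact Nat.zero_le _
  · have := th_pos (R := Rᶜ) h
    omega

theorem TightPiece.erase {P : Finset V} {c : ℕ} (h : TightPiece R P c) {x : V} (hx : x ∈ P) :
    th R (P.erase x) = c := by
  have h1 := h.crit.erase hx
  rw [h.theta] at h1
  omega

/-- a vertex with a neighbour in the piece can be added for free -/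
theorem TightPiece.insert_le {P : Finset V} {c : ℕ} (h : TightPiece R P c) {u y : V} (hy : y ∈ P)
    (hadj : R.Adj u y) : th R (insert u P) ≤ c + 1 := by
  have h1 : insert u P ⊆ P.erase y ∪ {u, y} := by
    intro v hv
    rw [mem_insert] at hv
    rw [mem_union, mem_erase, mem_insert, mem_singleton]
    rcases hv with rfl | hv
    · exact Or.inr (Or.inl rfl)
    · by_cases h2 : v = y
      · exact Or.inr (Or.inr h2)
      · exact Or.inl ⟨h2, hv⟩
  refine (th_mono h1).trans (th_union_le.trans ?_)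
  rw [h.erase hy]
  apply Nat.add_le_add_left
  apply th_clique
  intro v hv z hz hvz
  rw [mem_insert, mem_singleton] at hv hz
  rcases hv with rfl | rfl <;> rcases hz with rfl | rfl
  · exact absurd rfl hvz
  · exact hadj
  · exact hadj.symm
  · exact absurd rfl hvz

namespace Setup

variable {a g : ℕ} {T : Finset (Finset V)} {U : Finset V} {c : Finset V → ℕ}

/-- the unmatched pieces can be distributed -/
theorem unmatched (h : Setup R a g T U c) (f : {x // x ∈ U} → Finset V)
    (hinj : Function.Injective f) (hfT : ∀ x, f x ∈ T) {S : Finset (Finset V)}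
    (hS : ∀ C ∈ T, c C = 0 → C ∉ S → ∃ x, f x = C) :
    ∃ (g' : ℕ) (W : Finset (Finset V)) (D : Fin (g' + 1) → Finset V), W.card + g' = g ∧
      W ⊆ T ∧ (∀ C ∈ W, C ∈ S ∧ ∀ x, f x ≠ C) ∧ Function.Injective D ∧
      (∀ j, D j ∈ T ∧ D j ∉ W ∧ ∀ x, f x ≠ D j) ∧ (1 ≤ g' → ∀ j, D j ∉ S ∧ c (D j) ≠ 0) ∧
      (1 ≤ g → g' = g → ∀ C ∈ S, C ∈ T → ∃ x, f x = C) := by
  set Un := T \ univ.image f with hUn
  have hUnc : g + 1 ≤ Un.card := by
    have h1 : univ.image f ⊆ T := by
      intro C hC
      rw [mem_image] at hC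
      obtain ⟨x, _, rfl⟩ := hC
      exact hfT x
    have h2 : Un.card + (univ.image f).card = T.card := by
      rw [hUn, card_sdiff_add_card, union_eq_left.2 h1]
    rw [card_image_of_injective _ hinj, card_univ, Fintype.card_coe] at h2
    have := h.card
    omega
  have hUn' : ∀ C ∈ Un, C ∈ T ∧ ∀ x, f x ≠ C := by
    intro C hC
    rw [hUn, mem_sdiff, mem_image] at hC
    exact ⟨hC.1, fun x hx => hC.2 ⟨x, mem_univ _, hx⟩⟩
  rcases Nat.lt_or_ge (Un.filter (fun C => C ∈ S)).card g with h1 | h1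
  · have h2 : (g - (Un.filter (fun C => C ∈ S)).card) + 1 ≤ (Un.filter (fun C => C ∉ S)).card := by
      have := card_filter_add_card_filter_not (s := Un) (fun C => C ∈ S)
      omega
    obtain ⟨Z, hZ, hZc⟩ := exists_subset_card_eq h2
    let e : Fin ((g - (Un.filter (fun C => C ∈ S)).card) + 1) ≃ {x // x ∈ Z} :=
      (Finset.equivFinOfCardEq hZc).symm
    have he : ∀ j, (e j).1 ∈ Un ∧ (e j).1 ∉ S := fun j => mem_filter.1 (hZ (e j).2)
    refine ⟨g - (Un.filter (fun C => C ∈ S)).card, Un.filter (fun C => C ∈ S), fun j => (e j).1,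
      by omega, ?_, ?_, ?_, ?_, ?_, ?_⟩
    · intro C hC
      exact (hUn' C (mem_filter.1 hC).1).1
    · intro C hC
      exact ⟨(mem_filter.1 hC).2, (hUn' C (mem_filter.1 hC).1).2⟩
    · exact fun i j hij => e.injective (Subtype.ext hij)
    · intro j
      exact ⟨(hUn' _ (he j).1).1, fun h3 => (he j).2 (mem_filter.1 h3).2, (hUn' _ (he j).1).2⟩
    · intro _ j
      refine ⟨(he j).2, fun h3 => ?_⟩
      obtain ⟨x, hx⟩ := hS _ (hUn' _ (he j).1).1 h3 (he j).2
      exact (hUn' _ (he j).1).2 x hx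
    · intro _ h3 C hC hCT
      by_contra h4
      push Not at h4
      have h5 : (Un.filter (fun C => C ∈ S)).card = 0 := by omega
      rw [card_eq_zero, filter_eq_empty_iff] at h5
      refine h5 (x := C) ?_ hC
      rw [hUn, mem_sdiff, mem_image]
      exact ⟨hCT, fun ⟨x, _, hx⟩ => h4 x hx⟩
  · obtain ⟨W, hW, hWc⟩ := exists_subset_card_eq h1
    have hWU : W ⊆ Un := hW.trans (filter_subset _ _)
    have h2 : (Un \ W).Nonempty := by
      rw [← card_pos]
      have : (Un \ W).card + W.card = Un.card := by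
        rw [card_sdiff_add_card, union_eq_left.2 hWU]
      omega
    obtain ⟨C0, hC0⟩ := h2
    rw [mem_sdiff] at hC0
    refine ⟨0, W, fun _ => C0, by omega, fun C hC => (hUn' C (hWU hC)).1, ?_, ?_, ?_, ?_, ?_⟩
    · intro C hC
      exact ⟨(mem_filter.1 (hW hC)).2, (hUn' C (hWU hC)).2⟩
    · intro i j _
      apply Fin.ext
      omega
    · exact fun _ => ⟨(hUn' C0 hC0.1).1, hC0.2, (hUn' C0 hC0.1).2⟩
    · intro h3
      omega
    · intro h3 h4
      omega

theorem disj_pieces (h : Setup R a g T U c) {C D : Finset V} (hC : C ∈ T) (hD : D ∈ T)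
    (hCD : C ≠ D) {x : V} (hx : x ∈ C) : x ∉ D :=
  fun hx' => disjoint_left.1 (h.disjT C hC D hD hCD) hx hx'

theorem notMem_of_U (h : Setup R a g T U c) {C : Finset V} (hC : C ∈ T) {x : V} (hx : x ∈ U) :
    x ∉ C := fun hx' => disjoint_left.1 (h.disjU C hC) hx hx'

/-- **The normal form (N2)** from a good matching. -/
theorem nf2 (h : Setup R a g T U c) (hV : Fintype.card V = 2 * a + g + 1)
    (hth : th R univ = a + g + 1) {f : {x // x ∈ U} → Finset V} {PW : Finset V}
    {S : Finset (Finset V)} (hinj : Function.Injective f)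
    (hf : ∀ x, f x ∈ T ∧ ∃ y ∈ f x, R.Adj x.1 y) (hPW : PW ⊆ U) (hST : S ⊆ T)
    (hS0 : ∀ C ∈ S, c C = 0) (hiff : ∀ x : {x // x ∈ U}, x.1 ∈ PW ↔ f x ∈ S)
    (hSn : ∀ C ∈ S, ∀ x ∈ C, ∀ y, R.Adj x y → y ∈ PW) {g' : ℕ} {W : Finset (Finset V)}
    {D : Fin (g' + 1) → Finset V} (hWg : W.card + g' = g) (hWT : W ⊆ T)
    (hW : ∀ C ∈ W, C ∈ S ∧ ∀ x, f x ≠ C) (hD : Function.Injective D)
    (hDT : ∀ j, D j ∈ T ∧ D j ∉ W ∧ ∀ x, f x ≠ D j)
    (hDS : 1 ≤ g' → ∀ j, D j ∉ S ∧ c (D j) ≠ 0) :
    ∃ (e : ℕ) (u w : Fin PW.card → V) (W0 E : Finset V),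
      NF2 R a g PW.card g' e (U \ PW).card u w W0 E D (fun j => c (D j)) := by
  let eP : Fin PW.card ≃ {x // x ∈ PW} := (Finset.equivFinOfCardEq rfl).symm
  set fU : Fin PW.card → Finset V := fun i => f ⟨(eP i).1, hPW (eP i).2⟩ with hfU
  have hfUinj : Function.Injective fU := by
    intro i j hij
    have h1 := hinj hij
    exact eP.injective (Subtype.ext (congrArg (fun z : {x // x ∈ U} => z.1) h1))
  have hfUS : ∀ i, fU i ∈ S := fun i => (hiff ⟨(eP i).1, hPW (eP i).2⟩).1 (eP i).2
  have hfUT : ∀ i, fU i ∈ T := fun i => hST (hfUS i)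
  have hsing : ∀ i, ∃ x, fU i = {x} := by
    intro i
    apply card_eq_one.1
    rw [(h.piece _ (hfUT i)).card, hS0 _ (hfUS i)]
  choose w hw using hsing
  have hwmem : ∀ i, w i ∈ fU i := fun i => by rw [hw i]; exact mem_singleton_self _
  set Q1 : Finset (Finset V) := univ.image fU with hQ1
  set QD : Finset (Finset V) := univ.image D with hQD
  set QQ : Finset (Finset V) := (Q1 ∪ W) ∪ QD with hQQ
  have hQ1W : Disjoint Q1 W := by
    rw [Finset.disjoint_left]
    intro C hC hC'
    rw [hQ1, mem_image] at hC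
    obtain ⟨i, _, rfl⟩ := hC
    exact (hW _ hC').2 _ rfl
  have hQ1D : Disjoint (Q1 ∪ W) QD := by
    rw [Finset.disjoint_left]
    intro C hC hC'
    rw [hQD, mem_image] at hC'
    obtain ⟨j, _, rfl⟩ := hC'
    rw [mem_union, hQ1, mem_image] at hC
    rcases hC with ⟨i, _, hi⟩ | hC
    · exact (hDT j).2.2 _ hi
    · exact (hDT j).2.1 hC
  have hQQT : QQ ⊆ T := by
    intro C hC
    rw [hQQ, mem_union, mem_union, hQ1, hQD, mem_image, mem_image] at hC
    rcases hC with (⟨i, _, rfl⟩ | hC) | ⟨j, _, rfl⟩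
    · exact hfUT i
    · exact hWT hC
    · exact (hDT j).1
  have hsum : ∀ F : Finset V → ℕ,
      ∑ C ∈ QQ, F C = ∑ i, F (fU i) + ∑ C ∈ W, F C + ∑ j, F (D j) := by
    intro F
    rw [hQQ, sum_union hQ1D, sum_union hQ1W, hQ1, hQD, sum_image (fun i _ j _ h => hfUinj h),
      sum_image (fun i _ j _ h => hD h)]
  have hfU0 : ∀ i, c (fU i) = 0 := fun i => hS0 _ (hfUS i)
  have hW0c : ∀ C ∈ W, c C = 0 := fun C hC => hS0 _ (hW C hC).1
  have e1 : ∑ i, (c (fU i) + 1) = PW.card := by
    rw [sum_congr rfl (fun i _ => show c (fU i) + 1 = 1 by rw [hfU0 i]), sum_const, card_univ,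
      Fintype.card_fin, smul_eq_mul, mul_one]
  have e1' : ∑ i, (2 * c (fU i) + 1) = PW.card := by
    rw [sum_congr rfl (fun i _ => show 2 * c (fU i) + 1 = 1 by rw [hfU0 i]), sum_const, card_univ,
      Fintype.card_fin, smul_eq_mul, mul_one]
  have e2 : ∑ C ∈ W, (c C + 1) = W.card := by
    rw [sum_congr rfl (fun C hC => show c C + 1 = 1 by rw [hW0c C hC]), sum_const, smul_eq_mul,
      mul_one]
  have e2' : ∑ C ∈ W, (2 * c C + 1) = W.card := by
    rw [sum_congr rfl (fun C hC => show 2 * c C + 1 = 1 by rw [hW0c C hC]), sum_const,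
      smul_eq_mul, mul_one]
  have e3 : ∑ j, (c (D j) + 1) = ∑ j, c (D j) + (g' + 1) := by
    rw [sum_add_distrib, sum_const, card_univ, Fintype.card_fin, smul_eq_mul, mul_one]
  have e3' : ∑ j, (2 * c (D j) + 1) = 2 * ∑ j, c (D j) + (g' + 1) := by
    rw [sum_add_distrib, ← mul_sum, sum_const, card_univ, Fintype.card_fin, smul_eq_mul, mul_one]
  have hs1 : ∑ C ∈ QQ, (c C + 1) = PW.card + W.card + (∑ j, c (D j) + (g' + 1)) := by
    rw [hsum, e1, e2, e3]
  have hs2 : ∑ C ∈ QQ, (2 * c C + 1) = PW.card + W.card + (2 * ∑ j, c (D j) + (g' + 1)) := by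
    rw [hsum, e1', e2', e3']
  set BQ : Finset V := QQ.biUnion id with hBQ
  set W0 : Finset V := W.biUnion id with hW0
  have hmemBQ : ∀ v, v ∈ BQ ↔ (∃ i, v = w i) ∨ v ∈ W0 ∨ ∃ j, v ∈ D j := by
    intro v
    rw [hBQ, hQQ, mem_biUnion]
    constructor
    · rintro ⟨C, hC, hv⟩
      rw [mem_union, mem_union, hQ1, hQD, mem_image, mem_image] at hC
      rcases hC with (⟨i, _, rfl⟩ | hC) | ⟨j, _, rfl⟩
      · left
        change v ∈ fU i at hv
        rw [hw i, mem_singleton] at hv
        exact ⟨i, hv⟩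
      · exact Or.inr (Or.inl (mem_biUnion.2 ⟨C, hC, hv⟩))
      · exact Or.inr (Or.inr ⟨j, hv⟩)
    · rintro (⟨i, rfl⟩ | hv | ⟨j, hv⟩)
      · exact ⟨fU i, mem_union_left _ (mem_union_left _ (mem_image_of_mem _ (mem_univ _))), hwmem i⟩
      · obtain ⟨C, hC, hv⟩ := mem_biUnion.1 hv
        exact ⟨C, mem_union_left _ (mem_union_right _ hC), hv⟩
      · exact ⟨D j, mem_union_right _ (mem_image_of_mem _ (mem_univ _)), hv⟩
  have hUBQ : ∀ v ∈ U, v ∉ BQ := by
    intro v hv hv'
    obtain ⟨C, hC, hv'⟩ := mem_biUnion.1 hv'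
    exact h.notMem_of_U (hQQT hC) hv hv'
  have hBQc : BQ.card = PW.card + W.card + (2 * ∑ j, c (D j) + (g' + 1)) := by
    rw [← hs2]
    exact h.card_pieces hQQT
  have hBQth : th R ((univ \ U) \ BQ) + (PW.card + W.card + (∑ j, c (D j) + (g' + 1))) =
      a + g + 1 := by
    rw [← hs1]
    exact h.th_sdiff hQQT
  have hPB : Disjoint PW BQ := by
    rw [Finset.disjoint_left]
    exact fun v hv => hUBQ v (hPW hv)
  set E : Finset V := univ \ (PW ∪ BQ) with hE
  have hEc : E.card + (PW.card + BQ.card) = 2 * a + g + 1 := by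
    rw [hE, ← card_union_of_disjoint hPB, card_sdiff_add_card, union_eq_left.2 (subset_univ _),
      card_univ, hV]
  have hmemE : ∀ v, v ∈ E ↔ v ∉ PW ∧ v ∉ BQ := by
    intro v
    rw [hE, mem_sdiff, mem_union]
    push Not
    exact ⟨fun h1 => h1.2, fun h1 => ⟨mem_univ _, h1⟩⟩
  have hDBQ : ∀ j, ∀ v ∈ D j, v ∈ BQ := fun j v hv => (hmemBQ v).2 (Or.inr (Or.inr ⟨j, hv⟩))
  have hW0BQ : ∀ v ∈ W0, v ∈ BQ := fun v hv => (hmemBQ v).2 (Or.inr (Or.inl hv))
  have hwBQ : ∀ i, w i ∈ BQ := fun i => (hmemBQ _).2 (Or.inl ⟨i, rfl⟩)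
  have huU : ∀ i, (eP i).1 ∈ U := fun i => hPW (eP i).2
  have hfUD : ∀ i j, fU i ≠ D j := fun i j => (hDT j).2.2 _
  have hW0card : W0.card = W.card := by
    rw [← e2']
    exact h.card_pieces hWT
  have hW0th : th R W0 = W.card := by
    have h1 := h.th_pieces hWT
    rw [e2] at h1
    exact h1
  -- the matched pieces outside
  set f2 : {x // x ∈ U \ PW} → Finset V := fun z => f ⟨z.1, (mem_sdiff.1 z.2).1⟩ with hf2
  have hf2inj : Function.Injective f2 := by
    intro x y hxy
    exact Subtype.ext (congrArg (fun z : {x // x ∈ U} => z.1) (hinj hxy))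
  have hf2T : ∀ z, f2 z ∈ T := fun z => (hf _).1
  have hf2QQ : ∀ z, f2 z ∉ QQ := by
    intro z hz
    rw [hQQ, mem_union, mem_union, hQ1, hQD, mem_image, mem_image] at hz
    rcases hz with (⟨i, _, hi⟩ | hC) | ⟨j, _, hj⟩
    · have h1 := hinj hi
      have h2 : (eP i).1 = z.1 := congrArg (fun z : {x // x ∈ U} => z.1) h1
      exact (mem_sdiff.1 z.2).2 (h2 ▸ (eP i).2)
    · exact (hW _ hC).2 _ rfl
    · exact (hDT j).2.2 _ hj.symm
  have hf2BQ : ∀ z, ∀ v ∈ f2 z, v ∉ BQ := by
    intro z v hv hv'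
    obtain ⟨C, hC, hv'⟩ := mem_biUnion.1 hv'
    exact h.disj_pieces (hf2T z) (hQQT hC) (fun h1 => hf2QQ z (h1 ▸ hC)) hv hv'
  have hf2y : ∀ z, ∃ y ∈ f2 z, R.Adj z.1 y := fun z => (hf _).2
  choose y hy hya using hf2y
  refine ⟨a - PW.card - ∑ j, c (D j), fun i => (eP i).1, w, W0, E, ?_, ?_, ?_, ?_, ?_, ?_, ?_, ?_,
    ?_, ?_, ?_, ?_, ?_, ?_, ?_, ?_, ?_, ?_, ?_, ?_, ?_, ?_, ?_, ?_⟩
  · exact fun i j h1 => eP.injective (Subtype.ext h1)
  · intro i j hij
    apply hfUinj
    rw [hw i, hw j, hij]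
  · intro v
    by_cases h1 : v ∈ PW
    · left
      exact ⟨eP.symm ⟨v, h1⟩, by simp⟩
    · by_cases h2 : v ∈ BQ
      · rcases (hmemBQ v).1 h2 with h3 | h3 | h3
        · exact Or.inr (Or.inl h3)
        · exact Or.inr (Or.inr (Or.inl h3))
        · exact Or.inr (Or.inr (Or.inr (Or.inl h3)))
      · exact Or.inr (Or.inr (Or.inr (Or.inr ((hmemE v).2 ⟨h1, h2⟩))))
  · intro i j hij
    exact hUBQ _ (huU i) (hij ▸ hwBQ j)
  · exact fun i h1 => hUBQ _ (huU i) (hW0BQ _ h1)
  · exact fun i j h1 => hUBQ _ (huU i) (hDBQ j _ h1)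
  · exact fun i h1 => ((hmemE _).1 h1).1 (eP i).2
  · intro i h1
    obtain ⟨C, hC, h1⟩ := mem_biUnion.1 h1
    exact h.disj_pieces (hfUT i) (hWT hC) (fun h2 => (hW C hC).2 _ h2) (hwmem i) h1
  · exact fun i j => h.disj_pieces (hfUT i) (hDT j).1 (hfUD i j) (hwmem i)
  · exact fun i h1 => ((hmemE _).1 h1).2 (hwBQ i)
  · intro j
    rw [Finset.disjoint_left]
    intro v hv hv'
    obtain ⟨C, hC, hv⟩ := mem_biUnion.1 hv
    exact h.disj_pieces (hWT hC) (hDT j).1 (fun h2 => (hDT j).2.1 (h2 ▸ hC)) hv hv'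
  · rw [Finset.disjoint_left]
    exact fun v hv hv' => ((hmemE v).1 hv').2 (hW0BQ v hv)
  · intro j
    rw [Finset.disjoint_left]
    exact fun v hv hv' => ((hmemE v).1 hv').2 (hDBQ j v hv)
  · intro i
    obtain ⟨_, z, hz, hadj⟩ := hf ⟨(eP i).1, hPW (eP i).2⟩
    have h1 : z ∈ fU i := hz
    rw [hw i, mem_singleton] at h1
    exact h1 ▸ hadj
  · intro i v hadj
    have h1 := hSn _ (hfUS i) _ (hwmem i) v hadj
    exact ⟨eP.symm ⟨v, h1⟩, by simp⟩
  · intro x hx v hadj
    obtain ⟨C, hC, hx⟩ := mem_biUnion.1 hx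
    have h1 := hSn _ (hW C hC).1 _ hx v hadj
    exact ⟨eP.symm ⟨v, h1⟩, by simp⟩
  · omega
  · exact fun i j hij => h.sep (hDT i).1 (hDT j).1 (fun h1 => hij (hD h1))
  · exact fun j => h.piece _ (hDT j).1
  · intro h1 j
    have h2 := (hDS h1 j).2
    have h3 := (h.piece _ (hDT j).1).size
    omega
  · omega
  · omega
  · intro x hx
    apply le_antisymm
    · -- upper bound
      set Q2 : Finset (Finset V) := univ.image f2 with hQ2
      have hQ2T : QQ ∪ Q2 ⊆ T := by
        intro C hC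
        rw [mem_union, hQ2, mem_image] at hC
        rcases hC with hC | ⟨z, _, rfl⟩
        · exact hQQT hC
        · exact hf2T z
      have hdis : Disjoint QQ Q2 := by
        rw [Finset.disjoint_left]
        intro C hC hC'
        rw [hQ2, mem_image] at hC'
        obtain ⟨z, _, rfl⟩ := hC'
        exact hf2QQ z hC
      have h1 := h.th_sdiff hQ2T
      rw [sum_union hdis, hs1, hQ2, sum_image (fun i _ j _ h => hf2inj h)] at h1
      have h2 : insert x E ⊆ (((univ \ U) \ (QQ ∪ univ.image f2).biUnion id) ∪ {x}) ∪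
          (univ : Finset {x // x ∈ U \ PW}).biUnion (fun z => insert z.1 (f2 z)) := by
        intro v hv
        rw [mem_insert] at hv
        rw [mem_union, mem_union]
        rcases hv with rfl | hv
        · exact Or.inl (Or.inr (mem_singleton_self _))
        · rw [hmemE] at hv
          by_cases h3 : v ∈ U
          · right
            rw [mem_biUnion]
            exact ⟨⟨v, mem_sdiff.2 ⟨h3, hv.1⟩⟩, mem_univ _, mem_insert_self _ _⟩
          · by_cases h4 : v ∈ (QQ ∪ univ.image f2).biUnion id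
            · right
              obtain ⟨C, hC, h4⟩ := mem_biUnion.1 h4
              rw [mem_union, mem_image] at hC
              rcases hC with hC | ⟨z, _, rfl⟩
              · exact absurd (mem_biUnion.2 ⟨C, hC, h4⟩) hv.2
              · rw [mem_biUnion]
                exact ⟨z, mem_univ _, mem_insert_of_mem h4⟩
            · left; left
              rw [mem_sdiff, mem_sdiff]
              exact ⟨⟨mem_univ _, h3⟩, h4⟩
      have h3 := (th_mono (R := R) h2).trans th_union_le
      have h4 := (th_biUnion_le (R := R) (univ : Finset {x // x ∈ U \ PW})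
        (fun z => insert z.1 (f2 z)))
      have h5 : ∑ z : {x // x ∈ U \ PW}, th R (insert z.1 (f2 z)) ≤
          ∑ z : {x // x ∈ U \ PW}, (c (f2 z) + 1) :=
        sum_le_sum (fun z _ => (h.piece _ (hf2T z)).insert_le (hy z) (hya z))
      have h6 := th_union_le (R := R) (X := (univ \ U) \ (QQ ∪ univ.image f2).biUnion id)
        (Y := {x})
      rw [th_singleton] at h6
      omega
    · -- lower bound
      have h2 : (univ : Finset V) ⊆ (((univ : Finset (Fin PW.card)).biUnion
          (fun i => {(eP i).1, w i}) ∪ W0) ∪ (insert x E)) ∪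
          ((D 0).erase x ∪ (univ.erase 0).biUnion D) := by
        intro v _
        simp only [mem_union]
        by_cases h1 : v ∈ PW
        · left; left; left
          rw [mem_biUnion]
          refine ⟨eP.symm ⟨v, h1⟩, mem_univ _, ?_⟩
          rw [mem_insert]
          left
          simp
        · by_cases h3 : v ∈ BQ
          · rcases (hmemBQ v).1 h3 with ⟨i, rfl⟩ | h4 | ⟨j, h4⟩
            · left; left; left
              rw [mem_biUnion]
              exact ⟨i, mem_univ _, mem_insert_of_mem (mem_singleton_self _)⟩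
            · exact Or.inl (Or.inl (Or.inr h4))
            · by_cases h5 : j = 0
              · subst h5
                by_cases h6 : v = x
                · exact Or.inl (Or.inr (h6 ▸ mem_insert_self _ _))
                · exact Or.inr (Or.inl (mem_erase.2 ⟨h6, h4⟩))
              · right; right
                rw [mem_biUnion]
                exact ⟨j, mem_erase.2 ⟨h5, mem_univ _⟩, h4⟩
          · exact Or.inl (Or.inr (mem_insert_of_mem ((hmemE v).2 ⟨h1, h3⟩)))
      have h3 := (th_mono (R := R) h2)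
      rw [hth] at h3
      have h4 := h3.trans (th_union_le.trans (add_le_add (th_union_le.trans (add_le_add
        (th_union_le.trans (add_le_add (th_biUnion_le _ _) hW0th.le)) le_rfl))
        (th_union_le.trans (add_le_add ((h.piece _ (hDT 0).1).erase hx).le (th_biUnion_le _ _)))))
      have h5 : ∑ i : Fin PW.card, th R {(eP i).1, w i} ≤ PW.card := by
        calc ∑ i : Fin PW.card, th R {(eP i).1, w i} ≤ ∑ _i : Fin PW.card, 1 := by
              apply sum_le_sum
              intro i _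
              have hadj : R.Adj (eP i).1 (w i) := by
                obtain ⟨_, z, hz, hadj⟩ := hf ⟨(eP i).1, hPW (eP i).2⟩
                have h1 : z ∈ fU i := hz
                rw [hw i, mem_singleton] at h1
                exact h1 ▸ hadj
              apply th_clique
              intro v hv z hz hvz
              rw [mem_insert, mem_singleton] at hv hz
              rcases hv with rfl | rfl <;> rcases hz with rfl | rfl
              · exact absurd rfl hvz
              · exact hadj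
              · exact hadj.symm
              · exact absurd rfl hvz
          _ = PW.card := by rw [sum_const, card_univ, Fintype.card_fin, smul_eq_mul, mul_one]
      have h6 : ∑ j ∈ univ.erase 0, th R (D j) + (c (D 0) + 1) = ∑ j, c (D j) + (g' + 1) := by
        rw [← (h.piece _ (hDT 0).1).theta, sum_erase_add _ _ (mem_univ _),
          sum_congr rfl (fun j _ => (h.piece _ (hDT j).1).theta), sum_add_distrib, sum_const,
          card_univ, Fintype.card_fin, smul_eq_mul, mul_one]
      omega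
  · refine ⟨univ.image (fun z => {z.1, y z}), ⟨?_, ?_⟩, ?_⟩
    · intro ed hed
      rw [mem_image] at hed
      obtain ⟨z, _, rfl⟩ := hed
      refine ⟨z.1, ?_, y z, ?_, hya z, rfl⟩
      · rw [hmemE]
        exact ⟨(mem_sdiff.1 z.2).2, hUBQ _ (mem_sdiff.1 z.2).1⟩
      · rw [hmemE]
        exact ⟨fun h1 => h.notMem_of_U (hf2T z) (hPW h1) (hy z), hf2BQ z _ (hy z)⟩
    · intro ed hed ed' hed' hne
      rw [mem_image] at hed hed'
      obtain ⟨z, _, rfl⟩ := hed
      obtain ⟨z', _, rfl⟩ := hed'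
      have hzz : z ≠ z' := fun h1 => hne (by rw [h1])
      rw [Finset.disjoint_left]
      intro v hv hv'
      rw [mem_insert, mem_singleton] at hv hv'
      rcases hv with rfl | rfl <;> rcases hv' with h1 | h1
      · exact hzz (Subtype.ext h1)
      · exact h.notMem_of_U (hf2T z') (mem_sdiff.1 z.2).1 (h1 ▸ hy z')
      · exact h.notMem_of_U (hf2T z) (mem_sdiff.1 z'.2).1 (h1 ▸ hy z)
      · exact h.disj_pieces (hf2T z) (hf2T z') (fun h2 => hzz (hf2inj h2)) (hy z) (h1 ▸ hy z')
    · rw [card_image_of_injective, card_univ, Fintype.card_coe]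
      intro z z' hzz
      have h1 : ({z.1, y z} : Finset V) = {z'.1, y z'} := hzz
      have h2 : z.1 ∈ ({z'.1, y z'} : Finset V) := by
        rw [← h1]
        exact mem_insert_self _ _
      rw [mem_insert, mem_singleton] at h2
      rcases h2 with h2 | h2
      · exact Subtype.ext h2
      · exact absurd (h2 ▸ hy z') (h.notMem_of_U (hf2T z') (mem_sdiff.1 z.2).1)

end Setup

/-- the König case, with the two sides listed -/
theorem koenig_core {a g n : ℕ} (hV : Fintype.card V = 2 * a + g + 1) (ha : 1 ≤ a)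
    {u w : Fin n → V} {W0 : Finset V} (hw : Function.Injective w)
    (hu : Function.Injective u)
    (hcov : ∀ v, (∃ i, v = u i) ∨ (∃ i, v = w i) ∨ v ∈ W0)
    (huw : ∀ i j, u i ≠ w j) (huW : ∀ i, u i ∉ W0) (_hwW : ∀ i, w i ∉ W0)
    (hadj : ∀ i, R.Adj (u i) (w i)) (hn : n = a)
    (hind : ∀ x ∈ univ.image w ∪ W0, ∀ y ∈ univ.image w ∪ W0, ¬ R.Adj x y) :
    Forces (a : ℝ) ((a + g : ℕ) : ℝ) R Rᶜ := by
  set I : Finset V := univ.image w ∪ W0 with hI
  have hIc : I.card = a + g + 1 := by
    have h1 : (univ : Finset V) = univ.image u ∪ I := by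
      ext v
      rw [hI, mem_union, mem_union, mem_image, mem_image]
      refine ⟨fun _ => ?_, fun _ => mem_univ _⟩
      rcases hcov v with ⟨i, rfl⟩ | ⟨i, rfl⟩ | h2
      · exact Or.inl ⟨i, mem_univ _, rfl⟩
      · exact Or.inr (Or.inl ⟨i, mem_univ _, rfl⟩)
      · exact Or.inr (Or.inr h2)
    have h2 : Disjoint (univ.image u) I := by
      rw [Finset.disjoint_left]
      intro v hv hv'
      rw [mem_image] at hv
      obtain ⟨i, _, rfl⟩ := hv
      rw [hI, mem_union, mem_image] at hv'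
      rcases hv' with ⟨j, _, hj⟩ | hv'
      · exact huw i j hj.symm
      · exact huW i hv'
    have h3 := congrArg Finset.card h1
    rw [card_union_of_disjoint h2, card_univ, hV, card_image_of_injective _ hu, card_univ,
      Fintype.card_fin] at h3
    omega
  have hout : ∀ x : {x // ¬ x ∈ I}, ∃ i, x.1 = u i := by
    intro x
    rcases hcov x.1 with h1 | ⟨i, h1⟩ | h1
    · exact h1
    · exfalso
      apply x.2
      rw [h1]
      exact mem_union_left _ (mem_image_of_mem _ (mem_univ _))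
    · exact absurd (mem_union_right _ h1) x.2
  choose ix hix using hout
  have h1 := forces_koenig R I hind (by omega) (by omega)
    (fun x => ⟨w (ix x), mem_union_left _ (mem_image_of_mem _ (mem_univ _))⟩) (by
      intro x y hxy
      have h2 := hw (congrArg Subtype.val hxy)
      apply Subtype.ext
      rw [hix x, hix y, h2]) (by
      intro x
      have h2 := hadj (ix x)
      rw [← hix x] at h2
      exact h2)
  rw [hIc, hV] at h1
  have e1 : ((2 * a + g + 1 : ℕ) : ℝ) - ((a + g + 1 : ℕ) : ℝ) = a := by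
    push_cast
    ring
  have e2 : ((a + g + 1 : ℕ) : ℝ) - 1 = ((a + g : ℕ) : ℝ) := by
    push_cast
    ring
  rw [e1, e2] at h1
  exact h1

/-- the case in which almost everything is picked -/
theorem NF2.koenig {a g s g' e t : ℕ} {u w : Fin s → V} {W0 E : Finset V}
    {D : Fin (g' + 1) → Finset V} {d : Fin (g' + 1) → ℕ} (h : NF2 R a g s g' e t u w W0 E D d)
    (hV : Fintype.card V = 2 * a + g + 1) (ha : 1 ≤ a) (hle : e + ∑ j, d j ≤ 1) :
    Forces (a : ℝ) ((a + g : ℕ) : ℝ) R Rᶜ := by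
  have hd0 : d 0 ≤ ∑ j, d j := single_le_sum (fun _ _ => Nat.zero_le _) (mem_univ 0)
  have hg' : g' = 0 := by
    by_contra hcon
    have := h.big (by omega) 0
    omega
  have hd : d 0 = 0 := by
    have := (h.piece 0).size
    omega
  subst hg'
  have hsum : ∑ j, d j = 0 := by
    rw [Fin.sum_univ_succ, Fin.sum_univ_zero, hd, add_zero]
  obtain ⟨x0, hx0⟩ : ∃ x0, D 0 = {x0} := by
    apply card_eq_one.1
    rw [(h.piece 0).card, hd]
  have hx0D : x0 ∈ D 0 := by rw [hx0]; exact mem_singleton_self _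
  have hx0E : x0 ∉ E := disjoint_left.1 (h.DE 0) hx0D
  have hth := h.th_E x0 hx0D
  have hXc : (insert x0 E).card = 2 * e + 1 := by
    rw [card_insert_of_notMem hx0E, h.cardE]
  have hcov : ∀ v, (∃ i, v = u i) ∨ (∃ i, v = w i) ∨ v ∈ W0 ∨ v ∈ insert x0 E := by
    intro v
    rcases h.cover v with h1 | h1 | h1 | ⟨j, h1⟩ | h1
    · exact Or.inl h1
    · exact Or.inr (Or.inl h1)
    · exact Or.inr (Or.inr (Or.inl h1))
    · right; right; right
      have hj : j = 0 := Fin.ext (by omega)
      rw [hj, hx0, mem_singleton] at h1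
      rw [h1]
      exact mem_insert_self _ _
    · exact Or.inr (Or.inr (Or.inr (mem_insert_of_mem h1)))
  have huX : ∀ i, u i ∉ insert x0 E := by
    intro i h1
    rw [mem_insert] at h1
    rcases h1 with h1 | h1
    · exact h.uD i 0 (h1 ▸ hx0D)
    · exact h.uE i h1
  have hwX : ∀ i, w i ∉ insert x0 E := by
    intro i h1
    rw [mem_insert] at h1
    rcases h1 with h1 | h1
    · exact h.wD i 0 (h1 ▸ hx0D)
    · exact h.wE i h1
  have hWX : ∀ v ∈ W0, v ∉ insert x0 E := by
    intro v hv h1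
    rw [mem_insert] at h1
    rcases h1 with h1 | h1
    · exact disjoint_left.1 (h.W0D 0) hv (h1 ▸ hx0D)
    · exact disjoint_left.1 h.W0E hv h1
  -- the neighbours of the vertices of W
  have hnb : ∀ x, (x ∈ univ.image w ∪ W0) → ∀ y, R.Adj x y → ∃ j, y = u j := by
    intro x hx y hxy
    rw [mem_union, mem_image] at hx
    rcases hx with ⟨i, _, rfl⟩ | hx
    · exact h.nbrw i y hxy
    · exact h.nbr0 x hx y hxy
  have hsa := h.sum
  rcases (show e = 0 ∨ e = 1 by omega) with he | he
  · subst he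
    have hE : E = ∅ := card_eq_zero.1 (by rw [h.cardE])
    have hx0W : x0 ∉ W0 := fun h1 => hWX _ h1 (mem_insert_self _ _)
    refine koenig_core hV ha (W0 := insert x0 W0) h.inj_w h.inj_u ?_ h.uw ?_ ?_ h.adj
      (by omega) ?_
    · intro v
      rcases hcov v with h1 | h1 | h1 | h1
      · exact Or.inl h1
      · exact Or.inr (Or.inl h1)
      · exact Or.inr (Or.inr (mem_insert_of_mem h1))
      · rw [hE, mem_insert] at h1
        rcases h1 with rfl | h1
        · exact Or.inr (Or.inr (mem_insert_self _ _))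
        · exact absurd h1 (notMem_empty v)
    · intro i h1
      rw [mem_insert] at h1
      rcases h1 with h1 | h1
      · exact huX i (h1 ▸ mem_insert_self _ _)
      · exact h.uW0 i h1
    · intro i h1
      rw [mem_insert] at h1
      rcases h1 with h1 | h1
      · exact hwX i (h1 ▸ mem_insert_self _ _)
      · exact h.wW0 i h1
    · have key : ∀ x, x ∈ univ.image w ∪ insert x0 W0 → (x ∈ univ.image w ∪ W0) ∨ x = x0 := by
        intro x hx
        rw [mem_union, mem_insert] at hx
        rw [mem_union]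
        tauto
      have hux : ∀ x, x ∈ univ.image w ∪ insert x0 W0 → ∀ j, x ≠ u j := by
        intro x hx j hxj
        rw [mem_union, mem_insert, mem_image] at hx
        rcases hx with ⟨i, _, h1⟩ | h1 | h1
        · exact h.uw j i (hxj ▸ h1.symm)
        · exact huX j (by rw [← hxj, h1]; exact mem_insert_self _ _)
        · exact h.uW0 j (hxj ▸ h1)
      intro x hx y hy hadj
      rcases key x hx with h1 | h1
      · obtain ⟨j, hj⟩ := hnb x h1 y hadj
        exact hux y hy j hj
      · rcases key y hy with h2 | h2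
        · obtain ⟨j, hj⟩ := hnb y h2 x hadj.symm
          exact hux x hx j hj
        · rw [h1, h2] at hadj
          exact R.irrefl hadj
  · subst he
    -- the three vertices
    obtain ⟨p, q, r, hpq, hpr, hqr, hX, hadj, hnadj⟩ : ∃ p q r, p ≠ q ∧ p ≠ r ∧ q ≠ r ∧
        insert x0 E = {p, q, r} ∧ R.Adj p q ∧ ¬ R.Adj q r := by
      obtain ⟨x, y, z, hxy, hxz, hyz, hX⟩ := card_eq_three.1 hXc
      have hnot : ¬ (R.Adj x y ∧ R.Adj x z ∧ R.Adj y z) := by
        rintro ⟨h1, h2, h3⟩
        have h4 : th R (insert x0 E) ≤ 1 := by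
          apply th_clique
          rw [hX]
          intro v hv v' hv' hvv
          simp only [mem_insert, mem_singleton] at hv hv'
          rcases hv with rfl | rfl | rfl <;> rcases hv' with rfl | rfl | rfl
          · exact absurd rfl hvv
          · exact h1
          · exact h2
          · exact h1.symm
          · exact absurd rfl hvv
          · exact h3
          · exact h2.symm
          · exact h3.symm
          · exact absurd rfl hvv
        omega
      have hsome : R.Adj x y ∨ R.Adj x z ∨ R.Adj y z := by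
        obtain ⟨f, hf, hfc⟩ := th_spec R (insert x0 E)
        rw [hth] at hfc
        have h5 : ∃ v ∈ insert x0 E, ∃ v' ∈ insert x0 E, v ≠ v' ∧ f v = f v' :=
          exists_ne_map_eq_of_card_lt_of_maps_to (t := (insert x0 E).image f) (by omega)
            (fun v hv => mem_image_of_mem f hv)
        obtain ⟨v, hv, v', hv', hvv, hff⟩ := h5
        have h6 := hf v hv v' hv' hvv hff
        rw [hX] at hv hv'
        simp only [mem_insert, mem_singleton] at hv hv'
        rcases hv with rfl | rfl | rfl <;> rcases hv' with rfl | rfl | rfl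
        · exact absurd rfl hvv
        · exact Or.inl h6
        · exact Or.inr (Or.inl h6)
        · exact Or.inl h6.symm
        · exact absurd rfl hvv
        · exact Or.inr (Or.inr h6)
        · exact Or.inr (Or.inl h6.symm)
        · exact Or.inr (Or.inr h6.symm)
        · exact absurd rfl hvv
      by_cases h1 : R.Adj x y
      · by_cases h2 : R.Adj y z
        · have h3 : ¬ R.Adj x z := fun h3 => hnot ⟨h1, h3, h2⟩
          refine ⟨y, x, z, hxy.symm, hyz, hxz, ?_, h1.symm, h3⟩
          rw [hX]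
          ext v
          simp only [mem_insert, mem_singleton]
          tauto
        · exact ⟨x, y, z, hxy, hxz, hyz, hX, h1, h2⟩
      · by_cases h2 : R.Adj y z
        · refine ⟨z, y, x, hyz.symm, hxz.symm, hxy.symm, ?_, h2.symm, fun h3 => h1 h3.symm⟩
          rw [hX]
          ext v
          simp only [mem_insert, mem_singleton]
          tauto
        · have h3 : R.Adj x z := by tauto
          refine ⟨x, z, y, hxz, hxy, hyz.symm, ?_, h3, fun h4 => h2 h4.symm⟩
          rw [hX]
          ext v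
          simp only [mem_insert, mem_singleton]
          tauto
    have hpX : p ∈ insert x0 E := by rw [hX]; simp
    have hqX : q ∈ insert x0 E := by rw [hX]; simp
    have hrX : r ∈ insert x0 E := by rw [hX]; simp
    refine koenig_core hV ha (n := s + 1) (u := Fin.cons p u) (w := Fin.cons q w)
      (W0 := insert r W0) ?_ ?_ ?_ ?_ ?_ ?_ ?_ (by omega) ?_
    · rw [Fin.cons_injective_iff]
      refine ⟨?_, h.inj_w⟩
      rintro ⟨i, hi⟩
      exact hwX i (hi ▸ hqX)
    · rw [Fin.cons_injective_iff]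
      refine ⟨?_, h.inj_u⟩
      rintro ⟨i, hi⟩
      exact huX i (hi ▸ hpX)
    · intro v
      rcases hcov v with ⟨i, h1⟩ | ⟨i, h1⟩ | h1 | h1
      · exact Or.inl ⟨i.succ, by rw [Fin.cons_succ]; exact h1⟩
      · exact Or.inr (Or.inl ⟨i.succ, by rw [Fin.cons_succ]; exact h1⟩)
      · exact Or.inr (Or.inr (mem_insert_of_mem h1))
      · rw [hX] at h1
        simp only [mem_insert, mem_singleton] at h1
        rcases h1 with rfl | rfl | rfl
        · exact Or.inl ⟨0, by rw [Fin.cons_zero]⟩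
        · exact Or.inr (Or.inl ⟨0, by rw [Fin.cons_zero]⟩)
        · exact Or.inr (Or.inr (mem_insert_self _ _))
    · intro i j
      refine Fin.cases ?_ (fun i => ?_) i
      · refine Fin.cases ?_ (fun j => ?_) j
        · rw [Fin.cons_zero, Fin.cons_zero]
          exact hpq
        · rw [Fin.cons_zero, Fin.cons_succ]
          exact fun h1 => hwX j (h1 ▸ hpX)
      · refine Fin.cases ?_ (fun j => ?_) j
        · rw [Fin.cons_zero, Fin.cons_succ]
          exact fun h1 => huX i (h1 ▸ hqX)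
        · rw [Fin.cons_succ, Fin.cons_succ]
          exact h.uw i j
    · intro i h1
      rw [mem_insert] at h1
      revert h1
      refine Fin.cases ?_ (fun i => ?_) i
      · rw [Fin.cons_zero]
        rintro (h1 | h1)
        · exact hpr h1
        · exact hWX _ h1 hpX
      · rw [Fin.cons_succ]
        rintro (h1 | h1)
        · exact huX i (h1 ▸ hrX)
        · exact h.uW0 i h1
    · intro i h1
      rw [mem_insert] at h1
      revert h1
      refine Fin.cases ?_ (fun i => ?_) i
      · rw [Fin.cons_zero]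
        rintro (h1 | h1)
        · exact hqr h1
        · exact hWX _ h1 hqX
      · rw [Fin.cons_succ]
        rintro (h1 | h1)
        · exact hwX i (h1 ▸ hrX)
        · exact h.wW0 i h1
    · intro i
      refine Fin.cases ?_ (fun i => ?_) i
      · rw [Fin.cons_zero, Fin.cons_zero]
        exact hadj
      · rw [Fin.cons_succ, Fin.cons_succ]
        exact h.adj i
    · have key : ∀ x, x ∈ univ.image (Fin.cons q w : Fin (s + 1) → V) ∪ insert r W0 →
          (x ∈ univ.image w ∪ W0) ∨ x = q ∨ x = r := by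
        intro x hx
        rw [mem_union, mem_insert, mem_image] at hx
        rw [mem_union, mem_image]
        rcases hx with ⟨i, _, h1⟩ | h1 | h1
        · revert h1
          refine Fin.cases ?_ (fun i => ?_) i
          · rw [Fin.cons_zero]
            exact fun h1 => Or.inr (Or.inl h1.symm)
          · rw [Fin.cons_succ]
            exact fun h1 => Or.inl (Or.inl ⟨i, mem_univ _, h1⟩)
        · exact Or.inr (Or.inr h1)
        · exact Or.inl (Or.inr h1)
      have hux : ∀ x, x ∈ univ.image (Fin.cons q w : Fin (s + 1) → V) ∪ insert r W0 →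
          ∀ j, x ≠ u j := by
        intro x hx j hxj
        rcases key x hx with h1 | h1 | h1
        · rw [mem_union, mem_image] at h1
          rcases h1 with ⟨i, _, h1⟩ | h1
          · exact h.uw j i (hxj ▸ h1.symm)
          · exact h.uW0 j (hxj ▸ h1)
        · exact huX j (by rw [← hxj, h1]; exact hqX)
        · exact huX j (by rw [← hxj, h1]; exact hrX)
      intro x hx y hy hadj'
      rcases key x hx with h1 | h1
      · obtain ⟨j, hj⟩ := hnb x h1 y hadj'
        exact hux y hy j hj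
      · rcases key y hy with h2 | h2
        · obtain ⟨j, hj⟩ := hnb y h2 x hadj'.symm
          exact hux x hx j hj
        · rcases h1 with rfl | rfl <;> rcases h2 with rfl | rfl
          · exact R.irrefl hadj'
          · exact hnadj hadj'
          · exact hnadj hadj'.symm
          · exact R.irrefl hadj'

/-- **Both normal forms**: `s` vertices are picked outside of the family, `s + t` inside. -/
theorem exists_NF12 {a g : ℕ} (hV : Fintype.card V = 2 * a + g + 1)
    (hth : th R univ = a + g + 1) :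
    ∃ (s t g' A e : ℕ) (RA : Finset V) (u' : Fin (s + t) → V)
      (P : Fin (s + t) ⊕ Fin g → Finset V) (c : Fin (s + t) ⊕ Fin g → ℕ)
      (u w : Fin s → V) (W0 E : Finset V) (D : Fin (g' + 1) → Finset V) (d : Fin (g' + 1) → ℕ),
      NF R a g A (s + t) RA u' P c ∧ NF2 R a g s g' e t u w W0 E D d ∧
      (1 ≤ g → g' = g → s = 0) ∧ D 0 ⊆ RA ∧
      ((∃ j, c (Sum.inr j) ≠ 0) → 2 ≤ A ∧ HasMat R RA 2 ∧
        ∃ (D₀ : Finset V) (d₀ : ℕ), D₀ ⊆ RA ∧ TightPiece R D₀ d₀ ∧ 2 ≤ d₀ ∧ 1 ≤ g') := by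
  obtain ⟨T, U, c, h⟩ := exists_setup hV hth
  obtain ⟨f, PW, S, hinj, hf, hPW, hST, hS0, hiff, hSn, hSt, hSe⟩ := h.matching
  obtain ⟨g', W, D, hWg, hWT, hW, hD, hDT, hDS, hDg⟩ :=
    h.unmatched f hinj (fun x => (hf x).1) hSt
  obtain ⟨e, u, w, W0, E, h2⟩ := h.nf2 hV hth hinj hf hPW hST hS0 hiff hSn hWg hWT hW hD hDT hDS
  set G : Finset (Finset V) := W ∪ (univ : Finset (Fin g')).image (fun j => D j.succ) with hG
  have hGT : G ⊆ T := by
    intro C hC
    rw [hG, mem_union, mem_image] at hC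
    rcases hC with hC | ⟨j, _, rfl⟩
    · exact hWT hC
    · exact (hDT _).1
  have hGc : G.card = g := by
    rw [hG, card_union_of_disjoint, card_image_of_injective, card_univ, Fintype.card_fin, hWg]
    · intro i j hij
      exact Fin.succ_injective _ (hD hij)
    · rw [Finset.disjoint_left]
      intro C hC hC'
      rw [mem_image] at hC'
      obtain ⟨j, _, rfl⟩ := hC'
      exact (hDT _).2.1 hC
  have h1 := h.nf hV f hinj hf hGT hGc (by
    intro C hC
    rw [hG, mem_union, mem_image] at hC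
    rcases hC with hC | ⟨j, _, rfl⟩
    · exact (hW C hC).2
    · exact (hDT _).2.2) (hDT 0).1 (by
    rw [hG, mem_union, mem_image]
    rintro (h1 | ⟨j, _, hj⟩)
    · exact (hDT 0).2.1 h1
    · exact absurd (hD hj) (Fin.succ_ne_zero j)) (hDT 0).2.2
  have hUc : U.card = PW.card + (U \ PW).card := by
    have : (U \ PW).card + PW.card = U.card := by
      rw [card_sdiff_add_card, union_eq_left.2 hPW]
    omega
  rw [hUc] at h1
  obtain ⟨A, RA, u', P, c', h1, hD0, hPG⟩ := h1
  refine ⟨PW.card, (U \ PW).card, g', A, e, RA, u', P, c', u, w, W0, E, D, _, h1, h2, ?_, hD0,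
    ?_⟩
  swap
  · rintro ⟨j, hj⟩
    obtain ⟨C, hC, hCc⟩ := hPG j
    rw [hG, mem_union, mem_image] at hC
    have hg' : 1 ≤ g' := by
      rcases hC with hC | ⟨i, _, _⟩
      · exfalso
        rw [hCc] at hj
        exact hj (hS0 C (hW C hC).1)
      · have := i.2
        omega
    have hd0 := h2.big hg' 0
    have hth0 := (h2.piece 0).theta
    refine ⟨?_, ?_, D 0, _, hD0, h2.piece 0, hd0, hg'⟩
    · have h3 := th_mono (R := R) hD0
      rw [h1.thA, hth0] at h3
      omega
    · obtain ⟨x, hx⟩ : (D 0).Nonempty := by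
        rw [← card_pos, (h2.piece 0).card]
        omega
      obtain ⟨f', h3, h4, h5, h6⟩ := crit_cover (h2.piece 0).conn (h2.piece 0).crit hth0 hx
      obtain ⟨c'', h7, h8, _, ⟨M, hM, hMc⟩, _⟩ := crit_data (h2.piece 0).conn (h2.piece 0).crit (by
        rw [(h2.piece 0).card]
        omega)
      obtain ⟨M', hM', hMc'⟩ := exists_subset_card_eq (show 2 ≤ M.card by omega)
      exact ⟨M', (hM.sub hM').mono_set hD0, hMc'⟩
  intro hg1 hgg
  rw [card_eq_zero]
  apply hSe
  -- every piece of `S` is matched to a vertex of `PW`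
  have h3 : ∀ C ∈ S, ∃ x : {x // x ∈ U}, x.1 ∈ PW ∧ f x = C := by
    intro C hC
    obtain ⟨x, hx⟩ := hDg hg1 hgg C hC (hST hC)
    exact ⟨x, (hiff x).2 (hx ▸ hC), hx⟩
  have h4 : S ⊆ (univ.filter (fun x : {x // x ∈ U} => x.1 ∈ PW)).image f := by
    intro C hC
    obtain ⟨x, hx, rfl⟩ := h3 C hC
    exact mem_image_of_mem _ (mem_filter.2 ⟨mem_univ _, hx⟩)
  refine (card_le_card h4).trans (card_image_le.trans ?_)
  rw [← card_map ⟨Subtype.val, Subtype.val_injective⟩]
  apply card_le_card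
  intro v hv
  rw [mem_map] at hv
  obtain ⟨x, hx, rfl⟩ := hv
  exact (mem_filter.1 hx).2

end JT

end Pool.Agent.Lib.MP_a05470_co
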