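import Pool.Agent.Lib.MP_a05470_co.JSlots

/-!
# Assembling the copy
-/

set_option autoImplicit false
set_option linter.unusedSectionVars false

namespace Pool.Agent.Lib.MP_a05470_co

open Finset Classical

namespace JP

open JM (NS MF)

variable {n : ℕ} {V : Type} {Gr Gb : SimpleGraph (Fin n)} {H : SimpleGraph V}

theorem GP.mono_ok {ok ok' : V → Finset (Fin n) → Prop} {X : Finset V}
    {I : Finset (Finset (Fin n))} (h : GP H Gr Gb ok X I) (hok : ∀ x ∈ X, ∀ C, ok x C → ok' x C) :
    GP H Gr Gb ok' X I := by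
  obtain ⟨f, h1, h2⟩ := h
  exact ⟨f, fun x hx => ⟨(h1 x hx).1, hok x hx _ (h1 x hx).2⟩, h2⟩

/-- the number of slots with an impure box is at most two -/
theorem bad_slots {g : ℕ} {F : Finset (Finset (Fin n))} {K : Finset (Fin n)}
    (hMF : MF Gr Gb g F K) {S : Finset (Finset (Finset (Fin n)))}
    (hdis : ∀ s ∈ S, ∀ s' ∈ S, s ≠ s' → Disjoint s s') (hsub : S.biUnion id ⊆ F) {z : Fin n}
    (hz : z ∈ K) :
    (S.filter (fun s => ∃ D ∈ s, ∃ x ∈ D, ¬ Gr.Adj z x)).card ≤ 2 := by
  have h0 : (F.filter (fun C => ∃ x ∈ C, ¬ Gr.Adj z x)).card ≤ 2 := by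
    convert hMF.exc z hz
  refine le_trans ?_ h0
  have h1 : ∀ s ∈ S.filter (fun s => ∃ D ∈ s, ∃ x ∈ D, ¬ Gr.Adj z x), ∃ D ∈ s,
      ∃ x ∈ D, ¬ Gr.Adj z x := fun s hs => (mem_filter.1 hs).2
  choose! f hf1 hf2 using h1
  apply card_le_card_of_injOn f
  · intro s hs
    rw [mem_coe] at hs
    rw [mem_coe, mem_filter]
    exact ⟨hsub (mem_biUnion.2 ⟨s, (mem_filter.1 hs).1, hf1 s hs⟩), hf2 s hs⟩
  · intro s hs s' hs' h
    by_contra hne
    rw [mem_coe] at hs hs'
    have h2 := hdis s (mem_filter.1 hs).1 s' (mem_filter.1 hs').1 hne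
    exact disjoint_left.1 h2 (hf1 s hs) (by rw [h]; exact hf1 s' hs')

theorem contains_pieces [Fintype V] {a g : ℕ} {F : Finset (Finset (Fin n))} {K : Finset (Fin n)}
    (hMF : MF Gr Gb g F K)
    (h1 : 2 * a + g + 1 ≤ F.card + min (NS 1 F) a + K.card) (h0 : a + g + 1 ≤ F.card + K.card)
    (hk : ∀ k : ℕ, 2 ≤ k → k * (a + g) + a + 1 ≤ k * (F.card + K.card) + NS k F + 2 * g)
    {P : Fin (g + 1) → Finset V} {c : Fin (g + 1) → ℕ}
    (hPdis : ∀ i j, i ≠ j → Disjoint (P i) (P j))
    (hPcl : ∀ j, ∀ x ∈ P j, ∀ y, y ∉ P j → ¬ H.Adj x y)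
    (hPc : ∀ j, (P j).card = 2 * c j + 1) (hc2 : ∀ j, 2 ≤ c j)
    (hr : ∀ j, HasMat H (P j) (c j)) (hb : ∀ j, HasMat Hᶜ (P j) (c j)) (hC : ∑ j, c j ≤ a)
    (hQ : (univ \ univ.biUnion P).card = 2 * (a - ∑ j, c j))
    (hcol1 : ∀ x ∈ P 0, (H.comap (Subtype.val : {y // y ∈ insert x (univ \ univ.biUnion P)} →
      V)).Colorable (a - ∑ j, c j + 1))
    (hcol2 : ∀ x ∈ P 0, (H.comap (Subtype.val : {y // y ∈ insert x (univ \ univ.biUnion P)} →
      V))ᶜ.Colorable (a - ∑ j, c j + 1)) : Contains H Hᶜ Gr Gb := by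
  set Ct := ∑ j, c j with hCt
  have hbox : ∀ C ∈ F, IsBox Gr Gb C := fun C hC => hMF.box C hC
  have hne : ∀ C ∈ F, C.Nonempty := fun C hC => (hMF.box C hC).1
  have hCg : 2 * g + 2 ≤ Ct := by
    have h2 : ∑ j : Fin (g + 1), 2 ≤ ∑ j, c j := sum_le_sum (fun j _ => hc2 j)
    rw [sum_const, card_univ, Fintype.card_fin, smul_eq_mul] at h2
    rw [hCt]
    omega
  obtain ⟨S, J, F', hS⟩ := exists_slots (H := H) (Gr := Gr) (Gb := Gb) hbox (a := a) (g := g)
    (m := K.card) (C := Ct) hC (by omega) (by omega) hMF.cardK h1 h0 hk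
  have hn : Nonempty (Fin n) := by
    have h2 : 0 < F.card := by
      have := hMF.cardK
      omega
    obtain ⟨D, hD⟩ := card_pos.1 h2
    obtain ⟨x, _⟩ := hne D hD
    exact ⟨x⟩
  obtain ⟨z0⟩ := hn
  -- the hosted pieces
  obtain ⟨Hs, _, hHsc⟩ := exists_subset_card_eq (s := (univ : Finset (Fin g))) (n := K.card) (by
    rw [card_univ, Fintype.card_fin]
    exact hMF.cardK)
  obtain ⟨zf, hzK, hzi⟩ : ∃ zf : Fin g → Fin n, (∀ i ∈ Hs, zf i ∈ K) ∧
      ∀ i ∈ Hs, ∀ j ∈ Hs, zf i = zf j → i = j := by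
    let e : Hs ≃ K := Finset.equivOfCardEq hHsc
    refine ⟨fun i => if h : i ∈ Hs then (e ⟨i, h⟩ : Fin n) else z0, ?_, ?_⟩
    · intro i hi
      simp only [dif_pos hi]
      exact (e ⟨i, hi⟩).2
    · intro i hi j hj hij
      simp only [dif_pos hi, dif_pos hj] at hij
      have := e.injective (Subtype.ext hij)
      exact congrArg Subtype.val this
  -- the bad slots
  set BadS : Fin (g + 1) → Finset (Finset (Finset (Fin n))) := fun j =>
    S.filter (fun s => ∃ i ∈ Hs, j = i.succ ∧ ∃ D ∈ s, ∃ x ∈ D, ¬ Gr.Adj (zf i) x) with hBadS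
  have hBadc : ∀ j, (BadS j).card ≤ 2 := by
    intro j
    by_cases hj : ∃ i ∈ Hs, j = i.succ
    · obtain ⟨i, hi, rfl⟩ := hj
      refine le_trans (card_le_card ?_) (bad_slots hMF hS.disj_S hS.sub_S (hzK i hi))
      intro s hs
      rw [hBadS, mem_filter] at hs
      obtain ⟨h2, i', _, h3, h4⟩ := hs
      have h5 : i = i' := Fin.succ_injective _ h3
      subst h5
      exact mem_filter.2 ⟨h2, h4⟩
    · have : BadS j = ∅ := by
        rw [hBadS]
        simp only
        rw [filter_eq_empty_iff]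
        rintro s _ ⟨i, hi, h2, _⟩
        exact hj ⟨i, hi, h2⟩
      rw [this]
      simp
  have hsum : Ct = c 0 + ∑ i : Fin g, c i.succ := by rw [hCt, Fin.sum_univ_succ]
  obtain ⟨τ, hτ1, hτ2⟩ := choose_slots (univ.image (Fin.succ : Fin g → Fin (g + 1))) S c BadS 2
    (fun j _ => hBadc j) (by
      rw [sum_image (fun i _ j _ h => Fin.succ_injective _ h), hS.card_S, hsum]
      have := hc2 0
      omega)
  have hτs : ∀ i : Fin g, τ i.succ ⊆ S ∧ (τ i.succ).card = c i.succ ∧
      Disjoint (τ i.succ) (BadS i.succ) := fun i => hτ1 _ (mem_image_of_mem _ (mem_univ i))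
  have hτd : ∀ i j : Fin g, i ≠ j → Disjoint (τ i.succ) (τ j.succ) := fun i j hij =>
    hτ2 _ (mem_image_of_mem _ (mem_univ i)) _ (mem_image_of_mem _ (mem_univ j))
      (fun h => hij (Fin.succ_injective _ h))
  have hUc : (univ.biUnion (fun i : Fin g => τ i.succ)).card = ∑ i : Fin g, c i.succ := by
    rw [card_biUnion (fun i _ j _ hij => hτd i j hij)]
    exact sum_congr rfl (fun i _ => (hτs i).2.1)
  have hUS : univ.biUnion (fun i : Fin g => τ i.succ) ⊆ S := by
    intro s hs
    rw [mem_biUnion] at hs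
    obtain ⟨i, _, hs⟩ := hs
    exact (hτs i).1 hs
  set τ0 := S \ univ.biUnion (fun i : Fin g => τ i.succ) with hτ0
  have hτ0c : τ0.card = c 0 := by
    rw [hτ0, card_sdiff_of_subset hUS, hUc, hS.card_S, hsum]
    omega
  obtain ⟨σ, hσ0, hσs⟩ : ∃ σ : Fin (g + 1) → Finset (Finset (Finset (Fin n))), σ 0 = τ0 ∧
      ∀ i : Fin g, σ i.succ = τ i.succ := ⟨fun j => Fin.cases τ0 (fun i => τ i.succ) j, rfl,
        fun i => rfl⟩
  have hσS : ∀ j, σ j ⊆ S := by
    intro j
    refine Fin.cases ?_ (fun i => ?_) j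
    · rw [hσ0]
      exact sdiff_subset
    · rw [hσs]
      exact (hτs i).1
  have hσc : ∀ j, (σ j).card = c j := by
    intro j
    refine Fin.cases ?_ (fun i => ?_) j
    · rw [hσ0]
      exact hτ0c
    · rw [hσs]
      exact (hτs i).2.1
  have hσd : ∀ i j, i ≠ j → Disjoint (σ i) (σ j) := by
    intro i j
    have key : ∀ i : Fin g, Disjoint τ0 (τ i.succ) := by
      intro i
      rw [Finset.disjoint_left]
      intro s hs hs'
      exact (mem_sdiff.1 hs).2 (mem_biUnion.2 ⟨i, mem_univ _, hs'⟩)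
    refine Fin.cases ?_ (fun i => ?_) i
    · refine Fin.cases ?_ (fun j => ?_) j
      · intro h
        exact absurd rfl h
      · intro _
        rw [hσ0, hσs]
        exact key j
    · refine Fin.cases ?_ (fun j => ?_) j
      · intro _
        rw [hσ0, hσs]
        exact (key i).symm
      · intro h
        rw [hσs, hσs]
        exact hτd i j (fun h' => h (by rw [h']))
  -- the pieces in their slots
  set ok0 : V → Finset (Fin n) → Prop := fun y D => ∀ i ∈ Hs, y ∈ P i.succ → ∀ w ∈ D,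
    Gr.Adj (zf i) w with hok0
  have hPne : ∀ i j x, x ∈ P i → x ∈ P j → i = j := by
    intro i j x hi hj
    by_contra hne
    exact disjoint_left.1 (hPdis i j hne) hi hj
  have hpiece : ∀ j, ∃ x ∈ P j, GP H Gr Gb ok0 ((P j).erase x) ((σ j).biUnion id) := by
    intro j
    apply piece_slots (hPc j) (hr j) (hb j) (hσc j)
      (fun s hs s' hs' => hS.disj_S s (hσS j hs) s' (hσS j hs'))
      (fun s hs => hS.type_S s (hσS j hs))
    intro x hx s hs D hD i hi hxi w hw
    have h2 : j = i.succ := hPne _ _ x hx hxi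
    subst h2
    by_contra hcon
    rw [hσs] at hs
    have h3 : s ∈ BadS i.succ := by
      rw [hBadS, mem_filter]
      exact ⟨(hτs i).1 hs, i, hi, rfl, D, hD, w, hw, hcon⟩
    exact disjoint_left.1 (hτs i).2.2 hs h3
  choose xx hxP hxG using hpiece
  have hxinj : ∀ i j, xx i = xx j → i = j := by
    intro i j h
    apply hPne i j (xx i) (hxP i)
    rw [h]
    exact hxP j
  set Q := (univ : Finset V) \ univ.biUnion P with hQdef
  have hxQ : ∀ j, xx j ∉ Q := by
    intro j h
    exact (mem_sdiff.1 h).2 (mem_biUnion.2 ⟨j, mem_univ _, hxP j⟩)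
  -- part 1
  have g1 : GP H Gr Gb ok0 (univ.biUnion (fun j => (P j).erase (xx j)))
      (univ.biUnion (fun j => (σ j).biUnion id)) := by
    apply gp_biUnion univ (fun j _ => hxG j)
    intro i _ j _ hij
    rw [disjoint_biUnion_left]
    intro s hs
    rw [disjoint_biUnion_right]
    intro s' hs'
    apply hS.disj_S s (hσS i hs) s' (hσS j hs')
    rintro rfl
    exact disjoint_left.1 (hσd i j hij) hs hs'
  -- part 2
  have g2 : GP H Gr Gb ok0 ((univ \ Hs).image (fun i : Fin g => xx i.succ)) J := by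
    apply gp_of_packable
    · apply packable_inj (fun D hD => hne D (hS.sub_J hD))
      refine card_image_le.trans ?_
      rw [card_sdiff_of_subset (subset_univ _), card_univ, Fintype.card_fin, hHsc, hS.card_J]
    · intro y hy D _ i hi hyi
      exfalso
      rw [mem_image] at hy
      obtain ⟨i', hi', rfl⟩ := hy
      have h2 := hPne _ _ _ (hxP i'.succ) hyi
      have h3 : i' = i := Fin.succ_injective _ h2
      exact (mem_sdiff.1 hi').2 (h3 ▸ hi)
  -- part 3
  have g3 : GP H Gr Gb ok0 (insert (xx 0) Q) F' := by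
    apply gp_of_packable
    · apply packable_of_sub (fun D hD => hne D (hS.sub_F' hD))
      apply packable_odd (s := a - Ct)
      · rw [Fintype.card_coe, card_insert_of_notMem (hxQ 0), hQ]
      · exact hcol1 (xx 0) (hxP 0)
      · exact hcol2 (xx 0) (hxP 0)
      · exact ⟨fun D hD => hMF.box D (hS.sub_F' hD), fun D hD D' hD' =>
          hMF.green D (hS.sub_F' hD) D' (hS.sub_F' hD')⟩
      · exact hS.cond
    · intro y hy D _ i hi hyi
      exfalso
      rcases mem_insert.1 hy with rfl | hy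
      · have h2 := hPne _ _ _ (hxP 0) hyi
        exact (Fin.succ_ne_zero i) h2.symm
      · exact (mem_sdiff.1 hy).2 (mem_biUnion.2 ⟨_, mem_univ _, hyi⟩)
  have hsubσ : univ.biUnion (fun j => (σ j).biUnion id) ⊆ S.biUnion id := by
    intro D hD
    rw [mem_biUnion] at hD
    obtain ⟨j, _, hD⟩ := hD
    rw [mem_biUnion] at hD ⊢
    obtain ⟨s, hs, hD⟩ := hD
    exact ⟨s, hσS j hs, hD⟩
  have g4 := (g1.union g2 (disjoint_of_subset_left hsubσ hS.disj_SJ)).union g3 (by
    rw [disjoint_union_left]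
    exact ⟨disjoint_of_subset_left hsubσ hS.disj_SF', hS.disj_JF'⟩)
  have g5 := g4.mono_boxes (J := F) (union_subset (union_subset (hsubσ.trans hS.sub_S) hS.sub_J)
    hS.sub_F') hne
  -- the hosted vertices
  set Hv : Finset V := Hs.image (fun i : Fin g => xx i.succ) with hHv
  obtain ⟨ζ, hζ⟩ : ∃ ζ : V → Fin n, ∀ i : Fin g, i ∈ Hs → ζ (xx i.succ) = zf i := by
    refine ⟨fun x => if h : ∃ i, i ∈ Hs ∧ xx (Fin.succ i) = x then zf h.choose else z0, ?_⟩
    intro i hi
    have h : ∃ i', i' ∈ Hs ∧ xx (Fin.succ i') = xx i.succ := ⟨i, hi, rfl⟩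
    simp only [dif_pos h]
    have h2 := hxinj _ _ h.choose_spec.2
    rw [Fin.succ_injective _ h2]
  apply contains_of_gp (F := F) (K := K) (Hs := Hv) (ζ := ζ) hMF.green hMF.blueK hMF.blueF
  · intro x hx
    rw [hHv, mem_image] at hx
    obtain ⟨i, hi, rfl⟩ := hx
    rw [hζ i hi]
    exact hzK i hi
  · intro x hx y hy hxy
    rw [hHv, mem_image] at hx hy
    obtain ⟨i, hi, rfl⟩ := hx
    obtain ⟨j, hj, rfl⟩ := hy
    rw [hζ i hi, hζ j hj] at hxy
    rw [hzi i hi j hj hxy]
  · intro x hx y hy hxy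
    rw [hHv, mem_image] at hx hy
    obtain ⟨i, hi, rfl⟩ := hx
    obtain ⟨j, hj, rfl⟩ := hy
    by_cases hij : i = j
    · subst hij
      exact H.irrefl hxy
    · refine hPcl _ _ (hxP i.succ) _ ?_ hxy
      intro h
      exact hij (Fin.succ_injective _ (hPne _ _ _ h (hxP j.succ)))
  · have hX : univ \ Hv = univ.biUnion (fun j => (P j).erase (xx j)) ∪
        (univ \ Hs).image (fun i : Fin g => xx i.succ) ∪ insert (xx 0) Q := by
      ext y
      rw [mem_sdiff, mem_union, mem_union, mem_insert]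
      constructor
      · rintro ⟨_, hy⟩
        by_cases h2 : y ∈ Q
        · exact Or.inr (Or.inr h2)
        · rw [hQdef, mem_sdiff] at h2
          push Not at h2
          have h3 := h2 (mem_univ y)
          rw [mem_biUnion] at h3
          obtain ⟨j, _, hj⟩ := h3
          by_cases h4 : y = xx j
          · subst h4
            revert hy hj
            refine Fin.cases ?_ (fun i => ?_) j
            · intro _ _
              exact Or.inr (Or.inl rfl)
            · intro hy _
              left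
              right
              rw [mem_image]
              refine ⟨i, mem_sdiff.2 ⟨mem_univ _, fun hi => hy ?_⟩, rfl⟩
              rw [hHv, mem_image]
              exact ⟨i, hi, rfl⟩
          · left
            left
            rw [mem_biUnion]
            exact ⟨j, mem_univ _, mem_erase.2 ⟨h4, hj⟩⟩
      · intro h
        refine ⟨mem_univ _, fun hy => ?_⟩
        rw [hHv, mem_image] at hy
        obtain ⟨i, hi, rfl⟩ := hy
        rcases h with (h | h) | h | h
        · rw [mem_biUnion] at h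
          obtain ⟨j, _, hj⟩ := h
          rw [mem_erase] at hj
          have := hPne _ _ _ (hxP i.succ) hj.2
          exact hj.1 (by rw [this])
        · rw [mem_image] at h
          obtain ⟨i', hi', h2⟩ := h
          have h3 := Fin.succ_injective _ (hxinj _ _ h2)
          exact (mem_sdiff.1 hi').2 (h3 ▸ hi)
        · exact (Fin.succ_ne_zero i) (hxinj _ _ h)
        · exact hxQ _ h
    rw [hX]
    apply g5.mono_ok
    intro y _ D hD x hx hxy w hw
    rw [hHv, mem_image] at hx
    obtain ⟨i, hi, rfl⟩ := hx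
    rw [hζ i hi]
    apply hD i hi _ w hw
    by_contra hcon
    exact hPcl _ _ (hxP i.succ) y hcon hxy

end JP

end Pool.Agent.Lib.MP_a05470_co
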