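import Pool.Agent.Lib.MP_a05470_co.Peel

/-!
# Disjoint pairs of both colours
-/

set_option autoImplicit false

namespace Pool.Agent.Lib.MP_a05470_co

open Finset Classical

section Mix

variable {V : Type} {B H : SimpleGraph V} {X : Finset V} {T : Finset (Finset V)}

theorem IsMat.insert_pair (h : IsMat B X T) {x y : V} (hx : x ∈ X) (hy : y ∈ X) (hxy : B.Adj x y)
    (hxT : ∀ e ∈ T, x ∉ e) (hyT : ∀ e ∈ T, y ∉ e) :
    IsMat B X (insert {x, y} T) ∧ (insert {x, y} T).card = T.card + 1 := by
  have hd : ∀ f ∈ T, Disjoint ({x, y} : Finset V) f := by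
    intro f hf
    rw [Finset.disjoint_left]
    intro z hz hzf
    rw [mem_insert, mem_singleton] at hz
    rcases hz with rfl | rfl
    · exact hxT f hf hzf
    · exact hyT f hf hzf
  refine ⟨⟨?_, ?_⟩, ?_⟩
  · intro e he
    rcases mem_insert.1 he with rfl | he
    · exact ⟨x, hx, y, hy, hxy, rfl⟩
    · exact h.1 e he
  · intro e he f hf hef
    rcases mem_insert.1 he with he' | he'
    · rcases mem_insert.1 hf with hf' | hf'
      · exact absurd (he'.trans hf'.symm) hef
      · rw [he']
        exact hd f hf'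
    · rcases mem_insert.1 hf with hf' | hf'
      · rw [hf']
        exact (hd e he').symm
      · exact h.2 e he' f hf' hef
  · rw [card_insert_of_notMem]
    intro hmem
    exact hxT _ hmem (by simp)

theorem IsMat.subset_of_mem (h : IsMat B X T) {e : Finset V} (he : e ∈ T) : e ⊆ X := by
  intro z hz
  exact h.biUnion_subset (mem_biUnion.2 ⟨e, he, hz⟩)

theorem IsMat.mono_set (h : IsMat B X T) {Y : Finset V} (hXY : X ⊆ Y) : IsMat B Y T := by
  refine ⟨?_, h.2⟩
  intro e he
  obtain ⟨x, hx, y, hy, hxy, rfl⟩ := h.1 e he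
  exact ⟨x, hXY hx, y, hXY hy, hxy, rfl⟩

/-- a graph with minimum degree at least `c` on at least `2c+1` vertices has `c` disjoint edges -/
theorem hasMat_of_degree {c : ℕ} (hX : 2 * c + 1 ≤ X.card)
    (hdeg : ∀ x ∈ X, c ≤ (X.filter (fun y => B.Adj x y)).card) : HasMat B X c := by
  have main : ∀ m ≤ c, HasMat B X m := by
    intro m
    induction m with
    | zero => exact fun _ => ⟨∅, ⟨by simp, by simp⟩, rfl⟩
    | succ m ih =>
      intro hm
      obtain ⟨T, hT, hTc⟩ := ih (by omega)
      have hU : 1 < (X \ T.biUnion id).card := by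
        have h1 := card_sdiff_add_card_eq_card hT.biUnion_subset
        have h2 := hT.card_biUnion
        omega
      obtain ⟨u1, hu1, u2, hu2, hne⟩ := one_lt_card.1 hU
      rw [mem_sdiff] at hu1 hu2
      have hu1T : ∀ e ∈ T, u1 ∉ e := fun e he h => hu1.2 (mem_biUnion.2 ⟨e, he, h⟩)
      have hu2T : ∀ e ∈ T, u2 ∉ e := fun e he h => hu2.2 (mem_biUnion.2 ⟨e, he, h⟩)
      by_cases h1 : ∃ y ∈ X \ T.biUnion id, B.Adj u1 y
      · obtain ⟨y, hy, hxy⟩ := h1
        rw [mem_sdiff] at hy
        obtain ⟨h2, h3⟩ := hT.insert_pair hu1.1 hy.1 hxy hu1T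
          (fun e he h => hy.2 (mem_biUnion.2 ⟨e, he, h⟩))
        exact ⟨_, h2, by rw [h3, hTc]⟩
      by_cases h2 : ∃ y ∈ X \ T.biUnion id, B.Adj u2 y
      · obtain ⟨y, hy, hxy⟩ := h2
        rw [mem_sdiff] at hy
        obtain ⟨h2, h3⟩ := hT.insert_pair hu2.1 hy.1 hxy hu2T
          (fun e he h => hy.2 (mem_biUnion.2 ⟨e, he, h⟩))
        exact ⟨_, h2, by rw [h3, hTc]⟩
      push Not at h1 h2
      -- all neighbours are covered
      have hcount : ∀ u ∈ X, (∀ y ∈ X \ T.biUnion id, ¬ B.Adj u y) →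
          c ≤ ∑ e ∈ T, (e.filter (fun y => B.Adj u y)).card := by
        intro u hu hno
        refine (hdeg u hu).trans ?_
        have h3 : X.filter (fun y => B.Adj u y) ⊆ T.biUnion (fun e => e.filter (fun y => B.Adj u y)) := by
          intro y hy
          rw [mem_filter] at hy
          have h4 : y ∈ T.biUnion id := by
            by_contra hcon
            exact hno y (mem_sdiff.2 ⟨hy.1, hcon⟩) hy.2
          rw [mem_biUnion] at h4 ⊢
          obtain ⟨e, he, hye⟩ := h4
          exact ⟨e, he, mem_filter.2 ⟨hye, hy.2⟩⟩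
        exact (card_le_card h3).trans card_biUnion_le
      have h3 := hcount u1 hu1.1 h1
      have h4 := hcount u2 hu2.1 h2
      have h5 : ∃ e ∈ T, 2 < (e.filter (fun y => B.Adj u1 y)).card +
          (e.filter (fun y => B.Adj u2 y)).card := by
        by_contra hcon
        push Not at hcon
        have h6 := sum_le_sum hcon
        rw [sum_add_distrib, sum_const, smul_eq_mul] at h6
        omega
      obtain ⟨e, he, h6⟩ := h5
      obtain ⟨x, hx, y, hy, hxy, rfl⟩ := hT.1 e he
      have hxy' := B.ne_of_adj hxy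
      have h7 : ∀ u, ((({x, y} : Finset V).filter (fun y => B.Adj u y)).card : ℕ) =
          (if B.Adj u x then 1 else 0) + (if B.Adj u y then 1 else 0) := by
        intro u
        rw [filter_insert, filter_singleton]
        by_cases p : B.Adj u x <;> by_cases q : B.Adj u y
        · simp only [if_pos p, if_pos q]
          rw [card_pair hxy']
        · simp [if_pos p, if_neg q]
        · simp [if_neg p, if_pos q]
        · simp [if_neg p, if_neg q]
      rw [h7, h7] at h6
      have hxT : x ∈ T.biUnion id := mem_biUnion.2 ⟨_, he, by simp⟩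
      have hyT : y ∈ T.biUnion id := mem_biUnion.2 ⟨_, he, by simp⟩
      have key : ∀ p q, p ∈ X → q ∈ X → p ∈ ({x, y} : Finset V) → q ∈ ({x, y} : Finset V) →
          p ≠ q → B.Adj u1 p → B.Adj u2 q → HasMat B X (m + 1) := by
        intro p q hp hq hpe hqe hpq h8 h9
        have hT' := hT.sub (Finset.erase_subset ({x, y} : Finset V) T)
        have hout : ∀ z ∈ ({x, y} : Finset V), ∀ e ∈ T.erase {x, y}, z ∉ e := by
          intro z hz e he' hze
          rw [mem_erase] at he'
          exact disjoint_left.1 (hT.2 e he'.2 _ he he'.1) hze hz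
        obtain ⟨h10, h11⟩ := hT'.insert_pair hu1.1 hp h8
          (fun e he => hu1T e (mem_of_mem_erase he)) (hout p hpe)
        have hne2 : ∀ z ∈ ({x, y} : Finset V), u2 ≠ z ∧ u1 ≠ z := by
          intro z hz
          constructor
          · rintro rfl; exact hu2T _ he hz
          · rintro rfl; exact hu1T _ he hz
        obtain ⟨h12, h13⟩ := h10.insert_pair hu2.1 hq h9 (by
          intro e he'
          rcases mem_insert.1 he' with rfl | he'
          · rw [mem_insert, mem_singleton]
            push Not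
            exact ⟨hne.symm, (hne2 p hpe).1⟩
          · exact hu2T e (mem_of_mem_erase he')) (by
          intro e he'
          rcases mem_insert.1 he' with rfl | he'
          · rw [mem_insert, mem_singleton]
            push Not
            exact ⟨(hne2 q hqe).2.symm, hpq.symm⟩
          · exact hout q hqe e he')
        refine ⟨_, h12, ?_⟩
        rw [h13, h11, card_erase_of_mem he]
        have : 1 ≤ T.card := card_pos.2 ⟨_, he⟩
        omega
      by_cases a1 : B.Adj u1 x <;> by_cases a2 : B.Adj u1 y <;> by_cases a3 : B.Adj u2 x <;>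
        by_cases a4 : B.Adj u2 y <;> simp only [a1, a2, a3, a4, if_true, if_false] at h6 <;>
        first
        | omega
        | exact key x y hx hy (by simp) (by simp) hxy' a1 a4
        | exact key y x hy hx (by simp) (by simp) hxy'.symm a2 a3
  exact main c le_rfl

theorem hasMat_of_degree' {c : ℕ} (hX : 2 * c + 1 ≤ X.card)
    (hdeg : ∀ x ∈ X, ∃ Y ⊆ X, c ≤ Y.card ∧ ∀ y ∈ Y, B.Adj x y) : HasMat B X c := by
  apply hasMat_of_degree hX
  intro x hx
  obtain ⟨Y, h1, h2, h3⟩ := hdeg x hx
  refine h2.trans (card_le_card ?_)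
  intro y hy
  rw [mem_filter]
  exact ⟨h1 hy, h3 y hy⟩

/-- `j` blue and `l` red pairs, all disjoint -/
def HasMix (H : SimpleGraph V) (X : Finset V) (j l : ℕ) : Prop :=
  ∃ Tb Tr, IsMat Hᶜ X Tb ∧ IsMat H X Tr ∧ (∀ e ∈ Tb, ∀ f ∈ Tr, Disjoint e f) ∧ Tb.card = j ∧
    Tr.card = l

/-- peeling one blue pair -/
theorem peel_mix {c : ℕ} (hX : 2 * (c + 1) + 1 ≤ X.card) (hr : HasMat H X (c + 1))
    (hb : HasMat Hᶜ X (c + 1)) :
    ∃ u ∈ X, ∃ w ∈ X, Hᶜ.Adj u w ∧ HasMat H (X \ {u, w}) c ∧ HasMat Hᶜ (X \ {u, w}) c := by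
  obtain ⟨Tr, hTr, hTrc⟩ := hr
  obtain ⟨Tb, hTb, hTbc⟩ := hb
  have hU : (X \ Tr.biUnion id).Nonempty := by
    rw [← card_pos]
    have h1 := card_sdiff_add_card_eq_card hTr.biUnion_subset
    have h2 := hTr.card_biUnion
    omega
  obtain ⟨u, hu⟩ := hU
  rw [mem_sdiff] at hu
  have huT : ∀ e ∈ Tr, u ∉ e := fun e he h => hu.2 (mem_biUnion.2 ⟨e, he, h⟩)
  by_cases h1 : ∃ e ∈ Tb, u ∈ e
  · obtain ⟨e, he, hue⟩ := h1
    have hcard : (Tb.erase e).card = c := by
      rw [card_erase_of_mem he]; omega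
    obtain ⟨x, hx, y, hy, hxy, rfl⟩ := hTb.1 e he
    have hb' : HasMat Hᶜ (X \ {x, y}) c := ⟨_, hTb.erase_edge he, hcard⟩
    rw [mem_insert, mem_singleton] at hue
    rcases hue with rfl | rfl
    · exact ⟨u, hu.1, y, hy, hxy, hTr.remove_pair hTrc huT, hb'⟩
    · refine ⟨x, hx, u, hu.1, hxy, ?_, hb'⟩
      rw [pair_comm]
      exact hTr.remove_pair hTrc huT
  push Not at h1
  by_cases h2 : ∃ w ∈ X, Hᶜ.Adj u w
  · obtain ⟨w, hw, huw⟩ := h2
    exact ⟨u, hu.1, w, hw, huw, hTr.remove_pair hTrc huT, hTb.remove_pair hTbc h1⟩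
  push Not at h2
  -- `u` is red to everything
  have hred : ∀ w ∈ X, w ≠ u → H.Adj u w := by
    intro w hw hwu
    by_contra hcon
    exact h2 w hw (by rw [SimpleGraph.compl_adj]; exact ⟨hwu.symm, hcon⟩)
  obtain ⟨e, he⟩ := card_pos.1 (show 0 < Tb.card by omega)
  have hcard : (Tb.erase e).card = c := by
    rw [card_erase_of_mem he]; omega
  obtain ⟨x, hx, y, hy, hxy, rfl⟩ := hTb.1 e he
  have hnH : ¬ H.Adj x y := by
    rw [SimpleGraph.compl_adj] at hxy
    exact hxy.2
  have hux : u ≠ x := fun h => h1 _ he (by simp [h])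
  have huy : u ≠ y := fun h => h1 _ he (by simp [h])
  refine ⟨x, hx, y, hy, hxy, ?_, ⟨_, hTb.erase_edge he, hcard⟩⟩
  by_cases hcx : ∃ f ∈ Tr, x ∈ f
  · by_cases hcy : ∃ f ∈ Tr, y ∈ f
    · obtain ⟨f1, hf1, hxf⟩ := hcx
      obtain ⟨f2, hf2, hyf⟩ := hcy
      -- the other end of `f1`
      obtain ⟨x', hx', hx'x, hf1x⟩ : ∃ x' ∈ X, x' ≠ x ∧ f1 = {x, x'} := by
        obtain ⟨p, hp, q, hq, hpq, rfl⟩ := hTr.1 f1 hf1
        rw [mem_insert, mem_singleton] at hxf
        rcases hxf with rfl | rfl
        · exact ⟨q, hq, (H.ne_of_adj hpq).symm, rfl⟩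
        · exact ⟨p, hp, H.ne_of_adj hpq, pair_comm _ _⟩
      have hf12 : f1 ≠ f2 := by
        rintro rfl
        obtain ⟨p, hp, q, hq, hpq, rfl⟩ := hTr.1 f1 hf1
        rw [mem_insert, mem_singleton] at hxf hyf
        have hxyne := Hᶜ.ne_of_adj hxy
        rcases hxf with rfl | rfl <;> rcases hyf with rfl | rfl
        · exact hxyne rfl
        · exact hnH hpq
        · exact hnH hpq.symm
        · exact hxyne rfl
      have hx'y : x' ≠ y := by
        rintro rfl
        exact disjoint_left.1 (hTr.2 f1 hf1 f2 hf2 hf12) (by rw [hf1x]; simp) hyf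
      have hx'u : x' ≠ u := by
        rintro rfl
        exact huT f1 hf1 (by rw [hf1x]; simp)
      have hT' : IsMat H (X \ {x, y}) ((Tr.erase f1).erase f2) := by
        apply (hTr.sub ((erase_subset _ _).trans (erase_subset _ _))).avoid
        intro f hf
        rw [mem_erase, mem_erase] at hf
        rw [Finset.disjoint_right]
        intro z hz
        rw [mem_insert, mem_singleton] at hz
        rcases hz with rfl | rfl
        · exact disjoint_right.1 (hTr.2 f hf.2.2 f1 hf1 hf.2.1) hxf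
        · exact disjoint_right.1 (hTr.2 f hf.2.2 f2 hf2 hf.1) hyf
      obtain ⟨h3, h4⟩ := hT'.insert_pair (x := u) (y := x')
        (mem_sdiff.2 ⟨hu.1, by simp [hux, huy]⟩) (mem_sdiff.2 ⟨hx', by simp [hx'x, hx'y]⟩)
        (hred x' hx' hx'u)
        (fun f hf => huT f (mem_of_mem_erase (mem_of_mem_erase hf)))
        (by
          intro f hf
          rw [mem_erase, mem_erase] at hf
          exact disjoint_right.1 (hTr.2 f hf.2.2 f1 hf1 hf.2.1) (by rw [hf1x]; simp))
      refine ⟨_, h3, ?_⟩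
      rw [h4, card_erase_of_mem (mem_erase.2 ⟨hf12.symm, hf2⟩), card_erase_of_mem hf1]
      have : 2 ≤ Tr.card := by
        have h5 : ({f1, f2} : Finset (Finset V)) ⊆ Tr := by
          intro z hz
          rw [mem_insert, mem_singleton] at hz
          rcases hz with rfl | rfl
          · exact hf1
          · exact hf2
        have h6 := card_le_card h5
        rwa [card_pair hf12] at h6
      omega
    · push Not at hcy
      rw [pair_comm]
      exact hTr.remove_pair hTrc hcy
  · push Not at hcx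
    exact hTr.remove_pair hTrc hcx

/-- the mixture lemma -/
theorem mixture (j : ℕ) : ∀ {X : Finset V} {c : ℕ}, j ≤ c → 2 * c + 1 ≤ X.card → HasMat H X c →
    HasMat Hᶜ X c → HasMix H X j (c - j) := by
  induction j with
  | zero =>
    intro X c _ _ hr _
    obtain ⟨T, hT, hTc⟩ := hr
    exact ⟨∅, T, ⟨by simp, by simp⟩, hT, by simp, rfl, by omega⟩
  | succ j ih =>
    intro X c hj hX hr hb
    obtain ⟨c, rfl⟩ : ∃ c', c = c' + 1 := ⟨c - 1, by omega⟩
    obtain ⟨u, hu, w, hw, huw, h1, h2⟩ := peel_mix hX hr hb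
    have hcard := card_sdiff_pair hu hw (Hᶜ.ne_of_adj huw)
    obtain ⟨Tb, Tr, h3, h4, h5, h6, h7⟩ := ih (X := X \ {u, w}) (c := c) (by omega) (by omega) h1 h2
    have hout : ∀ z ∈ ({u, w} : Finset V), ∀ e, e ⊆ X \ {u, w} → z ∉ e := by
      intro z hz e he hze
      exact (mem_sdiff.1 (he hze)).2 hz
    obtain ⟨h8, h9⟩ := (h3.mono_set (Finset.sdiff_subset (t := ({u, w} : Finset V)))).insert_pair
      hu hw huw (fun e he => hout u (by simp) e (h3.subset_of_mem he))
      (fun e he => hout w (by simp) e (h3.subset_of_mem he))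
    refine ⟨_, Tr, h8, h4.mono_set Finset.sdiff_subset, ?_, by rw [h9, h6], by rw [h7]; omega⟩
    intro e he f hf
    rcases mem_insert.1 he with rfl | he
    · rw [Finset.disjoint_left]
      intro z hz hzf
      exact hout z hz f (h4.subset_of_mem hf) hzf
    · exact h5 e he f hf

end Mix

end Pool.Agent.Lib.MP_a05470_co
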