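import Pool.Agent.Lib.MP_a05470_co.JStehlik
import Pool.Agent.Lib.MP_a05470_co.JMix

/-!
# The clique cover number of a set of vertices
-/

set_option autoImplicit false
set_option linter.unusedSectionVars false

namespace Pool.Agent.Lib.MP_a05470_co

open Finset Classical

namespace JT

variable {V : Type} [Fintype V] {R : SimpleGraph V}

/-- the labels of `f` are a clique cover of `X` -/
def CovOn (R : SimpleGraph V) (X : Finset V) (f : V → ℕ) : Prop :=
  ∀ x ∈ X, ∀ y ∈ X, x ≠ y → f x = f y → R.Adj x y

theorem exists_cov (R : SimpleGraph V) (X : Finset V) : ∃ f : V → ℕ, CovOn R X f := by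
  refine ⟨fun x => (Fintype.equivFin V x : ℕ), fun x _ y _ hxy h => ?_⟩
  exact absurd ((Fintype.equivFin V).injective (Fin.val_injective h)) hxy

/-- the clique cover number of `X` -/
noncomputable def th (R : SimpleGraph V) (X : Finset V) : ℕ :=
  sInf {k | ∃ f : V → ℕ, CovOn R X f ∧ (X.image f).card = k}

theorem th_spec (R : SimpleGraph V) (X : Finset V) :
    ∃ f : V → ℕ, CovOn R X f ∧ (X.image f).card = th R X := by
  have h : {k | ∃ f : V → ℕ, CovOn R X f ∧ (X.image f).card = k}.Nonempty := by
    obtain ⟨f, hf⟩ := exists_cov R X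
    exact ⟨_, f, hf, rfl⟩
  exact Nat.sInf_mem h

theorem th_le {X : Finset V} {f : V → ℕ} (hf : CovOn R X f) : th R X ≤ (X.image f).card :=
  Nat.sInf_le ⟨f, hf, rfl⟩

theorem CovOn.mono {X Y : Finset V} {f : V → ℕ} (hf : CovOn R Y f) (h : X ⊆ Y) : CovOn R X f :=
  fun x hx y hy => hf x (h hx) y (h hy)

theorem th_mono {X Y : Finset V} (h : X ⊆ Y) : th R X ≤ th R Y := by
  obtain ⟨f, hf, hc⟩ := th_spec R Y
  rw [← hc]
  exact (th_le (hf.mono h)).trans (card_le_card (image_subset_image h))

theorem th_empty : th R (∅ : Finset V) = 0 := by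
  have := th_le (R := R) (X := ∅) (f := fun _ => 0) (by intro x hx; simp at hx)
  simpa using this

theorem th_pos {X : Finset V} (h : X.Nonempty) : 1 ≤ th R X := by
  obtain ⟨f, hf, hc⟩ := th_spec R X
  rw [← hc]
  exact card_pos.2 (h.image f)

theorem th_clique {X : Finset V} (h : ∀ x ∈ X, ∀ y ∈ X, x ≠ y → R.Adj x y) : th R X ≤ 1 := by
  refine (th_le (f := fun _ => 0) (fun x hx y hy hxy _ => h x hx y hy hxy)).trans ?_
  refine (card_le_card (t := {0}) ?_).trans (by simp)
  intro i hi
  rw [mem_image] at hi
  obtain ⟨_, _, rfl⟩ := hi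
  simp

/-- combining two covers with different labels -/
theorem th_union_le {X Y : Finset V} : th R (X ∪ Y) ≤ th R X + th R Y := by
  obtain ⟨f, hf, hc⟩ := th_spec R X
  obtain ⟨g, hg, hd⟩ := th_spec R Y
  set h : V → ℕ := fun x => if x ∈ X then 2 * f x else 2 * g x + 1 with hh
  have hX : ∀ x ∈ X, h x = 2 * f x := fun x hx => by simp only [hh, if_pos hx]
  have hY : ∀ x, x ∉ X → h x = 2 * g x + 1 := fun x hx => by simp only [hh, if_neg hx]
  have hcov : CovOn R (X ∪ Y) h := by
    intro x hx y hy hxy hxy'
    rw [mem_union] at hx hy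
    by_cases hx' : x ∈ X <;> by_cases hy' : y ∈ X
    · rw [hX x hx', hX y hy'] at hxy'
      exact hf x hx' y hy' hxy (by omega)
    · rw [hX x hx', hY y hy'] at hxy'
      omega
    · rw [hY x hx', hX y hy'] at hxy'
      omega
    · rw [hY x hx', hY y hy'] at hxy'
      exact hg x (hx.resolve_left hx') y (hy.resolve_left hy') hxy (by omega)
  refine (th_le hcov).trans ?_
  have h1 : (X ∪ Y).image h ⊆ (X.image f).image (fun i => 2 * i) ∪
      (Y.image g).image (fun i => 2 * i + 1) := by
    intro i hi
    rw [mem_image] at hi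
    obtain ⟨x, hx, rfl⟩ := hi
    rw [mem_union] at hx ⊢
    by_cases hx' : x ∈ X
    · left
      rw [hX x hx']
      exact mem_image_of_mem _ (mem_image_of_mem _ hx')
    · right
      rw [hY x hx', mem_image]
      exact ⟨g x, mem_image_of_mem _ (hx.resolve_left hx'), rfl⟩
  refine (card_le_card h1).trans ((card_union_le _ _).trans ?_)
  rw [← hc, ← hd]
  exact add_le_add card_image_le card_image_le

/-- no edges between `X` and `Y` -/
def Sep (R : SimpleGraph V) (X Y : Finset V) : Prop :=
  Disjoint X Y ∧ ∀ x ∈ X, ∀ y ∈ Y, ¬ R.Adj x y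

theorem th_union_sep {X Y : Finset V} (h : Sep R X Y) : th R (X ∪ Y) = th R X + th R Y := by
  apply le_antisymm th_union_le
  obtain ⟨f, hf, hc⟩ := th_spec R (X ∪ Y)
  rw [← hc, image_union, card_union_of_disjoint]
  · exact add_le_add (th_le (hf.mono subset_union_left)) (th_le (hf.mono subset_union_right))
  · rw [Finset.disjoint_left]
    intro i hi hi'
    rw [mem_image] at hi hi'
    obtain ⟨x, hx, rfl⟩ := hi
    obtain ⟨y, hy, hxy⟩ := hi'
    have hne : x ≠ y := fun h' => disjoint_left.1 h.1 hx (h' ▸ hy)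
    exact h.2 x hx y hy (hf x (mem_union_left _ hx) y (mem_union_right _ hy) hne hxy.symm)

theorem th_insert_le {X : Finset V} (x : V) : th R (insert x X) ≤ th R X + 1 := by
  rw [insert_eq, union_comm]
  refine th_union_le.trans (add_le_add_right ?_ _)
  apply th_clique
  intro y hy z hz hyz
  rw [mem_singleton] at hy hz
  exact absurd (hy.trans hz.symm) hyz

/-- if `x` cannot be added for free, it has many non-neighbours -/
theorem nonadj_ge {X : Finset V} {x : V} (hx : x ∉ X) (h : th R X < th R (insert x X)) :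
    ∃ Y ⊆ X, th R X ≤ Y.card ∧ ∀ y ∈ Y, Rᶜ.Adj x y := by
  have : Nonempty V := ⟨x⟩
  obtain ⟨f, hf, hc⟩ := th_spec R X
  rw [← hc]
  have key : ∀ i ∈ X.image f, ∃ y ∈ X, f y = i ∧ Rᶜ.Adj x y := by
    intro i hi
    by_contra hcon
    push Not at hcon
    have hcov : CovOn R (insert x X) (fun y => if y = x then i else f y) := by
      intro y hy z hz hyz hyz'
      by_cases h1 : y = x <;> by_cases h2 : z = x
      · exact absurd (h1.trans h2.symm) hyz
      · simp only [if_pos h1, if_neg h2] at hyz'
        have hzX := (mem_insert.1 hz).resolve_left h2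
        have h3 := hcon z hzX hyz'.symm
        rw [SimpleGraph.compl_adj] at h3
        push Not at h3
        rw [h1]
        exact h3 (Ne.symm h2)
      · simp only [if_neg h1, if_pos h2] at hyz'
        have hyX := (mem_insert.1 hy).resolve_left h1
        have h3 := hcon y hyX hyz'
        rw [SimpleGraph.compl_adj] at h3
        push Not at h3
        rw [h2]
        exact (h3 (Ne.symm h1)).symm
      · simp only [if_neg h1, if_neg h2] at hyz'
        exact hf y ((mem_insert.1 hy).resolve_left h1) z ((mem_insert.1 hz).resolve_left h2) hyz hyz'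
    have h1 := th_le hcov
    have h2 : (insert x X).image (fun y => if y = x then i else f y) ⊆ X.image f := by
      intro j hj
      rw [mem_image] at hj
      obtain ⟨y, hy, rfl⟩ := hj
      by_cases h3 : y = x
      · simp only [if_pos h3]
        exact hi
      · simp only [if_neg h3]
        exact mem_image_of_mem _ ((mem_insert.1 hy).resolve_left h3)
    have h3 := card_le_card h2
    omega
  choose! y hy1 hy2 hy3 using key
  refine ⟨(X.image f).image y, ?_, ?_, ?_⟩
  · intro z hz
    rw [mem_image] at hz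
    obtain ⟨i, hi, rfl⟩ := hz
    exact hy1 i hi
  · have hinj : Set.InjOn y (X.image f : Finset ℕ) := by
      intro i hi j hj hij
      rw [mem_coe] at hi hj
      rw [← hy2 i hi, ← hy2 j hj, hij]
    rw [card_image_of_injOn hinj]
  · intro z hz
    rw [mem_image] at hz
    obtain ⟨i, hi, rfl⟩ := hz
    exact hy3 i hi

/-- Nordhaus and Gaddum -/
theorem th_compl (R : SimpleGraph V) (X : Finset V) : th R X + th Rᶜ X ≤ X.card + 1 := by
  induction X using Finset.induction_on with
  | empty => rw [th_empty, th_empty]; simp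
  | insert x X hx ih =>
    rw [card_insert_of_notMem hx]
    have h1 := th_insert_le (R := R) (X := X) x
    have h2 := th_insert_le (R := Rᶜ) (X := X) x
    by_cases h3 : th R X < th R (insert x X)
    · by_cases h4 : th Rᶜ X < th Rᶜ (insert x X)
      · obtain ⟨Y, h5, h5c, h5a⟩ := nonadj_ge hx h3
        obtain ⟨Z, h6, h6c, h6a⟩ := nonadj_ge hx h4
        have h7 : Y.card + Z.card ≤ X.card := by
          rw [← card_union_of_disjoint]
          · exact card_le_card (union_subset h5 h6)
          · rw [Finset.disjoint_left]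
            intro y hy hy'
            have h8 := h6a y hy'
            rw [SimpleGraph.compl_adj] at h8
            exact h8.2 (h5a y hy)
        omega
      · omega
    · omega

/-- colourings of the complement -/
theorem colorable_of_th {X : Finset V} {k : ℕ} (h : th R X ≤ k) :
    (R.comap (Subtype.val : {x // x ∈ X} → V))ᶜ.Colorable k := by
  obtain ⟨f, hf, hc⟩ := th_spec R X
  have h1 : (R.comap (Subtype.val : {x // x ∈ X} → V))ᶜ.Colorable (Fintype.card (X.image f)) := by
    apply SimpleGraph.Coloring.colorable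
    refine SimpleGraph.Coloring.mk (fun x => (⟨f x.1, mem_image_of_mem f x.2⟩ : X.image f)) ?_
    intro x y hxy h2
    have h3 := congrArg Subtype.val h2
    simp only at h3
    rw [SimpleGraph.compl_adj] at hxy
    exact hxy.2 (hf x.1 x.2 y.1 y.2 (fun h4 => hxy.1 (Subtype.ext h4)) h3)
  apply h1.mono
  rw [Fintype.card_coe, hc]
  exact h

theorem colorable_of_th' {X : Finset V} {k : ℕ} (h : th Rᶜ X ≤ k) :
    (R.comap (Subtype.val : {x // x ∈ X} → V)).Colorable k := by
  have h1 := colorable_of_th (R := Rᶜ) h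
  have h2 : (Rᶜ.comap (Subtype.val : {x // x ∈ X} → V))ᶜ = R.comap Subtype.val := by
    ext x y
    rw [SimpleGraph.compl_adj, SimpleGraph.comap_adj, SimpleGraph.comap_adj,
      SimpleGraph.compl_adj]
    constructor
    · rintro ⟨h3, h4⟩
      by_contra hcon
      exact h4 ⟨fun h5 => h3 (Subtype.ext h5), hcon⟩
    · intro h3
      exact ⟨fun h5 => R.ne_of_adj h3 (congrArg Subtype.val h5), fun h4 => h4.2 h3⟩
  rwa [h2] at h1

theorem th_le_of_colorable {k : ℕ} (h : Rᶜ.Colorable k) : th R univ ≤ k := by
  obtain ⟨C⟩ := h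
  have hcov : CovOn R univ (fun x => (C x : ℕ)) := by
    intro x _ y _ hxy hC
    by_contra hcon
    exact C.valid (show Rᶜ.Adj x y by rw [SimpleGraph.compl_adj]; exact ⟨hxy, hcon⟩)
      (Fin.val_injective hC)
  refine (th_le hcov).trans ?_
  have h1 : univ.image (fun x => (C x : ℕ)) ⊆ range k := by
    intro i hi
    rw [mem_image] at hi
    obtain ⟨x, _, rfl⟩ := hi
    rw [mem_range]
    exact (C x).2
  have h2 := card_le_card h1
  rwa [card_range] at h2

/-- a critical set: the removal of any vertex lowers the cover number -/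
def Crit (R : SimpleGraph V) (X : Finset V) : Prop := ∀ x ∈ X, th R (X.erase x) < th R X

theorem Crit.erase {X : Finset V} (h : Crit R X) {x : V} (hx : x ∈ X) :
    th R (X.erase x) + 1 = th R X := by
  have h1 := h x hx
  have h2 := th_insert_le (R := R) (X := X.erase x) x
  rw [insert_erase hx] at h2
  omega

/-- separated parts of critical sets are critical -/
theorem Crit.part {X Y : Finset V} (h : Crit R (X ∪ Y)) (hs : Sep R X Y) : Crit R X := by
  intro x hx
  have h1 := h x (mem_union_left _ hx)
  have hxY : x ∉ Y := fun h' => disjoint_left.1 hs.1 hx h'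
  have h2 : (X ∪ Y).erase x = X.erase x ∪ Y := by
    rw [erase_union_distrib, erase_eq_of_notMem hxY]
  have hs' : Sep R (X.erase x) Y :=
    ⟨disjoint_of_subset_left (erase_subset x X) hs.1, fun z hz => hs.2 z (mem_of_mem_erase hz)⟩
  rw [h2, th_union_sep hs', th_union_sep hs] at h1
  omega

/-- Stehlík's theorem for a connected critical set -/
theorem crit_cover {X : Finset V} (hconn : (R.comap (Subtype.val : {x // x ∈ X} → V)).Preconnected)
    (hcrit : Crit R X) {c : ℕ} (hth : th R X = c + 1) {x : V} (hx : x ∈ X) :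
    ∃ f : V → ℕ, CovOn R X f ∧ (X.image f).card = c + 1 ∧ (∀ y ∈ X, f y = f x → y = x) ∧
      ∀ y ∈ X, y ≠ x → ∃ z ∈ X, z ≠ y ∧ f z = f y := by
  set G := R.comap (Subtype.val : {x // x ∈ X} → V) with hG
  -- covers of the subtype
  have ext_cov : ∀ f : {x // x ∈ X} → ℕ, Stehlik.Cov G f →
      ∃ f' : V → ℕ, CovOn R X f' ∧ (X.image f').card = Stehlik.nc f ∧ ∀ y (hy : y ∈ X),
        f' y = f ⟨y, hy⟩ := by
    intro f hf
    refine ⟨fun y => if hy : y ∈ X then f ⟨y, hy⟩ else 0, ?_, ?_, fun y hy => dif_pos hy⟩
    · intro y hy z hz hyz h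
      simp only [dif_pos hy, dif_pos hz] at h
      exact hf ⟨y, hy⟩ ⟨z, hz⟩ (fun h' => hyz (congrArg Subtype.val h')) h
    · unfold Stehlik.nc
      congr 1
      ext i
      simp only [mem_image, mem_univ, true_and]
      constructor
      · rintro ⟨y, hy, h⟩
        rw [dif_pos hy] at h
        exact ⟨⟨y, hy⟩, h⟩
      · rintro ⟨⟨y, hy⟩, h⟩
        exact ⟨y, hy, by rw [dif_pos hy]; exact h⟩
  have hmin : ∀ f, Stehlik.Cov G f → c + 1 ≤ Stehlik.nc f := by
    intro f hf
    obtain ⟨f', h1, h2, _⟩ := ext_cov f hf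
    rw [← hth, ← h2]
    exact th_le h1
  have hcr : ∀ x : {x // x ∈ X}, ∃ f, Stehlik.Cov G f ∧ Stehlik.nc f = c + 1 ∧
      Stehlik.Sing f x := by
    rintro ⟨x, hx⟩
    obtain ⟨f, hf, hfc⟩ := th_spec R (X.erase x)
    have h1 := hcrit.erase hx
    refine ⟨fun y => if y.1 = x then 0 else f y.1 + 1, ?_, ?_, ?_⟩
    · rintro ⟨y, hy⟩ ⟨z, hz⟩ hyz h
      simp only at h
      have hne : y ≠ z := fun h' => hyz (Subtype.ext h')
      by_cases h2 : y = x <;> by_cases h3 : z = x
      · exact absurd (h2.trans h3.symm) hne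
      · rw [if_pos h2, if_neg h3] at h
        omega
      · rw [if_neg h2, if_pos h3] at h
        omega
      · rw [if_neg h2, if_neg h3] at h
        exact hf y (mem_erase.2 ⟨h2, hy⟩) z (mem_erase.2 ⟨h3, hz⟩) hne (by omega)
    · have h2 : univ.image (fun y : {x // x ∈ X} => if y.1 = x then 0 else f y.1 + 1) =
          insert 0 (((X.erase x).image f).image (fun i => i + 1)) := by
        ext i
        simp only [mem_image, mem_univ, true_and, mem_insert]
        constructor
        · rintro ⟨⟨y, hy⟩, h⟩
          by_cases h3 : y = x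
          · rw [if_pos h3] at h
            exact Or.inl h.symm
          · rw [if_neg h3] at h
            exact Or.inr ⟨f y, ⟨y, mem_erase.2 ⟨h3, hy⟩, rfl⟩, h⟩
        · rintro (rfl | ⟨_, ⟨y, hy, rfl⟩, rfl⟩)
          · exact ⟨⟨x, hx⟩, if_pos rfl⟩
          · rw [mem_erase] at hy
            exact ⟨⟨y, hy.2⟩, if_neg hy.1⟩
      unfold Stehlik.nc
      rw [h2, card_insert_of_notMem, card_image_of_injective _ (add_left_injective 1), hfc]
      · omega
      · intro h3
        rw [mem_image] at h3
        obtain ⟨j, _, hj⟩ := h3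
        omega
    · rintro ⟨y, hy⟩ h
      simp only [if_true] at h
      by_contra hcon
      have h3 : y ≠ x := fun h' => hcon (Subtype.ext h')
      rw [if_neg h3] at h
      omega
  obtain ⟨f, h1, h2, h3, h4⟩ := stehlik hconn hmin hcr ⟨x, hx⟩
  obtain ⟨f', h5, h6, h7⟩ := ext_cov f h1
  refine ⟨f', h5, by rw [h6, h2], ?_, ?_⟩
  · intro y hy hyx
    rw [h7 y hy, h7 x hx] at hyx
    exact congrArg Subtype.val (h3 ⟨y, hy⟩ hyx)
  · intro y hy hyx
    have h8 := h4 ⟨y, hy⟩ (fun h => hyx (congrArg Subtype.val h))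
    unfold Stehlik.Sing at h8
    push Not at h8
    obtain ⟨⟨z, hz⟩, h9, h10⟩ := h8
    refine ⟨z, hz, fun h => h10 (Subtype.ext h), ?_⟩
    rw [h7 z hz, h7 y hy]
    exact h9

/-- the data of a connected critical set -/
theorem crit_data {X : Finset V} (hconn : (R.comap (Subtype.val : {x // x ∈ X} → V)).Preconnected)
    (hcrit : Crit R X) (hX : 2 ≤ X.card) :
    ∃ c, 2 ≤ c ∧ th R X = c + 1 ∧ 2 * c + 1 ≤ X.card ∧ HasMat R X c ∧ HasMat Rᶜ X c := by
  obtain ⟨x, hx⟩ := card_pos.1 (show 0 < X.card by omega)
  have : Nonempty V := ⟨x⟩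
  have hpos := th_pos (R := R) ⟨x, hx⟩
  obtain ⟨c, hc⟩ : ∃ c, th R X = c + 1 := ⟨th R X - 1, by omega⟩
  obtain ⟨f, h1, h2, h3, h4⟩ := crit_cover hconn hcrit hc hx
  -- the labels other than that of `x`
  set L := (X.image f).erase (f x) with hL
  have hLc : L.card = c := by
    rw [hL, card_erase_of_mem (mem_image_of_mem f hx), h2]
    rfl
  have key : ∀ i ∈ L, ∃ y ∈ X, ∃ z ∈ X, f y = i ∧ f z = i ∧ y ≠ z := by
    intro i hi
    rw [hL, mem_erase, mem_image] at hi
    obtain ⟨hix, y, hy, rfl⟩ := hi
    have hyx : y ≠ x := fun h => hix (by rw [h])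
    obtain ⟨z, hz, hzy, hfz⟩ := h4 y hy hyx
    exact ⟨y, hy, z, hz, rfl, hfz, Ne.symm hzy⟩
  choose! y hy z hz hfy hfz hyz using key
  have hmat : HasMat R X c := by
    refine ⟨L.image (fun i => {y i, z i}), ⟨?_, ?_⟩, ?_⟩
    · intro e he
      rw [mem_image] at he
      obtain ⟨i, hi, rfl⟩ := he
      exact ⟨y i, hy i hi, z i, hz i hi, h1 _ (hy i hi) _ (hz i hi) (hyz i hi)
        (by rw [hfy i hi, hfz i hi]), rfl⟩
    · intro e he e' he' hee
      rw [mem_image] at he he'
      obtain ⟨i, hi, rfl⟩ := he
      obtain ⟨j, hj, rfl⟩ := he'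
      have hij : i ≠ j := fun h => hee (by rw [h])
      rw [Finset.disjoint_left]
      intro w hw hw'
      rw [mem_insert, mem_singleton] at hw hw'
      have e1 : f w = i := by
        rcases hw with rfl | rfl
        · exact hfy i hi
        · exact hfz i hi
      have e2 : f w = j := by
        rcases hw' with rfl | rfl
        · exact hfy j hj
        · exact hfz j hj
      exact hij (e1.symm.trans e2)
    · rw [card_image_of_injOn, hLc]
      intro i hi j hj hij
      rw [mem_coe] at hi hj
      have hij' : ({y i, z i} : Finset V) = {y j, z j} := hij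
      have e1 : y i ∈ ({y j, z j} : Finset V) := by
        rw [← hij']
        simp
      rw [mem_insert, mem_singleton] at e1
      rcases e1 with e1 | e1
      · rw [← hfy i hi, e1, hfy j hj]
      · rw [← hfy i hi, e1, hfz j hj]
  have hcard : 2 * c + 1 ≤ X.card := by
    obtain ⟨T, hT, hTc⟩ := hmat
    -- `x` is not covered by the matching constructed above; count the classes instead
    have h5 : ∑ i ∈ L, 2 ≤ ∑ i ∈ L, (X.filter (fun w => f w = i)).card := by
      apply sum_le_sum
      intro i hi
      have h6 : ({y i, z i} : Finset V) ⊆ X.filter (fun w => f w = i) := by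
        intro w hw
        rw [mem_insert, mem_singleton] at hw
        rw [mem_filter]
        rcases hw with rfl | rfl
        · exact ⟨hy i hi, hfy i hi⟩
        · exact ⟨hz i hi, hfz i hi⟩
      have h7 := card_le_card h6
      rwa [card_pair (hyz i hi)] at h7
    have h6 := card_eq_sum_card_fiberwise (f := f) (s := X) (t := X.image f)
      (fun w hw => mem_coe.2 (mem_image_of_mem f hw))
    rw [← add_sum_erase _ _ (mem_image_of_mem f hx)] at h6
    have h7 : 1 ≤ (X.filter (fun w => f w = f x)).card :=
      card_pos.2 ⟨x, mem_filter.2 ⟨hx, rfl⟩⟩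
    rw [sum_const, smul_eq_mul, hLc] at h5
    rw [← hL] at h6
    omega
  have hc2 : 2 ≤ c := by
    by_contra hcon
    have h5 : c = 0 ∨ c = 1 := by omega
    rcases h5 with rfl | rfl
    · have h6 := hcrit.erase hx
      have h7 : th R (X.erase x) = 0 := by omega
      have h8 : (X.erase x).Nonempty := by
        rw [← card_pos, card_erase_of_mem hx]
        omega
      have := th_pos (R := R) h8
      omega
    · have h6 : th R X ≤ 1 := by
        apply th_clique
        intro u hu w hw huw
        -- a third vertex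
        have h7 : (X \ {u, w}).Nonempty := by
          rw [← card_pos, card_sdiff_of_subset, card_pair huw]
          · omega
          · intro q hq
            rw [mem_insert, mem_singleton] at hq
            rcases hq with rfl | rfl
            · exact hu
            · exact hw
        obtain ⟨q, hq⟩ := h7
        rw [mem_sdiff, mem_insert, mem_singleton] at hq
        push Not at hq
        have h8 := hcrit.erase hq.1
        have h9 : th R (X.erase q) = 1 := by omega
        obtain ⟨f', h10, h11⟩ := th_spec R (X.erase q)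
        rw [h9] at h11
        obtain ⟨i, hi⟩ := card_eq_one.1 h11
        have hmem : ∀ p ∈ X.erase q, f' p = i := by
          intro p hp
          have := mem_image_of_mem f' hp
          rw [hi, mem_singleton] at this
          exact this
        have hu' : u ∈ X.erase q := mem_erase.2 ⟨Ne.symm hq.2.1, hu⟩
        have hw' : w ∈ X.erase q := mem_erase.2 ⟨Ne.symm hq.2.2, hw⟩
        exact h10 u hu' w hw' huw (by rw [hmem u hu', hmem w hw'])
      omega
  refine ⟨c, hc2, hc, hcard, hmat, ?_⟩
  apply hasMat_of_degree' hcard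
  intro w hw
  have h5 := hcrit.erase hw
  obtain ⟨Y, h6, h7, h8⟩ := nonadj_ge (R := R) (notMem_erase w X)
    (by rw [insert_erase hw]; omega)
  exact ⟨Y, h6.trans (erase_subset w X), by omega, h8⟩

end JT

end Pool.Agent.Lib.MP_a05470_co
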