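import Pool.Agent.Lib.MP_a05470_co.Odd
import Pool.Agent.Lib.MP_a05470_co.JMix

/-!
# Packings with restrictions
-/

set_option autoImplicit false
set_option linter.unusedSectionVars false

namespace Pool.Agent.Lib.MP_a05470_co

open Finset Classical

namespace JP

variable {n : ℕ} {V : Type} {Gr Gb : SimpleGraph (Fin n)} {H : SimpleGraph V}

/-- the black box: graphs with `2s+1` vertices -/
theorem packable_odd {V : Type} {H : SimpleGraph V} [Fintype V] {s : ℕ}
    (hV : Fintype.card V ≤ 2 * s + 1)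
    (h1 : H.Colorable (s + 1)) (h2 : Hᶜ.Colorable (s + 1)) {F : Finset (Finset (Fin n))}
    (hF : IsFam Gr Gb F)
    (hk : ∀ k : ℕ, 1 ≤ k → (s : ℤ) * (k + 1) + 1 ≤
      k * F.card + (F.filter (fun C => k < C.card)).card) : Packable H Gr Gb univ F := by
  by_cases hb : HasMat Hᶜ Finset.univ (boxesOf Gb F).card
  · obtain ⟨ι, c, hc, hK⟩ := exists_col h2
    exact packable_case hF hV hc hK hb hk
  · by_cases hr : HasMat H Finset.univ (boxesOf Gr F).card
    · have hF' : IsFam Gb Gr F := by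
        refine ⟨fun C hC => ⟨(hF.1 C hC).1, ?_⟩, ?_⟩
        · intro x hx y hy hxy
          have := (hF.1 C hC).2 x hx y hy hxy
          tauto
        · intro C hC D hD hCD x hx y hy
          exact (hF.2 C hC D hD hCD x hx y hy).symm
      obtain ⟨ι, c, hc, hK⟩ := exists_col (H := Hᶜ) (s := s) (by rwa [compl_compl])
      have h3 := packable_case (H := Hᶜ) hF' hV hc hK (by rwa [compl_compl]) hk
      have h4 := h3.swap
      rwa [compl_compl] at h4
    · apply packable_both hF hb hr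
      have h3 := hk 1 le_rfl
      refine hV.trans ?_
      push_cast at h3
      have h4 : ((2 * s + 1 : ℕ) : ℤ) ≤
          ((F.card + (F.filter (fun C => 1 < C.card)).card : ℕ) : ℤ) := by
        push_cast
        linarith
      exact_mod_cast h4

/-- from an induced subgraph -/
theorem packable_of_sub {X : Finset V} {I : Finset (Finset (Fin n))} (hI : ∀ C ∈ I, C.Nonempty)
    (h : Packable (H.comap (Subtype.val : {x // x ∈ X} → V)) Gr Gb univ I) :
    Packable H Gr Gb X I := by
  obtain ⟨f, hf1, hf2⟩ := h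
  refine ⟨fun x => if hx : x ∈ X then f ⟨x, hx⟩ else ∅, ?_, ?_⟩
  · intro x hx
    simp only [dif_pos hx]
    exact hf1 _ (mem_univ _)
  · intro C hC
    obtain ⟨e, h1, h2, h3⟩ := hf2 C hC
    obtain ⟨z, _⟩ := hI C hC
    have key : ∀ x ∈ X.filter (fun x => (if hx : x ∈ X then f ⟨x, hx⟩ else ∅) = C),
        ∃ hx : x ∈ X, (⟨x, hx⟩ : {x // x ∈ X}) ∈ univ.filter (fun x => f x = C) := by
      intro x hx
      rw [mem_filter] at hx
      refine ⟨hx.1, ?_⟩
      rw [mem_filter]
      refine ⟨mem_univ _, ?_⟩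
      have := hx.2
      rwa [dif_pos hx.1] at this
    refine ⟨fun x => if hx : x ∈ X then e ⟨x, hx⟩ else z, ?_, ?_, ?_⟩
    · intro x hx
      obtain ⟨hxX, hx'⟩ := key x hx
      simp only [dif_pos hxX]
      exact h1 _ hx'
    · intro x hx y hy hxy
      obtain ⟨hxX, hx'⟩ := key x hx
      obtain ⟨hyX, hy'⟩ := key y hy
      simp only [dif_pos hxX, dif_pos hyX] at hxy
      exact congrArg Subtype.val (h2 _ hx' _ hy' hxy)
    · intro x hx y hy
      obtain ⟨hxX, hx'⟩ := key x hx
      obtain ⟨hyX, hy'⟩ := key y hy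
      simp only [dif_pos hxX, dif_pos hyX]
      have h4 := h3 _ hx' _ hy'
      refine ⟨fun h => h4.1 h, fun h => h4.2 ?_⟩
      rw [SimpleGraph.compl_adj] at h ⊢
      exact ⟨fun h5 => h.1 (congrArg Subtype.val h5), h.2⟩

/-- packing with a restriction on the boxes of a vertex -/
def GP (H : SimpleGraph V) (Gr Gb : SimpleGraph (Fin n)) (ok : V → Finset (Fin n) → Prop)
    (X : Finset V) (I : Finset (Finset (Fin n))) : Prop :=
  ∃ f : V → Finset (Fin n), (∀ x ∈ X, f x ∈ I ∧ ok x (f x)) ∧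
    ∀ C ∈ I, Loc H Gr Gb (X.filter (fun x => f x = C)) C

variable {ok : V → Finset (Fin n) → Prop}

theorem gp_of_packable {X : Finset V} {I : Finset (Finset (Fin n))} (h : Packable H Gr Gb X I)
    (hok : ∀ x ∈ X, ∀ C ∈ I, ok x C) : GP H Gr Gb ok X I := by
  obtain ⟨f, h1, h2⟩ := h
  exact ⟨f, fun x hx => ⟨h1 x hx, hok x hx _ (h1 x hx)⟩, h2⟩

theorem GP.union {X Y : Finset V} {I J : Finset (Finset (Fin n))} (hX : GP H Gr Gb ok X I)
    (hY : GP H Gr Gb ok Y J) (hIJ : Disjoint I J) : GP H Gr Gb ok (X ∪ Y) (I ∪ J) := by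
  obtain ⟨g, hg1, hg2⟩ := hX
  obtain ⟨g', hg1', hg2'⟩ := hY
  refine ⟨fun x => if x ∈ X then g x else g' x, ?_, ?_⟩
  · intro x hx
    rw [Finset.mem_union] at hx
    by_cases h : x ∈ X
    · simp only [if_pos h]
      exact ⟨mem_union_left _ (hg1 x h).1, (hg1 x h).2⟩
    · simp only [if_neg h]
      have := hg1' x (hx.resolve_left h)
      exact ⟨mem_union_right _ this.1, this.2⟩
  · intro C hC
    rw [Finset.mem_union] at hC
    rcases hC with hC | hC
    · apply (hg2 C hC).mono
      intro x hx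
      rw [Finset.mem_filter] at hx ⊢
      by_cases h : x ∈ X
      · simp only [if_pos h] at hx
        exact ⟨h, hx.2⟩
      · simp only [if_neg h] at hx
        have h2 := (hg1' x ((Finset.mem_union.1 hx.1).resolve_left h)).1
        rw [hx.2] at h2
        exact absurd h2 (Finset.disjoint_left.1 hIJ hC)
    · apply (hg2' C hC).mono
      intro x hx
      rw [Finset.mem_filter] at hx ⊢
      by_cases h : x ∈ X
      · simp only [if_pos h] at hx
        have h2 := (hg1 x h).1
        rw [hx.2] at h2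
        exact absurd hC (Finset.disjoint_left.1 hIJ h2)
      · simp only [if_neg h] at hx
        exact ⟨(Finset.mem_union.1 hx.1).resolve_left h, hx.2⟩

theorem gp_empty {I : Finset (Finset (Fin n))} (hI : ∀ C ∈ I, C.Nonempty) :
    GP H Gr Gb ok ∅ I := gp_of_packable (packable_empty hI) (by simp)

theorem GP.mono_boxes {X : Finset V} {I J : Finset (Finset (Fin n))} (hX : GP H Gr Gb ok X I)
    (hIJ : I ⊆ J) (hJ : ∀ C ∈ J, C.Nonempty) : GP H Gr Gb ok X J := by
  have h1 : GP H Gr Gb ok (X ∪ ∅) (I ∪ (J \ I)) :=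
    hX.union (gp_empty (fun C hC => hJ C (Finset.mem_sdiff.1 hC).1)) Finset.disjoint_sdiff
  rwa [Finset.union_empty, Finset.union_sdiff_of_subset hIJ] at h1

/-- many disjoint parts -/
theorem gp_biUnion {κ : Type} (T : Finset κ) : ∀ {X : κ → Finset V}
    {I : κ → Finset (Finset (Fin n))}, (∀ i ∈ T, GP H Gr Gb ok (X i) (I i)) →
    (∀ i ∈ T, ∀ j ∈ T, i ≠ j → Disjoint (I i) (I j)) →
    GP H Gr Gb ok (T.biUnion X) (T.biUnion I) := by
  induction T using Finset.induction_on with
  | empty =>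
    intro X I _ _
    rw [biUnion_empty, biUnion_empty]
    exact gp_empty (by simp)
  | insert i T hi ih =>
    intro X I hX hI
    rw [biUnion_insert, biUnion_insert]
    refine (hX i (mem_insert_self _ _)).union
      (ih (fun j hj => hX j (mem_insert_of_mem hj))
        (fun j hj k hk => hI j (mem_insert_of_mem hj) k (mem_insert_of_mem hk))) ?_
    rw [disjoint_biUnion_right]
    intro j hj
    exact hI i (mem_insert_self _ _) j (mem_insert_of_mem hj) (fun h => hi (h ▸ hj))

/-- pairs distributed to slots -/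
theorem gp_sets (t : ℕ) : ∀ {T : Finset (Finset V)} {S : Finset (Finset (Finset (Fin n)))},
    T.card = t → S.card = t → (∀ s ∈ S, ∀ s' ∈ S, s ≠ s' → Disjoint s s') →
    (∀ e ∈ T, ∀ s ∈ S, GP H Gr Gb ok e s) →
    GP H Gr Gb ok (T.biUnion id) (S.biUnion id) := by
  induction t with
  | zero =>
    intro T S hT hS _ _
    rw [card_eq_zero] at hT hS
    subst hT
    subst hS
    rw [biUnion_empty, biUnion_empty]
    exact gp_empty (by simp)
  | succ t ih =>
    intro T S hT hS hdis hgp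
    obtain ⟨e, he⟩ := card_pos.1 (show 0 < T.card by omega)
    obtain ⟨s, hs⟩ := card_pos.1 (show 0 < S.card by omega)
    have h1 := ih (T := T.erase e) (S := S.erase s) (by rw [card_erase_of_mem he]; omega)
      (by rw [card_erase_of_mem hs]; omega)
      (fun s' hs' s'' hs'' => hdis s' (mem_of_mem_erase hs') s'' (mem_of_mem_erase hs''))
      (fun e' he' s' hs' => hgp e' (mem_of_mem_erase he') s' (mem_of_mem_erase hs'))
    have h2 := (hgp e he s hs).union h1 (by
      rw [disjoint_biUnion_right]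
      intro s' hs'
      rw [mem_erase] at hs'
      exact hdis s hs s' hs'.2 (Ne.symm hs'.1))
    have h3 : T.biUnion id = e ∪ (T.erase e).biUnion id := by
      conv_lhs => rw [← insert_erase he]
      rw [biUnion_insert, id]
    have h4 : S.biUnion id = s ∪ (S.erase s).biUnion id := by
      conv_lhs => rw [← insert_erase hs]
      rw [biUnion_insert, id]
    rw [h3, h4]
    exact h2

/-- slots -/
def BlueSlot (H : SimpleGraph V) (Gr Gb : SimpleGraph (Fin n)) (s : Finset (Finset (Fin n))) :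
    Prop := ∀ u w, Hᶜ.Adj u w → Packable H Gr Gb {u, w} s

def RedSlot (H : SimpleGraph V) (Gr Gb : SimpleGraph (Fin n)) (s : Finset (Finset (Fin n))) :
    Prop := ∀ u w, H.Adj u w → Packable H Gr Gb {u, w} s

theorem slot_single {C : Finset (Fin n)} (hC : IsBox Gr Gb C) (h2 : 1 < C.card) :
    BlueSlot H Gr Gb {C} ∨ RedSlot H Gr Gb {C} := by
  obtain ⟨p, hp, q, hq, hpq⟩ := one_lt_card.1 h2
  by_cases hb : Gb.Adj p q
  · left
    intro u w huw
    exact packable_box (loc_blue hp hq hb huw)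
  · right
    have hr : Gr.Adj p q := (hC.2 p hp q hq hpq).2 hb
    intro u w huw
    have h1 : Loc Hᶜ Gb Gr {u, w} C := loc_blue (H := Hᶜ) (Gr := Gb) (Gb := Gr) hp hq hr
      (by rwa [compl_compl])
    have h3 := h1.swap
    rw [compl_compl] at h3
    exact packable_box h3

theorem slot_pair {C D : Finset (Fin n)} (hC : C.Nonempty) (hD : D.Nonempty) (hCD : C ≠ D) :
    BlueSlot H Gr Gb {C, D} ∧ RedSlot H Gr Gb {C, D} := by
  have key : ∀ u w : V, Packable H Gr Gb {u, w} {C, D} := by
    intro u w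
    apply packable_inj
    · intro E hE
      rw [mem_insert, mem_singleton] at hE
      rcases hE with rfl | rfl
      · exact hC
      · exact hD
    · rw [card_pair hCD]
      exact card_le_two
  exact ⟨fun u w _ => key u w, fun u w _ => key u w⟩

/-- a piece with both matchings in its slots: the rest is one vertex -/
theorem piece_slots {P : Finset V} {c : ℕ} (hP : P.card = 2 * c + 1) (hr : HasMat H P c)
    (hb : HasMat Hᶜ P c) {S : Finset (Finset (Finset (Fin n)))} (hS : S.card = c)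
    (hdis : ∀ s ∈ S, ∀ s' ∈ S, s ≠ s' → Disjoint s s')
    (htype : ∀ s ∈ S, BlueSlot H Gr Gb s ∨ RedSlot H Gr Gb s)
    (hok : ∀ x ∈ P, ∀ s ∈ S, ∀ C ∈ s, ok x C) :
    ∃ x ∈ P, GP H Gr Gb ok (P.erase x) (S.biUnion id) := by
  set Sb := S.filter (fun s => BlueSlot H Gr Gb s) with hSb
  set Sr := S.filter (fun s => ¬ BlueSlot H Gr Gb s) with hSr
  have hcard : Sb.card + Sr.card = c := by rw [hSb, hSr, card_filter_add_card_filter_not, hS]
  obtain ⟨Tb, Tr, h1, h2, h3, h4, h5⟩ := mixture (H := H) Sb.card (X := P) (c := c) (by omega)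
    (by omega) hr hb
  have hunion : (Tb.biUnion id ∪ Tr.biUnion id).card = 2 * c := by
    rw [card_union_of_disjoint, h1.card_biUnion, h2.card_biUnion, h4, h5]
    · omega
    · rw [disjoint_biUnion_left]
      intro e he
      rw [disjoint_biUnion_right]
      intro f hf
      exact h3 e he f hf
  have hsub : Tb.biUnion id ∪ Tr.biUnion id ⊆ P :=
    union_subset h1.biUnion_subset h2.biUnion_subset
  have hrest : (P \ (Tb.biUnion id ∪ Tr.biUnion id)).card = 1 := by
    rw [card_sdiff_of_subset hsub, hunion, hP]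
    omega
  obtain ⟨x, hx⟩ := card_eq_one.1 hrest
  have hxm : x ∈ P \ (Tb.biUnion id ∪ Tr.biUnion id) := by rw [hx]; exact mem_singleton_self x
  rw [mem_sdiff] at hxm
  refine ⟨x, hxm.1, ?_⟩
  have heq : P.erase x = Tb.biUnion id ∪ Tr.biUnion id := by
    ext y
    rw [mem_erase]
    constructor
    · rintro ⟨h6, h7⟩
      by_contra hcon
      have : y ∈ P \ (Tb.biUnion id ∪ Tr.biUnion id) := mem_sdiff.2 ⟨h7, hcon⟩
      rw [hx, mem_singleton] at this
      exact h6 this
    · intro h6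
      exact ⟨fun h7 => hxm.2 (h7 ▸ h6), hsub h6⟩
  have hSeq : S.biUnion id = Sb.biUnion id ∪ Sr.biUnion id := by
    rw [← union_biUnion]
    congr 1
    rw [hSb, hSr, filter_union_filter_not_eq]
  rw [heq, hSeq]
  apply GP.union
  · apply gp_sets Sb.card h4 rfl
    · intro s hs s' hs'
      exact hdis s (mem_filter.1 hs).1 s' (mem_filter.1 hs').1
    · intro e he s hs
      rw [hSb, mem_filter] at hs
      obtain ⟨u, hu, w, hw, huw, rfl⟩ := h1.1 e he
      apply gp_of_packable (hs.2 u w huw)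
      intro y hy C hC
      apply hok y _ s hs.1 C hC
      rw [mem_insert, mem_singleton] at hy
      rcases hy with rfl | rfl
      · exact hu
      · exact hw
  · apply gp_sets Sr.card (by rw [h5]; omega) rfl
    · intro s hs s' hs'
      exact hdis s (mem_filter.1 hs).1 s' (mem_filter.1 hs').1
    · intro e he s hs
      rw [hSr, mem_filter] at hs
      obtain ⟨u, hu, w, hw, huw, rfl⟩ := h2.1 e he
      apply gp_of_packable (((htype s hs.1).resolve_left hs.2) u w huw)
      intro y hy C hC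
      apply hok y _ s hs.1 C hC
      rw [mem_insert, mem_singleton] at hy
      rcases hy with rfl | rfl
      · exact hu
      · exact hw
  · rw [disjoint_biUnion_left]
    intro s hs
    rw [disjoint_biUnion_right]
    intro s' hs'
    rw [hSb, mem_filter] at hs
    rw [hSr, mem_filter] at hs'
    apply hdis s hs.1 s' hs'.1
    rintro rfl
    exact hs'.2 hs.2

/-- choosing slots and avoiding few bad ones -/
theorem choose_slots {κ σ : Type} (J : Finset κ) : ∀ (S : Finset σ) (c : κ → ℕ)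
    (Bad : κ → Finset σ) (t : ℕ), (∀ j ∈ J, (Bad j).card ≤ t) → ∑ j ∈ J, c j + t ≤ S.card →
    ∃ τ : κ → Finset σ, (∀ j ∈ J, τ j ⊆ S ∧ (τ j).card = c j ∧ Disjoint (τ j) (Bad j)) ∧
      ∀ i ∈ J, ∀ j ∈ J, i ≠ j → Disjoint (τ i) (τ j) := by
  induction J using Finset.induction_on with
  | empty =>
    intro S c Bad t _ _
    exact ⟨fun _ => ∅, by simp, by simp⟩
  | insert i J hi ih =>
    intro S c Bad t hbad hsum
    rw [sum_insert hi] at hsum
    have h1 : c i ≤ (S \ Bad i).card := by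
      have h2 := le_card_sdiff (Bad i) S
      have h3 := hbad i (mem_insert_self _ _)
      omega
    obtain ⟨A, hA, hAc⟩ := exists_subset_card_eq h1
    have hAS : A ⊆ S := hA.trans sdiff_subset
    obtain ⟨τ, h2, h3⟩ := ih (S \ A) c Bad t (fun j hj => hbad j (mem_insert_of_mem hj)) (by
      rw [card_sdiff_of_subset hAS, hAc]
      omega)
    have hne : ∀ j ∈ J, j ≠ i := fun j hj h => hi (h ▸ hj)
    refine ⟨fun j => if j = i then A else τ j, ?_, ?_⟩
    · intro j hj
      by_cases h : j = i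
      · simp only [if_pos h]
        subst h
        refine ⟨hAS, hAc, ?_⟩
        rw [Finset.disjoint_left]
        intro x hx
        exact (mem_sdiff.1 (hA hx)).2
      · simp only [if_neg h]
        have hj' := (mem_insert.1 hj).resolve_left h
        obtain ⟨h4, h5, h6⟩ := h2 j hj'
        exact ⟨h4.trans sdiff_subset, h5, h6⟩
    · intro j hj k hk hjk
      by_cases h : j = i <;> by_cases h' : k = i
      · exact absurd (h.trans h'.symm) hjk
      · simp only [if_pos h, if_neg h']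
        rw [Finset.disjoint_right]
        intro x hx
        exact (mem_sdiff.1 ((h2 k ((mem_insert.1 hk).resolve_left h')).1 hx)).2
      · simp only [if_neg h, if_pos h']
        rw [Finset.disjoint_left]
        intro x hx
        exact (mem_sdiff.1 ((h2 j ((mem_insert.1 hj).resolve_left h)).1 hx)).2
      · simp only [if_neg h, if_neg h']
        exact h3 j ((mem_insert.1 hj).resolve_left h) k ((mem_insert.1 hk).resolve_left h') hjk

/-- from a packing with hosted vertices to a copy -/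
theorem contains_of_gp [Fintype V] {F : Finset (Finset (Fin n))} {K : Finset (Fin n)}
    (hFgreen : ∀ C ∈ F, ∀ D ∈ F, C ≠ D → ∀ x ∈ C, ∀ y ∈ D, Gr.Adj x y ∧ Gb.Adj x y)
    (hK : ∀ z ∈ K, ∀ z' ∈ K, z ≠ z' → Gb.Adj z z') (hKF : ∀ z ∈ K, ∀ C ∈ F, ∀ x ∈ C, Gb.Adj z x)
    {Hs : Finset V} {ζ : V → Fin n} (hζ : ∀ x ∈ Hs, ζ x ∈ K)
    (hζi : ∀ x ∈ Hs, ∀ y ∈ Hs, ζ x = ζ y → x = y) (hHs : ∀ x ∈ Hs, ∀ y ∈ Hs, ¬ H.Adj x y)
    (h : GP H Gr Gb (fun y D => ∀ x ∈ Hs, H.Adj x y → ∀ w ∈ D, Gr.Adj (ζ x) w) (univ \ Hs) F) :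
    Contains H Hᶜ Gr Gb := by
  obtain ⟨f, hf, hloc⟩ := h
  rcases isEmpty_or_nonempty V with hV | ⟨⟨v0⟩⟩
  · exact ⟨fun x => (hV.false x).elim, fun x => (hV.false x).elim, fun x => (hV.false x).elim⟩
  have hn : Nonempty (Fin n) := by
    by_cases h0 : v0 ∈ Hs
    · exact ⟨ζ v0⟩
    · have := (hf v0 (by simp [h0])).1
      obtain ⟨e, _⟩ := hloc _ this
      exact ⟨e v0⟩
  have : Nonempty (V → Fin n) := ⟨fun _ => Classical.choice hn⟩
  choose! e he1 he2 he3 using hloc
  have hfx : ∀ x, x ∉ Hs → f x ∈ F := fun x hx => (hf x (by simp [hx])).1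
  have hmem : ∀ x, x ∉ Hs → x ∈ (univ \ Hs).filter (fun y => f y = f x) := fun x hx => by simp [hx]
  have hin : ∀ x, x ∉ Hs → e (f x) x ∈ f x := fun x hx => he1 (f x) (hfx x hx) x (hmem x hx)
  have hφ1 : ∀ x ∈ Hs, (if x ∈ Hs then ζ x else e (f x) x) = ζ x := fun x hx => if_pos hx
  have hφ2 : ∀ x, x ∉ Hs → (if x ∈ Hs then ζ x else e (f x) x) = e (f x) x := fun x hx => if_neg hx
  have hcross : ∀ x ∈ Hs, ∀ y, y ∉ Hs → ζ x ≠ e (f y) y := by
    intro x hx y hy heq
    have h1 := hKF (ζ x) (hζ x hx) (f y) (hfx y hy) _ (hin y hy)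
    rw [heq] at h1
    exact Gb.irrefl h1
  have hcross2 : ∀ x ∈ Hs, ∀ y, y ∉ Hs → (H.Adj x y → Gr.Adj (ζ x) (e (f y) y)) ∧
      (Hᶜ.Adj x y → Gb.Adj (ζ x) (e (f y) y)) := by
    intro x hx y hy
    refine ⟨fun hxy => ?_, fun _ => hKF (ζ x) (hζ x hx) (f y) (hfx y hy) _ (hin y hy)⟩
    exact (hf y (by simp [hy])).2 x hx hxy _ (hin y hy)
  refine ⟨fun x => if x ∈ Hs then ζ x else e (f x) x, ?_, ?_⟩
  · intro x y hxy
    simp only at hxy
    by_cases hx : x ∈ Hs <;> by_cases hy : y ∈ Hs
    · rw [hφ1 x hx, hφ1 y hy] at hxy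
      exact hζi x hx y hy hxy
    · rw [hφ1 x hx, hφ2 y hy] at hxy
      exact absurd hxy (hcross x hx y hy)
    · rw [hφ2 x hx, hφ1 y hy] at hxy
      exact absurd hxy.symm (hcross y hy x hx)
    · rw [hφ2 x hx, hφ2 y hy] at hxy
      by_cases hC : f x = f y
      · apply he2 (f x) (hfx x hx) x (hmem x hx) y (by simp [hC, hy])
        rw [hxy, hC]
      · exfalso
        have h1 := hin x hx
        have h2 := hin y hy
        rw [hxy] at h1
        exact Gr.irrefl (hFgreen _ (hfx x hx) _ (hfx y hy) hC _ h1 _ h2).1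
  · intro x y
    show (H.Adj x y → Gr.Adj (if x ∈ Hs then ζ x else e (f x) x)
        (if y ∈ Hs then ζ y else e (f y) y)) ∧ (Hᶜ.Adj x y →
        Gb.Adj (if x ∈ Hs then ζ x else e (f x) x) (if y ∈ Hs then ζ y else e (f y) y))
    by_cases hx : x ∈ Hs <;> by_cases hy : y ∈ Hs
    · rw [hφ1 x hx, hφ1 y hy]
      refine ⟨fun hxy => absurd hxy (hHs x hx y hy), fun hxy => ?_⟩
      apply hK _ (hζ x hx) _ (hζ y hy)
      intro h1
      exact Hᶜ.ne_of_adj hxy (hζi x hx y hy h1)
    · rw [hφ1 x hx, hφ2 y hy]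
      exact hcross2 x hx y hy
    · rw [hφ2 x hx, hφ1 y hy]
      have := hcross2 y hy x hx
      exact ⟨fun h => (this.1 h.symm).symm, fun h => (this.2 h.symm).symm⟩
    · rw [hφ2 x hx, hφ2 y hy]
      by_cases hC : f x = f y
      · have h1 := he3 (f x) (hfx x hx) x (hmem x hx) y (by simp [hC, hy])
        simp only [hC] at h1 ⊢
        exact h1
      · have h3 := hFgreen _ (hfx x hx) _ (hfx y hy) hC _ (hin x hx) _ (hin y hy)
        exact ⟨fun _ => h3.1, fun _ => h3.2⟩

end JP

end Pool.Agent.Lib.MP_a05470_co
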