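import Pool.Agent.Lib.MP_a05470_co.Dominate

set_option autoImplicit false

namespace Pool.Agent.Lib.MP_a05470_co

open Finset Classical Filter Topology

/-- the complete `r`-partite graph with classes the residues modulo `r` -/
def parts (n r : ℕ) : SimpleGraph (Fin n) where
  Adj u v := (u : ℕ) % r ≠ (v : ℕ) % r
  symm := ⟨fun _ _ h => h.symm⟩
  loopless := ⟨fun _ h => h rfl⟩

theorem nonadj_parts_le (n r : ℕ) (v : Fin n) :
    nonadj (parts n r) v ≤ n / r + 1 := by
  unfold nonadj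
  have h1 : Finset.univ.filter (fun u => ¬ (parts n r).Adj v u) =
      Finset.univ.filter (fun u : Fin n => (u : ℕ) % r = (v : ℕ) % r) := by
    ext u
    simp only [parts, Finset.mem_filter, Finset.mem_univ, true_and, not_not, ne_eq]
    exact ⟨fun h => h.symm, fun h => h.symm⟩
  rw [h1]
  have h2 : (Finset.univ.filter (fun u : Fin n => (u : ℕ) % r = (v : ℕ) % r)).card ≤
      ((Finset.range (n / r + 1))).card := by
    apply Finset.card_le_card_of_injOn (fun u : Fin n => (u : ℕ) / r)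
    · intro u _
      rw [Finset.coe_range, Set.mem_Iio]
      exact Nat.lt_succ_of_le (Nat.div_le_div_right u.2.le)
    · intro u hu w hw huw
      simp only [Finset.coe_filter, Finset.mem_univ, true_and, Set.mem_ofPred_eq] at hu hw
      have h3 := Nat.div_add_mod (u : ℕ) r
      have h4 := Nat.div_add_mod (w : ℕ) r
      have h5 : (u : ℕ) / r = (w : ℕ) / r := huw
      apply Fin.ext
      rw [← h3, ← h4, h5, hu, hw]
  simpa using h2

theorem not_contains_parts {V : Type} [Fintype V] (H : SimpleGraph V) (n r : ℕ) (hr : 0 < r)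
    (hV : r < Fintype.card V) : ¬ Contains H Hᶜ (parts n r) (parts n r) := by
  rintro ⟨f, hf, hh⟩
  have h1 : ∃ x ∈ (Finset.univ : Finset V), ∃ y ∈ (Finset.univ : Finset V), x ≠ y ∧
      (f x : ℕ) % r = (f y : ℕ) % r := by
    apply Finset.exists_ne_map_eq_of_card_lt_of_maps_to (t := Finset.range r)
    · rw [Finset.card_range, Finset.card_univ]
      exact hV
    · intro x _
      rw [Finset.coe_range, Set.mem_Iio]
      exact Nat.mod_lt _ hr
  obtain ⟨x, _, y, _, hxy, h2⟩ := h1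
  by_cases h3 : H.Adj x y
  · exact (hh x y).1 h3 h2
  · exact (hh x y).2 (by rw [SimpleGraph.compl_adj]; exact ⟨hxy, h3⟩) h2

/-- `μ_p(H) ≥ 1 - 1/(|H|-1)` for every `p` -/
theorem mu_ge {V : Type} [Fintype V] (H : SimpleGraph V) {p μ : ℝ}
    (hV : 2 ≤ Fintype.card V)
    (hμ : Tendsto (fun n : ℕ => ex p H Hᶜ n / (n.choose 2 : ℝ)) atTop (𝓝 μ)) :
    1 - 1 / ((Fintype.card V : ℝ) - 1) ≤ μ := by
  set r := Fintype.card V - 1 with hr
  have hr0 : 0 < r := by omega
  have hrR : (r : ℝ) = (Fintype.card V : ℝ) - 1 := by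
    rw [hr, Nat.cast_sub (by omega)]
    simp
  rw [← hrR]
  have hrpos : (0 : ℝ) < r := by exact_mod_cast hr0
  have h1 : Tendsto (fun n : ℕ => (1 - 1 / (r : ℝ)) - 2 * (1 / (n : ℝ))) atTop
      (𝓝 ((1 - 1 / (r : ℝ)) - 2 * 0)) :=
    tendsto_const_nhds.sub (tendsto_one_div_atTop_nhds_zero_nat.const_mul 2)
  rw [mul_zero, sub_zero] at h1
  apply le_of_tendsto_of_tendsto h1 hμ
  filter_upwards [eventually_ge_atTop 2] with n hn
  have hn2 : (2 : ℝ) ≤ n := by exact_mod_cast hn
  have h2 : weight p (parts n r) (parts n r) ≤ ex p H Hᶜ n :=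
    weight_le_ex (not_contains_parts H n r hr0 (by omega))
  have h3 := two_weight p (parts n r) (parts n r)
  have h4 : ∑ v : Fin n, ((n : ℝ) - (n / r + 1)) ≤ 2 * weight p (parts n r) (parts n r) := by
    rw [h3]
    apply Finset.sum_le_sum
    intro v _
    have h5 : (nonadj (parts n r) v : ℝ) ≤ n / r + 1 := by
      have h6 := nonadj_parts_le n r v
      have h7 : ((n / r : ℕ) : ℝ) ≤ (n : ℝ) / r := Nat.cast_div_le
      have h8 : ((nonadj (parts n r) v : ℕ) : ℝ) ≤ ((n / r + 1 : ℕ) : ℝ) := by exact_mod_cast h6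
      push_cast at h8
      linarith
    have h9 : p * (nonadj (parts n r) v : ℝ) + (1 - p) * nonadj (parts n r) v =
        nonadj (parts n r) v := by ring
    rw [h9]
    linarith
  simp only [Finset.sum_const, Finset.card_univ, Fintype.card_fin, nsmul_eq_mul] at h4
  have hch : ((n.choose 2 : ℕ) : ℝ) = n * (n - 1) / 2 := by
    rw [Nat.cast_choose_two]
  have hpos : (0 : ℝ) < n * (n - 1) / 2 := by nlinarith
  rw [hch, le_div_iff₀ hpos]
  have hn0 : (n : ℝ) ≠ 0 := by positivity
  have h10 : (n : ℝ) * ((n : ℝ) - (n / r + 1)) = (1 - 1 / (r : ℝ)) * (n * n) - n := by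
    field_simp
    ring
  have h11 : ((1 - 1 / (r : ℝ)) - 2 * (1 / (n : ℝ))) * (n * (n - 1) / 2) =
      (1 - 1 / (r : ℝ)) * (n * (n - 1) / 2) - (n - 1) := by
    field_simp
  rw [h11]
  have h12 : 0 ≤ 1 - 1 / (r : ℝ) := by
    have : 1 / (r : ℝ) ≤ 1 := by
      rw [div_le_one hrpos]
      exact_mod_cast hr0
    linarith
  rw [h10] at h4
  nlinarith

end Pool.Agent.Lib.MP_a05470_co
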