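import Pool.Agent.Lib.MP_a05470_co.General2
import Pool.Agent.Lib.MP_a05470_co.HalfValue
import Pool.Agent.Lib.MP_a05470_co.Lower

/-!
# From chromatic numbers to `Forces`
-/

set_option autoImplicit false
set_option linter.unusedSectionVars false

namespace Pool.Agent.Lib.MP_a05470_co

open Finset Classical

variable {V : Type} [Fintype V] {H : SimpleGraph V}

theorem th_eq_chi : JT.th H univ = Hᶜ.chromaticNumber.toNat := by
  apply le_antisymm
  · exact JT.th_le_of_colorable ((colorable_iff_toNat _ _).2 le_rfl)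
  · exact (colorable_iff_toNat _ _).1 (JT.colorable_of_th_univ le_rfl)

/-- the exponent pair in the unbalanced case -/
theorem forces_ge {a b : ℕ} (hV : Fintype.card V = a + b + 1) (h1 : 1 ≤ b)
    (hth : JT.th H univ = b + 1) (hab : a ≤ b) :
    ∃ a' b' : ℕ, 0 < a' + b' ∧ 7 * (a' + b') ≤ 8 * (a + b) + 2 ∧ Forces (a' : ℝ) b' H Hᶜ := by
  rcases Nat.lt_or_ge (4 * a) (3 * b) with hlt | hge
  · refine ⟨a, b + max (a / 3) (a - b / 2), by omega, by omega, ?_⟩
    exact forces_main hV hth hab (by omega) (by omega)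
  · refine ⟨b, b, by omega, by omega, ?_⟩
    apply forces_odd h1 (by omega) _ (JT.colorable_of_th_univ hth.le)
    have h2 := JT.th_compl H univ
    rw [card_univ] at h2
    have h3 : Hᶜᶜ.Colorable (b + 1) := JT.colorable_of_th_univ (by omega)
    rwa [compl_compl] at h3

/-- all `H` -/
theorem forces_all (hV : 2 ≤ Fintype.card V) (h4 : Fintype.card V ≠ 4) :
    ∃ a' b' : ℕ, 0 < a' + b' ∧ 7 * (a' + b') + 6 ≤ 8 * Fintype.card V ∧
      Forces (a' : ℝ) b' H Hᶜ := by
  have hne : (univ : Finset V).Nonempty := by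
    rw [univ_nonempty_iff, ← Fintype.card_pos_iff]
    omega
  have hp1 := JT.th_pos (R := H) hne
  have hp2 := JT.th_pos (R := Hᶜ) hne
  have hl1 := JT.th_le_card (H := H) univ
  have hl2 := JT.th_le_card (H := Hᶜ) univ
  rw [card_univ] at hl1 hl2
  by_cases hb : Fintype.card V + 1 ≤ 2 * JT.th H univ
  · obtain ⟨a', b', h1, h2, h3⟩ := forces_ge (H := H) (a := Fintype.card V - JT.th H univ)
      (b := JT.th H univ - 1) (by omega) (by omega) (by omega) (by omega)
    exact ⟨a', b', h1, by omega, h3⟩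
  · by_cases hb' : Fintype.card V + 1 ≤ 2 * JT.th Hᶜ univ
    · obtain ⟨a', b', h1, h2, h3⟩ := forces_ge (H := Hᶜ) (a := Fintype.card V - JT.th Hᶜ univ)
        (b := JT.th Hᶜ univ - 1) (by omega) (by omega) (by omega) (by omega)
      have h5 := forces_swap h3
      rw [compl_compl] at h5
      exact ⟨b', a', by omega, by omega, h5⟩
    · have hc1 : Hᶜ.Colorable (Fintype.card V / 2 + 1) := JT.colorable_of_th_univ (by omega)
      have hc2 : Hᶜᶜ.Colorable (Fintype.card V / 2 + 1) := JT.colorable_of_th_univ (by omega)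
      rw [compl_compl] at hc2
      refine ⟨Fintype.card V / 2, Fintype.card V / 2, by omega, ?_,
        forces_odd (by omega) (by omega) hc2 hc1⟩
      have : Fintype.card V ≠ 2 := by
        intro h2
        rw [h2] at hb hb'
        -- one of the two graphs has an edge
        have h3 : JT.th H univ ≤ 1 := by omega
        have h4 : JT.th Hᶜ univ ≤ 1 := by omega
        have h5 : Hᶜ.Colorable 1 := JT.colorable_of_th_univ h3
        have h6 : Hᶜᶜ.Colorable 1 := JT.colorable_of_th_univ h4
        rw [compl_compl] at h6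
        obtain ⟨x, y, hxy⟩ := Fintype.one_lt_card_iff.1 (show 1 < Fintype.card V by omega)
        obtain ⟨C1⟩ := h5
        obtain ⟨C2⟩ := h6
        by_cases h : H.Adj x y
        · exact C2.valid h (Subsingleton.elim _ _)
        · exact C1.valid (show Hᶜ.Adj x y by rw [SimpleGraph.compl_adj]; exact ⟨hxy, h⟩)
            (Subsingleton.elim _ _)
      omega

theorem crit_of_chi
    (hcrit : ∀ v, (Hᶜ.comap (Subtype.val : {x // x ≠ v} → V)).chromaticNumber.toNat <
      Hᶜ.chromaticNumber.toNat) : JT.Crit H univ := by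
  intro x _
  have h1 := hcrit x
  rw [← compl_comap _ _ Subtype.val_injective, ← th_eq_chi, ← th_eq_chi, JT.th_comap,
    JT.map_univ_ne] at h1
  exact h1

/-- vertex-critical graphs -/
theorem forces_vcrit {a b : ℕ} (hV : Fintype.card V = a + b + 1) (hab : a ≤ b)
    (hchi : Hᶜ.chromaticNumber.toNat = b + 1)
    (hcrit : ∀ v, (Hᶜ.comap (Subtype.val : {x // x ≠ v} → V)).chromaticNumber.toNat <
      Hᶜ.chromaticNumber.toNat) : Forces (a : ℝ) b H Hᶜ := by
  apply JT.forces_crit _ V H a b rfl hV hab (crit_of_chi hcrit)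
  rw [th_eq_chi, hchi]

end Pool.Agent.Lib.MP_a05470_co
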