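import Pool.Agent.Lib.MP_a05470_co.Basic

/-!
# Pairs of blue cliques joined by red edges
-/

set_option autoImplicit false

namespace Pool.Agent.Lib.MP_a05470_co.Frontier

open Finset Classical

variable {W : Type}

/-- `L` and `K` are blue cliques, all pairs between them are red, and the pairs between them which
are not blue form a matching. -/
structure ZS (Gr Gb : SimpleGraph W) (L K : Finset W) : Prop where
  bl : ∀ x ∈ L, ∀ y ∈ L, x ≠ y → Gb.Adj x y
  bk : ∀ x ∈ K, ∀ y ∈ K, x ≠ y → Gb.Adj x y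
  rd : ∀ x ∈ L, ∀ y ∈ K, Gr.Adj x y
  mL : ∀ x ∈ L, ∀ y ∈ K, ∀ y' ∈ K, ¬ Gb.Adj x y → ¬ Gb.Adj x y' → y = y'
  mK : ∀ y ∈ K, ∀ x ∈ L, ∀ x' ∈ L, ¬ Gb.Adj x y → ¬ Gb.Adj x' y → x = x'

/-- the number of pairs between `L` and `K` which are not blue -/
noncomputable def M (Gb : SimpleGraph W) (L K : Finset W) : ℕ :=
  ((L ×ˢ K).filter (fun p => ¬ Gb.Adj p.1 p.2)).card

/-- partners of `v` in `K` that are not adjacent in `G` (`v` itself counts) -/
noncomputable def NA (G : SimpleGraph W) (K : Finset W) (v : W) : Finset W :=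
  K.filter (fun u => ¬ G.Adj v u)

variable {Gr Gb : SimpleGraph W} {L K L' K' : Finset W}

theorem mem_NA {G : SimpleGraph W} {K : Finset W} {v u : W} :
    u ∈ NA G K v ↔ u ∈ K ∧ ¬ G.Adj v u := by
  simp [NA]

theorem self_mem_NA {G : SimpleGraph W} {K : Finset W} {v : W} (h : v ∈ K) : v ∈ NA G K v :=
  mem_NA.2 ⟨h, G.irrefl⟩

theorem adj_of_NA_empty {G : SimpleGraph W} {K : Finset W} {v u : W} (h : NA G K v = ∅)
    (hu : u ∈ K) : G.Adj v u := by
  by_contra hc
  have : u ∈ NA G K v := mem_NA.2 ⟨hu, hc⟩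
  rw [h] at this
  simp at this

theorem ZS.symm (h : ZS Gr Gb L K) : ZS Gr Gb K L where
  bl := h.bk
  bk := h.bl
  rd := fun x hx y hy => (h.rd y hy x hx).symm
  mL := fun x hx y hy y' hy' h1 h2 =>
    h.mK x hx y hy y' hy' (fun e => h1 e.symm) (fun e => h2 e.symm)
  mK := fun y hy x hx x' hx' h1 h2 =>
    h.mL y hy x hx x' hx' (fun e => h1 e.symm) (fun e => h2 e.symm)

theorem ZS.mono (h : ZS Gr Gb L K) (hL : L' ⊆ L) (hK : K' ⊆ K) : ZS Gr Gb L' K' where
  bl := fun x hx y hy => h.bl x (hL hx) y (hL hy)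
  bk := fun x hx y hy => h.bk x (hK hx) y (hK hy)
  rd := fun x hx y hy => h.rd x (hL hx) y (hK hy)
  mL := fun x hx y hy y' hy' => h.mL x (hL hx) y (hK hy) y' (hK hy')
  mK := fun y hy x hx x' hx' => h.mK y (hK hy) x (hL hx) x' (hL hx')

theorem ZS.insertK (h : ZS Gr Gb L K) {v : W} (hb : ∀ x ∈ K, Gb.Adj v x)
    (hr : ∀ x ∈ L, Gr.Adj v x)
    (h1 : ∀ x ∈ L, ∀ x' ∈ L, ¬ Gb.Adj v x → ¬ Gb.Adj v x' → x = x')
    (h2 : ∀ x ∈ L, ¬ Gb.Adj v x → ∀ y ∈ K, Gb.Adj x y) : ZS Gr Gb L (insert v K) where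
  bl := h.bl
  bk := by
    intro x hx y hy hxy
    rcases Finset.mem_insert.1 hx with hx' | hx'
    · rcases Finset.mem_insert.1 hy with hy' | hy'
      · exact absurd (hx'.trans hy'.symm) hxy
      · rw [hx']
        exact hb y hy'
    · rcases Finset.mem_insert.1 hy with hy' | hy'
      · rw [hy']
        exact (hb x hx').symm
      · exact h.bk x hx' y hy' hxy
  rd := by
    intro x hx y hy
    rcases Finset.mem_insert.1 hy with hz | hz
    · rw [hz]
      exact (hr x hx).symm
    · exact h.rd x hx y hz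
  mL := by
    intro x hx y hy y' hy' h3 h4
    rcases Finset.mem_insert.1 hy with hz | hz
    · rcases Finset.mem_insert.1 hy' with hz' | hz'
      · rw [hz, hz']
      · rw [hz] at h3
        exact absurd (h2 x hx (fun e => h3 e.symm) y' hz') h4
    · rcases Finset.mem_insert.1 hy' with hz' | hz'
      · rw [hz'] at h4
        exact absurd (h2 x hx (fun e => h4 e.symm) y hz) h3
      · exact h.mL x hx y hz y' hz' h3 h4
  mK := by
    intro y hy x hx x' hx' h3 h4
    rcases Finset.mem_insert.1 hy with hz | hz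
    · rw [hz] at h3 h4
      exact h1 x hx x' hx' (fun e => h3 e.symm) (fun e => h4 e.symm)
    · exact h.mK y hz x hx x' hx' h3 h4

theorem ZS.insertL (h : ZS Gr Gb L K) {v : W} (hb : ∀ x ∈ L, Gb.Adj v x)
    (hr : ∀ x ∈ K, Gr.Adj v x)
    (h1 : ∀ x ∈ K, ∀ x' ∈ K, ¬ Gb.Adj v x → ¬ Gb.Adj v x' → x = x')
    (h2 : ∀ x ∈ K, ¬ Gb.Adj v x → ∀ y ∈ L, Gb.Adj x y) : ZS Gr Gb (insert v L) K :=
  (h.symm.insertK hb hr h1 h2).symm

/-- the minimality of the number of pairs which are not blue -/
def MinM (Gr Gb : SimpleGraph W) (L K : Finset W) : Prop :=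
  ∀ L' K', ZS Gr Gb L' K' → L'.card = L.card → K'.card = K.card → M Gb L K ≤ M Gb L' K'

/-- replacing a matched vertex of `L` by a vertex which is green to `K` -/
theorem M_swapL {y z v : W} (hy : y ∈ L) (hz : z ∈ K) (hyz : ¬ Gb.Adj y z)
    (hv : ∀ u ∈ K, Gb.Adj v u) : M Gb (insert v (L.erase y)) K < M Gb L K := by
  unfold M
  by_cases hvy : v = y
  · subst hvy
    exact absurd (hv z hz) hyz
  apply Finset.card_lt_card
  rw [Finset.ssubset_iff_subset_ne]
  constructor
  · intro p hp
    rw [Finset.mem_filter, Finset.mem_product] at hp ⊢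
    obtain ⟨⟨h1, h2⟩, h3⟩ := hp
    rcases Finset.mem_insert.1 h1 with h1 | h1
    · rw [h1] at h3
      exact absurd (hv _ h2) h3
    · exact ⟨⟨Finset.mem_of_mem_erase h1, h2⟩, h3⟩
  · intro he
    have h1 : (y, z) ∈ (L ×ˢ K).filter (fun p => ¬ Gb.Adj p.1 p.2) := by
      rw [Finset.mem_filter, Finset.mem_product]
      exact ⟨⟨hy, hz⟩, hyz⟩
    rw [← he, Finset.mem_filter, Finset.mem_product] at h1
    have h2 := h1.1.1
    simp only at h2
    rcases Finset.mem_insert.1 h2 with h2 | h2
    · exact hvy h2.symm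
    · exact (Finset.notMem_erase y L) h2

/-- replacing a matched vertex of `K` by a vertex which is green to `L` -/
theorem M_swapK {y z v : W} (hy : y ∈ K) (hz : z ∈ L) (hyz : ¬ Gb.Adj z y)
    (hv : ∀ u ∈ L, Gb.Adj v u) : M Gb L (insert v (K.erase y)) < M Gb L K := by
  unfold M
  by_cases hvy : v = y
  · subst hvy
    exact absurd (hv z hz).symm hyz
  apply Finset.card_lt_card
  rw [Finset.ssubset_iff_subset_ne]
  constructor
  · intro p hp
    rw [Finset.mem_filter, Finset.mem_product] at hp ⊢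
    obtain ⟨⟨h1, h2⟩, h3⟩ := hp
    rcases Finset.mem_insert.1 h2 with h2 | h2
    · rw [h2] at h3
      exact absurd (hv _ h1).symm h3
    · exact ⟨⟨h1, Finset.mem_of_mem_erase h2⟩, h3⟩
  · intro he
    have h1 : (z, y) ∈ (L ×ˢ K).filter (fun p => ¬ Gb.Adj p.1 p.2) := by
      rw [Finset.mem_filter, Finset.mem_product]
      exact ⟨⟨hz, hy⟩, hyz⟩
    rw [← he, Finset.mem_filter, Finset.mem_product] at h1
    have h2 := h1.1.2
    simp only at h2
    rcases Finset.mem_insert.1 h2 with h2 | h2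
    · exact hvy h2.symm
    · exact (Finset.notMem_erase y K) h2

theorem card_swap {y v : W} (hy : y ∈ K) (hv : v ∉ K) :
    (insert v (K.erase y)).card = K.card := by
  rw [Finset.card_insert_of_notMem (fun h => hv (Finset.mem_of_mem_erase h)),
    Finset.card_erase_of_mem hy]
  have : 0 < K.card := Finset.card_pos.2 ⟨y, hy⟩
  omega

/-- (S1): a vertex which is blue to `K` -/
theorem s1 (h : ZS Gr Gb L K)
    (hmax : ∀ L' K', ZS Gr Gb L' K' → L'.card = L.card → K'.card ≤ K.card)
    (hM : MinM Gr Gb L K) (v : W) (hBK : NA Gb K v = ∅) :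
    (NA Gr L v).Nonempty ∨ 2 ≤ (NA Gb L v).card ∨
      ((NA Gb L v).card = 1 ∧ (NA Gr K v).Nonempty) := by
  by_contra hcon
  push Not at hcon
  obtain ⟨hNL, hBL, hNK⟩ := hcon
  have hbK : ∀ x ∈ K, Gb.Adj v x := fun x hx => adj_of_NA_empty hBK hx
  have hrL : ∀ x ∈ L, Gr.Adj v x := fun x hx => adj_of_NA_empty hNL hx
  have hvK : v ∉ K := fun hv => Gb.irrefl (hbK v hv)
  have hvL : v ∉ L := fun hv => Gr.irrefl (hrL v hv)
  have huniq : ∀ x ∈ L, ∀ x' ∈ L, ¬ Gb.Adj v x → ¬ Gb.Adj v x' → x = x' := by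
    intro x hx x' hx' h1 h2
    have h3 : (NA Gb L v).card ≤ 1 := by omega
    exact Finset.card_le_one.1 h3 x (mem_NA.2 ⟨hx, h1⟩) x' (mem_NA.2 ⟨hx', h2⟩)
  by_cases hun : ∀ x ∈ L, ¬ Gb.Adj v x → ∀ y ∈ K, Gb.Adj x y
  · have h1 := hmax _ _ (h.insertK hbK hrL huniq hun) rfl
    rw [Finset.card_insert_of_notMem hvK] at h1
    omega
  · push Not at hun
    obtain ⟨y, hy, hvy, z, hz, hyz⟩ := hun
    have hy' : y ∈ NA Gb L v := mem_NA.2 ⟨hy, hvy⟩
    have hc1 : (NA Gb L v).card = 1 := by
      have : 0 < (NA Gb L v).card := Finset.card_pos.2 ⟨y, hy'⟩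
      omega
    have hNK' := hNK hc1
    have hrK : ∀ x ∈ K, Gr.Adj v x := fun x hx => adj_of_NA_empty hNK' hx
    have hbL : ∀ x ∈ L.erase y, Gb.Adj v x := by
      intro x hx
      by_contra hc
      exact (Finset.ne_of_mem_erase hx) (huniq x (Finset.mem_of_mem_erase hx) y hy hc hvy)
    have hZ : ZS Gr Gb (insert v (L.erase y)) K :=
      (h.mono (Finset.erase_subset _ _) (Finset.Subset.refl K)).insertL hbL hrK
        (fun x hx _ _ h1 _ => absurd (hbK x hx) h1) (fun x hx h1 => absurd (hbK x hx) h1)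
    have h1 := hM _ _ hZ (card_swap hy hvL) rfl
    have h2 := M_swapL (v := v) hy hz hyz hbK
    omega

theorem card_green (G1 G2 : SimpleGraph W) (K : Finset W) (v : W) :
    (K.filter (fun u => G1.Adj v u ∧ G2.Adj v u)).card + (NA G1 K v ∪ NA G2 K v).card = K.card := by
  have h1 : NA G1 K v ∪ NA G2 K v = K.filter (fun u => ¬ (G1.Adj v u ∧ G2.Adj v u)) := by
    ext u
    simp only [Finset.mem_union, mem_NA, Finset.mem_filter]
    tauto
  rw [h1]
  exact Finset.card_filter_add_card_filter_not _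

/-- (S2): a vertex which is blue to `L` -/
theorem s2 (h : ZS Gr Gb L K) (hM : MinM Gr Gb L K) (k : ℕ)
    (hk : ∀ L' K', ZS Gr Gb L' K' → L'.card = L.card + 1 → K'.card + k ≤ K.card)
    (v : W) (hBL : NA Gb L v = ∅) :
    ((NA Gb K v).card = 0 → k ≤ (NA Gr K v).card) ∧
    ((NA Gb K v).card = 1 → k ≤ (NA Gr K v).card ∨
      (k ≤ (NA Gr K v).card + 1 ∧ (NA Gr L v).Nonempty)) ∧
    (k ≤ (NA Gr K v).card + (NA Gb K v).card) := by
  have hbL : ∀ x ∈ L, Gb.Adj v x := fun x hx => adj_of_NA_empty hBL hx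
  have hvL : v ∉ L := fun hv => Gb.irrefl (hbL v hv)
  have hun : k ≤ (NA Gr K v ∪ NA Gb K v).card := by
    have hZ : ZS Gr Gb (insert v L) (K.filter (fun u => Gr.Adj v u ∧ Gb.Adj v u)) := by
      apply (h.mono (Finset.Subset.refl L) (Finset.filter_subset _ K)).insertL hbL
      · intro x hx
        exact (Finset.mem_filter.1 hx).2.1
      · intro x hx _ _ h1 _
        exact absurd (Finset.mem_filter.1 hx).2.2 h1
      · intro x hx h1
        exact absurd (Finset.mem_filter.1 hx).2.2 h1
    have h1 := hk _ _ hZ (Finset.card_insert_of_notMem hvL)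
    have h2 := card_green Gr Gb K v
    omega
  have hle := Finset.card_union_le (NA Gr K v) (NA Gb K v)
  refine ⟨fun h0 => ?_, fun h1 => ?_, le_trans hun hle⟩
  · rw [Finset.card_eq_zero] at h0
    rw [h0, Finset.union_empty] at hun
    exact hun
  · obtain ⟨x, hx⟩ := Finset.card_eq_one.1 h1
    have hxm : x ∈ NA Gb K v := by rw [hx]; simp
    have hxK := (mem_NA.1 hxm).1
    have hxb := (mem_NA.1 hxm).2
    have hother : ∀ u ∈ K, u ≠ x → Gb.Adj v u := by
      intro u hu hux
      by_contra hc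
      have : u ∈ NA Gb K v := mem_NA.2 ⟨hu, hc⟩
      rw [hx, Finset.mem_singleton] at this
      exact hux this
    by_cases hxN : x ∈ NA Gr K v
    · left
      have h3 : NA Gr K v ∪ NA Gb K v = NA Gr K v := by
        rw [hx]
        exact Finset.union_eq_left.2 (by simpa using hxN)
      rw [h3] at hun
      exact hun
    · have hxr : Gr.Adj v x := by
        by_contra hc
        exact hxN (mem_NA.2 ⟨hxK, hc⟩)
      by_cases hmat : ∀ z ∈ L, Gb.Adj x z
      · left
        have hZ : ZS Gr Gb (insert v L) (K.filter (fun u => Gr.Adj v u)) := by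
          apply (h.mono (Finset.Subset.refl L) (Finset.filter_subset _ K)).insertL hbL
          · intro u hu
            exact (Finset.mem_filter.1 hu).2
          · intro u hu u' hu' h3 h4
            have e1 : u = x := by
              by_contra hc
              exact h3 (hother u (Finset.mem_filter.1 hu).1 hc)
            have e2 : u' = x := by
              by_contra hc
              exact h4 (hother u' (Finset.mem_filter.1 hu').1 hc)
            rw [e1, e2]
          · intro u hu h3 z hz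
            have e1 : u = x := by
              by_contra hc
              exact h3 (hother u (Finset.mem_filter.1 hu).1 hc)
            rw [e1]
            exact hmat z hz
        have h3 := hk _ _ hZ (Finset.card_insert_of_notMem hvL)
        have h4 : (K.filter (fun u => Gr.Adj v u)).card + (NA Gr K v).card = K.card :=
          Finset.card_filter_add_card_filter_not _
        omega
      · right
        push Not at hmat
        obtain ⟨z, hz, hxz⟩ := hmat
        refine ⟨by omega, ?_⟩
        by_contra hNL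
        rw [Finset.not_nonempty_iff_eq_empty] at hNL
        have hrL : ∀ u ∈ L, Gr.Adj v u := fun u hu => adj_of_NA_empty hNL hu
        have hvK : v ∉ K := by
          intro hv
          have h3 : v ∈ NA Gb K v := self_mem_NA hv
          rw [hx, Finset.mem_singleton] at h3
          rw [h3] at hxr
          exact Gr.irrefl hxr
        have hZ : ZS Gr Gb L (insert v (K.erase x)) :=
          (h.mono (Finset.Subset.refl L) (Finset.erase_subset _ _)).insertK
            (fun u hu => hother u (Finset.mem_of_mem_erase hu) (Finset.ne_of_mem_erase hu)) hrL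
            (fun u hu _ _ h1 _ => absurd (hbL u hu) h1) (fun u hu h1 => absurd (hbL u hu) h1)
        have h3 := hM _ _ hZ rfl (card_swap hxK hvK)
        have h4 := M_swapK (v := v) hxK hz (fun e => hxz e.symm) hbL
        omega

end Pool.Agent.Lib.MP_a05470_co.Frontier
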