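import Pool.Agent.Lib.MP_a05470_co.FrontierMain

/-!
# Graphs with equal parts are contained in two blue cliques joined by red edges
-/

set_option autoImplicit false

namespace Pool.Agent.Lib.MP_a05470_co.Frontier

open Finset Classical

/-- a bijection between the two sides which preserves the components -/
theorem exists_tau {V : Type} [Fintype V] (κ : V → V) (σ : V → Bool)
    (hbal : ∀ i, (Finset.univ.filter (fun x => κ x = i ∧ σ x = true)).card =
      (Finset.univ.filter (fun x => κ x = i ∧ σ x = false)).card) :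
    ∃ τ : {x : V // σ x = true} ≃ {x : V // σ x = false}, ∀ a, κ (τ a) = κ a := by
  have hfib : ∀ i : V, Nonempty ({a : {x : V // σ x = true} // κ a = i} ≃
      {a : {x : V // σ x = false} // κ a = i}) := by
    intro i
    refine ⟨Fintype.equivOfCardEq ?_⟩
    have h1 : Fintype.card {a : {x : V // σ x = true} // κ a = i} =
        (Finset.univ.filter (fun x => κ x = i ∧ σ x = true)).card := by
      rw [← Fintype.card_subtype]
      refine Fintype.card_congr ⟨fun a => ⟨a.1.1, a.2, a.1.2⟩, fun a => ⟨⟨a.1, a.2.2⟩, a.2.1⟩,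
        fun a => rfl, fun a => rfl⟩
    have h2 : Fintype.card {a : {x : V // σ x = false} // κ a = i} =
        (Finset.univ.filter (fun x => κ x = i ∧ σ x = false)).card := by
      rw [← Fintype.card_subtype]
      refine Fintype.card_congr ⟨fun a => ⟨a.1.1, a.2, a.1.2⟩, fun a => ⟨⟨a.1, a.2.2⟩, a.2.1⟩,
        fun a => rfl, fun a => rfl⟩
    rw [h1, h2, hbal i]
  refine ⟨((Equiv.sigmaFiberEquiv (fun a : {x : V // σ x = true} => κ a)).symm.trans
    (Equiv.sigmaCongrRight (fun i => (hfib i).some))).trans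
    (Equiv.sigmaFiberEquiv (fun a : {x : V // σ x = false} => κ a)), ?_⟩
  intro a
  simp only [Equiv.trans_apply, Equiv.sigmaCongrRight_apply, Equiv.sigmaFiberEquiv,
    Equiv.coe_fn_symm_mk, Equiv.coe_fn_mk]
  exact ((hfib (κ a)).some ⟨a, rfl⟩).2

/-- a bijection between the two cliques which contains all the pairs that are not blue -/
theorem exists_pi {n : ℕ} {Gr Gb : SimpleGraph (Fin n)} {L K : Finset (Fin n)}
    (h : ZS Gr Gb L K) (hc : L.card = K.card) :
    ∃ π : {x // x ∈ L} ≃ {x // x ∈ K}, ∀ x y, ¬ Gb.Adj x.1 y.1 → y = π x := by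
  let pL : {x // x ∈ L} → Prop := fun x => ∃ y : {x // x ∈ K}, ¬ Gb.Adj x.1 y.1
  let pK : {x // x ∈ K} → Prop := fun y => ∃ x : {x // x ∈ L}, ¬ Gb.Adj x.1 y.1
  have hf : ∃ f : {x // pL x} ≃ {y // pK y}, ∀ x, ¬ Gb.Adj x.1.1 (f x).1.1 := by
    let f : {x // pL x} → {y // pK y} := fun x => ⟨x.2.choose, ⟨x.1, x.2.choose_spec⟩⟩
    have hinj : Function.Injective f := by
      intro x x' hxx
      have h1 : ¬ Gb.Adj x.1.1 (f x).1.1 := x.2.choose_spec
      have h2 : ¬ Gb.Adj x'.1.1 (f x').1.1 := x'.2.choose_spec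
      rw [← hxx] at h2
      have h3 := h.mK (f x).1.1 (f x).1.2 x.1.1 x.1.2 x'.1.1 x'.1.2 h1 h2
      exact Subtype.ext (Subtype.ext h3)
    have hsurj : Function.Surjective f := by
      intro y
      obtain ⟨x, hx⟩ := y.2
      refine ⟨⟨x, y.1, hx⟩, ?_⟩
      have h1 : ¬ Gb.Adj x.1 (f ⟨x, y.1, hx⟩).1.1 :=
        (show pL x from ⟨y.1, hx⟩).choose_spec
      have h3 := h.mL x.1 x.2 (f ⟨x, y.1, hx⟩).1.1 (f ⟨x, y.1, hx⟩).1.2 y.1.1 y.1.2 h1 hx
      exact Subtype.ext (Subtype.ext h3)
    exact ⟨Equiv.ofBijective f ⟨hinj, hsurj⟩, fun x => x.2.choose_spec⟩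
  obtain ⟨f, hf⟩ := hf
  have hg : Nonempty ({x // ¬ pL x} ≃ {y // ¬ pK y}) := by
    refine ⟨Fintype.equivOfCardEq ?_⟩
    have h1 := Fintype.card_congr (Equiv.sumCompl pL)
    have h2 := Fintype.card_congr (Equiv.sumCompl pK)
    have h3 := Fintype.card_congr f
    rw [Fintype.card_sum, Fintype.card_coe] at h1 h2
    omega
  obtain ⟨g⟩ := hg
  refine ⟨(Equiv.sumCompl pL).symm.trans ((Equiv.sumCongr f g).trans (Equiv.sumCompl pK)), ?_⟩
  intro x y hxy
  have hx : pL x := ⟨y, hxy⟩
  have h1 : (Equiv.sumCompl pL).symm x = Sum.inl ⟨x, hx⟩ := by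
    rw [Equiv.symm_apply_eq]
    rfl
  rw [Equiv.trans_apply, Equiv.trans_apply, h1]
  have h2 : (Equiv.sumCompl pK) ((Equiv.sumCongr f g) (Sum.inl ⟨x, hx⟩)) = (f ⟨x, hx⟩).1 := rfl
  rw [h2]
  exact Subtype.ext (h.mL x.1 x.2 y.1 y.2 _ (f ⟨x, hx⟩).1.2 hxy (hf ⟨x, hx⟩))

/-- the embedding -/
theorem contains_of_Z {n : ℕ} {Gr Gb : SimpleGraph (Fin n)} {L K : Finset (Fin n)} {t : ℕ}
    (h : ZS Gr Gb L K) (hL : L.card = t) (hK : K.card = t)
    {V : Type} [Fintype V] (H : SimpleGraph V) (hV : Fintype.card V = 2 * t)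
    (κ : V → V) (σ : V → Bool) (hH : ∀ x y, H.Adj x y ↔ κ x = κ y ∧ σ x ≠ σ y)
    (hbal : ∀ i, (Finset.univ.filter (fun x => κ x = i ∧ σ x = true)).card =
      (Finset.univ.filter (fun x => κ x = i ∧ σ x = false)).card) :
    Contains H Hᶜ Gr Gb := by
  obtain ⟨τ, hτ⟩ := exists_tau κ σ hbal
  obtain ⟨π, hπ⟩ := exists_pi h (hL.trans hK.symm)
  have hcard : Fintype.card {x : V // σ x = true} = t := by
    have h1 := Fintype.card_congr τ
    have h2 : Fintype.card {x : V // σ x = true} + Fintype.card {x : V // σ x = false} =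
        Fintype.card V := by
      have h3 := Fintype.card_congr (Equiv.sumCompl (fun x : V => σ x = true))
      rw [Fintype.card_sum] at h3
      have h4 : Fintype.card {x : V // ¬ σ x = true} = Fintype.card {x : V // σ x = false} :=
        Fintype.card_congr (Equiv.subtypeEquivRight (fun x => by simp))
      omega
    omega
  have e : {x : V // σ x = true} ≃ {x // x ∈ L} := Fintype.equivOfCardEq (by
    rw [hcard, Fintype.card_coe, hL])
  have hσf : ∀ x : V, ¬ σ x = true → σ x = false := fun x hx => by simpa using hx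
  let φ : V → Fin n := fun x => if hx : σ x = true then (e ⟨x, hx⟩).1 else
    (π (e (τ.symm ⟨x, hσf x hx⟩))).1
  have hφt : ∀ (x : V) (hx : σ x = true), φ x = (e ⟨x, hx⟩).1 := fun x hx => by
    simp only [φ, dif_pos hx]
  have hφf : ∀ (x : V) (hx : ¬ σ x = true), φ x = (π (e (τ.symm ⟨x, hσf x hx⟩))).1 :=
    fun x hx => by simp only [φ, dif_neg hx]
  -- same side
  have hsame : ∀ x y, x ≠ y → σ x = σ y → φ x ≠ φ y ∧ Gb.Adj (φ x) (φ y) := by
    intro x y hxy hs
    by_cases hx : σ x = true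
    · have hy : σ y = true := hs ▸ hx
      have hne : φ x ≠ φ y := by
        rw [hφt x hx, hφt y hy]
        intro h1
        have h2 := e.injective (Subtype.ext h1)
        exact hxy (congrArg Subtype.val h2)
      refine ⟨hne, ?_⟩
      have h3 : φ x ∈ L := by rw [hφt x hx]; exact (e ⟨x, hx⟩).2
      have h4 : φ y ∈ L := by rw [hφt y hy]; exact (e ⟨y, hy⟩).2
      exact h.bl _ h3 _ h4 hne
    · have hy : ¬ σ y = true := hs ▸ hx
      have hne : φ x ≠ φ y := by
        rw [hφf x hx, hφf y hy]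
        intro h1
        have h2 := τ.symm.injective (e.injective (π.injective (Subtype.ext h1)))
        exact hxy (congrArg Subtype.val h2)
      refine ⟨hne, ?_⟩
      have h3 : φ x ∈ K := by
        rw [hφf x hx]
        exact (π (e (τ.symm ⟨x, hσf x hx⟩))).2
      have h4 : φ y ∈ K := by
        rw [hφf y hy]
        exact (π (e (τ.symm ⟨y, hσf y hy⟩))).2
      exact h.bk _ h3 _ h4 hne
  -- different sides
  have hdiff : ∀ x y, σ x = true → ¬ σ y = true → Gr.Adj (φ x) (φ y) ∧
      (κ x ≠ κ y → Gb.Adj (φ x) (φ y)) := by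
    intro x y hx hy
    have h3 : φ x ∈ L := by rw [hφt x hx]; exact (e ⟨x, hx⟩).2
    have h4 : φ y ∈ K := by
      rw [hφf y hy]
      exact (π (e (τ.symm ⟨y, hσf y hy⟩))).2
    refine ⟨h.rd _ h3 _ h4, ?_⟩
    intro hκ
    by_contra hc
    rw [hφt x hx, hφf y hy] at hc
    have h5 := hπ _ _ hc
    have h6 := e.injective (π.injective h5)
    apply hκ
    have h7 := hτ (τ.symm ⟨y, hσf y hy⟩)
    rw [Equiv.apply_symm_apply] at h7
    rw [h6] at h7
    exact h7.symm
  refine ⟨φ, ?_, ?_⟩
  · intro x y hxy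
    by_contra hne
    by_cases hs : σ x = σ y
    · exact (hsame x y hne hs).1 hxy
    · by_cases hx : σ x = true
      · have hy : ¬ σ y = true := fun hy => hs (hx.trans hy.symm)
        have h1 := (hdiff x y hx hy).1
        rw [hxy] at h1
        exact Gr.irrefl h1
      · have hy : σ y = true := by
          by_contra hy
          exact hs ((hσf x hx).trans (hσf y hy).symm)
        have h1 := (hdiff y x hy hx).1
        rw [hxy] at h1
        exact Gr.irrefl h1
  · intro x y
    constructor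
    · intro hxy
      have h1 := (hH x y).1 hxy
      by_cases hx : σ x = true
      · have hy : ¬ σ y = true := fun hy => h1.2 (hx.trans hy.symm)
        exact (hdiff x y hx hy).1
      · have hy : σ y = true := by
          by_contra hy
          exact h1.2 ((hσf x hx).trans (hσf y hy).symm)
        exact (hdiff y x hy hx).1.symm
    · intro hxy
      rw [SimpleGraph.compl_adj] at hxy
      by_cases hs : σ x = σ y
      · exact (hsame x y hxy.1 hs).2
      · have hκ : κ x ≠ κ y := fun hκ => hxy.2 ((hH x y).2 ⟨hκ, hs⟩)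
        by_cases hx : σ x = true
        · have hy : ¬ σ y = true := fun hy => hs (hx.trans hy.symm)
          exact (hdiff x y hx hy).2 hκ
        · have hy : σ y = true := by
            by_contra hy
            exact hs ((hσf x hx).trans (hσf y hy).symm)
          exact ((hdiff y x hy hx).2 (fun e => hκ e.symm)).symm

/-- admissible parameters for `t ≥ 8` -/
theorem exists_params {t : ℕ} (ht : 8 ≤ t) : ∃ a b : ℝ, Params a b t := by
  have htR : (8 : ℝ) ≤ t := by exact_mod_cast ht
  rcases Nat.eq_or_lt_of_le ht with h8 | h9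
  · refine ⟨111 / 20, 189 / 20, ?_⟩
    have : (t : ℝ) = 8 := by exact_mod_cast h8.symm
    refine ⟨?_, ?_, ?_, ?_, ?_, ?_⟩ <;> (try rw [this]) <;> norm_num
  · have h9R : (9 : ℝ) ≤ t := by exact_mod_cast h9
    refine ⟨(2 * t + 1) / 3, 4 * (t - 1) / 3, ?_⟩
    refine ⟨?_, ?_, ?_, ?_, ?_, ?_⟩
    · ring
    · linarith
    · linarith
    · nlinarith
    · nlinarith
    · nlinarith

/-- every graph of order `2t ≥ 16` all of whose components are complete bipartite with equal parts
is forced -/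
theorem forces_equalParts {V : Type} [Fintype V] (H : SimpleGraph V) {t : ℕ} (ht : 8 ≤ t)
    (hV : Fintype.card V = 2 * t)
    (κ : V → V) (σ : V → Bool) (hH : ∀ x y, H.Adj x y ↔ κ x = κ y ∧ σ x ≠ σ y)
    (hbal : ∀ i, (Finset.univ.filter (fun x => κ x = i ∧ σ x = true)).card =
      (Finset.univ.filter (fun x => κ x = i ∧ σ x = false)).card) :
    ∃ a b : ℝ, 0 ≤ a ∧ 0 ≤ b ∧ a + b = (Fintype.card V : ℝ) - 1 ∧ Forces a b H Hᶜ := by
  obtain ⟨a, b, hp⟩ := exists_params ht
  have htb := hp.tb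
  have htR : (8 : ℝ) ≤ t := by exact_mod_cast ht
  refine ⟨a, b, hp.apos.le, by linarith, ?_, ?_⟩
  · rw [hp.sum, hV]
    push_cast
    ring
  · intro ε hε
    refine ⟨1, fun n hn Gr Gb hdeg => ?_⟩
    obtain ⟨L, K, hZ, hL, hK⟩ := exists_Z hp hε (by omega) hdeg
    exact contains_of_Z hZ hL hK H hV κ σ hH hbal

end Pool.Agent.Lib.MP_a05470_co.Frontier
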