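import Pool.Agent.Lib.MP_a05470_co.FrontierQ

/-!
# Two blue `t`-cliques joined by red edges for `t = 6, 7`
-/

set_option autoImplicit false

namespace Pool.Agent.Lib.MP_a05470_co.Frontier

open Finset Classical

variable {n : ℕ} {Gr Gb : SimpleGraph (Fin n)} {a b ε : ℝ} {t : ℕ}

/-- a state which is excluded by uniform weights -/
theorem stateA (hε : 0 < ε) (hn : 0 < n)
    (hdeg : ∀ v, a * nonadj Gr v + b * nonadj Gb v ≤ (1 - ε) * n)
    (hsum : a + b = 2 * t - 1) (hapos : 0 < a) (hab : a ≤ b) {l m g : ℕ} (hlb : (l : ℝ) < b)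
    (hg : l + m = 2 * t + g) {w : ℝ} (hwd : w * (b - l) = g + 1)
    (hE1 : b * w ≤ a * (g + 1)) (hE2 : b * w ≤ b - a + a * g)
    (hE3 : (b - a) * w ≤ a * (g + 2) - b)
    {L K : Finset (Fin n)} (hZ : ZS Gr Gb L K) (hLc : L.card = l) (hKc : K.card = m)
    (hMin : MinM Gr Gb L K) (hKpos : 0 < m)
    (hmax1 : ∀ L' K', ZS Gr Gb L' K' → L'.card = L.card → K'.card ≤ K.card)
    (hk : ∀ L' K', ZS Gr Gb L' K' → L'.card = L.card + 1 → K'.card + (g + 2) ≤ K.card) :
    False := by
  have hbpos : 0 < b := by linarith
  have hl0 : (0 : ℝ) ≤ l := by positivity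
  have hg0 : (0 : ℝ) ≤ g := by positivity
  have hgR : (l : ℝ) + m = 2 * t + g := by exact_mod_cast hg
  have hdpos : 0 < b - l := by linarith
  have hw0 : 0 ≤ w := by
    by_contra hc
    push Not at hc
    nlinarith
  have hbw : b * w = g + 1 + w * l := by nlinarith
  have hB : (m : ℝ) + (1 + w) * l = a + b + b * w := by
    rw [hbw]
    nlinarith
  refine no_cert hε hn hdeg (show (0 : ℝ) ≤ 1 + w by linarith) L K ?_ ?_
  · rw [hKc]
    omega
  · intro v
    rw [hKc, hLc, hB]
    have e1 : (0 : ℝ) ≤ (NA Gr K v).card := by positivity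
    have e2 : (0 : ℝ) ≤ (NA Gr L v).card := by positivity
    have e3 : (0 : ℝ) ≤ (NA Gb L v).card := by positivity
    have e4 : (0 : ℝ) ≤ (NA Gb K v).card := by positivity
    have haw : 0 ≤ a * w := by positivity
    have hbw0 : 0 ≤ b * w := by positivity
    by_cases hBL : NA Gb L v = ∅
    · obtain ⟨h0, h1, h2⟩ := s2 hZ hMin (g + 2) hk v hBL
      have hLz : ((NA Gb L v).card : ℝ) = 0 := by rw [hBL]; simp
      rw [hLz]
      by_cases hc0 : (NA Gb K v).card = 0
      · -- both empty
        have h3 : ((g : ℝ) + 2) ≤ (NA Gr K v).card := by exact_mod_cast h0 hc0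
        have h4 : 1 ≤ (NA Gr L v).card := by
          rcases s1 hZ hmax1 hMin v (Finset.card_eq_zero.1 hc0) with h5 | h5 | h5
          · exact Finset.card_pos.2 h5
          · rw [hBL] at h5
            simp at h5
          · rw [hBL] at h5
            simp at h5
        have h5 : (1 : ℝ) ≤ (NA Gr L v).card := by exact_mod_cast h4
        have h6 : a * (g + 2) ≤ a * (NA Gr K v).card := mul_le_mul_of_nonneg_left h3 hapos.le
        have h7 : (1 + w) * a ≤ (1 + w) * (a * (NA Gr L v).card) := by
          apply mul_le_mul_of_nonneg_left _ (by linarith)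
          nlinarith
        have h8 : ((NA Gb K v).card : ℝ) = 0 := by exact_mod_cast hc0
        rw [h8]
        nlinarith
      · by_cases hc1 : (NA Gb K v).card = 1
        · have h8 : ((NA Gb K v).card : ℝ) = 1 := by exact_mod_cast hc1
          rw [h8]
          rcases h1 hc1 with h3 | ⟨h3, h4⟩
          · have h5 : ((g : ℝ) + 2) ≤ (NA Gr K v).card := by exact_mod_cast h3
            have h6 : a * (g + 2) ≤ a * (NA Gr K v).card := mul_le_mul_of_nonneg_left h5 hapos.le
            have h7 : 0 ≤ (1 + w) * (a * ((NA Gr L v).card : ℝ) + b * 0) := by positivity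
            nlinarith
          · have h5 : ((g : ℝ) + 2) ≤ (NA Gr K v).card + 1 := by exact_mod_cast h3
            have h6 : a * (g + 1) ≤ a * (NA Gr K v).card :=
              mul_le_mul_of_nonneg_left (by linarith) hapos.le
            have h9 : (1 : ℝ) ≤ (NA Gr L v).card := by exact_mod_cast Finset.card_pos.2 h4
            have h7 : (1 + w) * a ≤ (1 + w) * (a * (NA Gr L v).card + b * 0) := by
              apply mul_le_mul_of_nonneg_left _ (by linarith)
              nlinarith
            nlinarith
        · have h3 : (2 : ℝ) ≤ (NA Gb K v).card := by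
            have : 2 ≤ (NA Gb K v).card := by omega
            exact_mod_cast this
          have h4 : ((g : ℝ) + 2) ≤ (NA Gr K v).card + (NA Gb K v).card := by exact_mod_cast h2
          have h5 : a * (g + 2) ≤ a * ((NA Gr K v).card + (NA Gb K v).card) :=
            mul_le_mul_of_nonneg_left h4 hapos.le
          have h6 : (b - a) * 2 ≤ (b - a) * (NA Gb K v).card :=
            mul_le_mul_of_nonneg_left h3 (by linarith)
          have h7 : 0 ≤ (1 + w) * (a * ((NA Gr L v).card : ℝ) + b * 0) := by positivity
          nlinarith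
    · have hbL : (1 : ℝ) ≤ (NA Gb L v).card := by
        have : 1 ≤ (NA Gb L v).card := by
          rw [Nat.one_le_iff_ne_zero, Ne, Finset.card_eq_zero]
          exact hBL
        exact_mod_cast this
      by_cases hc0 : (NA Gb K v).card = 0
      · have h8 : ((NA Gb K v).card : ℝ) = 0 := by exact_mod_cast hc0
        rw [h8]
        rcases s1 hZ hmax1 hMin v (Finset.card_eq_zero.1 hc0) with h5 | h5 | ⟨h5, h6⟩
        · have h9 : (1 : ℝ) ≤ (NA Gr L v).card := by exact_mod_cast Finset.card_pos.2 h5
          have h7 : (1 + w) * (a + b) ≤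
              (1 + w) * (a * (NA Gr L v).card + b * (NA Gb L v).card) := by
            apply mul_le_mul_of_nonneg_left _ (by linarith)
            nlinarith
          nlinarith
        · have h9 : (2 : ℝ) ≤ (NA Gb L v).card := by exact_mod_cast h5
          have h7 : (1 + w) * (a + b) ≤
              (1 + w) * (a * (NA Gr L v).card + b * (NA Gb L v).card) := by
            apply mul_le_mul_of_nonneg_left _ (by linarith)
            nlinarith
          nlinarith
        · have h9 : (1 : ℝ) ≤ (NA Gr K v).card := by exact_mod_cast Finset.card_pos.2 h6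
          have h7 : (1 + w) * b ≤
              (1 + w) * (a * (NA Gr L v).card + b * (NA Gb L v).card) := by
            apply mul_le_mul_of_nonneg_left _ (by linarith)
            nlinarith
          nlinarith
      · have hbK : (1 : ℝ) ≤ (NA Gb K v).card := by
          have : 1 ≤ (NA Gb K v).card := by omega
          exact_mod_cast this
        have h7 : (1 + w) * b ≤
            (1 + w) * (a * (NA Gr L v).card + b * (NA Gb L v).card) := by
          apply mul_le_mul_of_nonneg_left _ (by linarith)
          nlinarith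
        nlinarith

/-- Step 1 again, with the hypotheses that are used -/
theorem step1' (hsum : a + b = 2 * t - 1) (htb : (t : ℝ) ≤ b) (hapos : 0 < a) (hε : 0 < ε)
    (hn : 0 < n) (hdeg : ∀ v, a * nonadj Gr v + b * nonadj Gb v ≤ (1 - ε) * n) {m : ℕ}
    (hm : b < m) (hP : P Gr Gb 0 m) (hmax : ∀ K, BC Gb K → K.card ≤ m) :
    ∀ l : ℕ, l + m ≤ 2 * t → P Gr Gb l m := by
  intro l
  induction l with
  | zero => exact fun _ => hP
  | succ l ih =>
    intro hl
    have hPl := ih (by omega)
    by_contra hcon
    obtain ⟨L, K, hZ, hLc, hKc, hMin⟩ := hPl.exists_min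
    have hmax' : ∀ K', BC Gb K' → K'.card ≤ K.card := fun K' hK' => by
      rw [hKc]
      exact hmax K' hK'
    have hk : ∀ L' K', ZS Gr Gb L' K' → L'.card = L.card + 1 → K'.card + 1 ≤ K.card := by
      intro L' K' h1 h2
      have h3 := hmax' K' h1.bk
      by_contra h4
      apply hcon
      exact ⟨L', K', h1, by omega, by omega⟩
    have hlm : (l : ℝ) + 1 + m ≤ 2 * t := by exact_mod_cast hl
    have hal : 0 < a - l := by linarith
    have hl0 : (0 : ℝ) ≤ l := by positivity
    set s : ℝ := (m - b) / (a - l) with hs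
    have hs0 : 0 ≤ s := div_nonneg (by linarith) hal.le
    have hsd : s * (a - l) = m - b := div_mul_cancel₀ _ hal.ne'
    have hs1 : s ≤ 1 := by
      rw [hs, div_le_one hal]
      linarith
    have hab : a ≤ b := by linarith
    have hls : s * l ≤ l := by nlinarith
    refine no_cert hε hn hdeg hs0 L K ?_ ?_
    · rw [hKc]
      have : (0 : ℝ) < m := by linarith
      exact_mod_cast this
    · intro v
      rw [hKc, hLc]
      have hbK := nonblue_of_max hZ.bk hmax' v
      have hbpos : 0 < b := by linarith
      have e1 : (0 : ℝ) ≤ (NA Gr K v).card := by positivity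
      have e2 : (0 : ℝ) ≤ (NA Gr L v).card := by positivity
      have e3 : (0 : ℝ) ≤ (NA Gb L v).card := by positivity
      have e4 : (1 : ℝ) ≤ (NA Gb K v).card := by exact_mod_cast hbK
      have hB : (m : ℝ) + s * l = b + s * a := by linarith
      rw [hB]
      have hsa : s * a ≤ a := by nlinarith
      by_cases hBL : NA Gb L v = ∅
      · obtain ⟨_, h2, _⟩ := s2 hZ hMin 1 hk v hBL
        by_cases hc : (NA Gb K v).card = 1
        · rcases h2 hc with h3 | ⟨_, h3⟩
          · have h4 : (1 : ℝ) ≤ (NA Gr K v).card := by exact_mod_cast h3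
            have h5 : 0 ≤ s * (a * (NA Gr L v).card + b * (NA Gb L v).card) := by positivity
            nlinarith
          · have h4 : (1 : ℝ) ≤ (NA Gr L v).card := by
              exact_mod_cast Finset.card_pos.2 h3
            have h5 : s * a ≤ s * (a * (NA Gr L v).card + b * (NA Gb L v).card) := by
              apply mul_le_mul_of_nonneg_left _ hs0
              nlinarith
            nlinarith
        · have h4 : (2 : ℝ) ≤ (NA Gb K v).card := by
            have : 2 ≤ (NA Gb K v).card := by omega
            exact_mod_cast this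
          have h5 : 0 ≤ s * (a * (NA Gr L v).card + b * (NA Gb L v).card) := by positivity
          nlinarith
      · have h4 : (1 : ℝ) ≤ (NA Gb L v).card := by
          have : 1 ≤ (NA Gb L v).card := by
            rw [Nat.one_le_iff_ne_zero, Ne, Finset.card_eq_zero]
            exact hBL
          exact_mod_cast this
        have h5 : s * a ≤ s * (a * (NA Gr L v).card + b * (NA Gb L v).card) := by
          apply mul_le_mul_of_nonneg_left _ hs0
          nlinarith
        nlinarith

/-- if every extremal state is impossible, then there are two blue `t`-cliques joined by red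
edges -/
theorem levels (hsum : a + b = 2 * t - 1) (htb : (t : ℝ) ≤ b) (hapos : 0 < a) (hε : 0 < ε)
    (hn : 0 < n) (hdeg : ∀ v, a * nonadj Gr v + b * nonadj Gb v ≤ (1 - ε) * n)
    (hst : ∀ (l m g : ℕ) (L K : Finset (Fin n)), l + 1 ≤ t → l + m = 2 * t + g →
      ZS Gr Gb L K → L.card = l → K.card = m → MinM Gr Gb L K →
      (∀ L' K', ZS Gr Gb L' K' → L'.card = L.card → K'.card ≤ K.card) →
      (∀ L' K', ZS Gr Gb L' K' → L'.card = L.card + 1 → K'.card + (g + 2) ≤ K.card) → False) :
    ∃ L K : Finset (Fin n), ZS Gr Gb L K ∧ L.card = t ∧ K.card = t := by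
  by_contra hcon
  have hbpos : 0 < b := by
    have : (0 : ℝ) ≤ t := by positivity
    by_contra hc
    push Not at hc
    linarith
  have hno : ∀ m, t ≤ m → ¬ P Gr Gb t m := by
    intro m hm hP
    obtain ⟨L, K, h1, h2, h3⟩ := hP.mono hm
    exact hcon ⟨L, K, h1, h2, h3⟩
  have step2' : ∀ l : ℕ, l + 1 ≤ t → (∀ m', P Gr Gb (l + 1) m' → m' + l + 2 ≤ 2 * t) →
      ∀ m, P Gr Gb l m → 2 * t ≤ l + m → False := by
    intro l hl hnext m0 hP0 hm0
    obtain ⟨m, hPm, hmm, hmaxm⟩ : ∃ m, P Gr Gb l m ∧ m0 ≤ m ∧
        ∀ m', P Gr Gb l m' → m' ≤ m := by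
      have hex : ∃ j, P Gr Gb l (n - j) := ⟨n - m0, by
        have := hP0.le
        rwa [Nat.sub_sub_self this]⟩
      refine ⟨n - Nat.find hex, Nat.find_spec hex, ?_, ?_⟩
      · have h1 : Nat.find hex ≤ n - m0 := Nat.find_min' hex (by
          have := hP0.le
          rwa [Nat.sub_sub_self this])
        have := hP0.le
        omega
      · intro m' hm'
        have h1 : Nat.find hex ≤ n - m' := Nat.find_min' hex (by
          have := hm'.le
          rwa [Nat.sub_sub_self this])
        have := hm'.le
        omega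
    obtain ⟨L, K, hZ, hLc, hKc, hMin⟩ := hPm.exists_min
    obtain ⟨g, hg⟩ : ∃ g, l + m = 2 * t + g := ⟨l + m - 2 * t, by omega⟩
    refine hst l m g L K hl hg hZ hLc hKc hMin ?_ ?_
    · intro L' K' h1 h2
      rw [hKc]
      exact hmaxm _ ⟨L', K', h1, by omega, rfl⟩
    · intro L' K' h1 h2
      have h3 := hnext _ ⟨L', K', h1, by omega, rfl⟩
      omega
  have hlev : ∀ j l : ℕ, l + 1 + j = t → ∀ m, P Gr Gb l m → 2 * t ≤ l + m → False := by
    intro j
    induction j with
    | zero =>
      intro l hl
      apply step2' l (by omega)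
      intro m' hm'
      by_contra h1
      exact hno m' (by omega) (by
        have : l + 1 = t := by omega
        rwa [this] at hm')
    | succ j ih =>
      intro l hl
      apply step2' l (by omega)
      intro m' hm'
      by_contra h1
      exact ih (l + 1) (by omega) m' hm' (by omega)
  obtain ⟨K, hK, hmax⟩ := exists_max_clique Gb
  have hKpos : 0 < K.card := by
    have h1 : BC Gb {(⟨0, hn⟩ : Fin n)} := by
      intro x hx y hy hxy
      rw [Finset.mem_singleton] at hx hy
      exact absurd (hx.trans hy.symm) hxy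
    have := hmax _ h1
    simpa using this
  have hbK : b < K.card := by
    by_contra hc
    push Not at hc
    refine no_cert hε hn hdeg (le_refl (0 : ℝ)) ∅ K hKpos ?_
    intro v
    have h1 : (1 : ℝ) ≤ (NA Gb K v).card := by exact_mod_cast nonblue_of_max hK hmax v
    have e1 : (0 : ℝ) ≤ (NA Gr K v).card := by positivity
    have h2 : 0 ≤ a * ((NA Gr K v).card : ℝ) := by positivity
    nlinarith
  have hP0 : P Gr Gb 0 K.card := by
    refine ⟨∅, K, ⟨by simp, hK, by simp, by simp, by simp⟩, rfl, rfl⟩
  have htK : t + 1 ≤ K.card := by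
    have : (t : ℝ) < K.card := by linarith
    exact_mod_cast this
  have ht1 : 1 ≤ t := by
    by_contra hc
    have : t = 0 := by omega
    subst this
    push_cast at hsum
    linarith
  by_cases hbig : 2 * t ≤ K.card
  · exact hlev (t - 1) 0 (by omega) K.card hP0 (by omega)
  · have h1 := step1' hsum htb hapos hε hn hdeg hbK hP0 hmax (2 * t - K.card) (by omega)
    exact hlev (K.card - t - 1) (2 * t - K.card) (by omega) K.card h1 (by omega)

/-- **`t = 7`** -/
theorem exists_Z7 (hε : 0 < ε) (hn : 0 < n)
    (hdeg : ∀ v, 5 * (nonadj Gr v : ℝ) + 8 * nonadj Gb v ≤ (1 - ε) * n) :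
    ∃ L K : Finset (Fin n), ZS Gr Gb L K ∧ L.card = 7 ∧ K.card = 7 := by
  refine levels (a := 5) (b := 8) (t := 7) (by norm_num) (by norm_num) (by norm_num) hε hn hdeg ?_
  intro l m g L K hl hg hZ hLc hKc hMin hmax1 hk
  have hg0 : (0 : ℝ) ≤ g := by positivity
  have hl6 : (l : ℝ) ≤ 6 := by
    have : l ≤ 6 := by omega
    exact_mod_cast this
  by_cases h6 : l = 6
  · by_cases hgz : g = 0
    · subst h6 hgz
      have hm : m = 8 := by omega
      subst hm
      refine stateB (a := 5) (b := 8) (s0 := 8 / 5) (s := 11 / 8) (s' := 9 / 8) (ω := 1 / 4)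
        (l := 6) (m := 8) (g := 0) ?_ hε hn hdeg hZ hLc hKc hMin (by norm_num) hmax1 hk
      constructor <;> norm_num
    · have hg1 : (1 : ℝ) ≤ g := by
        have : 1 ≤ g := by omega
        exact_mod_cast this
      subst h6
      refine stateA (a := 5) (b := 8) (t := 7) (w := (g + 1) / 2) hε hn hdeg (by norm_num)
        (by norm_num) (by norm_num) (by norm_num) hg ?_ ?_ ?_ ?_ hZ hLc hKc hMin (by omega)
        hmax1 hk
      · push_cast
        ring
      · linarith
      · linarith
      · linarith
  · have hl5 : (l : ℝ) ≤ 5 := by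
      have : l ≤ 5 := by omega
      exact_mod_cast this
    have hd : (0 : ℝ) < 8 - l := by linarith
    set w : ℝ := (g + 1) / (8 - l) with hw
    have hwd : w * (8 - l) = g + 1 := div_mul_cancel₀ _ hd.ne'
    have hw0 : 0 ≤ w := div_nonneg (by linarith) hd.le
    have hw3 : 3 * w ≤ g + 1 := by nlinarith
    exact stateA (a := 5) (b := 8) (t := 7) (w := w) hε hn hdeg (by norm_num)
        (by norm_num) (by norm_num) (by linarith) hg hwd (by linarith) (by linarith)
        (by linarith) hZ hLc hKc hMin (by omega) hmax1 hk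

/-- **`t = 6`** -/
theorem exists_Z6 (hε : 0 < ε) (hn : 0 < n)
    (hdeg : ∀ v, (21 / 5 : ℝ) * nonadj Gr v + (34 / 5 : ℝ) * nonadj Gb v ≤ (1 - ε) * n) :
    ∃ L K : Finset (Fin n), ZS Gr Gb L K ∧ L.card = 6 ∧ K.card = 6 := by
  refine levels (a := 21 / 5) (b := 34 / 5) (t := 6) (by norm_num) (by norm_num) (by norm_num)
    hε hn hdeg ?_
  intro l m g L K hl hg hZ hLc hKc hMin hmax1 hk
  have hg0 : (0 : ℝ) ≤ g := by positivity
  by_cases h5 : l = 5
  · subst h5
    by_cases hg2 : g ≤ 2
    · have hcase : g = 0 ∨ g = 1 ∨ g = 2 := by omega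
      rcases hcase with hgz | hgz | hgz
      · subst hgz
        have hm : m = 7 := by omega
        subst hm
        refine stateB (a := 21 / 5) (b := 34 / 5) (s0 := 14 / 9) (s := 83 / 60) (s' := 21 / 20)
          (ω := 1 / 3) (l := 5) (m := 7) (g := 0) ?_ hε hn hdeg hZ hLc hKc hMin (by norm_num)
          hmax1 hk
        constructor <;> norm_num
      · subst hgz
        have hm : m = 8 := by omega
        subst hm
        refine stateB (a := 21 / 5) (b := 34 / 5) (s0 := 19 / 9) (s := 2) (s' := 9 / 5)
          (ω := 1 / 5) (l := 5) (m := 8) (g := 1) ?_ hε hn hdeg hZ hLc hKc hMin (by norm_num)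
          hmax1 hk
        constructor <;> norm_num
      · subst hgz
        have hm : m = 9 := by omega
        subst hm
        refine stateB (a := 21 / 5) (b := 34 / 5) (s0 := 8 / 3) (s := 131 / 50) (s' := 5 / 2)
          (ω := 3 / 25) (l := 5) (m := 9) (g := 2) ?_ hε hn hdeg hZ hLc hKc hMin (by norm_num)
          hmax1 hk
        constructor <;> norm_num
    · have hg3 : (3 : ℝ) ≤ g := by
        have : 3 ≤ g := by omega
        exact_mod_cast this
      refine stateA (a := 21 / 5) (b := 34 / 5) (t := 6) (w := (g + 1) * (5 / 9)) hε hn hdeg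
        (by norm_num) (by norm_num) (by norm_num) (by norm_num) hg ?_ ?_ ?_ ?_ hZ hLc hKc hMin
        (by omega) hmax1 hk
      · push_cast
        ring
      · linarith
      · linarith
      · linarith
  · have hl4 : (l : ℝ) ≤ 4 := by
      have : l ≤ 4 := by omega
      exact_mod_cast this
    have hd : (0 : ℝ) < 34 / 5 - l := by linarith
    set w : ℝ := (g + 1) / (34 / 5 - l) with hw
    have hwd : w * (34 / 5 - l) = g + 1 := div_mul_cancel₀ _ hd.ne'
    have hw0 : 0 ≤ w := div_nonneg (by linarith) hd.le
    have hw3 : 14 / 5 * w ≤ g + 1 := by nlinarith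
    exact stateA (a := 21 / 5) (b := 34 / 5) (t := 6) (w := w) hε hn hdeg (by norm_num)
        (by norm_num) (by norm_num) (by linarith) hg hwd (by linarith) (by linarith)
        (by linarith) hZ hLc hKc hMin (by omega) hmax1 hk

end Pool.Agent.Lib.MP_a05470_co.Frontier
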