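import Pool.Agent.Lib.MP_a05470_co.FrontierForces
import Pool.Agent.Lib.MP_a05470_co.FrontierQMain

/-!
# Graphs with equal parts of order at least 12 are forced
-/

set_option autoImplicit false

namespace Pool.Agent.Lib.MP_a05470_co.Frontier

open Finset Classical

/-- every graph of order `2t ≥ 12` all of whose components are complete bipartite with equal parts
is forced -/
theorem forces_equalParts6 {V : Type} [Fintype V] (H : SimpleGraph V) {t : ℕ} (ht : 6 ≤ t)
    (hV : Fintype.card V = 2 * t)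
    (κ : V → V) (σ : V → Bool) (hH : ∀ x y, H.Adj x y ↔ κ x = κ y ∧ σ x ≠ σ y)
    (hbal : ∀ i, (Finset.univ.filter (fun x => κ x = i ∧ σ x = true)).card =
      (Finset.univ.filter (fun x => κ x = i ∧ σ x = false)).card) :
    ∃ a b : ℝ, 0 ≤ a ∧ 0 ≤ b ∧ a + b = (Fintype.card V : ℝ) - 1 ∧ Forces a b H Hᶜ := by
  have hcase : t = 6 ∨ t = 7 ∨ 8 ≤ t := by omega
  rcases hcase with h6 | h7 | h8
  · subst h6
    refine ⟨21 / 5, 34 / 5, by norm_num, by norm_num, by rw [hV]; norm_num, ?_⟩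
    intro ε hε
    refine ⟨1, fun n hn Gr Gb hdeg => ?_⟩
    obtain ⟨L, K, hZ, hL, hK⟩ := exists_Z6 hε (by omega) hdeg
    exact contains_of_Z hZ hL hK H hV κ σ hH hbal
  · subst h7
    refine ⟨5, 8, by norm_num, by norm_num, by rw [hV]; norm_num, ?_⟩
    intro ε hε
    refine ⟨1, fun n hn Gr Gb hdeg => ?_⟩
    obtain ⟨L, K, hZ, hL, hK⟩ := exists_Z7 hε (by omega) hdeg
    exact contains_of_Z hZ hL hK H hV κ σ hH hbal
  · exact forces_equalParts H h8 hV κ σ hH hbal

end Pool.Agent.Lib.MP_a05470_co.Frontier
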