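import Pool.Agent.Lib.MP_a05470_co.FrontierQMain

/-!
# The initial bounds for `t = 5`
-/

set_option autoImplicit false

namespace Pool.Agent.Lib.MP_a05470_co.Frontier

open Finset Classical

variable {n : ℕ} {Gr Gb : SimpleGraph (Fin n)} {ε : ℝ}

/-- a state with `2 l + m ≥ 15` -/
theorem stateC (hε : 0 < ε) (hn : 0 < n)
    (hdeg : ∀ v, 3 * (nonadj Gr v : ℝ) + 6 * nonadj Gb v ≤ (1 - ε) * n) {l m k : ℕ}
    (hl : l ≤ 4) (hk3 : 3 ≤ k) (hm : m + 2 * l = 12 + k)
    {L K : Finset (Fin n)} (hZ : ZS Gr Gb L K) (hLc : L.card = l) (hKc : K.card = m)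
    (hMin : MinM Gr Gb L K)
    (hmax1 : ∀ L' K', ZS Gr Gb L' K' → L'.card = L.card → K'.card ≤ K.card)
    (hk : ∀ L' K', ZS Gr Gb L' K' → L'.card = L.card + 1 → K'.card + k ≤ K.card) :
    False := by
  have hkR : (3 : ℝ) ≤ k := by exact_mod_cast hk3
  have hmR : (m : ℝ) + 2 * l = 12 + k := by exact_mod_cast hm
  have hl0 : (0 : ℝ) ≤ l := by positivity
  have hlR : (l : ℝ) ≤ 4 := by exact_mod_cast hl
  obtain ⟨s, hs, hs1, hs2, hs3⟩ : ∃ s : ℝ, s * (6 - l) = k + 9 - 2 * l ∧ 1 ≤ s ∧
      12 - 2 * (l : ℝ) + s * (l - 3) ≤ 2 * k ∧ 6 - 2 * (l : ℝ) + s * l ≤ 2 * k := by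
    have hd : (0 : ℝ) < 6 - l := by linarith
    have e : ((k : ℝ) + 9 - 2 * l) / (6 - l) * (6 - l) = k + 9 - 2 * l :=
      div_mul_cancel₀ _ hd.ne'
    have hcase : l = 0 ∨ l = 1 ∨ l = 2 ∨ l = 3 ∨ l = 4 := by omega
    refine ⟨((k : ℝ) + 9 - 2 * l) / (6 - l), e, ?_, ?_, ?_⟩
    · rw [le_div_iff₀ hd]
      linarith
    all_goals
      rcases hcase with h | h | h | h | h <;> subst h <;> push_cast at e ⊢ <;> linarith
  have hs0 : 0 ≤ s := by linarith
  have hB : (m : ℝ) + s * l = 6 * s + 3 := by nlinarith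
  refine no_cert hε hn hdeg hs0 L K ?_ ?_
  · rw [hKc]
    omega
  · intro v
    rw [hKc, hLc, hB]
    have e1 : (0 : ℝ) ≤ (NA Gr K v).card := by positivity
    have e2 : (0 : ℝ) ≤ (NA Gr L v).card := by positivity
    have e3 : (0 : ℝ) ≤ (NA Gb L v).card := by positivity
    have e4 : (0 : ℝ) ≤ (NA Gb K v).card := by positivity
    by_cases hBL : NA Gb L v = ∅
    · obtain ⟨h0, h1, h2⟩ := s2 hZ hMin k hk v hBL
      have hLz : ((NA Gb L v).card : ℝ) = 0 := by rw [hBL]; simp
      rw [hLz]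
      by_cases hc0 : (NA Gb K v).card = 0
      · have h3 : (k : ℝ) ≤ (NA Gr K v).card := by exact_mod_cast h0 hc0
        have h4 : 1 ≤ (NA Gr L v).card := by
          rcases s1 hZ hmax1 hMin v (Finset.card_eq_zero.1 hc0) with h5 | h5 | h5
          · exact Finset.card_pos.2 h5
          · rw [hBL] at h5
            simp at h5
          · rw [hBL] at h5
            simp at h5
        have h5 : (1 : ℝ) ≤ (NA Gr L v).card := by exact_mod_cast h4
        have h8 : ((NA Gb K v).card : ℝ) = 0 := by exact_mod_cast hc0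
        have h9 : s * 3 ≤ s * (3 * (NA Gr L v).card) :=
          mul_le_mul_of_nonneg_left (by linarith) hs0
        rw [h8]
        nlinarith
      · by_cases hc1 : (NA Gb K v).card = 1
        · have h8 : ((NA Gb K v).card : ℝ) = 1 := by exact_mod_cast hc1
          rw [h8]
          rcases h1 hc1 with h3 | ⟨h3, h4⟩
          · have h5 : (k : ℝ) ≤ (NA Gr K v).card := by exact_mod_cast h3
            have h7 : 0 ≤ s * (3 * ((NA Gr L v).card : ℝ) + 6 * 0) := by positivity
            nlinarith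
          · have h5 : (k : ℝ) ≤ (NA Gr K v).card + 1 := by exact_mod_cast h3
            have h9 : (1 : ℝ) ≤ (NA Gr L v).card := by exact_mod_cast Finset.card_pos.2 h4
            have h7 : s * 3 ≤ s * (3 * (NA Gr L v).card + 6 * 0) :=
              mul_le_mul_of_nonneg_left (by linarith) hs0
            nlinarith
        · have h3 : (2 : ℝ) ≤ (NA Gb K v).card := by
            have : 2 ≤ (NA Gb K v).card := by omega
            exact_mod_cast this
          have h4 : (k : ℝ) ≤ (NA Gr K v).card + (NA Gb K v).card := by exact_mod_cast h2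
          have h7 : 0 ≤ s * (3 * ((NA Gr L v).card : ℝ) + 6 * 0) := by positivity
          nlinarith
    · have hbL : (1 : ℝ) ≤ (NA Gb L v).card := by
        have : 1 ≤ (NA Gb L v).card := by
          rw [Nat.one_le_iff_ne_zero, Ne, Finset.card_eq_zero]
          exact hBL
        exact_mod_cast this
      by_cases hc0 : (NA Gb K v).card = 0
      · have h8 : ((NA Gb K v).card : ℝ) = 0 := by exact_mod_cast hc0
        rw [h8]
        rcases s1 hZ hmax1 hMin v (Finset.card_eq_zero.1 hc0) with h5 | h5 | ⟨h5, h6⟩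
        · have h9 : (1 : ℝ) ≤ (NA Gr L v).card := by exact_mod_cast Finset.card_pos.2 h5
          have h7 : s * 9 ≤ s * (3 * (NA Gr L v).card + 6 * (NA Gb L v).card) :=
            mul_le_mul_of_nonneg_left (by linarith) hs0
          nlinarith
        · have h9 : (2 : ℝ) ≤ (NA Gb L v).card := by exact_mod_cast h5
          have h7 : s * 12 ≤ s * (3 * (NA Gr L v).card + 6 * (NA Gb L v).card) :=
            mul_le_mul_of_nonneg_left (by linarith) hs0
          nlinarith
        · have h9 : (1 : ℝ) ≤ (NA Gr K v).card := by exact_mod_cast Finset.card_pos.2 h6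
          have h7 : s * 6 ≤ s * (3 * (NA Gr L v).card + 6 * (NA Gb L v).card) :=
            mul_le_mul_of_nonneg_left (by linarith) hs0
          nlinarith
      · have hbK : (1 : ℝ) ≤ (NA Gb K v).card := by
          have : 1 ≤ (NA Gb K v).card := by omega
          exact_mod_cast this
        have h7 : s * 6 ≤ s * (3 * (NA Gr L v).card + 6 * (NA Gb L v).card) :=
          mul_le_mul_of_nonneg_left (by linarith) hs0
        nlinarith

/-- one level -/
theorem capStep (hε : 0 < ε) (hn : 0 < n)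
    (hdeg : ∀ v, 3 * (nonadj Gr v : ℝ) + 6 * nonadj Gb v ≤ (1 - ε) * n) {l : ℕ} (hl : l ≤ 4)
    (hnext : ∀ L K : Finset (Fin n), ZS Gr Gb L K → L.card = l + 1 → K.card + 2 * l ≤ 12) :
    ∀ L K : Finset (Fin n), ZS Gr Gb L K → L.card = l → K.card + 2 * l ≤ 14 := by
  intro L0 K0 hZ0 hL0
  by_contra hcon
  push Not at hcon
  have hP0 : P Gr Gb l K0.card := ⟨L0, K0, hZ0, hL0, rfl⟩
  obtain ⟨m, hPm, hmm, hmaxm⟩ : ∃ m, P Gr Gb l m ∧ K0.card ≤ m ∧
      ∀ m', P Gr Gb l m' → m' ≤ m := by
    have hex : ∃ j, P Gr Gb l (n - j) := ⟨n - K0.card, by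
      have := hP0.le
      rwa [Nat.sub_sub_self this]⟩
    refine ⟨n - Nat.find hex, Nat.find_spec hex, ?_, ?_⟩
    · have h1 : Nat.find hex ≤ n - K0.card := Nat.find_min' hex (by
        have := hP0.le
        rwa [Nat.sub_sub_self this])
      have := hP0.le
      omega
    · intro m' hm'
      have h1 : Nat.find hex ≤ n - m' := Nat.find_min' hex (by
        have := hm'.le
        rwa [Nat.sub_sub_self this])
      have := hm'.le
      omega
  obtain ⟨L, K, hZ, hLc, hKc, hMin⟩ := hPm.exists_min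
  obtain ⟨k, hk⟩ : ∃ k, m + 2 * l = 12 + k := ⟨m + 2 * l - 12, by omega⟩
  refine stateC hε hn hdeg hl (k := k) (by omega) hk hZ hLc hKc hMin ?_ ?_
  · intro L' K' h1 h2
    rw [hKc]
    exact hmaxm _ ⟨L', K', h1, by omega, rfl⟩
  · intro L' K' h1 h2
    have h3 := hnext L' K' h1 (by omega)
    omega

/-- **The initial bounds**: if there is no pair of blue `5`-cliques joined by red edges (nonblue
pairs a matching), then the pairs of type `(l, m)`, `l ≤ 4`, satisfy `m ≤ 14 - 2 l`. -/
theorem initCaps (hε : 0 < ε) (hn : 0 < n)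
    (hdeg : ∀ v, 3 * (nonadj Gr v : ℝ) + 6 * nonadj Gb v ≤ (1 - ε) * n)
    (hno : ¬ ∃ L K : Finset (Fin n), ZS Gr Gb L K ∧ L.card = 5 ∧ K.card = 5) :
    ∀ l ≤ 5, ∀ L K : Finset (Fin n), ZS Gr Gb L K → L.card = l → K.card + 2 * l ≤ 14 := by
  have h5 : ∀ L K : Finset (Fin n), ZS Gr Gb L K → L.card = 5 → K.card + 2 * 5 ≤ 14 := by
    intro L K hZ hL
    by_contra hc
    obtain ⟨K', hK', hc'⟩ := Finset.exists_subset_card_eq (show 5 ≤ K.card by omega)
    exact hno ⟨L, K', hZ.mono (Finset.Subset.refl L) hK', hL, hc'⟩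
  have h4 := capStep hε hn hdeg (l := 4) (by norm_num) (fun L K hZ hL => by
    have := h5 L K hZ hL
    omega)
  have h3 := capStep hε hn hdeg (l := 3) (by norm_num) (fun L K hZ hL => by
    have := h4 L K hZ hL
    omega)
  have h2 := capStep hε hn hdeg (l := 2) (by norm_num) (fun L K hZ hL => by
    have := h3 L K hZ hL
    omega)
  have h1 := capStep hε hn hdeg (l := 1) (by norm_num) (fun L K hZ hL => by
    have := h2 L K hZ hL
    omega)
  have h0 := capStep hε hn hdeg (l := 0) (by norm_num) (fun L K hZ hL => by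
    have := h1 L K hZ hL
    omega)
  intro l hl
  have hcase : l = 0 ∨ l = 1 ∨ l = 2 ∨ l = 3 ∨ l = 4 ∨ l = 5 := by omega
  rcases hcase with h | h | h | h | h | h <;> subst h
  · exact h0
  · exact h1
  · exact h2
  · exact h3
  · exact h4
  · exact h5

end Pool.Agent.Lib.MP_a05470_co.Frontier
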