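import Pool.Agent.Lib.MP_a05470_co.FrontierMain

/-!
# Labelling a pair of blue cliques joined by red edges
-/

set_option autoImplicit false

namespace Pool.Agent.Lib.MP_a05470_co.Frontier

open Finset Classical

variable {W : Type}

/-- an injective enumeration of a finite set -/
theorem exists_enum {X : Type} [Nonempty X] (A : Finset X) :
    ∃ f : ℕ → X, (∀ i < A.card, f i ∈ A) ∧
      (∀ i < A.card, ∀ j < A.card, f i = f j → i = j) ∧ ∀ x ∈ A, ∃ i < A.card, f i = x := by
  let e := A.equivFin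
  have x0 : X := Classical.arbitrary X
  refine ⟨fun i => if h : i < A.card then ((e.symm ⟨i, h⟩ : A) : X) else x0, ?_, ?_, ?_⟩
  · intro i hi
    simp only [dif_pos hi]
    exact (e.symm ⟨i, hi⟩).2
  · intro i hi j hj hij
    simp only [dif_pos hi, dif_pos hj] at hij
    have h1 := e.symm.injective (Subtype.ext hij)
    exact congrArg Fin.val h1
  · intro x hx
    refine ⟨(e ⟨x, hx⟩ : Fin A.card), (e ⟨x, hx⟩).2, ?_⟩
    simp only [dif_pos (e ⟨x, hx⟩).2, Fin.eta, Equiv.symm_apply_apply]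

/-- the labelling: the vertices of `L` are `φ 0, …, φ (l - 1)`, those of `K` are
`φ l, …, φ (l + m - 1)`, and the pairs between `L` and `K` which are not blue are exactly the pairs
`φ i, φ (l + i)` with `i < r`. -/
structure Labels (Gr Gb : SimpleGraph W) (L K : Finset W) (l m r : ℕ) (φ : ℕ → W) : Prop where
  rl : r ≤ l
  rm : r ≤ m
  memL : ∀ i < l, φ i ∈ L
  memK : ∀ j < m, φ (l + j) ∈ K
  surjL : ∀ x ∈ L, ∃ i < l, φ i = x
  surjK : ∀ x ∈ K, ∃ j < m, φ (l + j) = x
  inj : ∀ i < l + m, ∀ j < l + m, φ i = φ j → i = j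
  bl : ∀ i < l, ∀ j < l, i ≠ j → Gb.Adj (φ i) (φ j)
  bk : ∀ i < m, ∀ j < m, i ≠ j → Gb.Adj (φ (l + i)) (φ (l + j))
  rd : ∀ i < l, ∀ j < m, Gr.Adj (φ i) (φ (l + j))
  bd : ∀ i < l, ∀ j < m, (i ≠ j ∨ r ≤ i) → Gb.Adj (φ i) (φ (l + j))
  nb : ∀ i < r, ¬ Gb.Adj (φ i) (φ (l + i))

theorem exists_labels [Nonempty W] {Gr Gb : SimpleGraph W} {L K : Finset W} (h : ZS Gr Gb L K) :
    ∃ φ : ℕ → W, Labels Gr Gb L K L.card K.card (M Gb L K) φ := by
  obtain ⟨s, hs1, hs2, hs3⟩ := exists_enum ((L ×ˢ K).filter (fun p => ¬ Gb.Adj p.1 p.2))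
  set S := (L ×ˢ K).filter (fun p => ¬ Gb.Adj p.1 p.2) with hS
  have hSr : S.card = M Gb L K := rfl
  set r := M Gb L K with hr
  rw [hSr] at hs1 hs2 hs3
  have hS' : ∀ p, p ∈ S ↔ (p.1 ∈ L ∧ p.2 ∈ K) ∧ ¬ Gb.Adj p.1 p.2 := by
    intro p
    rw [hS, Finset.mem_filter, Finset.mem_product]
  have hfst : ∀ p ∈ S, ∀ q ∈ S, p.1 = q.1 → p = q := by
    intro p hp q hq hpq
    have hp' := (hS' p).1 hp
    have hq' := (hS' q).1 hq
    have := h.mL p.1 hp'.1.1 p.2 hp'.1.2 q.2 hq'.1.2 hp'.2 (by rw [hpq]; exact hq'.2)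
    exact Prod.ext hpq this
  have hsnd : ∀ p ∈ S, ∀ q ∈ S, p.2 = q.2 → p = q := by
    intro p hp q hq hpq
    have hp' := (hS' p).1 hp
    have hq' := (hS' q).1 hq
    have := h.mK p.2 hp'.1.2 p.1 hp'.1.1 q.1 hq'.1.1 hp'.2 (by rw [hpq]; exact hq'.2)
    exact Prod.ext this hpq
  have hc1 : (S.image Prod.fst).card = r := by
    rw [Finset.card_image_of_injOn, hSr]
    intro p hp q hq hpq
    exact hfst p hp q hq hpq
  have hc2 : (S.image Prod.snd).card = r := by
    rw [Finset.card_image_of_injOn, hSr]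
    intro p hp q hq hpq
    exact hsnd p hp q hq hpq
  have hsub1 : S.image Prod.fst ⊆ L := by
    intro x hx
    obtain ⟨p, hp, rfl⟩ := Finset.mem_image.1 hx
    exact ((hS' p).1 hp).1.1
  have hsub2 : S.image Prod.snd ⊆ K := by
    intro x hx
    obtain ⟨p, hp, rfl⟩ := Finset.mem_image.1 hx
    exact ((hS' p).1 hp).1.2
  have hrl : r ≤ L.card := by
    rw [← hc1]
    exact Finset.card_le_card hsub1
  have hrm : r ≤ K.card := by
    rw [← hc2]
    exact Finset.card_le_card hsub2
  obtain ⟨f, hf1, hf2, hf3⟩ := exists_enum (L \ S.image Prod.fst)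
  obtain ⟨g, hg1, hg2, hg3⟩ := exists_enum (K \ S.image Prod.snd)
  rw [Finset.card_sdiff_of_subset hsub1, hc1] at hf1 hf2 hf3
  rw [Finset.card_sdiff_of_subset hsub2, hc2] at hg1 hg2 hg3
  -- the two halves
  let a : ℕ → W := fun i => if i < r then (s i).1 else f (i - r)
  let b : ℕ → W := fun j => if j < r then (s j).2 else g (j - r)
  have ha1 : ∀ i < r, a i = (s i).1 := fun i hi => if_pos hi
  have ha2 : ∀ i, r ≤ i → a i = f (i - r) := fun i hi => if_neg (by omega)
  have hb1 : ∀ i < r, b i = (s i).2 := fun i hi => if_pos hi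
  have hb2 : ∀ i, r ≤ i → b i = g (i - r) := fun i hi => if_neg (by omega)
  have haL : ∀ i < L.card, a i ∈ L := by
    intro i hi
    by_cases hir : i < r
    · rw [ha1 i hir]
      exact ((hS' _).1 (hs1 i hir)).1.1
    · rw [ha2 i (by omega)]
      exact (Finset.mem_sdiff.1 (hf1 (i - r) (by omega))).1
  have hbK : ∀ i < K.card, b i ∈ K := by
    intro i hi
    by_cases hir : i < r
    · rw [hb1 i hir]
      exact ((hS' _).1 (hs1 i hir)).1.2
    · rw [hb2 i (by omega)]
      exact (Finset.mem_sdiff.1 (hg1 (i - r) (by omega))).1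
  have haS : ∀ i < L.card, r ≤ i → a i ∉ S.image Prod.fst := by
    intro i hi hir
    rw [ha2 i hir]
    exact (Finset.mem_sdiff.1 (hf1 (i - r) (by omega))).2
  have hbS : ∀ i < K.card, r ≤ i → b i ∉ S.image Prod.snd := by
    intro i hi hir
    rw [hb2 i hir]
    exact (Finset.mem_sdiff.1 (hg1 (i - r) (by omega))).2
  have hainj : ∀ i < L.card, ∀ j < L.card, a i = a j → i = j := by
    intro i hi j hj hij
    by_cases hir : i < r
    · by_cases hjr : j < r
      · rw [ha1 i hir, ha1 j hjr] at hij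
        exact hs2 i hir j hjr (hfst _ (hs1 i hir) _ (hs1 j hjr) hij)
      · exfalso
        apply haS j hj (by omega)
        rw [← hij, ha1 i hir]
        exact Finset.mem_image_of_mem _ (hs1 i hir)
    · by_cases hjr : j < r
      · exfalso
        apply haS i hi (by omega)
        rw [hij, ha1 j hjr]
        exact Finset.mem_image_of_mem _ (hs1 j hjr)
      · rw [ha2 i (by omega), ha2 j (by omega)] at hij
        have := hf2 (i - r) (by omega) (j - r) (by omega) hij
        omega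
  have hbinj : ∀ i < K.card, ∀ j < K.card, b i = b j → i = j := by
    intro i hi j hj hij
    by_cases hir : i < r
    · by_cases hjr : j < r
      · rw [hb1 i hir, hb1 j hjr] at hij
        exact hs2 i hir j hjr (hsnd _ (hs1 i hir) _ (hs1 j hjr) hij)
      · exfalso
        apply hbS j hj (by omega)
        rw [← hij, hb1 i hir]
        exact Finset.mem_image_of_mem _ (hs1 i hir)
    · by_cases hjr : j < r
      · exfalso
        apply hbS i hi (by omega)
        rw [hij, hb1 j hjr]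
        exact Finset.mem_image_of_mem _ (hs1 j hjr)
      · rw [hb2 i (by omega), hb2 j (by omega)] at hij
        have := hg2 (i - r) (by omega) (j - r) (by omega) hij
        omega
  have hasurj : ∀ x ∈ L, ∃ i < L.card, a i = x := by
    intro x hx
    by_cases hxS : x ∈ S.image Prod.fst
    · obtain ⟨p, hp, hpx⟩ := Finset.mem_image.1 hxS
      obtain ⟨i, hi, hip⟩ := hs3 p hp
      exact ⟨i, by omega, by rw [ha1 i hi, hip, hpx]⟩
    · obtain ⟨i, hi, hix⟩ := hf3 x (Finset.mem_sdiff.2 ⟨hx, hxS⟩)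
      exact ⟨i + r, by omega, by rw [ha2 (i + r) (by omega), Nat.add_sub_cancel, hix]⟩
  have hbsurj : ∀ x ∈ K, ∃ i < K.card, b i = x := by
    intro x hx
    by_cases hxS : x ∈ S.image Prod.snd
    · obtain ⟨p, hp, hpx⟩ := Finset.mem_image.1 hxS
      obtain ⟨i, hi, hip⟩ := hs3 p hp
      exact ⟨i, by omega, by rw [hb1 i hi, hip, hpx]⟩
    · obtain ⟨i, hi, hix⟩ := hg3 x (Finset.mem_sdiff.2 ⟨hx, hxS⟩)
      exact ⟨i + r, by omega, by rw [hb2 (i + r) (by omega), Nat.add_sub_cancel, hix]⟩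
  let φ : ℕ → W := fun i => if i < L.card then a i else b (i - L.card)
  have hφ1 : ∀ i < L.card, φ i = a i := fun i hi => if_pos hi
  have hφ2 : ∀ j, φ (L.card + j) = b j := by
    intro j
    have : φ (L.card + j) = b (L.card + j - L.card) := if_neg (by omega)
    rw [this, Nat.add_sub_cancel_left]
  have hφ3 : ∀ i, L.card ≤ i → φ i = b (i - L.card) := fun i hi => if_neg (by omega)
  have hrd : ∀ i < L.card, ∀ j < K.card, Gr.Adj (a i) (b j) :=
    fun i hi j hj => h.rd _ (haL i hi) _ (hbK j hj)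
  refine ⟨φ, ⟨hrl, hrm, ?_, ?_, ?_, ?_, ?_, ?_, ?_, ?_, ?_, ?_⟩⟩
  · intro i hi
    rw [hφ1 i hi]
    exact haL i hi
  · intro j hj
    rw [hφ2]
    exact hbK j hj
  · intro x hx
    obtain ⟨i, hi, hix⟩ := hasurj x hx
    exact ⟨i, hi, by rw [hφ1 i hi, hix]⟩
  · intro x hx
    obtain ⟨j, hj, hjx⟩ := hbsurj x hx
    exact ⟨j, hj, by rw [hφ2, hjx]⟩
  · intro i hi j hj hij
    by_cases hil : i < L.card
    · by_cases hjl : j < L.card
      · rw [hφ1 i hil, hφ1 j hjl] at hij
        exact hainj i hil j hjl hij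
      · exfalso
        rw [hφ1 i hil, hφ3 j (by omega)] at hij
        have h1 := hrd i hil (j - L.card) (by omega)
        rw [hij] at h1
        exact Gr.irrefl h1
    · by_cases hjl : j < L.card
      · exfalso
        rw [hφ1 j hjl, hφ3 i (by omega)] at hij
        have h1 := hrd j hjl (i - L.card) (by omega)
        rw [hij] at h1
        exact Gr.irrefl h1
      · rw [hφ3 i (by omega), hφ3 j (by omega)] at hij
        have := hbinj (i - L.card) (by omega) (j - L.card) (by omega) hij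
        omega
  · intro i hi j hj hij
    rw [hφ1 i hi, hφ1 j hj]
    exact h.bl _ (haL i hi) _ (haL j hj) (fun e => hij (hainj i hi j hj e))
  · intro i hi j hj hij
    rw [hφ2, hφ2]
    exact h.bk _ (hbK i hi) _ (hbK j hj) (fun e => hij (hbinj i hi j hj e))
  · intro i hi j hj
    rw [hφ1 i hi, hφ2]
    exact hrd i hi j hj
  · intro i hi j hj hij
    rw [hφ1 i hi, hφ2]
    by_contra hnb
    have hmem : (a i, b j) ∈ S := (hS' _).2 ⟨⟨haL i hi, hbK j hj⟩, hnb⟩
    have hir : i < r := by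
      by_contra hir
      exact haS i hi (by omega) (Finset.mem_image.2 ⟨_, hmem, rfl⟩)
    rcases hij with hij | hij
    · have h1 : (a i, b j) = s i := hfst _ hmem _ (hs1 i hir) (ha1 i hir)
      have h2 : b j = b i := by
        rw [hb1 i hir, ← h1]
      exact hij (hbinj j hj i (by omega) h2).symm
    · omega
  · intro i hi
    rw [hφ1 i (by omega), hφ2, ha1 i hi, hb1 i hi]
    exact ((hS' _).1 (hs1 i hi)).2

end Pool.Agent.Lib.MP_a05470_co.Frontier
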