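import Pool.Agent.Lib.MP_a05470_co.Frontier

/-!
# The dense case contains two blue `t`-cliques joined by red edges (green outside a matching)
-/

set_option autoImplicit false

namespace Pool.Agent.Lib.MP_a05470_co.Frontier

open Finset Classical

variable {n : ℕ} {Gr Gb : SimpleGraph (Fin n)}

theorem sum_NA (G : SimpleGraph (Fin n)) (K : Finset (Fin n)) :
    ∑ v, ((NA G K v).card : ℝ) = ∑ u ∈ K, (nonadj G u : ℝ) := by
  have h1 : ∀ v, ((NA G K v).card : ℝ) = ∑ u ∈ K, if ¬ G.Adj v u then (1 : ℝ) else 0 := by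
    intro v
    unfold NA
    rw [Finset.card_filter]
    push_cast
    rfl
  have h2 : ∀ u, (nonadj G u : ℝ) = ∑ v : Fin n, if ¬ G.Adj v u then (1 : ℝ) else 0 := by
    intro u
    unfold nonadj
    rw [Finset.card_filter]
    push_cast
    apply Finset.sum_congr rfl
    intro v _
    rw [G.adj_comm]
  simp_rw [h1, h2]
  exact Finset.sum_comm

theorem cost_sum {a b d : ℝ} (hdeg : ∀ v, a * nonadj Gr v + b * nonadj Gb v ≤ d)
    (K : Finset (Fin n)) :
    ∑ v, (a * (NA Gr K v).card + b * (NA Gb K v).card) ≤ K.card * d := by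
  rw [Finset.sum_add_distrib, ← Finset.mul_sum, ← Finset.mul_sum, sum_NA, sum_NA, Finset.mul_sum,
    Finset.mul_sum, ← Finset.sum_add_distrib]
  calc ∑ u ∈ K, (a * (nonadj Gr u : ℝ) + b * (nonadj Gb u : ℝ)) ≤ ∑ _u ∈ K, d :=
        Finset.sum_le_sum (fun u _ => hdeg u)
    _ = K.card * d := by rw [Finset.sum_const, nsmul_eq_mul]

/-- a pair `(L, K)` and a weight `s` for which every vertex is expensive cannot exist -/
theorem no_cert {a b ε s : ℝ} (hε : 0 < ε) (hn : 0 < n)
    (hdeg : ∀ v, a * nonadj Gr v + b * nonadj Gb v ≤ (1 - ε) * n) (hs : 0 ≤ s)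
    (L K : Finset (Fin n)) (hK : 0 < K.card)
    (hcost : ∀ v, (K.card : ℝ) + s * L.card ≤
      a * (NA Gr K v).card + b * (NA Gb K v).card +
        s * (a * (NA Gr L v).card + b * (NA Gb L v).card)) : False := by
  have h1 := cost_sum hdeg K
  have h2 := mul_le_mul_of_nonneg_left (cost_sum hdeg L) hs
  have h3 := Finset.sum_le_sum (fun v (_ : v ∈ (Finset.univ : Finset (Fin n))) => hcost v)
  have h5 : ∑ v, (a * (NA Gr K v).card + b * (NA Gb K v).card +
        s * (a * (NA Gr L v).card + b * (NA Gb L v).card)) =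
      ∑ v, (a * (NA Gr K v).card + b * (NA Gb K v).card) +
        s * ∑ v, (a * (NA Gr L v).card + b * (NA Gb L v).card) := by
    rw [Finset.sum_add_distrib, Finset.mul_sum]
  have h6 : ∑ _v : Fin n, ((K.card : ℝ) + s * L.card) = n * ((K.card : ℝ) + s * L.card) := by
    rw [Finset.sum_const, Finset.card_univ, Fintype.card_fin, nsmul_eq_mul]
  rw [h5, h6] at h3
  have hn' : (0 : ℝ) < n := by exact_mod_cast hn
  have hK' : (0 : ℝ) < K.card := by exact_mod_cast hK
  have hL' : (0 : ℝ) ≤ s * L.card := by positivity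
  have h4 : (0 : ℝ) < ε * n * (K.card + s * L.card) := by positivity
  nlinarith

/-- sizes that occur -/
def P (Gr Gb : SimpleGraph (Fin n)) (l m : ℕ) : Prop :=
  ∃ L K : Finset (Fin n), ZS Gr Gb L K ∧ L.card = l ∧ K.card = m

theorem P.exists_min {l m : ℕ} (h : P Gr Gb l m) :
    ∃ L K : Finset (Fin n), ZS Gr Gb L K ∧ L.card = l ∧ K.card = m ∧ MinM Gr Gb L K := by
  have h' : ∃ N, ∃ L K : Finset (Fin n), ZS Gr Gb L K ∧ L.card = l ∧ K.card = m ∧
      M Gb L K = N := by
    obtain ⟨L, K, h1, h2, h3⟩ := h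
    exact ⟨_, L, K, h1, h2, h3, rfl⟩
  obtain ⟨L, K, h1, h2, h3, h4⟩ := Nat.find_spec h'
  refine ⟨L, K, h1, h2, h3, ?_⟩
  intro L' K' h5 h6 h7
  rw [h4]
  exact Nat.find_min' h' ⟨L', K', h5, by rw [h6, h2], by rw [h7, h3], rfl⟩

theorem P.mono {l m m' : ℕ} (h : P Gr Gb l m) (hm : m' ≤ m) : P Gr Gb l m' := by
  obtain ⟨L, K, h1, h2, h3⟩ := h
  obtain ⟨K', hK', hc⟩ := Finset.exists_subset_card_eq (show m' ≤ K.card by omega)
  exact ⟨L, K', h1.mono (Finset.Subset.refl _) hK', h2, hc⟩

theorem P.le {l m : ℕ} (h : P Gr Gb l m) : m ≤ n := by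
  obtain ⟨L, K, _, _, h3⟩ := h
  rw [← h3]
  simpa using Finset.card_le_univ K

/-- the parameters -/
structure Params (a b : ℝ) (t : ℕ) : Prop where
  sum : a + b = 2 * t - 1
  tb : (t : ℝ) ≤ b
  apos : 0 < a
  c1 : b ≤ a * (b - t + 1)
  c2 : b ≤ (b - a) * (b - t + 1)
  c3 : b - a ≤ (2 * a - b) * (b - t + 1)

section steps

variable {a b ε : ℝ} {t : ℕ}

/-- blue cliques -/
def BC (Gb : SimpleGraph (Fin n)) (K : Finset (Fin n)) : Prop :=
  ∀ x ∈ K, ∀ y ∈ K, x ≠ y → Gb.Adj x y

theorem exists_max_clique (Gb : SimpleGraph (Fin n)) :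
    ∃ K, BC Gb K ∧ ∀ K', BC Gb K' → K'.card ≤ K.card := by
  have hne : (Finset.univ.filter (fun K : Finset (Fin n) => BC Gb K)).Nonempty :=
    ⟨∅, by
      rw [Finset.mem_filter]
      exact ⟨Finset.mem_univ _, fun x hx => absurd hx (Finset.notMem_empty x)⟩⟩
  obtain ⟨K, hK, hmax⟩ := Finset.exists_max_image _ (fun K => K.card) hne
  refine ⟨K, (Finset.mem_filter.1 hK).2, fun K' hK' => hmax K' ?_⟩
  rw [Finset.mem_filter]
  exact ⟨Finset.mem_univ _, hK'⟩

theorem nonblue_of_max {K : Finset (Fin n)} (hK : BC Gb K)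
    (hmax : ∀ K', BC Gb K' → K'.card ≤ K.card) (v : Fin n) : 1 ≤ (NA Gb K v).card := by
  by_contra hc
  have h0 : NA Gb K v = ∅ := by
    rw [← Finset.card_eq_zero]
    omega
  have hv : v ∉ K := fun hv => Gb.irrefl (adj_of_NA_empty h0 hv)
  have h1 : BC Gb (insert v K) := by
    intro x hx y hy hxy
    rcases Finset.mem_insert.1 hx with hx' | hx'
    · rcases Finset.mem_insert.1 hy with hy' | hy'
      · exact absurd (hx'.trans hy'.symm) hxy
      · rw [hx']
        exact adj_of_NA_empty h0 hy'
    · rcases Finset.mem_insert.1 hy with hy' | hy'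
      · rw [hy']
        exact (adj_of_NA_empty h0 hx').symm
      · exact hK x hx' y hy' hxy
  have h2 := hmax _ h1
  rw [Finset.card_insert_of_notMem hv] at h2
  omega

/-- Step 1: a maximum blue clique `K` can be completed to `(L, K)` with `|L| + |K| = 2t` -/
theorem step1 (hp : Params a b t) (hε : 0 < ε) (hn : 0 < n)
    (hdeg : ∀ v, a * nonadj Gr v + b * nonadj Gb v ≤ (1 - ε) * n) {m : ℕ} (hm : b < m)
    (hP : P Gr Gb 0 m) (hmax : ∀ K, BC Gb K → K.card ≤ m) :
    ∀ l : ℕ, l + m ≤ 2 * t → P Gr Gb l m := by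
  intro l
  induction l with
  | zero => exact fun _ => hP
  | succ l ih =>
    intro hl
    have hPl := ih (by omega)
    by_contra hcon
    obtain ⟨L, K, hZ, hLc, hKc, hMin⟩ := hPl.exists_min
    have hmax' : ∀ K', BC Gb K' → K'.card ≤ K.card := fun K' hK' => by
      rw [hKc]
      exact hmax K' hK'
    have hk : ∀ L' K', ZS Gr Gb L' K' → L'.card = L.card + 1 → K'.card + 1 ≤ K.card := by
      intro L' K' h1 h2
      have h3 := hmax' K' h1.bk
      by_contra h4
      apply hcon
      exact ⟨L', K', h1, by omega, by omega⟩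
    have hsum := hp.sum
    have htb := hp.tb
    have hlm : (l : ℝ) + 1 + m ≤ 2 * t := by exact_mod_cast hl
    have hal : 0 < a - l := by linarith
    have hl0 : (0 : ℝ) ≤ l := by positivity
    set s : ℝ := (m - b) / (a - l) with hs
    have hs0 : 0 ≤ s := div_nonneg (by linarith) hal.le
    have hsd : s * (a - l) = m - b := div_mul_cancel₀ _ hal.ne'
    have hs1 : s ≤ 1 := by
      rw [hs, div_le_one hal]
      linarith
    have hab : a ≤ b := by linarith
    have hls : s * l ≤ l := by nlinarith
    refine no_cert hε hn hdeg hs0 L K ?_ ?_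
    · rw [hKc]
      have : (0 : ℝ) < m := by linarith [hp.apos]
      exact_mod_cast this
    · intro v
      rw [hKc, hLc]
      have hbK := nonblue_of_max hZ.bk hmax' v
      have hapos := hp.apos
      have hbpos : 0 < b := by linarith
      have e1 : (0 : ℝ) ≤ (NA Gr K v).card := by positivity
      have e2 : (0 : ℝ) ≤ (NA Gr L v).card := by positivity
      have e3 : (0 : ℝ) ≤ (NA Gb L v).card := by positivity
      have e4 : (1 : ℝ) ≤ (NA Gb K v).card := by exact_mod_cast hbK
      have hB : (m : ℝ) + s * l = b + s * a := by linarith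
      rw [hB]
      have hsa : s * a ≤ a := by nlinarith
      by_cases hBL : NA Gb L v = ∅
      · obtain ⟨_, h2, _⟩ := s2 hZ hMin 1 hk v hBL
        by_cases hc : (NA Gb K v).card = 1
        · rcases h2 hc with h3 | ⟨_, h3⟩
          · have h4 : (1 : ℝ) ≤ (NA Gr K v).card := by exact_mod_cast h3
            have h5 : 0 ≤ s * (a * (NA Gr L v).card + b * (NA Gb L v).card) := by positivity
            nlinarith
          · have h4 : (1 : ℝ) ≤ (NA Gr L v).card := by
              exact_mod_cast Finset.card_pos.2 h3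
            have h5 : s * a ≤ s * (a * (NA Gr L v).card + b * (NA Gb L v).card) := by
              apply mul_le_mul_of_nonneg_left _ hs0
              nlinarith
            nlinarith
        · have h4 : (2 : ℝ) ≤ (NA Gb K v).card := by
            have : 2 ≤ (NA Gb K v).card := by omega
            exact_mod_cast this
          have h5 : 0 ≤ s * (a * (NA Gr L v).card + b * (NA Gb L v).card) := by positivity
          nlinarith
      · have h4 : (1 : ℝ) ≤ (NA Gb L v).card := by
          have : 1 ≤ (NA Gb L v).card := by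
            rw [Nat.one_le_iff_ne_zero, Ne, Finset.card_eq_zero]
            exact hBL
          exact_mod_cast this
        have h5 : s * a ≤ s * (a * (NA Gr L v).card + b * (NA Gb L v).card) := by
          apply mul_le_mul_of_nonneg_left _ hs0
          nlinarith
        nlinarith

/-- Step 2: one level -/
theorem step2 (hp : Params a b t) (hε : 0 < ε) (hn : 0 < n)
    (hdeg : ∀ v, a * nonadj Gr v + b * nonadj Gb v ≤ (1 - ε) * n) {l : ℕ} (hl : l + 1 ≤ t)
    (hnext : ∀ m', P Gr Gb (l + 1) m' → m' + l + 2 ≤ 2 * t) :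
    ∀ m, P Gr Gb l m → 2 * t ≤ l + m → False := by
  intro m0 hP0 hm0
  -- the maximal `m`
  obtain ⟨m, hPm, hmm, hmaxm⟩ : ∃ m, P Gr Gb l m ∧ m0 ≤ m ∧ ∀ m', P Gr Gb l m' → m' ≤ m := by
    have hex : ∃ j, P Gr Gb l (n - j) := ⟨n - m0, by
      have := hP0.le
      rwa [Nat.sub_sub_self this]⟩
    refine ⟨n - Nat.find hex, Nat.find_spec hex, ?_, ?_⟩
    · have h1 : Nat.find hex ≤ n - m0 := Nat.find_min' hex (by
        have := hP0.le
        rwa [Nat.sub_sub_self this])
      have := hP0.le
      omega
    · intro m' hm'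
      have h1 : Nat.find hex ≤ n - m' := Nat.find_min' hex (by
        have := hm'.le
        rwa [Nat.sub_sub_self this])
      have := hm'.le
      omega
  obtain ⟨L, K, hZ, hLc, hKc, hMin⟩ := hPm.exists_min
  obtain ⟨g, hg⟩ : ∃ g, l + m = 2 * t + g := ⟨l + m - 2 * t, by omega⟩
  have hmax1 : ∀ L' K', ZS Gr Gb L' K' → L'.card = L.card → K'.card ≤ K.card := by
    intro L' K' h1 h2
    rw [hKc]
    exact hmaxm _ ⟨L', K', h1, by omega, rfl⟩
  have hk : ∀ L' K', ZS Gr Gb L' K' → L'.card = L.card + 1 → K'.card + (g + 2) ≤ K.card := by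
    intro L' K' h1 h2
    have h3 := hnext _ ⟨L', K', h1, by omega, rfl⟩
    omega
  have hsum := hp.sum
  have htb := hp.tb
  have hapos := hp.apos
  have hc1 := hp.c1
  have hc2 := hp.c2
  have hc3 := hp.c3
  have hbpos : 0 < b := by
    have : (0 : ℝ) ≤ t := by positivity
    by_contra hcon
    push Not at hcon
    nlinarith
  have hab : a ≤ b := by linarith
  have hlR : (l : ℝ) + 1 ≤ t := by exact_mod_cast hl
  have hl0 : (0 : ℝ) ≤ l := by positivity
  have hg0 : (0 : ℝ) ≤ g := by positivity
  have hgR : (l : ℝ) + m = 2 * t + g := by exact_mod_cast hg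
  have hcpos : 0 < b - t + 1 := by linarith
  have hdc : b - t + 1 ≤ b - l := by linarith
  have hdpos : 0 < b - l := by linarith
  set w : ℝ := (g + 1) / (b - l) with hw
  have hw0 : 0 ≤ w := div_nonneg (by linarith) hdpos.le
  have hwd : w * (b - l) = g + 1 := div_mul_cancel₀ _ hdpos.ne'
  have hE1 : b * w ≤ a * (g + 1) := by
    apply le_of_mul_le_mul_right _ hdpos
    have h1 : b * w * (b - l) = b * (g + 1) := by rw [mul_assoc, hwd]
    rw [h1]
    have h2 : a * (b - t + 1) ≤ a * (b - l) := mul_le_mul_of_nonneg_left hdc hapos.le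
    nlinarith
  have hE2 : b * w ≤ b - a + a * g := by
    apply le_of_mul_le_mul_right _ hdpos
    have h1 : b * w * (b - l) = b * (g + 1) := by rw [mul_assoc, hwd]
    rw [h1]
    have h2 : a * (b - t + 1) ≤ a * (b - l) := mul_le_mul_of_nonneg_left hdc hapos.le
    have h3 : (b - a) * (b - t + 1) ≤ (b - a) * (b - l) :=
      mul_le_mul_of_nonneg_left hdc (by linarith)
    nlinarith
  have h2ab : 0 ≤ 2 * a - b := by
    by_contra hcon
    push Not at hcon
    nlinarith
  have hE3 : (b - a) * w ≤ a * (g + 2) - b := by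
    apply le_of_mul_le_mul_right _ hdpos
    have h1 : (b - a) * w * (b - l) = (b - a) * (g + 1) := by rw [mul_assoc, hwd]
    rw [h1]
    have h2 : a * (b - t + 1) ≤ a * (b - l) := mul_le_mul_of_nonneg_left hdc hapos.le
    have h3 : (2 * a - b) * (b - t + 1) ≤ (2 * a - b) * (b - l) :=
      mul_le_mul_of_nonneg_left hdc h2ab
    nlinarith
  have hbw : b * w = g + 1 + w * l := by nlinarith
  have hB : (m : ℝ) + (1 + w) * l = a + b + b * w := by
    rw [hbw]
    nlinarith
  refine no_cert hε hn hdeg (show (0 : ℝ) ≤ 1 + w by linarith) L K ?_ ?_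
  · rw [hKc]
    omega
  · intro v
    rw [hKc, hLc, hB]
    have e1 : (0 : ℝ) ≤ (NA Gr K v).card := by positivity
    have e2 : (0 : ℝ) ≤ (NA Gr L v).card := by positivity
    have e3 : (0 : ℝ) ≤ (NA Gb L v).card := by positivity
    have e4 : (0 : ℝ) ≤ (NA Gb K v).card := by positivity
    have haw : 0 ≤ a * w := by positivity
    have hbw0 : 0 ≤ b * w := by positivity
    by_cases hBL : NA Gb L v = ∅
    · obtain ⟨h0, h1, h2⟩ := s2 hZ hMin (g + 2) hk v hBL
      have hLz : ((NA Gb L v).card : ℝ) = 0 := by rw [hBL]; simp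
      rw [hLz]
      by_cases hc0 : (NA Gb K v).card = 0
      · -- both empty
        have h3 : ((g : ℝ) + 2) ≤ (NA Gr K v).card := by exact_mod_cast h0 hc0
        have h4 : 1 ≤ (NA Gr L v).card := by
          rcases s1 hZ hmax1 hMin v (Finset.card_eq_zero.1 hc0) with h5 | h5 | h5
          · exact Finset.card_pos.2 h5
          · rw [hBL] at h5
            simp at h5
          · rw [hBL] at h5
            simp at h5
        have h5 : (1 : ℝ) ≤ (NA Gr L v).card := by exact_mod_cast h4
        have h6 : a * (g + 2) ≤ a * (NA Gr K v).card := mul_le_mul_of_nonneg_left h3 hapos.le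
        have h7 : (1 + w) * a ≤ (1 + w) * (a * (NA Gr L v).card) := by
          apply mul_le_mul_of_nonneg_left _ (by linarith)
          nlinarith
        have h8 : ((NA Gb K v).card : ℝ) = 0 := by exact_mod_cast hc0
        rw [h8]
        nlinarith
      · by_cases hc1 : (NA Gb K v).card = 1
        · have h8 : ((NA Gb K v).card : ℝ) = 1 := by exact_mod_cast hc1
          rw [h8]
          rcases h1 hc1 with h3 | ⟨h3, h4⟩
          · have h5 : ((g : ℝ) + 2) ≤ (NA Gr K v).card := by exact_mod_cast h3
            have h6 : a * (g + 2) ≤ a * (NA Gr K v).card := mul_le_mul_of_nonneg_left h5 hapos.le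
            have h7 : 0 ≤ (1 + w) * (a * ((NA Gr L v).card : ℝ) + b * 0) := by positivity
            nlinarith
          · have h5 : ((g : ℝ) + 2) ≤ (NA Gr K v).card + 1 := by exact_mod_cast h3
            have h6 : a * (g + 1) ≤ a * (NA Gr K v).card :=
              mul_le_mul_of_nonneg_left (by linarith) hapos.le
            have h9 : (1 : ℝ) ≤ (NA Gr L v).card := by exact_mod_cast Finset.card_pos.2 h4
            have h7 : (1 + w) * a ≤ (1 + w) * (a * (NA Gr L v).card + b * 0) := by
              apply mul_le_mul_of_nonneg_left _ (by linarith)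
              nlinarith
            nlinarith
        · have h3 : (2 : ℝ) ≤ (NA Gb K v).card := by
            have : 2 ≤ (NA Gb K v).card := by omega
            exact_mod_cast this
          have h4 : ((g : ℝ) + 2) ≤ (NA Gr K v).card + (NA Gb K v).card := by exact_mod_cast h2
          have h5 : a * (g + 2) ≤ a * ((NA Gr K v).card + (NA Gb K v).card) :=
            mul_le_mul_of_nonneg_left h4 hapos.le
          have h6 : (b - a) * 2 ≤ (b - a) * (NA Gb K v).card :=
            mul_le_mul_of_nonneg_left h3 (by linarith)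
          have h7 : 0 ≤ (1 + w) * (a * ((NA Gr L v).card : ℝ) + b * 0) := by positivity
          nlinarith
    · have hbL : (1 : ℝ) ≤ (NA Gb L v).card := by
        have : 1 ≤ (NA Gb L v).card := by
          rw [Nat.one_le_iff_ne_zero, Ne, Finset.card_eq_zero]
          exact hBL
        exact_mod_cast this
      by_cases hc0 : (NA Gb K v).card = 0
      · have h8 : ((NA Gb K v).card : ℝ) = 0 := by exact_mod_cast hc0
        rw [h8]
        rcases s1 hZ hmax1 hMin v (Finset.card_eq_zero.1 hc0) with h5 | h5 | ⟨h5, h6⟩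
        · have h9 : (1 : ℝ) ≤ (NA Gr L v).card := by exact_mod_cast Finset.card_pos.2 h5
          have h7 : (1 + w) * (a + b) ≤
              (1 + w) * (a * (NA Gr L v).card + b * (NA Gb L v).card) := by
            apply mul_le_mul_of_nonneg_left _ (by linarith)
            nlinarith
          nlinarith
        · have h9 : (2 : ℝ) ≤ (NA Gb L v).card := by exact_mod_cast h5
          have h7 : (1 + w) * (a + b) ≤
              (1 + w) * (a * (NA Gr L v).card + b * (NA Gb L v).card) := by
            apply mul_le_mul_of_nonneg_left _ (by linarith)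
            nlinarith
          nlinarith
        · have h9 : (1 : ℝ) ≤ (NA Gr K v).card := by exact_mod_cast Finset.card_pos.2 h6
          have h7 : (1 + w) * b ≤
              (1 + w) * (a * (NA Gr L v).card + b * (NA Gb L v).card) := by
            apply mul_le_mul_of_nonneg_left _ (by linarith)
            nlinarith
          nlinarith
      · have hbK : (1 : ℝ) ≤ (NA Gb K v).card := by
          have : 1 ≤ (NA Gb K v).card := by omega
          exact_mod_cast this
        have h7 : (1 + w) * b ≤
            (1 + w) * (a * (NA Gr L v).card + b * (NA Gb L v).card) := by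
          apply mul_le_mul_of_nonneg_left _ (by linarith)
          nlinarith
        nlinarith

/-- **Main theorem.** -/
theorem exists_Z (hp : Params a b t) (hε : 0 < ε) (hn : 0 < n)
    (hdeg : ∀ v, a * nonadj Gr v + b * nonadj Gb v ≤ (1 - ε) * n) :
    ∃ L K : Finset (Fin n), ZS Gr Gb L K ∧ L.card = t ∧ K.card = t := by
  by_contra hcon
  have hsum := hp.sum
  have htb := hp.tb
  have hapos := hp.apos
  have hbpos : 0 < b := by
    have : (0 : ℝ) ≤ t := by positivity
    have hc1 := hp.c1
    by_contra hcon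
    push Not at hcon
    nlinarith
  have hno : ∀ m, t ≤ m → ¬ P Gr Gb t m := by
    intro m hm hP
    obtain ⟨L, K, h1, h2, h3⟩ := hP.mono hm
    exact hcon ⟨L, K, h1, h2, h3⟩
  -- all levels
  have hlev : ∀ j l : ℕ, l + 1 + j = t → ∀ m, P Gr Gb l m → 2 * t ≤ l + m → False := by
    intro j
    induction j with
    | zero =>
      intro l hl
      apply step2 hp hε hn hdeg (by omega)
      intro m' hm'
      by_contra h1
      exact hno m' (by omega) (by
        have : l + 1 = t := by omega
        rwa [this] at hm')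
    | succ j ih =>
      intro l hl
      apply step2 hp hε hn hdeg (by omega)
      intro m' hm'
      by_contra h1
      exact ih (l + 1) (by omega) m' hm' (by omega)
  obtain ⟨K, hK, hmax⟩ := exists_max_clique Gb
  have hKpos : 0 < K.card := by
    have h1 : BC Gb {(⟨0, hn⟩ : Fin n)} := by
      intro x hx y hy hxy
      rw [Finset.mem_singleton] at hx hy
      exact absurd (hx.trans hy.symm) hxy
    have := hmax _ h1
    simpa using this
  have hbK : b < K.card := by
    by_contra hc
    push Not at hc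
    refine no_cert hε hn hdeg (le_refl (0 : ℝ)) ∅ K hKpos ?_
    intro v
    have h1 : (1 : ℝ) ≤ (NA Gb K v).card := by exact_mod_cast nonblue_of_max hK hmax v
    have e1 : (0 : ℝ) ≤ (NA Gr K v).card := by positivity
    have h2 : 0 ≤ a * ((NA Gr K v).card : ℝ) := by positivity
    nlinarith
  have hP0 : P Gr Gb 0 K.card := by
    refine ⟨∅, K, ⟨by simp, hK, by simp, by simp, by simp⟩, rfl, rfl⟩
  have htK : t + 1 ≤ K.card := by
    have : (t : ℝ) < K.card := by linarith
    exact_mod_cast this
  have ht1 : 1 ≤ t := by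
    by_contra hc
    have : t = 0 := by omega
    subst this
    push_cast at hsum
    linarith
  by_cases hbig : 2 * t ≤ K.card
  · exact hlev (t - 1) 0 (by omega) K.card hP0 (by omega)
  · have h1 := step1 hp hε hn hdeg hbK hP0 hmax (2 * t - K.card) (by omega)
    exact hlev (K.card - t - 1) (2 * t - K.card) (by omega) K.card h1 (by omega)

end steps

end Pool.Agent.Lib.MP_a05470_co.Frontier
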