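import Pool.Agent.Lib.MP_a05470_co.FrontierMain

/-!
# Graphs of order 12 and 14: one additional vertex
-/

set_option autoImplicit false

namespace Pool.Agent.Lib.MP_a05470_co.Frontier

open Finset Classical

section gen

variable {W : Type} {Gr Gb : SimpleGraph W} {L K L' K' : Finset W}

theorem M_eq_sumK (Gb : SimpleGraph W) (L K : Finset W) :
    M Gb L K = ∑ u ∈ K, (NA Gb L u).card := by
  unfold M NA
  rw [Finset.card_filter, Finset.sum_product_right]
  apply Finset.sum_congr rfl
  intro u _
  rw [Finset.card_filter]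
  apply Finset.sum_congr rfl
  intro x _
  rw [Gb.adj_comm]

theorem M_eq_sumL (Gb : SimpleGraph W) (L K : Finset W) :
    M Gb L K = ∑ u ∈ L, (NA Gb K u).card := by
  unfold M NA
  rw [Finset.card_filter, Finset.sum_product]
  apply Finset.sum_congr rfl
  intro u _
  rw [Finset.card_filter]

theorem M_insertK {v : W} (hv : v ∉ K) :
    M Gb L (insert v K) = M Gb L K + (NA Gb L v).card := by
  rw [M_eq_sumK, M_eq_sumK, Finset.sum_insert hv, add_comm]

theorem M_insertL {v : W} (hv : v ∉ L) :
    M Gb (insert v L) K = M Gb L K + (NA Gb K v).card := by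
  rw [M_eq_sumL, M_eq_sumL, Finset.sum_insert hv, add_comm]

theorem M_eraseK {x : W} (hx : x ∈ K) :
    M Gb L (K.erase x) + (NA Gb L x).card = M Gb L K := by
  rw [M_eq_sumK, M_eq_sumK, Finset.sum_erase_add _ _ hx]

theorem M_eraseL {x : W} (hx : x ∈ L) :
    M Gb (L.erase x) K + (NA Gb K x).card = M Gb L K := by
  rw [M_eq_sumL, M_eq_sumL, Finset.sum_erase_add _ _ hx]

/-- (S1), refined: the only vertex of `L` not blue to `v` is matched -/
theorem s1_matched (h : ZS Gr Gb L K) (hM : MinM Gr Gb L K) {v y z : W}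
    (hBK : NA Gb K v = ∅) (hBL : NA Gb L v = {y}) (hz : z ∈ K) (hyz : ¬ Gb.Adj y z) :
    (NA Gr K v).Nonempty := by
  by_contra hcon
  rw [Finset.not_nonempty_iff_eq_empty] at hcon
  have hy : y ∈ L := (mem_NA.1 (by rw [hBL]; simp : y ∈ NA Gb L v)).1
  have hbK : ∀ x ∈ K, Gb.Adj v x := fun x hx => adj_of_NA_empty hBK hx
  have hrK : ∀ x ∈ K, Gr.Adj v x := fun x hx => adj_of_NA_empty hcon hx
  have hbL : ∀ x ∈ L, x ≠ y → Gb.Adj v x := by
    intro x hx hxy
    by_contra hc
    have h1 : x ∈ NA Gb L v := mem_NA.2 ⟨hx, hc⟩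
    rw [hBL, Finset.mem_singleton] at h1
    exact hxy h1
  have hvL : v ∉ L := by
    intro hv
    have h1 : v ∈ NA Gb L v := self_mem_NA hv
    rw [hBL, Finset.mem_singleton] at h1
    rw [← h1] at hyz
    exact hyz (hbK z hz)
  have hZ : ZS Gr Gb (insert v (L.erase y)) K :=
    (h.mono (Finset.erase_subset _ _) (Finset.Subset.refl K)).insertL
      (fun x hx => hbL x (Finset.mem_of_mem_erase hx) (Finset.ne_of_mem_erase hx)) hrK
      (fun x hx _ _ h1 _ => absurd (hbK x hx) h1) (fun x hx h1 => absurd (hbK x hx) h1)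
  have h1 := hM _ _ hZ (card_swap hy hvL) rfl
  have h2 := M_swapL (v := v) hy hz hyz hbK
  omega

/-- (S1), refined: the only vertex of `L` not blue to `v` is not matched -/
theorem s1_unmatched (h : ZS Gr Gb L K)
    (hmax : ∀ L' K', ZS Gr Gb L' K' → L'.card = L.card → K'.card ≤ K.card) {v y : W}
    (hBK : NA Gb K v = ∅) (hBL : NA Gb L v = {y}) (hy : ∀ z ∈ K, Gb.Adj y z) :
    (NA Gr L v).Nonempty := by
  by_contra hcon
  rw [Finset.not_nonempty_iff_eq_empty] at hcon
  have hbK : ∀ x ∈ K, Gb.Adj v x := fun x hx => adj_of_NA_empty hBK hx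
  have hrL : ∀ x ∈ L, Gr.Adj v x := fun x hx => adj_of_NA_empty hcon hx
  have hvK : v ∉ K := fun hv => Gb.irrefl (hbK v hv)
  have heq : ∀ x ∈ L, ¬ Gb.Adj v x → x = y := by
    intro x hx hc
    have h1 : x ∈ NA Gb L v := mem_NA.2 ⟨hx, hc⟩
    rw [hBL, Finset.mem_singleton] at h1
    exact h1
  have h1 := hmax _ _ (h.insertK hbK hrL
    (fun x hx x' hx' h1 h2 => (heq x hx h1).trans (heq x' hx' h2).symm)
    (fun x hx h1 z hz => by rw [heq x hx h1]; exact hy z hz)) rfl
  rw [Finset.card_insert_of_notMem hvK] at h1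
  omega

/-- (S2), refined -/
theorem s2_two (h : ZS Gr Gb L K) (k : ℕ)
    (hk : ∀ L' K', ZS Gr Gb L' K' → L'.card = L.card + 1 → K'.card + k ≤ K.card)
    (v : W) (hBL : NA Gb L v = ∅) (h2 : (NA Gb K v).card = 2) :
    k + 1 ≤ (NA Gr K v).card + (NA Gb K v).card ∨
      ∃ x1 x2 y1 y2, x1 ≠ x2 ∧ NA Gb K v = {x1, x2} ∧ y1 ∈ L ∧ y2 ∈ L ∧ ¬ Gb.Adj y1 x1 ∧
        ¬ Gb.Adj y2 x2 := by
  obtain ⟨x1, x2, hne, hBK⟩ := Finset.card_eq_two.1 h2
  have hbL : ∀ x ∈ L, Gb.Adj v x := fun x hx => adj_of_NA_empty hBL hx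
  have hvL : v ∉ L := fun hv => Gb.irrefl (hbL v hv)
  have hun : k ≤ (NA Gr K v ∪ NA Gb K v).card := by
    have hZ : ZS Gr Gb (insert v L) (K.filter (fun u => Gr.Adj v u ∧ Gb.Adj v u)) := by
      apply (h.mono (Finset.Subset.refl L) (Finset.filter_subset _ K)).insertL hbL
      · intro x hx
        exact (Finset.mem_filter.1 hx).2.1
      · intro x hx _ _ h1 _
        exact absurd (Finset.mem_filter.1 hx).2.2 h1
      · intro x hx h1
        exact absurd (Finset.mem_filter.1 hx).2.2 h1
    have h1 := hk _ _ hZ (Finset.card_insert_of_notMem hvL)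
    have h2 := card_green Gr Gb K v
    omega
  -- an unmatched or a doubly missing vertex
  have key : ∀ x ∈ NA Gb K v, (¬ ∃ y ∈ L, ¬ Gb.Adj y x) →
      k + 1 ≤ (NA Gr K v).card + (NA Gb K v).card := by
    intro x hx hy
    push Not at hy
    have hxK := (mem_NA.1 hx).1
    have hxb := (mem_NA.1 hx).2
    by_cases hxr : Gr.Adj v x
    · have hZ : ZS Gr Gb (insert v L)
          (K.filter (fun u => (Gr.Adj v u ∧ Gb.Adj v u) ∨ u = x)) := by
        have hu : ∀ u ∈ K.filter (fun u => (Gr.Adj v u ∧ Gb.Adj v u) ∨ u = x),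
            ¬ Gb.Adj v u → u = x := by
          intro u hu h3
          rcases (Finset.mem_filter.1 hu).2 with h4 | h4
          · exact absurd h4.2 h3
          · exact h4
        apply (h.mono (Finset.Subset.refl L) (Finset.filter_subset _ K)).insertL hbL
        · intro u hu'
          rcases (Finset.mem_filter.1 hu').2 with h4 | h4
          · exact h4.1
          · rw [h4]; exact hxr
        · intro u hu1 u' hu2 h3 h4
          exact (hu u hu1 h3).trans (hu u' hu2 h4).symm
        · intro u hu1 h3 z hz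
          rw [hu u hu1 h3]
          exact (hy z hz).symm
      have h3 := hk _ _ hZ (Finset.card_insert_of_notMem hvL)
      have h4 : K.filter (fun u => (Gr.Adj v u ∧ Gb.Adj v u) ∨ u = x) =
          insert x (K.filter (fun u => Gr.Adj v u ∧ Gb.Adj v u)) := by
        ext u
        simp only [Finset.mem_filter, Finset.mem_insert]
        constructor
        · rintro ⟨h5, h6 | h6⟩
          · exact Or.inr ⟨h5, h6⟩
          · exact Or.inl h6
        · rintro (h5 | ⟨h5, h6⟩)
          · exact ⟨by rw [h5]; exact hxK, Or.inr h5⟩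
          · exact ⟨h5, Or.inl h6⟩
      rw [h4, Finset.card_insert_of_notMem (fun h5 => hxb (Finset.mem_filter.1 h5).2.2)] at h3
      have h5 := card_green Gr Gb K v
      have h6 := Finset.card_union_le (NA Gr K v) (NA Gb K v)
      omega
    · have hx' : x ∈ NA Gr K v := mem_NA.2 ⟨hxK, hxr⟩
      have h3 := Finset.card_union_add_card_inter (NA Gr K v) (NA Gb K v)
      have h4 : 0 < (NA Gr K v ∩ NA Gb K v).card :=
        Finset.card_pos.2 ⟨x, Finset.mem_inter.2 ⟨hx', hx⟩⟩
      omega
  by_cases h1 : ∃ y ∈ L, ¬ Gb.Adj y x1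
  · by_cases h3 : ∃ y ∈ L, ¬ Gb.Adj y x2
    · right
      obtain ⟨y1, hy1, hxy1⟩ := h1
      obtain ⟨y2, hy2, hxy2⟩ := h3
      exact ⟨x1, x2, y1, y2, hne, hBK, hy1, hy2, hxy1, hxy2⟩
    · left
      exact key x2 (by rw [hBK]; simp) h3
  · left
    exact key x1 (by rw [hBK]; simp) h1

/-- a vertex which is red-only to two matched vertices of `K` -/
structure QV (Gr Gb : SimpleGraph W) (L K : Finset W) (g : ℕ) (v0 x1 x2 y1 y2 : W) : Prop where
  bl : NA Gb L v0 = ∅
  nl : NA Gr L v0 = ∅
  bk : NA Gb K v0 = {x1, x2}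
  ne : x1 ≠ x2
  y1L : y1 ∈ L
  y2L : y2 ∈ L
  m1 : ¬ Gb.Adj y1 x1
  m2 : ¬ Gb.Adj y2 x2
  nk : (NA Gr K v0).card ≤ g

variable {g : ℕ} {v0 x1 x2 y1 y2 : W}

theorem QV.x1K (q : QV Gr Gb L K g v0 x1 x2 y1 y2) : x1 ∈ K :=
  (mem_NA.1 (by rw [q.bk]; simp : x1 ∈ NA Gb K v0)).1

theorem QV.x2K (q : QV Gr Gb L K g v0 x1 x2 y1 y2) : x2 ∈ K :=
  (mem_NA.1 (by rw [q.bk]; simp : x2 ∈ NA Gb K v0)).1

theorem QV.symm (q : QV Gr Gb L K g v0 x1 x2 y1 y2) : QV Gr Gb L K g v0 x2 x1 y2 y1 where
  bl := q.bl
  nl := q.nl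
  bk := by rw [q.bk, Finset.pair_comm]
  ne := q.ne.symm
  y1L := q.y2L
  y2L := q.y1L
  m1 := q.m2
  m2 := q.m1
  nk := q.nk

theorem QV.v0L (q : QV Gr Gb L K g v0 x1 x2 y1 y2) : v0 ∉ L := fun hv =>
  Gb.irrefl (adj_of_NA_empty q.bl hv)

theorem QV.v0K (q : QV Gr Gb L K g v0 x1 x2 y1 y2) : v0 ∉ K := by
  intro hv
  have h1 : v0 ∈ NA Gb K v0 := self_mem_NA hv
  rw [q.bk, Finset.mem_insert, Finset.mem_singleton] at h1
  rcases h1 with h1 | h1
  · have := q.m1
    rw [← h1] at this
    exact this (adj_of_NA_empty q.bl q.y1L).symm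
  · have := q.m2
    rw [← h1] at this
    exact this (adj_of_NA_empty q.bl q.y2L).symm

theorem QV.y_ne (h : ZS Gr Gb L K) (q : QV Gr Gb L K g v0 x1 x2 y1 y2) : y1 ≠ y2 := by
  intro he
  have h1 := q.m2
  rw [← he] at h1
  exact q.ne (h.mL y1 q.y1L x1 q.x1K x2 q.x2K q.m1 h1)

theorem QV.blue (q : QV Gr Gb L K g v0 x1 x2 y1 y2) {u : W} (hu : u ∈ K) (h1 : u ≠ x1)
    (h2 : u ≠ x2) : Gb.Adj v0 u := by
  by_contra hc
  have h3 : u ∈ NA Gb K v0 := mem_NA.2 ⟨hu, hc⟩
  rw [q.bk, Finset.mem_insert, Finset.mem_singleton] at h3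
  rcases h3 with h3 | h3
  · exact h1 h3
  · exact h2 h3

/-- first exchange -/
theorem QV.claimA (h : ZS Gr Gb L K) (hM : MinM Gr Gb L K)
    (hk : ∀ L' K', ZS Gr Gb L' K' → L'.card = L.card + 1 → K'.card + (g + 2) ≤ K.card)
    (q : QV Gr Gb L K g v0 x1 x2 y1 y2) {v : W} (hBK : NA Gb K v = ∅) (hNL : NA Gr L v = ∅)
    (hBL : NA Gb L v = {y1}) : ¬ Gb.Adj v v0 := by
  intro hvv
  have hbK : ∀ x ∈ K, Gb.Adj v x := fun x hx => adj_of_NA_empty hBK hx
  have hrL : ∀ x ∈ L, Gr.Adj v x := fun x hx => adj_of_NA_empty hNL hx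
  have hvK : v ∉ K := fun hv => Gb.irrefl (hbK v hv)
  have heq : ∀ x ∈ L, ¬ Gb.Adj v x → x = y1 := by
    intro x hx hc
    have h1 : x ∈ NA Gb L v := mem_NA.2 ⟨hx, hc⟩
    rw [hBL, Finset.mem_singleton] at h1
    exact h1
  have hZ : ZS Gr Gb L (insert v (K.erase x1)) := by
    apply (h.mono (Finset.Subset.refl L) (Finset.erase_subset _ _)).insertK
      (fun u hu => hbK u (Finset.mem_of_mem_erase hu)) hrL
      (fun x hx x' hx' h1 h2 => (heq x hx h1).trans (heq x' hx' h2).symm)
    intro x hx h1 z hz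
    rw [heq x hx h1]
    by_contra hc
    exact (Finset.ne_of_mem_erase hz)
      (h.mL y1 q.y1L z (Finset.mem_of_mem_erase hz) x1 q.x1K hc q.m1)
  have hcard : (insert v (K.erase x1)).card = K.card := card_swap q.x1K hvK
  have hMle : M Gb L (insert v (K.erase x1)) ≤ M Gb L K := by
    rw [M_insertK (fun hv => hvK (Finset.mem_of_mem_erase hv)), ← M_eraseK (L := L) q.x1K, hBL,
      Finset.card_singleton]
    have h1 : 0 < (NA Gb L x1).card :=
      Finset.card_pos.2 ⟨y1, mem_NA.2 ⟨q.y1L, fun e => q.m1 e.symm⟩⟩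
    omega
  have hM' : MinM Gr Gb L (insert v (K.erase x1)) := by
    intro L' K' h1 h2 h3
    exact hMle.trans (hM L' K' h1 h2 (h3.trans hcard))
  have hk' : ∀ L' K', ZS Gr Gb L' K' → L'.card = L.card + 1 →
      K'.card + (g + 2) ≤ (insert v (K.erase x1)).card := by
    intro L' K' h1 h2
    rw [hcard]
    exact hk L' K' h1 h2
  have hBK' : NA Gb (insert v (K.erase x1)) v0 = {x2} := by
    ext u
    rw [mem_NA, Finset.mem_insert, Finset.mem_erase, Finset.mem_singleton]
    constructor
    · rintro ⟨h1 | h1, h2⟩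
      · rw [h1] at h2
        exact absurd hvv.symm h2
      · by_contra h3
        exact h2 (q.blue h1.2 h1.1 h3)
    · intro h1
      rw [h1]
      exact ⟨Or.inr ⟨q.ne.symm, q.x2K⟩,
        (mem_NA.1 (by rw [q.bk]; simp : x2 ∈ NA Gb K v0)).2⟩
  have hNK' : (NA Gr (insert v (K.erase x1)) v0).card ≤ g + 1 := by
    have h1 : NA Gr (insert v (K.erase x1)) v0 ⊆ insert v (NA Gr K v0) := by
      intro u hu
      rw [mem_NA, Finset.mem_insert, Finset.mem_erase] at hu
      rw [Finset.mem_insert, mem_NA]
      rcases hu with ⟨h1 | h1, h2⟩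
      · exact Or.inl h1
      · exact Or.inr ⟨h1.2, h2⟩
    have h2 := Finset.card_le_card h1
    have h3 := Finset.card_insert_le v (NA Gr K v0)
    have h4 := q.nk
    omega
  obtain ⟨_, h2, _⟩ := s2 hZ hM' (g + 2) hk' v0 q.bl
  rcases h2 (by rw [hBK']; simp) with h3 | ⟨_, h3⟩
  · omega
  · rw [q.nl] at h3
    simp at h3

/-- second exchange -/
theorem QV.claimB (h : ZS Gr Gb L K) (hM : MinM Gr Gb L K)
    (q : QV Gr Gb L K 0 v0 x1 x2 y1 y2) {v : W} (hBK : NA Gb K v = ∅) (hBL : NA Gb L v = ∅)
    (hNL : NA Gr L v = {y1}) (hr : Gr.Adj v v0) (hb : Gb.Adj v v0) : False := by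
  have hNK : NA Gr K v0 = ∅ := Finset.card_eq_zero.1 (Nat.le_zero.1 q.nk)
  have hbK : ∀ x ∈ K, Gb.Adj v x := fun x hx => adj_of_NA_empty hBK hx
  have hbL : ∀ x ∈ L, Gb.Adj v x := fun x hx => adj_of_NA_empty hBL hx
  have hvK : v ∉ K := fun hv => Gb.irrefl (hbK v hv)
  have hrL : ∀ x ∈ L.erase y1, Gr.Adj v x := by
    intro x hx
    by_contra hc
    have h1 : x ∈ NA Gr L v := mem_NA.2 ⟨Finset.mem_of_mem_erase hx, hc⟩
    rw [hNL, Finset.mem_singleton] at h1
    exact (Finset.ne_of_mem_erase hx) h1
  have hZ1 : ZS Gr Gb (L.erase y1) (insert v (K.erase x2)) := by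
    apply (h.mono (Finset.erase_subset _ _) (Finset.erase_subset _ _)).insertK
      (fun u hu => hbK u (Finset.mem_of_mem_erase hu)) hrL
      (fun x hx _ _ h1 _ => absurd (hbL x (Finset.mem_of_mem_erase hx)) h1)
      (fun x hx h1 => absurd (hbL x (Finset.mem_of_mem_erase hx)) h1)
  have heq : ∀ u ∈ insert v (K.erase x2), ¬ Gb.Adj v0 u → u = x1 := by
    intro u hu h1
    rw [Finset.mem_insert, Finset.mem_erase] at hu
    rcases hu with h2 | h2
    · rw [h2] at h1
      exact absurd hb.symm h1
    · by_contra h3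
      exact h1 (q.blue h2.2 h3 h2.1)
  have hZ : ZS Gr Gb (insert v0 (L.erase y1)) (insert v (K.erase x2)) := by
    apply hZ1.insertL
    · intro x hx
      exact adj_of_NA_empty q.bl (Finset.mem_of_mem_erase hx)
    · intro u hu
      rw [Finset.mem_insert, Finset.mem_erase] at hu
      rcases hu with h2 | h2
      · rw [h2]
        exact hr.symm
      · exact adj_of_NA_empty hNK h2.2
    · intro u hu u' hu' h1 h2
      exact (heq u hu h1).trans (heq u' hu' h2).symm
    · intro u hu h1 z hz
      rw [heq u hu h1]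
      by_contra hc
      exact (Finset.ne_of_mem_erase hz)
        (h.mK x1 q.x1K z (Finset.mem_of_mem_erase hz) y1 q.y1L (fun e => hc e.symm) q.m1)
  have hc1 : (insert v0 (L.erase y1)).card = L.card := card_swap q.y1L q.v0L
  have hc2 : (insert v (K.erase x2)).card = K.card := card_swap q.x2K hvK
  have h1 := hM _ _ hZ hc1 hc2
  have h2 : M Gb (insert v0 (L.erase y1)) (insert v (K.erase x2)) ≤
      M Gb (L.erase y1) (K.erase x2) + 1 := by
    rw [M_insertL (fun hv => q.v0L (Finset.mem_of_mem_erase hv)),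
      M_insertK (fun hv => hvK (Finset.mem_of_mem_erase hv))]
    have h3 : (NA Gb (L.erase y1) v).card = 0 := by
      rw [Finset.card_eq_zero]
      apply Finset.eq_empty_of_forall_notMem
      intro x hx
      rw [mem_NA] at hx
      exact hx.2 (hbL x (Finset.mem_of_mem_erase hx.1))
    have h4 : (NA Gb (insert v (K.erase x2)) v0).card ≤ 1 := by
      rw [Finset.card_le_one]
      intro u hu u' hu'
      rw [mem_NA] at hu hu'
      exact (heq u hu.1 hu.2).trans (heq u' hu'.1 hu'.2).symm
    omega
  have h3 : M Gb (L.erase y1) (K.erase x2) + 2 ≤ M Gb L K := by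
    rw [← M_eraseL (K := K) q.y1L, ← M_eraseK (L := L.erase y1) q.x2K]
    have h4 : 0 < (NA Gb K y1).card := Finset.card_pos.2 ⟨x1, mem_NA.2 ⟨q.x1K, q.m1⟩⟩
    have h5 : 0 < (NA Gb (L.erase y1) x2).card :=
      Finset.card_pos.2 ⟨y2, mem_NA.2 ⟨Finset.mem_erase.2 ⟨(q.y_ne h).symm, q.y2L⟩,
        fun e => q.m2 e.symm⟩⟩
    omega
  omega

end gen

section main

variable {n : ℕ} {Gr Gb : SimpleGraph (Fin n)}

/-- the cost of `v` in `K` -/
noncomputable def cost (a b : ℝ) (Gr Gb : SimpleGraph (Fin n)) (K : Finset (Fin n)) (v : Fin n) :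
    ℝ := a * (NA Gr K v).card + b * (NA Gb K v).card

theorem no_cert4 {a b ε s1 s2 ω : ℝ} (hε : 0 < ε) (hn : 0 < n)
    (hdeg : ∀ v, a * nonadj Gr v + b * nonadj Gb v ≤ (1 - ε) * n) (hs1 : 0 ≤ s1) (hs2 : 0 ≤ s2)
    (hω : 0 ≤ ω) (K L1 L2 V : Finset (Fin n)) (hK : 0 < K.card)
    (hcost : ∀ v, (K.card : ℝ) + s1 * L1.card + s2 * L2.card + ω * V.card ≤
      cost a b Gr Gb K v + s1 * cost a b Gr Gb L1 v + s2 * cost a b Gr Gb L2 v +
        ω * cost a b Gr Gb V v) : False := by
  have h1 := cost_sum hdeg K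
  have h2 := mul_le_mul_of_nonneg_left (cost_sum hdeg L1) hs1
  have h2' := mul_le_mul_of_nonneg_left (cost_sum hdeg L2) hs2
  have h2'' := mul_le_mul_of_nonneg_left (cost_sum hdeg V) hω
  have h3 := Finset.sum_le_sum (fun v (_ : v ∈ (Finset.univ : Finset (Fin n))) => hcost v)
  have h5 : ∑ v, (cost a b Gr Gb K v + s1 * cost a b Gr Gb L1 v + s2 * cost a b Gr Gb L2 v +
        ω * cost a b Gr Gb V v) =
      ∑ v, cost a b Gr Gb K v + s1 * ∑ v, cost a b Gr Gb L1 v + s2 * ∑ v, cost a b Gr Gb L2 v +
        ω * ∑ v, cost a b Gr Gb V v := by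
    simp only [Finset.sum_add_distrib, Finset.mul_sum]
  have h6 : ∑ _v : Fin n, ((K.card : ℝ) + s1 * L1.card + s2 * L2.card + ω * V.card) =
      n * ((K.card : ℝ) + s1 * L1.card + s2 * L2.card + ω * V.card) := by
    rw [Finset.sum_const, Finset.card_univ, Fintype.card_fin, nsmul_eq_mul]
  rw [h5, h6] at h3
  unfold cost at h3
  have hn' : (0 : ℝ) < n := by exact_mod_cast hn
  have hK' : (0 : ℝ) < K.card := by exact_mod_cast hK
  have e1 : (0 : ℝ) ≤ s1 * L1.card := by positivity
  have e2 : (0 : ℝ) ≤ s2 * L2.card := by positivity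
  have e3 : (0 : ℝ) ≤ ω * V.card := by positivity
  have h4 : (0 : ℝ) < ε * n * (K.card + s1 * L1.card + s2 * L2.card + ω * V.card) := by positivity
  nlinarith

theorem cost_nonneg {a b : ℝ} (ha : 0 ≤ a) (hb : 0 ≤ b) (K : Finset (Fin n)) (v : Fin n) :
    0 ≤ cost a b Gr Gb K v := by
  unfold cost
  positivity

theorem NA_union {G : SimpleGraph (Fin n)} {L1 L2 : Finset (Fin n)} (v : Fin n)
    (hd : Disjoint L1 L2) :
    (NA G (L1 ∪ L2) v).card = (NA G L1 v).card + (NA G L2 v).card := by
  unfold NA
  rw [Finset.filter_union, Finset.card_union_of_disjoint]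
  exact hd.mono (Finset.filter_subset _ _) (Finset.filter_subset _ _)

theorem cost_union {a b : ℝ} {L1 L2 : Finset (Fin n)} (v : Fin n) (hd : Disjoint L1 L2) :
    cost a b Gr Gb (L1 ∪ L2) v = cost a b Gr Gb L1 v + cost a b Gr Gb L2 v := by
  unfold cost
  rw [NA_union v hd, NA_union v hd]
  push_cast
  ring

/-- the inequalities for the weights with an additional vertex: `l`, `m` are the sizes -/
structure BP (a b s0 s s' ω : ℝ) (l m g : ℕ) : Prop where
  apos : 0 < a
  ab : a ≤ b
  b2a : b ≤ 2 * a
  fs0 : 1 ≤ s0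
  i1 : m + l * s0 ≤ b + b * s0
  i3 : m + l * s0 ≤ b * s0 + a
  i4 : m + l * s0 ≤ b + (g + 2) * a
  i6 : m + l * s0 ≤ 3 * b + (g - 1) * a
  i7 : m + l * s0 ≤ (g + 2) * a + a * s0
  fs' : 1 ≤ s'
  fω : 0 ≤ ω
  ss : s = s' + ω
  j0 : m + (l - 2) * s + 2 * s' + ω ≤ 2 * b + g * a
  j2 : 2 * b + g * a ≤ b + b * s'
  j3 : 2 * b + g * a ≤ b * s + a
  j4 : 2 * b + g * a ≤ (g + 2) * a + a * s
  j5 : g = 0 ∨ 2 * b + g * a ≤ (g + 2) * a + a * s'

/-- no vertex of type `QV` -/
theorem caseII {a b s0 s s' ω ε : ℝ} {l m g : ℕ} (hp : BP a b s0 s s' ω l m g) (hε : 0 < ε)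
    (hn : 0 < n) (hdeg : ∀ v, a * nonadj Gr v + b * nonadj Gb v ≤ (1 - ε) * n)
    {L K : Finset (Fin n)} (hZ : ZS Gr Gb L K) (hLc : L.card = l) (hKc : K.card = m)
    (hMin : MinM Gr Gb L K) (hKpos : 0 < m)
    (hmax1 : ∀ L' K', ZS Gr Gb L' K' → L'.card = L.card → K'.card ≤ K.card)
    (hk : ∀ L' K', ZS Gr Gb L' K' → L'.card = L.card + 1 → K'.card + (g + 2) ≤ K.card)
    (hno : ¬ ∃ v0 x1 x2 y1 y2, QV Gr Gb L K g v0 x1 x2 y1 y2) : False := by
  have hapos := hp.apos
  have hab := hp.ab
  have hs0 := hp.fs0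
  have hbpos : 0 < b := by linarith
  have hg0 : (0 : ℝ) ≤ g := by positivity
  refine no_cert hε hn hdeg (show (0 : ℝ) ≤ s0 by linarith) L K (by rw [hKc]; exact hKpos) ?_
  intro v
  rw [hKc, hLc, mul_comm s0]
  have i1 := hp.i1
  have i3 := hp.i3
  have i4 := hp.i4
  have i6 := hp.i6
  have i7 := hp.i7
  set W0 : ℝ := m + l * s0
  have e1 : (0 : ℝ) ≤ (NA Gr K v).card := by positivity
  have e2 : (0 : ℝ) ≤ (NA Gr L v).card := by positivity
  have e3 : (0 : ℝ) ≤ (NA Gb L v).card := by positivity
  have e4 : (0 : ℝ) ≤ (NA Gb K v).card := by positivity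
  have f1 : 0 ≤ a * ((NA Gr K v).card : ℝ) := by positivity
  have f2 : 0 ≤ s0 * (a * ((NA Gr L v).card : ℝ)) := by positivity
  by_cases hBL : NA Gb L v = ∅
  · obtain ⟨h0, h1, h2⟩ := s2 hZ hMin (g + 2) hk v hBL
    have hLz : ((NA Gb L v).card : ℝ) = 0 := by rw [hBL]; simp
    rw [hLz]
    by_cases hc0 : (NA Gb K v).card = 0
    · have h3 : ((g : ℝ) + 2) ≤ (NA Gr K v).card := by exact_mod_cast h0 hc0
      have h4 : 1 ≤ (NA Gr L v).card := by
        rcases s1 hZ hmax1 hMin v (Finset.card_eq_zero.1 hc0) with h5 | h5 | h5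
        · exact Finset.card_pos.2 h5
        · rw [hBL] at h5
          simp at h5
        · rw [hBL] at h5
          simp at h5
      have h5 : (1 : ℝ) ≤ (NA Gr L v).card := by exact_mod_cast h4
      have h6 : a * (g + 2) ≤ a * (NA Gr K v).card := mul_le_mul_of_nonneg_left h3 hapos.le
      have h7 : s0 * a ≤ s0 * (a * (NA Gr L v).card) := by
        apply mul_le_mul_of_nonneg_left _ (by linarith)
        nlinarith
      have h8 : ((NA Gb K v).card : ℝ) = 0 := by exact_mod_cast hc0
      rw [h8]
      nlinarith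
    · by_cases hc1 : (NA Gb K v).card = 1
      · have h8 : ((NA Gb K v).card : ℝ) = 1 := by exact_mod_cast hc1
        rw [h8]
        rcases h1 hc1 with h3 | ⟨h3, h4⟩
        · have h5 : ((g : ℝ) + 2) ≤ (NA Gr K v).card := by exact_mod_cast h3
          have h6 : a * (g + 2) ≤ a * (NA Gr K v).card := mul_le_mul_of_nonneg_left h5 hapos.le
          nlinarith
        · have h5 : ((g : ℝ) + 2) ≤ (NA Gr K v).card + 1 := by exact_mod_cast h3
          have h6 : a * (g + 1) ≤ a * (NA Gr K v).card :=
            mul_le_mul_of_nonneg_left (by linarith) hapos.le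
          have h9 : (1 : ℝ) ≤ (NA Gr L v).card := by exact_mod_cast Finset.card_pos.2 h4
          have h7 : 1 * a ≤ s0 * (a * (NA Gr L v).card) := by
            apply mul_le_mul hs0 _ hapos.le (by linarith)
            nlinarith
          nlinarith
      · by_cases hc2 : (NA Gb K v).card = 2
        · have h8 : ((NA Gb K v).card : ℝ) = 2 := by exact_mod_cast hc2
          have h10 : ((g : ℝ) + 3) ≤ (NA Gr K v).card + (NA Gb K v).card ∨
              ((g : ℝ) + 2 ≤ (NA Gr K v).card + (NA Gb K v).card ∧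
                (1 : ℝ) ≤ (NA Gr L v).card) := by
            by_cases hNL : (NA Gr L v).Nonempty
            · right
              exact ⟨by exact_mod_cast h2, by exact_mod_cast Finset.card_pos.2 hNL⟩
            · left
              rw [Finset.not_nonempty_iff_eq_empty] at hNL
              have h11 : g + 3 ≤ (NA Gr K v).card + (NA Gb K v).card := by
                rcases s2_two hZ (g + 2) hk v hBL hc2 with h11 | h11
                · omega
                · obtain ⟨x1, x2, y1, y2, g1, g2, g3, g4, g5, g6⟩ := h11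
                  by_contra hcon
                  exact hno ⟨v, x1, x2, y1, y2, hBL, hNL, g2, g1, g3, g4, g5, g6, by omega⟩
              exact_mod_cast h11
          rw [h8] at h10 ⊢
          rcases h10 with h10 | ⟨h10, h11⟩
          · have h6 : a * (g + 1) ≤ a * (NA Gr K v).card :=
              mul_le_mul_of_nonneg_left (by linarith) hapos.le
            nlinarith
          · have h6 : a * g ≤ a * (NA Gr K v).card :=
              mul_le_mul_of_nonneg_left (by linarith) hapos.le
            have h7 : 1 * a ≤ s0 * (a * (NA Gr L v).card) := by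
              apply mul_le_mul hs0 _ hapos.le (by linarith)
              nlinarith
            nlinarith
        · have h3 : (3 : ℝ) ≤ (NA Gb K v).card := by
            have : 3 ≤ (NA Gb K v).card := by omega
            exact_mod_cast this
          have h4 : ((g : ℝ) + 2) ≤ (NA Gr K v).card + (NA Gb K v).card := by exact_mod_cast h2
          have h5 : a * (g + 2) ≤ a * ((NA Gr K v).card + (NA Gb K v).card) :=
            mul_le_mul_of_nonneg_left h4 hapos.le
          have h6 : (b - a) * 3 ≤ (b - a) * (NA Gb K v).card :=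
            mul_le_mul_of_nonneg_left h3 (by linarith)
          nlinarith
  · have hbL : (1 : ℝ) ≤ (NA Gb L v).card := by
      have : 1 ≤ (NA Gb L v).card := by
        rw [Nat.one_le_iff_ne_zero, Ne, Finset.card_eq_zero]
        exact hBL
      exact_mod_cast this
    by_cases hc0 : (NA Gb K v).card = 0
    · have h8 : ((NA Gb K v).card : ℝ) = 0 := by exact_mod_cast hc0
      rw [h8]
      rcases s1 hZ hmax1 hMin v (Finset.card_eq_zero.1 hc0) with h5 | h5 | ⟨h5, h6⟩
      · have h9 : (1 : ℝ) ≤ (NA Gr L v).card := by exact_mod_cast Finset.card_pos.2 h5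
        have h7 : s0 * (a + b) ≤
            s0 * (a * (NA Gr L v).card + b * (NA Gb L v).card) := by
          apply mul_le_mul_of_nonneg_left _ (by linarith)
          nlinarith
        nlinarith
      · have h9 : (2 : ℝ) ≤ (NA Gb L v).card := by exact_mod_cast h5
        have h7 : s0 * (b + b) ≤
            s0 * (a * (NA Gr L v).card + b * (NA Gb L v).card) := by
          apply mul_le_mul_of_nonneg_left _ (by linarith)
          nlinarith
        nlinarith
      · have h9 : (1 : ℝ) ≤ (NA Gr K v).card := by exact_mod_cast Finset.card_pos.2 h6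
        have h7 : s0 * b ≤
            s0 * (a * (NA Gr L v).card + b * (NA Gb L v).card) := by
          apply mul_le_mul_of_nonneg_left _ (by linarith)
          nlinarith
        nlinarith
    · have hbK : (1 : ℝ) ≤ (NA Gb K v).card := by
        have : 1 ≤ (NA Gb K v).card := by omega
        exact_mod_cast this
      have h7 : s0 * b ≤
          s0 * (a * (NA Gr L v).card + b * (NA Gb L v).card) := by
        apply mul_le_mul_of_nonneg_left _ (by linarith)
        nlinarith
      nlinarith

/-- a vertex of type `QV` exists -/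
theorem caseI {a b s0 s s' ω ε : ℝ} {l m g : ℕ} (hp : BP a b s0 s s' ω l m g) (hε : 0 < ε)
    (hn : 0 < n) (hdeg : ∀ v, a * nonadj Gr v + b * nonadj Gb v ≤ (1 - ε) * n)
    {L K : Finset (Fin n)} (hZ : ZS Gr Gb L K) (hLc : L.card = l) (hKc : K.card = m)
    (hMin : MinM Gr Gb L K) (hKpos : 0 < m)
    (hmax1 : ∀ L' K', ZS Gr Gb L' K' → L'.card = L.card → K'.card ≤ K.card)
    (hk : ∀ L' K', ZS Gr Gb L' K' → L'.card = L.card + 1 → K'.card + (g + 2) ≤ K.card)
    {v0 x1 x2 y1 y2 : Fin n} (q : QV Gr Gb L K g v0 x1 x2 y1 y2) : False := by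
  have hapos := hp.apos
  have hab := hp.ab
  have hb2a := hp.b2a
  have hs' := hp.fs'
  have hω := hp.fω
  have hss := hp.ss
  have hbpos : 0 < b := by linarith
  have hspos : 0 ≤ s := by linarith
  have hs's : s' ≤ s := by linarith
  have hg0 : (0 : ℝ) ≤ g := by positivity
  have hyne : y1 ≠ y2 := q.y_ne hZ
  have hsub : ({y1, y2} : Finset (Fin n)) ⊆ L := by
    intro x hx
    rw [Finset.mem_insert, Finset.mem_singleton] at hx
    rcases hx with hx | hx
    · rw [hx]; exact q.y1L
    · rw [hx]; exact q.y2L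
  have hL2c : ({y1, y2} : Finset (Fin n)).card = 2 := Finset.card_pair hyne
  have hL1c : (L \ {y1, y2}).card + 2 = l := by
    rw [← hL2c, Finset.card_sdiff_add_card_eq_card hsub, hLc]
  have hd : Disjoint (L \ {y1, y2}) ({y1, y2} : Finset (Fin n)) := Finset.sdiff_disjoint
  have hun : (L \ {y1, y2}) ∪ {y1, y2} = L := Finset.sdiff_union_of_subset hsub
  refine no_cert4 hε hn hdeg hspos (show (0 : ℝ) ≤ s' by linarith) hω K (L \ {y1, y2})
    {y1, y2} {v0} (by rw [hKc]; exact hKpos) ?_
  intro v
  have hL1R : ((L \ {y1, y2}).card : ℝ) = l - 2 := by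
    have : ((L \ {y1, y2}).card : ℝ) + 2 = l := by exact_mod_cast hL1c
    linarith
  rw [hKc, hL1R, hL2c, Finset.card_singleton]
  have j0 := hp.j0
  have j2 := hp.j2
  have j3 := hp.j3
  have j4 := hp.j4
  have hgoal : 2 * b + g * a ≤ cost a b Gr Gb K v + s * cost a b Gr Gb (L \ {y1, y2}) v +
      s' * cost a b Gr Gb {y1, y2} v + ω * cost a b Gr Gb {v0} v := by
    have eNL : (NA Gr L v).card = (NA Gr (L \ {y1, y2}) v).card + (NA Gr {y1, y2} v).card := by
      rw [← NA_union v hd, hun]
    have eBL : (NA Gb L v).card = (NA Gb (L \ {y1, y2}) v).card + (NA Gb {y1, y2} v).card := by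
      rw [← NA_union v hd, hun]
    have eNLR : ((NA Gr L v).card : ℝ) =
        (NA Gr (L \ {y1, y2}) v).card + (NA Gr {y1, y2} v).card := by exact_mod_cast eNL
    have eBLR : ((NA Gb L v).card : ℝ) =
        (NA Gb (L \ {y1, y2}) v).card + (NA Gb {y1, y2} v).card := by exact_mod_cast eBL
    have hV0 : 0 ≤ ω * cost a b Gr Gb {v0} v :=
      mul_nonneg hω (cost_nonneg hapos.le hbpos.le _ _)
    have hc1 : 0 ≤ cost a b Gr Gb (L \ {y1, y2}) v := cost_nonneg hapos.le hbpos.le _ _
    -- lower bound by the whole of `L`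
    have hlow : s' * (a * (NA Gr L v).card + b * (NA Gb L v).card) ≤
        s * cost a b Gr Gb (L \ {y1, y2}) v + s' * cost a b Gr Gb {y1, y2} v := by
      have h1 : a * ((NA Gr L v).card : ℝ) + b * (NA Gb L v).card =
          cost a b Gr Gb (L \ {y1, y2}) v + cost a b Gr Gb {y1, y2} v := by
        unfold cost
        rw [eNLR, eBLR]
        ring
      rw [h1]
      nlinarith
    have hKd : cost a b Gr Gb K v = a * (NA Gr K v).card + b * (NA Gb K v).card := rfl
    have e1 : (0 : ℝ) ≤ (NA Gr K v).card := by positivity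
    have e2 : (0 : ℝ) ≤ (NA Gr L v).card := by positivity
    have e3 : (0 : ℝ) ≤ (NA Gb L v).card := by positivity
    have e4 : (0 : ℝ) ≤ (NA Gb K v).card := by positivity
    have f1 : 0 ≤ a * ((NA Gr K v).card : ℝ) := by positivity
    have f2 : 0 ≤ a * ((NA Gr L v).card : ℝ) := by positivity
    have f3 : 0 ≤ b * ((NA Gb L v).card : ℝ) := by positivity
    have f4 : 0 ≤ b * ((NA Gb K v).card : ℝ) := by positivity
    have hlow1 : a * (NA Gr L v).card + b * (NA Gb L v).card ≤
        s' * (a * (NA Gr L v).card + b * (NA Gb L v).card) := by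
      nlinarith
    by_cases hBL : NA Gb L v = ∅
    · obtain ⟨h0, h1, h2⟩ := s2 hZ hMin (g + 2) hk v hBL
      have hLz : ((NA Gb L v).card : ℝ) = 0 := by rw [hBL]; simp
      by_cases hc0 : (NA Gb K v).card = 0
      · have h3 : ((g : ℝ) + 2) ≤ (NA Gr K v).card := by exact_mod_cast h0 hc0
        have h6 : a * (g + 2) ≤ a * (NA Gr K v).card := mul_le_mul_of_nonneg_left h3 hapos.le
        have h4 : (NA Gr L v).Nonempty := by
          rcases s1 hZ hmax1 hMin v (Finset.card_eq_zero.1 hc0) with h5 | h5 | h5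
          · exact h5
          · rw [hBL] at h5
            simp at h5
          · rw [hBL] at h5
            simp at h5
        by_cases hNL2 : 2 ≤ (NA Gr L v).card
        · have h5 : (2 : ℝ) ≤ (NA Gr L v).card := by exact_mod_cast hNL2
          have h7 : a * 2 ≤ a * (NA Gr L v).card := mul_le_mul_of_nonneg_left h5 hapos.le
          nlinarith
        · have h5 : (NA Gr L v).card = 1 := by
            have := Finset.card_pos.2 h4
            omega
          by_cases hN1 : 1 ≤ (NA Gr (L \ {y1, y2}) v).card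
          · have h7 : (1 : ℝ) ≤ (NA Gr (L \ {y1, y2}) v).card := by exact_mod_cast hN1
            have h8 : a ≤ cost a b Gr Gb (L \ {y1, y2}) v := by
              unfold cost
              have h9 : (0 : ℝ) ≤ b * (NA Gb (L \ {y1, y2}) v).card := by positivity
              nlinarith
            have h9 : s * a ≤ s * cost a b Gr Gb (L \ {y1, y2}) v :=
              mul_le_mul_of_nonneg_left h8 hspos
            have h10 : 0 ≤ s' * cost a b Gr Gb {y1, y2} v :=
              mul_nonneg (by linarith) (cost_nonneg hapos.le hbpos.le _ _)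
            nlinarith
          · have h7 : (1 : ℝ) ≤ (NA Gr L v).card := by
              have : 1 ≤ (NA Gr L v).card := by omega
              exact_mod_cast this
            have h7' : s' * a ≤ s' * (a * (NA Gr L v).card + b * (NA Gb L v).card) := by
              apply mul_le_mul_of_nonneg_left _ (by linarith)
              nlinarith
            rcases hp.j5 with hg | j5
            · -- the vertex is not green to `v0`
              have h8 : a ≤ cost a b Gr Gb {v0} v := by
                obtain ⟨y, hy⟩ := Finset.card_eq_one.1 h5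
                have hyL : y ∈ L := (mem_NA.1 (by rw [hy]; simp : y ∈ NA Gr L v)).1
                have hyr : ¬ Gr.Adj v y := (mem_NA.1 (by rw [hy]; simp : y ∈ NA Gr L v)).2
                have hy12 : y = y1 ∨ y = y2 := by
                  by_contra hc
                  push Not at hc
                  apply hN1
                  apply Finset.card_pos.2
                  exact ⟨y, mem_NA.2 ⟨Finset.mem_sdiff.2 ⟨hyL, by
                    rw [Finset.mem_insert, Finset.mem_singleton]
                    push Not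
                    exact hc⟩, hyr⟩⟩
                have hnot : ¬ (Gr.Adj v v0 ∧ Gb.Adj v v0) := by
                  rintro ⟨hr, hb⟩
                  subst hg
                  rcases hy12 with h9 | h9
                  · rw [h9] at hy
                    exact q.claimB hZ hMin (Finset.card_eq_zero.1 hc0) hBL hy hr hb
                  · rw [h9] at hy
                    exact q.symm.claimB hZ hMin (Finset.card_eq_zero.1 hc0) hBL hy hr hb
                unfold cost
                by_cases hr : Gr.Adj v v0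
                · have hb : v0 ∈ NA Gb {v0} v :=
                    mem_NA.2 ⟨Finset.mem_singleton_self v0, fun hb => hnot ⟨hr, hb⟩⟩
                  have h9 : (1 : ℝ) ≤ (NA Gb {v0} v).card := by
                    exact_mod_cast Finset.card_pos.2 ⟨v0, hb⟩
                  have h10 : (0 : ℝ) ≤ a * (NA Gr {v0} v).card := by positivity
                  nlinarith
                · have hb : v0 ∈ NA Gr {v0} v := mem_NA.2 ⟨Finset.mem_singleton_self v0, hr⟩
                  have h9 : (1 : ℝ) ≤ (NA Gr {v0} v).card := by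
                    exact_mod_cast Finset.card_pos.2 ⟨v0, hb⟩
                  have h10 : (0 : ℝ) ≤ b * (NA Gb {v0} v).card := by positivity
                  nlinarith
              have h9 : ω * a ≤ ω * cost a b Gr Gb {v0} v := mul_le_mul_of_nonneg_left h8 hω
              have h10 : s * a = s' * a + ω * a := by rw [hss]; ring
              nlinarith
            · nlinarith
      · by_cases hc1' : (NA Gb K v).card = 1
        · have h8 : ((NA Gb K v).card : ℝ) = 1 := by exact_mod_cast hc1'
          rcases h1 hc1' with h3 | ⟨h3, h4⟩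
          · have h5 : ((g : ℝ) + 2) ≤ (NA Gr K v).card := by exact_mod_cast h3
            have h6 : a * (g + 2) ≤ a * (NA Gr K v).card := mul_le_mul_of_nonneg_left h5 hapos.le
            rw [hKd, h8]
            nlinarith
          · have h5 : ((g : ℝ) + 2) ≤ (NA Gr K v).card + 1 := by exact_mod_cast h3
            have h6 : a * (g + 1) ≤ a * (NA Gr K v).card :=
              mul_le_mul_of_nonneg_left (by linarith) hapos.le
            have h9 : (1 : ℝ) ≤ (NA Gr L v).card := by exact_mod_cast Finset.card_pos.2 h4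
            have h7 : a * 1 ≤ a * (NA Gr L v).card := mul_le_mul_of_nonneg_left h9 hapos.le
            rw [hKd, h8]
            nlinarith
        · have h3 : (2 : ℝ) ≤ (NA Gb K v).card := by
            have : 2 ≤ (NA Gb K v).card := by omega
            exact_mod_cast this
          have h4 : ((g : ℝ) + 2) ≤ (NA Gr K v).card + (NA Gb K v).card := by exact_mod_cast h2
          have h5 : a * (g + 2) ≤ a * ((NA Gr K v).card + (NA Gb K v).card) :=
            mul_le_mul_of_nonneg_left h4 hapos.le
          have h6 : (b - a) * 2 ≤ (b - a) * (NA Gb K v).card :=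
            mul_le_mul_of_nonneg_left h3 (by linarith)
          nlinarith
    · have hbL1 : 1 ≤ (NA Gb L v).card := by
        rw [Nat.one_le_iff_ne_zero, Ne, Finset.card_eq_zero]
        exact hBL
      have hbL : (1 : ℝ) ≤ (NA Gb L v).card := by exact_mod_cast hbL1
      by_cases hc0 : (NA Gb K v).card = 0
      · have hBK : NA Gb K v = ∅ := Finset.card_eq_zero.1 hc0
        by_cases hB2 : 2 ≤ (NA Gb L v).card
        · have h9 : (2 : ℝ) ≤ (NA Gb L v).card := by exact_mod_cast hB2
          have h7 : s' * (b * 2) ≤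
              s' * (a * (NA Gr L v).card + b * (NA Gb L v).card) := by
            apply mul_le_mul_of_nonneg_left _ (by linarith)
            nlinarith
          nlinarith
        · obtain ⟨y, hy⟩ := Finset.card_eq_one.1 (show (NA Gb L v).card = 1 by omega)
          have hyL : y ∈ L := (mem_NA.1 (by rw [hy]; simp : y ∈ NA Gb L v)).1
          have hyb : ¬ Gb.Adj v y := (mem_NA.1 (by rw [hy]; simp : y ∈ NA Gb L v)).2
          -- if `y` is in the large part then `s b` is paid
          have hL1 : y ≠ y1 → y ≠ y2 → s * b + s' * (a * (NA Gr L v).card) ≤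
              s * cost a b Gr Gb (L \ {y1, y2}) v + s' * cost a b Gr Gb {y1, y2} v := by
            intro g1 g2
            have h3 : 1 ≤ (NA Gb (L \ {y1, y2}) v).card := by
              apply Finset.card_pos.2
              exact ⟨y, mem_NA.2 ⟨Finset.mem_sdiff.2 ⟨hyL, by
                rw [Finset.mem_insert, Finset.mem_singleton]
                push Not
                exact ⟨g1, g2⟩⟩, hyb⟩⟩
            have h4 : (1 : ℝ) ≤ (NA Gb (L \ {y1, y2}) v).card := by exact_mod_cast h3
            have h5 : s * b ≤ s * (b * (NA Gb (L \ {y1, y2}) v).card) := by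
              apply mul_le_mul_of_nonneg_left _ hspos
              nlinarith
            have h6 : 0 ≤ s' * (b * ((NA Gb {y1, y2} v).card : ℝ)) := by positivity
            have h7 : s' * (a * (NA Gr (L \ {y1, y2}) v).card) ≤
                s * (a * (NA Gr (L \ {y1, y2}) v).card) := by
              apply mul_le_mul_of_nonneg_right hs's
              positivity
            unfold cost
            rw [eNLR]
            nlinarith
          by_cases hmat : ∃ z ∈ K, ¬ Gb.Adj y z
          · obtain ⟨z, hz, hyz⟩ := hmat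
            have h3 := s1_matched hZ hMin hBK hy hz hyz
            have h4 : (1 : ℝ) ≤ (NA Gr K v).card := by exact_mod_cast Finset.card_pos.2 h3
            have h5 : a * 1 ≤ a * (NA Gr K v).card := mul_le_mul_of_nonneg_left h4 hapos.le
            by_cases hNL : (NA Gr L v).Nonempty
            · have h6 : (1 : ℝ) ≤ (NA Gr L v).card := by exact_mod_cast Finset.card_pos.2 hNL
              have h7 : s' * (a + b) ≤
                  s' * (a * (NA Gr L v).card + b * (NA Gb L v).card) := by
                apply mul_le_mul_of_nonneg_left _ (by linarith)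
                nlinarith
              nlinarith
            · rw [Finset.not_nonempty_iff_eq_empty] at hNL
              have hbig : y ≠ y1 → y ≠ y2 → 2 * b + g * a ≤ cost a b Gr Gb K v +
                  s * cost a b Gr Gb (L \ {y1, y2}) v +
                  s' * cost a b Gr Gb {y1, y2} v + ω * cost a b Gr Gb {v0} v := by
                intro g1 g2
                have h8 := hL1 g1 g2
                have h9 : 0 ≤ s' * (a * ((NA Gr L v).card : ℝ)) := by positivity
                nlinarith
              have hsmall : ¬ Gb.Adj v v0 → 2 * b + g * a ≤ cost a b Gr Gb K v +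
                  s * cost a b Gr Gb (L \ {y1, y2}) v +
                  s' * cost a b Gr Gb {y1, y2} v + ω * cost a b Gr Gb {v0} v := by
                intro hb
                have hb' : v0 ∈ NA Gb {v0} v := mem_NA.2 ⟨Finset.mem_singleton_self v0, hb⟩
                have h9 : (1 : ℝ) ≤ (NA Gb {v0} v).card := by
                  exact_mod_cast Finset.card_pos.2 ⟨v0, hb'⟩
                have h10 : b ≤ cost a b Gr Gb {v0} v := by
                  unfold cost
                  have h11 : (0 : ℝ) ≤ a * (NA Gr {v0} v).card := by positivity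
                  nlinarith
                have h11 : ω * b ≤ ω * cost a b Gr Gb {v0} v := mul_le_mul_of_nonneg_left h10 hω
                have h12 : s' * b ≤ s' * (a * (NA Gr L v).card + b * (NA Gb L v).card) := by
                  apply mul_le_mul_of_nonneg_left _ (by linarith)
                  nlinarith
                have h13 : s * b = s' * b + ω * b := by rw [hss]; ring
                nlinarith
              by_cases g1 : y = y1
              · rw [g1] at hy
                exact hsmall (q.claimA hZ hMin hk hBK hNL hy)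
              · by_cases g2 : y = y2
                · rw [g2] at hy
                  exact hsmall (q.symm.claimA hZ hMin hk hBK hNL hy)
                · exact hbig g1 g2
          · push Not at hmat
            have h3 := s1_unmatched hZ hmax1 hBK hy hmat
            have h4 : (1 : ℝ) ≤ (NA Gr L v).card := by exact_mod_cast Finset.card_pos.2 h3
            have g1 : y ≠ y1 := fun e => q.m1 (by rw [← e]; exact hmat x1 q.x1K)
            have g2 : y ≠ y2 := fun e => q.m2 (by rw [← e]; exact hmat x2 q.x2K)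
            have h5 := hL1 g1 g2
            have h6 : 1 * a ≤ s' * (a * (NA Gr L v).card) := by
              apply mul_le_mul hs' _ hapos.le (by linarith)
              nlinarith
            nlinarith
      · have hbK : (1 : ℝ) ≤ (NA Gb K v).card := by
          have : 1 ≤ (NA Gb K v).card := by omega
          exact_mod_cast this
        have h7 : s' * b ≤
            s' * (a * (NA Gr L v).card + b * (NA Gb L v).card) := by
          apply mul_le_mul_of_nonneg_left _ (by linarith)
          nlinarith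
        nlinarith
  refine le_trans ?_ hgoal
  push_cast
  linarith

/-- a state which is excluded with an additional vertex -/
theorem stateB {a b s0 s s' ω ε : ℝ} {l m g : ℕ} (hp : BP a b s0 s s' ω l m g) (hε : 0 < ε)
    (hn : 0 < n) (hdeg : ∀ v, a * nonadj Gr v + b * nonadj Gb v ≤ (1 - ε) * n)
    {L K : Finset (Fin n)} (hZ : ZS Gr Gb L K) (hLc : L.card = l) (hKc : K.card = m)
    (hMin : MinM Gr Gb L K) (hKpos : 0 < m)
    (hmax1 : ∀ L' K', ZS Gr Gb L' K' → L'.card = L.card → K'.card ≤ K.card)
    (hk : ∀ L' K', ZS Gr Gb L' K' → L'.card = L.card + 1 → K'.card + (g + 2) ≤ K.card) :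
    False := by
  by_cases h : ∃ v0 x1 x2 y1 y2, QV Gr Gb L K g v0 x1 x2 y1 y2
  · obtain ⟨v0, x1, x2, y1, y2, q⟩ := h
    exact caseI hp hε hn hdeg hZ hLc hKc hMin hKpos hmax1 hk q
  · exact caseII hp hε hn hdeg hZ hLc hKc hMin hKpos hmax1 hk h

end main

end Pool.Agent.Lib.MP_a05470_co.Frontier
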