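import Pool.Agent.Lib.MP_a05470_co.JForces

/-!
# Deleting vertices, crowns and critical rests: bounds for all `H`
-/

set_option autoImplicit false
set_option linter.unusedSectionVars false

namespace Pool.Agent.Lib.MP_a05470_co

open Finset Classical

theorem forces_mono {V : Type} {Hr Hb : SimpleGraph V} {a b a' b' : ℝ} (ha : a ≤ a') (hb : b ≤ b')
    (h : Forces a b Hr Hb) : Forces a' b' Hr Hb := by
  intro ε hε
  obtain ⟨N, hN⟩ := h ε hε
  refine ⟨N, fun n hn Gr Gb hG => hN n hn Gr Gb (fun v => ?_)⟩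
  have h1 := hG v
  have h2 : (0 : ℝ) ≤ nonadj Gr v := by positivity
  have h3 : (0 : ℝ) ≤ nonadj Gb v := by positivity
  nlinarith [mul_le_mul_of_nonneg_right ha h2, mul_le_mul_of_nonneg_right hb h3]

/-- adding an arbitrary vertex -/
theorem forces_vertex {V V' : Type} {Hr Hb : SimpleGraph V} {a b : ℝ} (ha : 0 ≤ a)
    (hb : 0 ≤ b) (e : V' → V) (v : V) (he : ∀ x, x = v ∨ ∃ i, x = e i)
    (hev : ∀ i, e i ≠ v) (hei : Function.Injective e)
    (hF : Forces a b (Hr.comap e) (Hb.comap e)) : Forces (a + 1) (b + 1) Hr Hb := by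
  intro ε hε
  obtain ⟨N, hN⟩ := hF ε hε
  refine ⟨⌈(N + 1 : ℝ) / ε⌉₊ + 1, ?_⟩
  intro n hn Gr Gb hG
  have hn1 : 0 < n := by omega
  have : Nonempty (Fin n) := ⟨⟨0, hn1⟩⟩
  have hn0 : (0 : ℝ) < n := by exact_mod_cast hn1
  obtain ⟨w, _, hw⟩ := Finset.exists_min_image (Finset.univ : Finset (Fin n))
    (fun u => nonadj Gr u + nonadj Gb u) Finset.univ_nonempty
  set S := Finset.univ.filter (fun u => Gr.Adj w u ∧ Gb.Adj w u) with hS
  have hScard : n ≤ S.card + (nonadj Gr w + nonadj Gb w) := by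
    have h1 : (univ : Finset (Fin n)) ⊆ S ∪ (univ.filter (fun u => ¬ Gr.Adj w u) ∪
        univ.filter (fun u => ¬ Gb.Adj w u)) := by
      intro u _
      rw [hS, mem_union, mem_union, mem_filter, mem_filter, mem_filter]
      by_cases h1 : Gr.Adj w u <;> by_cases h2 : Gb.Adj w u <;> simp [h1, h2]
    have h2 := card_le_card h1
    have h3 := card_union_le S (univ.filter (fun u => ¬ Gr.Adj w u) ∪
        univ.filter (fun u => ¬ Gb.Adj w u))
    have h4 := card_union_le (univ.filter (fun u => ¬ Gr.Adj w u))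
        (univ.filter (fun u => ¬ Gb.Adj w u))
    rw [card_univ, Fintype.card_fin] at h2
    unfold nonadj
    omega
  set D : ℝ := nonadj Gr w + nonadj Gb w with hD
  have hScardR : (n : ℝ) - D ≤ S.card := by
    have : (n : ℝ) ≤ (S.card + (nonadj Gr w + nonadj Gb w) : ℕ) := by exact_mod_cast hScard
    push_cast at this
    linarith
  have hDn : D ≤ (1 - ε) * n := by
    have h1 := hG w
    have h2 : (0 : ℝ) ≤ nonadj Gr w := by positivity
    have h3 : (0 : ℝ) ≤ nonadj Gb w := by positivity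
    nlinarith [mul_nonneg ha h2, mul_nonneg hb h3]
  have hD0 : 0 ≤ D := by positivity
  have hε1 : 0 ≤ 1 - ε := by
    by_contra hcon
    push Not at hcon
    nlinarith
  have hSbig : N ≤ S.card := by
    have h1 : ε * n ≤ S.card := by linarith
    have h2 : (N + 1 : ℝ) / ε ≤ n := by
      have h3 : ((⌈(N + 1 : ℝ) / ε⌉₊ + 1 : ℕ) : ℝ) ≤ n := by exact_mod_cast hn
      have h4 := Nat.le_ceil ((N + 1 : ℝ) / ε)
      push_cast at h3
      linarith
    have h3 : (N + 1 : ℝ) ≤ ε * n := by
      rw [div_le_iff₀ hε] at h2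
      linarith
    have h4 : (N : ℝ) ≤ S.card := by linarith
    exact_mod_cast h4
  obtain ⟨f, hf, hfS, hh⟩ := contains_of_subset (Gr := Gr) (Gb := Gb) ha hb S hN hSbig (by
    intro u _
    have h1 := hG u
    have h2 : D ≤ nonadj Gr u + nonadj Gb u := by
      rw [hD]
      exact_mod_cast hw u (Finset.mem_univ u)
    have h4 : a * nonadj Gr u + b * nonadj Gb u ≤ (1 - ε) * n - D := by linarith
    have h5 : (1 - ε) * ((n : ℝ) - D) ≤ (1 - ε) * S.card := mul_le_mul_of_nonneg_left hScardR hε1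
    nlinarith [mul_nonneg hε.le hD0])
  have hadj : ∀ x, Gr.Adj w (f x) ∧ Gb.Adj w (f x) := by
    intro x
    have h1 := hfS x
    rw [hS, Finset.mem_filter] at h1
    exact h1.2
  have hne : ∀ x, w ≠ f x := fun x => (hadj x).1.ne
  exact contains_insert e v he hev hei w f hf hne hh
    (fun x => ⟨fun _ => (hadj x).1, fun _ => (hadj x).2⟩)

/-! ### Forces for the induced subgraphs -/

/-- the induced subgraph of `H` on `Y` is forced -/
def FF {V : Type} (a b : ℝ) (H : SimpleGraph V) (Y : Finset V) : Prop :=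
  Forces a b (H.comap (Subtype.val : {v // v ∈ Y} → V)) (H.comap (Subtype.val : {v // v ∈ Y} → V))ᶜ

theorem compl_comap {V V' : Type} (H : SimpleGraph V) (e : V' → V) (he : Function.Injective e) :
    (H.comap e)ᶜ = Hᶜ.comap e := by
  ext u v
  rw [SimpleGraph.compl_adj, SimpleGraph.comap_adj, SimpleGraph.comap_adj, SimpleGraph.compl_adj]
  exact ⟨fun h => ⟨fun h' => h.1 (he h'), h.2⟩, fun h => ⟨fun h' => h.1 (congrArg e h'), h.2⟩⟩

section

variable {V : Type} {H : SimpleGraph V}

theorem FF.mono {a b a' b' : ℝ} {Y : Finset V} (h : FF a b H Y) (ha : a ≤ a') (hb : b ≤ b') :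
    FF a' b' H Y := forces_mono ha hb h

theorem FF.toForces [Fintype V] {a b : ℝ} (h : FF a b H univ) : Forces a b H Hᶜ :=
  forces_congr' (Equiv.subtypeUnivEquiv (fun x => mem_univ x)) (fun _ _ => Iff.rfl) h

theorem FF.add {a b : ℝ} {Y : Finset V} (h : FF a b H Y) (ha : 0 ≤ a) (hb : 0 ≤ b) {z : V}
    (hz : z ∉ Y) : FF (a + 1) (b + 1) H (insert z Y) := by
  unfold FF at h ⊢
  refine forces_vertex ha hb
    (fun i : {v // v ∈ Y} => (⟨i.1, mem_insert_of_mem i.2⟩ : {v // v ∈ insert z Y}))
    ⟨z, mem_insert_self z Y⟩ ?_ ?_ ?_ ?_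
  · rintro ⟨x, hx⟩
    rcases mem_insert.1 hx with rfl | hx'
    · exact Or.inl rfl
    · exact Or.inr ⟨⟨x, hx'⟩, rfl⟩
  · rintro ⟨x, hx⟩ h1
    have h2 : x = z := congrArg Subtype.val h1
    exact hz (h2 ▸ hx)
  · intro i j hij
    exact Subtype.ext (Subtype.mk.inj hij)
  · rw [compl_comap _ _ Subtype.val_injective] at h ⊢
    exact h

/-- adding a set of arbitrary vertices -/
theorem FF.adds {a b : ℝ} {Y : Finset V} (h : FF a b H Y) (ha : 0 ≤ a) (hb : 0 ≤ b)
    (Z : Finset V) (hZ : Disjoint Y Z) : FF (a + Z.card) (b + Z.card) H (Y ∪ Z) := by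
  induction Z using Finset.induction_on with
  | empty => simpa using h
  | insert z Z hz ih =>
    rw [disjoint_insert_right] at hZ
    have h1 := (ih hZ.2).add (by positivity) (by positivity) (z := z) (by
      rw [mem_union]
      push Not
      exact ⟨hZ.1, hz⟩)
    rw [card_insert_of_notMem hz, union_insert]
    convert h1 using 1
    · push_cast
      ring
    · push_cast
      ring

/-- adding an isolated vertex -/
theorem FF.addIso {a b : ℝ} {Y : Finset V} (h : FF a b H Y) (ha : 0 ≤ a) (hb : 0 ≤ b)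
    {z : V} (hz : z ∉ Y) (hiso : ∀ y ∈ Y, ¬ H.Adj z y) : FF a (b + 1) H (insert z Y) := by
  unfold FF at h ⊢
  refine forces_dominate ha hb
    (fun i : {v // v ∈ Y} => (⟨i.1, mem_insert_of_mem i.2⟩ : {v // v ∈ insert z Y}))
    ⟨z, mem_insert_self z Y⟩ ?_ ?_ ?_ ?_ ?_
  · rintro ⟨x, hx⟩
    rcases mem_insert.1 hx with rfl | hx'
    · exact Or.inl rfl
    · exact Or.inr ⟨⟨x, hx'⟩, rfl⟩
  · rintro ⟨x, hx⟩ h1
    have h2 : x = z := congrArg Subtype.val h1
    exact hz (h2 ▸ hx)
  · intro i j hij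
    exact Subtype.ext (Subtype.mk.inj hij)
  · rintro ⟨x, hx⟩ h1
    exact hiso x hx h1
  · rw [compl_comap _ _ Subtype.val_injective] at h ⊢
    exact h

/-- adding a set of isolated vertices -/
theorem FF.addIsos {a b : ℝ} {Y : Finset V} (h : FF a b H Y) (ha : 0 ≤ a) (hb : 0 ≤ b)
    (W : Finset V) (hW : Disjoint Y W) (hiso : ∀ w ∈ W, ∀ y ∈ Y ∪ W, ¬ H.Adj w y) :
    FF a (b + W.card) H (Y ∪ W) := by
  induction W using Finset.induction_on with
  | empty => simpa using h
  | insert z Z hz ih =>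
    rw [disjoint_insert_right] at hW
    have h1 := (ih hW.2 (fun w hw y hy => hiso w (mem_insert_of_mem hw) y (by
      rw [mem_union] at hy ⊢
      rcases hy with hy | hy
      exacts [Or.inl hy, Or.inr (mem_insert_of_mem hy)]))).addIso ha (by positivity)
      (z := z) (by
        rw [mem_union]
        push Not
        exact ⟨hW.1, hz⟩) (fun y hy => hiso z (mem_insert_self z Z) y (by
      rw [mem_union] at hy ⊢
      rcases hy with hy | hy
      exacts [Or.inl hy, Or.inr (mem_insert_of_mem hy)]))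
    rw [card_insert_of_notMem hz, union_insert]
    convert h1 using 1
    push_cast
    ring

/-- a crown on top -/
theorem FF.crown {a b : ℝ} {Y U W : Finset V} (hUW : IsCrown H Y U W) (ha : 0 < a)
    (hab : 2 * a ≤ b) (hU : (U.card : ℝ) ≤ a) (hW : (W.card : ℝ) ≤ b)
    (h : FF (a - U.card) (b - W.card) H (Y \ (U ∪ W))) : FF a b H Y := by
  unfold FF at h ⊢
  set G := H.comap (Subtype.val : {v // v ∈ Y} → V) with hG
  set U' : Finset {v // v ∈ Y} := Y.attach.filter (fun v => v.1 ∈ U) with hU'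
  set W' : Finset {v // v ∈ Y} := Y.attach.filter (fun v => v.1 ∈ W) with hW'
  have memU : ∀ v : {v // v ∈ Y}, v ∈ U' ↔ v.1 ∈ U := by
    intro v
    rw [hU', mem_filter]
    simp
  have memW : ∀ v : {v // v ∈ Y}, v ∈ W' ↔ v.1 ∈ W := by
    intro v
    rw [hW', mem_filter]
    simp
  have cardU : U'.card = U.card := by
    apply card_bij (fun (v : {v // v ∈ Y}) _ => v.1)
    · intro v hv
      exact (memU v).1 hv
    · intro v _ w _ hvw
      exact Subtype.ext hvw
    · intro v hv
      exact ⟨⟨v, hUW.subU hv⟩, (memU _).2 hv, rfl⟩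
  have cardW : W'.card = W.card := by
    apply card_bij (fun (v : {v // v ∈ Y}) _ => v.1)
    · intro v hv
      exact (memW v).1 hv
    · intro v _ w _ hvw
      exact Subtype.ext hvw
    · intro v hv
      exact ⟨⟨v, hUW.subW hv⟩, (memW _).2 hv, rfl⟩
  have hcr : IsCrown G univ U' W' := by
    refine ⟨subset_univ _, subset_univ _, ?_, ?_, ?_, ?_⟩
    · rw [Finset.disjoint_left]
      intro v hv hv'
      exact Finset.disjoint_left.1 hUW.disj ((memU v).1 hv) ((memW v).1 hv')
    · intro x hx y hy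
      exact hUW.indep x.1 ((memW x).1 hx) y.1 ((memW y).1 hy)
    · intro w hw v _ hadj
      exact (memU v).2 (hUW.nbr w.1 ((memW w).1 hw) v.1 v.2 hadj)
    · obtain ⟨f, hf, hfW⟩ := hUW.matching
      refine ⟨fun v => if hv : f v.1 ∈ Y then ⟨f v.1, hv⟩ else v, ?_, ?_⟩
      · intro x hx y hy hxy
        rw [mem_coe] at hx hy
        have h1 := (hfW x.1 ((memU x).1 hx)).1
        have h2 := (hfW y.1 ((memU y).1 hy)).1
        simp only [dif_pos (hUW.subW h1), dif_pos (hUW.subW h2)] at hxy
        exact Subtype.ext (hf (mem_coe.2 ((memU x).1 hx)) (mem_coe.2 ((memU y).1 hy))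
          (Subtype.mk.inj hxy))
      · intro x hx
        have h1 := hfW x.1 ((memU x).1 hx)
        simp only [dif_pos (hUW.subW h1.1)]
        exact ⟨(memW _).2 h1.1, h1.2⟩
  apply forces_of_crown hcr ha hab (by rw [cardU]; exact hU) (by rw [cardW]; exact hW)
  rw [cardU, cardW]
  have key : ∀ v : {v // v ∈ Y}, v ∉ U' ∪ W' ↔ v.1 ∈ Y \ (U ∪ W) := by
    intro v
    rw [mem_union, mem_sdiff, mem_union, memU, memW]
    exact ⟨fun h => ⟨v.2, h⟩, fun h => h.2⟩
  let φ : {v // v ∈ Y \ (U ∪ W)} ≃ {v // v ∉ U' ∪ W'} :=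
    { toFun := fun v => ⟨⟨v.1, (mem_sdiff.1 v.2).1⟩, (key _).2 v.2⟩
      invFun := fun v => ⟨v.1.1, (key _).1 v.2⟩
      left_inv := fun v => rfl
      right_inv := fun v => rfl }
  have hφ : ∀ x y, (H.comap (Subtype.val : {v // v ∈ Y \ (U ∪ W)} → V)).Adj x y ↔
      (G.comap (Subtype.val : {v // v ∉ U' ∪ W'} → {v // v ∈ Y})).Adj (φ x) (φ y) :=
    fun _ _ => Iff.rfl
  have h3 := forces_congr' φ hφ h
  have h4 : ∀ (P : {v // v ∈ Y} → Prop), (∀ v, P v ↔ v ∉ U' ∪ W') →
      Forces (a - U.card) (b - W.card) (G.comap (Subtype.val : {v // P v} → {v // v ∈ Y}))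
        (G.comap (Subtype.val : {v // P v} → {v // v ∈ Y}))ᶜ := by
    intro P hP
    have h5 : P = fun v => v ∉ U' ∪ W' := funext fun v => propext (hP v)
    subst h5
    exact h3
  apply h4
  intro v
  simp only [mem_union]

/-- the lifting lemma: delete `Z`, and as many heads of the crown as necessary -/
theorem forces_lift [Fintype V] {Z U W C : Finset V} {a b a₁ b₁ ζ : ℕ}
    (hcr : IsCrown H (univ \ Z) U W) (hC : (univ \ Z) \ (U ∪ W) = C)
    (hF : FF (a₁ : ℝ) b₁ H C) (ha : a = a₁ + Z.card + U.card) (hb : b = b₁ + W.card)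
    (hZ : Z.card ≤ ζ) (hζ : 2 * a ≤ b + 2 * ζ) : Forces (a : ℝ) ((b + ζ : ℕ) : ℝ) H Hᶜ := by
  have hUZ : Disjoint U Z := by
    rw [Finset.disjoint_left]
    intro x hx
    exact (mem_sdiff.1 (hcr.subU hx)).2
  have hWZ : Disjoint W Z := by
    rw [Finset.disjoint_left]
    intro x hx
    exact (mem_sdiff.1 (hcr.subW hx)).2
  apply FF.toForces
  rcases Nat.lt_or_ge ζ (Z.card + U.card) with hlt | hge
  · -- delete some heads
    obtain ⟨Z1, hZ1, hZ1c⟩ := exists_subset_card_eq (s := U) (n := ζ - Z.card) (by omega)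
    have hZ1Z : Disjoint Z1 Z := disjoint_of_subset_left hZ1 hUZ
    have hcr' : IsCrown H (univ \ (Z ∪ Z1)) (U \ Z1) W := by
      refine ⟨?_, ?_, ?_, hcr.indep, ?_, ?_⟩
      · intro x hx
        rw [mem_sdiff] at hx
        rw [mem_sdiff, mem_union]
        push Not
        exact ⟨mem_univ x, (mem_sdiff.1 (hcr.subU hx.1)).2, hx.2⟩
      · intro x hx
        rw [mem_sdiff, mem_union]
        push Not
        exact ⟨mem_univ x, (mem_sdiff.1 (hcr.subW hx)).2, fun h =>
          Finset.disjoint_left.1 hcr.disj (hZ1 h) hx⟩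
      · exact disjoint_of_subset_left sdiff_subset hcr.disj
      · intro w hw v hv hadj
        rw [mem_sdiff, mem_union] at hv
        push Not at hv
        rw [mem_sdiff]
        exact ⟨hcr.nbr w hw v (mem_sdiff.2 ⟨mem_univ v, hv.2.1⟩) hadj, hv.2.2⟩
      · obtain ⟨f, hf, hfW⟩ := hcr.matching
        refine ⟨f, fun x hx y hy hxy => ?_, fun u hu => hfW u (mem_sdiff.1 hu).1⟩
        rw [mem_coe, mem_sdiff] at hx hy
        exact hf (mem_coe.2 hx.1) (mem_coe.2 hy.1) hxy
    have hrest : (univ \ (Z ∪ Z1)) \ ((U \ Z1) ∪ W) = C := by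
      rw [← hC]
      ext x
      simp only [mem_sdiff, mem_univ, true_and, mem_union]
      have : x ∈ Z1 → x ∈ U := fun h => hZ1 h
      tauto
    have hUc : (U \ Z1).card = U.card - (ζ - Z.card) := by
      rw [card_sdiff_of_subset hZ1, hZ1c]
    have h1 : FF ((a - ζ : ℕ) : ℝ) (b : ℝ) H (univ \ (Z ∪ Z1)) := by
      apply FF.crown hcr'
      · have : 0 < a - ζ := by omega
        exact_mod_cast this
      · have : 2 * (a - ζ) ≤ b := by omega
        exact_mod_cast this
      · have : (U \ Z1).card ≤ a - ζ := by omega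
        exact_mod_cast this
      · have : W.card ≤ b := by omega
        exact_mod_cast this
      · rw [hrest]
        have e1 : ((a - ζ : ℕ) : ℝ) - ((U \ Z1).card : ℝ) = (a₁ : ℝ) := by
          have : a - ζ = a₁ + (U \ Z1).card := by omega
          rw [this]
          push_cast
          ring
        have e2 : (b : ℝ) - (W.card : ℝ) = (b₁ : ℝ) := by
          rw [hb]
          push_cast
          ring
        rw [e1, e2]
        exact hF
    have h2 := h1.adds (by positivity) (by positivity) (Z ∪ Z1) sdiff_disjoint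
    have hcard : (Z ∪ Z1).card = ζ := by
      rw [card_union_of_disjoint hZ1Z.symm, hZ1c]
      omega
    rw [sdiff_union_of_subset (subset_univ _), hcard] at h2
    convert h2 using 1
    · have : a = (a - ζ) + ζ := by omega
      rw [← Nat.cast_add, ← this]
    · push_cast
      ring
  · -- delete all heads
    have hdis : Disjoint C W := by
      rw [← hC, Finset.disjoint_left]
      intro x hx hx'
      rw [mem_sdiff, mem_union] at hx
      exact hx.2 (Or.inr hx')
    have h1 : FF (a₁ : ℝ) ((b₁ : ℝ) + W.card) H (C ∪ W) := by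
      apply hF.addIsos (by positivity) (by positivity) W hdis
      intro w hw y hy hadj
      rw [mem_union] at hy
      rcases hy with hy | hy
      · rw [← hC, mem_sdiff, mem_union] at hy
        exact hy.2 (Or.inl (hcr.nbr w hw y hy.1 hadj))
      · exact hcr.indep w hw y hy hadj
    have hdis2 : Disjoint (C ∪ W) (Z ∪ U) := by
      rw [Finset.disjoint_left]
      intro x hx hx'
      rw [mem_union] at hx hx'
      rcases hx with hx | hx
      · rw [← hC, mem_sdiff, mem_sdiff, mem_union] at hx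
        push Not at hx
        rcases hx' with hx' | hx'
        exacts [hx.1.2 hx', hx.2.1 hx']
      · rcases hx' with hx' | hx'
        exacts [Finset.disjoint_left.1 hWZ hx hx', Finset.disjoint_left.1 hcr.disj hx' hx]
    have h2 := h1.adds (by positivity) (by positivity) (Z ∪ U) hdis2
    have hall : (C ∪ W) ∪ (Z ∪ U) = univ := by
      rw [← hC]
      ext x
      simp only [mem_union, mem_sdiff, mem_univ, true_and, iff_true]
      tauto
    rw [hall, card_union_of_disjoint hUZ.symm] at h2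
    apply h2.mono
    · rw [ha]
      push_cast
      linarith
    · rw [hb]
      have : (Z.card : ℝ) + U.card ≤ ζ := by exact_mod_cast hge
      push_cast
      linarith

end

end Pool.Agent.Lib.MP_a05470_co
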