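import Pool.Agent.Lib.MP_a05470_co.General

/-!
# The bound for all `H`
-/

set_option autoImplicit false
set_option linter.unusedSectionVars false

namespace Pool.Agent.Lib.MP_a05470_co

open Finset Classical

variable {V : Type} [Fintype V] {H : SimpleGraph V}

namespace JT

theorem exists_crit (Y : Finset V) : ∃ Y0 ⊆ Y, th H Y0 = th H Y ∧ Crit H Y0 := by
  induction hn : Y.card using Nat.strong_induction_on generalizing Y with
  | _ n ih =>
    by_cases hc : Crit H Y
    · exact ⟨Y, Subset.refl _, rfl, hc⟩
    · unfold Crit at hc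
      push Not at hc
      obtain ⟨x, hx, hle⟩ := hc
      have h1 : th H (Y.erase x) = th H Y := le_antisymm (th_mono (erase_subset x Y)) hle
      obtain ⟨Y0, h2, h3, h4⟩ := ih (Y.erase x).card (by
        rw [← hn, card_erase_of_mem hx]
        have := card_pos.2 ⟨x, hx⟩
        omega) (Y.erase x) rfl
      exact ⟨Y0, h2.trans (erase_subset x Y), h3.trans h1, h4⟩

theorem th_le_card (Y : Finset V) : th H Y ≤ Y.card := by
  obtain ⟨f, hf⟩ := exists_cov H Y
  exact (th_le hf).trans card_image_le

theorem th_indep {W : Finset V} (h : ∀ x ∈ W, ∀ y ∈ W, ¬ H.Adj x y) : th H W = W.card := by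
  apply le_antisymm (th_le_card W)
  obtain ⟨f, hf, hc⟩ := th_spec H W
  rw [← hc, card_image_of_injOn]
  intro x hx y hy hxy
  by_contra hne
  exact h x hx y hy (hf x hx y hy hne hxy)

/-- the clique cover number and crowns -/
theorem th_crown {Y U W : Finset V} (h : IsCrown H Y U W) :
    th H Y = W.card + th H (Y \ (U ∪ W)) := by
  set R := Y \ (U ∪ W) with hR
  apply le_antisymm
  · have h1 : Y = (U ∪ W) ∪ R := by
      rw [hR, union_sdiff_of_subset (union_subset h.subU h.subW)]
    have h2 : th H (U ∪ W) ≤ W.card := by
      obtain ⟨f, hf, hfW⟩ := h.matching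
      obtain ⟨lab, hlab⟩ : ∃ lab : V → ℕ, Function.Injective lab :=
        ⟨fun x => (Fintype.equivFin V x : ℕ), fun x y hxy =>
          (Fintype.equivFin V).injective (Fin.val_injective hxy)⟩
      set g : V → ℕ := fun x => if x ∈ U then lab (f x) else lab x with hg
      have gU : ∀ x ∈ U, g x = lab (f x) := fun x hx => by simp only [hg, if_pos hx]
      have gW : ∀ x ∈ W, g x = lab x := fun x hx => by
        have : x ∉ U := fun h' => Finset.disjoint_left.1 h.disj h' hx
        simp only [hg, if_neg this]
      have hcov : CovOn H (U ∪ W) g := by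
        intro x hx y hy hxy hgxy
        rw [mem_union] at hx hy
        rcases hx with hx | hx <;> rcases hy with hy | hy
        · rw [gU x hx, gU y hy] at hgxy
          exact absurd (hf (mem_coe.2 hx) (mem_coe.2 hy) (hlab hgxy)) hxy
        · rw [gU x hx, gW y hy] at hgxy
          have := hlab hgxy
          rw [← this]
          exact (hfW x hx).2
        · rw [gW x hx, gU y hy] at hgxy
          have := hlab hgxy
          rw [this]
          exact (hfW y hy).2.symm
        · rw [gW x hx, gW y hy] at hgxy
          exact absurd (hlab hgxy) hxy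
      refine (th_le hcov).trans ?_
      have h3 : (U ∪ W).image g ⊆ W.image lab := by
        intro i hi
        rw [mem_image] at hi
        obtain ⟨x, hx, rfl⟩ := hi
        rw [mem_union] at hx
        rcases hx with hx | hx
        · rw [gU x hx]
          exact mem_image_of_mem _ (hfW x hx).1
        · rw [gW x hx]
          exact mem_image_of_mem _ hx
      exact (card_le_card h3).trans card_image_le
    calc th H Y = th H ((U ∪ W) ∪ R) := by rw [← h1]
      _ ≤ th H (U ∪ W) + th H R := th_union_le
      _ ≤ _ := Nat.add_le_add_right h2 _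
  · have hsep : Sep H W R := by
      refine ⟨?_, ?_⟩
      · rw [hR, Finset.disjoint_left]
        intro x hx hx'
        rw [mem_sdiff, mem_union] at hx'
        exact hx'.2 (Or.inr hx)
      · intro x hx y hy hadj
        rw [hR, mem_sdiff, mem_union] at hy
        exact hy.2 (Or.inl (h.nbr x hx y hy.1 hadj))
    rw [← th_indep h.indep, ← th_union_sep hsep]
    apply th_mono
    apply union_subset h.subW
    rw [hR]
    exact sdiff_subset

theorem map_univ_mem (C : Finset V) : (univ : Finset {v // v ∈ C}).map ⟨Subtype.val,
    Subtype.val_injective⟩ = C := by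
  ext v
  simp

theorem crit_comap' {C : Finset V} (h : Crit H C) :
    Crit (H.comap (Subtype.val : {v // v ∈ C} → V)) univ := by
  intro y _
  have e1 : th (H.comap (Subtype.val : {v // v ∈ C} → V)) univ = th H C := by
    rw [th_comap, map_univ_mem]
  have e2 : th (H.comap (Subtype.val : {v // v ∈ C} → V)) (univ.erase y) =
      th H (C.erase y.1) := by
    rw [th_comap]
    congr 1
    ext v
    simp only [mem_map, mem_univ, Function.Embedding.coeFn_mk, mem_erase, and_true]
    constructor
    · rintro ⟨z, hz, rfl⟩
      exact ⟨fun h => hz (Subtype.ext h), z.2⟩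
    · rintro ⟨h1, h2⟩
      exact ⟨⟨v, h2⟩, fun h => h1 (congrArg Subtype.val h), rfl⟩
  have e3 := h y.1 y.2
  rw [← e2] at e3
  rw [e1]
  refine lt_of_eq_of_lt (congrArg (th _) ?_) e3
  ext z
  simp only [mem_erase]

theorem sum_card_comp (R : SimpleGraph V) :
    ∑ C : R.ConnectedComponent, (comp C).card = Fintype.card V := by
  rw [← card_univ (α := V), ← biUnion_comp (R := R), card_biUnion (fun C _ D _ h => (comp_sep h).1)]

theorem sum_th_comp (R : SimpleGraph V) :
    ∑ C : R.ConnectedComponent, th R (comp C) = th R univ := by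
  rw [← biUnion_comp (R := R), th_biUnion _ _ (fun C _ D _ h => comp_sep h)]

/-- critical sets without isolated vertices are large -/
theorem crit_count {C : Finset V} (hcrit : Crit H C) (hiso : ∀ x ∈ C, ∃ y ∈ C, H.Adj x y) :
    5 * th H C ≤ 3 * C.card := by
  set G := H.comap (Subtype.val : {v // v ∈ C} → V) with hG
  obtain ⟨c, hc⟩ := comp_data (R := G) (crit_comap' hcrit) (fun x => by
    obtain ⟨y, hy, hxy⟩ := hiso x.1 x.2
    exact ⟨⟨y, hy⟩, hxy⟩)
  have e1 : th H C = th G univ := by
    rw [hG, th_comap, map_univ_mem]
  have e2 : C.card = Fintype.card {v // v ∈ C} := by rw [Fintype.card_coe]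
  rw [e1, e2, ← sum_card_comp G, ← sum_th_comp G, mul_sum, mul_sum]
  apply sum_le_sum
  intro C _
  have h1 := hc C
  omega

end JT

/-- critical sets -/
theorem FF.crit {C : Finset V} {a b : ℕ} (hc : JT.Crit H C) (hC : C.card = a + b + 1)
    (hth : JT.th H C = b + 1) (hab : a ≤ b) : FF (a : ℝ) b H C := by
  apply JT.forces_crit (a + b + 1) {v // v ∈ C} (H.comap (Subtype.val : {v // v ∈ C} → V)) a b
  · rw [Fintype.card_coe, hC]
  · rw [Fintype.card_coe, hC]
  · exact hab
  · exact JT.crit_comap' hc
  · rw [JT.th_comap, JT.map_univ_mem, hth]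

/-- the balanced case -/
theorem FF.odd {C : Finset V} {c : ℕ} (hC : C.card = 2 * c + 1) (hth : JT.th H C = c + 1) :
    FF (c : ℝ) c H C := by
  unfold FF
  rcases Nat.eq_zero_or_pos c with rfl | hc
  · have := forces_one (V := {v // v ∈ C}) (by rw [Fintype.card_coe, hC])
      (H := H.comap (Subtype.val : {v // v ∈ C} → V))
    simpa using this
  · apply forces_odd hc (by rw [Fintype.card_coe, hC])
    · apply JT.colorable_of_th'
      have := JT.th_compl H C
      omega
    · exact JT.colorable_of_th hth.le


/-- **The main theorem.** -/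
theorem forces_main {a b ζ : ℕ} (hV : Fintype.card V = a + b + 1) (hth : JT.th H univ = b + 1)
    (hab : a ≤ b) (h3 : a ≤ 3 * ζ + 2) (h2 : 2 * a ≤ b + 2 * ζ) :
    Forces (a : ℝ) ((b + ζ : ℕ) : ℝ) H Hᶜ := by
  obtain ⟨U, W, hUW, hfree⟩ := exists_crown H univ
  set R' := univ \ (U ∪ W) with hR'
  have hthR := JT.th_crown hUW
  rw [← hR', hth] at hthR
  obtain ⟨f, hf, hfW⟩ := hUW.matching
  have hcardf : (U.image f).card = U.card := card_image_of_injOn hf
  have hsubf : U.image f ⊆ W := by
    intro w hw
    obtain ⟨u, hu, rfl⟩ := mem_image.1 hw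
    exact (hfW u hu).1
  have hunion : (U ∪ W).card = U.card + W.card := card_union_of_disjoint hUW.disj
  have hR'c : R'.card + (U.card + W.card) = a + b + 1 := by
    rw [hR', card_sdiff_of_subset (subset_univ _), card_univ, hV, hunion]
    have := card_le_univ (U ∪ W)
    omega
  have hthR' := JT.th_le_card (H := H) R'
  by_cases hcase : W.card ≤ b ∧ a + W.card ≤ b + U.card
  · obtain ⟨hWb, hle⟩ := hcase
    obtain ⟨Y0, hY0, hY0th, hY0c⟩ := JT.exists_crit (H := H) R'
    set I := Y0.filter (fun x => ∀ y ∈ Y0, ¬ H.Adj x y) with hI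
    set U' := R' \ Y0 with hU'
    have hIY : I ⊆ Y0 := filter_subset _ _
    have hIiso : ∀ x ∈ I, ∀ y ∈ Y0, ¬ H.Adj x y := by
      intro x hx
      rw [hI, mem_filter] at hx
      exact hx.2
    -- Hall's theorem
    have hall : ∀ s : Finset {x // x ∈ I},
        s.card ≤ (s.biUnion (fun x => U'.filter (fun v => H.Adj x.1 v))).card := by
      intro s
      rcases s.eq_empty_or_nonempty with rfl | hs
      · simp
      · set J : Finset V := s.image Subtype.val with hJ
        have hJc : J.card = s.card := card_image_of_injective _ Subtype.val_injective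
        have hJI : J ⊆ I := by
          intro x hx
          obtain ⟨y, _, rfl⟩ := mem_image.1 hx
          exact y.2
        have h1 := hfree J ((hJI.trans hIY).trans hY0) (hs.image _) (by
          intro x hx y hy
          exact hIiso x (hJI hx) y (hIY (hJI hy)))
        rw [hJc] at h1
        refine h1.le.trans (card_le_card ?_)
        intro v hv
        unfold nbrIn at hv
        rw [mem_filter] at hv
        obtain ⟨hvR, i, hi, hadj⟩ := hv
        obtain ⟨i', hi', rfl⟩ := mem_image.1 hi
        rw [mem_biUnion]
        refine ⟨i', hi', mem_filter.2 ⟨?_, hadj⟩⟩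
        rw [hU', mem_sdiff]
        exact ⟨hvR, fun hvY => hIiso i'.1 i'.2 v hvY hadj⟩
    obtain ⟨g, hginj, hg⟩ := (Finset.all_card_le_biUnion_card_iff_exists_injective
      (fun x : {x // x ∈ I} => U'.filter (fun v => H.Adj x.1 v))).1 hall
    have hgU : ∀ x, g x ∈ U' ∧ H.Adj x.1 (g x) := fun x => mem_filter.1 (hg x)
    set UM : Finset V := univ.image g with hUM
    have hUMc : UM.card = I.card := by
      rw [hUM, card_image_of_injective _ hginj, card_univ, Fintype.card_coe]
    have hUMU : UM ⊆ U' := by
      intro v hv
      obtain ⟨x, _, rfl⟩ := mem_image.1 hv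
      exact (hgU x).1
    set Z0 := U' \ UM with hZ0
    set C := Y0 \ I with hC
    have hU'R : U' ⊆ R' := sdiff_subset
    have notR : ∀ x ∈ R', x ∉ U ∧ x ∉ W := by
      intro x hx
      rw [hR', mem_sdiff, mem_union] at hx
      push Not at hx
      exact hx.2
    have hU'Y : ∀ x ∈ U', x ∉ Y0 := by
      intro x hx
      rw [hU', mem_sdiff] at hx
      exact hx.2
    have hcr : IsCrown H (univ \ Z0) (U ∪ UM) (W ∪ I) := by
      refine ⟨?_, ?_, ?_, ?_, ?_, ?_⟩
      · intro x hx
        rw [mem_sdiff]
        refine ⟨mem_univ x, fun hx' => ?_⟩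
        rw [hZ0, mem_sdiff] at hx'
        rcases mem_union.1 hx with hx | hx
        exacts [(notR x (hU'R hx'.1)).1 hx, hx'.2 hx]
      · intro x hx
        rw [mem_sdiff]
        refine ⟨mem_univ x, fun hx' => ?_⟩
        rw [hZ0, mem_sdiff] at hx'
        rcases mem_union.1 hx with hx | hx
        exacts [(notR x (hU'R hx'.1)).2 hx, hU'Y x hx'.1 (hIY hx)]
      · rw [Finset.disjoint_left]
        intro x hx hx'
        rcases mem_union.1 hx with hx | hx <;> rcases mem_union.1 hx' with hx' | hx'
        · exact Finset.disjoint_left.1 hUW.disj hx hx'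
        · exact (notR x (hY0 (hIY hx'))).1 hx
        · exact (notR x (hU'R (hUMU hx))).2 hx'
        · exact hU'Y x (hUMU hx) (hIY hx')
      · intro x hx y hy hadj
        rcases mem_union.1 hx with hx | hx <;> rcases mem_union.1 hy with hy | hy
        · exact hUW.indep x hx y hy hadj
        · exact (notR y (hY0 (hIY hy))).1 (hUW.nbr x hx y (mem_univ y) hadj)
        · exact (notR x (hY0 (hIY hx))).1 (hUW.nbr y hy x (mem_univ x) hadj.symm)
        · exact hIiso x hx y (hIY hy) hadj
      · intro w hw v hv hadj
        rw [mem_union]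
        rcases mem_union.1 hw with hw | hw
        · exact Or.inl (hUW.nbr w hw v (mem_univ v) hadj)
        · by_cases hvU : v ∈ U
          · exact Or.inl hvU
          · right
            have hvW : v ∉ W := fun h =>
              (notR w (hY0 (hIY hw))).1 (hUW.nbr v h w (mem_univ w) hadj.symm)
            have hvR : v ∈ R' := by
              rw [hR', mem_sdiff, mem_union]
              push Not
              exact ⟨mem_univ v, hvU, hvW⟩
            have hvU' : v ∈ U' := by
              rw [hU', mem_sdiff]
              exact ⟨hvR, fun h => hIiso w hw v h hadj⟩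
            by_contra hcon
            rw [mem_sdiff] at hv
            exact hv.2 (by rw [hZ0, mem_sdiff]; exact ⟨hvU', hcon⟩)
      · have hinv : ∀ u, ∃ w, u ∈ UM → w ∈ I ∧ H.Adj u w ∧ ∃ hw : w ∈ I, g ⟨w, hw⟩ = u := by
          intro u
          by_cases hu : u ∈ UM
          · obtain ⟨x, _, hx⟩ := mem_image.1 hu
            refine ⟨x.1, fun _ => ⟨x.2, ?_, x.2, hx⟩⟩
            rw [← hx]
            exact (hgU x).2.symm
          · exact ⟨u, fun h => absurd h hu⟩
        choose k hk using hinv
        refine ⟨fun u => if u ∈ U then f u else k u, ?_, ?_⟩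
        · intro x hx y hy hxy
          rw [mem_coe, mem_union] at hx hy
          have hx' : x ∉ U → x ∈ UM := fun h => hx.resolve_left h
          have hy' : y ∉ U → y ∈ UM := fun h => hy.resolve_left h
          by_cases h1 : x ∈ U <;> by_cases h2 : y ∈ U
          · simp only [if_pos h1, if_pos h2] at hxy
            exact hf (mem_coe.2 h1) (mem_coe.2 h2) hxy
          · simp only [if_pos h1, if_neg h2] at hxy
            have h3 := (hfW x h1).1
            rw [hxy] at h3
            exact absurd h3 (notR _ (hY0 (hIY (hk y (hy' h2)).1))).2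
          · simp only [if_neg h1, if_pos h2] at hxy
            have h3 := (hfW y h2).1
            rw [← hxy] at h3
            exact absurd h3 (notR _ (hY0 (hIY (hk x (hx' h1)).1))).2
          · simp only [if_neg h1, if_neg h2] at hxy
            obtain ⟨_, _, hw1, e1⟩ := hk x (hx' h1)
            obtain ⟨_, _, hw2, e2⟩ := hk y (hy' h2)
            rw [← e1, ← e2]
            congr 1
            exact Subtype.ext hxy
        · intro u hu
          rw [mem_union] at hu
          by_cases h1 : u ∈ U
          · simp only [if_pos h1]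
            exact ⟨mem_union_left _ (hfW u h1).1, (hfW u h1).2⟩
          · simp only [if_neg h1]
            have h2 := hk u (hu.resolve_left h1)
            exact ⟨mem_union_right _ h2.1, h2.2.1⟩
    have hrest : (univ \ Z0) \ ((U ∪ UM) ∪ (W ∪ I)) = C := by
      ext x
      rw [hC, hZ0]
      simp only [mem_sdiff, mem_union, mem_univ, true_and]
      push Not
      constructor
      · rintro ⟨h1, ⟨h2, h3⟩, h4, h5⟩
        refine ⟨?_, h5⟩
        by_contra hcon
        refine h3 (h1 ?_)
        rw [hU', mem_sdiff]
        refine ⟨?_, hcon⟩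
        rw [hR', mem_sdiff, mem_union]
        push Not
        exact ⟨mem_univ x, h2, h4⟩
      · rintro ⟨h1, h2⟩
        have h3 := notR x (hY0 h1)
        exact ⟨fun h => absurd h1 (hU'Y x h), ⟨h3.1, fun h => hU'Y x (hUMU h) h1⟩, h3.2, h2⟩
    -- the critical rest
    have hsepCI : JT.Sep H C I := by
      refine ⟨sdiff_disjoint, ?_⟩
      intro x hx y hy hadj
      exact hIiso y hy x (sdiff_subset hx) hadj.symm
    have hCI : C ∪ I = Y0 := sdiff_union_of_subset hIY
    have hCcrit : JT.Crit H C := by
      have := hY0c
      rw [← hCI] at this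
      exact this.part hsepCI
    have hthC : JT.th H Y0 = JT.th H C + I.card := by
      rw [← hCI, JT.th_union_sep hsepCI, JT.th_indep (fun x hx y hy => hIiso x hx y (hIY hy))]
    have hcount : 5 * JT.th H C ≤ 3 * C.card := by
      apply JT.crit_count hCcrit
      intro x hx
      rw [hC, mem_sdiff] at hx
      have h1 : ∃ y ∈ Y0, H.Adj x y := by
        by_contra hcon
        push Not at hcon
        exact hx.2 (by rw [hI, mem_filter]; exact ⟨hx.1, hcon⟩)
      obtain ⟨y, hy, hxy⟩ := h1
      refine ⟨y, ?_, hxy⟩
      rw [hC, mem_sdiff]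
      exact ⟨hy, fun h => hIiso y h x hx.1 hxy.symm⟩
    -- the numbers
    have c1 : U'.card + Y0.card = R'.card := by
      rw [hU', card_sdiff_of_subset hY0]
      have := card_le_card hY0
      omega
    have c2 : C.card + I.card = Y0.card := by
      rw [hC, card_sdiff_of_subset hIY]
      have := card_le_card hIY
      omega
    have c3 : Z0.card + I.card = U'.card := by
      rw [hZ0, card_sdiff_of_subset hUMU, hUMc]
      have := card_le_card hUMU
      omega
    have c4 : (U ∪ UM).card = U.card + I.card := by
      rw [card_union_of_disjoint, hUMc]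
      rw [Finset.disjoint_left]
      intro x hx hx'
      exact (notR x (hU'R (hUMU hx'))).1 hx
    have c5 : (W ∪ I).card = W.card + I.card := by
      rw [card_union_of_disjoint]
      rw [Finset.disjoint_left]
      intro x hx hx'
      exact (notR x (hY0 (hIY hx'))).2 hx
    have c6 := JT.th_le_card (H := H) C
    have hpos : 1 ≤ JT.th H C := by
      by_contra hcon
      have h0 : JT.th H C = 0 := by omega
      have hCe : C = ∅ := by
        rw [← not_nonempty_iff_eq_empty]
        intro hne
        have := JT.th_pos (R := H) hne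
        omega
      have hIne : I.Nonempty := by
        rw [← card_pos]
        omega
      have h4 := hfree I (hIY.trans hY0) hIne (fun x hx y hy => hIiso x hx y (hIY hy))
      have h5 : (nbrIn H R' I).card ≤ U'.card := by
        apply card_le_card
        intro v hv
        unfold nbrIn at hv
        rw [mem_filter] at hv
        obtain ⟨hvR, i, hi, hadj⟩ := hv
        rw [hU', mem_sdiff]
        exact ⟨hvR, fun hvY => hIiso i hi v hvY hadj⟩
      rw [hCe, card_empty] at c2
      omega
    have hF : FF ((C.card - JT.th H C : ℕ) : ℝ) ((JT.th H C - 1 : ℕ) : ℝ) H C :=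
      FF.crit hCcrit (by omega) (by omega) (by omega)
    exact forces_lift hcr hrest hF (by omega) (by omega) (by omega) h2
  · -- keep some vertices of `W`
    have hUa : U.card ≤ a := by omega
    obtain ⟨W1, hW1f, hW1W, hW1card⟩ := exists_subsuperset_card_eq hsubf
      (show (U.image f).card ≤ b - (a - U.card) by rw [hcardf]; omega) (by omega)
    have hcr : IsCrown H univ U W1 :=
      ⟨hUW.subU, subset_univ _, disjoint_of_subset_right hW1W hUW.disj,
        fun x hx y hy => hUW.indep x (hW1W hx) y (hW1W hy),
        fun w hw v hv hadj => hUW.nbr w (hW1W hw) v hv hadj,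
        ⟨f, hf, fun u hu => ⟨hW1f (mem_image_of_mem f hu), (hfW u hu).2⟩⟩⟩
    have hth1 := JT.th_crown hcr
    rw [hth] at hth1
    have hunion1 : (U ∪ W1).card = U.card + W1.card := card_union_of_disjoint hcr.disj
    have hc1 : (univ \ (U ∪ W1)).card = 2 * (a - U.card) + 1 := by
      rw [card_sdiff_of_subset (subset_univ _), card_univ, hV, hunion1, hW1card]
      omega
    have hF : FF ((a - U.card : ℕ) : ℝ) ((a - U.card : ℕ) : ℝ) H (univ \ (U ∪ W1)) :=
      FF.odd hc1 (by omega)
    refine forces_lift (Z := ∅) (U := U) (W := W1) (by rwa [sdiff_empty]) (by rw [sdiff_empty])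
      hF ?_ ?_ ?_ h2
    · rw [card_empty]
      omega
    · omega
    · rw [card_empty]
      omega

end Pool.Agent.Lib.MP_a05470_co
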