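import Pool.Agent.Lib.MP_a05470_co.Dominate

set_option autoImplicit false

namespace Pool.Agent.Lib.MP_a05470_co

open Finset Classical Filter Topology

section Half

variable {n : ℕ} {Gr Gb : SimpleGraph (Fin n)} {s m : ℕ}

/-- sequential choice of a green clique with minimal red non-degree -/
theorem exists_seq (hs : 1 ≤ s) (hsm : s + 1 ≤ m)
    (hG : ∀ v, s * nonadj Gr v + (m - 1) * nonadj Gb v + 1 ≤ n) (j : ℕ) (hj : j ≤ s) (hn : 0 < n) :
    ∃ x : ℕ → Fin n, ∀ i < j, (∀ k < i, Gr.Adj (x k) (x i) ∧ Gb.Adj (x k) (x i)) ∧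
      ∀ v, (∀ k < i, Gr.Adj (x k) v ∧ Gb.Adj (x k) v) → nonadj Gr (x i) ≤ nonadj Gr v := by
  induction j with
  | zero => exact ⟨fun _ => ⟨0, hn⟩, by simp⟩
  | succ j ih =>
    obtain ⟨x, hx⟩ := ih (by omega)
    -- candidates
    set A := Finset.univ.filter (fun v : Fin n => ∀ k < j, Gr.Adj (x k) v ∧ Gb.Adj (x k) v) with hA
    have hAne : A.Nonempty := by
      by_contra hcon
      rw [Finset.not_nonempty_iff_eq_empty] at hcon
      have h1 : (Finset.univ : Finset (Fin n)) ⊆ (Finset.range j).biUnion (fun k =>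
          Finset.univ.filter (fun u => ¬ Gr.Adj (x k) u) ∪
          Finset.univ.filter (fun u => ¬ Gb.Adj (x k) u)) := by
        intro v _
        have h2 : v ∉ A := by rw [hcon]; simp
        rw [hA, Finset.mem_filter] at h2
        push Not at h2
        obtain ⟨k, hk, h3⟩ := h2 (Finset.mem_univ v)
        rw [Finset.mem_biUnion]
        refine ⟨k, Finset.mem_range.2 hk, ?_⟩
        rw [Finset.mem_union, Finset.mem_filter, Finset.mem_filter]
        by_cases h4 : Gr.Adj (x k) v
        · exact Or.inr ⟨Finset.mem_univ _, h3 h4⟩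
        · exact Or.inl ⟨Finset.mem_univ _, h4⟩
      have h2 := (Finset.card_le_card h1).trans (Finset.card_biUnion_le)
      have h3 : ∀ k ∈ Finset.range j, (Finset.univ.filter (fun u => ¬ Gr.Adj (x k) u) ∪
          Finset.univ.filter (fun u => ¬ Gb.Adj (x k) u)).card ≤
          nonadj Gr (x k) + nonadj Gb (x k) := fun k _ => Finset.card_union_le _ _
      have h4 := h2.trans (Finset.sum_le_sum h3)
      rw [Finset.card_univ, Fintype.card_fin] at h4
      have h5 : ∀ k ∈ Finset.range j, s * (nonadj Gr (x k) + nonadj Gb (x k)) ≤ n - 1 := by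
        intro k _
        have h6 := hG (x k)
        have h7 : s * nonadj Gb (x k) ≤ (m - 1) * nonadj Gb (x k) :=
          Nat.mul_le_mul_right _ (by omega)
        have h8 : s * (nonadj Gr (x k) + nonadj Gb (x k)) =
          s * nonadj Gr (x k) + s * nonadj Gb (x k) := by ring
        omega
      have h6 : s * n ≤ j * (n - 1) := by
        calc s * n ≤ s * ∑ k ∈ Finset.range j, (nonadj Gr (x k) + nonadj Gb (x k)) :=
              Nat.mul_le_mul_left _ h4
          _ = ∑ k ∈ Finset.range j, s * (nonadj Gr (x k) + nonadj Gb (x k)) := by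
              rw [Finset.mul_sum]
          _ ≤ ∑ k ∈ Finset.range j, (n - 1) := Finset.sum_le_sum h5
          _ = j * (n - 1) := by simp
      have h7 : j * (n - 1) ≤ s * (n - 1) := Nat.mul_le_mul_right _ (by omega)
      have h8 : s * (n - 1) < s * n := Nat.mul_lt_mul_of_pos_left (by omega) (by omega)
      omega
    obtain ⟨y, hyA, hy⟩ := Finset.exists_min_image A (fun u => nonadj Gr u) hAne
    refine ⟨Function.update x j y, ?_⟩
    have hup : ∀ k, k ≠ j → Function.update x j y k = x k :=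
      fun k hk => Function.update_of_ne hk _ _
    intro i hi
    rcases Nat.lt_succ_iff_lt_or_eq.1 hi with hi | rfl
    · rw [hup i (by omega)]
      refine ⟨?_, ?_⟩
      · intro k hk
        rw [hup k (by omega)]
        exact (hx i hi).1 k hk
      · intro v hv
        apply (hx i hi).2 v
        intro k hk
        have := hv k hk
        rwa [hup k (by omega)] at this
    · rw [Function.update_self]
      rw [hA, Finset.mem_filter] at hyA
      refine ⟨?_, ?_⟩
      · intro k hk
        rw [hup k (by omega)]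
        exact hyA.2 k hk
      · intro v hv
        apply hy
        rw [hA, Finset.mem_filter]
        refine ⟨Finset.mem_univ _, fun k hk => ?_⟩
        have := hv k hk
        rwa [hup k (by omega)] at this

/-- a maximal blue clique in `C` containing a given one -/
theorem exists_maximal_clique (C F0 : Finset (Fin n)) (h0 : F0 ⊆ C)
    (hc0 : ∀ f ∈ F0, ∀ g ∈ F0, f ≠ g → Gb.Adj f g) :
    ∃ F, F0 ⊆ F ∧ F ⊆ C ∧ (∀ f ∈ F, ∀ g ∈ F, f ≠ g → Gb.Adj f g) ∧
      ∀ v ∈ C, ∃ f ∈ F, ¬ Gb.Adj f v := by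
  set 𝒮 : Finset (Finset (Fin n)) := Finset.univ.filter (fun F => F0 ⊆ F ∧ F ⊆ C ∧
    (∀ f ∈ F, ∀ g ∈ F, f ≠ g → Gb.Adj f g)) with h𝒮
  have hne : 𝒮.Nonempty := ⟨F0, by rw [h𝒮, Finset.mem_filter]; exact ⟨Finset.mem_univ _, subset_rfl, h0, hc0⟩⟩
  obtain ⟨F, hF, hmax⟩ := Finset.exists_max_image 𝒮 (fun F => F.card) hne
  rw [h𝒮, Finset.mem_filter] at hF
  obtain ⟨_, h1, h2, h3⟩ := hF
  refine ⟨F, h1, h2, h3, ?_⟩
  intro v hv
  by_contra hcon
  push Not at hcon
  have hvF : v ∉ F := fun h => Gb.irrefl (hcon v h)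
  have h4 : insert v F ∈ 𝒮 := by
    rw [h𝒮, Finset.mem_filter]
    refine ⟨Finset.mem_univ _, h1.trans (Finset.subset_insert _ _), ?_, ?_⟩
    · intro u hu
      rcases Finset.mem_insert.1 hu with rfl | hu
      · exact hv
      · exact h2 hu
    · intro f hf g hg hfg
      rcases Finset.mem_insert.1 hf with hf' | hf'
      · rcases Finset.mem_insert.1 hg with hg' | hg'
        · exact absurd (hf'.trans hg'.symm) hfg
        · rw [hf']
          exact (hcon g hg').symm
      · rcases Finset.mem_insert.1 hg with hg' | hg'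
        · rw [hg']
          exact hcon f hf'
        · exact h3 f hf' g hg' hfg
  have h5 := hmax _ h4
  rw [Finset.card_insert_of_notMem hvF] at h5
  omega

theorem card_le_sum_nonadj (C F : Finset (Fin n)) (h : ∀ v ∈ C, ∃ f ∈ F, ¬ Gb.Adj f v) :
    C.card ≤ ∑ f ∈ F, nonadj Gb f := by
  have h1 : C ⊆ F.biUnion (fun f => Finset.univ.filter (fun u => ¬ Gb.Adj f u)) := by
    intro v hv
    obtain ⟨f, hf, h2⟩ := h v hv
    rw [Finset.mem_biUnion]
    exact ⟨f, hf, by simpa using h2⟩
  exact (Finset.card_le_card h1).trans Finset.card_biUnion_le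

/-- the common red neighbourhood of the `x k`, joined in blue to the first `i` of them -/
noncomputable def CC (Gr Gb : SimpleGraph (Fin n)) (s : ℕ) (x : ℕ → Fin n) (i : ℕ) :
    Finset (Fin n) :=
  Finset.univ.filter (fun v => (∀ k < s, Gr.Adj (x k) v) ∧ ∀ k < i, Gb.Adj (x k) v)

theorem card_CC (x : ℕ → Fin n) (i : ℕ) :
    n ≤ (CC Gr Gb s x i).card + ∑ k ∈ Finset.range s, nonadj Gr (x k) +
      ∑ k ∈ Finset.range i, nonadj Gb (x k) := by
  have h1 : (Finset.univ : Finset (Fin n)) ⊆ (CC Gr Gb s x i ∪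
      (Finset.range s).biUnion (fun k => Finset.univ.filter (fun u => ¬ Gr.Adj (x k) u))) ∪
      (Finset.range i).biUnion (fun k => Finset.univ.filter (fun u => ¬ Gb.Adj (x k) u)) := by
    intro v _
    rw [Finset.mem_union, Finset.mem_union, Finset.mem_biUnion, Finset.mem_biUnion]
    by_cases h2 : ∀ k < s, Gr.Adj (x k) v
    · by_cases h3 : ∀ k < i, Gb.Adj (x k) v
      · left; left
        unfold CC
        rw [Finset.mem_filter]
        exact ⟨Finset.mem_univ _, h2, h3⟩
      · push Not at h3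
        obtain ⟨k, hk, h4⟩ := h3
        right
        exact ⟨k, Finset.mem_range.2 hk, by simpa using h4⟩
    · push Not at h2
      obtain ⟨k, hk, h4⟩ := h2
      left; right
      exact ⟨k, Finset.mem_range.2 hk, by simpa using h4⟩
  have h2 := Finset.card_le_card h1
  rw [Finset.card_univ, Fintype.card_fin] at h2
  have h3 := Finset.card_union_le (CC Gr Gb s x i ∪
      (Finset.range s).biUnion (fun k => Finset.univ.filter (fun u => ¬ Gr.Adj (x k) u)))
      ((Finset.range i).biUnion (fun k => Finset.univ.filter (fun u => ¬ Gb.Adj (x k) u)))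
  have h4 := Finset.card_union_le (CC Gr Gb s x i)
      ((Finset.range s).biUnion (fun k => Finset.univ.filter (fun u => ¬ Gr.Adj (x k) u)))
  have h5 : ((Finset.range s).biUnion (fun k => Finset.univ.filter (fun u => ¬ Gr.Adj (x k) u))).card
      ≤ ∑ k ∈ Finset.range s, nonadj Gr (x k) := Finset.card_biUnion_le
  have h6 : ((Finset.range i).biUnion (fun k => Finset.univ.filter (fun u => ¬ Gb.Adj (x k) u))).card
      ≤ ∑ k ∈ Finset.range i, nonadj Gb (x k) := Finset.card_biUnion_le
  omega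

theorem chain (hs : 1 ≤ s) (hsm : s + 1 ≤ m)
    (hG : ∀ v, s * nonadj Gr v + (m - 1) * nonadj Gb v + 1 ≤ n) (x : ℕ → Fin n)
    (hx : ∀ i < s, (∀ k < i, Gr.Adj (x k) (x i) ∧ Gb.Adj (x k) (x i)) ∧
      ∀ v, (∀ k < i, Gr.Adj (x k) v ∧ Gb.Adj (x k) v) → nonadj Gr (x i) ≤ nonadj Gr v) :
    ∃ F : Finset (Fin n), (∀ f ∈ F, ∀ g ∈ F, f ≠ g → Gb.Adj f g) ∧
      (F ⊆ CC Gr Gb s x 0) ∧ ∀ j ≤ s, m ≤ (F ∩ CC Gr Gb s x j).card + j := by
  set P : ℕ → ℝ := fun k => (n : ℝ) - 1 - s * nonadj Gr (x k) with hP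
  have hGR : ∀ v, (s : ℝ) * nonadj Gr v + ((m : ℝ) - 1) * nonadj Gb v + 1 ≤ n := by
    intro v
    have h1 := hG v
    have h2 : ((s * nonadj Gr v + (m - 1) * nonadj Gb v + 1 : ℕ) : ℝ) ≤ n := by exact_mod_cast h1
    push_cast [Nat.cast_sub (show 1 ≤ m by omega)] at h2
    exact h2
  have hm1 : (0 : ℝ) < (m : ℝ) - 1 := by
    have : (2 : ℝ) ≤ m := by
      have : 2 ≤ m := by omega
      exact_mod_cast this
    linarith
  have hs0 : (0 : ℝ) < s := by exact_mod_cast hs
  have hR : ∀ v k, nonadj Gr (x k) ≤ nonadj Gr v → ((m : ℝ) - 1) * nonadj Gb v ≤ P k := by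
    intro v k h
    have h1 := hGR v
    have h2 : (nonadj Gr (x k) : ℝ) ≤ nonadj Gr v := by exact_mod_cast h
    have h3 := mul_le_mul_of_nonneg_left h2 hs0.le
    simp only [hP]
    linarith
  have hP0 : ∀ k, 0 ≤ P k := by
    intro k
    have h1 := hGR (x k)
    have h2 : 0 ≤ ((m : ℝ) - 1) * (nonadj Gb (x k) : ℝ) := by positivity
    simp only [hP]
    linarith
  -- monotonicity of P on range s
  have hPmono : ∀ i j, i ≤ j → j < s → P j ≤ P i := by
    intro i j hij hj
    have h1 : nonadj Gr (x i) ≤ nonadj Gr (x j) := by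
      apply (hx i (by omega)).2
      intro k hk
      exact (hx j hj).1 k (by omega)
    have h2 : (nonadj Gr (x i) : ℝ) ≤ nonadj Gr (x j) := by exact_mod_cast h1
    have h3 := mul_le_mul_of_nonneg_left h2 hs0.le
    simp only [hP]
    linarith
  set Pb : ℕ → ℝ := fun i => P (min i (s - 1)) with hPb
  have hmem : ∀ i ≤ s, ∀ v ∈ CC Gr Gb s x i, ((m : ℝ) - 1) * nonadj Gb v ≤ Pb i := by
    intro i hi v hv
    apply hR
    apply (hx (min i (s - 1)) (by omega)).2
    unfold CC at hv
    rw [Finset.mem_filter] at hv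
    intro k hk
    exact ⟨hv.2.1 k (by omega), hv.2.2 k (by omega)⟩
  set RHS : ℕ → ℝ := fun i => ((m : ℝ) - 1) / s * ∑ k ∈ Finset.range s, P k -
    ∑ k ∈ Finset.range i, P k with hRHS
  have hsumP : ∑ k ∈ Finset.range s, P k = s * ((n : ℝ) - 1) -
      s * ∑ k ∈ Finset.range s, (nonadj Gr (x k) : ℝ) := by
    simp only [hP]
    rw [Finset.sum_sub_distrib, ← Finset.mul_sum, Finset.sum_const, nsmul_eq_mul,
      Finset.card_range]
  have hbig : ∀ i ≤ s, RHS i < ((m : ℝ) - 1) * (CC Gr Gb s x i).card := by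
    intro i hi
    have h1 := card_CC (Gr := Gr) (Gb := Gb) (s := s) x i
    have h2 : (n : ℝ) ≤ (CC Gr Gb s x i).card + ∑ k ∈ Finset.range s, (nonadj Gr (x k) : ℝ) +
      ∑ k ∈ Finset.range i, (nonadj Gb (x k) : ℝ) := by exact_mod_cast h1
    have h3 : ((m : ℝ) - 1) * ∑ k ∈ Finset.range i, (nonadj Gb (x k) : ℝ) ≤
        ∑ k ∈ Finset.range i, P k := by
      rw [Finset.mul_sum]
      apply Finset.sum_le_sum
      intro k _
      exact hR (x k) k le_rfl
    have h4 : ((m : ℝ) - 1) / s * ∑ k ∈ Finset.range s, P k = ((m : ℝ) - 1) * ((n : ℝ) - 1) -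
        ((m : ℝ) - 1) * ∑ k ∈ Finset.range s, (nonadj Gr (x k) : ℝ) := by
      rw [hsumP]
      field_simp
    simp only [hRHS]
    rw [h4]
    nlinarith
  -- main induction
  have key : ∀ d ≤ s, ∃ F : Finset (Fin n), (∀ f ∈ F, ∀ g ∈ F, f ≠ g → Gb.Adj f g) ∧
      (F ⊆ CC Gr Gb s x (s - d)) ∧
      (((m : ℝ) - 1) * ∑ f ∈ F, (nonadj Gb f : ℝ) - RHS (s - d) ≤
        Pb (s - d) * ((F.card : ℝ) - ((m : ℝ) - 1 - ((s - d : ℕ) : ℝ)))) ∧
      (RHS (s - d) < ((m : ℝ) - 1) * ∑ f ∈ F, (nonadj Gb f : ℝ)) ∧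
      ∀ j, s - d ≤ j → j ≤ s → m ≤ (F ∩ CC Gr Gb s x j).card + j := by
    intro d
    induction d with
    | zero =>
      intro _
      obtain ⟨F, _, hFC, hFc, hFm⟩ := exists_maximal_clique (Gb := Gb) (CC Gr Gb s x s) ∅ (by simp)
        (by simp)
      have h1 := card_le_sum_nonadj (Gb := Gb) _ _ hFm
      have h2 : ((CC Gr Gb s x s).card : ℝ) ≤ ∑ f ∈ F, (nonadj Gb f : ℝ) := by exact_mod_cast h1
      have h3 := hbig s le_rfl
      have h4 : RHS s < ((m : ℝ) - 1) * ∑ f ∈ F, (nonadj Gb f : ℝ) :=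
        lt_of_lt_of_le h3 (mul_le_mul_of_nonneg_left h2 hm1.le)
      have h5 : ((m : ℝ) - 1) * ∑ f ∈ F, (nonadj Gb f : ℝ) ≤ F.card * Pb s := by
        rw [Finset.mul_sum]
        calc ∑ f ∈ F, ((m : ℝ) - 1) * (nonadj Gb f : ℝ) ≤ ∑ f ∈ F, Pb s :=
              Finset.sum_le_sum (fun f hf => hmem s le_rfl f (hFC hf))
          _ = F.card * Pb s := by rw [Finset.sum_const, nsmul_eq_mul]
      have h6 : ((m : ℝ) - 1 - s) * Pb s ≤ RHS s := by
        simp only [hRHS]
        have h7 : (s : ℝ) * Pb s ≤ ∑ k ∈ Finset.range s, P k := by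
          calc (s : ℝ) * Pb s = ∑ k ∈ Finset.range s, Pb s := by
                rw [Finset.sum_const, nsmul_eq_mul, Finset.card_range]
            _ ≤ ∑ k ∈ Finset.range s, P k := by
                apply Finset.sum_le_sum
                intro k hk
                rw [Finset.mem_range] at hk
                simp only [hPb]
                exact hPmono _ _ (by omega) (by omega)
        have h8 : (0 : ℝ) ≤ ((m : ℝ) - 1) / s - 1 := by
          rw [sub_nonneg, le_div_iff₀ hs0]
          have : ((s + 1 : ℕ) : ℝ) ≤ m := by exact_mod_cast hsm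
          push_cast at this
          linarith
        have h9 := mul_le_mul_of_nonneg_left h7 h8
        have h10 : (((m : ℝ) - 1) / s - 1) * (s * Pb s) = ((m : ℝ) - 1 - s) * Pb s := by
          field_simp
        linarith
      simp only [Nat.sub_zero]
      refine ⟨F, hFc, hFC, by linarith, h4, ?_⟩
      intro j hj1 hj2
      have hjs : j = s := by omega
      subst hjs
      have h11 : F ∩ CC Gr Gb j x j = F := Finset.inter_eq_left.2 hFC
      rw [h11]
      have h12 : 0 < Pb j * ((F.card : ℝ) - ((m : ℝ) - 1 - j)) := by linarith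
      have h13 : 0 ≤ Pb j := hP0 _
      have h14 : 0 < (F.card : ℝ) - ((m : ℝ) - 1 - j) := by
        by_contra hneg
        push Not at hneg
        nlinarith [mul_nonneg h13 (neg_nonneg.2 hneg)]
      have h15 : (m : ℝ) < F.card + j + 1 := by linarith
      have h16 : m < F.card + j + 1 := by exact_mod_cast h15
      omega
    | succ d ih =>
      intro hd
      obtain ⟨F0, hc0, hC0, hineq0, hlt0, hcount0⟩ := ih (by omega)
      set i := s - (d + 1) with hi
      have hi1 : s - d = i + 1 := by omega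
      rw [hi1] at hC0 hineq0 hlt0 hcount0
      have hsub : CC Gr Gb s x (i + 1) ⊆ CC Gr Gb s x i := by
        intro v hv
        unfold CC at hv ⊢
        rw [Finset.mem_filter] at hv ⊢
        exact ⟨hv.1, hv.2.1, fun k hk => hv.2.2 k (by omega)⟩
      obtain ⟨F, hF0, hFC, hFc, hFm⟩ := exists_maximal_clique (Gb := Gb) (CC Gr Gb s x i) F0
        (hC0.trans hsub) hc0
      have h1 := card_le_sum_nonadj (Gb := Gb) _ _ hFm
      have h2 : ((CC Gr Gb s x i).card : ℝ) ≤ ∑ f ∈ F, (nonadj Gb f : ℝ) := by exact_mod_cast h1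
      have h3 := hbig i (by omega)
      have h4 : RHS i < ((m : ℝ) - 1) * ∑ f ∈ F, (nonadj Gb f : ℝ) :=
        lt_of_lt_of_le h3 (mul_le_mul_of_nonneg_left h2 hm1.le)
      have hsplit : ∑ f ∈ F, (nonadj Gb f : ℝ) = ∑ f ∈ F \ F0, (nonadj Gb f : ℝ) +
          ∑ f ∈ F0, (nonadj Gb f : ℝ) := (Finset.sum_sdiff hF0).symm
      have hcardsplit : (F.card : ℝ) = (F \ F0).card + F0.card := by
        have := Finset.card_sdiff_add_card_eq_card hF0
        exact_mod_cast this.symm
      have h5 : ((m : ℝ) - 1) * ∑ f ∈ F \ F0, (nonadj Gb f : ℝ) ≤ (F \ F0).card * Pb i := by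
        rw [Finset.mul_sum]
        calc ∑ f ∈ F \ F0, ((m : ℝ) - 1) * (nonadj Gb f : ℝ) ≤ ∑ f ∈ F \ F0, Pb i :=
              Finset.sum_le_sum (fun f hf => hmem i (by omega) f (hFC (Finset.mem_sdiff.1 hf).1))
          _ = (F \ F0).card * Pb i := by rw [Finset.sum_const, nsmul_eq_mul]
      have hRHSi : RHS i = RHS (i + 1) + P i := by
        simp only [hRHS]
        rw [Finset.sum_range_succ]
        ring
      have hPbi : Pb i = P i := by
        simp only [hPb]
        congr 1
        omega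
      have hPle : Pb (i + 1) ≤ Pb i := by
        simp only [hPb]
        exact hPmono _ _ (by omega) (by omega)
      have h6 : (0 : ℝ) ≤ (F0.card : ℝ) - ((m : ℝ) - 1 - ((i + 1 : ℕ) : ℝ)) := by
        have h7 := hcount0 (i + 1) le_rfl (by omega)
        rw [Finset.inter_eq_left.2 hC0] at h7
        have h8 : (m : ℝ) ≤ F0.card + ((i + 1 : ℕ) : ℝ) := by exact_mod_cast h7
        linarith
      have h7 : Pb (i + 1) * ((F0.card : ℝ) - ((m : ℝ) - 1 - ((i + 1 : ℕ) : ℝ))) ≤
          Pb i * ((F0.card : ℝ) - ((m : ℝ) - 1 - ((i + 1 : ℕ) : ℝ))) :=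
        mul_le_mul_of_nonneg_right hPle h6
      have h8 : ((m : ℝ) - 1) * ∑ f ∈ F, (nonadj Gb f : ℝ) - RHS i ≤
          Pb i * ((F.card : ℝ) - ((m : ℝ) - 1 - (i : ℝ))) := by
        rw [hsplit, hcardsplit, hRHSi, ← hPbi]
        push_cast at h7 hineq0
        nlinarith
      refine ⟨F, hFc, hFC, h8, h4, ?_⟩
      intro j hj1 hj2
      rcases Nat.lt_or_ge i j with hij | hij
      · have h9 := hcount0 j (by omega) hj2
        have h10 : (F0 ∩ CC Gr Gb s x j).card ≤ (F ∩ CC Gr Gb s x j).card :=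
          Finset.card_le_card (Finset.inter_subset_inter_right hF0)
        omega
      · have hji : j = i := by omega
        rw [hji, Finset.inter_eq_left.2 hFC]
        have h12 : 0 < Pb i * ((F.card : ℝ) - ((m : ℝ) - 1 - i)) := by linarith
        have h9 : 0 ≤ (F.card : ℝ) - ((m : ℝ) - 1 - ((i + 1 : ℕ) : ℝ)) := by
          have h10 : (F0.card : ℝ) ≤ F.card := by exact_mod_cast Finset.card_le_card hF0
          linarith
        have h13 : 0 ≤ Pb i := hP0 _
        have h14 : 0 < (F.card : ℝ) - ((m : ℝ) - 1 - i) := by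
          by_contra hneg
          push Not at hneg
          nlinarith [mul_nonneg h13 (neg_nonneg.2 hneg)]
        have h15 : (m : ℝ) < F.card + i + 1 := by linarith
        have h16 : m < F.card + i + 1 := by exact_mod_cast h15
        omega
  obtain ⟨F, hc, hC, _, _, hcount⟩ := key s le_rfl
  rw [Nat.sub_self] at hC hcount
  exact ⟨F, hc, hC, fun j hj => hcount j (Nat.zero_le _) hj⟩

end Half

end Pool.Agent.Lib.MP_a05470_co
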