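import Pool.Agent.Lib.MP_a05470_co.Half

set_option autoImplicit false

namespace Pool.Agent.Lib.MP_a05470_co

open Finset Classical Filter Topology

/-- `V(H) = U ∪ W` with `|U| = s < |W| = m`, `W` a blue clique, and `u_i w_j` red for `j ≤ i`;
everything else is arbitrary. -/
theorem forces_half {s m : ℕ} (hs : 1 ≤ s) (hsm : s + 1 ≤ m) (H : SimpleGraph (Fin s ⊕ Fin m))
    (hW : ∀ j j', ¬ H.Adj (Sum.inr j) (Sum.inr j'))
    (hUW : ∀ (i : Fin s) (j : Fin m), (j : ℕ) ≤ i → H.Adj (Sum.inl i) (Sum.inr j)) :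
    Forces (s : ℝ) ((m : ℝ) - 1) H Hᶜ := by
  intro ε hε
  refine ⟨⌈1 / ε⌉₊ + 1, ?_⟩
  intro n hn Gr Gb hG0
  have hn0 : 0 < n := by omega
  have hεn : 1 ≤ ε * n := by
    have h1 := Nat.le_ceil (1 / ε)
    have h2 : ((⌈1 / ε⌉₊ + 1 : ℕ) : ℝ) ≤ n := by exact_mod_cast hn
    push_cast at h2
    have h3 : 1 / ε ≤ n := by linarith
    rw [div_le_iff₀ hε] at h3
    linarith
  have hG : ∀ v, s * nonadj Gr v + (m - 1) * nonadj Gb v + 1 ≤ n := by
    intro v
    have h1 := hG0 v
    have h2 : ((s * nonadj Gr v + (m - 1) * nonadj Gb v + 1 : ℕ) : ℝ) ≤ n := by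
      push_cast [Nat.cast_sub (show 1 ≤ m by omega)]
      linarith
    exact_mod_cast h2
  obtain ⟨x, hx⟩ := exists_seq hs hsm hG s le_rfl hn0
  obtain ⟨F, hFc, hFC, hcount⟩ := chain hs hsm hG x hx
  -- Hall
  set t : Fin m → Finset (Fin n) := fun j => F ∩ CC Gr Gb s x (min (j : ℕ) s) with ht
  have hmono : ∀ i j, i ≤ j → CC Gr Gb s x j ⊆ CC Gr Gb s x i := by
    intro i j hij v hv
    unfold CC at hv ⊢
    rw [Finset.mem_filter] at hv ⊢
    exact ⟨hv.1, hv.2.1, fun k hk => hv.2.2 k (by omega)⟩
  have hall : ∀ A : Finset (Fin m), A.card ≤ (A.biUnion t).card := by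
    intro A
    rcases A.eq_empty_or_nonempty with rfl | hA
    · simp
    · set j0 := A.min' hA with hj0
      have h1 : A ⊆ Finset.univ.filter (fun j : Fin m => j0 ≤ j) := by
        intro j hj
        rw [Finset.mem_filter]
        exact ⟨Finset.mem_univ _, A.min'_le j hj⟩
      have h2 : (Finset.univ.filter (fun j : Fin m => j0 ≤ j)).card = m - j0 := by
        have : Finset.univ.filter (fun j : Fin m => j0 ≤ j) = Finset.Ici j0 := by
          ext j; simp
        rw [this, Fin.card_Ici]
      have h3 := Finset.card_le_card h1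
      have h4 : (t j0).card ≤ (A.biUnion t).card :=
        Finset.card_le_card (Finset.subset_biUnion_of_mem t (A.min'_mem hA))
      have h5 := hcount (min (j0 : ℕ) s) (min_le_right _ _)
      have h6 : (t j0).card = (F ∩ CC Gr Gb s x (min (j0 : ℕ) s)).card := rfl
      have h7 : min (j0 : ℕ) s ≤ j0 := min_le_left _ _
      omega
  obtain ⟨w, hwinj, hw⟩ := (Finset.all_card_le_biUnion_card_iff_exists_injective t).1 hall
  have hwF : ∀ j, w j ∈ F := fun j => (Finset.mem_inter.1 (hw j)).1
  have hwC : ∀ j : Fin m, w j ∈ CC Gr Gb s x (min (j : ℕ) s) := fun j => (Finset.mem_inter.1 (hw j)).2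
  have hwred : ∀ (i : Fin s) (j : Fin m), Gr.Adj (x i) (w j) := by
    intro i j
    have h1 := hwC j
    unfold CC at h1
    rw [Finset.mem_filter] at h1
    exact h1.2.1 i i.2
  have hwblue : ∀ (i : Fin s) (j : Fin m), (i : ℕ) < j → Gb.Adj (x i) (w j) := by
    intro i j hij
    have h1 := hwC j
    unfold CC at h1
    rw [Finset.mem_filter] at h1
    exact h1.2.2 i (lt_min hij i.2)
  have hxadj : ∀ i k : Fin s, i ≠ k → Gr.Adj (x i) (x k) ∧ Gb.Adj (x i) (x k) := by
    intro i k hik
    rcases lt_or_gt_of_ne hik with h | h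
    · exact (hx k k.2).1 i h
    · have := (hx i i.2).1 k h
      exact ⟨this.1.symm, this.2.symm⟩
  refine ⟨Sum.elim (fun i : Fin s => x i) w, ?_, ?_⟩
  · rintro (i | j) (i' | j') hxy
    · by_contra hne
      have hne' : i ≠ i' := fun h => hne (congrArg Sum.inl h)
      exact Gr.ne_of_adj (hxadj i i' hne').1 hxy
    · exact absurd hxy (Gr.ne_of_adj (hwred i j'))
    · exact absurd hxy.symm (Gr.ne_of_adj (hwred i' j))
    · exact congrArg Sum.inr (hwinj hxy)
  · rintro (i | j) (i' | j')
    · constructor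
      · intro h
        exact (hxadj i i' (fun hc => H.ne_of_adj h (congrArg Sum.inl hc))).1
      · intro h
        exact (hxadj i i' (fun hc => Hᶜ.ne_of_adj h (congrArg Sum.inl hc))).2
    · constructor
      · intro _
        exact hwred i j'
      · intro h
        rw [SimpleGraph.compl_adj] at h
        apply hwblue
        by_contra hcon
        exact h.2 (hUW i j' (by omega))
    · constructor
      · intro _
        exact (hwred i' j).symm
      · intro h
        rw [SimpleGraph.compl_adj] at h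
        apply SimpleGraph.Adj.symm
        apply hwblue
        by_contra hcon
        exact h.2 (hUW i' j (by omega)).symm
    · constructor
      · intro h
        exact absurd h (hW j j')
      · intro h
        apply hFc _ (hwF j) _ (hwF j')
        intro hc
        exact Hᶜ.ne_of_adj h (congrArg Sum.inr (hwinj hc))

end Pool.Agent.Lib.MP_a05470_co
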