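import Mathlib
import Pool.Agent.Lib.MP_a05470_co.MatchDefs

/-!
# Matchings with a prescribed number of red edges
-/

open Finset

namespace Pool.Agent.Lib.MP_a05470_co

open Classical in
/-- The number of red pairs of an indexed matching. -/
noncomputable def redCount {h : ℕ} (R : SimpleGraph (Fin h)) {ι : Type*} [Fintype ι]
    (f : ι × Bool → Fin h) : ℕ :=
  (Finset.univ.filter (fun i : ι => R.Adj (f (i, false)) (f (i, true)))).card

theorem hasMatching_of_index {h : ℕ} (R : SimpleGraph (Fin h)) {ι : Type*} [Fintype ι]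
    (f : ι × Bool → Fin h) (hf : Function.Injective f) (a b : ℕ) (ha : redCount R f = a)
    (hab : Fintype.card ι = a + b) : HasMatching R a b := by
  classical
  set A : Finset ι := Finset.univ.filter (fun i : ι => R.Adj (f (i, false)) (f (i, true))) with hA
  have hAc : A.card = a := by rw [← ha]; rfl
  have hBc : Aᶜ.card = b := by rw [Finset.card_compl]; omega
  set eA := A.equivFinOfCardEq hAc with heA
  set eB := Aᶜ.equivFinOfCardEq hBc with heB
  refine ⟨fun x => f (Sum.elim (fun i => ((eA.symm i : A) : ι))
    (fun j => ((eB.symm j : (Aᶜ : Finset ι)) : ι)) x.1, x.2), ?_, ?_, ?_⟩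
  · rintro ⟨x, c⟩ ⟨y, d⟩ hxy
    have h1 := hf hxy
    simp only [Prod.mk.injEq] at h1
    obtain ⟨h2, h3⟩ := h1
    rw [h3]
    congr 1
    rcases x with i | j <;> rcases y with i' | j'
    · simp only [Sum.elim_inl] at h2
      rw [eA.symm.injective (Subtype.ext h2)]
    · simp only [Sum.elim_inl, Sum.elim_inr] at h2
      have h4 := (eA.symm i).2
      have h5 := (eB.symm j').2
      rw [← h2, Finset.mem_compl] at h5
      exact absurd h4 h5
    · simp only [Sum.elim_inl, Sum.elim_inr] at h2
      have h4 := (eA.symm i').2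
      have h5 := (eB.symm j).2
      rw [h2, Finset.mem_compl] at h5
      exact absurd h4 h5
    · simp only [Sum.elim_inr] at h2
      rw [eB.symm.injective (Subtype.ext h2)]
  · intro i
    exact (Finset.mem_filter.mp (eA.symm i).2).2
  · intro j h5
    exact (Finset.mem_compl.mp (eB.symm j).2) (Finset.mem_filter.mpr ⟨Finset.mem_univ _, h5⟩)

/-- Changing one pair changes the number of red pairs by at most one. -/
theorem redCount_le_of_eq_off {h : ℕ} (R : SimpleGraph (Fin h)) {ι : Type*} [Fintype ι]
    [DecidableEq ι] (f g : ι × Bool → Fin h) (T : Finset ι)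
    (hfg : ∀ i, i ∉ T → ∀ c, f (i, c) = g (i, c)) : redCount R f ≤ redCount R g + T.card := by
  classical
  unfold redCount
  calc (Finset.univ.filter (fun i : ι => R.Adj (f (i, false)) (f (i, true)))).card
      ≤ ((Finset.univ.filter (fun i : ι => R.Adj (g (i, false)) (g (i, true)))) ∪ T).card := by
        apply Finset.card_le_card
        intro i hi
        rw [mem_filter] at hi
        rw [mem_union, mem_filter]
        by_cases hiT : i ∈ T
        · exact Or.inr hiT
        · left
          rw [← hfg i hiT, ← hfg i hiT]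
          exact hi
    _ ≤ _ := Finset.card_union_le _ _

section Odd

variable {h m : ℕ} (R : SimpleGraph (Fin h))

/-- Red pairs of an enumeration with one free vertex. -/
noncomputable def cntO (π : Option (Fin m × Bool) ≃ Fin h) : ℕ :=
  redCount R (fun x : Fin m × Bool => π (some x))

theorem cntO_star (π : Option (Fin m × Bool) ≃ Fin h) (x : Option (Fin m × Bool)) :
    cntO R ((Equiv.swap none x).trans π) ≤ cntO R π + 1 ∧
      cntO R π ≤ cntO R ((Equiv.swap none x).trans π) + 1 := by
  rcases x with _ | ⟨i, c⟩
  · rw [Equiv.swap_self]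
    simp only [Equiv.refl_trans]
    omega
  · have hfix : ∀ j, j ∉ ({i} : Finset (Fin m)) → ∀ d,
        ((Equiv.swap none (some (i, c))).trans π) (some (j, d)) = π (some (j, d)) := by
      intro j hj d
      rw [Finset.mem_singleton] at hj
      rw [Equiv.trans_apply, Equiv.swap_apply_of_ne_of_ne (by simp)]
      intro h1
      simp only [Option.some.injEq, Prod.mk.injEq] at h1
      exact hj h1.1
    constructor
    · have := redCount_le_of_eq_off R
        (fun x : Fin m × Bool => ((Equiv.swap none (some (i, c))).trans π) (some x))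
        (fun x : Fin m × Bool => π (some x)) {i} (fun j hj d => hfix j hj d)
      simpa [cntO] using this
    · have := redCount_le_of_eq_off R (fun x : Fin m × Bool => π (some x))
        (fun x : Fin m × Bool => ((Equiv.swap none (some (i, c))).trans π) (some x))
        {i} (fun j hj d => (hfix j hj d).symm)
      simpa [cntO] using this

/-- All values between that of `π₀` and that of `π` are attained. -/
def QO (π₀ π : Option (Fin m × Bool) ≃ Fin h) : Prop :=
  ∀ a, (cntO R π₀ ≤ a ∧ a ≤ cntO R π) ∨ (cntO R π ≤ a ∧ a ≤ cntO R π₀) →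
    ∃ π' : Option (Fin m × Bool) ≃ Fin h, cntO R π' = a

theorem QO_step (π₀ π : Option (Fin m × Bool) ≃ Fin h) (hQ : QO R π₀ π)
    (x : Option (Fin m × Bool)) : QO R π₀ ((Equiv.swap none x).trans π) := by
  intro a ha
  obtain ⟨h1, h2⟩ := cntO_star R π x
  by_cases h3 : (cntO R π₀ ≤ a ∧ a ≤ cntO R π) ∨ (cntO R π ≤ a ∧ a ≤ cntO R π₀)
  · exact hQ a h3
  · exact ⟨(Equiv.swap none x).trans π, by omega⟩

theorem QO_all (π₀ : Option (Fin m × Bool) ≃ Fin h)
    (σ : Equiv.Perm (Option (Fin m × Bool))) : QO R π₀ (σ.trans π₀) := by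
  classical
  induction σ using Equiv.Perm.swap_induction_on' with
  | one =>
    intro a ha
    refine ⟨π₀, ?_⟩
    have h1 : ((1 : Equiv.Perm (Option (Fin m × Bool))).trans π₀) = π₀ := by
      ext x; rfl
    rw [h1] at ha
    omega
  | mul_swap f x y hxy ih =>
    have hstep : ∀ z, ∀ g : Equiv.Perm (Option (Fin m × Bool)), QO R π₀ (g.trans π₀) →
        QO R π₀ ((g * Equiv.swap none z).trans π₀) := by
      intro z g hg
      have := QO_step R π₀ (g.trans π₀) hg z
      have e : (g * Equiv.swap none z).trans π₀ = (Equiv.swap none z).trans (g.trans π₀) := by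
        ext w; rfl
      rw [e]
      exact this
    rcases eq_or_ne x none with hx | hx
    · rw [hx]
      exact hstep y f ih
    · rcases eq_or_ne y none with hy | hy
      · rw [hy, Equiv.swap_comm]
        exact hstep x f ih
      · have e : Equiv.swap x y = Equiv.swap none x * Equiv.swap none y * Equiv.swap none x := by
          rw [Equiv.swap_comm none x, Equiv.swap_comm none y]
          have := Equiv.swap_mul_swap_mul_swap (x := y) (y := none) (z := x) hy hxy.symm
          rw [← this, Equiv.swap_comm none x]
        rw [e, ← mul_assoc, ← mul_assoc]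
        exact hstep x _ (hstep y _ (hstep x f ih))

theorem exists_equiv_of_inj (hh : h = 2 * m + 1) (f : Fin m × Bool → Fin h)
    (hf : Function.Injective f) : ∃ π : Option (Fin m × Bool) ≃ Fin h, ∀ x, π (some x) = f x := by
  classical
  obtain ⟨z, hz⟩ : ∃ z : Fin h, ∀ x, f x ≠ z := by
    by_contra hcon
    push Not at hcon
    have h1 : Function.Surjective f := hcon
    have h2 := Fintype.card_le_of_surjective f h1
    simp only [Fintype.card_prod, Fintype.card_fin, Fintype.card_bool] at h2
    omega
  have hbij : Function.Bijective (fun o : Option (Fin m × Bool) => o.elim z f) := by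
    rw [Fintype.bijective_iff_injective_and_card]
    constructor
    · rintro (_ | x) (_ | y) hxy
      · rfl
      · exact absurd hxy.symm (hz y)
      · exact absurd hxy (hz x)
      · exact congrArg some (hf hxy)
    · simp only [Fintype.card_option, Fintype.card_prod, Fintype.card_fin, Fintype.card_bool]
      omega
  exact ⟨Equiv.ofBijective _ hbij, fun x => rfl⟩

/-- **Odd order**: near-perfect matchings in both colours give near-perfect matchings of every
composition. -/
theorem hasMatching_odd (hh : h = 2 * m + 1) (h1 : HasMatching R m 0) (h0 : HasMatching R 0 m)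
    (a b : ℕ) (hab : a + b = m) : HasMatching R a b := by
  classical
  obtain ⟨f1, hf1, hf1R, -⟩ := h1
  obtain ⟨f0, hf0, -, hf0B⟩ := h0
  obtain ⟨π1, hπ1⟩ := exists_equiv_of_inj (m := m) hh (fun x => f1 (Sum.inl x.1, x.2)) (by
    rintro ⟨i, c⟩ ⟨j, d⟩ hij
    have := hf1 hij
    simp only [Prod.mk.injEq, Sum.inl.injEq] at this
    exact Prod.ext this.1 this.2)
  obtain ⟨π0, hπ0⟩ := exists_equiv_of_inj (m := m) hh (fun x => f0 (Sum.inr x.1, x.2)) (by
    rintro ⟨i, c⟩ ⟨j, d⟩ hij
    have := hf0 hij
    simp only [Prod.mk.injEq, Sum.inr.injEq] at this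
    exact Prod.ext this.1 this.2)
  have hc1 : cntO R π1 = m := by
    unfold cntO redCount
    rw [Finset.filter_true_of_mem, Finset.card_univ, Fintype.card_fin]
    intro i _
    show R.Adj (π1 (some (i, false))) (π1 (some (i, true)))
    rw [hπ1, hπ1]
    exact hf1R i
  have hc0 : cntO R π0 = 0 := by
    unfold cntO redCount
    rw [Finset.card_eq_zero, Finset.filter_eq_empty_iff]
    intro i _
    show ¬ R.Adj (π0 (some (i, false))) (π0 (some (i, true)))
    rw [hπ0, hπ0]
    exact hf0B i
  obtain ⟨π', hπ'⟩ : ∃ π' : Option (Fin m × Bool) ≃ Fin h, cntO R π' = a := by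
    have := QO_all R π1 (π0.trans π1.symm) a
    have e : ((π0.trans π1.symm).trans π1) = π0 := by ext x; simp
    rw [e, hc0, hc1] at this
    exact this (Or.inr ⟨Nat.zero_le _, by omega⟩)
  refine hasMatching_of_index R (fun x : Fin m × Bool => π' (some x)) ?_ a b hπ' (by simp [hab])
  intro x y hxy
  exact Option.some_injective _ (π'.injective hxy)

end Odd

section Even

variable {h k : ℕ} (R : SimpleGraph (Fin h)) (W : Finset (Fin h))

/-- Red pairs of an enumeration of `W`. -/
noncomputable def cntE (π : (Fin k × Bool) ≃ W) : ℕ :=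
  redCount R (fun x : Fin k × Bool => ((π x : W) : Fin h))

theorem cntE_swap (π : (Fin k × Bool) ≃ W) (x y : Fin k × Bool) :
    cntE R W ((Equiv.swap x y).trans π) ≤ cntE R W π + 2 ∧
      cntE R W π ≤ cntE R W ((Equiv.swap x y).trans π) + 2 := by
  classical
  have hfix : ∀ j, j ∉ ({x.1, y.1} : Finset (Fin k)) → ∀ d,
      ((((Equiv.swap x y).trans π) (j, d) : W) : Fin h) = ((π (j, d) : W) : Fin h) := by
    intro j hj d
    rw [Finset.mem_insert, Finset.mem_singleton, not_or] at hj
    rw [Equiv.trans_apply, Equiv.swap_apply_of_ne_of_ne]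
    · intro h1
      exact hj.1 (congrArg Prod.fst h1)
    · intro h1
      exact hj.2 (congrArg Prod.fst h1)
  have hcard : ({x.1, y.1} : Finset (Fin k)).card ≤ 2 := Finset.card_le_two
  constructor
  · have := redCount_le_of_eq_off R
      (fun z : Fin k × Bool => ((((Equiv.swap x y).trans π) z : W) : Fin h))
      (fun z : Fin k × Bool => ((π z : W) : Fin h)) {x.1, y.1} (fun j hj d => hfix j hj d)
    unfold cntE
    omega
  · have := redCount_le_of_eq_off R (fun z : Fin k × Bool => ((π z : W) : Fin h))
      (fun z : Fin k × Bool => ((((Equiv.swap x y).trans π) z : W) : Fin h))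
      {x.1, y.1} (fun j hj d => (hfix j hj d).symm)
    unfold cntE
    omega

/-- Every value between that of `π₀` and that of `π` is attained up to one. -/
def QE (π₀ π : (Fin k × Bool) ≃ W) : Prop :=
  ∀ a, (cntE R W π₀ ≤ a ∧ a ≤ cntE R W π) ∨ (cntE R W π ≤ a ∧ a ≤ cntE R W π₀) →
    ∃ π' : (Fin k × Bool) ≃ W, a ≤ cntE R W π' ∧ cntE R W π' ≤ a + 1

theorem QE_step (π₀ π : (Fin k × Bool) ≃ W) (hQ : QE R W π₀ π) (x y : Fin k × Bool) :
    QE R W π₀ ((Equiv.swap x y).trans π) := by
  intro a ha
  obtain ⟨h1, h2⟩ := cntE_swap R W π x y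
  by_cases h3 : (cntE R W π₀ ≤ a ∧ a ≤ cntE R W π) ∨ (cntE R W π ≤ a ∧ a ≤ cntE R W π₀)
  · exact hQ a h3
  · by_cases h4 : a ≤ cntE R W ((Equiv.swap x y).trans π) ∧
        cntE R W ((Equiv.swap x y).trans π) ≤ a + 1
    · exact ⟨_, h4⟩
    · exact ⟨π, by omega⟩

theorem QE_all (π₀ : (Fin k × Bool) ≃ W) (σ : Equiv.Perm (Fin k × Bool)) :
    QE R W π₀ (σ.trans π₀) := by
  classical
  induction σ using Equiv.Perm.swap_induction_on' with
  | one =>
    intro a ha
    refine ⟨π₀, ?_⟩
    have h1 : ((1 : Equiv.Perm (Fin k × Bool)).trans π₀) = π₀ := by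
      ext x; rfl
    rw [h1] at ha
    omega
  | mul_swap f x y hxy ih =>
    have := QE_step R W π₀ (f.trans π₀) ih x y
    have e : (f * Equiv.swap x y).trans π₀ = (Equiv.swap x y).trans (f.trans π₀) := by
      ext w; rfl
    rw [e]
    exact this

/-- **Even order**: an induced path on four vertices, and perfect matchings of the remaining
vertices in both colours, give perfect matchings of every composition. -/
theorem hasMatching_even (x : Fin 4 → Fin h) (hx : Function.Injective x)
    (h01 : R.Adj (x 0) (x 1)) (h12 : R.Adj (x 1) (x 2)) (h23 : R.Adj (x 2) (x 3))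
    (h02 : ¬ R.Adj (x 0) (x 2)) (h13 : ¬ R.Adj (x 1) (x 3)) (h03 : ¬ R.Adj (x 0) (x 3))
    (hW : W = (Finset.univ.image x)ᶜ)
    (f1 f0 : Fin k × Bool → Fin h) (hf1 : Function.Injective f1) (hf0 : Function.Injective f0)
    (hf1W : ∀ z, f1 z ∈ W) (hf0W : ∀ z, f0 z ∈ W)
    (hf1R : ∀ i, R.Adj (f1 (i, false)) (f1 (i, true)))
    (hf0B : ∀ i, ¬ R.Adj (f0 (i, false)) (f0 (i, true))) (hh : h = 2 * (k + 2))
    (a b : ℕ) (hab : a + b = k + 2) : HasMatching R a b := by
  classical
  have hWc : W.card = 2 * k := by
    rw [hW, Finset.card_compl, Finset.card_image_of_injective _ hx, Finset.card_univ,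
      Fintype.card_fin, Fintype.card_fin]
    omega
  have hequiv : ∀ f : Fin k × Bool → Fin h, Function.Injective f → (∀ z, f z ∈ W) →
      ∃ π : (Fin k × Bool) ≃ W, ∀ z, ((π z : W) : Fin h) = f z := by
    intro f hf hfW
    have hbij : Function.Bijective (fun z => (⟨f z, hfW z⟩ : W)) := by
      rw [Fintype.bijective_iff_injective_and_card]
      constructor
      · intro z w hzw
        exact hf (congrArg Subtype.val hzw)
      · simp only [Fintype.card_prod, Fintype.card_fin, Fintype.card_bool, Fintype.card_coe]
        omega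
    exact ⟨Equiv.ofBijective _ hbij, fun z => rfl⟩
  obtain ⟨π1, hπ1⟩ := hequiv f1 hf1 hf1W
  obtain ⟨π0, hπ0⟩ := hequiv f0 hf0 hf0W
  have hc1 : cntE R W π1 = k := by
    unfold cntE redCount
    rw [Finset.filter_true_of_mem, Finset.card_univ, Fintype.card_fin]
    intro i _
    show R.Adj ((π1 (i, false) : W) : Fin h) ((π1 (i, true) : W) : Fin h)
    rw [hπ1, hπ1]
    exact hf1R i
  have hc0 : cntE R W π0 = 0 := by
    unfold cntE redCount
    rw [Finset.card_eq_zero, Finset.filter_eq_empty_iff]
    intro i _
    show ¬ R.Adj ((π0 (i, false) : W) : Fin h) ((π0 (i, true) : W) : Fin h)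
    rw [hπ0, hπ0]
    exact hf0B i
  have hmid : ∀ a', a' ≤ k → ∃ π' : (Fin k × Bool) ≃ W, a' ≤ cntE R W π' ∧ cntE R W π' ≤ a' + 1 := by
    intro a' ha'
    have := QE_all R W π1 (π0.trans π1.symm) a'
    have e : ((π0.trans π1.symm).trans π1) = π0 := by ext x; simp
    rw [e, hc0, hc1] at this
    exact this (Or.inr ⟨Nat.zero_le _, ha'⟩)
  -- the three perfect matchings of the gadget
  have combine : ∀ (π : (Fin k × Bool) ≃ W) (g : Fin 2 × Bool → Fin 4), Function.Injective g →
      ∀ t, redCount R (fun z : Fin 2 × Bool => x (g z)) = t → ∀ a b, cntE R W π + t = a →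
      a + b = k + 2 → HasMatching R a b := by
    intro π g hg t ht a b hat hab'
    refine hasMatching_of_index R (ι := Fin k ⊕ Fin 2)
      (fun z => Sum.elim (fun i => ((π (i, z.2) : W) : Fin h)) (fun j => x (g (j, z.2))) z.1)
      ?_ a b ?_ (by simp [hab'])
    · rintro ⟨i | i, c⟩ ⟨j | j, d⟩ hij
      · simp only [Sum.elim_inl] at hij
        have := π.injective (Subtype.ext hij)
        simp only [Prod.mk.injEq] at this
        rw [this.1, this.2]
      · simp only [Sum.elim_inl, Sum.elim_inr] at hij
        have h1 := (π (i, c)).2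
        rw [hij, hW, Finset.mem_compl] at h1
        exact absurd (Finset.mem_image_of_mem _ (Finset.mem_univ _)) h1
      · simp only [Sum.elim_inl, Sum.elim_inr] at hij
        have h1 := (π (j, d)).2
        rw [← hij, hW, Finset.mem_compl] at h1
        exact absurd (Finset.mem_image_of_mem _ (Finset.mem_univ _)) h1
      · simp only [Sum.elim_inr] at hij
        have := hg (hx hij)
        simp only [Prod.mk.injEq] at this
        rw [this.1, this.2]
    · rw [← hat, ← ht]
      unfold cntE redCount
      rw [Finset.card_filter, Finset.card_filter, Finset.card_filter, Fintype.sum_sum_type]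
      rfl
  rcases Nat.eq_zero_or_pos a with ha | ha
  · -- all blue
    refine combine π0 (fun z => cond z.2 (if z.1 = 0 then 2 else 3) (if z.1 = 0 then 0 else 1))
      (by decide) 0 ?_ a b (by omega) hab
    unfold redCount
    rw [Finset.card_eq_zero, Finset.filter_eq_empty_iff]
    intro i _
    fin_cases i
    · exact h02
    · exact h13
  · rcases Nat.eq_zero_or_pos b with hb | hb
    · -- all red
      refine combine π1 (fun z => cond z.2 (if z.1 = 0 then 1 else 3) (if z.1 = 0 then 0 else 2))
        (by decide) 2 ?_ a b (by omega) hab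
      unfold redCount
      rw [Finset.filter_true_of_mem, Finset.card_univ, Fintype.card_fin]
      intro i _
      fin_cases i
      · exact h01
      · exact h23
    · obtain ⟨π', hπ1', hπ2'⟩ := hmid (a - 1) (by omega)
      rcases Nat.eq_or_lt_of_le hπ1' with he | hlt
      · -- gadget with one red edge
        refine combine π' (fun z => cond z.2 (if z.1 = 0 then 3 else 2) (if z.1 = 0 then 0 else 1))
          (by decide) 1 ?_ a b (by omega) hab
        unfold redCount
        rw [Finset.card_eq_one]
        refine ⟨1, ?_⟩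
        ext i
        rw [mem_filter, mem_singleton]
        fin_cases i
        · simpa using h03
        · simpa using h12
      · refine combine π' (fun z => cond z.2 (if z.1 = 0 then 2 else 3) (if z.1 = 0 then 0 else 1))
          (by decide) 0 ?_ a b (by omega) hab
        unfold redCount
        rw [Finset.card_eq_zero, Finset.filter_eq_empty_iff]
        intro i _
        fin_cases i
        · exact h02
        · exact h13

end Even

end Pool.Agent.Lib.MP_a05470_co
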