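import Pool.Agent.Lib.MP_a05470_co.JFam

/-!
# Costs and certificates
-/

set_option autoImplicit false
set_option linter.unusedSectionVars false

namespace Pool.Agent.Lib.MP_a05470_co

open Finset Classical

namespace JF

variable {W : Type} [Fintype W] {Gr Gb : SimpleGraph W}

/-- the total cost between `v` and `C` -/
noncomputable def tau (A B : ℝ) (Gr Gb : SimpleGraph W) (v : W) (C : Finset W) : ℝ :=
  ∑ x ∈ C, Mat A B Gr Gb x v

/-- the weight of a box at level `k` -/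
noncomputable def cc (Gr Gb : SimpleGraph W) (k : ℕ) (C : Finset W) : ℝ :=
  k + (if big Gr Gb k C then (1 : ℝ) else 0)

/-- the cost of `v` with respect to the box `C` at level `k` -/
noncomputable def qq (A B : ℝ) (Gr Gb : SimpleGraph W) (k : ℕ) (v : W) (C : Finset W) : ℝ :=
  cc Gr Gb k C * tau A B Gr Gb v C / C.card

theorem cc_nonneg (k : ℕ) (C : Finset W) : 0 ≤ cc Gr Gb k C := by
  unfold cc
  split_ifs <;> positivity

theorem cc_ge (k : ℕ) (C : Finset W) : (k : ℝ) ≤ cc Gr Gb k C := by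
  unfold cc
  split_ifs <;> linarith

theorem cc_big {k : ℕ} {C : Finset W} (h : big Gr Gb k C) : cc Gr Gb k C = k + 1 := by
  unfold cc
  rw [if_pos h]

theorem cc_not {k : ℕ} {C : Finset W} (h : ¬ big Gr Gb k C) : cc Gr Gb k C = k := by
  unfold cc
  rw [if_neg h, add_zero]

theorem sum_cc (k : ℕ) (F : Finset (Finset W)) :
    ∑ C ∈ F, cc Gr Gb k C = k * F.card + NS Gr Gb k F := by
  unfold cc NS
  rw [sum_add_distrib, sum_const, nsmul_eq_mul, ← sum_filter]
  simp
  ring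

/-- from certificates to the size of the family -/
theorem cheap_family {A B : ℝ} (hG : Cheap A B Gr Gb) (F : Finset (Finset W)) (k : ℕ) {ω : ℝ}
    (hω : 0 ≤ ω) (K' : Finset W) {c : ℝ} (hc : 0 < c) (hne : ∀ C ∈ F, C.Nonempty)
    (h : ∀ v, c ≤ ∑ C ∈ F, qq A B Gr Gb k v C + ω * ∑ z ∈ K', Mat A B Gr Gb z v) :
    c < k * F.card + NS Gr Gb k F + ω * K'.card := by
  have h1 := hG (fun x => ∑ C ∈ F, (if x ∈ C then cc Gr Gb k C / C.card else 0) +
    (if x ∈ K' then ω else 0)) c (by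
      intro x
      apply add_nonneg
      · apply sum_nonneg
        intro C _
        split_ifs
        · exact div_nonneg (cc_nonneg k C) (by positivity)
        · exact le_rfl
      · split_ifs
        · exact hω
        · exact le_rfl) hc (by
      intro v
      refine (h v).trans (le_of_eq ?_)
      simp_rw [add_mul, sum_mul]
      rw [sum_add_distrib, sum_comm]
      congr 1
      · apply sum_congr rfl
        intro C _
        unfold qq tau
        rw [mul_div_right_comm, mul_sum, ← sum_filter_add_sum_filter_not univ (fun x => x ∈ C)]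
        rw [sum_eq_zero (s := univ.filter (fun x => ¬ x ∈ C)), add_zero]
        · rw [filter_mem_eq_inter, univ_inter]
          apply sum_congr rfl
          intro x hx
          rw [if_pos hx]
        · intro x hx
          rw [mem_filter] at hx
          rw [if_neg hx.2, zero_mul]
      · rw [mul_sum, ← sum_filter_add_sum_filter_not univ (fun x => x ∈ K')]
        rw [sum_eq_zero (s := univ.filter (fun x => ¬ x ∈ K')), add_zero]
        · rw [filter_mem_eq_inter, univ_inter]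
          apply sum_congr rfl
          intro x hx
          rw [if_pos hx]
        · intro x hx
          rw [mem_filter] at hx
          rw [if_neg hx.2, zero_mul])
  refine lt_of_lt_of_eq h1 ?_
  rw [sum_add_distrib, sum_comm, ← sum_cc]
  congr 1
  · apply sum_congr rfl
    intro C hC
    rw [← sum_filter, filter_mem_eq_inter, univ_inter, sum_const, nsmul_eq_mul]
    have h0 : (C.card : ℝ) ≠ 0 := by
      have := card_pos.2 (hne C hC)
      positivity
    field_simp
  · rw [← sum_filter, filter_mem_eq_inter, univ_inter, sum_const, nsmul_eq_mul]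
    ring

section costs

variable {A G : ℝ} {v : W} {C : Finset W} {k : ℕ}

theorem mat_nonneg (hA : 0 ≤ A) (hG : 0 ≤ G) (x v : W) : 0 ≤ Mat A (A + G) Gr Gb x v := by
  unfold Mat
  split_ifs <;> linarith

theorem mat_nonred (hA : 0 ≤ A) (hG : 0 ≤ G) {x v : W} (h : ¬ (Gr.Adj x v ∧ Gb.Adj x v)) :
    A ≤ Mat A (A + G) Gr Gb x v := by
  unfold Mat
  split_ifs with h1 h2
  · exact absurd ⟨h1, h2⟩ h
  all_goals linarith

theorem mat_nonblue (hA : 0 ≤ A) {x v : W} (h : ¬ Gb.Adj x v) :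
    A + G ≤ Mat A (A + G) Gr Gb x v := by
  unfold Mat
  split_ifs
  all_goals linarith

theorem tau_nonneg (hA : 0 ≤ A) (hG : 0 ≤ G) : 0 ≤ tau A (A + G) Gr Gb v C :=
  sum_nonneg (fun x _ => mat_nonneg hA hG x v)

theorem qq_nonneg (hA : 0 ≤ A) (hG : 0 ≤ G) : 0 ≤ qq A (A + G) Gr Gb k v C :=
  div_nonneg (mul_nonneg (cc_nonneg k C) (tau_nonneg hA hG)) (by positivity)

theorem card_sub_gp : (C.card : ℝ) - (gp Gr Gb v C).card =
    ∑ x ∈ C, if Gr.Adj v x ∧ Gb.Adj v x then (0 : ℝ) else 1 := by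
  have h1 : C.card = (gp Gr Gb v C).card + (C.filter (fun x => ¬ (Gr.Adj v x ∧ Gb.Adj v x))).card :=
    (card_filter_add_card_filter_not _).symm
  have h2 : (C.card : ℝ) = (gp Gr Gb v C).card +
      (C.filter (fun x => ¬ (Gr.Adj v x ∧ Gb.Adj v x))).card := by exact_mod_cast h1
  rw [h2, card_filter]
  push_cast
  have h3 : ∀ x ∈ C, (if Gr.Adj v x ∧ Gb.Adj v x then (0 : ℝ) else 1) =
      if ¬ (Gr.Adj v x ∧ Gb.Adj v x) then (1 : ℝ) else 0 := by
    intro x _
    by_cases h : Gr.Adj v x ∧ Gb.Adj v x <;> simp [h]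
  rw [sum_congr rfl h3]
  ring

theorem card_sub_bp : (C.card : ℝ) - (bp Gb v C).card =
    ∑ x ∈ C, if Gb.Adj v x then (0 : ℝ) else 1 := by
  have h1 : C.card = (bp Gb v C).card + (C.filter (fun x => ¬ Gb.Adj v x)).card :=
    (card_filter_add_card_filter_not _).symm
  have h2 : (C.card : ℝ) = (bp Gb v C).card + (C.filter (fun x => ¬ Gb.Adj v x)).card := by
    exact_mod_cast h1
  rw [h2, card_filter]
  push_cast
  have h3 : ∀ x ∈ C, (if Gb.Adj v x then (0 : ℝ) else 1) =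
      if ¬ Gb.Adj v x then (1 : ℝ) else 0 := by
    intro x _
    by_cases h : Gb.Adj v x <;> simp [h]
  rw [sum_congr rfl h3]
  ring

theorem tau_ge' (hA : 0 ≤ A) :
    A * ((C.card : ℝ) - (gp Gr Gb v C).card) + G * ((C.card : ℝ) - (bp Gb v C).card) ≤
      tau A (A + G) Gr Gb v C := by
  rw [card_sub_gp, card_sub_bp, mul_sum, mul_sum, ← sum_add_distrib]
  unfold tau
  apply sum_le_sum
  intro x _
  unfold Mat
  rw [Gr.adj_comm x v, Gb.adj_comm x v]
  by_cases h1 : Gr.Adj v x <;> by_cases h2 : Gb.Adj v x <;> simp [h1, h2]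
  linarith

theorem tau_none (hA : 0 ≤ A) {y : W} (hy : y ∈ C) (h1 : ¬ Gr.Adj v y) (h2 : ¬ Gb.Adj v y) :
    A * ((C.card : ℝ) - (gp Gr Gb v C).card) + G * ((C.card : ℝ) - (bp Gb v C).card) + A ≤
      tau A (A + G) Gr Gb v C := by
  have h3 : A = ∑ x ∈ C, if x = y then A else 0 := by
    rw [sum_ite_eq' C y (fun _ => A), if_pos hy]
  rw [card_sub_gp, card_sub_bp, mul_sum, mul_sum, ← sum_add_distrib]
  conv_lhs => rw [add_comm]
  nth_rewrite 1 [h3]
  rw [← sum_add_distrib]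
  unfold tau
  apply sum_le_sum
  intro x _
  unfold Mat
  rw [Gr.adj_comm x v, Gb.adj_comm x v]
  by_cases hx : x = y
  · subst hx
    simp [h1, h2]
  · by_cases h1 : Gr.Adj v x <;> by_cases h2 : Gb.Adj v x <;> simp [h1, h2, hx] <;> linarith

theorem le_qq {t : ℝ} (hC : C.Nonempty) (h : t * C.card ≤ cc Gr Gb k C * tau A (A + G) Gr Gb v C) :
    t ≤ qq A (A + G) Gr Gb k v C := by
  unfold qq
  rw [le_div_iff₀ (by exact_mod_cast card_pos.2 hC)]
  exact h

/-- a full box -/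
theorem qq_full (hA : 0 ≤ A) (hG : 0 ≤ G) (hC : C.Nonempty) (hf : gp Gr Gb v C = ∅) :
    cc Gr Gb k C * A ≤ qq A (A + G) Gr Gb k v C := by
  apply le_qq hC
  have h1 := tau_ge' (Gr := Gr) (Gb := Gb) (G := G) (v := v) (C := C) hA
  rw [hf, card_empty] at h1
  have h2 : (bp Gb v C).card ≤ C.card := card_le_card (bp_subset v C)
  have h3 : ((bp Gb v C).card : ℝ) ≤ C.card := by exact_mod_cast h2
  have h4 : A * C.card ≤ tau A (A + G) Gr Gb v C := by
    push_cast at h1
    nlinarith [mul_nonneg hG (sub_nonneg.2 h3)]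
  have h5 := mul_le_mul_of_nonneg_left h4 (cc_nonneg (Gr := Gr) (Gb := Gb) k C)
  linarith

/-- a full box with many nonblue vertices -/
theorem qq_full_r (hA : 0 ≤ A) (hG : 0 ≤ G) (hC : C.Nonempty) (hf : gp Gr Gb v C = ∅) {t : ℝ}
    (ht : t * C.card ≤ (C.card : ℝ) - (bp Gb v C).card) :
    cc Gr Gb k C * (A + G * t) ≤ qq A (A + G) Gr Gb k v C := by
  apply le_qq hC
  have h1 := tau_ge' (Gr := Gr) (Gb := Gb) (G := G) (v := v) (C := C) hA
  rw [hf, card_empty] at h1
  have h4 : (A + G * t) * C.card ≤ tau A (A + G) Gr Gb v C := by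
    push_cast at h1
    have := mul_le_mul_of_nonneg_left ht hG
    nlinarith
  have h5 := mul_le_mul_of_nonneg_left h4 (cc_nonneg (Gr := Gr) (Gb := Gb) k C)
  linarith

/-- a full box with many nonblue vertices and a vertex missing both colours -/
theorem qq_full_none (hA : 0 ≤ A) (hG : 0 ≤ G) (hC : C.Nonempty) (hf : gp Gr Gb v C = ∅) {t u : ℝ}
    (ht : t * C.card ≤ (C.card : ℝ) - (bp Gb v C).card) (hu : u * C.card ≤ 1) {y : W} (hy : y ∈ C)
    (h1 : ¬ Gr.Adj v y) (h2 : ¬ Gb.Adj v y) :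
    cc Gr Gb k C * (A + G * t + A * u) ≤ qq A (A + G) Gr Gb k v C := by
  apply le_qq hC
  have h1 := tau_none (G := G) (C := C) hA hy h1 h2
  rw [hf, card_empty] at h1
  have h4 : (A + G * t + A * u) * C.card ≤ tau A (A + G) Gr Gb v C := by
    push_cast at h1
    have h6 := mul_le_mul_of_nonneg_left ht hG
    have h7 := mul_le_mul_of_nonneg_left hu hA
    nlinarith
  have h5 := mul_le_mul_of_nonneg_left h4 (cc_nonneg (Gr := Gr) (Gb := Gb) k C)
  linarith

theorem RB.gp_empty (h : RB Gr Gb C) (hv : v ∈ C) : gp Gr Gb v C = ∅ ∧ bp Gb v C = ∅ := by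
  constructor
  · rw [← not_nonempty_iff_eq_empty]
    rintro ⟨x, hx⟩
    rw [mem_gp] at hx
    exact (h.2 v hv x hx.1 (Gb.ne_of_adj hx.2.2)).2 hx.2.2
  · rw [← not_nonempty_iff_eq_empty]
    rintro ⟨x, hx⟩
    rw [mem_bp] at hx
    exact (h.2 v hv x hx.1 (Gb.ne_of_adj hx.2)).2 hx.2

theorem BB.gp_empty (h : BB Gr Gb C) (hv : v ∈ C) : gp Gr Gb v C = ∅ ∧ (bp Gb v C).card ≤ 1 := by
  obtain ⟨x, y, hxy, rfl, h1, h2⟩ := h
  constructor
  · rw [← not_nonempty_iff_eq_empty]
    rintro ⟨z, hz⟩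
    rw [mem_gp, mem_insert, mem_singleton] at hz
    rw [mem_insert, mem_singleton] at hv
    rcases hv with rfl | rfl <;> rcases hz.1 with rfl | rfl
    · exact Gr.irrefl hz.2.1
    · exact h2 hz.2.1
    · exact h2 hz.2.1.symm
    · exact Gr.irrefl hz.2.1
  · have h3 : bp Gb v {x, y} ⊆ ({x, y} : Finset W).erase v := by
      intro z hz
      rw [mem_bp] at hz
      exact mem_erase.2 ⟨(Gb.ne_of_adj hz.2).symm, hz.1⟩
    have h4 := card_le_card h3
    rw [card_erase_of_mem hv, card_pair hxy] at h4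
    exact h4

theorem RB.not_BB (h : RB Gr Gb C) : ¬ BB Gr Gb C := by
  rintro ⟨x, y, hxy, rfl, h1, h2⟩
  exact h2 (h.2 x (by simp) y (by simp) hxy).1

/-- the cost of a vertex in a red box -/
theorem qq_RB (hA : 0 ≤ A) (hG : 0 ≤ G) (h : RB Gr Gb C) (hv : v ∈ C) (hk : 1 ≤ k) :
    (k : ℝ) * (A + G) + A ≤ qq A (A + G) Gr Gb k v C := by
  have hs : (0 : ℝ) < C.card := by exact_mod_cast card_pos.2 h.1
  have h1 := qq_full_none (k := k) (Gr := Gr) (Gb := Gb) (A := A) (G := G) hA hG h.1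
    (h.gp_empty hv).1 (t := 1) (u := 1 / C.card) (by
      rw [(h.gp_empty hv).2, card_empty]; simp) (by
      rw [one_div, inv_mul_cancel₀ hs.ne']) hv Gr.irrefl Gb.irrefl
  refine le_trans ?_ h1
  have hk' : (1 : ℝ) ≤ k := by exact_mod_cast hk
  by_cases hb : big Gr Gb k C
  · rw [cc_big hb]
    have h2 : 0 ≤ A * (1 / (C.card : ℝ)) := by positivity
    nlinarith [mul_nonneg (by linarith : (0 : ℝ) ≤ k + 1) h2]
  · rw [cc_not hb]
    have h3 : C.card ≤ k := by
      by_contra hcon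
      exact hb (Or.inl (by omega))
    have h4 : (C.card : ℝ) ≤ k := by exact_mod_cast h3
    have h5 : 1 ≤ (k : ℝ) * (1 / (C.card : ℝ)) := by
      rw [mul_one_div, le_div_iff₀ hs]
      linarith
    nlinarith [mul_le_mul_of_nonneg_left h5 hA]

theorem qq_RB_zero (hA : 0 ≤ A) (hG : 0 ≤ G) (h : RB Gr Gb C) (hv : v ∈ C) :
    A + G ≤ qq A (A + G) Gr Gb 0 v C := by
  have h1 := qq_full_r (k := 0) (Gr := Gr) (Gb := Gb) (A := A) (G := G) hA hG h.1
    (h.gp_empty hv).1 (t := 1) (by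
      rw [(h.gp_empty hv).2, card_empty]; simp)
  rw [cc_big (big_zero h.1)] at h1
  push_cast at h1
  linarith

/-- the cost of a vertex in a blue pair -/
theorem qq_BB (hA : 0 ≤ A) (hG : 0 ≤ G) (h : BB Gr Gb C) (hv : v ∈ C) :
    ((k : ℝ) + 1) * (3 * A + G) / 2 ≤ qq A (A + G) Gr Gb k v C := by
  have hc : (C.card : ℝ) = 2 := by exact_mod_cast h.card
  have h2 : ((bp Gb v C).card : ℝ) ≤ 1 := by exact_mod_cast (h.gp_empty hv).2
  have h1 := qq_full_none (k := k) (Gr := Gr) (Gb := Gb) (A := A) (G := G) hA hG ⟨v, hv⟩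
    (h.gp_empty hv).1 (t := 1 / 2) (u := 1 / 2) (by rw [hc]; linarith) (by rw [hc]; norm_num)
    hv Gr.irrefl Gb.irrefl
  rw [cc_big (Or.inr h)] at h1
  linarith

/-- `C` is not completely green to `v` and has at most `d` green vertices -/
def Bad (Gr Gb : SimpleGraph W) (d : ℕ) (v : W) (C : Finset W) : Prop :=
  ¬ (gp Gr Gb v C = C ∨ d < (gp Gr Gb v C).card)

theorem Bad.card {d : ℕ} (h : Bad Gr Gb d v C) :
    (gp Gr Gb v C).card < C.card ∧ (gp Gr Gb v C).card ≤ d := by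
  unfold Bad at h
  push Not at h
  refine ⟨?_, h.2⟩
  apply card_lt_card
  rw [Finset.ssubset_iff_subset_ne]
  exact ⟨gp_subset v C, h.1⟩

theorem tau_ge_ng (hA : 0 ≤ A) (hG : 0 ≤ G) :
    A * ((C.card : ℝ) - (gp Gr Gb v C).card) ≤ tau A (A + G) Gr Gb v C := by
  have h1 := tau_ge' (Gr := Gr) (Gb := Gb) (G := G) (v := v) (C := C) hA
  have h2 : (bp Gb v C).card ≤ C.card := card_le_card (bp_subset v C)
  have h3 : ((bp Gb v C).card : ℝ) ≤ C.card := by exact_mod_cast h2
  nlinarith [mul_nonneg hG (sub_nonneg.2 h3)]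

theorem qq_bad (hA : 0 ≤ A) (hG : 0 ≤ G) {d : ℕ} (hk : 1 ≤ k) (hdk : d ≤ k)
    (h : Bad Gr Gb d v C) : A ≤ qq A (A + G) Gr Gb k v C := by
  obtain ⟨h1, h2⟩ := h.card
  apply le_qq (card_pos.1 (by omega))
  have h3 := tau_ge_ng (Gr := Gr) (Gb := Gb) (v := v) (C := C) hA hG
  have h4 : (C.card : ℝ) ≤ cc Gr Gb k C * ((C.card : ℝ) - (gp Gr Gb v C).card) := by
    have g1 : ((gp Gr Gb v C).card : ℝ) + 1 ≤ C.card := by exact_mod_cast h1
    have g2 : ((gp Gr Gb v C).card : ℝ) ≤ k := by exact_mod_cast h2.trans hdk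
    have g3 : (1 : ℝ) ≤ k := by exact_mod_cast hk
    by_cases hb : big Gr Gb k C
    · rw [cc_big hb]
      rcases hb with hb | hb
      · have g4 : (k : ℝ) + 1 ≤ C.card := by exact_mod_cast hb
        nlinarith [mul_nonneg (by linarith : (0 : ℝ) ≤ k) (sub_nonneg.2 g4),
          mul_nonneg (by linarith : (0 : ℝ) ≤ k + 1) (sub_nonneg.2 g2)]
      · have g5 : (C.card : ℝ) = 2 := by exact_mod_cast hb.card
        rw [g5] at g1 ⊢
        nlinarith
    · rw [cc_not hb]
      have g4 : C.card ≤ k := by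
        by_contra hcon
        exact hb (Or.inl (by omega))
      have g5 : (C.card : ℝ) ≤ k := by exact_mod_cast g4
      nlinarith
  have h5 := mul_le_mul_of_nonneg_left h3 (cc_nonneg (Gr := Gr) (Gb := Gb) k C)
  have h6 := mul_le_mul_of_nonneg_left h4 hA
  linarith

theorem qq_bad' (hA : 0 ≤ A) (hG : 0 ≤ G) {d : ℕ} (h : Bad Gr Gb d v C) :
    (k : ℝ) * A / (d + 1) ≤ qq A (A + G) Gr Gb k v C := by
  obtain ⟨h1, h2⟩ := h.card
  apply le_qq (card_pos.1 (by omega))
  have h3 := tau_ge_ng (Gr := Gr) (Gb := Gb) (v := v) (C := C) hA hG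
  have hd : (0 : ℝ) < (d : ℝ) + 1 := by positivity
  have h4 : (C.card : ℝ) ≤ (d + 1) * ((C.card : ℝ) - (gp Gr Gb v C).card) := by
    have g1 : ((gp Gr Gb v C).card : ℝ) + 1 ≤ C.card := by exact_mod_cast h1
    have g2 : ((gp Gr Gb v C).card : ℝ) ≤ d := by exact_mod_cast h2
    have g3 : (0 : ℝ) ≤ (gp Gr Gb v C).card := by positivity
    nlinarith [mul_nonneg g3 (sub_nonneg.2 g1), mul_nonneg (sub_nonneg.2 g2) (by linarith :
      (0 : ℝ) ≤ (C.card : ℝ) - (gp Gr Gb v C).card)]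
  have h5 := cc_ge (Gr := Gr) (Gb := Gb) k C
  rw [div_mul_eq_mul_div, div_le_iff₀ hd]
  have hk : (0 : ℝ) ≤ k := by positivity
  have h6 : (k : ℝ) * tau A (A + G) Gr Gb v C ≤ cc Gr Gb k C * tau A (A + G) Gr Gb v C :=
    mul_le_mul_of_nonneg_right h5 (tau_nonneg hA hG)
  have h7 : (k : ℝ) * A * C.card ≤ k * ((d + 1) * tau A (A + G) Gr Gb v C) := by
    have := mul_le_mul_of_nonneg_left h4 (mul_nonneg hk hA)
    have h8 := mul_le_mul_of_nonneg_left h3 (mul_nonneg hk hd.le)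
    linarith
  have h8 := mul_le_mul_of_nonneg_right h6 hd.le
  linarith

/-- few blue vertices in a box with at least two vertices -/
theorem qq_fewblue (hA : 0 ≤ A) (hG : 0 ≤ G) (hs : 2 ≤ C.card) (h : (bp Gb v C).card ≤ 1) :
    (k : ℝ) * (A + G) / 2 ≤ qq A (A + G) Gr Gb k v C ∧
    (k = 1 → A + G ≤ qq A (A + G) Gr Gb k v C) := by
  have hne : C.Nonempty := card_pos.1 (by omega)
  have h1 := tau_ge' (Gr := Gr) (Gb := Gb) (G := G) (v := v) (C := C) hA
  have h2 : ((gp Gr Gb v C).card : ℝ) ≤ 1 := by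
    exact_mod_cast (card_le_card (gp_subset_bp (Gr := Gr) (Gb := Gb) v C)).trans h
  have h3 : ((bp Gb v C).card : ℝ) ≤ 1 := by exact_mod_cast h
  have h4 : (2 : ℝ) ≤ C.card := by exact_mod_cast hs
  have h5 : (A + G) * ((C.card : ℝ) - 1) ≤ tau A (A + G) Gr Gb v C := by
    nlinarith [mul_nonneg hA (sub_nonneg.2 h2), mul_nonneg hG (sub_nonneg.2 h3)]
  constructor
  · apply le_qq hne
    have hk : (0 : ℝ) ≤ k := by positivity
    have h6 : (k : ℝ) * tau A (A + G) Gr Gb v C ≤ cc Gr Gb k C * tau A (A + G) Gr Gb v C :=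
      mul_le_mul_of_nonneg_right (cc_ge k C) (tau_nonneg hA hG)
    have h7 := mul_le_mul_of_nonneg_left h5 hk
    have h8 : 0 ≤ (k : ℝ) * (A + G) * ((C.card : ℝ) - 2) := by
      apply mul_nonneg (mul_nonneg hk (by linarith)) (by linarith)
    nlinarith
  · rintro rfl
    apply le_qq hne
    rw [cc_big (big_one.2 hs)]
    push_cast
    have h8 : 0 ≤ (A + G) * ((C.card : ℝ) - 2) := mul_nonneg (by linarith) (by linarith)
    nlinarith

end costs

end JF

end Pool.Agent.Lib.MP_a05470_co
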