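import Pool.Agent.Lib.MP_a05470_co.PDCore

/-!
# Families of boxes with a blue clique

The structure used for critical graphs: a family `F` of boxes (red cliques without blue edges, or
blue pairs without a red edge), green between different boxes, and a blue clique `K` which is blue
to all boxes, every vertex of `K` being fully green to all but at most two boxes.
-/

set_option autoImplicit false
set_option linter.unusedSectionVars false

namespace Pool.Agent.Lib.MP_a05470_co

open Finset Classical

namespace JF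

/-- a lexicographic maximum -/
theorem exists_lex_max {α : Type} (S : Finset α) (hS : S.Nonempty) (f : ℕ → α → ℕ) :
    ∃ s ∈ S, ∀ s' ∈ S, ∀ i, (∀ j < i, f j s ≤ f j s') → f i s' ≤ f i s := by
  obtain ⟨s, hs, hmax⟩ := Finset.exists_max_image S (fun s => toLex (fun j => f j s)) hS
  refine ⟨s, hs, fun s' hs' i hi => ?_⟩
  by_contra hcon
  push Not at hcon
  have h1 := hmax s' hs'
  apply not_lt.2 h1
  have hex : ∃ j, j ≤ i ∧ f j s < f j s' := ⟨i, le_rfl, hcon⟩
  obtain ⟨h2, h3⟩ := Nat.find_spec hex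
  refine ⟨Nat.find hex, ?_, h3⟩
  intro j hj
  have h4 := Nat.find_min hex hj
  have h5 : j < i := lt_of_lt_of_le hj h2
  have h6 := hi j h5
  have h7 : ¬ f j s < f j s' := fun h => h4 ⟨h5.le, h⟩
  exact le_antisymm h6 (not_lt.1 h7)

variable {W : Type} [Fintype W] {Gr Gb : SimpleGraph W}

/-- if all costs with respect to a weighting are at least `c`, its total is larger than `c` -/
def Cheap (a b : ℝ) (Gr Gb : SimpleGraph W) : Prop :=
  ∀ (w : W → ℝ) (c : ℝ), (∀ x, 0 ≤ w x) → 0 < c →
    (∀ v, c ≤ ∑ x, w x * Mat a b Gr Gb x v) → c < ∑ x, w x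

section boxes

variable (Gr Gb)

/-- a red box -/
def RB (C : Finset W) : Prop :=
  C.Nonempty ∧ ∀ x ∈ C, ∀ y ∈ C, x ≠ y → Gr.Adj x y ∧ ¬ Gb.Adj x y

/-- a blue pair -/
def BB (C : Finset W) : Prop :=
  ∃ x y, x ≠ y ∧ C = {x, y} ∧ Gb.Adj x y ∧ ¬ Gr.Adj x y

/-- a box -/
def Box (C : Finset W) : Prop := RB Gr Gb C ∨ BB Gr Gb C

/-- the part of `C` that is green to `v` -/
noncomputable def gp (v : W) (C : Finset W) : Finset W :=
  C.filter (fun x => Gr.Adj v x ∧ Gb.Adj v x)

/-- the part of `C` that is blue to `v` -/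
noncomputable def bp (v : W) (C : Finset W) : Finset W := C.filter (fun x => Gb.Adj v x)

/-- boxes with more than `k` vertices; blue pairs count always -/
def big (k : ℕ) (C : Finset W) : Prop := k < C.card ∨ BB Gr Gb C

/-- the number of big boxes -/
noncomputable def NS (k : ℕ) (F : Finset (Finset W)) : ℕ := (F.filter (fun C => big Gr Gb k C)).card

/-- a family of boxes with a blue clique -/
structure KF (F : Finset (Finset W)) (K : Finset W) : Prop where
  box : ∀ C ∈ F, Box Gr Gb C
  green : ∀ C ∈ F, ∀ D ∈ F, C ≠ D → ∀ x ∈ C, ∀ y ∈ D, Gr.Adj x y ∧ Gb.Adj x y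
  blueK : ∀ z ∈ K, ∀ z' ∈ K, z ≠ z' → Gb.Adj z z'
  blueF : ∀ z ∈ K, ∀ C ∈ F, ∀ x ∈ C, Gb.Adj z x
  exc : ∀ z ∈ K, (F.filter (fun C => ∃ x ∈ C, ¬ Gr.Adj z x)).card ≤ 2

/-- the components of the potential -/
noncomputable def pot (a g : ℕ) : ℕ → Finset (Finset W) × Finset W → ℕ
  | 0, S => NS Gr Gb 0 S.1
  | 1, S => min (NS Gr Gb 1 S.1) a
  | 2, S => min S.2.card g
  | (j + 3), S => NS Gr Gb (j + 1) S.1

/-- lexicographically maximal families -/
structure Best (a g : ℕ) (F : Finset (Finset W)) (K : Finset W) : Prop where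
  kf : KF Gr Gb F K
  max : ∀ F' K', KF Gr Gb F' K' → ∀ i, (∀ j < i, pot Gr Gb a g j (F, K) ≤ pot Gr Gb a g j (F', K')) →
    pot Gr Gb a g i (F', K') ≤ pot Gr Gb a g i (F, K)

end boxes

theorem exists_best (Gr Gb : SimpleGraph W) (a g : ℕ) : ∃ F K, Best Gr Gb a g F K := by
  set S : Finset (Finset (Finset W) × Finset W) := univ.filter (fun S => KF Gr Gb S.1 S.2) with hS
  have hne : S.Nonempty := ⟨(∅, ∅), by
    rw [hS, mem_filter]
    exact ⟨mem_univ _, ⟨by simp, by simp, by simp, by simp, by simp⟩⟩⟩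
  obtain ⟨⟨F, K⟩, hFK, hmax⟩ := exists_lex_max S hne (pot Gr Gb a g)
  rw [hS, mem_filter] at hFK
  refine ⟨F, K, hFK.2, fun F' K' h' i hi => ?_⟩
  exact hmax (F', K') (by rw [hS, mem_filter]; exact ⟨mem_univ _, h'⟩) i hi

theorem gp_subset (v : W) (C : Finset W) : gp Gr Gb v C ⊆ C := filter_subset _ _

theorem bp_subset (v : W) (C : Finset W) : bp Gb v C ⊆ C := filter_subset _ _

theorem gp_subset_bp (v : W) (C : Finset W) : gp Gr Gb v C ⊆ bp Gb v C := by
  intro x hx
  unfold gp at hx
  unfold bp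
  rw [mem_filter] at hx ⊢
  exact ⟨hx.1, hx.2.2⟩

theorem mem_gp {v x : W} {C : Finset W} : x ∈ gp Gr Gb v C ↔ x ∈ C ∧ Gr.Adj v x ∧ Gb.Adj v x := by
  unfold gp
  rw [mem_filter]

theorem mem_bp {v x : W} {C : Finset W} : x ∈ bp Gb v C ↔ x ∈ C ∧ Gb.Adj v x := by
  unfold bp
  rw [mem_filter]

theorem Box.nonempty {C : Finset W} (h : Box Gr Gb C) : C.Nonempty := by
  rcases h with h | ⟨x, y, _, rfl, _⟩
  · exact h.1
  · exact ⟨x, by simp⟩

theorem rb_single (v : W) : RB Gr Gb ({v} : Finset W) := by
  refine ⟨singleton_nonempty v, ?_⟩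
  intro x hx y hy hxy
  rw [mem_singleton] at hx hy
  exact absurd (hx.trans hy.symm) hxy

theorem BB.card {C : Finset W} (h : BB Gr Gb C) : C.card = 2 := by
  obtain ⟨x, y, hxy, rfl, _⟩ := h
  exact card_pair hxy

theorem Box.sub {C S : Finset W} (h : Box Gr Gb C) (hS : S ⊆ C) (hne : S.Nonempty) :
    Box Gr Gb S := by
  rcases h with h | h
  · exact Or.inl ⟨hne, fun x hx y hy => h.2 x (hS hx) y (hS hy)⟩
  · rcases Nat.lt_or_ge S.card 2 with h1 | h1
    · have h2 : S.card = 1 := by
        have := card_pos.2 hne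
        omega
      obtain ⟨x, rfl⟩ := card_eq_one.1 h2
      exact Or.inl (rb_single x)
    · have h2 : S = C := eq_of_subset_of_card_le hS (by rw [h.card]; exact h1)
      rw [h2]
      exact Or.inr h

theorem big_zero {C : Finset W} (h : C.Nonempty) : big Gr Gb 0 C := Or.inl (card_pos.2 h)

theorem NS_zero {F : Finset (Finset W)} (h : ∀ C ∈ F, C.Nonempty) : NS Gr Gb 0 F = F.card := by
  unfold NS
  rw [filter_true_of_mem]
  exact fun C hC => big_zero (h C hC)

theorem big_anti {j k : ℕ} (hjk : j ≤ k) {C : Finset W} (h : big Gr Gb k C) : big Gr Gb j C := by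
  rcases h with h | h
  · exact Or.inl (lt_of_le_of_lt hjk h)
  · exact Or.inr h

theorem big_one {C : Finset W} : big Gr Gb 1 C ↔ 2 ≤ C.card := by
  constructor
  · rintro (h | h)
    · exact h
    · rw [h.card]
  · intro h
    exact Or.inl h

/-- the general modification of a family -/
theorem kf_image {I : Finset (Finset W)} {κ : Finset W → Finset W} {K' : Finset W}
    (hbox : ∀ C ∈ I, Box Gr Gb (κ C))
    (hgreen : ∀ C ∈ I, ∀ D ∈ I, C ≠ D → ∀ x ∈ κ C, ∀ y ∈ κ D, Gr.Adj x y ∧ Gb.Adj x y)
    (hK : ∀ z ∈ K', ∀ z' ∈ K', z ≠ z' → Gb.Adj z z')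
    (hKF : ∀ z ∈ K', ∀ C ∈ I, ∀ x ∈ κ C, Gb.Adj z x)
    (hexc : ∀ z ∈ K', (I.filter (fun C => ∃ x ∈ κ C, ¬ Gr.Adj z x)).card ≤ 2) :
    KF Gr Gb (I.image κ) K' ∧ ∀ k, NS Gr Gb k (I.image κ) =
      (I.filter (fun C => big Gr Gb k (κ C))).card := by
  have hinj : ∀ C ∈ I, ∀ D ∈ I, κ C = κ D → C = D := by
    intro C hC D hD h
    by_contra hcon
    obtain ⟨x, hx⟩ := (hbox C hC).nonempty
    exact Gr.irrefl (hgreen C hC D hD hcon x hx x (by rw [← h]; exact hx)).1
  have hcount : ∀ P : Finset W → Prop, ((I.image κ).filter P).card =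
      (I.filter (fun C => P (κ C))).card := by
    intro P
    rw [filter_image, card_image_of_injOn]
    intro C hC D hD h
    rw [mem_coe, mem_filter] at hC hD
    exact hinj C hC.1 D hD.1 h
  refine ⟨⟨?_, ?_, hK, ?_, ?_⟩, fun k => hcount _⟩
  · intro C hC
    rw [mem_image] at hC
    obtain ⟨C, hC, rfl⟩ := hC
    exact hbox C hC
  · intro C hC D hD hCD
    rw [mem_image] at hC hD
    obtain ⟨C, hC, rfl⟩ := hC
    obtain ⟨D, hD, rfl⟩ := hD
    exact hgreen C hC D hD (fun h => hCD (by rw [h]))
  · intro z hz C hC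
    rw [mem_image] at hC
    obtain ⟨C, hC, rfl⟩ := hC
    exact hKF z hz C hC
  · intro z hz
    refine le_trans (le_of_eq ?_) (hexc z hz)
    convert hcount (fun C => ∃ x ∈ C, ¬ Gr.Adj z x)

section moves

variable {a g : ℕ} {F : Finset (Finset W)} {K : Finset W} {v : W}

/-- every vertex outside `F` has a box without green neighbours -/
theorem Best.full (hB : Best Gr Gb a g F K) (hv : ∀ C ∈ F, v ∉ C) :
    ∃ C ∈ F, gp Gr Gb v C = ∅ := by
  by_contra hcon
  push Not at hcon
  have hvF : ({v} : Finset W) ∉ F := fun h => hv _ h (mem_singleton_self v)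
  have hcase : ∀ C ∈ insert {v} F, (C = {v} ∧ v ∈ C) ∨ (C ∈ F ∧ v ∉ C) := by
    intro C hC
    rcases mem_insert.1 hC with rfl | h
    · exact Or.inl ⟨rfl, mem_singleton_self v⟩
    · exact Or.inr ⟨h, hv C h⟩
  obtain ⟨h1, h2⟩ := kf_image (Gr := Gr) (Gb := Gb) (I := insert {v} F)
    (κ := fun C => if v ∈ C then {v} else gp Gr Gb v C) (K' := ∅)
    (by
      intro C hC
      rcases hcase C hC with ⟨_, h⟩ | ⟨hCF, h⟩
      · simp only [if_pos h]
        exact Or.inl (rb_single v)
      · simp only [if_neg h]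
        exact (hB.kf.box C hCF).sub (gp_subset v C) (hcon C hCF))
    (by
      intro C hC D hD hCD x hx y hy
      rcases hcase C hC with ⟨hC1, h⟩ | ⟨hCF, h⟩ <;> rcases hcase D hD with ⟨hD1, h'⟩ | ⟨hDF, h'⟩
      · exact absurd (hC1.trans hD1.symm) hCD
      · simp only [if_pos h, mem_singleton] at hx
        simp only [if_neg h'] at hy
        rw [hx]
        exact (mem_gp.1 hy).2
      · simp only [if_neg h] at hx
        simp only [if_pos h', mem_singleton] at hy
        rw [hy]
        have := (mem_gp.1 hx).2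
        exact ⟨this.1.symm, this.2.symm⟩
      · simp only [if_neg h] at hx
        simp only [if_neg h'] at hy
        exact hB.kf.green C hCF D hDF hCD x (gp_subset v C hx) y (gp_subset v D hy))
    (by simp) (by simp) (by simp)
  have h3 := hB.max _ _ h1 0 (by simp)
  simp only [pot] at h3
  rw [h2 0, NS_zero (fun C hC => (hB.kf.box C hC).nonempty), filter_true_of_mem,
    card_insert_of_notMem hvF] at h3
  · omega
  · intro C hC
    rcases hcase C hC with ⟨_, h⟩ | ⟨hCF, h⟩
    · simp only [if_pos h]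
      exact big_zero (singleton_nonempty v)
    · simp only [if_neg h]
      exact big_zero (hcon C hCF)

/-- a vertex joins a box: the new family -/
theorem Best.join_core (hB : Best Gr Gb a g F K) {C0 D : Finset W} (hC0 : C0 ∈ F)
    (hD : Box Gr Gb D) (hDC : ∀ x ∈ D, x = v ∨ x ∈ C0) {K' : Finset W} (hK' : K' ⊆ K)
    (hKv : ∀ z ∈ K', Gr.Adj z v ∧ Gb.Adj z v) {d : ℕ}
    (hoth : ∀ C ∈ F, C ≠ C0 → gp Gr Gb v C = C ∨ d < (gp Gr Gb v C).card)
    (hbD : big Gr Gb d D) (hbC : ¬ big Gr Gb d C0) :
    ∃ F', KF Gr Gb F' K' ∧ (∀ j ≤ d, NS Gr Gb j F ≤ NS Gr Gb j F') ∧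
      NS Gr Gb d F < NS Gr Gb d F' := by
  have hne : ∀ C ∈ F, C ≠ C0 → (gp Gr Gb v C).Nonempty := by
    intro C hC hCC
    rcases hoth C hC hCC with h | h
    · rw [h]
      exact (hB.kf.box C hC).nonempty
    · exact card_pos.1 (by omega)
  have hDx : ∀ D' ∈ F, D' ≠ C0 → ∀ x ∈ D, ∀ y ∈ gp Gr Gb v D', Gr.Adj x y ∧ Gb.Adj x y := by
    intro D' hD' hne' x hx y hy
    rcases hDC x hx with rfl | hx
    · exact (mem_gp.1 hy).2
    · exact hB.kf.green C0 hC0 D' hD' (Ne.symm hne') x hx y (gp_subset v D' hy)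
  obtain ⟨h1, h2⟩ := kf_image (Gr := Gr) (Gb := Gb) (I := F)
    (κ := fun C => if C = C0 then D else gp Gr Gb v C) (K' := K')
    (by
      intro C hC
      by_cases h : C = C0
      · simp only [if_pos h]
        exact hD
      · simp only [if_neg h]
        exact (hB.kf.box C hC).sub (gp_subset v C) (hne C hC h))
    (by
      intro C hC D' hD' hCD x hx y hy
      by_cases h : C = C0 <;> by_cases h' : D' = C0
      · exact absurd (h.trans h'.symm) hCD
      · simp only [if_pos h] at hx
        simp only [if_neg h'] at hy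
        exact hDx D' hD' h' x hx y hy
      · simp only [if_neg h] at hx
        simp only [if_pos h'] at hy
        have := hDx C hC h y hy x hx
        exact ⟨this.1.symm, this.2.symm⟩
      · simp only [if_neg h] at hx
        simp only [if_neg h'] at hy
        exact hB.kf.green C hC D' hD' hCD x (gp_subset v C hx) y (gp_subset v D' hy))
    (fun z hz z' hz' => hB.kf.blueK z (hK' hz) z' (hK' hz'))
    (by
      intro z hz C hC x hx
      by_cases h : C = C0
      · simp only [if_pos h] at hx
        rcases hDC x hx with rfl | hx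
        · exact (hKv z hz).2
        · exact hB.kf.blueF z (hK' hz) C0 hC0 x hx
      · simp only [if_neg h] at hx
        exact hB.kf.blueF z (hK' hz) C hC x (gp_subset v C hx))
    (by
      intro z hz
      refine le_trans (card_le_card ?_) (hB.kf.exc z (hK' hz))
      intro C hC
      rw [mem_filter] at hC ⊢
      obtain ⟨hCF, x, hx, hzx⟩ := hC
      refine ⟨hCF, ?_⟩
      by_cases h : C = C0
      · simp only [if_pos h] at hx
        rcases hDC x hx with rfl | hx
        · exact absurd (hKv z hz).1 hzx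
        · exact ⟨x, by rw [h]; exact hx, hzx⟩
      · simp only [if_neg h] at hx
        exact ⟨x, gp_subset v C hx, hzx⟩)
  have h3 : ∀ j ≤ d, F.filter (fun C => big Gr Gb j C) ⊆
      F.filter (fun C => big Gr Gb j (if C = C0 then D else gp Gr Gb v C)) := by
    intro j hj C hC
    rw [mem_filter] at hC ⊢
    refine ⟨hC.1, ?_⟩
    by_cases h : C = C0
    · rw [if_pos h]
      exact big_anti hj hbD
    · rw [if_neg h]
      rcases hoth C hC.1 h with h' | h'
      · rw [h']
        exact hC.2
      · exact Or.inl (by omega)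
  refine ⟨_, h1, ?_, ?_⟩
  · intro j hj
    rw [h2 j]
    exact card_le_card (h3 j hj)
  · rw [h2 d]
    apply card_lt_card
    rw [Finset.ssubset_iff_of_subset (h3 d le_rfl)]
    refine ⟨C0, ?_, ?_⟩
    · rw [mem_filter, if_pos rfl]
      exact ⟨hC0, hbD⟩
    · rw [mem_filter]
      exact fun h => hbC h.2

/-- joining a box, keeping enough of `K` -/
theorem Best.no_join (hB : Best Gr Gb a g F K) {C0 D : Finset W} (hC0 : C0 ∈ F)
    (hD : Box Gr Gb D) (hDC : ∀ x ∈ D, x = v ∨ x ∈ C0) {K' : Finset W} (hK' : K' ⊆ K)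
    (hKv : ∀ z ∈ K', Gr.Adj z v ∧ Gb.Adj z v) (hKc : min K.card g ≤ min K'.card g) {d : ℕ}
    (hd : 1 ≤ d)
    (hoth : ∀ C ∈ F, C ≠ C0 → gp Gr Gb v C = C ∨ d < (gp Gr Gb v C).card)
    (hbD : big Gr Gb d D) (hbC : ¬ big Gr Gb d C0) : False := by
  obtain ⟨F', h1, h2, h3⟩ := hB.join_core hC0 hD hDC hK' hKv hoth hbD hbC
  have h4 := hB.max _ _ h1 (d + 2) (by
    intro j hj
    match j, hj with
    | 0, _ => exact h2 0 (by omega)
    | 1, _ => exact min_le_min_right a (h2 1 (by omega))
    | 2, _ => exact hKc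
    | j + 3, hj => exact h2 (j + 1) (by omega))
  obtain ⟨e, rfl⟩ : ∃ e, d = e + 1 := ⟨d - 1, by omega⟩
  simp only [pot] at h4
  omega

/-- joining a single vertex when there are few large boxes -/
theorem Best.no_join_one (hB : Best Gr Gb a g F K) {C0 D : Finset W} (hC0 : C0 ∈ F)
    (hD : Box Gr Gb D) (hDC : ∀ x ∈ D, x = v ∨ x ∈ C0) (ha : NS Gr Gb 1 F < a)
    (hoth : ∀ C ∈ F, C ≠ C0 → gp Gr Gb v C = C ∨ 1 < (gp Gr Gb v C).card)
    (hbD : big Gr Gb 1 D) (hbC : ¬ big Gr Gb 1 C0) : False := by
  obtain ⟨F', h1, h2, h3⟩ := hB.join_core hC0 hD hDC (empty_subset K) (by simp) hoth hbD hbC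
  have h4 := hB.max _ _ h1 1 (by
    intro j hj
    match j, hj with
    | 0, _ => exact h2 0 (by omega))
  simp only [pot] at h4
  omega

/-- `v` joins `K` -/
theorem Best.no_joinK (hB : Best Gr Gb a g F K) (hvK : v ∉ K) (hKg : K.card < g)
    (hKv : ∀ z ∈ K, Gb.Adj z v) {E : Finset (Finset W)} (hE : E.card ≤ 2)
    (hgne : ∀ C ∈ F, C ∉ E → (gp Gr Gb v C).Nonempty)
    (hbne : ∀ C ∈ F, C ∈ E → (bp Gb v C).Nonempty)
    (hN : min (NS Gr Gb 1 F) a ≤ min (F.filter (fun C => big Gr Gb 1
      (if C ∈ E then bp Gb v C else gp Gr Gb v C))).card a) : False := by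
  set κ : Finset W → Finset W := fun C => if C ∈ E then bp Gb v C else gp Gr Gb v C with hκ
  have hκs : ∀ C, κ C ⊆ C := by
    intro C
    by_cases h : C ∈ E
    · simp only [hκ, if_pos h]
      exact bp_subset v C
    · simp only [hκ, if_neg h]
      exact gp_subset v C
  have hκb : ∀ C, ∀ x ∈ κ C, Gb.Adj v x := by
    intro C x hx
    by_cases h : C ∈ E
    · simp only [hκ, if_pos h] at hx
      exact (mem_bp.1 hx).2
    · simp only [hκ, if_neg h] at hx
      exact (mem_gp.1 hx).2.2
  have hκne : ∀ C ∈ F, (κ C).Nonempty := by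
    intro C hC
    by_cases h : C ∈ E
    · simp only [hκ, if_pos h]
      exact hbne C hC h
    · simp only [hκ, if_neg h]
      exact hgne C hC h
  obtain ⟨h1, h2⟩ := kf_image (Gr := Gr) (Gb := Gb) (I := F) (κ := κ) (K' := insert v K)
    (fun C hC => (hB.kf.box C hC).sub (hκs C) (hκne C hC))
    (fun C hC D hD hCD x hx y hy => hB.kf.green C hC D hD hCD x (hκs C hx) y (hκs D hy))
    (by
      intro z hz z' hz' hne
      rcases mem_insert.1 hz with h | h <;> rcases mem_insert.1 hz' with h' | h'
      · exact absurd (h.trans h'.symm) hne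
      · rw [h]
        exact (hKv z' h').symm
      · rw [h']
        exact hKv z h
      · exact hB.kf.blueK z h z' h' hne)
    (by
      intro z hz C hC x hx
      rcases mem_insert.1 hz with h | h
      · rw [h]
        exact hκb C x hx
      · exact hB.kf.blueF z h C hC x (hκs C hx))
    (by
      intro z hz
      rcases mem_insert.1 hz with h | h
      · rw [h]
        refine le_trans (card_le_card ?_) hE
        intro C hC
        rw [mem_filter] at hC
        obtain ⟨_, x, hx, hvx⟩ := hC
        by_contra hcon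
        simp only [hκ, if_neg hcon] at hx
        exact hvx (mem_gp.1 hx).2.1
      · refine le_trans (card_le_card ?_) (hB.kf.exc z h)
        intro C hC
        rw [mem_filter] at hC ⊢
        obtain ⟨hCF, x, hx, hzx⟩ := hC
        exact ⟨hCF, x, hκs C hx, hzx⟩)
  have h3 := hB.max _ _ h1 2 (by
    intro j hj
    match j, hj with
    | 0, _ =>
      simp only [pot]
      rw [h2 0, NS_zero (fun C hC => (hB.kf.box C hC).nonempty), filter_true_of_mem]
      exact fun C hC => big_zero (hκne C hC)
    | 1, _ =>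
      simp only [pot]
      rw [h2 1]
      exact hN)
  simp only [pot] at h3
  rw [card_insert_of_notMem hvK] at h3
  omega

/-- `v` replaces one vertex of a blue pair, which joins `K` -/
theorem Best.no_swap (hB : Best Gr Gb a g F K) (hv : ∀ C ∈ F, v ∉ C) (hKg : K.card < g)
    (hKv : ∀ z ∈ K, Gr.Adj z v ∧ Gb.Adj z v) {c c' : W} (hcc : c ≠ c')
    (hC0 : ({c, c'} : Finset W) ∈ F) (hb : Gb.Adj c c') (h1 : Gr.Adj v c) (h2 : ¬ Gb.Adj v c)
    (h3 : Gb.Adj v c') (hoth : ∀ C ∈ F, C ≠ {c, c'} → gp Gr Gb v C = C ∨ 1 < (gp Gr Gb v C).card) :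
    False := by
  have hvc : v ≠ c := fun h => hv _ hC0 (by rw [h]; simp)
  have hne : ∀ C ∈ F, C ≠ {c, c'} → (gp Gr Gb v C).Nonempty := by
    intro C hC hCC
    rcases hoth C hC hCC with h | h
    · rw [h]
      exact (hB.kf.box C hC).nonempty
    · exact card_pos.1 (by omega)
  have hD : Box Gr Gb ({c, v} : Finset W) := by
    refine Or.inl ⟨⟨c, by simp⟩, ?_⟩
    intro x hx y hy hxy
    rw [mem_insert, mem_singleton] at hx hy
    rcases hx with rfl | rfl <;> rcases hy with rfl | rfl
    · exact absurd rfl hxy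
    · exact ⟨h1.symm, fun h => h2 h.symm⟩
    · exact ⟨h1, h2⟩
    · exact absurd rfl hxy
  have hDx : ∀ D' ∈ F, D' ≠ {c, c'} → ∀ x ∈ ({c, v} : Finset W), ∀ y ∈ gp Gr Gb v D',
      Gr.Adj x y ∧ Gb.Adj x y := by
    intro D' hD' hne' x hx y hy
    rw [mem_insert, mem_singleton] at hx
    rcases hx with rfl | rfl
    · exact hB.kf.green _ hC0 D' hD' (Ne.symm hne') x (by simp) y (gp_subset v D' hy)
    · exact (mem_gp.1 hy).2
  have hc'K : c' ∉ K := fun h => Gb.irrefl (hB.kf.blueF c' h _ hC0 c' (by simp))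
  obtain ⟨k1, k2⟩ := kf_image (Gr := Gr) (Gb := Gb) (I := F)
    (κ := fun C => if C = {c, c'} then {c, v} else gp Gr Gb v C) (K' := insert c' K)
    (by
      intro C hC
      by_cases h : C = {c, c'}
      · simp only [if_pos h]
        exact hD
      · simp only [if_neg h]
        exact (hB.kf.box C hC).sub (gp_subset v C) (hne C hC h))
    (by
      intro C hC D' hD' hCD x hx y hy
      by_cases h : C = {c, c'} <;> by_cases h' : D' = {c, c'}
      · exact absurd (h.trans h'.symm) hCD
      · simp only [if_pos h] at hx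
        simp only [if_neg h'] at hy
        exact hDx D' hD' h' x hx y hy
      · simp only [if_neg h] at hx
        simp only [if_pos h'] at hy
        have := hDx C hC h y hy x hx
        exact ⟨this.1.symm, this.2.symm⟩
      · simp only [if_neg h] at hx
        simp only [if_neg h'] at hy
        exact hB.kf.green C hC D' hD' hCD x (gp_subset v C hx) y (gp_subset v D' hy))
    (by
      intro z hz z' hz' hne
      rcases mem_insert.1 hz with h | h <;> rcases mem_insert.1 hz' with h' | h'
      · exact absurd (h.trans h'.symm) hne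
      · rw [h]
        exact (hB.kf.blueF z' h' _ hC0 c' (by simp)).symm
      · rw [h']
        exact hB.kf.blueF z h _ hC0 c' (by simp)
      · exact hB.kf.blueK z h z' h' hne)
    (by
      intro z hz C hC x hx
      by_cases h : C = {c, c'}
      · simp only [if_pos h] at hx
        rw [mem_insert, mem_singleton] at hx
        rcases mem_insert.1 hz with hz | hz
        · rw [hz]
          rcases hx with rfl | rfl
          · exact hb.symm
          · exact h3.symm
        · rcases hx with rfl | rfl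
          · exact hB.kf.blueF z hz _ hC0 x (by simp)
          · exact (hKv z hz).2
      · simp only [if_neg h] at hx
        rcases mem_insert.1 hz with hz | hz
        · rw [hz]
          exact (hB.kf.green _ hC0 C hC (Ne.symm h) c' (by simp) x (gp_subset v C hx)).2
        · exact hB.kf.blueF z hz C hC x (gp_subset v C hx))
    (by
      intro z hz
      rcases mem_insert.1 hz with hz | hz
      · refine le_trans (card_le_card (t := {({c, c'} : Finset W)}) ?_) (by simp)
        intro C hC
        rw [mem_filter] at hC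
        obtain ⟨hCF, x, hx, hzx⟩ := hC
        rw [mem_singleton]
        by_contra h
        simp only [if_neg h] at hx
        rw [hz] at hzx
        exact hzx (hB.kf.green _ hC0 C hCF (Ne.symm h) c' (by simp) x (gp_subset v C hx)).1
      · refine le_trans (card_le_card ?_) (hB.kf.exc z hz)
        intro C hC
        rw [mem_filter] at hC ⊢
        obtain ⟨hCF, x, hx, hzx⟩ := hC
        refine ⟨hCF, ?_⟩
        by_cases h : C = {c, c'}
        · simp only [if_pos h] at hx
          rw [mem_insert, mem_singleton] at hx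
          rcases hx with rfl | rfl
          · exact ⟨x, by rw [h]; simp, hzx⟩
          · exact absurd (hKv z hz).1 hzx
        · simp only [if_neg h] at hx
          exact ⟨x, gp_subset v C hx, hzx⟩)
  have k3 := hB.max _ _ k1 2 (by
    intro j hj
    match j, hj with
    | 0, _ =>
      simp only [pot]
      rw [k2 0, NS_zero (fun C hC => (hB.kf.box C hC).nonempty), filter_true_of_mem]
      intro C hC
      by_cases h : C = {c, c'}
      · simp only [if_pos h]
        exact big_zero ⟨c, by simp⟩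
      · simp only [if_neg h]
        exact big_zero (hne C hC h)
    | 1, _ =>
      simp only [pot]
      rw [k2 1]
      apply min_le_min_right
      apply card_le_card
      intro C hC
      rw [mem_filter] at hC ⊢
      refine ⟨hC.1, ?_⟩
      by_cases h : C = {c, c'}
      · rw [if_pos h]
        exact big_one.2 (by rw [card_pair (Ne.symm hvc)])
      · rw [if_neg h]
        rcases hoth C hC.1 h with h' | h'
        · rw [h']
          exact hC.2
        · exact Or.inl h')
  simp only [pot] at k3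
  rw [card_insert_of_notMem hc'K] at k3
  omega

end moves

end JF

end Pool.Agent.Lib.MP_a05470_co
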