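import Pool.Agent.Lib.MP_a05470_co.JStruct

/-!
# Certificates of the higher levels, and the structure theorem
-/

set_option autoImplicit false
set_option linter.unusedSectionVars false

namespace Pool.Agent.Lib.MP_a05470_co

open Finset Classical

namespace JF

variable {W : Type} [Fintype W] {Gr Gb : SimpleGraph W}

section certs

variable {A G : ℝ} {v : W} {k a g : ℕ} {F : Finset (Finset W)} {K : Finset W}

/-- level `k` with `g` vertices of `K` -/
theorem cert_K2 (hA : 0 ≤ A) (hG : 0 ≤ G) (hB : Best Gr Gb a g F K) (hk : 1 ≤ k)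
    {K0 : Finset W} (hK0 : K0 ⊆ K) (hK0c : K0.card = g) (v : W) :
    ((k : ℝ) + 1) * A ≤
      ∑ C ∈ F, qq A (A + G) Gr Gb k v C + ∑ z ∈ K0, Mat A (A + G) Gr Gb z v := by
  have hKn := sumK_nonneg (Gr := Gr) (Gb := Gb) (v := v) hA hG K0
  have hk1 : (1 : ℝ) ≤ k := by exact_mod_cast hk
  by_cases hin : ∃ C ∈ F, v ∈ C
  · obtain ⟨C, hC, hv⟩ := hin
    have h1 := ge1 (k := k) (v := v) (Gr := Gr) (Gb := Gb) hA hG hC
    rcases hB.kf.box C hC with h | h
    · have := qq_RB (k := k) hA hG h hv hk
      nlinarith [mul_nonneg (by linarith : (0 : ℝ) ≤ k) hG]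
    · have := qq_BB (k := k) hA hG h hv
      nlinarith [mul_nonneg (by linarith : (0 : ℝ) ≤ k) hG, mul_nonneg (by linarith : (0 : ℝ) ≤ k) hA]
  push Not at hin
  obtain ⟨C0, hC0, hf⟩ := hB.full hin
  have hne0 := (hB.kf.box C0 hC0).nonempty
  have h1 := qq_full (k := k) hA hG hne0 hf
  have hcc := cc_ge (Gr := Gr) (Gb := Gb) k C0
  have hq0 : k * A ≤ qq A (A + G) Gr Gb k v C0 := by nlinarith
  have hg1 := ge1 (k := k) (v := v) (Gr := Gr) (Gb := Gb) hA hG hC0
  by_cases hgK : ∃ z ∈ K0, ¬ (Gr.Adj z v ∧ Gb.Adj z v)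
  · obtain ⟨z, hz, h⟩ := hgK
    have h5 : A ≤ ∑ z ∈ K0, Mat A (A + G) Gr Gb z v :=
      (mat_nonred hA hG h).trans (sumK_ge hA hG hz)
    linarith
  push Not at hgK
  by_cases hbig : big Gr Gb k C0
  · rw [cc_big hbig] at h1
    linarith
  obtain ⟨hR, hc⟩ := red_of_not_big (hB.kf.box C0 hC0) hbig
  by_cases hbad : ∃ C ∈ F, C ≠ C0 ∧ Bad Gr Gb C0.card v C
  · obtain ⟨C, hC, hne, hbad⟩ := hbad
    have h2 := qq_bad (k := k) hA hG hk hc hbad
    have h3 := ge2 (k := k) (Gr := Gr) (Gb := Gb) (v := v) hA hG hC0 hC (Ne.symm hne)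
    linarith
  push Not at hbad
  have hoth : ∀ C ∈ F, C ≠ C0 → gp Gr Gb v C = C ∨ C0.card < (gp Gr Gb v C).card :=
    fun C hC hne => not_bad (hbad C hC hne)
  have hd1 : 1 ≤ C0.card := card_pos.2 hne0
  have hnb : ¬ big Gr Gb C0.card C0 := by
    rintro (h | h)
    · exact lt_irrefl _ h
    · exact hR.not_BB h
  have hKc : min K.card g ≤ min K0.card g := by
    rw [hK0c, min_self]
    exact min_le_right _ _
  by_cases hblue : ∃ x ∈ C0, Gb.Adj v x
  · obtain ⟨x, hx, hgb⟩ := hblue
    have hgr : ¬ Gr.Adj v x := fun h => exists_green hf hx ⟨h, hgb⟩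
    exact (hB.no_join (D := {v, x}) hC0 (Or.inr (box_blue hgb hgr)) (by
      intro y hy
      rw [mem_insert, mem_singleton] at hy
      rcases hy with rfl | rfl
      · exact Or.inl rfl
      · exact Or.inr hx) hK0 hgK hKc hd1 hoth (Or.inr (box_blue hgb hgr)) hnb).elim
  push Not at hblue
  by_cases hred : ∀ x ∈ C0, Gr.Adj v x
  · have hD : RB Gr Gb (insert v C0) := box_red hR (fun x hx => ⟨hred x hx, hblue x hx⟩)
    exact (hB.no_join (D := insert v C0) hC0 (Or.inl hD) (by
      intro y hy
      exact mem_insert.1 hy) hK0 hgK hKc hd1 hoth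
      (Or.inl (by rw [card_insert_of_notMem (hin C0 hC0)]; omega)) hnb).elim
  · push Not at hred
    obtain ⟨x, hx, hgr⟩ := hred
    have hs : (0 : ℝ) < C0.card := by exact_mod_cast card_pos.2 hne0
    have h5 := qq_full_none (k := k) (Gr := Gr) (Gb := Gb) (A := A) (G := G) hA hG hne0 hf
      (t := 0) (u := 1 / C0.card) (by
        rw [zero_mul, sub_nonneg]
        exact_mod_cast card_le_card (bp_subset v _)) (by
        rw [one_div, inv_mul_cancel₀ hs.ne']) hx hgr (hblue x hx)
    rw [cc_not hbig] at h5
    have h4 : (C0.card : ℝ) ≤ k := by exact_mod_cast hc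
    have h6 : 1 ≤ (k : ℝ) * (1 / (C0.card : ℝ)) := by
      rw [mul_one_div, le_div_iff₀ hs]
      linarith
    nlinarith [mul_le_mul_of_nonneg_left h6 hA]

/-- level `k` with weight `k` on `K` -/
theorem cert_K1 (hA : 0 ≤ A) (hG : 0 ≤ G) (hGA : 2 * G ≤ A) (hB : Best Gr Gb a g F K)
    (hk : 2 ≤ k) (hKg : K.card < g) (v : W) :
    (k : ℝ) * (A + G) + A - 2 * G ≤
      ∑ C ∈ F, qq A (A + G) Gr Gb k v C + k * ∑ z ∈ K, Mat A (A + G) Gr Gb z v := by
  have hKn := sumK_nonneg (Gr := Gr) (Gb := Gb) (v := v) hA hG K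
  have hk2 : (2 : ℝ) ≤ k := by exact_mod_cast hk
  have hk0 : (0 : ℝ) ≤ k := by linarith
  have hkG : 0 ≤ (k : ℝ) * G := mul_nonneg hk0 hG
  have hkA : 0 ≤ (k : ℝ) * A := mul_nonneg hk0 hA
  have hkKn : 0 ≤ (k : ℝ) * ∑ z ∈ K, Mat A (A + G) Gr Gb z v := mul_nonneg hk0 hKn
  have hF0 : 0 ≤ ∑ C ∈ F, qq A (A + G) Gr Gb k v C := sum_nonneg (fun _ _ => qq_nonneg hA hG)
  -- `2kA` is enough
  have T2 : (k : ℝ) * (A + G) + A - 2 * G ≤ 2 * (k * A) := by
    nlinarith [mul_nonneg (by linarith : (0 : ℝ) ≤ k - 2) (by linarith : 0 ≤ A - G)]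
  by_cases hin : ∃ C ∈ F, v ∈ C
  · obtain ⟨C, hC, hv⟩ := hin
    have h1 := ge1 (k := k) (v := v) (Gr := Gr) (Gb := Gb) hA hG hC
    rcases hB.kf.box C hC with h | h
    · have := qq_RB (k := k) hA hG h hv (by omega)
      linarith
    · have := qq_BB (k := k) hA hG h hv
      nlinarith [mul_nonneg (by linarith : (0 : ℝ) ≤ k - 2) (by linarith : 0 ≤ A - G)]
  push Not at hin
  by_cases hvK : v ∈ K
  · have h2 := sumK_ge (Gr := Gr) (Gb := Gb) (v := v) hA hG hvK
    have h3 : Mat A (A + G) Gr Gb v v = 2 * A + G := by rw [Mat_self]; ring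
    rw [h3] at h2
    have h4 := mul_le_mul_of_nonneg_left h2 hk0
    nlinarith
  obtain ⟨C0, hC0, hf⟩ := hB.full hin
  have hne0 := (hB.kf.box C0 hC0).nonempty
  have h1 := qq_full (k := k) hA hG hne0 hf
  have hcc := cc_ge (Gr := Gr) (Gb := Gb) k C0
  have hq0 : k * A ≤ qq A (A + G) Gr Gb k v C0 := by nlinarith
  have hg1 := ge1 (k := k) (v := v) (Gr := Gr) (Gb := Gb) hA hG hC0
  by_cases hgK : ∃ z ∈ K, ¬ (Gr.Adj z v ∧ Gb.Adj z v)
  · obtain ⟨z, hz, h⟩ := hgK
    have h5 : A ≤ ∑ z ∈ K, Mat A (A + G) Gr Gb z v :=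
      (mat_nonred hA hG h).trans (sumK_ge hA hG hz)
    have h6 := mul_le_mul_of_nonneg_left h5 hk0
    linarith
  push Not at hgK
  -- (A) `v` joins `K`
  have stepA : (bp Gb v C0).Nonempty → (2 ≤ C0.card → 2 ≤ (bp Gb v C0).card) →
      (k : ℝ) * (A + G) + A - 2 * G ≤ ∑ C ∈ F, qq A (A + G) Gr Gb k v C := by
    intro hb0 hb0'
    by_cases hsec : ∃ C ∈ F, C ≠ C0 ∧ Bad Gr Gb 1 v C
    · obtain ⟨C1, hC1, hne1, hbad1⟩ := hsec
      have hneC1 := (hB.kf.box C1 hC1).nonempty
      have h3 := ge2 (k := k) (Gr := Gr) (Gb := Gb) (v := v) hA hG hC0 hC1 (Ne.symm hne1)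
      by_cases hfull1 : gp Gr Gb v C1 = ∅
      · have h4 := qq_full (k := k) hA hG hneC1 hfull1
        have hcc1 := cc_ge (Gr := Gr) (Gb := Gb) k C1
        have : k * A ≤ qq A (A + G) Gr Gb k v C1 := by nlinarith
        linarith
      have hq1 : (k : ℝ) * A / 2 ≤ qq A (A + G) Gr Gb k v C1 := by
        have := qq_bad' (k := k) hA hG hbad1
        push_cast at this
        norm_num at this
        exact this
      by_cases hthird : ∃ C ∈ F, C ≠ C0 ∧ C ≠ C1 ∧ Bad Gr Gb 1 v C
      · obtain ⟨C2, hC2, hne2, hne3, hbad2⟩ := hthird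
        have hq2 : (k : ℝ) * A / 2 ≤ qq A (A + G) Gr Gb k v C2 := by
          have := qq_bad' (k := k) hA hG hbad2
          push_cast at this
          norm_num at this
          exact this
        have h4 := ge3 (k := k) (Gr := Gr) (Gb := Gb) (v := v) hA hG hC0 hC1 hC2 (Ne.symm hne1)
          (Ne.symm hne2) (Ne.symm hne3)
        linarith
      push Not at hthird
      have h2C1 : 2 ≤ C1.card := by
        have := hbad1.card.1
        have h5 : 1 ≤ (gp Gr Gb v C1).card := card_pos.2 (nonempty_iff_ne_empty.2 hfull1)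
        omega
      by_cases hb1 : 2 ≤ (bp Gb v C1).card
      · exfalso
        have hE : ∀ C ∈ F, C ∉ ({C0, C1} : Finset (Finset W)) →
            gp Gr Gb v C = C ∨ 1 < (gp Gr Gb v C).card := by
          intro C hC hne
          rw [mem_insert, mem_singleton] at hne
          push Not at hne
          exact not_bad (hthird C hC hne.1 hne.2)
        refine hB.no_joinK hvK hKg (fun z hz => (hgK z hz).2) (E := {C0, C1}) ?_ ?_ ?_
          (keep_large hE ?_)
        · rw [card_pair (Ne.symm hne1)]
        · intro C hC hCE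
          rcases hE C hC hCE with h | h
          · rw [h]; exact (hB.kf.box C hC).nonempty
          · exact card_pos.1 (by omega)
        · intro C hC hCE
          rw [mem_insert, mem_singleton] at hCE
          rcases hCE with rfl | rfl
          · exact hb0
          · exact card_pos.1 (by omega)
        · intro C hC hCE h2
          rw [mem_insert, mem_singleton] at hCE
          rcases hCE with rfl | rfl
          · exact hb0' h2
          · exact hb1
      · have h4 := (qq_fewblue (k := k) (Gr := Gr) (Gb := Gb) (v := v) hA hG h2C1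
          (by omega)).1
        nlinarith [mul_nonneg (by linarith : (0 : ℝ) ≤ k - 2) (by linarith : 0 ≤ A - G)]
    · exfalso
      push Not at hsec
      have hE : ∀ C ∈ F, C ∉ ({C0} : Finset (Finset W)) →
          gp Gr Gb v C = C ∨ 1 < (gp Gr Gb v C).card := by
        intro C hC hne
        rw [mem_singleton] at hne
        exact not_bad (hsec C hC hne)
      refine hB.no_joinK hvK hKg (fun z hz => (hgK z hz).2) (E := {C0}) (by simp) ?_ ?_
        (keep_large hE ?_)
      · intro C hC hCE
        rcases hE C hC hCE with h | h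
        · rw [h]; exact (hB.kf.box C hC).nonempty
        · exact card_pos.1 (by omega)
      · intro C hC hCE
        rw [mem_singleton] at hCE
        rw [hCE]
        exact hb0
      · intro C hC hCE h2
        rw [mem_singleton] at hCE
        rw [hCE] at h2 ⊢
        exact hb0' h2
  rcases hB.kf.box C0 hC0 with hR | hBB
  · -- a red box
    have hnBB := hR.not_BB
    have hd1 : 1 ≤ C0.card := card_pos.2 hne0
    have hs : (0 : ℝ) < C0.card := by exact_mod_cast hd1
    have hnb : ¬ big Gr Gb C0.card C0 := by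
      rintro (h | h)
      · exact lt_irrefl _ h
      · exact hnBB h
    by_cases hbe : bp Gb v C0 = ∅
    · -- (D)
      have h4 := qq_full_r (k := k) (Gr := Gr) (Gb := Gb) (A := A) (G := G) hA hG hne0 hf
        (t := 1) (by rw [hbe, card_empty]; simp)
      by_cases hbig : big Gr Gb k C0
      · rw [cc_big hbig] at h4
        nlinarith
      · rw [cc_not hbig] at h4
        obtain ⟨_, hc⟩ := red_of_not_big (hB.kf.box C0 hC0) hbig
        by_cases hbad : ∃ C ∈ F, C ≠ C0 ∧ Bad Gr Gb C0.card v C
        · obtain ⟨C, hC, hne, hbad⟩ := hbad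
          have h2 := qq_bad (k := k) hA hG (by omega) hc hbad
          have h3 := ge2 (k := k) (Gr := Gr) (Gb := Gb) (v := v) hA hG hC0 hC (Ne.symm hne)
          linarith
        push Not at hbad
        have hoth : ∀ C ∈ F, C ≠ C0 → gp Gr Gb v C = C ∨ C0.card < (gp Gr Gb v C).card :=
          fun C hC hne => not_bad (hbad C hC hne)
        have hnbl : ∀ x ∈ C0, ¬ Gb.Adj v x := by
          intro x hx h
          have : x ∈ bp Gb v C0 := mem_bp.2 ⟨hx, h⟩
          rw [hbe] at this
          exact absurd this (notMem_empty x)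
        by_cases hred : ∀ x ∈ C0, Gr.Adj v x
        · have hD : RB Gr Gb (insert v C0) := box_red hR (fun x hx => ⟨hred x hx, hnbl x hx⟩)
          exact (hB.no_join (D := insert v C0) hC0 (Or.inl hD) (by
            intro y hy
            exact mem_insert.1 hy) (subset_refl K) hgK le_rfl hd1 hoth
            (Or.inl (by rw [card_insert_of_notMem (hin C0 hC0)]; omega)) hnb).elim
        · push Not at hred
          obtain ⟨x, hx, hgr⟩ := hred
          have h5 := qq_full_none (k := k) (Gr := Gr) (Gb := Gb) (A := A) (G := G) hA hG hne0 hf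
            (t := 1) (u := 1 / C0.card) (by rw [hbe, card_empty]; simp) (by
              rw [one_div, inv_mul_cancel₀ hs.ne']) hx hgr (hnbl x hx)
          rw [cc_not hbig] at h5
          have h4 : (C0.card : ℝ) ≤ k := by exact_mod_cast hc
          have h6 : 1 ≤ (k : ℝ) * (1 / (C0.card : ℝ)) := by
            rw [mul_one_div, le_div_iff₀ hs]
            linarith
          nlinarith [mul_le_mul_of_nonneg_left h6 hA]
    · have hb1 : (bp Gb v C0).Nonempty := nonempty_iff_ne_empty.2 hbe
      by_cases hb2 : 2 ≤ C0.card → 2 ≤ (bp Gb v C0).card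
      · have := stepA hb1 hb2
        linarith
      · -- (E)
        push Not at hb2
        obtain ⟨hs2, hbc⟩ := hb2
        have hs2' : (2 : ℝ) ≤ C0.card := by exact_mod_cast hs2
        have hbc1 : ((bp Gb v C0).card : ℝ) ≤ 1 := by exact_mod_cast (by omega :
          (bp Gb v C0).card ≤ 1)
        have h4 := qq_full_r (k := k) (Gr := Gr) (Gb := Gb) (A := A) (G := G) hA hG hne0 hf
          (t := 1 - 1 / C0.card) (by
            rw [sub_mul, one_mul, one_div, inv_mul_cancel₀ hs.ne']
            linarith)
        have hinv : 0 ≤ 1 / (C0.card : ℝ) := by positivity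
        by_cases hbig : big Gr Gb k C0
        · rw [cc_big hbig] at h4
          have hkd : k < C0.card := by
            rcases hbig with h | h
            · exact h
            · exact absurd h hnBB
          have hkd' : (k : ℝ) + 1 ≤ C0.card := by exact_mod_cast hkd
          have h5 : ((k : ℝ) + 1) * (1 / C0.card) ≤ 1 := by
            rw [mul_one_div, div_le_one hs]
            exact hkd'
          nlinarith [mul_le_mul_of_nonneg_left h5 hG]
        · rw [cc_not hbig] at h4
          obtain ⟨_, hc⟩ := red_of_not_big (hB.kf.box C0 hC0) hbig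
          have hc' : (C0.card : ℝ) ≤ k := by exact_mod_cast hc
          by_cases hbad : ∃ C ∈ F, C ≠ C0 ∧ Bad Gr Gb C0.card v C
          · obtain ⟨C, hC, hne, hbad⟩ := hbad
            have h2 := qq_bad (k := k) hA hG (by omega) hc hbad
            have h2' := qq_bad' (k := k) hA hG hbad
            have h3 := ge2 (k := k) (Gr := Gr) (Gb := Gb) (v := v) hA hG hC0 hC (Ne.symm hne)
            set D : ℝ := (C0.card : ℝ) with hD
            have e1 : (k : ℝ) * (A + G * (1 - 1 / D)) = k * (A + G) - k * G / D := by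
              field_simp
              ring
            rw [e1] at h4
            rcases le_total (k : ℝ) (2 * D) with hle | hle
            · have h6 : (k : ℝ) * G / D ≤ 2 * G := by
                rw [div_le_iff₀ hs]
                nlinarith
              linarith
            · -- `k > 2d`
              have h6 : A + k * G / D ≤ k * A / (D + 1) + 2 * G := by
                have e2 : (k : ℝ) * A / (D + 1) + 2 * G - (A + k * G / D) =
                    (A * (k - (D + 1)) * D - G * (k - 2 * D) * (D + 1)) / (D * (D + 1)) := by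
                  field_simp
                  ring
                have e3 : 0 ≤ (A * (k - (D + 1)) * D - G * (k - 2 * D) * (D + 1)) /
                    (D * (D + 1)) := by
                  apply div_nonneg _ (by positivity)
                  have f1 : 0 ≤ (k : ℝ) - (D + 1) := by linarith
                  have f2 : 2 * G * ((k - (D + 1)) * D) ≤ A * ((k - (D + 1)) * D) :=
                    mul_le_mul_of_nonneg_right hGA (mul_nonneg f1 hs.le)
                  have f3 : G * ((k - 2 * D) * (D + 1)) ≤ G * (2 * ((k - (D + 1)) * D)) := by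
                    apply mul_le_mul_of_nonneg_left _ hG
                    have f4 : 0 ≤ (k : ℝ) * (D - 1) := mul_nonneg hk0 (by linarith)
                    linarith
                  linarith
                linarith
              linarith
          push Not at hbad
          have hoth : ∀ C ∈ F, C ≠ C0 → gp Gr Gb v C = C ∨ C0.card < (gp Gr Gb v C).card :=
            fun C hC hne => not_bad (hbad C hC hne)
          obtain ⟨x, hx⟩ := hb1
          rw [mem_bp] at hx
          have hgr : ¬ Gr.Adj v x := fun h => exists_green hf hx.1 ⟨h, hx.2⟩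
          exact (hB.no_join (D := {v, x}) hC0 (Or.inr (box_blue hx.2 hgr)) (by
            intro y hy
            rw [mem_insert, mem_singleton] at hy
            rcases hy with rfl | rfl
            · exact Or.inl rfl
            · exact Or.inr hx.1) (subset_refl K) hgK le_rfl hd1 hoth
            (Or.inr (box_blue hx.2 hgr)) hnb).elim
  · -- a blue pair
    have hcard := hBB.card
    have hcardR : (C0.card : ℝ) = 2 := by exact_mod_cast hcard
    have hbig : big Gr Gb k C0 := Or.inr hBB
    by_cases hb2 : 2 ≤ (bp Gb v C0).card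
    · have := stepA (card_pos.1 (by omega)) (fun _ => hb2)
      linarith
    have hbc1 : ((bp Gb v C0).card : ℝ) ≤ 1 := by exact_mod_cast (by omega :
      (bp Gb v C0).card ≤ 1)
    by_cases hbe : bp Gb v C0 = ∅
    · have h4 := qq_full_r (k := k) (Gr := Gr) (Gb := Gb) (A := A) (G := G) hA hG hne0 hf
        (t := 1) (by rw [hbe, card_empty]; simp)
      rw [cc_big hbig] at h4
      nlinarith
    -- (C) exactly one blue vertex
    obtain ⟨c, c', hcc', hC0eq, hb, hnr⟩ := hBB
    have main : ∀ p p' : W, p ≠ p' → C0 = {p, p'} → Gb.Adj p p' → ¬ Gb.Adj v p → Gb.Adj v p' →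
        (k : ℝ) * (A + G) + A - 2 * G ≤ ∑ C ∈ F, qq A (A + G) Gr Gb k v C := by
      intro p p' hpp hCp hbpp hnp hp'
      by_cases hrp : Gr.Adj v p
      · by_cases hbad : ∃ C ∈ F, C ≠ C0 ∧ Bad Gr Gb 1 v C
        · obtain ⟨C, hC, hne, hbad⟩ := hbad
          have hq1 : (k : ℝ) * A / 2 ≤ qq A (A + G) Gr Gb k v C := by
            have := qq_bad' (k := k) hA hG hbad
            push_cast at this
            norm_num at this
            exact this
          have h3 := ge2 (k := k) (Gr := Gr) (Gb := Gb) (v := v) hA hG hC0 hC (Ne.symm hne)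
          have h4 := qq_full_r (k := k) (Gr := Gr) (Gb := Gb) (A := A) (G := G) hA hG hne0 hf
            (t := 1 / 2) (by rw [hcardR]; linarith)
          rw [cc_big hbig] at h4
          have p1 : 0 ≤ (k : ℝ) * (A - G) := mul_nonneg hk0 (by linarith)
          linarith
        · exfalso
          push Not at hbad
          apply hB.no_swap hin hKg hgK hpp (by rw [← hCp]; exact hC0) hbpp hrp hnp hp'
          intro C hC hne
          exact not_bad (hbad C hC (by rw [hCp]; exact hne))
      · have hpC : p ∈ C0 := by rw [hCp]; simp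
        have h5 := qq_full_none (k := k) (Gr := Gr) (Gb := Gb) (A := A) (G := G) hA hG hne0 hf
          (t := 1 / 2) (u := 1 / 2) (by rw [hcardR]; linarith) (by rw [hcardR]; norm_num) hpC hrp
          hnp
        rw [cc_big hbig] at h5
        have p1 : 0 ≤ (k : ℝ) * (A - G) := mul_nonneg hk0 (by linarith)
        linarith
    obtain ⟨y, hy⟩ := nonempty_iff_ne_empty.2 hbe
    have hone : ∀ z ∈ bp Gb v C0, z = y := by
      intro z hz
      by_contra hcon
      have h6 : ({z, y} : Finset W) ⊆ bp Gb v C0 := by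
        intro w hw
        rw [mem_insert, mem_singleton] at hw
        rcases hw with rfl | rfl
        · exact hz
        · exact hy
      have h7 := card_le_card h6
      rw [card_pair hcon] at h7
      omega
    have hyC := (mem_bp.1 hy).1
    rw [hC0eq, mem_insert, mem_singleton] at hyC
    have hfin : (k : ℝ) * (A + G) + A - 2 * G ≤ ∑ C ∈ F, qq A (A + G) Gr Gb k v C := by
      rcases hyC with h | h
      · apply main c' c (Ne.symm hcc') (by rw [hC0eq, pair_comm]) hb.symm
        · intro h'
          have := hone c' (mem_bp.2 ⟨by rw [hC0eq]; simp, h'⟩)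
          exact hcc' (h ▸ this.symm)
        · rw [← h]
          exact (mem_bp.1 hy).2
      · apply main c c' hcc' hC0eq hb
        · intro h'
          have := hone c (mem_bp.2 ⟨by rw [hC0eq]; simp, h'⟩)
          exact hcc' (this.trans h)
        · rw [← h]
          exact (mem_bp.1 hy).2
    linarith

end certs

/-- the structure theorem -/
theorem structure_thm {a g : ℕ} (ha : 1 ≤ a) (hga : 2 * g ≤ a)
    (hG : Cheap (a : ℝ) ((a : ℝ) + g) Gr Gb) :
    ∃ (F : Finset (Finset W)) (K : Finset W), KF Gr Gb F K ∧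
      2 * a + 1 ≤ F.card + min (NS Gr Gb 1 F) a ∧
      2 * a + g + 1 ≤ F.card + min (NS Gr Gb 1 F) a + min K.card g ∧
      a + g + 1 ≤ F.card + min K.card g ∧
      ∀ k : ℕ, 2 ≤ k → k * (a + g) + a + 1 ≤
        k * (F.card + min K.card g) + NS Gr Gb k F + 2 * g := by
  obtain ⟨F, K, hB⟩ := exists_best Gr Gb a g
  have hne : ∀ C ∈ F, C.Nonempty := fun C hC => (hB.kf.box C hC).nonempty
  have hA : (0 : ℝ) ≤ a := by positivity
  have hA1 : (1 : ℝ) ≤ a := by exact_mod_cast ha
  have hGn : (0 : ℝ) ≤ g := by positivity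
  have hGA : 2 * (g : ℝ) ≤ a := by exact_mod_cast hga
  refine ⟨F, K, hB.kf, ?_⟩
  have hF1 : 2 * a + 1 ≤ F.card + min (NS Gr Gb 1 F) a := by
    rcases Nat.lt_or_ge (NS Gr Gb 1 F) a with h | h
    · have h1 := cheap_family hG F 1 (ω := 0) le_rfl ∅ (c := 2 * a) (by linarith) hne (by
        intro v
        rw [zero_mul, add_zero]
        exact cert_F1 hA hGn hB h v)
      push_cast at h1
      have h2 : ((2 * a : ℕ) : ℝ) < ((F.card + NS Gr Gb 1 F : ℕ) : ℝ) := by
        push_cast
        linarith
      have h3 : 2 * a < F.card + NS Gr Gb 1 F := by exact_mod_cast h2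
      rw [min_eq_left h.le]
      omega
    · have h1 := cheap_family hG F 0 (ω := 0) le_rfl ∅ (c := a) (by linarith) hne (by
        intro v
        rw [zero_mul, add_zero]
        exact cert_F0 hA hGn hB v)
      push_cast at h1
      rw [zero_mul, zero_add, zero_mul, add_zero, NS_zero hne] at h1
      have h3 : a < F.card := by exact_mod_cast h1
      rw [min_eq_right h]
      omega
  refine ⟨hF1, ?_⟩
  rcases Nat.lt_or_ge K.card g with hK | hK
  · rw [min_eq_left hK.le]
    have hL : 2 * a + g + 1 ≤ F.card + min (NS Gr Gb 1 F) a + K.card ∧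
        a + g + 1 ≤ F.card + K.card := by
      rcases Nat.lt_or_ge a (NS Gr Gb 1 F) with h | h
      · have h1 := cheap_family hG F 0 (ω := 1) zero_le_one K (c := a + g) (by linarith) hne (by
          intro v
          rw [one_mul]
          exact cert_L0 hA hGn hGA hB h hK v)
        push_cast at h1
        rw [zero_mul, zero_add, one_mul, NS_zero hne] at h1
        have h3 : a + g < F.card + K.card := by exact_mod_cast h1
        rw [min_eq_right h.le]
        omega
      · have h1 := cheap_family hG F 1 (ω := 1) zero_le_one K (c := 2 * a + g) (by linarith) hne (by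
          intro v
          rw [one_mul]
          exact cert_L1 hA hGn (by linarith) hB hK v)
        push_cast at h1
        rw [one_mul, one_mul] at h1
        have h3 : 2 * a + g < F.card + NS Gr Gb 1 F + K.card := by exact_mod_cast h1
        rw [min_eq_left h]
        omega
    refine ⟨hL.1, hL.2, fun k hk => ?_⟩
    have hk2 : (2 : ℝ) ≤ k := by exact_mod_cast hk
    have h1 := cheap_family hG F k (ω := k) (by positivity) K
      (c := (k : ℝ) * (a + g) + a - 2 * g) (by nlinarith) hne
      (fun v => cert_K1 hA hGn hGA hB hk hK v)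
    have h2 : ((k * (a + g) + a : ℕ) : ℝ) < ((k * (F.card + K.card) + NS Gr Gb k F + 2 * g : ℕ) : ℝ) := by
      push_cast
      linarith
    have h3 : k * (a + g) + a < k * (F.card + K.card) + NS Gr Gb k F + 2 * g := by
      exact_mod_cast h2
    omega
  · rw [min_eq_right hK]
    have hN : a + 1 ≤ F.card := by
      have := min_le_right (NS Gr Gb 1 F) a
      omega
    refine ⟨by omega, by omega, fun k hk => ?_⟩
    obtain ⟨K0, hK0, hK0c⟩ := exists_subset_card_eq hK
    have h1 := cheap_family hG F k (ω := 1) zero_le_one K0 (c := ((k : ℝ) + 1) * a) (by positivity)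
      hne (by
        intro v
        rw [one_mul]
        exact cert_K2 hA hGn hB (by omega) hK0 hK0c v)
    rw [hK0c, one_mul] at h1
    have h2 : (((k + 1) * a : ℕ) : ℝ) < ((k * F.card + NS Gr Gb k F + g : ℕ) : ℝ) := by
      push_cast
      linarith
    have h3 : (k + 1) * a < k * F.card + NS Gr Gb k F + g := by exact_mod_cast h2
    have h4 : k * (a + g) = k * a + k * g := by ring
    have h5 : k * (F.card + g) = k * F.card + k * g := by ring
    have h6 : (k + 1) * a = k * a + a := by ring
    rw [h4, h5]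
    omega

/-- the condition holds under a minimum degree condition -/
theorem cheap_of_degree {n : ℕ} {Gr Gb : SimpleGraph (Fin n)} {a b ε : ℝ} (hε : 0 < ε)
    (hn : 0 < n) (hG : ∀ v, a * nonadj Gr v + b * nonadj Gb v ≤ (1 - ε) * n) :
    Cheap a b Gr Gb := by
  intro w c hw hc h
  have hn' : (0 : ℝ) < n := by exact_mod_cast hn
  have h1 : ∑ v : Fin n, c ≤ ∑ v : Fin n, ∑ x, w x * Mat a b Gr Gb x v :=
    sum_le_sum (fun v _ => h v)
  rw [sum_const, card_univ, Fintype.card_fin, nsmul_eq_mul, sum_comm] at h1
  have h2 : ∀ x, ∑ v, w x * Mat a b Gr Gb x v ≤ w x * ((1 - ε) * n) := by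
    intro x
    rw [← mul_sum]
    apply mul_le_mul_of_nonneg_left _ (hw x)
    refine le_trans (le_of_eq ?_) (hG x)
    unfold Mat nonadj
    rw [sum_add_distrib]
    congr 1
    · rw [card_filter]
      push_cast
      rw [mul_sum]
      apply sum_congr rfl
      intro v _
      by_cases h : Gr.Adj x v <;> simp [h]
    · rw [card_filter]
      push_cast
      rw [mul_sum]
      apply sum_congr rfl
      intro v _
      by_cases h : Gb.Adj x v <;> simp [h]
  have h3 := h1.trans (sum_le_sum (fun x _ => h2 x))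
  rw [← sum_mul] at h3
  set Z := ∑ x, w x with hZ
  have h4 : (n : ℝ) * c ≤ n * ((1 - ε) * Z) := by linarith
  have h5 := le_of_mul_le_mul_left h4 hn'
  have h6 : 0 ≤ Z := sum_nonneg (fun x _ => hw x)
  rcases h6.eq_or_lt with h7 | h7
  · rw [← h7] at h5
    linarith
  · have := mul_pos hε h7
    linarith

end JF

end Pool.Agent.Lib.MP_a05470_co
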