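import Pool.Agent.Lib.MP_a05470_co.JMFam
import Pool.Agent.Lib.MP_a05470_co.JLevels

/-!
# The structure theorem with mixed boxes
-/

set_option autoImplicit false
set_option linter.unusedSectionVars false

namespace Pool.Agent.Lib.MP_a05470_co

open Finset Classical

namespace JM

open JF (Cheap gp bp gp_subset bp_subset gp_subset_bp mem_gp mem_bp tau tau_ge' tau_none Bad
  Bad.card tau_ge_ng tau_nonneg mat_nonneg mat_nonred mat_nonblue sumK_nonneg sumK_ge full_bad
  not_bad exists_green)

variable {W : Type} [Fintype W] {Gr Gb : SimpleGraph W}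

/-- the weight of a box at level `k` -/
noncomputable def cc (k : ℕ) (C : Finset W) : ℝ := k + (if k < C.card then (1 : ℝ) else 0)

/-- the cost of `v` with respect to the box `C` at level `k` -/
noncomputable def qq (A B : ℝ) (Gr Gb : SimpleGraph W) (k : ℕ) (v : W) (C : Finset W) : ℝ :=
  cc k C * tau A B Gr Gb v C / C.card

theorem cc_nonneg (k : ℕ) (C : Finset W) : 0 ≤ cc k C := by
  unfold cc
  split_ifs <;> positivity

theorem cc_ge (k : ℕ) (C : Finset W) : (k : ℝ) ≤ cc k C := by
  unfold cc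
  split_ifs <;> linarith

theorem cc_big {k : ℕ} {C : Finset W} (h : k < C.card) : cc k C = k + 1 := by
  unfold cc
  rw [if_pos h]

theorem cc_not {k : ℕ} {C : Finset W} (h : ¬ k < C.card) : cc k C = k := by
  unfold cc
  rw [if_neg h, add_zero]

theorem sum_cc (k : ℕ) (F : Finset (Finset W)) :
    ∑ C ∈ F, cc k C = k * F.card + NS k F := by
  unfold cc NS
  rw [sum_add_distrib, sum_const, nsmul_eq_mul, ← sum_filter]
  simp
  ring

/-- from certificates to the size of the family -/
theorem cheap_family {A B : ℝ} (hG : Cheap A B Gr Gb) (F : Finset (Finset W)) (k : ℕ) {ω : ℝ}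
    (hω : 0 ≤ ω) (K' : Finset W) {c : ℝ} (hc : 0 < c) (hne : ∀ C ∈ F, C.Nonempty)
    (h : ∀ v, c ≤ ∑ C ∈ F, qq A B Gr Gb k v C + ω * ∑ z ∈ K', Mat A B Gr Gb z v) :
    c < k * F.card + NS k F + ω * K'.card := by
  have h1 := hG (fun x => ∑ C ∈ F, (if x ∈ C then cc k C / C.card else 0) +
    (if x ∈ K' then ω else 0)) c (by
      intro x
      apply add_nonneg
      · apply sum_nonneg
        intro C _
        split_ifs
        · exact div_nonneg (cc_nonneg k C) (by positivity)
        · exact le_rfl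
      · split_ifs
        · exact hω
        · exact le_rfl) hc (by
      intro v
      refine (h v).trans (le_of_eq ?_)
      simp_rw [add_mul, sum_mul]
      rw [sum_add_distrib, sum_comm]
      congr 1
      · apply sum_congr rfl
        intro C _
        unfold qq tau
        rw [mul_div_right_comm, mul_sum, ← sum_filter_add_sum_filter_not univ (fun x => x ∈ C)]
        rw [sum_eq_zero (s := univ.filter (fun x => ¬ x ∈ C)), add_zero]
        · rw [filter_mem_eq_inter, univ_inter]
          apply sum_congr rfl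
          intro x hx
          rw [if_pos hx]
        · intro x hx
          rw [mem_filter] at hx
          rw [if_neg hx.2, zero_mul]
      · rw [mul_sum, ← sum_filter_add_sum_filter_not univ (fun x => x ∈ K')]
        rw [sum_eq_zero (s := univ.filter (fun x => ¬ x ∈ K')), add_zero]
        · rw [filter_mem_eq_inter, univ_inter]
          apply sum_congr rfl
          intro x hx
          rw [if_pos hx]
        · intro x hx
          rw [mem_filter] at hx
          rw [if_neg hx.2, zero_mul])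
  refine lt_of_lt_of_eq h1 ?_
  rw [sum_add_distrib, sum_comm, ← sum_cc]
  congr 1
  · apply sum_congr rfl
    intro C hC
    rw [← sum_filter, filter_mem_eq_inter, univ_inter, sum_const, nsmul_eq_mul]
    have h0 : (C.card : ℝ) ≠ 0 := by
      have := card_pos.2 (hne C hC)
      positivity
    field_simp
  · rw [← sum_filter, filter_mem_eq_inter, univ_inter, sum_const, nsmul_eq_mul]
    ring

section costs

variable {A G : ℝ} {v : W} {C : Finset W} {k : ℕ}

theorem qq_nonneg (hA : 0 ≤ A) (hG : 0 ≤ G) : 0 ≤ qq A (A + G) Gr Gb k v C :=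
  div_nonneg (mul_nonneg (cc_nonneg k C) (tau_nonneg hA hG)) (by positivity)

theorem le_qq {t : ℝ} (hC : C.Nonempty) (h : t * C.card ≤ cc k C * tau A (A + G) Gr Gb v C) :
    t ≤ qq A (A + G) Gr Gb k v C := by
  unfold qq
  rw [le_div_iff₀ (by exact_mod_cast card_pos.2 hC)]
  exact h

/-- a full box with many nonblue vertices -/
theorem qq_full_r (hA : 0 ≤ A) (hG : 0 ≤ G) (hC : C.Nonempty) (hf : gp Gr Gb v C = ∅) {t : ℝ}
    (ht : t * C.card ≤ (C.card : ℝ) - (bp Gb v C).card) :
    cc k C * (A + G * t) ≤ qq A (A + G) Gr Gb k v C := by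
  apply le_qq hC
  have h1 := tau_ge' (Gr := Gr) (Gb := Gb) (G := G) (v := v) (C := C) hA
  rw [hf, card_empty] at h1
  have h4 : (A + G * t) * C.card ≤ tau A (A + G) Gr Gb v C := by
    push_cast at h1
    have := mul_le_mul_of_nonneg_left ht hG
    nlinarith
  have h5 := mul_le_mul_of_nonneg_left h4 (cc_nonneg k C)
  linarith

/-- a full box -/
theorem qq_full (hA : 0 ≤ A) (hG : 0 ≤ G) (hC : C.Nonempty) (hf : gp Gr Gb v C = ∅) :
    cc k C * A ≤ qq A (A + G) Gr Gb k v C := by
  have := qq_full_r (k := k) (Gr := Gr) (Gb := Gb) (A := A) (G := G) hA hG hC hf (t := 0) (by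
    rw [zero_mul, sub_nonneg]
    exact_mod_cast card_le_card (bp_subset v _))
  rwa [mul_zero, add_zero] at this

/-- a full box with many nonblue vertices and a vertex missing both colours -/
theorem qq_full_none (hA : 0 ≤ A) (hG : 0 ≤ G) (hC : C.Nonempty) (hf : gp Gr Gb v C = ∅) {t u : ℝ}
    (ht : t * C.card ≤ (C.card : ℝ) - (bp Gb v C).card) (hu : u * C.card ≤ 1) {y : W} (hy : y ∈ C)
    (h1 : ¬ Gr.Adj v y) (h2 : ¬ Gb.Adj v y) :
    cc k C * (A + G * t + A * u) ≤ qq A (A + G) Gr Gb k v C := by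
  apply le_qq hC
  have h1 := tau_none (G := G) (C := C) hA hy h1 h2
  rw [hf, card_empty] at h1
  have h4 : (A + G * t + A * u) * C.card ≤ tau A (A + G) Gr Gb v C := by
    push_cast at h1
    have h6 := mul_le_mul_of_nonneg_left ht hG
    have h7 := mul_le_mul_of_nonneg_left hu hA
    nlinarith
  have h5 := mul_le_mul_of_nonneg_left h4 (cc_nonneg k C)
  linarith

theorem MB.gp_empty (h : MB Gr Gb C) (hv : v ∈ C) : gp Gr Gb v C = ∅ := by
  rw [← not_nonempty_iff_eq_empty]
  rintro ⟨x, hx⟩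
  rw [mem_gp] at hx
  exact (h.2 v hv x hx.1 (Gb.ne_of_adj hx.2.2)).1 hx.2.1 hx.2.2

theorem bp_card_lt (hv : v ∈ C) : (bp Gb v C).card < C.card := by
  apply card_lt_card
  rw [Finset.ssubset_iff_of_subset (bp_subset v C)]
  refine ⟨v, hv, ?_⟩
  rw [mem_bp]
  exact fun h => Gb.irrefl h.2

theorem qq_bad (hA : 0 ≤ A) (hG : 0 ≤ G) {d : ℕ} (hk : 1 ≤ k) (hdk : d ≤ k)
    (h : Bad Gr Gb d v C) : A ≤ qq A (A + G) Gr Gb k v C := by
  obtain ⟨h1, h2⟩ := h.card
  apply le_qq (card_pos.1 (by omega))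
  have h3 := tau_ge_ng (Gr := Gr) (Gb := Gb) (v := v) (C := C) hA hG
  have h4 : (C.card : ℝ) ≤ cc k C * ((C.card : ℝ) - (gp Gr Gb v C).card) := by
    have g1 : ((gp Gr Gb v C).card : ℝ) + 1 ≤ C.card := by exact_mod_cast h1
    have g2 : ((gp Gr Gb v C).card : ℝ) ≤ k := by exact_mod_cast h2.trans hdk
    have g3 : (1 : ℝ) ≤ k := by exact_mod_cast hk
    by_cases hb : k < C.card
    · rw [cc_big hb]
      have g4 : (k : ℝ) + 1 ≤ C.card := by exact_mod_cast hb
      nlinarith [mul_nonneg (by linarith : (0 : ℝ) ≤ k) (sub_nonneg.2 g4),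
        mul_nonneg (by linarith : (0 : ℝ) ≤ k + 1) (sub_nonneg.2 g2)]
    · rw [cc_not hb]
      have g5 : (C.card : ℝ) ≤ k := by exact_mod_cast not_lt.1 hb
      nlinarith
  have h5 := mul_le_mul_of_nonneg_left h3 (cc_nonneg k C)
  have h6 := mul_le_mul_of_nonneg_left h4 hA
  linarith

theorem qq_bad' (hA : 0 ≤ A) (hG : 0 ≤ G) {d : ℕ} (h : Bad Gr Gb d v C) :
    (k : ℝ) * A / (d + 1) ≤ qq A (A + G) Gr Gb k v C := by
  obtain ⟨h1, h2⟩ := h.card
  apply le_qq (card_pos.1 (by omega))
  have h3 := tau_ge_ng (Gr := Gr) (Gb := Gb) (v := v) (C := C) hA hG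
  have hd : (0 : ℝ) < (d : ℝ) + 1 := by positivity
  have h4 : (C.card : ℝ) ≤ (d + 1) * ((C.card : ℝ) - (gp Gr Gb v C).card) := by
    have g1 : ((gp Gr Gb v C).card : ℝ) + 1 ≤ C.card := by exact_mod_cast h1
    have g2 : ((gp Gr Gb v C).card : ℝ) ≤ d := by exact_mod_cast h2
    have g3 : (0 : ℝ) ≤ (gp Gr Gb v C).card := by positivity
    nlinarith [mul_nonneg g3 (sub_nonneg.2 g1), mul_nonneg (sub_nonneg.2 g2) (by linarith :
      (0 : ℝ) ≤ (C.card : ℝ) - (gp Gr Gb v C).card)]
  have h5 := cc_ge k C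
  rw [div_mul_eq_mul_div, div_le_iff₀ hd]
  have hk : (0 : ℝ) ≤ k := by positivity
  have h6 : (k : ℝ) * tau A (A + G) Gr Gb v C ≤ cc k C * tau A (A + G) Gr Gb v C :=
    mul_le_mul_of_nonneg_right h5 (tau_nonneg hA hG)
  have h7 : (k : ℝ) * A * C.card ≤ k * ((d + 1) * tau A (A + G) Gr Gb v C) := by
    have := mul_le_mul_of_nonneg_left h4 (mul_nonneg hk hA)
    have h8 := mul_le_mul_of_nonneg_left h3 (mul_nonneg hk hd.le)
    linarith
  have h8 := mul_le_mul_of_nonneg_right h6 hd.le
  linarith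

/-- few blue vertices in a box with at least two vertices, at level 1 -/
theorem qq_fewblue (hA : 0 ≤ A) (hG : 0 ≤ G) (hs : 2 ≤ C.card) (h : (bp Gb v C).card ≤ 1) :
    A + G ≤ qq A (A + G) Gr Gb 1 v C := by
  have hne : C.Nonempty := card_pos.1 (by omega)
  have h1 := tau_ge' (Gr := Gr) (Gb := Gb) (G := G) (v := v) (C := C) hA
  have h2 : ((gp Gr Gb v C).card : ℝ) ≤ 1 := by
    exact_mod_cast (card_le_card (gp_subset_bp (Gr := Gr) (Gb := Gb) v C)).trans h
  have h3 : ((bp Gb v C).card : ℝ) ≤ 1 := by exact_mod_cast h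
  have h4 : (2 : ℝ) ≤ C.card := by exact_mod_cast hs
  have h5 : (A + G) * ((C.card : ℝ) - 1) ≤ tau A (A + G) Gr Gb v C := by
    nlinarith [mul_nonneg hA (sub_nonneg.2 h2), mul_nonneg hG (sub_nonneg.2 h3)]
  apply le_qq hne
  rw [cc_big (by omega)]
  push_cast
  have h8 : 0 ≤ (A + G) * ((C.card : ℝ) - 2) := mul_nonneg (by linarith) (by linarith)
  nlinarith

end costs

section certs

variable {A G : ℝ} {v : W} {k a g : ℕ} {F : Finset (Finset W)} {K : Finset W}

theorem ge1 (hA : 0 ≤ A) (hG : 0 ≤ G) {C : Finset W} (hC : C ∈ F) :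
    qq A (A + G) Gr Gb k v C ≤ ∑ C ∈ F, qq A (A + G) Gr Gb k v C :=
  single_le_sum (f := fun C => qq A (A + G) Gr Gb k v C) (fun _ _ => qq_nonneg hA hG) hC

theorem ge2 (hA : 0 ≤ A) (hG : 0 ≤ G) {C D : Finset W} (hC : C ∈ F) (hD : D ∈ F) (hCD : C ≠ D) :
    qq A (A + G) Gr Gb k v C + qq A (A + G) Gr Gb k v D ≤ ∑ C ∈ F, qq A (A + G) Gr Gb k v C := by
  rw [← sum_pair (f := fun C => qq A (A + G) Gr Gb k v C) hCD]
  apply sum_le_sum_of_subset_of_nonneg
  · intro x hx
    rw [mem_insert, mem_singleton] at hx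
    rcases hx with rfl | rfl
    · exact hC
    · exact hD
  · exact fun _ _ _ => qq_nonneg hA hG

theorem ge3 (hA : 0 ≤ A) (hG : 0 ≤ G) {C D E : Finset W} (hC : C ∈ F) (hD : D ∈ F) (hE : E ∈ F)
    (hCD : C ≠ D) (hCE : C ≠ E) (hDE : D ≠ E) :
    qq A (A + G) Gr Gb k v C + qq A (A + G) Gr Gb k v D + qq A (A + G) Gr Gb k v E ≤
      ∑ C ∈ F, qq A (A + G) Gr Gb k v C := by
  have h1 : qq A (A + G) Gr Gb k v C + qq A (A + G) Gr Gb k v D + qq A (A + G) Gr Gb k v E =
      ∑ C ∈ {C, D, E}, qq A (A + G) Gr Gb k v C := by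
    rw [sum_insert, sum_pair hDE]
    · ring
    · rw [mem_insert, mem_singleton]
      push Not
      exact ⟨hCD, hCE⟩
  rw [h1]
  apply sum_le_sum_of_subset_of_nonneg
  · intro x hx
    rw [mem_insert, mem_insert, mem_singleton] at hx
    rcases hx with rfl | rfl | rfl
    · exact hC
    · exact hD
    · exact hE
  · exact fun _ _ _ => qq_nonneg hA hG

/-- every vertex has a box without green neighbours -/
theorem Best.full' (hB : Best Gr Gb a g F K) (v : W) :
    ∃ C ∈ F, gp Gr Gb v C = ∅ ∧ (v ∈ C ∨ ∀ C ∈ F, v ∉ C) := by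
  by_cases hin : ∃ C ∈ F, v ∈ C
  · obtain ⟨C, hC, hv⟩ := hin
    exact ⟨C, hC, (hB.mf.box C hC).gp_empty hv, Or.inl hv⟩
  · push Not at hin
    obtain ⟨C0, hC0, hf⟩ := hB.full hin
    exact ⟨C0, hC0, hf, Or.inr hin⟩

/-- level 0 on `F` -/
theorem cert_F0 (hA : 0 ≤ A) (hG : 0 ≤ G) (hB : Best Gr Gb a g F K) (v : W) :
    A ≤ ∑ C ∈ F, qq A (A + G) Gr Gb 0 v C := by
  obtain ⟨C, hC, hf, _⟩ := hB.full' v
  refine le_trans ?_ (ge1 hA hG hC)
  have hne := (hB.mf.box C hC).1
  have h1 := qq_full (k := 0) hA hG hne hf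
  rw [cc_big (card_pos.2 hne)] at h1
  push_cast at h1
  linarith

/-- level 1 on `F` -/
theorem cert_F1 (hA : 0 ≤ A) (hG : 0 ≤ G) (hB : Best Gr Gb a g F K) (ha : NS 1 F < a)
    (v : W) : 2 * A ≤ ∑ C ∈ F, qq A (A + G) Gr Gb 1 v C := by
  obtain ⟨C0, hC0, hf, hin⟩ := hB.full' v
  have hne0 := (hB.mf.box C0 hC0).1
  have h1 := qq_full (k := 1) hA hG hne0 hf
  by_cases hb : 1 < C0.card
  · refine le_trans ?_ (ge1 hA hG hC0)
    rw [cc_big hb] at h1
    push_cast at h1
    linarith
  rw [cc_not hb] at h1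
  push_cast at h1
  have hc1 : C0.card = 1 := le_antisymm (not_lt.1 hb) (card_pos.2 hne0)
  by_cases hbad : ∃ C ∈ F, C ≠ C0 ∧ Bad Gr Gb 1 v C
  · obtain ⟨C, hC, hne, hbad⟩ := hbad
    have h2 := qq_bad (k := 1) hA hG le_rfl le_rfl hbad
    have h3 := ge2 (k := 1) (Gr := Gr) (Gb := Gb) (v := v) hA hG hC0 hC (Ne.symm hne)
    linarith
  push Not at hbad
  by_cases hnone : ∃ x ∈ C0, ¬ Gr.Adj v x ∧ ¬ Gb.Adj v x
  · obtain ⟨x, hx, hgr, hgb⟩ := hnone
    refine le_trans ?_ (ge1 hA hG hC0)
    have h4 := qq_full_none (k := 1) (Gr := Gr) (Gb := Gb) (A := A) (G := G) hA hG hne0 hf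
      (t := 0) (u := 1) (by
        rw [zero_mul, sub_nonneg]
        exact_mod_cast card_le_card (bp_subset v _)) (by rw [hc1]; simp) hx hgr hgb
    rw [cc_not hb] at h4
    push_cast at h4
    linarith
  · exfalso
    push Not at hnone
    have hvC : v ∉ C0 := fun h => Gb.irrefl (hnone v h Gr.irrefl)
    refine hB.no_join_one hC0 hc1 hvC ?_ ha ?_
    · intro x hx
      have h5 := exists_green hf hx
      have h6 := hnone x hx
      tauto
    · intro C hC hne
      rw [hc1]
      exact not_bad (hbad C hC hne)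

/-- the blue cut of the exceptional boxes and the green cut of the others keep large boxes -/
theorem keep_large {E : Finset (Finset W)}
    (hoth : ∀ C ∈ F, C ∉ E → gp Gr Gb v C = C ∨ 1 < (gp Gr Gb v C).card)
    (hE : ∀ C ∈ F, C ∈ E → 2 ≤ C.card → 2 ≤ (bp Gb v C).card) :
    min (NS 1 F) a ≤ min (F.filter (fun C => 1 <
      (if C ∈ E then bp Gb v C else gp Gr Gb v C).card)).card a := by
  apply min_le_min_right
  apply card_le_card
  intro C hC
  rw [mem_filter] at hC ⊢
  refine ⟨hC.1, ?_⟩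
  by_cases h : C ∈ E
  · rw [if_pos h]
    exact hE C hC.1 h hC.2
  · rw [if_neg h]
    rcases hoth C hC.1 h with h' | h'
    · rw [h']
      exact hC.2
    · exact h'

/-- joining `K` with exceptional boxes `E` -/
theorem Best.no_joinK' (hB : Best Gr Gb a g F K) (hvK : v ∉ K) (hKg : K.card < g)
    (hKv : ∀ z ∈ K, Gb.Adj z v) {E : Finset (Finset W)} (hE : E.card ≤ 2)
    (hoth : ∀ C ∈ F, C ∉ E → gp Gr Gb v C = C ∨ 1 < (gp Gr Gb v C).card)
    (hEb : ∀ C ∈ F, C ∈ E → (bp Gb v C).Nonempty ∧ (2 ≤ C.card → 2 ≤ (bp Gb v C).card)) :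
    False := by
  refine hB.no_joinK hvK hKg hKv hE ?_ (fun C hC h => (hEb C hC h).1)
    (keep_large hoth (fun C hC h => (hEb C hC h).2))
  intro C hC hCE
  rcases hoth C hC hCE with h | h
  · rw [h]
    exact (hB.mf.box C hC).1
  · exact card_pos.1 (by omega)

/-- the cost of a vertex inside a box when `K` is not full -/
theorem in_box (hA : 0 ≤ A) (hG : 0 ≤ G) (hB : Best Gr Gb a g F K) (hKg : K.card < g)
    {C : Finset W} (hC : C ∈ F) (hv : v ∈ C) :
    (C.card = 1 ∧ cc k C * (2 * A + G) ≤ qq A (A + G) Gr Gb k v C) ∨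
    (C.card = 2 ∧ cc k C * (3 * A + G) / 2 ≤ qq A (A + G) Gr Gb k v C) ∨
    (3 ≤ C.card ∧ cc k C * (A + G + (A - G) / C.card) ≤ qq A (A + G) Gr Gb k v C) := by
  have hne := (hB.mf.box C hC).1
  have hs : (0 : ℝ) < C.card := by exact_mod_cast card_pos.2 hne
  have hf := (hB.mf.box C hC).gp_empty hv
  have hlt := bp_card_lt (Gb := Gb) hv
  have h1 := fun t => qq_full_none (k := k) (Gr := Gr) (Gb := Gb) (A := A) (G := G) hA hG hne hf
    (t := t) (u := 1 / C.card)
  rcases Nat.lt_or_ge C.card 2 with h2 | h2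
  · left
    have hc : C.card = 1 := by omega
    have hb : (bp Gb v C).card = 0 := by omega
    refine ⟨hc, ?_⟩
    have := h1 1 (by rw [hb]; simp) (by rw [one_div, inv_mul_cancel₀ hs.ne']) hv Gr.irrefl
      Gb.irrefl
    rw [hc] at this
    push_cast at this
    refine le_trans (le_of_eq ?_) this
    ring
  · right
    rcases Nat.lt_or_ge C.card 3 with h3 | h3
    · left
      have hc : C.card = 2 := by omega
      have hb : ((bp Gb v C).card : ℝ) ≤ 1 := by exact_mod_cast (by omega : (bp Gb v C).card ≤ 1)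
      refine ⟨hc, ?_⟩
      have hcR : (C.card : ℝ) = 2 := by exact_mod_cast hc
      have := h1 (1 / 2) (by rw [hcR]; linarith) (by rw [one_div, inv_mul_cancel₀ hs.ne']) hv
        Gr.irrefl Gb.irrefl
      rw [hcR] at this
      refine le_trans (le_of_eq ?_) this
      ring
    · right
      refine ⟨h3, ?_⟩
      have hb1 : (bp Gb v C).card ≤ 1 := by
        by_contra hcon
        exact hB.no_moveK hKg hC hv (by omega)
      have hb : ((bp Gb v C).card : ℝ) ≤ 1 := by exact_mod_cast hb1
      have := h1 (1 - 1 / C.card) (by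
        rw [sub_mul, one_mul, one_div, inv_mul_cancel₀ hs.ne']
        linarith) (by rw [one_div, inv_mul_cancel₀ hs.ne']) hv Gr.irrefl Gb.irrefl
      refine le_trans (le_of_eq ?_) this
      field_simp
      ring

/-- level 1 -/
theorem cert_L1 (hA : 0 ≤ A) (hG : 0 ≤ G) (hGA : G ≤ A) (hB : Best Gr Gb a g F K)
    (hKg : K.card < g) (v : W) :
    2 * A + G ≤ ∑ C ∈ F, qq A (A + G) Gr Gb 1 v C + ∑ z ∈ K, Mat A (A + G) Gr Gb z v := by
  have hK0 := sumK_nonneg (Gr := Gr) (Gb := Gb) (v := v) hA hG K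
  have hF0 : 0 ≤ ∑ C ∈ F, qq A (A + G) Gr Gb 1 v C := sum_nonneg (fun _ _ => qq_nonneg hA hG)
  by_cases hin : ∃ C ∈ F, v ∈ C
  · obtain ⟨C, hC, hv⟩ := hin
    have h1 := ge1 (k := 1) (v := v) (Gr := Gr) (Gb := Gb) hA hG hC
    rcases in_box (k := 1) hA hG hB hKg hC hv with ⟨hc, h⟩ | ⟨hc, h⟩ | ⟨hc, h⟩
    · rw [cc_not (by omega)] at h
      push_cast at h
      linarith
    · rw [cc_big (by omega)] at h
      push_cast at h
      linarith
    · rw [cc_big (by omega)] at h
      push_cast at h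
      have : 0 ≤ (A - G) / (C.card : ℝ) := div_nonneg (by linarith) (by positivity)
      linarith
  push Not at hin
  obtain ⟨C0, hC0, hf⟩ := hB.full hin
  have hne0 := (hB.mf.box C0 hC0).1
  have h1 := qq_full (k := 1) hA hG hne0 hf
  have hcc1 := cc_ge 1 C0
  have hq0 : A ≤ qq A (A + G) Gr Gb 1 v C0 := by
    push_cast at hcc1
    nlinarith
  by_cases hvK : v ∈ K
  · have h2 := sumK_ge (Gr := Gr) (Gb := Gb) (v := v) hA hG hvK
    have h3 : Mat A (A + G) Gr Gb v v = 2 * A + G := by rw [Mat_self]; ring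
    linarith
  -- a hit in `K`
  have hitK : ∀ z ∈ K, ¬ (Gr.Adj z v ∧ Gb.Adj z v) → A ≤ ∑ z ∈ K, Mat A (A + G) Gr Gb z v :=
    fun z hz h => (mat_nonred hA hG h).trans (sumK_ge hA hG hz)
  have hitKb : ∀ z ∈ K, ¬ Gb.Adj z v → A + G ≤ ∑ z ∈ K, Mat A (A + G) Gr Gb z v :=
    fun z hz h => (mat_nonblue hA h).trans (sumK_ge hA hG hz)
  by_cases hnb : ∃ z ∈ K, ¬ Gb.Adj z v
  · obtain ⟨z, hz, h⟩ := hnb
    have h2 := hitKb z hz h
    have h3 := ge1 (k := 1) (v := v) (Gr := Gr) (Gb := Gb) hA hG hC0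
    linarith
  push Not at hnb
  by_cases hbig : 1 < C0.card
  · -- a large full box
    rw [cc_big hbig] at h1
    push_cast at h1
    have hq0' : 2 * A ≤ qq A (A + G) Gr Gb 1 v C0 := by linarith
    by_cases hbad : ∃ C ∈ F, C ≠ C0 ∧ Bad Gr Gb 1 v C
    · obtain ⟨C, hC, hne, hbad⟩ := hbad
      have h2 := qq_bad (k := 1) hA hG le_rfl le_rfl hbad
      have h3 := ge2 (k := 1) (Gr := Gr) (Gb := Gb) (v := v) hA hG hC0 hC (Ne.symm hne)
      linarith
    push Not at hbad
    by_cases hr : C0.card ≤ 2 * (C0.card - (bp Gb v C0).card)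
    · have h3 := ge1 (k := 1) (v := v) (Gr := Gr) (Gb := Gb) hA hG hC0
      have h4 := qq_full_r (k := 1) (Gr := Gr) (Gb := Gb) (A := A) (G := G) hA hG hne0 hf
        (t := 1 / 2) (by
          have h5 : (bp Gb v C0).card ≤ C0.card := card_le_card (bp_subset v C0)
          have h6 : C0.card + 2 * (bp Gb v C0).card ≤ 2 * C0.card := by omega
          have h7 : (C0.card : ℝ) + 2 * (bp Gb v C0).card ≤ 2 * C0.card := by exact_mod_cast h6
          linarith)
      rw [cc_big hbig] at h4
      push_cast at h4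
      linarith
    · exfalso
      have hb2 : 2 ≤ (bp Gb v C0).card := by omega
      refine hB.no_joinK' hvK hKg hnb (E := {C0}) (by simp) ?_ ?_
      · intro C hC hne
        rw [mem_singleton] at hne
        exact not_bad (hbad C hC hne)
      · intro C hC hCE
        rw [mem_singleton] at hCE
        rw [hCE]
        exact ⟨card_pos.1 (by omega), fun _ => hb2⟩
  · -- a single full vertex
    obtain ⟨x, rfl⟩ := card_eq_one.1 (le_antisymm (not_lt.1 hbig) (card_pos.2 hne0))
    have hx : x ∈ ({x} : Finset W) := mem_singleton_self x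
    have hvx : v ≠ x := fun h => hin _ hC0 (by rw [h]; exact hx)
    by_cases hgb : Gb.Adj v x
    · -- blue only
      have hbx : bp Gb v {x} = {x} := by
        ext y
        rw [mem_bp, mem_singleton]
        constructor
        · exact fun h => h.1
        · rintro rfl
          exact ⟨rfl, hgb⟩
      have hxE : (bp Gb v {x}).Nonempty ∧ (2 ≤ ({x} : Finset W).card → 2 ≤ (bp Gb v {x}).card) := by
        rw [hbx]
        exact ⟨singleton_nonempty x, fun h => h⟩
      by_cases hsec : ∃ C ∈ F, C ≠ {x} ∧ Bad Gr Gb 1 v C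
      · obtain ⟨C1, hC1, hne1, hbad1⟩ := hsec
        have hq1 := qq_bad (k := 1) hA hG le_rfl le_rfl hbad1
        have h3 := ge2 (k := 1) (Gr := Gr) (Gb := Gb) (v := v) hA hG hC0 hC1 (Ne.symm hne1)
        by_cases hgK : ∃ z ∈ K, ¬ (Gr.Adj z v ∧ Gb.Adj z v)
        · obtain ⟨z, hz, h⟩ := hgK
          have := hitK z hz h
          linarith
        push Not at hgK
        by_cases hthird : ∃ C ∈ F, C ≠ {x} ∧ C ≠ C1 ∧ Bad Gr Gb 1 v C
        · obtain ⟨C2, hC2, hne2, hne3, hbad2⟩ := hthird
          have hq2 := qq_bad (k := 1) hA hG le_rfl le_rfl hbad2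
          have h4 := ge3 (k := 1) (Gr := Gr) (Gb := Gb) (v := v) hA hG hC0 hC1 hC2 (Ne.symm hne1)
            (Ne.symm hne2) (Ne.symm hne3)
          linarith
        push Not at hthird
        -- `C1` is full or has exactly one green vertex
        by_cases hb1 : (bp Gb v C1).Nonempty ∧ (2 ≤ C1.card → 2 ≤ (bp Gb v C1).card)
        · exfalso
          refine hB.no_joinK' hvK hKg hnb (E := {{x}, C1}) ?_ ?_ ?_
          · rw [card_pair (Ne.symm hne1)]
          · intro C hC hne
            rw [mem_insert, mem_singleton] at hne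
            push Not at hne
            exact not_bad (hthird C hC hne.1 hne.2)
          · intro C hC hCE
            rw [mem_insert, mem_singleton] at hCE
            rcases hCE with rfl | rfl
            · exact hxE
            · exact hb1
        · -- few blue vertices in `C1`
          have hneC1 := (hB.mf.box C1 hC1).1
          rcases Nat.lt_or_ge C1.card 2 with h2 | h2
          · -- `C1` is a single nonblue vertex
            have hbe : bp Gb v C1 = ∅ := by
              by_contra hcon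
              exact hb1 ⟨nonempty_iff_ne_empty.2 hcon, by omega⟩
            have hge : gp Gr Gb v C1 = ∅ := by
              have := gp_subset_bp (Gr := Gr) (Gb := Gb) v C1
              rw [hbe] at this
              exact subset_empty.1 this
            have h4 := qq_full_r (k := 1) (Gr := Gr) (Gb := Gb) (A := A) (G := G) hA hG hneC1 hge
              (t := 1) (by rw [hbe, card_empty]; simp)
            have h5 := cc_ge 1 C1
            push_cast at h5
            nlinarith
          · have hb2 : (bp Gb v C1).card ≤ 1 := by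
              by_contra hcon
              exact hb1 ⟨card_pos.1 (by omega), fun _ => by omega⟩
            have h4 := qq_fewblue (Gr := Gr) (Gb := Gb) (v := v) hA hG h2 hb2
            linarith
      · -- `v` joins `K`
        exfalso
        push Not at hsec
        refine hB.no_joinK' hvK hKg hnb (E := {{x}}) (by simp) ?_ ?_
        · intro C hC hne
          rw [mem_singleton] at hne
          exact not_bad (hsec C hC hne)
        · intro C hC hCE
          rw [mem_singleton] at hCE
          rw [hCE]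
          exact hxE
    · -- not blue
      have hbe : bp Gb v {x} = ∅ := by
        rw [← not_nonempty_iff_eq_empty]
        rintro ⟨y, hy⟩
        rw [mem_bp, mem_singleton] at hy
        rw [hy.1] at hy
        exact hgb hy.2
      have h4 := qq_full_r (k := 1) (Gr := Gr) (Gb := Gb) (A := A) (G := G) hA hG hne0 hf
        (t := 1) (by rw [hbe, card_empty]; simp)
      rw [cc_not hbig] at h4
      push_cast at h4
      by_cases hgK : ∃ z ∈ K, ¬ (Gr.Adj z v ∧ Gb.Adj z v)
      · obtain ⟨z, hz, h⟩ := hgK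
        have h5 := hitK z hz h
        have h6 := ge1 (k := 1) (v := v) (Gr := Gr) (Gb := Gb) hA hG hC0
        linarith
      push Not at hgK
      by_cases hbad : ∃ C ∈ F, C ≠ {x} ∧ Bad Gr Gb 1 v C
      · obtain ⟨C, hC, hne, hbad⟩ := hbad
        have h2 := qq_bad (k := 1) hA hG le_rfl le_rfl hbad
        have h3 := ge2 (k := 1) (Gr := Gr) (Gb := Gb) (v := v) hA hG hC0 hC (Ne.symm hne)
        linarith
      push Not at hbad
      by_cases hgr : Gr.Adj v x
      · exfalso
        refine hB.no_join hC0 (by rw [mem_singleton]; exact hvx) ?_ hgK ?_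
        · intro y hy
          rw [mem_singleton] at hy
          rw [hy]
          exact ⟨fun _ => hgb, fun _ => hgr⟩
        · intro C hC hne
          rw [card_singleton]
          exact not_bad (hbad C hC hne)
      · have h5 := qq_full_none (k := 1) (Gr := Gr) (Gb := Gb) (A := A) (G := G) hA hG hne0 hf
          (t := 1) (u := 1) (by rw [hbe, card_empty]; simp) (by simp) hx hgr hgb
        rw [cc_not hbig] at h5
        push_cast at h5
        have h6 := ge1 (k := 1) (v := v) (Gr := Gr) (Gb := Gb) hA hG hC0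
        linarith

/-- level 0 -/
theorem cert_L0 (hA : 0 ≤ A) (hG : 0 ≤ G) (hGA : 2 * G ≤ A) (hB : Best Gr Gb a g F K)
    (hN : a + 1 ≤ NS 1 F) (hKg : K.card < g) (v : W) :
    A + G ≤ ∑ C ∈ F, qq A (A + G) Gr Gb 0 v C + ∑ z ∈ K, Mat A (A + G) Gr Gb z v := by
  have hK0 := sumK_nonneg (Gr := Gr) (Gb := Gb) (v := v) hA hG K
  have hF0 : 0 ≤ ∑ C ∈ F, qq A (A + G) Gr Gb 0 v C := sum_nonneg (fun _ _ => qq_nonneg hA hG)
  by_cases hin : ∃ C ∈ F, v ∈ C
  · obtain ⟨C, hC, hv⟩ := hin
    have h1 := ge1 (k := 0) (v := v) (Gr := Gr) (Gb := Gb) hA hG hC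
    rcases in_box (k := 0) hA hG hB hKg hC hv with ⟨hc, h⟩ | ⟨hc, h⟩ | ⟨hc, h⟩
    · rw [cc_big (by omega)] at h
      push_cast at h
      linarith
    · rw [cc_big (by omega)] at h
      push_cast at h
      linarith
    · rw [cc_big (by omega)] at h
      push_cast at h
      have : 0 ≤ (A - G) / (C.card : ℝ) := div_nonneg (by linarith) (by positivity)
      linarith
  push Not at hin
  by_cases hvK : v ∈ K
  · have h2 := sumK_ge (Gr := Gr) (Gb := Gb) (v := v) hA hG hvK
    have h3 : Mat A (A + G) Gr Gb v v = 2 * A + G := by rw [Mat_self]; ring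
    linarith
  obtain ⟨C0, hC0, hf⟩ := hB.full hin
  have hne0 := (hB.mf.box C0 hC0).1
  have h1 := qq_full (k := 0) hA hG hne0 hf
  rw [cc_big (card_pos.2 hne0)] at h1
  push_cast at h1
  have hq0 : A ≤ qq A (A + G) Gr Gb 0 v C0 := by linarith
  have hg1 := ge1 (k := 0) (v := v) (Gr := Gr) (Gb := Gb) hA hG hC0
  by_cases hgK : ∃ z ∈ K, ¬ (Gr.Adj z v ∧ Gb.Adj z v)
  · obtain ⟨z, hz, h⟩ := hgK
    have h5 : A ≤ ∑ z ∈ K, Mat A (A + G) Gr Gb z v :=
      (mat_nonred hA hG h).trans (sumK_ge hA hG hz)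
    linarith
  push Not at hgK
  by_cases hbad : ∃ C ∈ F, C ≠ C0 ∧ Bad Gr Gb 1 v C
  · obtain ⟨C, hC, hne, hbad⟩ := hbad
    have h3 := ge2 (k := 0) (Gr := Gr) (Gb := Gb) (v := v) hA hG hC0 hC (Ne.symm hne)
    obtain ⟨h4, h5⟩ := hbad.card
    have hneC := (hB.mf.box C hC).1
    have h6 : A / 2 ≤ qq A (A + G) Gr Gb 0 v C := by
      apply le_qq hneC
      rw [cc_big (card_pos.2 hneC)]
      have h7 := tau_ge_ng (Gr := Gr) (Gb := Gb) (v := v) (C := C) hA hG
      have h8 : C.card ≤ 2 * (C.card - (gp Gr Gb v C).card) := by omega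
      have h9 : (C.card : ℝ) + 2 * (gp Gr Gb v C).card ≤ 2 * C.card := by
        have : C.card + 2 * (gp Gr Gb v C).card ≤ 2 * C.card := by omega
        exact_mod_cast this
      push_cast
      nlinarith
    linarith
  push Not at hbad
  by_cases hbe : bp Gb v C0 = ∅
  · have h4 := qq_full_r (k := 0) (Gr := Gr) (Gb := Gb) (A := A) (G := G) hA hG hne0 hf
      (t := 1) (by rw [hbe, card_empty]; simp)
    rw [cc_big (card_pos.2 hne0)] at h4
    push_cast at h4
    linarith
  · exfalso
    have hE : ∀ C ∈ F, C ∉ ({C0} : Finset (Finset W)) →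
        gp Gr Gb v C = C ∨ 1 < (gp Gr Gb v C).card := by
      intro C hC hne
      rw [mem_singleton] at hne
      exact not_bad (hbad C hC hne)
    refine hB.no_joinK hvK hKg (fun z hz => (hgK z hz).2) (E := {C0}) (by simp) ?_ ?_ ?_
    · intro C hC hCE
      rcases hE C hC hCE with h | h
      · rw [h]; exact (hB.mf.box C hC).1
      · exact card_pos.1 (by omega)
    · intro C hC hCE
      rw [mem_singleton] at hCE
      rw [hCE]
      exact nonempty_iff_ne_empty.2 hbe
    · have h2 : (F.filter (fun C => 1 < C.card)).erase C0 ⊆ F.filter (fun C => 1 <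
          (if C ∈ ({C0} : Finset (Finset W)) then bp Gb v C else gp Gr Gb v C).card) := by
        intro C hC
        rw [mem_erase, mem_filter] at hC
        rw [mem_filter]
        refine ⟨hC.2.1, ?_⟩
        have h3 : C ∉ ({C0} : Finset (Finset W)) := by
          rw [mem_singleton]
          exact hC.1
        rw [if_neg h3]
        rcases hE C hC.2.1 h3 with h' | h'
        · rw [h']
          exact hC.2.2
        · exact h'
      have h3 := card_le_card h2
      have h4 : NS 1 F ≤ ((F.filter (fun C => 1 < C.card)).erase C0).card + 1 := by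
        unfold NS
        have := pred_card_le_card_erase (s := F.filter (fun C => 1 < C.card)) (a := C0)
        omega
      have h5 : a ≤ (F.filter (fun C => 1 <
          (if C ∈ ({C0} : Finset (Finset W)) then bp Gb v C else gp Gr Gb v C).card)).card := by
        omega
      rw [min_eq_right h5]
      exact min_le_right _ _

/-- level `k` when `K` is full -/
theorem cert_K2 (hA : 0 ≤ A) (hG : 0 ≤ G) (hB : Best Gr Gb a g F K) (hk : 1 ≤ k) (v : W) :
    ((k : ℝ) + 1) * A ≤
      ∑ C ∈ F, qq A (A + G) Gr Gb k v C + ∑ z ∈ K, Mat A (A + G) Gr Gb z v := by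
  have hKn := sumK_nonneg (Gr := Gr) (Gb := Gb) (v := v) hA hG K
  have hk1 : (1 : ℝ) ≤ k := by exact_mod_cast hk
  obtain ⟨C0, hC0, hf, hin⟩ := hB.full' v
  have hne0 := (hB.mf.box C0 hC0).1
  have hs : (0 : ℝ) < C0.card := by exact_mod_cast card_pos.2 hne0
  have h1 := qq_full (k := k) hA hG hne0 hf
  have hcc := cc_ge k C0
  have hq0 : k * A ≤ qq A (A + G) Gr Gb k v C0 := by nlinarith
  have hg1 := ge1 (k := k) (v := v) (Gr := Gr) (Gb := Gb) hA hG hC0
  by_cases hgK : ∃ z ∈ K, ¬ (Gr.Adj z v ∧ Gb.Adj z v)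
  · obtain ⟨z, hz, h⟩ := hgK
    have h5 : A ≤ ∑ z ∈ K, Mat A (A + G) Gr Gb z v :=
      (mat_nonred hA hG h).trans (sumK_ge hA hG hz)
    linarith
  push Not at hgK
  by_cases hbig : k < C0.card
  · rw [cc_big hbig] at h1
    linarith
  have hc := not_lt.1 hbig
  by_cases hbad : ∃ C ∈ F, C ≠ C0 ∧ Bad Gr Gb C0.card v C
  · obtain ⟨C, hC, hne, hbad⟩ := hbad
    have h2 := qq_bad (k := k) hA hG hk hc hbad
    have h3 := ge2 (k := k) (Gr := Gr) (Gb := Gb) (v := v) hA hG hC0 hC (Ne.symm hne)
    linarith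
  push Not at hbad
  by_cases hnone : ∃ x ∈ C0, ¬ Gr.Adj v x ∧ ¬ Gb.Adj v x
  · obtain ⟨x, hx, hgr, hgb⟩ := hnone
    have h5 := qq_full_none (k := k) (Gr := Gr) (Gb := Gb) (A := A) (G := G) hA hG hne0 hf
      (t := 0) (u := 1 / C0.card) (by
        rw [zero_mul, sub_nonneg]
        exact_mod_cast card_le_card (bp_subset v _)) (by
        rw [one_div, inv_mul_cancel₀ hs.ne']) hx hgr hgb
    rw [cc_not hbig] at h5
    have h4 : (C0.card : ℝ) ≤ k := by exact_mod_cast hc
    have h6 : 1 ≤ (k : ℝ) * (1 / (C0.card : ℝ)) := by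
      rw [mul_one_div, le_div_iff₀ hs]
      linarith
    nlinarith [mul_le_mul_of_nonneg_left h6 hA]
  · exfalso
    push Not at hnone
    have hvC : v ∉ C0 := fun h => Gb.irrefl (hnone v h Gr.irrefl)
    refine hB.no_join hC0 hvC ?_ hgK ?_
    · intro x hx
      have h5 := exists_green hf hx
      have h6 := hnone x hx
      tauto
    · intro C hC hne
      exact not_bad (hbad C hC hne)

/-- level `k` with weight `k` on `K` -/
theorem cert_K1 (hA : 0 ≤ A) (hG : 0 ≤ G) (hGA : 2 * G ≤ A) (hB : Best Gr Gb a g F K)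
    (hk : 2 ≤ k) (hKg : K.card < g) (v : W) :
    (k : ℝ) * (A + G) + A - 2 * G ≤
      ∑ C ∈ F, qq A (A + G) Gr Gb k v C + k * ∑ z ∈ K, Mat A (A + G) Gr Gb z v := by
  have hKn := sumK_nonneg (Gr := Gr) (Gb := Gb) (v := v) hA hG K
  have hk2 : (2 : ℝ) ≤ k := by exact_mod_cast hk
  have hk0 : (0 : ℝ) ≤ k := by linarith
  have hkG : 0 ≤ (k : ℝ) * G := mul_nonneg hk0 hG
  have hkA : 0 ≤ (k : ℝ) * A := mul_nonneg hk0 hA
  have p1 : 0 ≤ ((k : ℝ) - 2) * (A - 2 * G) := mul_nonneg (by linarith) (by linarith)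
  have hkKn : 0 ≤ (k : ℝ) * ∑ z ∈ K, Mat A (A + G) Gr Gb z v := mul_nonneg hk0 hKn
  have hF0 : 0 ≤ ∑ C ∈ F, qq A (A + G) Gr Gb k v C := sum_nonneg (fun _ _ => qq_nonneg hA hG)
  by_cases hin : ∃ C ∈ F, v ∈ C
  · obtain ⟨C, hC, hv⟩ := hin
    have h1 := ge1 (k := k) (v := v) (Gr := Gr) (Gb := Gb) hA hG hC
    have hcc := cc_ge k C
    rcases in_box (k := k) hA hG hB hKg hC hv with ⟨hc, h⟩ | ⟨hc, h⟩ | ⟨hc, h⟩
    · rw [cc_not (by omega)] at h
      nlinarith
    · rw [cc_not (by omega)] at h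
      nlinarith
    · have hs : (0 : ℝ) < C.card := by exact_mod_cast card_pos.2 ⟨v, hv⟩
      have h0 : 0 ≤ (A - G) / (C.card : ℝ) := div_nonneg (by linarith) hs.le
      by_cases hbig : k < C.card
      · rw [cc_big hbig] at h
        have h2 : 0 ≤ ((k : ℝ) + 1) * ((A - G) / (C.card : ℝ)) := mul_nonneg (by linarith) h0
        nlinarith
      · rw [cc_not hbig] at h
        have h4 : (C.card : ℝ) ≤ k := by exact_mod_cast not_lt.1 hbig
        have h5 : A - G ≤ k * ((A - G) / (C.card : ℝ)) := by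
          rw [mul_div_assoc', le_div_iff₀ hs]
          nlinarith
        nlinarith
  push Not at hin
  by_cases hvK : v ∈ K
  · have h2 := sumK_ge (Gr := Gr) (Gb := Gb) (v := v) hA hG hvK
    have h3 : Mat A (A + G) Gr Gb v v = 2 * A + G := by rw [Mat_self]; ring
    rw [h3] at h2
    have h4 := mul_le_mul_of_nonneg_left h2 hk0
    nlinarith
  obtain ⟨C0, hC0, hf⟩ := hB.full hin
  have hne0 := (hB.mf.box C0 hC0).1
  have hd1 : 1 ≤ C0.card := card_pos.2 hne0
  have hs : (0 : ℝ) < C0.card := by exact_mod_cast hd1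
  have h1 := qq_full (k := k) hA hG hne0 hf
  have hcc := cc_ge k C0
  have hq0 : k * A ≤ qq A (A + G) Gr Gb k v C0 := by nlinarith
  have hg1 := ge1 (k := k) (v := v) (Gr := Gr) (Gb := Gb) hA hG hC0
  by_cases hgK : ∃ z ∈ K, ¬ (Gr.Adj z v ∧ Gb.Adj z v)
  · obtain ⟨z, hz, h⟩ := hgK
    have h5 : A ≤ ∑ z ∈ K, Mat A (A + G) Gr Gb z v :=
      (mat_nonred hA hG h).trans (sumK_ge hA hG hz)
    have h6 := mul_le_mul_of_nonneg_left h5 hk0
    nlinarith
  push Not at hgK
  by_cases hsec : ∃ C ∈ F, C ≠ C0 ∧ Bad Gr Gb 1 v C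
  · obtain ⟨C1, hC1, hne1, hbad1⟩ := hsec
    have h3 := ge2 (k := k) (Gr := Gr) (Gb := Gb) (v := v) hA hG hC0 hC1 (Ne.symm hne1)
    have hq1 : (k : ℝ) * A / 2 ≤ qq A (A + G) Gr Gb k v C1 := by
      have := qq_bad' (k := k) hA hG hbad1
      push_cast at this
      norm_num at this
      exact this
    nlinarith
  push Not at hsec
  by_cases hjoin : (bp Gb v C0).Nonempty ∧ (2 ≤ C0.card → 2 ≤ (bp Gb v C0).card)
  · exfalso
    refine hB.no_joinK' hvK hKg (fun z hz => (hgK z hz).2) (E := {C0}) (by simp) ?_ ?_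
    · intro C hC hne
      rw [mem_singleton] at hne
      exact not_bad (hsec C hC hne)
    · intro C hC hCE
      rw [mem_singleton] at hCE
      rw [hCE]
      exact hjoin
  -- few blue vertices
  have hbc : (bp Gb v C0).card ≤ 1 ∧ (C0.card = 1 → (bp Gb v C0).card = 0) := by
    constructor
    · by_contra hcon
      exact hjoin ⟨card_pos.1 (by omega), fun _ => by omega⟩
    · intro hc
      by_contra hcon
      exact hjoin ⟨card_pos.1 (by omega), by omega⟩
  have hbc1 : ((bp Gb v C0).card : ℝ) ≤ 1 := by exact_mod_cast hbc.1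
  have hinv : 0 ≤ 1 / (C0.card : ℝ) := by positivity
  by_cases hc1 : C0.card = 1
  · -- a single vertex
    have hb0 := hbc.2 hc1
    have h4 := qq_full_r (k := k) (Gr := Gr) (Gb := Gb) (A := A) (G := G) hA hG hne0 hf
      (t := 1) (by rw [hb0]; simp)
    rw [cc_not (by omega)] at h4
    by_cases hnone : ∃ x ∈ C0, ¬ Gr.Adj v x ∧ ¬ Gb.Adj v x
    · obtain ⟨x, hx, hgr, hgb⟩ := hnone
      have h5 := qq_full_none (k := k) (Gr := Gr) (Gb := Gb) (A := A) (G := G) hA hG hne0 hf
        (t := 1) (u := 1) (by rw [hb0]; simp) (by rw [hc1]; simp) hx hgr hgb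
      rw [cc_not (by omega)] at h5
      nlinarith
    · exfalso
      push Not at hnone
      refine hB.no_join hC0 (hin C0 hC0) ?_ hgK ?_
      · intro x hx
        have h5 := exists_green hf hx
        have h6 := hnone x hx
        tauto
      · intro C hC hne
        rw [hc1]
        exact not_bad (hsec C hC hne)
  · -- at least two vertices
    have hs2 : 2 ≤ C0.card := by omega
    have h4 := qq_full_r (k := k) (Gr := Gr) (Gb := Gb) (A := A) (G := G) hA hG hne0 hf
      (t := 1 - 1 / C0.card) (by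
        rw [sub_mul, one_mul, one_div, inv_mul_cancel₀ hs.ne']
        linarith)
    by_cases hbig : k < C0.card
    · rw [cc_big hbig] at h4
      have hkd' : (k : ℝ) + 1 ≤ C0.card := by exact_mod_cast hbig
      have h5 : ((k : ℝ) + 1) * (1 / C0.card) ≤ 1 := by
        rw [mul_one_div, div_le_one hs]
        exact hkd'
      nlinarith [mul_le_mul_of_nonneg_left h5 hG]
    have hc := not_lt.1 hbig
    have hc' : (C0.card : ℝ) ≤ k := by exact_mod_cast hc
    rw [cc_not hbig] at h4
    by_cases hnone : ∃ x ∈ C0, ¬ Gr.Adj v x ∧ ¬ Gb.Adj v x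
    · obtain ⟨x, hx, hgr, hgb⟩ := hnone
      have h5 := qq_full_none (k := k) (Gr := Gr) (Gb := Gb) (A := A) (G := G) hA hG hne0 hf
        (t := 1 - 1 / C0.card) (u := 1 / C0.card) (by
          rw [sub_mul, one_mul, one_div, inv_mul_cancel₀ hs.ne']
          linarith) (by rw [one_div, inv_mul_cancel₀ hs.ne']) hx hgr hgb
      rw [cc_not hbig] at h5
      have h6 : 1 ≤ (k : ℝ) * (1 / (C0.card : ℝ)) := by
        rw [mul_one_div, le_div_iff₀ hs]
        linarith
      have h7 : (A - G) * 1 ≤ (A - G) * ((k : ℝ) * (1 / (C0.card : ℝ))) :=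
        mul_le_mul_of_nonneg_left h6 (by linarith)
      nlinarith
    push Not at hnone
    by_cases hbad : ∃ C ∈ F, C ≠ C0 ∧ Bad Gr Gb C0.card v C
    · obtain ⟨C, hC, hne, hbad⟩ := hbad
      have h2 := qq_bad (k := k) hA hG (by omega) hc hbad
      have h2' := qq_bad' (k := k) hA hG hbad
      have h3 := ge2 (k := k) (Gr := Gr) (Gb := Gb) (v := v) hA hG hC0 hC (Ne.symm hne)
      set D : ℝ := (C0.card : ℝ) with hD
      have e1 : (k : ℝ) * (A + G * (1 - 1 / D)) = k * (A + G) - k * G / D := by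
        field_simp
        ring
      rw [e1] at h4
      rcases le_total (k : ℝ) (2 * D) with hle | hle
      · have h6 : (k : ℝ) * G / D ≤ 2 * G := by
          rw [div_le_iff₀ hs]
          nlinarith
        linarith
      · -- `k > 2d`
        have h6 : A + k * G / D ≤ k * A / (D + 1) + 2 * G := by
          have e2 : (k : ℝ) * A / (D + 1) + 2 * G - (A + k * G / D) =
              (A * (k - (D + 1)) * D - G * (k - 2 * D) * (D + 1)) / (D * (D + 1)) := by
            field_simp
            ring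
          have hD2 : (2 : ℝ) ≤ D := by rw [hD]; exact_mod_cast hs2
          have e3 : 0 ≤ (A * (k - (D + 1)) * D - G * (k - 2 * D) * (D + 1)) /
              (D * (D + 1)) := by
            apply div_nonneg _ (by positivity)
            have f1 : 0 ≤ (k : ℝ) - (D + 1) := by linarith
            have f2 : 2 * G * ((k - (D + 1)) * D) ≤ A * ((k - (D + 1)) * D) :=
              mul_le_mul_of_nonneg_right hGA (mul_nonneg f1 hs.le)
            have f3 : G * ((k - 2 * D) * (D + 1)) ≤ G * (2 * ((k - (D + 1)) * D)) := by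
              apply mul_le_mul_of_nonneg_left _ hG
              have f4 : 0 ≤ (k : ℝ) * (D - 1) := mul_nonneg hk0 (by linarith)
              linarith
            linarith
          linarith
        linarith
    · exfalso
      push Not at hbad
      refine hB.no_join hC0 (hin C0 hC0) ?_ hgK ?_
      · intro x hx
        have h5 := exists_green hf hx
        have h6 := hnone x hx
        tauto
      · intro C hC hne
        exact not_bad (hbad C hC hne)

end certs

/-- the structure theorem with mixed boxes -/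
theorem structure_mixed {a g : ℕ} (ha : 1 ≤ a) (hga : 2 * g ≤ a)
    (hG : Cheap (a : ℝ) ((a : ℝ) + g) Gr Gb) :
    ∃ (F : Finset (Finset W)) (K : Finset W), MF Gr Gb g F K ∧
      (∀ z ∈ K, ∀ C ∈ F, ∀ x ∈ C, ¬ Gr.Adj z x → C.card ≤ 2 ∧ (a < NS 1 F → C.card = 1)) ∧
      2 * a + 1 ≤ F.card + min (NS 1 F) a ∧
      2 * a + g + 1 ≤ F.card + min (NS 1 F) a + K.card ∧
      a + g + 1 ≤ F.card + K.card ∧
      ∀ k : ℕ, 2 ≤ k → k * (a + g) + a + 1 ≤ k * (F.card + K.card) + NS k F + 2 * g := by
  obtain ⟨F, K, hB⟩ := exists_best Gr Gb a g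
  have hne : ∀ C ∈ F, C.Nonempty := fun C hC => (hB.mf.box C hC).1
  have hA : (0 : ℝ) ≤ a := by positivity
  have hA1 : (1 : ℝ) ≤ a := by exact_mod_cast ha
  have hGn : (0 : ℝ) ≤ g := by positivity
  have hGA : 2 * (g : ℝ) ≤ a := by exact_mod_cast hga
  refine ⟨F, K, hB.mf, fun z hz C hC x hx h => hB.impure hz hC hx h, ?_⟩
  have hF1 : 2 * a + 1 ≤ F.card + min (NS 1 F) a := by
    rcases Nat.lt_or_ge (NS 1 F) a with h | h
    · have h1 := cheap_family hG F 1 (ω := 0) le_rfl ∅ (c := 2 * a) (by linarith) hne (by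
        intro v
        rw [zero_mul, add_zero]
        exact cert_F1 hA hGn hB h v)
      push_cast at h1
      have h2 : ((2 * a : ℕ) : ℝ) < ((F.card + NS 1 F : ℕ) : ℝ) := by
        push_cast
        linarith
      have h3 : 2 * a < F.card + NS 1 F := by exact_mod_cast h2
      rw [min_eq_left h.le]
      omega
    · have h1 := cheap_family hG F 0 (ω := 0) le_rfl ∅ (c := a) (by linarith) hne (by
        intro v
        rw [zero_mul, add_zero]
        exact cert_F0 hA hGn hB v)
      push_cast at h1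
      rw [zero_mul, zero_add, zero_mul, add_zero, NS_zero hne] at h1
      have h3 : a < F.card := by exact_mod_cast h1
      rw [min_eq_right h]
      omega
  refine ⟨hF1, ?_⟩
  rcases Nat.lt_or_ge K.card g with hK | hK
  · have hL : 2 * a + g + 1 ≤ F.card + min (NS 1 F) a + K.card ∧
        a + g + 1 ≤ F.card + K.card := by
      rcases Nat.lt_or_ge a (NS 1 F) with h | h
      · have h1 := cheap_family hG F 0 (ω := 1) zero_le_one K (c := a + g) (by linarith) hne (by
          intro v
          rw [one_mul]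
          exact cert_L0 hA hGn hGA hB h hK v)
        push_cast at h1
        rw [zero_mul, zero_add, one_mul, NS_zero hne] at h1
        have h3 : a + g < F.card + K.card := by exact_mod_cast h1
        rw [min_eq_right h.le]
        omega
      · have h1 := cheap_family hG F 1 (ω := 1) zero_le_one K (c := 2 * a + g) (by linarith) hne (by
          intro v
          rw [one_mul]
          exact cert_L1 hA hGn (by linarith) hB hK v)
        push_cast at h1
        rw [one_mul, one_mul] at h1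
        have h3 : 2 * a + g < F.card + NS 1 F + K.card := by exact_mod_cast h1
        rw [min_eq_left h]
        omega
    refine ⟨hL.1, hL.2, fun k hk => ?_⟩
    have hk2 : (2 : ℝ) ≤ k := by exact_mod_cast hk
    have h1 := cheap_family hG F k (ω := k) (by positivity) K
      (c := (k : ℝ) * (a + g) + a - 2 * g) (by nlinarith) hne
      (fun v => cert_K1 hA hGn hGA hB hk hK v)
    have h2 : ((k * (a + g) + a : ℕ) : ℝ) < ((k * (F.card + K.card) + NS k F + 2 * g : ℕ) : ℝ) := by
      push_cast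
      linarith
    have h3 : k * (a + g) + a < k * (F.card + K.card) + NS k F + 2 * g := by
      exact_mod_cast h2
    omega
  · have hKg : K.card = g := le_antisymm hB.mf.cardK hK
    have hN : a + 1 ≤ F.card := by
      have := min_le_right (NS 1 F) a
      omega
    refine ⟨by omega, by omega, fun k hk => ?_⟩
    have h1 := cheap_family hG F k (ω := 1) zero_le_one K (c := ((k : ℝ) + 1) * a) (by positivity)
      hne (by
        intro v
        rw [one_mul]
        exact cert_K2 hA hGn hB (by omega) v)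
    rw [hKg, one_mul] at h1
    have h2 : (((k + 1) * a : ℕ) : ℝ) < ((k * F.card + NS k F + g : ℕ) : ℝ) := by
      push_cast
      linarith
    have h3 : (k + 1) * a < k * F.card + NS k F + g := by exact_mod_cast h2
    have h4 : k * (a + g) = k * a + k * g := by ring
    have h5 : k * (F.card + K.card) = k * F.card + k * g := by rw [hKg]; ring
    have h6 : (k + 1) * a = k * a + a := by ring
    rw [h4, h5]
    omega

end JM

end Pool.Agent.Lib.MP_a05470_co
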