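import Pool.Agent.Lib.MP_a05470_co.JTheta
import Pool.Agent.Lib.MP_a05470_co.JAssemble
import Pool.Agent.Lib.MP_a05470_co.JMStruct
import Pool.Agent.Lib.MP_a05470_co.JLevels
import Pool.Agent.Lib.MP_a05470_co.Odd
import Pool.Agent.Lib.MP_a05470_co.CrownMain

/-!
# Theorem J for critical graphs
-/

set_option autoImplicit false
set_option linter.unusedSectionVars false

namespace Pool.Agent.Lib.MP_a05470_co

open Finset Classical

namespace JT

variable {V : Type} [Fintype V] {R : SimpleGraph V}

theorem colorable_of_th_univ {k : ℕ} (h : th R univ ≤ k) : Rᶜ.Colorable k := by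
  obtain ⟨f, hf, hc⟩ := th_spec R univ
  have h1 : Rᶜ.Colorable (Fintype.card (univ.image f)) := by
    apply SimpleGraph.Coloring.colorable
    refine SimpleGraph.Coloring.mk (fun x => (⟨f x, mem_image_of_mem f (mem_univ x)⟩ :
      univ.image f)) ?_
    intro x y hxy h2
    have h3 : f x = f y := congrArg Subtype.val h2
    rw [SimpleGraph.compl_adj] at hxy
    exact hxy.2 (hf x (mem_univ x) y (mem_univ y) hxy.1 h3)
  apply h1.mono
  rw [Fintype.card_coe, hc]
  exact h

theorem th_singleton (x : V) : th R {x} = 1 := by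
  apply le_antisymm
  · apply th_clique
    intro y hy z hz hyz
    rw [mem_singleton] at hy hz
    exact absurd (hy.trans hz.symm) hyz
  · exact th_pos (singleton_nonempty x)

theorem Sep.symm {X Y : Finset V} (h : Sep R X Y) : Sep R Y X :=
  ⟨h.1.symm, fun x hx y hy hadj => h.2 y hy x hx hadj.symm⟩

/-- the clique cover number of a disjoint union -/
theorem th_biUnion {ι : Type} (S : Finset ι) (X : ι → Finset V)
    (hX : ∀ i ∈ S, ∀ j ∈ S, i ≠ j → Sep R (X i) (X j)) :
    th R (S.biUnion X) = ∑ i ∈ S, th R (X i) := by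
  induction S using Finset.induction_on with
  | empty => rw [biUnion_empty, th_empty, sum_empty]
  | insert i S hi ih =>
    rw [biUnion_insert, sum_insert hi, ← ih (fun j hj k hk => hX j (mem_insert_of_mem hj) k
      (mem_insert_of_mem hk))]
    apply th_union_sep
    have hne : ∀ j ∈ S, i ≠ j := fun j hj h => hi (h ▸ hj)
    refine ⟨?_, ?_⟩
    · rw [Finset.disjoint_biUnion_right]
      exact fun j hj => (hX i (mem_insert_self _ _) j (mem_insert_of_mem hj) (hne j hj)).1
    · intro x hx y hy
      rw [mem_biUnion] at hy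
      obtain ⟨j, hj, hy⟩ := hy
      exact (hX i (mem_insert_self _ _) j (mem_insert_of_mem hj) (hne j hj)).2 x hx y hy

/-- connectivity inside a closed set -/
theorem preconn_of_closed {X : Finset V} (hcl : ∀ x ∈ X, ∀ y, R.Adj x y → y ∈ X)
    (hreach : ∀ x ∈ X, ∀ y ∈ X, R.Reachable x y) :
    (R.comap (Subtype.val : {x // x ∈ X} → V)).Preconnected := by
  have key : ∀ (u v : V) (p : R.Walk u v) (hu : u ∈ X), ∃ hv : v ∈ X,
      (R.comap (Subtype.val : {x // x ∈ X} → V)).Reachable ⟨u, hu⟩ ⟨v, hv⟩ := by
    intro u v p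
    induction p with
    | nil => exact fun hu => ⟨hu, SimpleGraph.Reachable.refl _⟩
    | @cons u w v h p ih =>
      intro hu
      have hw := hcl u hu w h
      obtain ⟨hv, h1⟩ := ih hw
      refine ⟨hv, ?_⟩
      have h2 : (R.comap (Subtype.val : {x // x ∈ X} → V)).Adj ⟨u, hu⟩ ⟨w, hw⟩ := h
      exact h2.reachable.trans h1
  rintro ⟨u, hu⟩ ⟨v, hv⟩
  obtain ⟨p⟩ := hreach u hu v hv
  obtain ⟨_, h⟩ := key u v p hu
  exact h

/-- the vertices of a connected component -/
noncomputable def comp (C : R.ConnectedComponent) : Finset V :=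
  univ.filter (fun v => R.connectedComponentMk v = C)

theorem mem_comp {C : R.ConnectedComponent} {v : V} :
    v ∈ comp C ↔ R.connectedComponentMk v = C := by
  unfold comp
  simp

theorem comp_closed {C : R.ConnectedComponent} {x y : V} (hx : x ∈ comp C) (h : R.Adj x y) :
    y ∈ comp C := by
  rw [mem_comp] at hx ⊢
  rw [← hx]
  exact (SimpleGraph.ConnectedComponent.sound h.reachable).symm

theorem comp_sep {C D : R.ConnectedComponent} (h : C ≠ D) : Sep R (comp C) (comp D) := by
  have hd : Disjoint (comp C) (comp D) := by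
    rw [Finset.disjoint_left]
    intro x hx hy
    rw [mem_comp] at hx hy
    exact h (hx.symm.trans hy)
  exact ⟨hd, fun x hx y hy hadj => disjoint_left.1 hd (comp_closed hx hadj) hy⟩

theorem comp_preconn (C : R.ConnectedComponent) :
    (R.comap (Subtype.val : {x // x ∈ comp C} → V)).Preconnected := by
  apply preconn_of_closed
  · intro x hx y hadj
    exact comp_closed hx hadj
  · intro x hx y hy
    rw [mem_comp] at hx hy
    exact SimpleGraph.ConnectedComponent.exact (hx.trans hy.symm)

theorem comp_crit (h : Crit R univ) (C : R.ConnectedComponent) : Crit R (comp C) := by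
  have h1 : (univ : Finset V) = comp C ∪ (univ \ comp C) := by
    rw [union_sdiff_of_subset (subset_univ _)]
  rw [h1] at h
  apply h.part
  refine ⟨disjoint_sdiff, ?_⟩
  intro x hx y hy hadj
  rw [mem_sdiff] at hy
  exact hy.2 (comp_closed hx hadj)

theorem biUnion_comp : (univ : Finset R.ConnectedComponent).biUnion comp = (univ : Finset V) := by
  apply eq_univ_of_forall
  intro v
  rw [mem_biUnion]
  exact ⟨R.connectedComponentMk v, mem_univ _, mem_comp.2 rfl⟩

theorem comp_nonempty (C : R.ConnectedComponent) : (comp C).Nonempty := by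
  induction C using SimpleGraph.ConnectedComponent.ind with
  | _ v => exact ⟨v, mem_comp.2 rfl⟩

/-! ### transferring to a subtype -/

theorem th_comap {P : V → Prop} (X : Finset {v // P v}) :
    th (R.comap (Subtype.val : {v // P v} → V)) X = th R (X.map ⟨Subtype.val,
      Subtype.val_injective⟩) := by
  set e : {v // P v} ↪ V := ⟨Subtype.val, Subtype.val_injective⟩ with he
  apply le_antisymm
  · obtain ⟨f, hf, hc⟩ := th_spec R (X.map e)
    rw [← hc, map_eq_image, image_image]
    apply th_le (f := f ∘ e)
    intro x hx y hy hxy hxy'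
    exact hf x.1 (mem_map_of_mem e hx) y.1 (mem_map_of_mem e hy)
      (fun h => hxy (Subtype.ext h)) hxy'
  · obtain ⟨f, hf, hc⟩ := th_spec (R.comap (Subtype.val : {v // P v} → V)) X
    have h1 : ∃ f' : V → ℕ, ∀ x : {v // P v}, f' x.1 = f x := by
      refine ⟨fun v => if h : P v then f ⟨v, h⟩ else 0, ?_⟩
      rintro ⟨v, hv⟩
      exact dif_pos hv
    obtain ⟨f', hf'⟩ := h1
    have h2 : (X.map e).image f' = X.image f := by
      rw [map_eq_image, image_image]
      apply image_congr
      intro x _
      exact hf' x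
    rw [← hc, ← h2]
    apply th_le
    intro x hx y hy hxy hxy'
    rw [mem_map] at hx hy
    obtain ⟨x', hx', rfl⟩ := hx
    obtain ⟨y', hy', rfl⟩ := hy
    refine hf x' hx' y' hy' (fun h => hxy (by rw [h])) ?_
    rw [← hf' x', ← hf' y']
    exact hxy'

theorem map_univ_ne (x : V) : (univ : Finset {v // v ≠ x}).map ⟨Subtype.val,
    Subtype.val_injective⟩ = univ.erase x := by
  ext v
  simp only [mem_map, mem_univ, true_and, Function.Embedding.coeFn_mk, mem_erase, and_true]
  constructor
  · rintro ⟨y, rfl⟩
    exact y.2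
  · intro h
    exact ⟨⟨v, h⟩, rfl⟩

theorem crit_comap {x : V} (hx : Crit R (univ.erase x)) :
    Crit (R.comap (Subtype.val : {v // v ≠ x} → V)) univ := by
  intro y _
  have h1 : ((univ : Finset {v // v ≠ x}).erase y).map ⟨Subtype.val,
      Subtype.val_injective⟩ = (univ.erase x).erase y.1 := by
    ext v
    simp only [mem_map, mem_univ, Function.Embedding.coeFn_mk, mem_erase, and_true]
    constructor
    · rintro ⟨z, hz, rfl⟩
      exact ⟨fun h => hz (Subtype.ext h), z.2⟩
    · rintro ⟨h1, h2⟩
      exact ⟨⟨v, h2⟩, fun h => h1 (congrArg Subtype.val h), rfl⟩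
  have h2 := hx y.1 (mem_erase.2 ⟨y.2, mem_univ _⟩)
  rw [← h1, ← map_univ_ne x, ← th_comap, ← th_comap] at h2
  refine lt_of_eq_of_lt (congrArg (th _) ?_) h2
  ext z
  simp only [mem_erase]

/-! ### the components of a critical graph without isolated vertices -/

/-- the data of the components -/
theorem comp_data (hcrit : Crit R univ) (hiso : ∀ x, ∃ y, R.Adj x y) :
    ∃ c : R.ConnectedComponent → ℕ, ∀ C, 2 ≤ c C ∧ th R (comp C) = c C + 1 ∧
      2 * c C + 1 ≤ (comp C).card ∧ HasMat R (comp C) (c C) ∧ HasMat Rᶜ (comp C) (c C) := by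
  have key : ∀ C : R.ConnectedComponent, ∃ c, 2 ≤ c ∧ th R (comp C) = c + 1 ∧
      2 * c + 1 ≤ (comp C).card ∧ HasMat R (comp C) c ∧ HasMat Rᶜ (comp C) c := by
    intro C
    apply crit_data (comp_preconn C) (comp_crit hcrit C)
    obtain ⟨x, hx⟩ := comp_nonempty C
    obtain ⟨y, hxy⟩ := hiso x
    exact one_lt_card.2 ⟨x, hx, y, comp_closed hx hxy, hxy.ne⟩
  choose c hc using key
  exact ⟨c, hc⟩

/-- the case without isolated vertices -/
theorem forces_crit_noniso {a g : ℕ} (hV : Fintype.card V = 2 * a + g + 1) (hcrit : Crit R univ)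
    (hth : th R univ = a + g + 1) (hiso : ∀ x, ∃ y, R.Adj x y) :
    Forces (a : ℝ) ((a + g : ℕ) : ℝ) R Rᶜ := by
  obtain ⟨c, hc⟩ := comp_data hcrit hiso
  set Cs : Finset R.ConnectedComponent := univ with hCs
  -- the sums
  have hs1 : ∑ C ∈ Cs, (c C + 1) = a + g + 1 := by
    rw [← hth, ← biUnion_comp, th_biUnion _ _ (fun C _ D _ h => comp_sep h)]
    exact sum_congr rfl (fun C _ => (hc C).2.1.symm)
  have hs2 : ∑ C ∈ Cs, (comp C).card = 2 * a + g + 1 := by
    rw [← hV, ← card_univ (α := V), ← biUnion_comp, card_biUnion (fun C _ D _ h => (comp_sep h).1)]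
  rw [sum_add_distrib, sum_const, smul_eq_mul, mul_one] at hs1
  -- the tight components
  set T := Cs.filter (fun C => (comp C).card = 2 * c C + 1) with hT
  have hs3 : ∑ C ∈ Cs, (2 * c C + 2 - (if (comp C).card = 2 * c C + 1 then 1 else 0)) ≤
      ∑ C ∈ Cs, (comp C).card := by
    apply sum_le_sum
    intro C _
    have := (hc C).2.2.1
    split_ifs with h
    · omega
    · omega
  have hs4 : ∑ C ∈ Cs, (2 * c C + 2 - (if (comp C).card = 2 * c C + 1 then 1 else 0)) + T.card =
      ∑ C ∈ Cs, (2 * c C + 2) := by
    rw [hT, card_filter, ← sum_add_distrib]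
    apply sum_congr rfl
    intro C _
    split_ifs with h
    · omega
    · omega
  rw [sum_add_distrib (g := fun _ => 2), ← mul_sum, sum_const, smul_eq_mul] at hs4
  have hTc : g + 1 ≤ T.card := by omega
  have hs5 : ∑ C ∈ Cs, 2 ≤ ∑ C ∈ Cs, c C := sum_le_sum (fun C _ => (hc C).1)
  rw [sum_const, smul_eq_mul] at hs5
  have hTC : T.card ≤ Cs.card := card_le_card (filter_subset _ _)
  have hga : 2 * g ≤ a := by omega
  have ha : 1 ≤ a := by omega
  -- the pieces
  obtain ⟨S, hST, hSc⟩ := exists_subset_card_eq hTc
  let e : Fin (g + 1) ≃ S := (Finset.equivFinOfCardEq hSc).symm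
  set P : Fin (g + 1) → Finset V := fun j => comp (e j).1 with hP
  set d : Fin (g + 1) → ℕ := fun j => c (e j).1 with hd
  have hne : ∀ i j, i ≠ j → (e i).1 ≠ (e j).1 := fun i j hij h =>
    hij (e.injective (Subtype.ext h))
  have htight : ∀ j, (P j).card = 2 * d j + 1 := by
    intro j
    have := hST (e j).2
    rw [hT, mem_filter] at this
    exact this.2
  have hPdis : ∀ i j, i ≠ j → Disjoint (P i) (P j) := fun i j hij => (comp_sep (hne i j hij)).1
  have hPU : (univ.biUnion P).card = 2 * ∑ j, d j + (g + 1) := by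
    rw [card_biUnion (fun i _ j _ h => hPdis i j h), sum_congr rfl (fun j _ => htight j),
      sum_add_distrib, ← mul_sum, sum_const, card_univ, Fintype.card_fin, smul_eq_mul, mul_one]
  have hPle : (univ.biUnion P).card ≤ Fintype.card V := card_le_univ _
  have hCa : ∑ j, d j ≤ a := by omega
  have hQ : (univ \ univ.biUnion P).card = 2 * (a - ∑ j, d j) := by
    rw [card_sdiff_of_subset (subset_univ _), card_univ, hPU]
    omega
  have hPth : th R (univ.biUnion P) = ∑ j, d j + (g + 1) := by
    rw [th_biUnion _ _ (fun i _ j _ h => comp_sep (hne i j h)),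
      sum_congr rfl (fun j _ => (hc (e j).1).2.1), sum_add_distrib, sum_const, card_univ,
      Fintype.card_fin, smul_eq_mul, mul_one]
  have hsep : ∀ X ⊆ univ.biUnion P, Sep R X (univ \ univ.biUnion P) := by
    intro X hX
    refine ⟨?_, ?_⟩
    · rw [Finset.disjoint_left]
      intro x hx hx'
      rw [mem_sdiff] at hx'
      exact hx'.2 (hX hx)
    · intro x hx y hy hadj
      rw [mem_sdiff] at hy
      apply hy.2
      have h1 := hX hx
      rw [mem_biUnion] at h1 ⊢
      obtain ⟨j, hj, h1⟩ := h1
      exact ⟨j, hj, comp_closed h1 hadj⟩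
  have hQth : th R (univ \ univ.biUnion P) = a - ∑ j, d j := by
    have h1 := th_union_sep (hsep _ (Subset.refl _))
    rw [union_sdiff_of_subset (subset_univ _), hth, hPth] at h1
    omega
  have hxth : ∀ x ∈ P 0, th R (insert x (univ \ univ.biUnion P)) = a - ∑ j, d j + 1 := by
    intro x hx
    have h1 := th_union_sep (hsep {x} (by
      rw [singleton_subset_iff, mem_biUnion]
      exact ⟨0, mem_univ _, hx⟩))
    rw [insert_eq, h1, th_singleton, hQth]
    omega
  have hxQ : ∀ x ∈ P 0, (insert x (univ \ univ.biUnion P)).card = 2 * (a - ∑ j, d j) + 1 := by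
    intro x hx
    rw [card_insert_of_notMem, hQ]
    rw [mem_sdiff]
    push Not
    intro _
    rw [mem_biUnion]
    exact ⟨0, mem_univ _, hx⟩
  -- the multigraph
  intro ε hε
  refine ⟨1, fun n hn Gr Gb hG => ?_⟩
  have hcheap : JF.Cheap (a : ℝ) ((a : ℝ) + g) Gr Gb := by
    apply JF.cheap_of_degree hε (by omega)
    intro v
    have := hG v
    push_cast at this
    exact this
  obtain ⟨F, K, hMF, _, h1, h2, h3, h4⟩ := JM.structure_mixed ha hga hcheap
  exact JP.contains_pieces hMF h2 h3 h4 hPdis (fun j x hx y hy hadj => hy (comp_closed hx hadj))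
    htight (fun j => (hc (e j).1).1) (fun j => (hc (e j).1).2.2.2.1)
    (fun j => (hc (e j).1).2.2.2.2) hCa hQ
    (fun x hx => colorable_of_th' (by
      have h5 := th_compl R (insert x (univ \ univ.biUnion P))
      rw [hxth x hx, hxQ x hx] at h5
      omega))
    (fun x hx => colorable_of_th (hxth x hx).le)

/-- **Theorem J for critical graphs.** -/
theorem forces_crit (m : ℕ) : ∀ (V : Type) [Fintype V] (R : SimpleGraph V) (a b : ℕ),
    Fintype.card V = m → Fintype.card V = a + b + 1 → a ≤ b → Crit R univ → th R univ = b + 1 →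
    Forces (a : ℝ) b R Rᶜ := by
  induction m with
  | zero =>
    intro V _ R a b hm hV
    omega
  | succ m ih =>
    intro V _ R a b hm hV hab hcrit hth
    rcases eq_or_lt_of_le hab with heq | hlt
    · -- the odd case
      subst heq
      rcases Nat.eq_zero_or_pos a with rfl | ha
      · simpa using forces_one (V := V) (by omega) (H := R)
      · apply forces_odd ha (by omega) _ (colorable_of_th_univ hth.le)
        have h1 := th_compl R univ
        rw [card_univ] at h1
        have h2 : Rᶜᶜ.Colorable (a + 1) := colorable_of_th_univ (by omega)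
        rwa [compl_compl] at h2
    · by_cases hiso : ∀ x, ∃ y, R.Adj x y
      · obtain ⟨g, rfl⟩ := Nat.exists_eq_add_of_le hab
        exact forces_crit_noniso (by omega) hcrit hth hiso
      · push Not at hiso
        obtain ⟨x, hx⟩ := hiso
        have hcard : Fintype.card {v // v ≠ x} = m := by
          rw [Fintype.card_subtype_compl, Fintype.card_subtype_eq]
          omega
        have hu : (univ : Finset V) = univ.erase x ∪ {x} := by
          ext v
          simp only [mem_univ, mem_union, mem_erase, mem_singleton, and_true, true_iff]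
          exact (Classical.em (v = x)).symm
        have hsep : Sep R (univ.erase x) {x} := by
          refine ⟨?_, ?_⟩
          · rw [Finset.disjoint_singleton_right]
            simp
          · intro y _ z hz hadj
            rw [mem_singleton] at hz
            exact hx y (hz ▸ hadj.symm)
        have hcr : Crit R (univ.erase x) := by
          rw [hu] at hcrit
          exact hcrit.part hsep
        have hth' : th R (univ.erase x) = b := by
          have h1 := th_union_sep hsep
          rw [← hu, th_singleton, hth] at h1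
          omega
        have hF := ih {v // v ≠ x} (R.comap (Subtype.val : {v // v ≠ x} → V)) a (b - 1) hcard
          (by omega) (by omega) (crit_comap hcr) (by
            rw [th_comap, map_univ_ne, hth']
            omega)
        have hFc : Forces (a : ℝ) ((b : ℝ) - 1) (R.comap (Subtype.val : {v // v ≠ x} → V))
            (Rᶜ.comap (Subtype.val : {v // v ≠ x} → V)) := by
          have e1 : (R.comap (Subtype.val : {v // v ≠ x} → V))ᶜ = Rᶜ.comap Subtype.val := by
            ext u v
            rw [SimpleGraph.compl_adj, SimpleGraph.comap_adj, SimpleGraph.comap_adj,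
              SimpleGraph.compl_adj]
            exact ⟨fun h => ⟨fun h' => h.1 (Subtype.ext h'), h.2⟩,
              fun h => ⟨fun h' => h.1 (congrArg Subtype.val h'), h.2⟩⟩
          rw [← e1]
          have e2 : ((b - 1 : ℕ) : ℝ) = (b : ℝ) - 1 := by
            rw [Nat.cast_sub (by omega)]
            simp
          rw [← e2]
          exact hF
        have h1 := forces_dominate (Hr := R) (Hb := Rᶜ) (a := (a : ℝ)) (b := (b : ℝ) - 1)
          (by positivity) (by
            have : (1 : ℝ) ≤ b := by exact_mod_cast (by omega : 1 ≤ b)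
            linarith) (Subtype.val : {v // v ≠ x} → V) x
          (fun v => by
            by_cases h : v = x
            · exact Or.inl h
            · exact Or.inr ⟨⟨v, h⟩, rfl⟩) (fun i => i.2) Subtype.val_injective
          (fun i => hx i.1) hFc
        have e3 : (b : ℝ) - 1 + 1 = b := by ring
        rw [e3] at h1
        exact h1

end JT

end Pool.Agent.Lib.MP_a05470_co
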