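import Pool.Agent.Lib.MP_a05470_co.JFam

/-!
# Families of mixed boxes with a blue clique

A box is a set of vertices in which every pair has exactly one colour. `F` is a family of boxes,
green between different boxes; `K` is a blue clique with at most `g` vertices, blue to all boxes,
every vertex of `K` being fully green to all but at most two boxes.
-/

set_option autoImplicit false
set_option linter.unusedSectionVars false

namespace Pool.Agent.Lib.MP_a05470_co

open Finset Classical

namespace JM

open JF (Cheap gp bp gp_subset bp_subset gp_subset_bp mem_gp mem_bp exists_lex_max)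

variable {W : Type} [Fintype W] {Gr Gb : SimpleGraph W}

section boxes

variable (Gr Gb)

/-- a mixed box -/
def MB (C : Finset W) : Prop :=
  C.Nonempty ∧ ∀ x ∈ C, ∀ y ∈ C, x ≠ y → (Gr.Adj x y ↔ ¬ Gb.Adj x y)

/-- the number of boxes with more than `k` vertices -/
noncomputable def NS (k : ℕ) (F : Finset (Finset W)) : ℕ := (F.filter (fun C => k < C.card)).card

/-- a family of boxes with a blue clique -/
structure MF (g : ℕ) (F : Finset (Finset W)) (K : Finset W) : Prop where
  box : ∀ C ∈ F, MB Gr Gb C
  green : ∀ C ∈ F, ∀ D ∈ F, C ≠ D → ∀ x ∈ C, ∀ y ∈ D, Gr.Adj x y ∧ Gb.Adj x y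
  blueK : ∀ z ∈ K, ∀ z' ∈ K, z ≠ z' → Gb.Adj z z'
  blueF : ∀ z ∈ K, ∀ C ∈ F, ∀ x ∈ C, Gb.Adj z x
  exc : ∀ z ∈ K, (F.filter (fun C => ∃ x ∈ C, ¬ Gr.Adj z x)).card ≤ 2
  cardK : K.card ≤ g

/-- the number of nonred pairs between `K` and the boxes -/
noncomputable def imp (F : Finset (Finset W)) (K : Finset W) : ℕ :=
  ∑ z ∈ K, ∑ C ∈ F, (C.filter (fun x => ¬ Gr.Adj z x)).card

/-- the components of the potential -/
noncomputable def pot (a M : ℕ) : ℕ → Finset (Finset W) × Finset W → ℕ
  | 0, S => NS 0 S.1
  | 1, S => min (NS 1 S.1) a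
  | 2, S => S.2.card
  | 3, S => M - imp Gr S.1 S.2
  | (j + 4), S => NS (j + 1) S.1

/-- lexicographically maximal families -/
structure Best (a g : ℕ) (F : Finset (Finset W)) (K : Finset W) : Prop where
  mf : MF Gr Gb g F K
  max : ∀ F' K', MF Gr Gb g F' K' → ∀ i, (∀ j < i,
    pot Gr a (Fintype.card W * Fintype.card W) j (F, K) ≤
      pot Gr a (Fintype.card W * Fintype.card W) j (F', K')) →
    pot Gr a (Fintype.card W * Fintype.card W) i (F', K') ≤
      pot Gr a (Fintype.card W * Fintype.card W) i (F, K)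

end boxes

theorem exists_best (Gr Gb : SimpleGraph W) (a g : ℕ) : ∃ F K, Best Gr Gb a g F K := by
  set S : Finset (Finset (Finset W) × Finset W) := univ.filter (fun S => MF Gr Gb g S.1 S.2) with hS
  have hne : S.Nonempty := ⟨(∅, ∅), by
    rw [hS, mem_filter]
    exact ⟨mem_univ _, ⟨by simp, by simp, by simp, by simp, by simp, by simp⟩⟩⟩
  obtain ⟨⟨F, K⟩, hFK, hmax⟩ := exists_lex_max S hne
    (pot Gr a (Fintype.card W * Fintype.card W))
  rw [hS, mem_filter] at hFK
  refine ⟨F, K, hFK.2, fun F' K' h' i hi => ?_⟩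
  exact hmax (F', K') (by rw [hS, mem_filter]; exact ⟨mem_univ _, h'⟩) i hi

theorem mb_single (v : W) : MB Gr Gb ({v} : Finset W) := by
  refine ⟨singleton_nonempty v, ?_⟩
  intro x hx y hy hxy
  rw [mem_singleton] at hx hy
  exact absurd (hx.trans hy.symm) hxy

theorem MB.sub {C S : Finset W} (h : MB Gr Gb C) (hS : S ⊆ C) (hne : S.Nonempty) :
    MB Gr Gb S := ⟨hne, fun x hx y hy => h.2 x (hS hx) y (hS hy)⟩

theorem NS_zero {F : Finset (Finset W)} (h : ∀ C ∈ F, C.Nonempty) : NS 0 F = F.card := by
  unfold NS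
  rw [filter_true_of_mem]
  exact fun C hC => card_pos.2 (h C hC)

theorem MF.disj {g : ℕ} {F : Finset (Finset W)} {K : Finset W} (h : MF Gr Gb g F K) :
    ∀ C ∈ F, ∀ D ∈ F, C ≠ D → Disjoint C D := by
  intro C hC D hD hCD
  rw [Finset.disjoint_left]
  intro x hx hx'
  exact Gr.irrefl (h.green C hC D hD hCD x hx x hx').1

theorem imp_le {g : ℕ} {F : Finset (Finset W)} {K : Finset W} (h : MF Gr Gb g F K) :
    imp Gr F K ≤ Fintype.card W * Fintype.card W := by
  unfold imp
  have h1 : ∀ z ∈ K, ∑ C ∈ F, (C.filter (fun x => ¬ Gr.Adj z x)).card ≤ Fintype.card W := by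
    intro z _
    calc ∑ C ∈ F, (C.filter (fun x => ¬ Gr.Adj z x)).card ≤ ∑ C ∈ F, C.card :=
          sum_le_sum (fun C _ => card_filter_le _ _)
      _ = (F.biUnion id).card := by
          rw [card_biUnion]
          · rfl
          · intro C hC D hD hCD
            exact h.disj C hC D hD hCD
      _ ≤ _ := card_le_univ _
  calc ∑ z ∈ K, ∑ C ∈ F, (C.filter (fun x => ¬ Gr.Adj z x)).card ≤ ∑ z ∈ K, Fintype.card W :=
        sum_le_sum h1
    _ = K.card * Fintype.card W := by rw [sum_const, smul_eq_mul]
    _ ≤ _ := Nat.mul_le_mul_right _ (card_le_univ _)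

/-- the general modification of a family -/
theorem mf_image {g : ℕ} {I : Finset (Finset W)} {κ : Finset W → Finset W} {K' : Finset W}
    (hbox : ∀ C ∈ I, MB Gr Gb (κ C))
    (hgreen : ∀ C ∈ I, ∀ D ∈ I, C ≠ D → ∀ x ∈ κ C, ∀ y ∈ κ D, Gr.Adj x y ∧ Gb.Adj x y)
    (hK : ∀ z ∈ K', ∀ z' ∈ K', z ≠ z' → Gb.Adj z z')
    (hKF : ∀ z ∈ K', ∀ C ∈ I, ∀ x ∈ κ C, Gb.Adj z x)
    (hexc : ∀ z ∈ K', (I.filter (fun C => ∃ x ∈ κ C, ¬ Gr.Adj z x)).card ≤ 2)
    (hcard : K'.card ≤ g) :
    MF Gr Gb g (I.image κ) K' ∧ (∀ k, NS k (I.image κ) =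
      (I.filter (fun C => k < (κ C).card)).card) ∧
      imp Gr (I.image κ) K' = ∑ z ∈ K', ∑ C ∈ I, ((κ C).filter (fun x => ¬ Gr.Adj z x)).card := by
  have hinj : ∀ C ∈ I, ∀ D ∈ I, κ C = κ D → C = D := by
    intro C hC D hD h
    by_contra hcon
    obtain ⟨x, hx⟩ := (hbox C hC).1
    exact Gr.irrefl (hgreen C hC D hD hcon x hx x (by rw [← h]; exact hx)).1
  have hcount : ∀ P : Finset W → Prop, ((I.image κ).filter P).card =
      (I.filter (fun C => P (κ C))).card := by
    intro P
    rw [filter_image, card_image_of_injOn]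
    intro C hC D hD h
    rw [mem_coe, mem_filter] at hC hD
    exact hinj C hC.1 D hD.1 h
  refine ⟨⟨?_, ?_, hK, ?_, ?_, hcard⟩, ?_, ?_⟩
  · intro C hC
    rw [mem_image] at hC
    obtain ⟨C, hC, rfl⟩ := hC
    exact hbox C hC
  · intro C hC D hD hCD
    rw [mem_image] at hC hD
    obtain ⟨C, hC, rfl⟩ := hC
    obtain ⟨D, hD, rfl⟩ := hD
    exact hgreen C hC D hD (fun h => hCD (by rw [h]))
  · intro z hz C hC
    rw [mem_image] at hC
    obtain ⟨C, hC, rfl⟩ := hC
    exact hKF z hz C hC
  · intro z hz
    refine le_trans (le_of_eq ?_) (hexc z hz)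
    convert hcount (fun C => ∃ x ∈ C, ¬ Gr.Adj z x)
  · intro k
    unfold NS
    convert hcount (fun C => k < C.card)
  · unfold imp
    apply sum_congr rfl
    intro z _
    rw [sum_image]
    intro C hC D hD h
    exact hinj C hC D hD h

section moves

variable {a g : ℕ} {F : Finset (Finset W)} {K : Finset W} {v : W}

/-- every vertex outside `F` has a box without green neighbours -/
theorem Best.full (hB : Best Gr Gb a g F K) (hv : ∀ C ∈ F, v ∉ C) :
    ∃ C ∈ F, gp Gr Gb v C = ∅ := by
  by_contra hcon
  push Not at hcon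
  have hvF : ({v} : Finset W) ∉ F := fun h => hv _ h (mem_singleton_self v)
  have hcase : ∀ C ∈ insert {v} F, (C = {v} ∧ v ∈ C) ∨ (C ∈ F ∧ v ∉ C) := by
    intro C hC
    rcases mem_insert.1 hC with rfl | h
    · exact Or.inl ⟨rfl, mem_singleton_self v⟩
    · exact Or.inr ⟨h, hv C h⟩
  obtain ⟨h1, h2, -⟩ := mf_image (Gr := Gr) (Gb := Gb) (g := g) (I := insert {v} F)
    (κ := fun C => if v ∈ C then {v} else gp Gr Gb v C) (K' := ∅)
    (by
      intro C hC
      rcases hcase C hC with ⟨_, h⟩ | ⟨hCF, h⟩
      · simp only [if_pos h]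
        exact mb_single v
      · simp only [if_neg h]
        exact (hB.mf.box C hCF).sub (gp_subset v C) (hcon C hCF))
    (by
      intro C hC D hD hCD x hx y hy
      rcases hcase C hC with ⟨hC1, h⟩ | ⟨hCF, h⟩ <;> rcases hcase D hD with ⟨hD1, h'⟩ | ⟨hDF, h'⟩
      · exact absurd (hC1.trans hD1.symm) hCD
      · simp only [if_pos h, mem_singleton] at hx
        simp only [if_neg h'] at hy
        rw [hx]
        exact (mem_gp.1 hy).2
      · simp only [if_neg h] at hx
        simp only [if_pos h', mem_singleton] at hy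
        rw [hy]
        have := (mem_gp.1 hx).2
        exact ⟨this.1.symm, this.2.symm⟩
      · simp only [if_neg h] at hx
        simp only [if_neg h'] at hy
        exact hB.mf.green C hCF D hDF hCD x (gp_subset v C hx) y (gp_subset v D hy))
    (by simp) (by simp) (by simp) (by simp)
  have h3 := hB.max _ _ h1 0 (by simp)
  simp only [pot] at h3
  rw [h2 0, NS_zero (fun C hC => (hB.mf.box C hC).1), filter_true_of_mem,
    card_insert_of_notMem hvF] at h3
  · omega
  · intro C hC
    rcases hcase C hC with ⟨_, h⟩ | ⟨hCF, h⟩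
    · simp only [if_pos h]
      exact card_pos.2 (singleton_nonempty v)
    · simp only [if_neg h]
      exact card_pos.2 (hcon C hCF)

/-- a vertex joins a box: the new family -/
theorem Best.join_core (hB : Best Gr Gb a g F K) {C0 : Finset W} (hC0 : C0 ∈ F)
    (hvC : v ∉ C0) (hone : ∀ x ∈ C0, (Gr.Adj v x ↔ ¬ Gb.Adj v x)) {K' : Finset W} (hK' : K' ⊆ K)
    (hKv : ∀ z ∈ K', Gr.Adj z v ∧ Gb.Adj z v)
    (hoth : ∀ C ∈ F, C ≠ C0 → gp Gr Gb v C = C ∨ C0.card < (gp Gr Gb v C).card) :
    ∃ F', MF Gr Gb g F' K' ∧ (∀ j ≤ C0.card, NS j F ≤ NS j F') ∧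
      NS C0.card F < NS C0.card F' ∧ imp Gr F' K' ≤ imp Gr F K := by
  have hne : ∀ C ∈ F, C ≠ C0 → (gp Gr Gb v C).Nonempty := by
    intro C hC hCC
    rcases hoth C hC hCC with h | h
    · rw [h]
      exact (hB.mf.box C hC).1
    · exact card_pos.1 (by omega)
  have hDx : ∀ D' ∈ F, D' ≠ C0 → ∀ x ∈ insert v C0, ∀ y ∈ gp Gr Gb v D',
      Gr.Adj x y ∧ Gb.Adj x y := by
    intro D' hD' hne' x hx y hy
    rcases mem_insert.1 hx with rfl | hx
    · exact (mem_gp.1 hy).2
    · exact hB.mf.green C0 hC0 D' hD' (Ne.symm hne') x hx y (gp_subset v D' hy)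
  have hbox : MB Gr Gb (insert v C0) := by
    refine ⟨⟨v, mem_insert_self _ _⟩, ?_⟩
    intro x hx y hy hxy
    rcases mem_insert.1 hx with h1 | h1 <;> rcases mem_insert.1 hy with h2 | h2
    · exact absurd (h1.trans h2.symm) hxy
    · rw [h1]
      exact hone y h2
    · rw [h2, Gr.adj_comm, Gb.adj_comm]
      exact hone x h1
    · exact (hB.mf.box C0 hC0).2 x h1 y h2 hxy
  obtain ⟨h1, h2, h2'⟩ := mf_image (Gr := Gr) (Gb := Gb) (g := g) (I := F)
    (κ := fun C => if C = C0 then insert v C0 else gp Gr Gb v C) (K' := K')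
    (by
      intro C hC
      by_cases h : C = C0
      · simp only [if_pos h]
        exact hbox
      · simp only [if_neg h]
        exact (hB.mf.box C hC).sub (gp_subset v C) (hne C hC h))
    (by
      intro C hC D' hD' hCD x hx y hy
      by_cases h : C = C0 <;> by_cases h' : D' = C0
      · exact absurd (h.trans h'.symm) hCD
      · simp only [if_pos h] at hx
        simp only [if_neg h'] at hy
        exact hDx D' hD' h' x hx y hy
      · simp only [if_neg h] at hx
        simp only [if_pos h'] at hy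
        have := hDx C hC h y hy x hx
        exact ⟨this.1.symm, this.2.symm⟩
      · simp only [if_neg h] at hx
        simp only [if_neg h'] at hy
        exact hB.mf.green C hC D' hD' hCD x (gp_subset v C hx) y (gp_subset v D' hy))
    (fun z hz z' hz' => hB.mf.blueK z (hK' hz) z' (hK' hz'))
    (by
      intro z hz C hC x hx
      by_cases h : C = C0
      · simp only [if_pos h] at hx
        rcases mem_insert.1 hx with rfl | hx
        · exact (hKv z hz).2
        · exact hB.mf.blueF z (hK' hz) C0 hC0 x hx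
      · simp only [if_neg h] at hx
        exact hB.mf.blueF z (hK' hz) C hC x (gp_subset v C hx))
    (by
      intro z hz
      refine le_trans (card_le_card ?_) (hB.mf.exc z (hK' hz))
      intro C hC
      rw [mem_filter] at hC ⊢
      obtain ⟨hCF, x, hx, hzx⟩ := hC
      refine ⟨hCF, ?_⟩
      by_cases h : C = C0
      · simp only [if_pos h] at hx
        rcases mem_insert.1 hx with rfl | hx
        · exact absurd (hKv z hz).1 hzx
        · exact ⟨x, by rw [h]; exact hx, hzx⟩
      · simp only [if_neg h] at hx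
        exact ⟨x, gp_subset v C hx, hzx⟩)
    ((card_le_card hK').trans hB.mf.cardK)
  have hcard : (insert v C0).card = C0.card + 1 := card_insert_of_notMem hvC
  have h3 : ∀ j ≤ C0.card, F.filter (fun C => j < C.card) ⊆
      F.filter (fun C => j < (if C = C0 then insert v C0 else gp Gr Gb v C).card) := by
    intro j hj C hC
    rw [mem_filter] at hC ⊢
    refine ⟨hC.1, ?_⟩
    by_cases h : C = C0
    · rw [if_pos h, hcard]
      omega
    · rw [if_neg h]
      rcases hoth C hC.1 h with h' | h'
      · rw [h']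
        exact hC.2
      · omega
  refine ⟨_, h1, ?_, ?_, ?_⟩
  · intro j hj
    rw [h2 j]
    exact card_le_card (h3 j hj)
  · rw [h2 C0.card]
    apply card_lt_card
    rw [Finset.ssubset_iff_of_subset (h3 C0.card le_rfl)]
    refine ⟨C0, ?_, ?_⟩
    · rw [mem_filter, if_pos rfl, hcard]
      exact ⟨hC0, by omega⟩
    · rw [mem_filter]
      exact fun h => lt_irrefl _ h.2
  · rw [h2']
    unfold imp
    refine le_trans (sum_le_sum (fun z hz => sum_le_sum (fun C hC => ?_)))
      (sum_le_sum_of_subset hK')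
    by_cases h : C = C0
    · simp only [if_pos h]
      rw [h]
      apply card_le_card
      intro x hx
      rw [mem_filter, mem_insert] at hx
      rw [mem_filter]
      rcases hx.1 with rfl | h'
      · exact absurd (hKv z hz).1 hx.2
      · exact ⟨h', hx.2⟩
    · simp only [if_neg h]
      exact card_le_card (filter_subset_filter _ (gp_subset v C))

/-- joining a box, keeping `K` -/
theorem Best.no_join (hB : Best Gr Gb a g F K) {C0 : Finset W} (hC0 : C0 ∈ F)
    (hvC : v ∉ C0) (hone : ∀ x ∈ C0, (Gr.Adj v x ↔ ¬ Gb.Adj v x))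
    (hKv : ∀ z ∈ K, Gr.Adj z v ∧ Gb.Adj z v)
    (hoth : ∀ C ∈ F, C ≠ C0 → gp Gr Gb v C = C ∨ C0.card < (gp Gr Gb v C).card) : False := by
  obtain ⟨F', h1, h2, h3, h3'⟩ := hB.join_core hC0 hvC hone (subset_refl K) hKv hoth
  have hd : 1 ≤ C0.card := card_pos.2 (hB.mf.box C0 hC0).1
  have h4 := hB.max _ _ h1 (C0.card + 3) (by
    intro j hj
    match j, hj with
    | 0, _ => exact h2 0 (by omega)
    | 1, _ => exact min_le_min_right a (h2 1 (by omega))
    | 2, _ => exact le_rfl
    | 3, _ => exact Nat.sub_le_sub_left h3' _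
    | j + 4, hj => exact h2 (j + 1) (by omega))
  obtain ⟨e, he⟩ : ∃ e, C0.card = e + 1 := ⟨C0.card - 1, by omega⟩
  rw [he] at h4 h3
  simp only [pot] at h4
  omega

/-- joining a single vertex when there are few large boxes -/
theorem Best.no_join_one (hB : Best Gr Gb a g F K) {C0 : Finset W} (hC0 : C0 ∈ F)
    (hc : C0.card = 1) (hvC : v ∉ C0) (hone : ∀ x ∈ C0, (Gr.Adj v x ↔ ¬ Gb.Adj v x))
    (ha : NS 1 F < a)
    (hoth : ∀ C ∈ F, C ≠ C0 → gp Gr Gb v C = C ∨ C0.card < (gp Gr Gb v C).card) : False := by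
  obtain ⟨F', h1, h2, h3, _⟩ := hB.join_core hC0 hvC hone (empty_subset K) (by simp) hoth
  have h4 := hB.max _ _ h1 1 (by
    intro j hj
    match j, hj with
    | 0, _ => exact h2 0 (by omega))
  simp only [pot] at h4
  rw [hc] at h3
  omega

/-- `v` joins `K` -/
theorem Best.no_joinK (hB : Best Gr Gb a g F K) (hvK : v ∉ K) (hKg : K.card < g)
    (hKv : ∀ z ∈ K, Gb.Adj z v) {E : Finset (Finset W)} (hE : E.card ≤ 2)
    (hgne : ∀ C ∈ F, C ∉ E → (gp Gr Gb v C).Nonempty)
    (hbne : ∀ C ∈ F, C ∈ E → (bp Gb v C).Nonempty)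
    (hN : min (NS 1 F) a ≤ min (F.filter (fun C => 1 <
      (if C ∈ E then bp Gb v C else gp Gr Gb v C).card)).card a) : False := by
  set κ : Finset W → Finset W := fun C => if C ∈ E then bp Gb v C else gp Gr Gb v C with hκ
  have hκs : ∀ C, κ C ⊆ C := by
    intro C
    by_cases h : C ∈ E
    · simp only [hκ, if_pos h]
      exact bp_subset v C
    · simp only [hκ, if_neg h]
      exact gp_subset v C
  have hκb : ∀ C, ∀ x ∈ κ C, Gb.Adj v x := by
    intro C x hx
    by_cases h : C ∈ E
    · simp only [hκ, if_pos h] at hx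
      exact (mem_bp.1 hx).2
    · simp only [hκ, if_neg h] at hx
      exact (mem_gp.1 hx).2.2
  have hκne : ∀ C ∈ F, (κ C).Nonempty := by
    intro C hC
    by_cases h : C ∈ E
    · simp only [hκ, if_pos h]
      exact hbne C hC h
    · simp only [hκ, if_neg h]
      exact hgne C hC h
  obtain ⟨h1, h2, -⟩ := mf_image (Gr := Gr) (Gb := Gb) (g := g) (I := F) (κ := κ)
    (K' := insert v K)
    (fun C hC => (hB.mf.box C hC).sub (hκs C) (hκne C hC))
    (fun C hC D hD hCD x hx y hy => hB.mf.green C hC D hD hCD x (hκs C hx) y (hκs D hy))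
    (by
      intro z hz z' hz' hne
      rcases mem_insert.1 hz with h | h <;> rcases mem_insert.1 hz' with h' | h'
      · exact absurd (h.trans h'.symm) hne
      · rw [h]
        exact (hKv z' h').symm
      · rw [h']
        exact hKv z h
      · exact hB.mf.blueK z h z' h' hne)
    (by
      intro z hz C hC x hx
      rcases mem_insert.1 hz with h | h
      · rw [h]
        exact hκb C x hx
      · exact hB.mf.blueF z h C hC x (hκs C hx))
    (by
      intro z hz
      rcases mem_insert.1 hz with h | h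
      · rw [h]
        refine le_trans (card_le_card ?_) hE
        intro C hC
        rw [mem_filter] at hC
        obtain ⟨_, x, hx, hvx⟩ := hC
        by_contra hcon
        simp only [hκ, if_neg hcon] at hx
        exact hvx (mem_gp.1 hx).2.1
      · refine le_trans (card_le_card ?_) (hB.mf.exc z h)
        intro C hC
        rw [mem_filter] at hC ⊢
        obtain ⟨hCF, x, hx, hzx⟩ := hC
        exact ⟨hCF, x, hκs C hx, hzx⟩)
    (by
      rw [card_insert_of_notMem hvK]
      omega)
  have h3 := hB.max _ _ h1 2 (by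
    intro j hj
    match j, hj with
    | 0, _ =>
      simp only [pot]
      rw [h2 0, NS_zero (fun C hC => (hB.mf.box C hC).1), filter_true_of_mem]
      exact fun C hC => card_pos.2 (hκne C hC)
    | 1, _ =>
      simp only [pot]
      rw [h2 1]
      exact hN)
  simp only [pot] at h3
  rw [card_insert_of_notMem hvK] at h3
  omega

/-- a vertex of a box with two blue partners in the box moves to `K` -/
theorem Best.no_moveK (hB : Best Gr Gb a g F K) (hKg : K.card < g) {C0 : Finset W} (hC0 : C0 ∈ F)
    (hv : v ∈ C0) (hb : 2 ≤ (bp Gb v C0).card) : False := by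
  have hvK : v ∉ K := fun h => Gb.irrefl (hB.mf.blueF v h C0 hC0 v hv)
  set κ : Finset W → Finset W := fun C => if C = C0 then bp Gb v C0 else C with hκ
  have hκs : ∀ C, κ C ⊆ C := by
    intro C
    by_cases h : C = C0
    · simp only [hκ, if_pos h]
      rw [h]
      exact bp_subset v C0
    · simp only [hκ, if_neg h]
      exact subset_refl C
  have hbne : (bp Gb v C0).Nonempty := card_pos.1 (by omega)
  have hκne : ∀ C ∈ F, (κ C).Nonempty := by
    intro C hC
    by_cases h : C = C0
    · simp only [hκ, if_pos h]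
      exact hbne
    · simp only [hκ, if_neg h]
      exact (hB.mf.box C hC).1
  have hvg : ∀ C ∈ F, C ≠ C0 → ∀ x ∈ C, Gr.Adj v x ∧ Gb.Adj v x :=
    fun C hC hne x hx => hB.mf.green C0 hC0 C hC (Ne.symm hne) v hv x hx
  have hκb : ∀ C ∈ F, ∀ x ∈ κ C, Gb.Adj v x := by
    intro C hC x hx
    by_cases h : C = C0
    · simp only [hκ, if_pos h] at hx
      exact (mem_bp.1 hx).2
    · simp only [hκ, if_neg h] at hx
      exact (hvg C hC h x hx).2
  obtain ⟨h1, h2, -⟩ := mf_image (Gr := Gr) (Gb := Gb) (g := g) (I := F) (κ := κ)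
    (K' := insert v K)
    (fun C hC => (hB.mf.box C hC).sub (hκs C) (hκne C hC))
    (fun C hC D hD hCD x hx y hy => hB.mf.green C hC D hD hCD x (hκs C hx) y (hκs D hy))
    (by
      intro z hz z' hz' hne
      rcases mem_insert.1 hz with h | h <;> rcases mem_insert.1 hz' with h' | h'
      · exact absurd (h.trans h'.symm) hne
      · rw [h]
        exact (hB.mf.blueF z' h' C0 hC0 v hv).symm
      · rw [h']
        exact hB.mf.blueF z h C0 hC0 v hv
      · exact hB.mf.blueK z h z' h' hne)
    (by
      intro z hz C hC x hx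
      rcases mem_insert.1 hz with h | h
      · rw [h]
        exact hκb C hC x hx
      · exact hB.mf.blueF z h C hC x (hκs C hx))
    (by
      intro z hz
      rcases mem_insert.1 hz with h | h
      · rw [h]
        refine le_trans (card_le_card (t := {C0}) ?_) (by simp)
        intro C hC
        rw [mem_filter] at hC
        obtain ⟨hCF, x, hx, hvx⟩ := hC
        rw [mem_singleton]
        by_contra hcon
        exact hvx (hvg C hCF hcon x (hκs C hx)).1
      · refine le_trans (card_le_card ?_) (hB.mf.exc z h)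
        intro C hC
        rw [mem_filter] at hC ⊢
        obtain ⟨hCF, x, hx, hzx⟩ := hC
        exact ⟨hCF, x, hκs C hx, hzx⟩)
    (by
      rw [card_insert_of_notMem hvK]
      omega)
  have h3 := hB.max _ _ h1 2 (by
    intro j hj
    match j, hj with
    | 0, _ =>
      simp only [pot]
      rw [h2 0, NS_zero (fun C hC => (hB.mf.box C hC).1), filter_true_of_mem]
      exact fun C hC => card_pos.2 (hκne C hC)
    | 1, _ =>
      simp only [pot]
      rw [h2 1]
      apply min_le_min_right
      apply card_le_card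
      intro C hC
      rw [mem_filter] at hC ⊢
      refine ⟨hC.1, ?_⟩
      by_cases h : C = C0
      · simp only [hκ, if_pos h]
        exact hb
      · simp only [hκ, if_neg h]
        exact hC.2)
  simp only [pot] at h3
  rw [card_insert_of_notMem hvK] at h3
  omega

/-- impure boxes are small -/
theorem Best.impure (hB : Best Gr Gb a g F K) {z x : W} (hz : z ∈ K) {C0 : Finset W}
    (hC0 : C0 ∈ F) (hx : x ∈ C0) (hzx : ¬ Gr.Adj z x) :
    C0.card ≤ 2 ∧ (a < NS 1 F → C0.card = 1) := by
  -- dropping `x` from `C0`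
  have key : 2 ≤ C0.card → min (NS 1 F) a ≤
      min (F.filter (fun C => 1 < (if C = C0 then C0.erase x else C).card)).card a → False := by
    intro h2c hmin
    set κ : Finset W → Finset W := fun C => if C = C0 then C0.erase x else C with hκ
    have hκs : ∀ C, κ C ⊆ C := by
      intro C
      by_cases h : C = C0
      · simp only [hκ, if_pos h]
        rw [h]
        exact erase_subset x C0
      · simp only [hκ, if_neg h]
        exact subset_refl C
    have hκne : ∀ C ∈ F, (κ C).Nonempty := by
      intro C hC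
      by_cases h : C = C0
      · simp only [hκ, if_pos h]
        apply card_pos.1
        rw [card_erase_of_mem hx]
        omega
      · simp only [hκ, if_neg h]
        exact (hB.mf.box C hC).1
    obtain ⟨h1, h2, h2'⟩ := mf_image (Gr := Gr) (Gb := Gb) (g := g) (I := F) (κ := κ) (K' := K)
      (fun C hC => (hB.mf.box C hC).sub (hκs C) (hκne C hC))
      (fun C hC D hD hCD x hx y hy => hB.mf.green C hC D hD hCD x (hκs C hx) y (hκs D hy))
      hB.mf.blueK
      (fun z hz C hC x hx => hB.mf.blueF z hz C hC x (hκs C hx))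
      (by
        intro z hz
        refine le_trans (card_le_card ?_) (hB.mf.exc z hz)
        intro C hC
        rw [mem_filter] at hC ⊢
        obtain ⟨hCF, x, hx, hzx⟩ := hC
        exact ⟨hCF, x, hκs C hx, hzx⟩)
      hB.mf.cardK
    have hle : ∀ z' ∈ K, ∀ C ∈ F, ((κ C).filter (fun x => ¬ Gr.Adj z' x)).card ≤
        (C.filter (fun x => ¬ Gr.Adj z' x)).card :=
      fun z' _ C _ => card_le_card (filter_subset_filter _ (hκs C))
    have hlt : imp Gr (F.image κ) K < imp Gr F K := by
      rw [h2']
      unfold imp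
      apply sum_lt_sum (fun z' hz' => sum_le_sum (hle z' hz'))
      refine ⟨z, hz, ?_⟩
      apply sum_lt_sum (hle z hz)
      refine ⟨C0, hC0, ?_⟩
      apply card_lt_card
      rw [Finset.ssubset_iff_of_subset (filter_subset_filter _ (hκs C0))]
      refine ⟨x, mem_filter.2 ⟨hx, hzx⟩, ?_⟩
      rw [mem_filter]
      simp [hκ]
    have h3 := hB.max _ _ h1 3 (by
      intro j hj
      match j, hj with
      | 0, _ =>
        simp only [pot]
        rw [h2 0, NS_zero (fun C hC => (hB.mf.box C hC).1), filter_true_of_mem]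
        exact fun C hC => card_pos.2 (hκne C hC)
      | 1, _ =>
        simp only [pot]
        rw [h2 1]
        exact hmin
      | 2, _ => exact le_rfl)
    simp only [pot] at h3
    have h4 := imp_le hB.mf
    omega
  constructor
  · by_contra hcon
    push Not at hcon
    apply key (by omega)
    apply min_le_min_right
    apply card_le_card
    intro C hC
    rw [mem_filter] at hC ⊢
    refine ⟨hC.1, ?_⟩
    by_cases h : C = C0
    · rw [if_pos h, card_erase_of_mem hx]
      omega
    · rw [if_neg h]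
      exact hC.2
  · intro ha
    by_contra hcon
    have h1 : 1 ≤ C0.card := card_pos.2 ⟨x, hx⟩
    apply key (by omega)
    have h2 : (F.filter (fun C => 1 < C.card)).erase C0 ⊆
        F.filter (fun C => 1 < (if C = C0 then C0.erase x else C).card) := by
      intro C hC
      rw [mem_erase, mem_filter] at hC
      rw [mem_filter]
      refine ⟨hC.2.1, ?_⟩
      rw [if_neg hC.1]
      exact hC.2.2
    have h3 := card_le_card h2
    have h4 : NS 1 F ≤ ((F.filter (fun C => 1 < C.card)).erase C0).card + 1 := by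
      unfold NS
      have := pred_card_le_card_erase (s := F.filter (fun C => 1 < C.card)) (a := C0)
      omega
    have h5 : a ≤ (F.filter (fun C => 1 < (if C = C0 then C0.erase x else C).card)).card := by
      omega
    rw [min_eq_right h5]
    exact min_le_right _ _

end moves

end JM

end Pool.Agent.Lib.MP_a05470_co
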