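import Pool.Agent.Lib.MP_a05470_co.JPack
import Pool.Agent.Lib.MP_a05470_co.JMStruct

/-!
# Choosing the slots
-/

set_option autoImplicit false
set_option linter.unusedSectionVars false

namespace Pool.Agent.Lib.MP_a05470_co

open Finset Classical

namespace JP

open JM (NS)

theorem exists_smallest {α : Type} [DecidableEq α] (f : α → ℕ) (m : ℕ) : ∀ (S : Finset α), m ≤ S.card →
    ∃ J ⊆ S, J.card = m ∧ ∀ x ∈ J, ∀ y ∈ S \ J, f x ≤ f y := by
  induction m with
  | zero => exact fun S _ => ⟨∅, empty_subset S, rfl, by simp⟩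
  | succ m ih =>
    intro S hS
    obtain ⟨J, hJ, hJc, hmin⟩ := ih S (by omega)
    have hne : (S \ J).Nonempty := by
      rw [← card_pos, card_sdiff_of_subset hJ]
      omega
    obtain ⟨z, hz, hzmin⟩ := exists_min_image (S \ J) f hne
    rw [mem_sdiff] at hz
    refine ⟨insert z J, ?_, ?_, ?_⟩
    · intro x hx
      rcases mem_insert.1 hx with rfl | hx
      · exact hz.1
      · exact hJ hx
    · rw [card_insert_of_notMem hz.2, hJc]
    · intro x hx y hy
      rw [mem_sdiff, mem_insert] at hy
      push Not at hy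
      have hy' : y ∈ S \ J := mem_sdiff.2 ⟨hy.1, hy.2.2⟩
      rcases mem_insert.1 hx with rfl | hx
      · exact hzmin y hy'
      · exact hmin x hx y hy'

/-- disjoint pairs in a set -/
theorem exists_pairs' {α : Type} [DecidableEq α] (t : ℕ) : ∀ {X : Finset α}, 2 * t ≤ X.card →
    ∃ M : Finset (Finset α), (∀ e ∈ M, ∃ x ∈ X, ∃ y ∈ X, x ≠ y ∧ e = {x, y}) ∧
      (∀ e ∈ M, ∀ f ∈ M, e ≠ f → Disjoint e f) ∧ M.card = t := by
  induction t with
  | zero =>
    intro X _
    exact ⟨∅, by simp, by simp, rfl⟩
  | succ t ih =>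
    intro X hX
    obtain ⟨x, hx, y, hy, hxy⟩ := Finset.one_lt_card.1 (show 1 < X.card by omega)
    have hsub : ({x, y} : Finset α) ⊆ X := by
      intro z hz
      rw [mem_insert, mem_singleton] at hz
      rcases hz with rfl | rfl
      · exact hx
      · exact hy
    obtain ⟨M, h1, h2, h3⟩ := ih (X := X \ {x, y}) (by
      rw [card_sdiff_of_subset hsub, card_pair hxy]
      omega)
    have hd : ∀ f ∈ M, Disjoint ({x, y} : Finset α) f := by
      intro f hf
      obtain ⟨p, hp, q, hq, _, rfl⟩ := h1 f hf
      rw [Finset.disjoint_right]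
      intro z hz
      rw [mem_insert, mem_singleton] at hz
      rcases hz with rfl | rfl
      · exact (mem_sdiff.1 hp).2
      · exact (mem_sdiff.1 hq).2
    refine ⟨insert {x, y} M, ?_, ?_, ?_⟩
    · intro e he
      rcases mem_insert.1 he with rfl | he
      · exact ⟨x, hx, y, hy, hxy, rfl⟩
      · obtain ⟨p, hp, q, hq, hpq, rfl⟩ := h1 e he
        exact ⟨p, (mem_sdiff.1 hp).1, q, (mem_sdiff.1 hq).1, hpq, rfl⟩
    · intro e he f hf hef
      rcases mem_insert.1 he with he' | he'
      · rcases mem_insert.1 hf with hf' | hf'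
        · exact absurd (he'.trans hf'.symm) hef
        · rw [he']
          exact hd f hf'
      · rcases mem_insert.1 hf with hf' | hf'
        · rw [hf']
          exact (hd e he').symm
        · exact h2 e he' f hf' hef
    · rw [card_insert_of_notMem, h3]
      intro h
      have := hd _ h
      rw [Finset.disjoint_left] at this
      exact this (mem_insert_self x {y}) (mem_insert_self x {y})

variable {n : ℕ} {V : Type} {Gr Gb : SimpleGraph (Fin n)} {H : SimpleGraph V}

/-- what is needed about the slots and the remaining boxes -/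
structure Slots (H : SimpleGraph V) (Gr Gb : SimpleGraph (Fin n)) (F : Finset (Finset (Fin n)))
    (C r s : ℕ) (S : Finset (Finset (Finset (Fin n)))) (J F' : Finset (Finset (Fin n))) : Prop where
  card_S : S.card = C
  disj_S : ∀ s ∈ S, ∀ s' ∈ S, s ≠ s' → Disjoint s s'
  type_S : ∀ s ∈ S, BlueSlot H Gr Gb s ∨ RedSlot H Gr Gb s
  sub_S : S.biUnion id ⊆ F
  sub_J : J ⊆ F
  sub_F' : F' ⊆ F
  disj_SJ : Disjoint (S.biUnion id) J
  disj_SF' : Disjoint (S.biUnion id) F'
  disj_JF' : Disjoint J F'
  card_J : J.card = r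
  cond : ∀ k : ℕ, 1 ≤ k → (s : ℤ) * (k + 1) + 1 ≤ k * F'.card + (F'.filter (fun C => k < C.card)).card

theorem biUnion_singletons {α : Type} [DecidableEq α] (J : Finset α) :
    (J.image (fun C => ({C} : Finset α))).biUnion id = J := by
  ext x
  simp only [mem_biUnion, mem_image, id]
  constructor
  · rintro ⟨_, ⟨C, hC, rfl⟩, hx⟩
    rw [mem_singleton] at hx
    rw [hx]
    exact hC
  · intro hx
    exact ⟨{x}, ⟨x, hx, rfl⟩, mem_singleton_self x⟩

theorem exists_slots {F : Finset (Finset (Fin n))} (hbox : ∀ C ∈ F, IsBox Gr Gb C)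
    {a g m C : ℕ} (hCa : C ≤ a) (hC1 : 1 ≤ C) (hCg : 2 * g ≤ C) (hmg : m ≤ g)
    (h1 : 2 * a + g + 1 ≤ F.card + min (NS 1 F) a + m) (h0 : a + g + 1 ≤ F.card + m)
    (hk : ∀ k : ℕ, 2 ≤ k → k * (a + g) + a + 1 ≤ k * (F.card + m) + NS k F + 2 * g) :
    ∃ S J F', Slots H Gr Gb F C (g - m) (a - C) S J F' := by
  have hne : ∀ C ∈ F, C.Nonempty := fun C hC => (hbox C hC).1
  set L := F.filter (fun C => 1 < C.card) with hL
  have hLF : L ⊆ F := filter_subset _ _
  have hLc : L.card = NS 1 F := rfl
  rcases Nat.lt_or_ge L.card C with hlt | hge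
  · -- all large boxes are slots, and pairs of single vertices
    set T := F \ L with hT
    have hTc : T.card = F.card - L.card := card_sdiff_of_subset hLF
    have hLle : L.card ≤ F.card := card_le_card hLF
    rw [← hLc, min_eq_left (by omega)] at h1
    obtain ⟨T1, hT1, hT1c⟩ := exists_subset_card_eq (s := T) (n := 2 * (C - L.card)) (by omega)
    obtain ⟨J, hJ, hJc⟩ := exists_subset_card_eq (s := T \ T1) (n := g - m) (by
      rw [card_sdiff_of_subset hT1, hT1c]
      omega)
    obtain ⟨M, hM1, hM2, hMc⟩ := exists_pairs' (C - L.card) (X := T1) (by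
      rw [hT1c])
    have hMcov : M.biUnion id ⊆ T1 := by
      intro z hz
      rw [mem_biUnion] at hz
      obtain ⟨e, he, hz⟩ := hz
      obtain ⟨x, hx, y, hy, _, rfl⟩ := hM1 e he
      rw [id, mem_insert, mem_singleton] at hz
      rcases hz with rfl | rfl
      · exact hx
      · exact hy
    have hdisLT : Disjoint L T := disjoint_sdiff
    have hdisLM : Disjoint (L.image (fun C => ({C} : Finset (Finset (Fin n))))) M := by
      rw [Finset.disjoint_left]
      intro s hs hs'
      rw [mem_image] at hs
      obtain ⟨D, hD, rfl⟩ := hs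
      have h2 : D ∈ T1 := hMcov (mem_biUnion.2 ⟨_, hs', mem_singleton_self D⟩)
      exact disjoint_left.1 hdisLT hD (hT1 h2)
    have hun : (L.image (fun C => ({C} : Finset (Finset (Fin n)))) ∪ M).biUnion id =
        L ∪ M.biUnion id := by
      rw [union_biUnion, biUnion_singletons]
    have hsubTF : T ⊆ F := sdiff_subset
    have hJT : J ⊆ T := hJ.trans sdiff_subset
    have hF'T : (T \ T1) \ J ⊆ T := sdiff_subset.trans sdiff_subset
    refine ⟨L.image (fun C => {C}) ∪ M, J, (T \ T1) \ J, ?_, ?_, ?_, ?_, ?_, ?_, ?_, ?_, ?_, hJc, ?_⟩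
    · rw [card_union_of_disjoint hdisLM, card_image_of_injective _ singleton_injective, hMc]
      omega
    · intro s hs s' hs' hss
      rw [mem_union] at hs hs'
      rcases hs with hs | hs <;> rcases hs' with hs' | hs'
      · rw [mem_image] at hs hs'
        obtain ⟨D, _, rfl⟩ := hs
        obtain ⟨D', _, rfl⟩ := hs'
        rw [disjoint_singleton]
        exact fun h => hss (by rw [h])
      · rw [mem_image] at hs
        obtain ⟨D, hD, rfl⟩ := hs
        rw [disjoint_singleton_left]
        intro h
        have h2 : D ∈ T1 := hMcov (mem_biUnion.2 ⟨_, hs', h⟩)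
        exact disjoint_left.1 hdisLT hD (hT1 h2)
      · rw [mem_image] at hs'
        obtain ⟨D, hD, rfl⟩ := hs'
        rw [disjoint_singleton_right]
        intro h
        have h2 : D ∈ T1 := hMcov (mem_biUnion.2 ⟨_, hs, h⟩)
        exact disjoint_left.1 hdisLT hD (hT1 h2)
      · exact hM2 s hs s' hs' hss
    · intro s hs
      rw [mem_union] at hs
      rcases hs with hs | hs
      · rw [mem_image] at hs
        obtain ⟨D, hD, rfl⟩ := hs
        rw [hL, mem_filter] at hD
        exact slot_single (hbox D hD.1) hD.2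
      · obtain ⟨x, hx, y, hy, hxy, rfl⟩ := hM1 s hs
        have h2 := (slot_pair (H := H) (Gr := Gr) (Gb := Gb) (hne x (hsubTF (hT1 hx)))
          (hne y (hsubTF (hT1 hy))) hxy).1
        left
        convert h2
    · rw [hun]
      exact union_subset hLF (hMcov.trans (hT1.trans hsubTF))
    · exact hJT.trans hsubTF
    · exact hF'T.trans hsubTF
    · rw [hun, disjoint_union_left]
      refine ⟨disjoint_of_subset_right hJT hdisLT, ?_⟩
      rw [Finset.disjoint_right]
      intro x hx hx'
      exact (mem_sdiff.1 (hJ hx)).2 (hMcov hx')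
    · rw [hun, disjoint_union_left]
      refine ⟨disjoint_of_subset_right hF'T hdisLT, ?_⟩
      rw [Finset.disjoint_right]
      intro x hx hx'
      exact (mem_sdiff.1 (mem_sdiff.1 hx).1).2 (hMcov hx')
    · exact disjoint_sdiff
    · intro k hk1
      have hc : ((T \ T1) \ J).card = F.card - L.card - 2 * (C - L.card) - (g - m) := by
        rw [card_sdiff_of_subset hJ, card_sdiff_of_subset hT1, hTc, hT1c, hJc]
      have hc2 : 2 * (a - C) + 1 ≤ ((T \ T1) \ J).card := by
        rw [hc]
        omega
      have hc3 : ((2 * (a - C) + 1 : ℕ) : ℤ) ≤ (((T \ T1) \ J).card : ℤ) := by exact_mod_cast hc2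
      push_cast at hc3
      have hk' : (1 : ℤ) ≤ k := by exact_mod_cast hk1
      have hs0 : (0 : ℤ) ≤ ((a - C : ℕ) : ℤ) := by positivity
      have hf0 : (0 : ℤ) ≤ ((((T \ T1) \ J).filter (fun C => k < C.card)).card : ℤ) := by positivity
      nlinarith [mul_nonneg (by linarith : (0 : ℤ) ≤ k) (sub_nonneg.2 hc3),
        mul_nonneg (by linarith : (0 : ℤ) ≤ k - 1) hs0]
  · -- the smallest large boxes are slots
    obtain ⟨J1, hJ1, hJ1c, hJ1min⟩ := exists_smallest (fun D : Finset (Fin n) => D.card) C L hge
    have hJ1F : J1 ⊆ F := hJ1.trans hLF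
    have hF1c : (F \ J1).card = F.card - C := by rw [card_sdiff_of_subset hJ1F, hJ1c]
    have hCF : C ≤ F.card := by
      rw [← hJ1c]
      exact card_le_card hJ1F
    obtain ⟨J, hJ, hJc, hJmin⟩ := exists_smallest (fun D : Finset (Fin n) => D.card) (g - m)
      (F \ J1) (by omega)
    set F' := (F \ J1) \ J with hF'
    have hF'c : F'.card = F.card - C - (g - m) := by
      rw [hF', card_sdiff_of_subset hJ, hF1c, hJc]
    have hF'F : F' ⊆ F := sdiff_subset.trans sdiff_subset
    have hmem : ∀ D, D ∈ F' ↔ D ∈ F ∧ D ∉ J1 ∧ D ∉ J := by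
      intro D
      rw [hF', mem_sdiff, mem_sdiff]
      tauto
    -- the first level
    have hsum : 2 * (a - C) + 1 ≤ F'.card + NS 1 F' := by
      by_cases hbig : ∃ D ∈ J, 1 < D.card
      · obtain ⟨D, hD, hD1⟩ := hbig
        have h2 : NS 1 F' = F'.card := by
          unfold JM.NS
          rw [filter_true_of_mem]
          intro E hE
          exact lt_of_lt_of_le hD1 (hJmin D hD E hE)
        rw [h2, hF'c]
        omega
      · push Not at hbig
        have h2 : L.card ≤ NS 1 F' + C := by
          have h3 : L ⊆ F'.filter (fun C => 1 < C.card) ∪ J1 := by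
            intro D hD
            rw [mem_union, mem_filter, hmem]
            rw [hL, mem_filter] at hD
            by_cases h4 : D ∈ J1
            · exact Or.inr h4
            · left
              refine ⟨⟨hD.1, h4, fun h5 => ?_⟩, hD.2⟩
              have := hbig D h5
              omega
          have h5 := (card_le_card h3).trans (card_union_le _ _)
          rw [hJ1c] at h5
          exact h5
        have h3 : min (NS 1 F) a ≤ L.card := by rw [hLc]; exact min_le_left _ _
        rw [hF'c]
        omega
    have hbase : a - C + 1 ≤ F'.card := by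
      rw [hF'c]
      omega
    refine ⟨J1.image (fun C => {C}), J, F', ?_, ?_, ?_, ?_, ?_, hF'F, ?_, ?_, ?_, hJc, ?_⟩
    · rw [card_image_of_injective _ singleton_injective, hJ1c]
    · intro s hs s' hs' hss
      rw [mem_image] at hs hs'
      obtain ⟨D, _, rfl⟩ := hs
      obtain ⟨D', _, rfl⟩ := hs'
      rw [disjoint_singleton]
      exact fun h => hss (by rw [h])
    · intro s hs
      rw [mem_image] at hs
      obtain ⟨D, hD, rfl⟩ := hs
      have := hJ1 hD
      rw [hL, mem_filter] at this
      exact slot_single (hbox D this.1) this.2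
    · rw [biUnion_singletons]
      exact hJ1F
    · exact hJ.trans sdiff_subset
    · rw [biUnion_singletons]
      rw [Finset.disjoint_right]
      intro x hx
      exact (mem_sdiff.1 (hJ hx)).2
    · rw [biUnion_singletons]
      rw [Finset.disjoint_right]
      intro x hx
      exact ((hmem x).1 hx).2.1
    · exact disjoint_sdiff
    · intro k hk1
      have hbase' : (((a - C : ℕ) : ℤ)) + 1 ≤ (F'.card : ℤ) := by exact_mod_cast hbase
      have hk' : (1 : ℤ) ≤ k := by exact_mod_cast hk1
      have hs0 : (0 : ℤ) ≤ ((a - C : ℕ) : ℤ) := by positivity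
      by_cases hrem : (∃ D ∈ J1, k < D.card) ∨ ∃ D ∈ J, k < D.card
      · -- all the remaining large boxes are larger than `k`
        have h2 : F'.filter (fun C => 1 < C.card) ⊆ F'.filter (fun C => k < C.card) := by
          intro E hE
          rw [mem_filter] at hE ⊢
          refine ⟨hE.1, ?_⟩
          have hEm := (hmem E).1 hE.1
          rcases hrem with ⟨D, hD, hDk⟩ | ⟨D, hD, hDk⟩
          · refine lt_of_lt_of_le hDk (hJ1min D hD E ?_)
            rw [mem_sdiff, hL, mem_filter]
            exact ⟨⟨hEm.1, hE.2⟩, hEm.2.1⟩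
          · exact lt_of_lt_of_le hDk (hJmin D hD E hE.1)
        have h3 : ((NS 1 F' : ℕ) : ℤ) ≤ ((F'.filter (fun C => k < C.card)).card : ℤ) := by
          exact_mod_cast card_le_card h2
        have h4 : ((2 * (a - C) + 1 : ℕ) : ℤ) ≤ ((F'.card + NS 1 F' : ℕ) : ℤ) := by
          exact_mod_cast hsum
        push_cast at h4
        nlinarith [mul_nonneg (by linarith : (0 : ℤ) ≤ k - 1) (sub_nonneg.2 hbase')]
      · -- no removed box is larger than `k`
        push Not at hrem
        have hk2 : 2 ≤ k := by
          obtain ⟨D, hD⟩ := card_pos.1 (show 0 < J1.card by omega)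
          have h2 := hJ1 hD
          rw [hL, mem_filter] at h2
          have h3 := hrem.1 D hD
          omega
        have h2 : F.filter (fun C => k < C.card) ⊆ F'.filter (fun C => k < C.card) := by
          intro E hE
          rw [mem_filter] at hE ⊢
          refine ⟨(hmem E).2 ⟨hE.1, fun h => ?_, fun h => ?_⟩, hE.2⟩
          · have := hrem.1 E h
            omega
          · have := hrem.2 E h
            omega
        have h3 : ((NS k F : ℕ) : ℤ) ≤ ((F'.filter (fun C => k < C.card)).card : ℤ) := by
          exact_mod_cast card_le_card h2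
        have h4 := hk k hk2
        have h5 : ((k * (a + g) + a + 1 : ℕ) : ℤ) ≤ ((k * (F.card + m) + NS k F + 2 * g : ℕ) : ℤ) := by
          exact_mod_cast h4
        push_cast at h5
        have h6 : (F'.card : ℤ) = F.card - C - (g - m) := by
          rw [hF'c]
          have e1 : g - m ≤ F.card - C := by omega
          rw [Nat.cast_sub e1, Nat.cast_sub hCF, Nat.cast_sub hmg]
        have h7 : ((a - C : ℕ) : ℤ) = a - C := by rw [Nat.cast_sub hCa]
        have h8 : (2 : ℤ) * g ≤ C := by exact_mod_cast hCg
        rw [h6, h7]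
        nlinarith

end JP

end Pool.Agent.Lib.MP_a05470_co
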