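import Mathlib

/-!
# Stehlík's theorem on vertex-critical graphs

If `G` is connected and critical for the clique cover number (`c + 1` cliques are needed, `c`
cliques suffice after the removal of any vertex), then for every vertex `x` the rest of the graph
has a cover by `c` cliques all of which have at least two vertices.
-/

set_option autoImplicit false

namespace Pool.Agent.Lib.MP_a05470_co

open Finset Classical

namespace Stehlik

variable {V : Type} [Fintype V] {G : SimpleGraph V}

/-- a clique cover given by labels -/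
def Cov (G : SimpleGraph V) (f : V → ℕ) : Prop := ∀ x y, x ≠ y → f x = f y → G.Adj x y

/-- the number of classes -/
noncomputable def nc (f : V → ℕ) : ℕ := (univ.image f).card

/-- the class of `x` is `{x}` -/
def Sing (f : V → ℕ) (x : V) : Prop := ∀ y, f y = f x → y = x

/-- the number of vertices which form a class of their own -/
noncomputable def ns (f : V → ℕ) : ℕ := (univ.filter (fun x => Sing f x)).card

/-- mixing two covers along a set which is closed under both equivalence relations -/
noncomputable def mix (S : Set V) (g f : V → ℕ) (x : V) : ℕ := if x ∈ S then 2 * g x else 2 * f x + 1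

omit [Fintype V] in
theorem mix_in {S : Set V} {g f : V → ℕ} {x : V} (h : x ∈ S) : mix S g f x = 2 * g x := if_pos h

omit [Fintype V] in
theorem mix_out {S : Set V} {g f : V → ℕ} {x : V} (h : x ∉ S) : mix S g f x = 2 * f x + 1 :=
  if_neg h

omit [Fintype V] in
theorem mix_eq {S : Set V} {g f : V → ℕ} {x y : V} (h : mix S g f x = mix S g f y) :
    (x ∈ S ∧ y ∈ S ∧ g x = g y) ∨ (x ∉ S ∧ y ∉ S ∧ f x = f y) := by
  by_cases hx : x ∈ S <;> by_cases hy : y ∈ S
  · rw [mix_in hx, mix_in hy] at h
    exact Or.inl ⟨hx, hy, by omega⟩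
  · rw [mix_in hx, mix_out hy] at h
    omega
  · rw [mix_out hx, mix_in hy] at h
    omega
  · rw [mix_out hx, mix_out hy] at h
    exact Or.inr ⟨hx, hy, by omega⟩

theorem mix_cov {S : Set V} {g f : V → ℕ} (hg : Cov G g) (hf : Cov G f) : Cov G (mix S g f) := by
  intro x y hxy h
  rcases mix_eq h with ⟨_, _, h⟩ | ⟨_, _, h⟩
  · exact hg x y hxy h
  · exact hf x y hxy h

theorem mix_nc (S : Set V) (g f : V → ℕ) :
    nc (mix S g f) = ((univ.filter (fun x => x ∈ S)).image g).card +
      ((univ.filter (fun x => x ∉ S)).image f).card := by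
  unfold nc
  have h1 : univ.image (mix S g f) =
      ((univ.filter (fun x => x ∈ S)).image g).image (fun i => 2 * i) ∪
      ((univ.filter (fun x => x ∉ S)).image f).image (fun i => 2 * i + 1) := by
    ext i
    simp only [mem_image, mem_univ, true_and, mem_union, mem_filter]
    constructor
    · rintro ⟨x, rfl⟩
      by_cases hx : x ∈ S
      · left
        exact ⟨g x, ⟨x, hx, rfl⟩, (mix_in hx).symm⟩
      · right
        exact ⟨f x, ⟨x, hx, rfl⟩, (mix_out hx).symm⟩
    · rintro (⟨_, ⟨x, hx, rfl⟩, rfl⟩ | ⟨_, ⟨x, hx, rfl⟩, rfl⟩)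
      · exact ⟨x, mix_in hx⟩
      · exact ⟨x, mix_out hx⟩
  have i1 : Function.Injective (fun i : ℕ => 2 * i) := by
    intro i j h
    have : 2 * i = 2 * j := h
    omega
  have i2 : Function.Injective (fun i : ℕ => 2 * i + 1) := by
    intro i j h
    have : 2 * i + 1 = 2 * j + 1 := h
    omega
  rw [h1, card_union_of_disjoint, card_image_of_injective _ i1, card_image_of_injective _ i2]
  rw [Finset.disjoint_left]
  intro i hi hi'
  rw [mem_image] at hi hi'
  obtain ⟨j, _, hj⟩ := hi
  obtain ⟨j', _, hj'⟩ := hi'
  omega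

/-- `S` is a union of classes of `f` -/
def Closed (f : V → ℕ) (S : Set V) : Prop := ∀ x y, x ∈ S → f y = f x → y ∈ S

theorem Closed.nc {f : V → ℕ} {S : Set V} (h : Closed f S) :
    nc f = ((univ.filter (fun x => x ∈ S)).image f).card +
      ((univ.filter (fun x => x ∉ S)).image f).card := by
  rw [← mix_nc]
  unfold Stehlik.nc
  apply card_bij (fun i _ => if i ∈ (univ.filter (fun x => x ∈ S)).image f then 2 * i else 2 * i + 1)
  · intro i hi
    simp only [mem_image, mem_univ, true_and] at hi
    obtain ⟨x, rfl⟩ := hi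
    simp only [mem_image, mem_univ, true_and, mem_filter]
    refine ⟨x, ?_⟩
    by_cases hx : x ∈ S
    · rw [mix_in hx, if_pos ⟨x, hx, rfl⟩]
    · rw [mix_out hx, if_neg]
      rintro ⟨y, hy, hxy⟩
      exact hx (h y x hy hxy.symm)
  · intro i _ j _ hij
    split_ifs at hij <;> omega
  · intro i hi
    simp only [mem_image, mem_univ, true_and] at hi
    obtain ⟨x, rfl⟩ := hi
    refine ⟨f x, by simp, ?_⟩
    by_cases hx : x ∈ S
    · rw [mix_in hx, if_pos]
      simp only [mem_image, mem_filter, mem_univ, true_and]
      exact ⟨x, hx, rfl⟩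
    · rw [mix_out hx, if_neg]
      simp only [mem_image, mem_filter, mem_univ, true_and]
      rintro ⟨y, hy, hxy⟩
      exact hx (h y x hy hxy.symm)

/-- two optimal covers can be exchanged on a set closed under both -/
theorem mix_opt {S : Set V} {g f : V → ℕ} {m : ℕ} (hg : Cov G g) (hf : Cov G f)
    (hmin : ∀ f', Cov G f' → m ≤ nc f') (hgm : nc g = m) (hfm : nc f = m)
    (hSg : Closed g S) (hSf : Closed f S) : nc (mix S g f) = m := by
  have h1 := hmin _ (mix_cov (S := S) hg hf)
  have h2 := hmin _ (mix_cov (S := S) hf hg)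
  rw [mix_nc] at h1 h2 ⊢
  have h3 := hSg.nc
  have h4 := hSf.nc
  omega

/-- merging two adjacent single classes -/
theorem merge_lt {f : V → ℕ} (hf : Cov G f) {y v : V} (hy : Sing f y) (hv : Sing f v)
    (hadj : G.Adj y v) : ∃ f', Cov G f' ∧ nc f' < nc f := by
  refine ⟨fun x => if x = v then f y else f x, ?_, ?_⟩
  · intro x z hxz h
    by_cases hx : x = v <;> by_cases hz : z = v
    · exact absurd (hx.trans hz.symm) hxz
    · simp only [if_pos hx, if_neg hz] at h
      have := hy z h.symm
      rw [this, hx]
      exact hadj.symm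
    · simp only [if_neg hx, if_pos hz] at h
      have := hy x h
      rw [this, hz]
      exact hadj
    · simp only [if_neg hx, if_neg hz] at h
      exact hf x z hxz h
  · unfold nc
    apply card_lt_card
    rw [Finset.ssubset_iff_of_subset]
    · refine ⟨f v, by simp, ?_⟩
      simp only [mem_image, mem_univ, true_and]
      rintro ⟨x, hx⟩
      by_cases h : x = v
      · simp only [if_pos h] at hx
        exact G.ne_of_adj hadj (hv y hx)
      · simp only [if_neg h] at hx
        exact h (hv x hx)
    · intro i hi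
      simp only [mem_image, mem_univ, true_and] at hi ⊢
      obtain ⟨x, rfl⟩ := hi
      by_cases h : x = v
      · exact ⟨y, by simp [h]⟩
      · exact ⟨x, by simp [h]⟩

/-- alternating chains from `w` to `v` with `n` double steps -/
def Chain (f g : V → ℕ) (v : V) : ℕ → V → Prop
  | 0, w => w = v
  | n + 1, w => ∃ t u, g t = g w ∧ t ≠ w ∧ f u = f t ∧ u ≠ t ∧ Chain f g v n u

/-- the family of optimal covers with `x` single and the smallest number of single vertices -/
structure Fam (G : SimpleGraph V) (c : ℕ) (x : V) (σ : ℕ) (f : V → ℕ) : Prop where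
  cov : Cov G f
  nc_eq : nc f = c + 1
  sing : Sing f x
  ns_eq : ns f = σ

/-- every single vertex of an optimal cover is connected by a chain with an adjacent vertex that
is single in another optimal cover -/
theorem exists_chain {c : ℕ} {f g : V → ℕ} {y v : V} (hmin : ∀ f', Cov G f' → c + 1 ≤ nc f')
    (hf : Cov G f) (hfc : nc f = c + 1) (hg : Cov G g) (hgc : nc g = c + 1) (hgv : Sing g v)
    (hfy : Sing f y) (hadj : G.Adj y v) : ∃ n, Chain f g v n y := by
  set A : Set V := {w | ∃ n, Chain f g v n w} with hA
  set O : Set V := {t | ∃ u, u ∈ A ∧ f u = f t ∧ u ≠ t} with hO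
  have hvA : v ∈ A := ⟨0, rfl⟩
  have hstep : ∀ t w, t ∈ O → g t = g w → t ≠ w → w ∈ A := by
    rintro t w ⟨u, ⟨n, hu⟩, h1, h2⟩ h3 h4
    exact ⟨n + 1, t, u, h3, h4, h1, h2, hu⟩
  have hA' : ∀ w ∈ A, w = v ∨ ∃ t ∈ O, g t = g w ∧ t ≠ w := by
    rintro w ⟨n, hn⟩
    cases n with
    | zero => exact Or.inl hn
    | succ n =>
      obtain ⟨t, u, h1, h2, h3, h4, h5⟩ := hn
      exact Or.inr ⟨t, ⟨u, ⟨n, h5⟩, h3, h4⟩, h1, h2⟩
  have hclf : Closed f (A ∪ O) := by
    rintro x z (hx | ⟨u, hu, h1, h2⟩) hz
    · by_cases h : x = z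
      · rw [← h]; exact Or.inl hx
      · exact Or.inr ⟨x, hx, hz.symm, h⟩
    · by_cases h : u = z
      · rw [← h]; exact Or.inl hu
      · exact Or.inr ⟨u, hu, by rw [h1, hz], h⟩
  have hclg : Closed g (A ∪ O) := by
    rintro x z (hx | hx) hz
    · rcases hA' x hx with rfl | ⟨t, ht, h1, h2⟩
      · rw [hgv z hz]; exact Or.inl hx
      · by_cases h : t = z
        · rw [← h]; exact Or.inr ht
        · exact Or.inl (hstep t z ht (by rw [h1, hz]) h)
    · by_cases h : x = z
      · rw [← h]; exact Or.inr hx
      · exact Or.inl (hstep x z hx hz.symm h)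
  by_cases hy : y ∈ A ∪ O
  · rcases hy with hy | ⟨u, _, h1, h2⟩
    · exact hy
    · exact absurd (hfy u h1) h2
  · exfalso
    have hm := mix_opt hg hf hmin hgc hfc hclg hclf
    have h1 : Sing (mix (A ∪ O) g f) v := by
      intro z hz
      rcases mix_eq hz with ⟨_, _, h⟩ | ⟨_, h, _⟩
      · exact hgv z h
      · exact absurd (Or.inl hvA) h
    have h2 : Sing (mix (A ∪ O) g f) y := by
      intro z hz
      rcases mix_eq hz with ⟨_, h, _⟩ | ⟨_, _, h⟩
      · exact absurd h hy
      · exact hfy z h
    obtain ⟨f', hf', hlt⟩ := merge_lt (mix_cov hg hf) h2 h1 hadj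
    have := hmin f' hf'
    omega

/-- moving `t` to the class of the single vertex `y` -/
theorem move_fam {c σ : ℕ} {x : V} {f : V → ℕ} (hf : Fam G c x σ f)
    (hmin : ∀ f', Cov G f' → nc f' = c + 1 → Sing f' x → σ ≤ ns f')
    {y t u : V} (hy : Sing f y) (hyx : y ≠ x) (hyt : G.Adj y t) (hut : f u = f t) (hne : u ≠ t) :
    Fam G c x σ (fun z => if z = t then f y else f z) ∧
      Sing (fun z => if z = t then f y else f z) u ∧ (∀ z, f z = f t → z = t ∨ z = u) ∧ u ≠ x := by
  have hty : t ≠ y := (G.ne_of_adj hyt).symm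
  have hftx : f t ≠ f x := by
    intro h
    have h1 := hf.sing t h
    have h2 := hf.sing u (hut.trans h)
    exact hne (h2.trans h1.symm)
  have htx : t ≠ x := fun h => hftx (by rw [h])
  have hux : u ≠ x := fun h => hftx (by rw [← hut, h])
  have huy : u ≠ y := by
    intro h
    exact hty (hy t (by rw [← h, hut]))
  set f1 : V → ℕ := fun z => if z = t then f y else f z with hf1
  have f1t : f1 t = f y := by simp [hf1]
  have f1n : ∀ z, z ≠ t → f1 z = f z := fun z hz => by simp [hf1, hz]
  have hcov : Cov G f1 := by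
    intro z w hzw h
    by_cases hz : z = t <;> by_cases hw : w = t
    · exact absurd (hz.trans hw.symm) hzw
    · rw [hz, f1t, f1n w hw] at h
      rw [hy w h.symm, hz]
      exact hyt.symm
    · rw [hw, f1t, f1n z hz] at h
      rw [hy z h, hw]
      exact hyt
    · rw [f1n z hz, f1n w hw] at h
      exact hf.cov z w hzw h
  have hnc : nc f1 = c + 1 := by
    rw [← hf.nc_eq]
    unfold nc
    congr 1
    ext i
    simp only [mem_image, mem_univ, true_and]
    constructor
    · rintro ⟨z, rfl⟩
      by_cases hz : z = t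
      · exact ⟨y, by rw [hz, f1t]⟩
      · exact ⟨z, (f1n z hz).symm⟩
    · rintro ⟨z, rfl⟩
      by_cases hz : z = t
      · exact ⟨u, by rw [f1n u hne, hut, hz]⟩
      · exact ⟨z, f1n z hz⟩
  have hsing : Sing f1 x := by
    intro z hz
    rw [f1n x (Ne.symm htx)] at hz
    by_cases h : z = t
    · rw [h, f1t] at hz
      exact absurd (hf.sing y hz) hyx
    · rw [f1n z h] at hz
      exact hf.sing z hz
  have hσ := hmin f1 hcov hnc hsing
  -- single vertices of `f1` are single vertices of `f` other than `y`, or `u`
  have hsub : ∀ z, Sing f1 z → z ≠ u → Sing f z ∧ z ≠ y := by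
    intro z hz hzu
    have hzt : z ≠ t := by
      intro h
      have := hz y (by rw [h, f1t, f1n y (Ne.symm hty)])
      exact hty (h ▸ this.symm)
    have hzy : z ≠ y := by
      intro h
      have := hz t (by rw [h, f1t, f1n y (Ne.symm hty)])
      exact hzt this.symm
    refine ⟨?_, hzy⟩
    intro w hw
    by_cases hwt : w = t
    · have := hz u (by rw [f1n u hne, f1n z hzt, hut, ← hwt, hw])
      exact absurd this.symm hzu
    · exact hz w (by rw [f1n w hwt, f1n z hzt, hw])
  have hex : ∀ z, f z = f t → z = t ∨ z = u := by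
    intro z hz
    by_contra hcon
    push Not at hcon
    -- then `u` is not single in `f1`
    have hu : ¬ Sing f1 u := by
      intro h
      exact hcon.2 (h z (by rw [f1n z hcon.1, f1n u hne, hut, hz]))
    have h1 : univ.filter (fun x => Sing f1 x) ⊆ (univ.filter (fun x => Sing f x)).erase y := by
      intro w hw
      rw [mem_filter] at hw
      rw [mem_erase, mem_filter]
      have hwu : w ≠ u := fun h => hu (h ▸ hw.2)
      have := hsub w hw.2 hwu
      exact ⟨this.2, mem_univ _, this.1⟩
    have h2 : y ∈ univ.filter (fun x => Sing f x) := by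
      rw [mem_filter]
      exact ⟨mem_univ _, hy⟩
    have h3 := card_le_card h1
    have h4 := card_erase_lt_of_mem h2
    have h5 := hf.ns_eq
    unfold ns at hσ h5
    omega
  have hu : Sing f1 u := by
    intro z hz
    by_cases hzt : z = t
    · exfalso
      rw [hzt, f1t, f1n u hne] at hz
      exact huy (hy u hz.symm)
    · rw [f1n z hzt, f1n u hne, hut] at hz
      exact (hex z hz).resolve_left hzt
  refine ⟨⟨hcov, hnc, hsing, le_antisymm ?_ hσ⟩, hu, hex, hux⟩
  have h1 : univ.filter (fun x => Sing f1 x) ⊆
      insert u ((univ.filter (fun x => Sing f x)).erase y) := by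
    intro w hw
    rw [mem_filter] at hw
    rw [mem_insert, mem_erase, mem_filter]
    by_cases hwu : w = u
    · exact Or.inl hwu
    · have := hsub w hw.2 hwu
      exact Or.inr ⟨this.2, mem_univ _, this.1⟩
  have h2 : y ∈ univ.filter (fun x => Sing f x) := by
    rw [mem_filter]
    exact ⟨mem_univ _, hy⟩
  have h3 := card_le_card h1
  have h4 := card_insert_le u ((univ.filter (fun x => Sing f x)).erase y)
  have h5 := card_erase_add_one h2
  have h6 := hf.ns_eq
  unfold ns at h6 ⊢
  omega

/-- the main step: along a chain the property of being single is transported -/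
theorem chain_sing {c σ : ℕ} {x v : V} {g : V → ℕ} (hg : Cov G g) (hgv : Sing g v)
    (hmin : ∀ f', Cov G f' → nc f' = c + 1 → Sing f' x → σ ≤ ns f') (n : ℕ) :
    ∀ (f : V → ℕ) (y : V), Fam G c x σ f → Sing f y → y ≠ x → Chain f g v n y →
      ∃ f', Fam G c x σ f' ∧ Sing f' v := by
  induction n using Nat.strong_induction_on with
  | _ n ih =>
    intro f y hf hy hyx hch
    cases n with
    | zero => exact ⟨f, hf, by rw [← (show y = v from hch)]; exact hy⟩
    | succ n =>
      obtain ⟨t, u, h1, h2, h3, h4, h5⟩ := hch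
      have hyt : G.Adj y t := hg y t (Ne.symm h2) h1.symm
      obtain ⟨hF, hu, hex, hux⟩ := move_fam hf hmin hy hyx hyt h3 h4
      set f1 : V → ℕ := fun z => if z = t then f y else f z with hf1
      have f1n : ∀ z, z ≠ t → f1 z = f z := fun z hz => by simp [hf1, hz]
      have key : ∀ m w, Chain f g v m w → Chain f1 g v m w ∨ ∃ m' ≤ m, Chain f g v m' y := by
        intro m
        induction m with
        | zero => exact fun w hw => Or.inl hw
        | succ m ihm =>
          rintro w ⟨t', u', k1, k2, k3, k4, k5⟩
          by_cases ht : t' = t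
          · -- the same first step from `y`
            right
            refine ⟨m + 1, le_rfl, t, u', h1, h2, ?_, ?_, k5⟩
            · rw [k3, ht]
            · rw [← ht]; exact k4
          · by_cases hu' : u' = t
            · -- the chain continues from `t`
              cases m with
              | zero =>
                exfalso
                have h6 : t = v := by rw [← hu']; exact k5
                have h7 := hgv y (by rw [← h1, h6])
                exact h2 (by rw [h6, h7])
              | succ m =>
                rw [hu'] at k5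
                obtain ⟨t'', u'', l1, l2, l3, l4, l5⟩ := k5
                by_cases hty : t'' = y
                · exfalso
                  rw [hty] at l3 l4
                  exact l4 (hy u'' l3)
                · right
                  exact ⟨m + 1, by omega, t'', u'', by rw [l1, h1], hty, l3, l4, l5⟩
            · rcases ihm u' k5 with h | ⟨m', hm', h⟩
              · left
                exact ⟨t', u', k1, k2, by rw [f1n u' hu', f1n t' ht, k3], k4, h⟩
              · exact Or.inr ⟨m', by omega, h⟩
      rcases key n u h5 with h | ⟨m', hm', h⟩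
      · exact ih n (by omega) f1 u hF hu hux h
      · exact ih m' (by omega) f y hf hy hyx h

end Stehlik

open Stehlik in
/-- Stehlík's theorem: in a connected graph which is critical for the clique cover number, for every
vertex `x` the rest is covered by `c` cliques (the classes of the labelling `f` restricted to
`univ \ {x}`), all of them with at least two vertices. -/
theorem stehlik {V : Type} [Fintype V] {G : SimpleGraph V} (hconn : G.Preconnected) {c : ℕ}
    (hmin : ∀ f : V → ℕ, Cov G f → c + 1 ≤ nc f)
    (hcrit : ∀ x : V, ∃ f : V → ℕ, Cov G f ∧ nc f = c + 1 ∧ Sing f x) (x : V) :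
    ∃ f : V → ℕ, Cov G f ∧ nc f = c + 1 ∧ Sing f x ∧ ∀ y, y ≠ x → ¬ Sing f y := by
  have hex : ∃ σ f, Fam G c x σ f := by
    obtain ⟨f, h1, h2, h3⟩ := hcrit x
    exact ⟨ns f, f, h1, h2, h3, rfl⟩
  set σ := Nat.find hex with hσ
  obtain ⟨f, hf⟩ := Nat.find_spec hex
  have hmin' : ∀ f', Cov G f' → nc f' = c + 1 → Sing f' x → σ ≤ ns f' := by
    intro f' h1 h2 h3
    exact Nat.find_min' hex ⟨f', h1, h2, h3, rfl⟩
  refine ⟨f, hf.cov, hf.nc_eq, hf.sing, ?_⟩
  intro y hyx hy
  -- all vertices reachable from `y` other than `x` are single in some member of the family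
  have key : ∀ {y v : V}, (∃ f', Fam G c x σ f' ∧ Sing f' y) → y ≠ x → G.Adj y v →
      v ≠ x ∧ ∃ f', Fam G c x σ f' ∧ Sing f' v := by
    rintro y v ⟨f1, hf1, hy1⟩ hyx hyv
    constructor
    · rintro rfl
      obtain ⟨f2, hf2, hlt⟩ := merge_lt hf1.cov hy1 hf1.sing hyv
      have := hmin f2 hf2
      have h2 := hf1.nc_eq
      omega
    · obtain ⟨g, hg, hgc, hgv⟩ := hcrit v
      obtain ⟨n, hn⟩ := exists_chain hmin hf1.cov hf1.nc_eq hg hgc hgv hy1 hyv
      exact chain_sing hg hgv hmin' n f1 y hf1 hy1 hyx hn
  obtain ⟨p⟩ := hconn y x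
  have walk : ∀ {y z : V} (p : G.Walk y z), z = x → y ≠ x → (∃ f', Fam G c x σ f' ∧ Sing f' y) →
      False := by
    intro y z p
    induction p with
    | nil => intro h1 h2 _; exact h2 h1
    | cons h p ih =>
      intro h1 h2 h3
      obtain ⟨h4, h5⟩ := key h3 h2 h
      exact ih h1 h4 h5
  exact walk p rfl hyx ⟨f, hf, hy⟩

end Pool.Agent.Lib.MP_a05470_co
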