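import Pool.Agent.Lib.MP_a05470_co.JCert

/-!
# The structure theorem
-/

set_option autoImplicit false
set_option linter.unusedSectionVars false

namespace Pool.Agent.Lib.MP_a05470_co

open Finset Classical

namespace JF

variable {W : Type} [Fintype W] {Gr Gb : SimpleGraph W}

section certs

variable {A G : ℝ} {v : W} {k a g : ℕ} {F : Finset (Finset W)} {K : Finset W}

theorem ge1 (hA : 0 ≤ A) (hG : 0 ≤ G) {C : Finset W} (hC : C ∈ F) :
    qq A (A + G) Gr Gb k v C ≤ ∑ C ∈ F, qq A (A + G) Gr Gb k v C :=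
  single_le_sum (f := fun C => qq A (A + G) Gr Gb k v C) (fun _ _ => qq_nonneg hA hG) hC

theorem ge2 (hA : 0 ≤ A) (hG : 0 ≤ G) {C D : Finset W} (hC : C ∈ F) (hD : D ∈ F) (hCD : C ≠ D) :
    qq A (A + G) Gr Gb k v C + qq A (A + G) Gr Gb k v D ≤ ∑ C ∈ F, qq A (A + G) Gr Gb k v C := by
  rw [← sum_pair (f := fun C => qq A (A + G) Gr Gb k v C) hCD]
  apply sum_le_sum_of_subset_of_nonneg
  · intro x hx
    rw [mem_insert, mem_singleton] at hx
    rcases hx with rfl | rfl
    · exact hC
    · exact hD
  · exact fun _ _ _ => qq_nonneg hA hG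

theorem ge3 (hA : 0 ≤ A) (hG : 0 ≤ G) {C D E : Finset W} (hC : C ∈ F) (hD : D ∈ F) (hE : E ∈ F)
    (hCD : C ≠ D) (hCE : C ≠ E) (hDE : D ≠ E) :
    qq A (A + G) Gr Gb k v C + qq A (A + G) Gr Gb k v D + qq A (A + G) Gr Gb k v E ≤
      ∑ C ∈ F, qq A (A + G) Gr Gb k v C := by
  have h1 : qq A (A + G) Gr Gb k v C + qq A (A + G) Gr Gb k v D + qq A (A + G) Gr Gb k v E =
      ∑ C ∈ {C, D, E}, qq A (A + G) Gr Gb k v C := by
    rw [sum_insert, sum_pair hDE]
    · ring
    · rw [mem_insert, mem_singleton]
      push Not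
      exact ⟨hCD, hCE⟩
  rw [h1]
  apply sum_le_sum_of_subset_of_nonneg
  · intro x hx
    rw [mem_insert, mem_insert, mem_singleton] at hx
    rcases hx with rfl | rfl | rfl
    · exact hC
    · exact hD
    · exact hE
  · exact fun _ _ _ => qq_nonneg hA hG

theorem sumK_nonneg (hA : 0 ≤ A) (hG : 0 ≤ G) (K : Finset W) :
    0 ≤ ∑ z ∈ K, Mat A (A + G) Gr Gb z v := sum_nonneg (fun x _ => mat_nonneg hA hG x v)

theorem sumK_ge (hA : 0 ≤ A) (hG : 0 ≤ G) {z : W} (hz : z ∈ K) :
    Mat A (A + G) Gr Gb z v ≤ ∑ z ∈ K, Mat A (A + G) Gr Gb z v :=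
  single_le_sum (f := fun z => Mat A (A + G) Gr Gb z v) (fun x _ => mat_nonneg hA hG x v) hz

theorem full_bad {d : ℕ} {C : Finset W} (hC : C.Nonempty) (h : gp Gr Gb v C = ∅) :
    Bad Gr Gb d v C := by
  unfold Bad
  rw [h, card_empty]
  push Not
  exact ⟨fun h => hC.ne_empty h.symm, by omega⟩

theorem not_bad {d : ℕ} {C : Finset W} (h : ¬ Bad Gr Gb d v C) :
    gp Gr Gb v C = C ∨ d < (gp Gr Gb v C).card := by
  unfold Bad at h
  push Not at h
  exact h

/-- the box formed by `v` and a vertex that sees `v` in blue only -/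
theorem box_blue {x : W} (h1 : Gb.Adj v x) (h2 : ¬ Gr.Adj v x) : BB Gr Gb ({v, x} : Finset W) :=
  ⟨v, x, Gb.ne_of_adj h1, rfl, h1, h2⟩

/-- the box formed by `v` and a red box -/
theorem box_red {C : Finset W} (hC : RB Gr Gb C) (h : ∀ x ∈ C, Gr.Adj v x ∧ ¬ Gb.Adj v x) :
    RB Gr Gb (insert v C) := by
  refine ⟨⟨v, mem_insert_self _ _⟩, ?_⟩
  intro x hx y hy hxy
  rcases mem_insert.1 hx with h1 | h1 <;> rcases mem_insert.1 hy with h2 | h2
  · exact absurd (h1.trans h2.symm) hxy
  · rw [h1]
    exact h y h2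
  · rw [h2]
    have := h x h1
    exact ⟨this.1.symm, fun hh => this.2 hh.symm⟩
  · exact hC.2 x h1 y h2 hxy

theorem exists_green {C : Finset W} (h : gp Gr Gb v C = ∅) {x : W} (hx : x ∈ C) :
    ¬ (Gr.Adj v x ∧ Gb.Adj v x) := by
  intro h'
  have : x ∈ gp Gr Gb v C := mem_gp.2 ⟨hx, h'⟩
  rw [h] at this
  exact absurd this (notMem_empty x)

/-- a box that is not big at level `d = |C|` is red -/
theorem red_of_not_big {d : ℕ} {C : Finset W} (hC : Box Gr Gb C) (h : ¬ big Gr Gb d C) :
    RB Gr Gb C ∧ C.card ≤ d := by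
  unfold big at h
  push Not at h
  rcases hC with hC | hC
  · exact ⟨hC, h.1⟩
  · exact absurd hC h.2

/-- level 0 on `F` -/
theorem cert_F0 (hA : 0 ≤ A) (hG : 0 ≤ G) (hB : Best Gr Gb a g F K) (v : W) :
    A ≤ ∑ C ∈ F, qq A (A + G) Gr Gb 0 v C := by
  by_cases hin : ∃ C ∈ F, v ∈ C
  · obtain ⟨C, hC, hv⟩ := hin
    refine le_trans ?_ (ge1 hA hG hC)
    rcases hB.kf.box C hC with h | h
    · have := qq_RB_zero hA hG h hv
      linarith
    · have := qq_BB (k := 0) hA hG h hv
      push_cast at this
      linarith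
  · push Not at hin
    obtain ⟨C0, hC0, hf⟩ := hB.full hin
    refine le_trans ?_ (ge1 hA hG hC0)
    have h1 := qq_full (k := 0) hA hG (hB.kf.box C0 hC0).nonempty hf
    rw [cc_big (big_zero (hB.kf.box C0 hC0).nonempty)] at h1
    push_cast at h1
    linarith

/-- level 1 on `F` -/
theorem cert_F1 (hA : 0 ≤ A) (hG : 0 ≤ G) (hB : Best Gr Gb a g F K) (ha : NS Gr Gb 1 F < a)
    (v : W) : 2 * A ≤ ∑ C ∈ F, qq A (A + G) Gr Gb 1 v C := by
  by_cases hin : ∃ C ∈ F, v ∈ C
  · obtain ⟨C, hC, hv⟩ := hin
    refine le_trans ?_ (ge1 hA hG hC)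
    rcases hB.kf.box C hC with h | h
    · have := qq_RB (k := 1) hA hG h hv le_rfl
      push_cast at this
      linarith
    · have := qq_BB (k := 1) hA hG h hv
      push_cast at this
      linarith
  · push Not at hin
    obtain ⟨C0, hC0, hf⟩ := hB.full hin
    have hne0 := (hB.kf.box C0 hC0).nonempty
    have h1 := qq_full (k := 1) hA hG hne0 hf
    by_cases hb : big Gr Gb 1 C0
    · refine le_trans ?_ (ge1 hA hG hC0)
      rw [cc_big hb] at h1
      push_cast at h1
      linarith
    · rw [cc_not hb] at h1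
      push_cast at h1
      obtain ⟨hR, hc⟩ := red_of_not_big (hB.kf.box C0 hC0) hb
      by_cases hbad : ∃ C ∈ F, C ≠ C0 ∧ Bad Gr Gb 1 v C
      · obtain ⟨C, hC, hne, hbad⟩ := hbad
        have h2 := qq_bad (k := 1) hA hG le_rfl le_rfl hbad
        have h3 := ge2 (k := 1) (Gr := Gr) (Gb := Gb) (v := v) hA hG hC0 hC (Ne.symm hne)
        linarith
      · push Not at hbad
        have hoth : ∀ C ∈ F, C ≠ C0 → gp Gr Gb v C = C ∨ 1 < (gp Gr Gb v C).card :=
          fun C hC hne => not_bad (hbad C hC hne)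
        obtain ⟨x, rfl⟩ := card_eq_one.1 (le_antisymm hc (card_pos.2 hne0))
        have hx : x ∈ ({x} : Finset W) := mem_singleton_self x
        have hvx : v ≠ x := fun h => hin _ hC0 (by rw [h]; exact hx)
        by_cases hgb : Gb.Adj v x
        · have hgr : ¬ Gr.Adj v x := fun h => exists_green hf hx ⟨h, hgb⟩
          exact (hB.no_join_one (D := {v, x}) hC0 (Or.inr (box_blue hgb hgr)) (by
            intro y hy
            rw [mem_insert] at hy
            exact hy) ha hoth (Or.inr (box_blue hgb hgr)) hb).elim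
        · by_cases hgr : Gr.Adj v x
          · have hD : RB Gr Gb (insert v {x}) := box_red (rb_single x) (by
              intro y hy
              rw [mem_singleton] at hy
              rw [hy]
              exact ⟨hgr, hgb⟩)
            exact (hB.no_join_one (D := insert v {x}) hC0 (Or.inl hD) (by
              intro y hy
              rw [mem_insert] at hy
              exact hy) ha hoth (Or.inl (by rw [card_pair hvx]; norm_num)) hb).elim
          · refine le_trans ?_ (ge1 hA hG hC0)
            have h4 := qq_full_none (k := 1) (Gr := Gr) (Gb := Gb) (A := A) (G := G) hA hG hne0 hf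
              (t := 0) (u := 1) (by
                rw [zero_mul, sub_nonneg]
                exact_mod_cast card_le_card (bp_subset v _)) (by simp) hx hgr hgb
            rw [cc_not hb] at h4
            push_cast at h4
            linarith

/-- the blue cut of the exceptional boxes and the green cut of the others keep large boxes -/
theorem keep_large {E : Finset (Finset W)}
    (hoth : ∀ C ∈ F, C ∉ E → gp Gr Gb v C = C ∨ 1 < (gp Gr Gb v C).card)
    (hE : ∀ C ∈ F, C ∈ E → 2 ≤ C.card → 2 ≤ (bp Gb v C).card) :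
    min (NS Gr Gb 1 F) a ≤ min (F.filter (fun C => big Gr Gb 1
      (if C ∈ E then bp Gb v C else gp Gr Gb v C))).card a := by
  apply min_le_min_right
  apply card_le_card
  intro C hC
  rw [mem_filter] at hC ⊢
  refine ⟨hC.1, ?_⟩
  by_cases h : C ∈ E
  · rw [if_pos h]
    exact big_one.2 (hE C hC.1 h (big_one.1 hC.2))
  · rw [if_neg h]
    rcases hoth C hC.1 h with h' | h'
    · rw [h']
      exact hC.2
    · exact Or.inl h'

/-- level 1 -/
theorem cert_L1 (hA : 0 ≤ A) (hG : 0 ≤ G) (hGA : G ≤ A) (hB : Best Gr Gb a g F K)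
    (hKg : K.card < g) (v : W) :
    2 * A + G ≤ ∑ C ∈ F, qq A (A + G) Gr Gb 1 v C + ∑ z ∈ K, Mat A (A + G) Gr Gb z v := by
  have hK0 := sumK_nonneg (Gr := Gr) (Gb := Gb) (v := v) hA hG K
  have hF0 : 0 ≤ ∑ C ∈ F, qq A (A + G) Gr Gb 1 v C := sum_nonneg (fun _ _ => qq_nonneg hA hG)
  by_cases hin : ∃ C ∈ F, v ∈ C
  · obtain ⟨C, hC, hv⟩ := hin
    have h1 := ge1 (k := 1) (v := v) (Gr := Gr) (Gb := Gb) hA hG hC
    rcases hB.kf.box C hC with h | h
    · have := qq_RB (k := 1) hA hG h hv le_rfl
      push_cast at this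
      linarith
    · have := qq_BB (k := 1) hA hG h hv
      push_cast at this
      linarith
  push Not at hin
  obtain ⟨C0, hC0, hf⟩ := hB.full hin
  have hne0 := (hB.kf.box C0 hC0).nonempty
  have h1 := qq_full (k := 1) hA hG hne0 hf
  have hcc1 := cc_ge (Gr := Gr) (Gb := Gb) 1 C0
  have hq0 : A ≤ qq A (A + G) Gr Gb 1 v C0 := by
    push_cast at hcc1
    nlinarith
  by_cases hvK : v ∈ K
  · have h2 := sumK_ge (Gr := Gr) (Gb := Gb) (v := v) hA hG hvK
    have h3 : Mat A (A + G) Gr Gb v v = 2 * A + G := by rw [Mat_self]; ring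
    linarith
  -- a hit in `K`
  have hitK : ∀ z ∈ K, ¬ (Gr.Adj z v ∧ Gb.Adj z v) → A ≤ ∑ z ∈ K, Mat A (A + G) Gr Gb z v :=
    fun z hz h => (mat_nonred hA hG h).trans (sumK_ge hA hG hz)
  have hitKb : ∀ z ∈ K, ¬ Gb.Adj z v → A + G ≤ ∑ z ∈ K, Mat A (A + G) Gr Gb z v :=
    fun z hz h => (mat_nonblue hA h).trans (sumK_ge hA hG hz)
  by_cases hnb : ∃ z ∈ K, ¬ Gb.Adj z v
  · obtain ⟨z, hz, h⟩ := hnb
    have h2 := hitKb z hz h
    have h3 := ge1 (k := 1) (v := v) (Gr := Gr) (Gb := Gb) hA hG hC0
    linarith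
  push Not at hnb
  by_cases hbig : big Gr Gb 1 C0
  · -- a large full box
    rw [cc_big hbig] at h1
    push_cast at h1
    have hq0' : 2 * A ≤ qq A (A + G) Gr Gb 1 v C0 := by linarith
    by_cases hbad : ∃ C ∈ F, C ≠ C0 ∧ Bad Gr Gb 1 v C
    · obtain ⟨C, hC, hne, hbad⟩ := hbad
      have h2 := qq_bad (k := 1) hA hG le_rfl le_rfl hbad
      have h3 := ge2 (k := 1) (Gr := Gr) (Gb := Gb) (v := v) hA hG hC0 hC (Ne.symm hne)
      linarith
    push Not at hbad
    have hoth : ∀ C ∈ F, C ≠ C0 → gp Gr Gb v C = C ∨ 1 < (gp Gr Gb v C).card :=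
      fun C hC hne => not_bad (hbad C hC hne)
    by_cases hr : C0.card ≤ 2 * (C0.card - (bp Gb v C0).card)
    · have h3 := ge1 (k := 1) (v := v) (Gr := Gr) (Gb := Gb) hA hG hC0
      have h4 := qq_full_r (k := 1) (Gr := Gr) (Gb := Gb) (A := A) (G := G) hA hG hne0 hf
        (t := 1 / 2) (by
          have h5 : (bp Gb v C0).card ≤ C0.card := card_le_card (bp_subset v C0)
          have h6 : C0.card + 2 * (bp Gb v C0).card ≤ 2 * C0.card := by omega
          have h7 : (C0.card : ℝ) + 2 * (bp Gb v C0).card ≤ 2 * C0.card := by exact_mod_cast h6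
          linarith)
      rw [cc_big hbig] at h4
      push_cast at h4
      linarith
    · exfalso
      have hb2 : 2 ≤ (bp Gb v C0).card := by
        have := big_one.1 hbig
        omega
      have hE : ∀ C ∈ F, C ∉ ({C0} : Finset (Finset W)) →
          gp Gr Gb v C = C ∨ 1 < (gp Gr Gb v C).card := by
        intro C hC hne
        rw [mem_singleton] at hne
        exact hoth C hC hne
      refine hB.no_joinK hvK hKg hnb (E := {C0}) (by simp) ?_ ?_ (keep_large hE ?_)
      · intro C hC hCE
        rcases hE C hC hCE with h | h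
        · rw [h]; exact (hB.kf.box C hC).nonempty
        · exact card_pos.1 (by omega)
      · intro C hC hCE
        rw [mem_singleton] at hCE
        rw [hCE]
        exact card_pos.1 (by omega)
      · intro C hC hCE _
        rw [mem_singleton] at hCE
        rw [hCE]
        exact hb2
  · -- a single full vertex
    obtain ⟨hR, hc⟩ := red_of_not_big (hB.kf.box C0 hC0) hbig
    obtain ⟨x, rfl⟩ := card_eq_one.1 (le_antisymm hc (card_pos.2 hne0))
    have hx : x ∈ ({x} : Finset W) := mem_singleton_self x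
    have hvx : v ≠ x := fun h => hin _ hC0 (by rw [h]; exact hx)
    by_cases hgb : Gb.Adj v x
    · -- blue only
      have hbx : bp Gb v {x} = {x} := by
        ext y
        rw [mem_bp, mem_singleton]
        constructor
        · exact fun h => h.1
        · rintro rfl
          exact ⟨rfl, hgb⟩
      by_cases hsec : ∃ C ∈ F, C ≠ {x} ∧ Bad Gr Gb 1 v C
      · obtain ⟨C1, hC1, hne1, hbad1⟩ := hsec
        have hq1 := qq_bad (k := 1) hA hG le_rfl le_rfl hbad1
        have h3 := ge2 (k := 1) (Gr := Gr) (Gb := Gb) (v := v) hA hG hC0 hC1 (Ne.symm hne1)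
        by_cases hgK : ∃ z ∈ K, ¬ (Gr.Adj z v ∧ Gb.Adj z v)
        · obtain ⟨z, hz, h⟩ := hgK
          have := hitK z hz h
          linarith
        push Not at hgK
        by_cases hthird : ∃ C ∈ F, C ≠ {x} ∧ C ≠ C1 ∧ Bad Gr Gb 1 v C
        · obtain ⟨C2, hC2, hne2, hne3, hbad2⟩ := hthird
          have hq2 := qq_bad (k := 1) hA hG le_rfl le_rfl hbad2
          have h4 := ge3 (k := 1) (Gr := Gr) (Gb := Gb) (v := v) hA hG hC0 hC1 hC2 (Ne.symm hne1)
            (Ne.symm hne2) (Ne.symm hne3)
          linarith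
        push Not at hthird
        -- `C1` is full or has exactly one green vertex
        by_cases hb1 : (bp Gb v C1).Nonempty ∧ (2 ≤ C1.card → 2 ≤ (bp Gb v C1).card)
        · exfalso
          have hE : ∀ C ∈ F, C ∉ ({{x}, C1} : Finset (Finset W)) →
              gp Gr Gb v C = C ∨ 1 < (gp Gr Gb v C).card := by
            intro C hC hne
            rw [mem_insert, mem_singleton] at hne
            push Not at hne
            exact not_bad (hthird C hC hne.1 hne.2)
          refine hB.no_joinK hvK hKg hnb (E := {{x}, C1}) ?_ ?_ ?_ (keep_large hE ?_)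
          · rw [card_pair (Ne.symm hne1)]
          · intro C hC hCE
            rcases hE C hC hCE with h | h
            · rw [h]; exact (hB.kf.box C hC).nonempty
            · exact card_pos.1 (by omega)
          · intro C hC hCE
            rw [mem_insert, mem_singleton] at hCE
            rcases hCE with rfl | rfl
            · rw [hbx]
              exact singleton_nonempty x
            · exact hb1.1
          · intro C hC hCE h2
            rw [mem_insert, mem_singleton] at hCE
            rcases hCE with rfl | rfl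
            · simp at h2
            · exact hb1.2 h2
        · -- few blue vertices in `C1`
          have hneC1 := (hB.kf.box C1 hC1).nonempty
          rcases Nat.lt_or_ge C1.card 2 with h2 | h2
          · -- `C1` is a single nonblue vertex
            have hbe : bp Gb v C1 = ∅ := by
              by_contra hcon
              exact hb1 ⟨nonempty_iff_ne_empty.2 hcon, by omega⟩
            have hge : gp Gr Gb v C1 = ∅ := by
              have := gp_subset_bp (Gr := Gr) (Gb := Gb) v C1
              rw [hbe] at this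
              exact subset_empty.1 this
            have h4 := qq_full_r (k := 1) (Gr := Gr) (Gb := Gb) (A := A) (G := G) hA hG hneC1 hge
              (t := 1) (by rw [hbe, card_empty]; simp)
            have h5 := cc_ge (Gr := Gr) (Gb := Gb) 1 C1
            push_cast at h5
            nlinarith
          · have hb2 : (bp Gb v C1).card ≤ 1 := by
              by_contra hcon
              exact hb1 ⟨card_pos.1 (by omega), fun _ => by omega⟩
            have h4 := (qq_fewblue (k := 1) (Gr := Gr) (Gb := Gb) (v := v) hA hG h2 hb2).2 rfl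
            linarith
      · -- `v` joins `K`
        exfalso
        push Not at hsec
        have hE : ∀ C ∈ F, C ∉ ({{x}} : Finset (Finset W)) →
            gp Gr Gb v C = C ∨ 1 < (gp Gr Gb v C).card := by
          intro C hC hne
          rw [mem_singleton] at hne
          exact not_bad (hsec C hC hne)
        refine hB.no_joinK hvK hKg hnb (E := {{x}}) (by simp) ?_ ?_ (keep_large hE ?_)
        · intro C hC hCE
          rcases hE C hC hCE with h | h
          · rw [h]; exact (hB.kf.box C hC).nonempty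
          · exact card_pos.1 (by omega)
        · intro C hC hCE
          rw [mem_singleton] at hCE
          rw [hCE, hbx]
          exact singleton_nonempty x
        · intro C hC hCE h2
          rw [mem_singleton] at hCE
          rw [hCE] at h2
          simp at h2
    · -- not blue
      have hbe : bp Gb v {x} = ∅ := by
        rw [← not_nonempty_iff_eq_empty]
        rintro ⟨y, hy⟩
        rw [mem_bp, mem_singleton] at hy
        rw [hy.1] at hy
        exact hgb hy.2
      have h4 := qq_full_r (k := 1) (Gr := Gr) (Gb := Gb) (A := A) (G := G) hA hG hne0 hf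
        (t := 1) (by rw [hbe, card_empty]; simp)
      rw [cc_not hbig] at h4
      push_cast at h4
      by_cases hgK : ∃ z ∈ K, ¬ (Gr.Adj z v ∧ Gb.Adj z v)
      · obtain ⟨z, hz, h⟩ := hgK
        have h5 := hitK z hz h
        have h6 := ge1 (k := 1) (v := v) (Gr := Gr) (Gb := Gb) hA hG hC0
        linarith
      push Not at hgK
      by_cases hbad : ∃ C ∈ F, C ≠ {x} ∧ Bad Gr Gb 1 v C
      · obtain ⟨C, hC, hne, hbad⟩ := hbad
        have h2 := qq_bad (k := 1) hA hG le_rfl le_rfl hbad
        have h3 := ge2 (k := 1) (Gr := Gr) (Gb := Gb) (v := v) hA hG hC0 hC (Ne.symm hne)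
        linarith
      push Not at hbad
      have hoth : ∀ C ∈ F, C ≠ {x} → gp Gr Gb v C = C ∨ 1 < (gp Gr Gb v C).card :=
        fun C hC hne => not_bad (hbad C hC hne)
      by_cases hgr : Gr.Adj v x
      · have hD : RB Gr Gb (insert v {x}) := box_red (rb_single x) (by
          intro y hy
          rw [mem_singleton] at hy
          rw [hy]
          exact ⟨hgr, hgb⟩)
        exact (hB.no_join (D := insert v {x}) hC0 (Or.inl hD) (by
          intro y hy
          rw [mem_insert] at hy
          exact hy) (subset_refl K) hgK le_rfl le_rfl hoth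
          (Or.inl (by rw [card_pair hvx]; norm_num)) hbig).elim
      · have h5 := qq_full_none (k := 1) (Gr := Gr) (Gb := Gb) (A := A) (G := G) hA hG hne0 hf
          (t := 1) (u := 1) (by rw [hbe, card_empty]; simp) (by simp) hx hgr hgb
        rw [cc_not hbig] at h5
        push_cast at h5
        have h6 := ge1 (k := 1) (v := v) (Gr := Gr) (Gb := Gb) hA hG hC0
        linarith

/-- level 0 -/
theorem cert_L0 (hA : 0 ≤ A) (hG : 0 ≤ G) (hGA : 2 * G ≤ A) (hB : Best Gr Gb a g F K)
    (hN : a + 1 ≤ NS Gr Gb 1 F) (hKg : K.card < g) (v : W) :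
    A + G ≤ ∑ C ∈ F, qq A (A + G) Gr Gb 0 v C + ∑ z ∈ K, Mat A (A + G) Gr Gb z v := by
  have hK0 := sumK_nonneg (Gr := Gr) (Gb := Gb) (v := v) hA hG K
  have hF0 : 0 ≤ ∑ C ∈ F, qq A (A + G) Gr Gb 0 v C := sum_nonneg (fun _ _ => qq_nonneg hA hG)
  by_cases hin : ∃ C ∈ F, v ∈ C
  · obtain ⟨C, hC, hv⟩ := hin
    have h1 := ge1 (k := 0) (v := v) (Gr := Gr) (Gb := Gb) hA hG hC
    rcases hB.kf.box C hC with h | h
    · have := qq_RB_zero hA hG h hv
      linarith
    · have := qq_BB (k := 0) hA hG h hv
      push_cast at this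
      linarith
  push Not at hin
  by_cases hvK : v ∈ K
  · have h2 := sumK_ge (Gr := Gr) (Gb := Gb) (v := v) hA hG hvK
    have h3 : Mat A (A + G) Gr Gb v v = 2 * A + G := by rw [Mat_self]; ring
    linarith
  obtain ⟨C0, hC0, hf⟩ := hB.full hin
  have hne0 := (hB.kf.box C0 hC0).nonempty
  have h1 := qq_full (k := 0) hA hG hne0 hf
  rw [cc_big (big_zero hne0)] at h1
  push_cast at h1
  have hq0 : A ≤ qq A (A + G) Gr Gb 0 v C0 := by linarith
  have hg1 := ge1 (k := 0) (v := v) (Gr := Gr) (Gb := Gb) hA hG hC0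
  by_cases hgK : ∃ z ∈ K, ¬ (Gr.Adj z v ∧ Gb.Adj z v)
  · obtain ⟨z, hz, h⟩ := hgK
    have h5 : A ≤ ∑ z ∈ K, Mat A (A + G) Gr Gb z v :=
      (mat_nonred hA hG h).trans (sumK_ge hA hG hz)
    linarith
  push Not at hgK
  by_cases hbad : ∃ C ∈ F, C ≠ C0 ∧ Bad Gr Gb 1 v C
  · obtain ⟨C, hC, hne, hbad⟩ := hbad
    have h3 := ge2 (k := 0) (Gr := Gr) (Gb := Gb) (v := v) hA hG hC0 hC (Ne.symm hne)
    obtain ⟨h4, h5⟩ := hbad.card
    have hneC := (hB.kf.box C hC).nonempty
    have h6 : A / 2 ≤ qq A (A + G) Gr Gb 0 v C := by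
      apply le_qq hneC
      rw [cc_big (big_zero hneC)]
      have h7 := tau_ge_ng (Gr := Gr) (Gb := Gb) (v := v) (C := C) hA hG
      have h8 : C.card ≤ 2 * (C.card - (gp Gr Gb v C).card) := by omega
      have h9 : (C.card : ℝ) + 2 * (gp Gr Gb v C).card ≤ 2 * C.card := by
        have : C.card + 2 * (gp Gr Gb v C).card ≤ 2 * C.card := by omega
        exact_mod_cast this
      push_cast
      nlinarith
    linarith
  push Not at hbad
  by_cases hbe : bp Gb v C0 = ∅
  · have h4 := qq_full_r (k := 0) (Gr := Gr) (Gb := Gb) (A := A) (G := G) hA hG hne0 hf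
      (t := 1) (by rw [hbe, card_empty]; simp)
    rw [cc_big (big_zero hne0)] at h4
    push_cast at h4
    linarith
  · exfalso
    have hE : ∀ C ∈ F, C ∉ ({C0} : Finset (Finset W)) →
        gp Gr Gb v C = C ∨ 1 < (gp Gr Gb v C).card := by
      intro C hC hne
      rw [mem_singleton] at hne
      exact not_bad (hbad C hC hne)
    refine hB.no_joinK hvK hKg (fun z hz => (hgK z hz).2) (E := {C0}) (by simp) ?_ ?_ ?_
    · intro C hC hCE
      rcases hE C hC hCE with h | h
      · rw [h]; exact (hB.kf.box C hC).nonempty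
      · exact card_pos.1 (by omega)
    · intro C hC hCE
      rw [mem_singleton] at hCE
      rw [hCE]
      exact nonempty_iff_ne_empty.2 hbe
    · have h2 : (F.filter (fun C => big Gr Gb 1 C)).erase C0 ⊆ F.filter (fun C => big Gr Gb 1
          (if C ∈ ({C0} : Finset (Finset W)) then bp Gb v C else gp Gr Gb v C)) := by
        intro C hC
        rw [mem_erase, mem_filter] at hC
        rw [mem_filter]
        refine ⟨hC.2.1, ?_⟩
        have h3 : C ∉ ({C0} : Finset (Finset W)) := by
          rw [mem_singleton]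
          exact hC.1
        rw [if_neg h3]
        rcases hE C hC.2.1 h3 with h' | h'
        · rw [h']
          exact hC.2.2
        · exact Or.inl h'
      have h3 := card_le_card h2
      have h4 : NS Gr Gb 1 F ≤ ((F.filter (fun C => big Gr Gb 1 C)).erase C0).card + 1 := by
        unfold NS
        have := pred_card_le_card_erase (s := F.filter (fun C => big Gr Gb 1 C)) (a := C0)
        omega
      have h5 : a ≤ (F.filter (fun C => big Gr Gb 1
          (if C ∈ ({C0} : Finset (Finset W)) then bp Gb v C else gp Gr Gb v C))).card := by omega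
      rw [min_eq_right h5]
      exact min_le_right _ _

end certs

end JF

end Pool.Agent.Lib.MP_a05470_co
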