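import Pool.Agent.Lib.MP_a05470_co.Lower
import Pool.Agent.Lib.MP_a05470_co.Even

set_option autoImplicit false

namespace Pool.Agent.Lib.MP_a05470_co

open Finset Classical Filter Topology

section LowerHalf

variable {V : Type} {H : SimpleGraph V}

/-- lower bounds from constructions -/
theorem mu_ge_of {p μ c C : ℝ}
    (hμ : Tendsto (fun n : ℕ => ex p H Hᶜ n / (n.choose 2 : ℝ)) atTop (𝓝 μ))
    (hG : ∀ n : ℕ, ∃ Gr Gb : SimpleGraph (Fin n), ¬ Contains H Hᶜ Gr Gb ∧
      ∀ v, p * nonadj Gr v + (1 - p) * nonadj Gb v ≤ c * n + C) : 1 - c ≤ μ := by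
  have h1 : Tendsto (fun n : ℕ => (1 - c) + ((1 - c) - C) / ((n : ℝ) - 1)) atTop
      (𝓝 ((1 - c) + 0)) := by
    apply Tendsto.add tendsto_const_nhds
    apply Tendsto.const_div_atTop
    exact tendsto_atTop_add_const_right _ (-1) tendsto_natCast_atTop_atTop
  rw [add_zero] at h1
  apply le_of_tendsto_of_tendsto h1 hμ
  filter_upwards [eventually_ge_atTop 2] with n hn
  have hn2 : (2 : ℝ) ≤ n := by exact_mod_cast hn
  obtain ⟨Gr, Gb, hc, hv⟩ := hG n
  have h2 : weight p Gr Gb ≤ ex p H Hᶜ n := weight_le_ex hc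
  have h3 := two_weight p Gr Gb
  have h4 : ∑ v : Fin n, ((n : ℝ) - (c * n + C)) ≤ 2 * weight p Gr Gb := by
    rw [h3]
    apply Finset.sum_le_sum
    intro v _
    linarith [hv v]
  simp only [Finset.sum_const, Finset.card_univ, Fintype.card_fin, nsmul_eq_mul] at h4
  rw [Nat.cast_choose_two]
  have hpos : (0 : ℝ) < n * (n - 1) / 2 := by nlinarith
  rw [le_div_iff₀ hpos]
  have hn1 : (n : ℝ) - 1 ≠ 0 := by
    have : (0 : ℝ) < (n : ℝ) - 1 := by linarith
    exact this.ne'
  have h5 : ((1 - c) + ((1 - c) - C) / ((n : ℝ) - 1)) * (n * (n - 1) / 2) =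
      n * (n - (c * n + C)) / 2 := by
    field_simp
    ring
  rw [h5]
  linarith

theorem ex_swap {Hr Hb : SimpleGraph V} (n : ℕ) : ex (1 / 2) Hr Hb n = ex (1 / 2) Hb Hr n := by
  unfold ex
  congr 1
  have h1 : ∀ Hr Hb : SimpleGraph V, ∀ w, (∃ Gr Gb : SimpleGraph (Fin n),
      ¬ Contains Hr Hb Gr Gb ∧ w = weight (1 / 2) Gr Gb) →
      ∃ Gr Gb : SimpleGraph (Fin n), ¬ Contains Hb Hr Gr Gb ∧ w = weight (1 / 2) Gr Gb := by
    rintro Hr Hb w ⟨Gr, Gb, h2, h3⟩
    refine ⟨Gb, Gr, fun h => h2 ?_, ?_⟩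
    · obtain ⟨f, hf, hh⟩ := h
      exact ⟨f, hf, fun x y => ⟨(hh x y).2, (hh x y).1⟩⟩
    · rw [h3]
      unfold weight
      ring
  ext w
  exact ⟨h1 Hr Hb w, h1 Hb Hr w⟩

theorem nonadj_top {n : ℕ} (v : Fin n) : nonadj (⊤ : SimpleGraph (Fin n)) v = 1 := by
  unfold nonadj
  rw [Finset.card_eq_one]
  refine ⟨v, ?_⟩
  ext u
  simp only [SimpleGraph.top_adj, Finset.mem_filter, Finset.mem_univ, true_and, not_not, ne_eq,
    Finset.mem_singleton]
  exact eq_comm

theorem nonadj_parts_le_real (n r : ℕ) (v : Fin n) :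
    (nonadj (parts n r) v : ℝ) ≤ (n : ℝ) / r + 1 := by
  have h6 := nonadj_parts_le n r v
  have h7 : ((n / r : ℕ) : ℝ) ≤ (n : ℝ) / r := Nat.cast_div_le
  have h8 : ((nonadj (parts n r) v : ℕ) : ℝ) ≤ ((n / r + 1 : ℕ) : ℝ) := by exact_mod_cast h6
  push_cast at h8
  linarith

/-- red complete graph, blue complete multipartite -/
theorem mu_ge_chi {k : ℕ} (hk : 0 < k) (hcol : ¬ Hᶜ.Colorable k) {μ : ℝ}
    (hμ : Tendsto (fun n : ℕ => ex (1 / 2) H Hᶜ n / (n.choose 2 : ℝ)) atTop (𝓝 μ)) :
    1 - 1 / (2 * (k : ℝ)) ≤ μ := by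
  apply mu_ge_of (C := 1) hμ
  intro n
  refine ⟨⊤, parts n k, ?_, ?_⟩
  · rintro ⟨f, _, hf⟩
    apply hcol
    refine ⟨SimpleGraph.Coloring.mk (fun x => (⟨(f x : ℕ) % k, Nat.mod_lt _ hk⟩ : Fin k)) ?_⟩
    intro x y hxy h
    exact (hf x y).2 hxy (Fin.mk.inj h)
  · intro v
    rw [nonadj_top]
    have h1 := nonadj_parts_le_real n k v
    have h2 : 1 / (2 * (k : ℝ)) * n = 1 / 2 * (n / k) := by
      have : (k : ℝ) ≠ 0 := by positivity
      field_simp
    rw [h2]
    push_cast
    linarith

/-- one blue part and `m - 1` red parts: the red graph -/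
def redG (n m : ℕ) : SimpleGraph (Fin n) where
  Adj u v := u ≠ v ∧ ((u : ℕ) % m ≠ (v : ℕ) % m ∨ (u : ℕ) % m ≠ 0)
  symm := ⟨fun u v h => ⟨h.1.symm, by
    rcases h.2 with h2 | h2
    · exact Or.inl h2.symm
    · by_cases h3 : (u : ℕ) % m = (v : ℕ) % m
      · right
        rwa [h3] at h2
      · exact Or.inl (Ne.symm h3)⟩⟩
  loopless := ⟨fun _ h => h.1 rfl⟩

/-- one blue part and `m - 1` red parts: the blue graph -/
def blueG (n m : ℕ) : SimpleGraph (Fin n) where
  Adj u v := u ≠ v ∧ ((u : ℕ) % m ≠ (v : ℕ) % m ∨ (u : ℕ) % m = 0)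
  symm := ⟨fun u v h => ⟨h.1.symm, by
    rcases h.2 with h2 | h2
    · exact Or.inl h2.symm
    · by_cases h3 : (u : ℕ) % m = (v : ℕ) % m
      · right
        rwa [h3] at h2
      · exact Or.inl (Ne.symm h3)⟩⟩
  loopless := ⟨fun _ h => h.1 rfl⟩

theorem nonadj_mono {n : ℕ} {G G' : SimpleGraph (Fin n)} {v : Fin n}
    (h : ∀ u, G'.Adj v u → G.Adj v u) : nonadj G v ≤ nonadj G' v := by
  unfold nonadj
  apply Finset.card_le_card
  intro u hu
  rw [Finset.mem_filter] at hu ⊢
  exact ⟨hu.1, fun h' => hu.2 (h u h')⟩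

theorem nonadj_redG {n m : ℕ} (v : Fin n) :
    (nonadj (redG n m) v : ℝ) + nonadj (blueG n m) v ≤ (n : ℝ) / m + 2 := by
  have h1 := nonadj_parts_le_real n m v
  by_cases h : (v : ℕ) % m = 0
  · have h2 : nonadj (redG n m) v ≤ nonadj (parts n m) v := by
      apply nonadj_mono
      intro u hu
      exact ⟨fun h3 => hu (by rw [h3]), Or.inl hu⟩
    have h3 : nonadj (blueG n m) v ≤ nonadj (⊤ : SimpleGraph (Fin n)) v := by
      apply nonadj_mono
      intro u hu
      exact ⟨hu, Or.inr h⟩
    rw [nonadj_top] at h3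
    have h4 : (nonadj (redG n m) v : ℝ) ≤ nonadj (parts n m) v := by exact_mod_cast h2
    have h5 : (nonadj (blueG n m) v : ℝ) ≤ 1 := by exact_mod_cast h3
    linarith
  · have h2 : nonadj (blueG n m) v ≤ nonadj (parts n m) v := by
      apply nonadj_mono
      intro u hu
      exact ⟨fun h3 => hu (by rw [h3]), Or.inl hu⟩
    have h3 : nonadj (redG n m) v ≤ nonadj (⊤ : SimpleGraph (Fin n)) v := by
      apply nonadj_mono
      intro u hu
      exact ⟨hu, Or.inr h⟩
    rw [nonadj_top] at h3
    have h4 : (nonadj (blueG n m) v : ℝ) ≤ nonadj (parts n m) v := by exact_mod_cast h2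
    have h5 : (nonadj (redG n m) v : ℝ) ≤ 1 := by exact_mod_cast h3
    linarith

theorem BalOn.indep_avoid [Fintype V] {κ : V → V} {σ : V → Bool} (hB : BalOn H Finset.univ κ σ)
    {m : ℕ} (hV : Fintype.card V = 2 * m) {Q : Finset V}
    (hQ : ∀ x ∈ Q, ∀ y ∈ Q, ¬ H.Adj x y) :
    ∃ I : Finset V, I.card = m ∧ Disjoint I Q ∧ ∀ x ∈ I, ∀ y ∈ I, ¬ H.Adj x y := by
  set s : V → Bool := fun i => if ∃ q ∈ Q, κ q = i ∧ σ q = true then false else true with hs
  refine ⟨Finset.univ.filter (fun x => σ x = s (κ x)), ?_, ?_, ?_⟩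
  · have h1 : (Finset.univ.filter (fun x => σ x = s (κ x))).card =
        (Finset.univ.filter (fun x => ¬ σ x = s (κ x))).card := by
      have e1 := Finset.card_eq_sum_card_fiberwise (f := κ)
        (s := Finset.univ.filter (fun x => σ x = s (κ x))) (t := Finset.univ)
        (fun x _ => Finset.mem_coe.2 (Finset.mem_univ _))
      have e2 := Finset.card_eq_sum_card_fiberwise (f := κ)
        (s := Finset.univ.filter (fun x => ¬ σ x = s (κ x))) (t := Finset.univ)
        (fun x _ => Finset.mem_coe.2 (Finset.mem_univ _))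
      rw [e1, e2]
      apply Finset.sum_congr rfl
      intro i _
      have hc := hB.card i
      have e3 : (Finset.univ.filter (fun x => σ x = s (κ x))).filter (fun x => κ x = i) =
          Finset.univ.filter (fun x => κ x = i ∧ σ x = s i) := by
        ext x
        simp only [Finset.mem_filter, Finset.mem_univ, true_and]
        constructor
        · rintro ⟨h2, h3⟩
          rw [h3] at h2
          exact ⟨h3, h2⟩
        · rintro ⟨h2, h3⟩
          rw [h2]
          exact ⟨h3, rfl⟩
      have e4 : (Finset.univ.filter (fun x => ¬ σ x = s (κ x))).filter (fun x => κ x = i) =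
          Finset.univ.filter (fun x => κ x = i ∧ σ x = !(s i)) := by
        ext x
        simp only [Finset.mem_filter, Finset.mem_univ, true_and]
        constructor
        · rintro ⟨h2, h3⟩
          rw [h3] at h2
          refine ⟨h3, ?_⟩
          revert h2
          generalize σ x = a
          generalize s i = b
          revert a b
          decide
        · rintro ⟨h2, h3⟩
          rw [h2]
          refine ⟨?_, rfl⟩
          rw [h3]
          generalize s i = b
          revert b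
          decide
      rw [e3, e4]
      cases s i with
      | true => exact hc
      | false => exact hc.symm
    have h2 := Finset.card_filter_add_card_filter_not (s := (Finset.univ : Finset V))
      (fun x => σ x = s (κ x))
    rw [Finset.card_univ] at h2
    omega
  · rw [Finset.disjoint_left]
    intro x hx hxQ
    simp only [Finset.mem_filter, Finset.mem_univ, true_and] at hx
    by_cases h : ∃ q ∈ Q, κ q = κ x ∧ σ q = true
    · have hsx : s (κ x) = false := by
        rw [hs]
        simp only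
        rw [if_pos h]
      rw [hsx] at hx
      obtain ⟨q, hq, hqx, hqs⟩ := h
      apply hQ q hq x hxQ
      rw [hB.adj q (Finset.mem_univ q) x (Finset.mem_univ x)]
      exact ⟨hqx, by rw [hqs, hx]; decide⟩
    · have hsx : s (κ x) = true := by
        rw [hs]
        simp only
        rw [if_neg h]
      rw [hsx] at hx
      exact h ⟨x, hxQ, rfl, hx⟩
  · intro x hx y hy h
    simp only [Finset.mem_filter, Finset.mem_univ, true_and] at hx hy
    have h1 := (hB.adj x (Finset.mem_univ x) y (Finset.mem_univ y)).1 h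
    apply h1.2
    rw [hx, hy, h1.1]

/-- the lower bound for the exceptional graphs -/
theorem mu_ge_bal [Fintype V] {κ : V → V} {σ : V → Bool} (hB : BalOn H Finset.univ κ σ)
    {m : ℕ} (hm : 0 < m) (hV : Fintype.card V = 2 * m) {μ : ℝ}
    (hμ : Tendsto (fun n : ℕ => ex (1 / 2) H Hᶜ n / (n.choose 2 : ℝ)) atTop (𝓝 μ)) :
    1 - 1 / (2 * (m : ℝ)) ≤ μ := by
  apply mu_ge_of (C := 1) hμ
  intro n
  refine ⟨redG n m, blueG n m, ?_, ?_⟩
  · rintro ⟨f, hf, hh⟩
    set Q := Finset.univ.filter (fun x : V => (f x : ℕ) % m = 0) with hQ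
    have hQi : ∀ x ∈ Q, ∀ y ∈ Q, ¬ H.Adj x y := by
      intro x hx y hy h
      rw [hQ] at hx hy
      simp only [Finset.mem_filter, Finset.mem_univ, true_and] at hx hy
      have h1 := ((hh x y).1 h).2
      rw [hx, hy] at h1
      simp at h1
    obtain ⟨I, hI, hIQ, hind⟩ := hB.indep_avoid hV hQi
    have hcov : Cov H (m - 1) I := by
      apply cov_of_col (c := fun x => (f x : ℕ) % m)
      · intro x hx y hy hxy hc
        by_contra hcon
        have h1 := ((hh x y).2 (compl_adj_of hxy hcon)).2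
        rcases h1 with h1 | h1
        · exact h1 hc
        · apply Finset.disjoint_left.1 hIQ hx
          rw [hQ]
          simp only [Finset.mem_filter, Finset.mem_univ, true_and]
          exact h1
      · have h1 : ∀ x ∈ I, (f x : ℕ) % m ∈ Finset.Ico 1 m := by
          intro x hx
          rw [Finset.mem_Ico]
          refine ⟨Nat.one_le_iff_ne_zero.2 ?_, Nat.mod_lt _ hm⟩
          intro h
          apply Finset.disjoint_left.1 hIQ hx
          rw [hQ]
          simp only [Finset.mem_filter, Finset.mem_univ, true_and]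
          exact h
        have h2 : ∀ D : DecidableEq ℕ, (@Finset.image V ℕ D (fun x => (f x : ℕ) % m) I).card ≤
            (Finset.Ico 1 m).card := fun D => image_card_le _ h1
        rw [Nat.card_Ico] at h2
        exact h2 _
    have h3 := hcov.indep_le (Finset.Subset.refl I) (fun a ha b hb _ => hind a ha b hb)
    omega
  · intro v
    have h1 := nonadj_redG (m := m) v
    have h2 : 1 / (2 * (m : ℝ)) * n = 1 / 2 * (n / m) := by
      have : (m : ℝ) ≠ 0 := by positivity
      field_simp
    rw [h2]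
    linarith

theorem colorable_of_cov [Fintype V] {k : ℕ} (h : Cov H k Finset.univ) : Hᶜ.Colorable k := by
  obtain ⟨ι, c, hc, hK⟩ := h.col
  let C : Hᶜ.Coloring {i // i ∈ Finset.univ.image c} := SimpleGraph.Coloring.mk
    (fun x => ⟨c x, Finset.mem_image_of_mem c (Finset.mem_univ x)⟩) (by
      intro x y hxy h1
      rw [SimpleGraph.compl_adj] at hxy
      exact hxy.2 (hc x (Finset.mem_univ x) y (Finset.mem_univ y) hxy.1 (Subtype.mk.inj h1)))
  have h2 := C.colorable
  rw [Fintype.card_coe] at h2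
  exact h2.mono hK

theorem BalOn.colorable_two [Fintype V] {κ : V → V} {σ : V → Bool}
    (hB : BalOn H Finset.univ κ σ) : H.Colorable 2 := by
  have C : H.Coloring Bool := SimpleGraph.Coloring.mk σ (by
    intro x y hxy
    exact ((hB.adj x (Finset.mem_univ x) y (Finset.mem_univ y)).1 hxy).2)
  have h := C.colorable
  rwa [Fintype.card_bool] at h

end LowerHalf

end Pool.Agent.Lib.MP_a05470_co
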