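import Pool.Agent.Lib.MP_a05470_co.Basic

set_option autoImplicit false

namespace Pool.Agent.Lib.MP_a05470_co

open Finset Classical Filter Topology

/-- the cost matrix: a missing red edge costs `a`, a missing blue edge costs `b` -/
noncomputable def Mat {V : Type} (a b : ℝ) (Gr Gb : SimpleGraph V) (u v : V) : ℝ :=
  (if Gr.Adj u v then 0 else a) + (if Gb.Adj u v then 0 else b)

theorem Mat_comm {V : Type} (a b : ℝ) (Gr Gb : SimpleGraph V) (u v : V) :
    Mat a b Gr Gb u v = Mat a b Gr Gb v u := by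
  unfold Mat
  rw [Gr.adj_comm, Gb.adj_comm]

theorem Mat_self {V : Type} (a b : ℝ) (Gr Gb : SimpleGraph V) (u : V) :
    Mat a b Gr Gb u u = a + b := by
  simp [Mat]

section quad

variable {V : Type} [Fintype V]

/-- matrix times vector -/
def mv (M : V → V → ℝ) (z : V → ℝ) (u : V) : ℝ := ∑ v, M u v * z v

/-- the bilinear form of a matrix -/
def bil (M : V → V → ℝ) (y z : V → ℝ) : ℝ := ∑ u, y u * mv M z u

theorem mv_comb (M : V → V → ℝ) (c d : ℝ) (y z : V → ℝ) (u : V) :
    mv M (fun v => c * y v + d * z v) u = c * mv M y u + d * mv M z u := by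
  unfold mv
  rw [Finset.mul_sum, Finset.mul_sum, ← Finset.sum_add_distrib]
  exact Finset.sum_congr rfl (fun v _ => by ring)

theorem bil_comb_left (M : V → V → ℝ) (c d : ℝ) (y z w : V → ℝ) :
    bil M (fun v => c * y v + d * z v) w = c * bil M y w + d * bil M z w := by
  unfold bil
  rw [Finset.mul_sum, Finset.mul_sum, ← Finset.sum_add_distrib]
  exact Finset.sum_congr rfl (fun v _ => by ring)

theorem bil_comb_right (M : V → V → ℝ) (c d : ℝ) (y z w : V → ℝ) :
    bil M w (fun v => c * y v + d * z v) = c * bil M w y + d * bil M w z := by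
  unfold bil
  rw [Finset.mul_sum, Finset.mul_sum, ← Finset.sum_add_distrib]
  refine Finset.sum_congr rfl (fun v _ => ?_)
  rw [mv_comb]
  ring

theorem bil_comm {M : V → V → ℝ} (hM : ∀ u v, M u v = M v u) (y z : V → ℝ) :
    bil M y z = bil M z y := by
  unfold bil mv
  simp_rw [Finset.mul_sum]
  rw [Finset.sum_comm]
  refine Finset.sum_congr rfl (fun v _ => Finset.sum_congr rfl (fun u _ => ?_))
  rw [hM u v]
  ring

theorem bil_comb_self {M : V → V → ℝ} (hM : ∀ u v, M u v = M v u) (c d : ℝ) (y z : V → ℝ) :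
    bil M (fun v => c * y v + d * z v) (fun v => c * y v + d * z v) =
      c ^ 2 * bil M y y + 2 * c * d * bil M y z + d ^ 2 * bil M z z := by
  rw [bil_comb_left, bil_comb_right, bil_comb_right, bil_comm hM z y]
  ring

theorem bil_const {M : V → V → ℝ} {x : V → ℝ} {l : ℝ} (hrow : ∀ u, mv M x u = l) (y : V → ℝ) :
    bil M y x = l * ∑ v, y v := by
  unfold bil
  rw [Finset.mul_sum]
  exact Finset.sum_congr rfl (fun v _ => by rw [hrow]; ring)

theorem sum_two (u v : V) (g : V → ℝ) :
    ∑ w, ((if w = u then (1 : ℝ) else 0) + (-1) * (if w = v then 1 else 0)) * g w =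
      g u - g v := by
  have h1 : ∀ s : V, ∑ w, (if w = s then (1 : ℝ) else 0) * g w = g s := by
    intro s
    simp
  have h2 : ∀ w, ((if w = u then (1 : ℝ) else 0) + (-1) * (if w = v then 1 else 0)) * g w =
      (if w = u then (1 : ℝ) else 0) * g w + (-1) * ((if w = v then (1 : ℝ) else 0) * g w) :=
    fun w => by ring
  simp_rw [h2]
  rw [Finset.sum_add_distrib, ← Finset.mul_sum, h1, h1]
  ring

theorem continuous_bil (M : V → V → ℝ) : Continuous (fun y : V → ℝ => bil M y y) := by
  unfold bil mv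
  fun_prop

/-- a minimiser of the form on the simplex with the least number of nonzero coordinates -/
theorem exists_min_support [Nonempty V] (M : V → V → ℝ) :
    ∃ x : V → ℝ, (∀ v, 0 ≤ x v) ∧ ∑ v, x v = 1 ∧
      (∀ y : V → ℝ, (∀ v, 0 ≤ y v) → ∑ v, y v = 1 → bil M x x ≤ bil M y y) ∧
      (∀ y : V → ℝ, (∀ v, 0 ≤ y v) → ∑ v, y v = 1 → bil M y y = bil M x x →
        (univ.filter (fun v => x v ≠ 0)).card ≤ (univ.filter (fun v => y v ≠ 0)).card) := by
  have hne : (stdSimplex ℝ V).Nonempty :=
    ⟨_, single_mem_stdSimplex ℝ (Classical.arbitrary V)⟩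
  obtain ⟨x0, hx0, hmin⟩ := (isCompact_stdSimplex ℝ V).exists_isMinOn hne
    (continuous_bil M).continuousOn
  have hmin' : ∀ y : V → ℝ, (∀ v, 0 ≤ y v) → ∑ v, y v = 1 → bil M x0 x0 ≤ bil M y y :=
    fun y h1 h2 => hmin (show y ∈ stdSimplex ℝ V from ⟨h1, h2⟩)
  obtain ⟨x, ⟨hx1, hx2, hx3⟩, hx⟩ := WellFounded.has_min
    (measure (fun x : V → ℝ => (univ.filter (fun v => x v ≠ 0)).card)).wf
    {y : V → ℝ | (∀ v, 0 ≤ y v) ∧ ∑ v, y v = 1 ∧ bil M y y = bil M x0 x0}
    ⟨x0, hx0.1, hx0.2, rfl⟩
  refine ⟨x, hx1, hx2, fun y h1 h2 => by rw [hx3]; exact hmin' y h1 h2, fun y h1 h2 h3 => ?_⟩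
  have := hx y ⟨h1, h2, h3.trans hx3⟩
  exact not_lt.1 this

theorem line_nonneg {x d : V → ℝ} (hx : ∀ v, 0 ≤ x v) (hd : ∀ v, x v = 0 → d v = 0) :
    ∃ δ : ℝ, 0 < δ ∧ ∀ t : ℝ, |t| < δ → ∀ v, 0 ≤ x v + t * d v := by
  have h : ∀ᶠ t : ℝ in 𝓝 0, ∀ v, 0 ≤ x v + t * d v := by
    rw [Filter.eventually_all]
    intro v
    rcases (hx v).eq_or_lt with h0 | h0
    · refine Filter.Eventually.of_forall (fun t => ?_)
      rw [hd v h0.symm, ← h0]
      simp
    · have hc : Continuous (fun t : ℝ => x v + t * d v) := by fun_prop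
      have h1 := hc.tendsto 0
      simp only [zero_mul, add_zero] at h1
      exact (h1.eventually (lt_mem_nhds h0)).mono (fun t ht => ht.le)
  obtain ⟨δ, hδ, h⟩ := Metric.eventually_nhds_iff.1 h
  refine ⟨δ, hδ, fun t ht => h ?_⟩
  simpa [Real.dist_eq] using ht

/-- first and second order conditions at the minimiser -/
theorem min_conditions {M : V → V → ℝ} (hM : ∀ u v, M u v = M v u) {x : V → ℝ}
    (hx : ∀ v, 0 ≤ x v) (hsum : ∑ v, x v = 1)
    (hmin : ∀ y : V → ℝ, (∀ v, 0 ≤ y v) → ∑ v, y v = 1 → bil M x x ≤ bil M y y)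
    (hsupp : ∀ y : V → ℝ, (∀ v, 0 ≤ y v) → ∑ v, y v = 1 → bil M y y = bil M x x →
        (univ.filter (fun v => x v ≠ 0)).card ≤ (univ.filter (fun v => y v ≠ 0)).card)
    (d : V → ℝ) (hd : ∀ v, x v = 0 → d v = 0) (hd0 : ∑ v, d v = 0) :
    bil M x d = 0 ∧ (d ≠ 0 → 0 < bil M d d) := by
  obtain ⟨δ, hδ, hline⟩ := line_nonneg hx hd
  have hexp : ∀ t : ℝ, bil M (fun v => x v + t * d v) (fun v => x v + t * d v) =
      bil M x x + 2 * t * bil M x d + t ^ 2 * bil M d d := by
    intro t
    have := bil_comb_self hM 1 t x d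
    simp only [one_mul, one_pow, mul_one] at this
    rw [this]
  have hs : ∀ t : ℝ, ∑ v, (x v + t * d v) = 1 := by
    intro t
    rw [Finset.sum_add_distrib, ← Finset.mul_sum, hd0, hsum]
    ring
  have hge : ∀ t : ℝ, |t| < δ → 0 ≤ 2 * t * bil M x d + t ^ 2 * bil M d d := by
    intro t ht
    have h1 := hmin _ (hline t ht) (hs t)
    rw [hexp] at h1
    linarith
  set B := bil M x d with hB
  set Q := bil M d d with hQ
  have hB0 : B = 0 := by
    by_contra hne
    have hBpos : 0 < |B| := abs_pos.2 hne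
    obtain ⟨s, hs0, hs1, hs2⟩ : ∃ s : ℝ, 0 < s ∧ s * |B| < δ ∧ s * |Q| ≤ 1 := by
      refine ⟨min (δ / (2 * (|B| + 1))) (1 / (|Q| + 1)), ?_, ?_, ?_⟩
      · apply lt_min <;> positivity
      · calc min (δ / (2 * (|B| + 1))) (1 / (|Q| + 1)) * |B|
            ≤ δ / (2 * (|B| + 1)) * |B| :=
              mul_le_mul_of_nonneg_right (min_le_left _ _) (abs_nonneg _)
          _ < δ := by
              rw [div_mul_eq_mul_div, div_lt_iff₀ (by positivity)]
              nlinarith
      · calc min (δ / (2 * (|B| + 1))) (1 / (|Q| + 1)) * |Q|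
            ≤ 1 / (|Q| + 1) * |Q| :=
              mul_le_mul_of_nonneg_right (min_le_right _ _) (abs_nonneg _)
          _ ≤ 1 := by
              rw [div_mul_eq_mul_div, div_le_iff₀ (by positivity)]
              linarith [abs_nonneg Q]
    have h1 := hge (-(s * B)) (by
      rw [abs_neg, abs_mul, abs_of_pos hs0]
      exact hs1)
    have h2 : s * Q ≤ 1 := le_trans (mul_le_mul_of_nonneg_left (le_abs_self Q) hs0.le) hs2
    have h3 : 0 < B ^ 2 := by positivity
    have h4 : 0 < s * B ^ 2 := by positivity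
    nlinarith
  refine ⟨hB0, fun hdne => ?_⟩
  have hQ0 : 0 ≤ Q := by
    have h1 := hge (δ / 2) (by rw [abs_of_pos (by positivity)]; linarith)
    rw [hB0] at h1
    have h2 : 0 < (δ / 2) ^ 2 := by positivity
    nlinarith
  refine lt_of_le_of_ne hQ0 (fun hQe => ?_)
  -- move along `d` until a coordinate vanishes
  obtain ⟨v0, hv0⟩ : ∃ v, d v < 0 := by
    by_contra hcon
    push Not at hcon
    apply hdne
    funext v
    exact (Finset.sum_eq_zero_iff_of_nonneg (fun v _ => hcon v)).1 hd0 v (mem_univ v)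
  obtain ⟨w, hw, hwmin⟩ := Finset.exists_min_image (univ.filter (fun v => d v < 0))
    (fun v => x v / (-d v)) ⟨v0, by simp [hv0]⟩
  have hdw : d w < 0 := by simpa using hw
  set t := x w / (-d w) with ht
  have hxw : 0 < x w := by
    refine lt_of_le_of_ne (hx w) (fun h => ?_)
    have := hd w h.symm
    linarith
  have ht0 : 0 < t := div_pos hxw (by linarith)
  have hnn : ∀ v, 0 ≤ x v + t * d v := by
    intro v
    rcases lt_or_ge (d v) 0 with h | h
    · have h1 := hwmin v (by simp [h])
      have h2 : t * (-d v) ≤ x v := by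
        rw [← le_div_iff₀ (by linarith)]
        exact h1
      linarith
    · have := hx v
      positivity
  have heq : bil M (fun v => x v + t * d v) (fun v => x v + t * d v) = bil M x x := by
    rw [hexp, hB0, ← hQe]
    ring
  have hcard := hsupp _ hnn (hs t) heq
  have hlt : (univ.filter (fun v => x v + t * d v ≠ 0)).card <
      (univ.filter (fun v => x v ≠ 0)).card := by
    apply Finset.card_lt_card
    rw [Finset.ssubset_iff_of_subset]
    · refine ⟨w, by simp [hxw.ne'], ?_⟩
      simp only [mem_filter, mem_univ, true_and, not_not]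
      have hne := hdw.ne
      rw [ht, div_mul_eq_mul_div, mul_comm, neg_eq_neg_one_mul, mul_comm (-1 : ℝ) (d w),
        mul_div_mul_left _ _ hne]
      ring
    · intro v hv
      simp only [mem_filter, mem_univ, true_and] at hv ⊢
      intro h
      apply hv
      rw [h, hd v h]
      simp
  omega

end quad

/-- A core: positive weights with all rows equal, complete, positive definite. -/
structure Core {V : Type} [Fintype V] (a b : ℝ) (Gr Gb : SimpleGraph V) (x : V → ℝ) (l : ℝ) :
    Prop where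
  pos : ∀ v, 0 < x v
  sum : ∑ v, x v = 1
  row : ∀ u, mv (Mat a b Gr Gb) x u = l
  complete : ∀ u v, u ≠ v → Gr.Adj u v ∨ Gb.Adj u v
  pd : ∀ y : V → ℝ, y ≠ 0 → 0 < bil (Mat a b Gr Gb) y y

theorem contains_comap {V W W' : Type} {Hr Hb : SimpleGraph V} {Gr Gb : SimpleGraph W}
    (f : W' → W) (hf : Function.Injective f) (h : Contains Hr Hb (Gr.comap f) (Gb.comap f)) :
    Contains Hr Hb Gr Gb := by
  obtain ⟨g, hg, hh⟩ := h
  exact ⟨fun x => f (g x), hf.comp hg, fun x y => hh x y⟩

/-- every dense graph contains a core -/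
theorem exists_core {W : Type} [Fintype W] [Nonempty W] {a b : ℝ} (ha : 0 ≤ a) (hb : 0 ≤ b)
    (hab : 0 < a + b) (Gr Gb : SimpleGraph W) (z : W → ℝ) (hz : ∀ v, 0 ≤ z v)
    (hz1 : ∑ v, z v = 1) {c : ℝ} (hc : ∀ v, mv (Mat a b Gr Gb) z v ≤ c) :
    ∃ (S : Set W) (x : S → ℝ) (l : ℝ), l ≤ c ∧
      Core a b (Gr.comap ((↑) : S → W)) (Gb.comap ((↑) : S → W)) x l := by
  set M := Mat a b Gr Gb with hMdef
  have hM : ∀ u v, M u v = M v u := Mat_comm a b Gr Gb
  obtain ⟨x, hx, hsum, hmin, hsupp⟩ := exists_min_support M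
  have hcond := min_conditions hM hx hsum hmin hsupp
  have hMnn : ∀ u v, 0 ≤ M u v := by
    intro u v
    rw [hMdef]
    unfold Mat
    split_ifs <;> linarith
  set l := bil M x x with hl
  have hlc : l ≤ c := by
    refine (hmin z hz hz1).trans ?_
    unfold bil
    calc ∑ u, z u * mv M z u ≤ ∑ u, z u * c :=
          Finset.sum_le_sum (fun u _ => mul_le_mul_of_nonneg_left (hc u) (hz u))
      _ = c := by rw [← Finset.sum_mul, hz1, one_mul]
  -- all rows on the support are equal
  have hrow0 : ∀ u v, x u ≠ 0 → x v ≠ 0 → mv M x u = mv M x v := by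
    intro u v hu hv
    rcases eq_or_ne u v with rfl | huv
    · rfl
    have h1 := (hcond (fun w => (if w = u then 1 else 0) + (-1) * (if w = v then 1 else 0))
      (by
        intro w hw
        have h1 : w ≠ u := by rintro rfl; exact hu hw
        have h2 : w ≠ v := by rintro rfl; exact hv hw
        simp [h1, h2])
      (by
        rw [Finset.sum_add_distrib, ← Finset.mul_sum]
        simp)).1
    rw [bil_comm hM] at h1
    unfold bil at h1
    have h2 : ∑ w, ((if w = u then (1 : ℝ) else 0) + (-1) * (if w = v then 1 else 0)) * mv M x w =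
        mv M x u - mv M x v := sum_two u v _
    rw [h2] at h1
    linarith
  have hrow1 : ∀ u, x u ≠ 0 → mv M x u = l := by
    intro u hu
    have h1 : l = ∑ w, x w * mv M x u := by
      rw [hl]
      unfold bil
      refine Finset.sum_congr rfl (fun w _ => ?_)
      by_cases hw : x w = 0
      · rw [hw]
        simp
      · rw [hrow0 w u hw hu]
    rw [h1, ← Finset.sum_mul, hsum, one_mul]
  have hlpos : 0 < l := by
    obtain ⟨u, hu⟩ : ∃ u, x u ≠ 0 := by
      by_contra hcon
      push Not at hcon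
      simp [hcon] at hsum
    have h1 : 0 < x u := lt_of_le_of_ne (hx u) (Ne.symm hu)
    rw [← hrow1 u hu]
    unfold mv
    refine lt_of_lt_of_le ?_ (Finset.single_le_sum
      (fun v _ => mul_nonneg (hMnn u v) (hx v)) (mem_univ u))
    rw [hMdef, Mat_self]
    positivity
  obtain ⟨S, hS⟩ : ∃ S : Set W, ∀ v, v ∈ S ↔ x v ≠ 0 := ⟨{v | x v ≠ 0}, fun _ => Iff.rfl⟩
  have hS1 : ∀ v : S, x v ≠ 0 := fun v => (hS v).1 v.2
  -- extension by zero
  have hext : ∀ (y : S → ℝ) (g : W → ℝ), ∑ v : W, (if h : v ∈ S then y ⟨v, h⟩ else 0) * g v =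
      ∑ v : S, y v * g v := by
    intro y g
    rw [← Finset.sum_subset (Finset.subset_univ (univ.filter (fun v => v ∈ S)))]
    · rw [Finset.sum_subtype (univ.filter (fun v => v ∈ S)) (p := fun v => v ∈ S) (by simp)]
      refine Finset.sum_congr rfl (fun v _ => ?_)
      simp [v.2]
    · intro v _ hv
      have : v ∉ S := by simpa using hv
      simp [this]
  have hmvS : ∀ (y : S → ℝ) (u : W), mv M (fun v => if h : v ∈ S then y ⟨v, h⟩ else 0) u =
      ∑ v : S, M u v * y v := by
    intro y u
    unfold mv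
    rw [← Finset.sum_congr rfl (fun v _ => mul_comm _ (M u v)), hext y (fun v => M u v)]
    exact Finset.sum_congr rfl (fun v _ => mul_comm _ _)
  have hbilS : ∀ y : S → ℝ, bil (Mat a b (Gr.comap ((↑) : S → W)) (Gb.comap ((↑) : S → W))) y y =
      bil M (fun v => if h : v ∈ S then y ⟨v, h⟩ else 0)
        (fun v => if h : v ∈ S then y ⟨v, h⟩ else 0) := by
    intro y
    unfold bil
    rw [hext y]
    refine Finset.sum_congr rfl (fun v _ => ?_)
    rw [hmvS]
    rfl
  refine ⟨S, fun v => x v, l, hlc, ⟨fun v => lt_of_le_of_ne (hx v) (Ne.symm (hS1 v)), ?_, ?_, ?_,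
    ?_⟩⟩
  · have := hext (fun v => x v) (fun _ => 1)
    simp only [mul_one] at this
    rw [← this, ← hsum]
    refine Finset.sum_congr rfl (fun v _ => ?_)
    by_cases h : v ∈ S
    · simp [h]
    · have : x v = 0 := by
        by_contra hc
        exact h ((hS v).2 hc)
      simp [h, this]
  · intro u
    rw [← hrow1 u (hS1 u)]
    unfold mv
    have h1 := hmvS (fun v => x v) u
    unfold mv at h1
    have h2 : ∀ v : W, (if h : v ∈ S then (fun v : S => x v) ⟨v, h⟩ else 0) = x v := by
      intro v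
      by_cases h : v ∈ S
      · simp [h]
      · have : x v = 0 := by
          by_contra hc
          exact h ((hS v).2 hc)
        simp [h, this]
    simp_rw [h2] at h1
    rw [h1]
    rfl
  · intro u v huv
    by_contra hcon
    push Not at hcon
    obtain ⟨h1, h2⟩ := hcon
    simp only [SimpleGraph.comap_adj] at h1 h2
    have huv' : (u : W) ≠ v := fun h => huv (Subtype.ext h)
    set d : W → ℝ := fun w => (if w = (u : W) then 1 else 0) + (-1) * (if w = (v : W) then 1 else 0)
      with hd
    have h3 := (hcond d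
      (by
        intro w hw
        have h1 : w ≠ u := by rintro rfl; exact hS1 u hw
        have h2 : w ≠ v := by rintro rfl; exact hS1 v hw
        simp [hd, h1, h2])
      (by
        rw [hd, Finset.sum_add_distrib, ← Finset.mul_sum]
        simp)).2
      (by
        intro h
        have := congrFun h (u : W)
        simp [hd, huv'] at this)
    have h4 : ∀ w, mv M d w = M w u - M w v := by
      intro w
      unfold mv
      rw [hd, ← sum_two (u : W) (v : W) (fun s => M w s)]
      exact Finset.sum_congr rfl (fun s _ => mul_comm _ _)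
    have h5 : bil M d d = (M u u - M u v) - (M v u - M v v) := by
      unfold bil
      simp_rw [h4]
      rw [hd]
      exact sum_two (u : W) (v : W) (fun s => M s u - M s v)
    rw [h5] at h3
    have h6 : M (u : W) (v : W) = a + b := by
      rw [hMdef]
      simp [Mat, h1, h2]
    have h7 : M (v : W) (u : W) = a + b := by rw [hM, h6]
    have h8 : ∀ w, M w w = a + b := fun w => by rw [hMdef, Mat_self]
    rw [h6, h7, h8, h8] at h3
    linarith
  · intro y hy
    rw [hbilS]
    set Y : W → ℝ := fun v => if h : v ∈ S then y ⟨v, h⟩ else 0 with hY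
    have hY0 : ∀ v, x v = 0 → Y v = 0 := by
      intro v hv
      have : v ∉ S := fun h => (hS v).1 h hv
      simp [hY, this]
    have hYne : Y ≠ 0 := by
      intro h
      apply hy
      funext v
      have := congrFun h (v : W)
      simpa [hY, v.2] using this
    set c' := ∑ v, Y v with hc'
    set Y0 : W → ℝ := fun v => Y v + (-c') * x v with hY0def
    have h1 := hcond Y0 (by intro v hv; simp [hY0def, hY0 v hv, hv]) (by
      rw [hY0def, Finset.sum_add_distrib, ← Finset.mul_sum, hsum, ← hc']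
      ring)
    have h2 : Y = fun v => 1 * Y0 v + c' * x v := by
      funext v
      simp [hY0def]
    rw [h2, bil_comb_self hM, bil_comm hM Y0 x, h1.1]
    by_cases hc0 : c' = 0
    · have hne : Y0 ≠ 0 := by
        intro h
        apply hYne
        rw [h2, hc0]
        funext v
        simp [h]
      have := h1.2 hne
      rw [hc0]
      linarith
    · have h3 : 0 ≤ bil M Y0 Y0 := by
        by_cases h : Y0 = 0
        · rw [h]
          simp [bil]
        · exact (h1.2 h).le
      have h4 : 0 < c' ^ 2 * l := by positivity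
      rw [← hl]
      linarith

/-- It is enough to find `H` in every core with value less than one. -/
theorem forces_of_core {V : Type} {a b : ℝ} (ha : 0 ≤ a) (hb : 0 ≤ b) (hab : 0 < a + b)
    {Hr Hb : SimpleGraph V}
    (h : ∀ (W : Type) [Fintype W] (Gr Gb : SimpleGraph W) (x : W → ℝ) (l : ℝ),
      Core a b Gr Gb x l → l < 1 → Contains Hr Hb Gr Gb) :
    Forces a b Hr Hb := by
  intro ε hε
  refine ⟨1, fun n hn Gr Gb hG => ?_⟩
  have hn0 : (0 : ℝ) < n := by
    have : 0 < n := by omega
    exact_mod_cast this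
  have : Nonempty (Fin n) := ⟨⟨0, by omega⟩⟩
  have hrow : ∀ v, mv (Mat a b Gr Gb) (fun _ => 1 / (n : ℝ)) v =
      (a * nonadj Gr v + b * nonadj Gb v) / n := by
    intro v
    unfold mv Mat
    rw [← Finset.sum_mul, Finset.sum_add_distrib]
    have h1 : ∀ (G : SimpleGraph (Fin n)) (c : ℝ), (∑ u, if G.Adj v u then (0 : ℝ) else c) =
        c * nonadj G v := by
      intro G c
      unfold nonadj
      rw [Finset.sum_ite, Finset.sum_const_zero, zero_add, Finset.sum_const, nsmul_eq_mul,
        mul_comm]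
    rw [h1, h1]
    ring
  obtain ⟨S, x, l, hl, hcore⟩ := exists_core ha hb hab Gr Gb (fun _ => 1 / (n : ℝ))
    (fun _ => by positivity) (by simp; field_simp) (c := 1 - ε) (by
      intro v
      rw [hrow, div_le_iff₀ hn0]
      exact hG v)
  exact contains_comap _ Subtype.val_injective (h _ _ _ x l hcore (by linarith))

section core

variable {V : Type} [Fintype V] {a b l : ℝ} {Gr Gb : SimpleGraph V} {x : V → ℝ}

/-- mass of the vertices that are not joined to `v` in `G` (including `v`) -/
noncomputable def nmass (G : SimpleGraph V) (x : V → ℝ) (v : V) : ℝ :=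
  ∑ u, if G.Adj v u then 0 else x u

theorem mv_Mat (a b : ℝ) (Gr Gb : SimpleGraph V) (x : V → ℝ) (v : V) :
    mv (Mat a b Gr Gb) x v = a * nmass Gr x v + b * nmass Gb x v := by
  unfold mv nmass Mat
  rw [Finset.mul_sum, Finset.mul_sum, ← Finset.sum_add_distrib]
  refine Finset.sum_congr rfl (fun u _ => ?_)
  split_ifs <;> ring

theorem Core.dense (h : Core a b Gr Gb x l) (v : V) :
    a * nmass Gr x v + b * nmass Gb x v = l := by
  rw [← mv_Mat, h.row v]

theorem Core.symm (_h : Core a b Gr Gb x l) (u v : V) :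
    Mat a b Gr Gb u v = Mat a b Gr Gb v u := Mat_comm a b Gr Gb u v

theorem Core.bil_x (h : Core a b Gr Gb x l) (y : V → ℝ) :
    bil (Mat a b Gr Gb) y x = l * ∑ v, y v := bil_const h.row y

theorem Core.pd' (h : Core a b Gr Gb x l) (y : V → ℝ) : 0 ≤ bil (Mat a b Gr Gb) y y := by
  by_cases hy : y = 0
  · rw [hy]
    simp [bil]
  · exact (h.pd y hy).le

omit [Fintype V] in
theorem Mat_nonneg (ha : 0 ≤ a) (hb : 0 ≤ b) (Gr Gb : SimpleGraph V) (u v : V) :
    0 ≤ Mat a b Gr Gb u v := by
  unfold Mat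
  split_ifs <;> linarith

theorem Core.nonempty (h : Core a b Gr Gb x l) : Nonempty V := by
  by_contra hcon
  rw [not_nonempty_iff] at hcon
  have := h.sum
  simp at this

theorem Core.l_pos (ha : 0 ≤ a) (hb : 0 ≤ b) (hab : 0 < a + b) (h : Core a b Gr Gb x l) :
    0 < l := by
  obtain ⟨u⟩ := h.nonempty
  rw [← h.row u]
  unfold mv
  refine lt_of_lt_of_le ?_ (Finset.single_le_sum
    (fun v _ => mul_nonneg (Mat_nonneg ha hb Gr Gb u v) (h.pos v).le) (mem_univ u))
  rw [Mat_self]
  exact mul_pos hab (h.pos u)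

/-- the form on a truncation of `x` -/
theorem Core.bil_trunc (ha : 0 ≤ a) (hb : 0 ≤ b) (h : Core a b Gr Gb x l) (φ : V → ℝ) :
    bil (Mat a b Gr Gb) (fun v => φ v * x v) (fun v => φ v * x v) ≤
      l * ∑ v, φ v ^ 2 * x v := by
  set M := Mat a b Gr Gb with hM
  have h1 : bil M (fun v => φ v * x v) (fun v => φ v * x v) =
      ∑ u, ∑ v, M u v * (x u * x v) * (φ u * φ v) := by
    unfold bil mv
    simp_rw [Finset.mul_sum]
    exact Finset.sum_congr rfl (fun u _ => Finset.sum_congr rfl (fun v _ => by ring))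
  have h2 : ∀ g : V → ℝ, ∑ u, ∑ v, M u v * (x u * x v) * g u = l * ∑ u, g u * x u := by
    intro g
    rw [Finset.mul_sum]
    refine Finset.sum_congr rfl (fun u _ => ?_)
    have h3 := h.row u
    unfold mv at h3
    calc ∑ v, M u v * (x u * x v) * g u = (∑ v, M u v * x v) * (x u * g u) := by
          rw [Finset.sum_mul]
          exact Finset.sum_congr rfl (fun v _ => by ring)
      _ = l * (g u * x u) := by rw [h3]; ring
  have h4 : ∑ u, ∑ v, M u v * (x u * x v) * φ v ^ 2 = l * ∑ u, φ u ^ 2 * x u := by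
    rw [← h2 (fun v => φ v ^ 2), Finset.sum_comm]
    refine Finset.sum_congr rfl (fun u _ => Finset.sum_congr rfl (fun v _ => ?_))
    rw [show M v u = M u v from Mat_comm a b Gr Gb v u]
    ring
  have h5 := h2 (fun v => φ v ^ 2)
  have h6 : ∑ u, ∑ v, M u v * (x u * x v) * (φ u * φ v) ≤
      ∑ u, ∑ v, (M u v * (x u * x v) * φ u ^ 2 + M u v * (x u * x v) * φ v ^ 2) / 2 := by
    refine Finset.sum_le_sum (fun u _ => Finset.sum_le_sum (fun v _ => ?_))
    have h7 : 0 ≤ M u v * (x u * x v) :=
      mul_nonneg (Mat_nonneg ha hb Gr Gb u v) (mul_nonneg (h.pos u).le (h.pos v).le)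
    nlinarith [mul_nonneg h7 (sq_nonneg (φ u - φ v))]
  rw [h1]
  refine h6.trans (le_of_eq ?_)
  simp_rw [← Finset.sum_div, Finset.sum_add_distrib]
  have h8 : ∑ u, ∑ v, M u v * (x u * x v) * φ u ^ 2 = l * ∑ u, φ u ^ 2 * x u := h5
  rw [h4, h8]
  ring

/-- LEMMA Q. If `θ` is supported on `S`, `f = M θ` is one on `S` and `θ` has a nonpositive
coordinate in `S`, then `f` takes a value strictly between zero and one outside `S`. -/
theorem Core.lemmaQ (ha : 0 ≤ a) (hb : 0 ≤ b) (hab : 0 < a + b) (h : Core a b Gr Gb x l)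
    (S : Finset V) (θ : V → ℝ) (hθ : ∀ v, v ∉ S → θ v = 0)
    (hS : ∀ v ∈ S, mv (Mat a b Gr Gb) θ v = 1) {s : V} (hs : s ∈ S) (hs0 : θ s ≤ 0) :
    ∃ z, z ∉ S ∧ 0 < mv (Mat a b Gr Gb) θ z ∧ mv (Mat a b Gr Gb) θ z < 1 := by
  by_contra hcon
  push Not at hcon
  set M := Mat a b Gr Gb with hMdef
  have hM : ∀ u v, M u v = M v u := Mat_comm a b Gr Gb
  set f := mv M θ with hf
  have hl := h.l_pos ha hb hab
  have hθne : θ ≠ 0 := by
    intro h0
    have h1 := hS s hs
    rw [hf, h0] at h1
    simp [mv] at h1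
  set σ := bil M θ θ with hσ
  have hσpos : 0 < σ := h.pd θ hθne
  have hσsum : σ = ∑ v, θ v := by
    rw [hσ]
    unfold bil
    refine Finset.sum_congr rfl (fun v _ => ?_)
    rw [← hf]
    by_cases hv : v ∈ S
    · rw [hS v hv, mul_one]
    · rw [hθ v hv, zero_mul]
  have hfx : ∑ v, x v * f v = l * σ := by
    have h1 : bil M x θ = ∑ v, x v * f v := rfl
    rw [← h1, bil_comm hM, h.bil_x, hσsum]
  set φ : V → ℝ := fun v => if 0 < f v then 1 else 0 with hφ
  set y : V → ℝ := fun v => φ v * x v with hy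
  set P := bil M y θ with hP
  have hPe : P = ∑ v, φ v * x v * f v := rfl
  have hf1 : ∀ v, 0 < f v → 1 ≤ f v := by
    intro v hv
    by_cases hvS : v ∈ S
    · exact (hS v hvS).ge
    · exact hcon v hvS hv
  have hP1 : l * σ ≤ P := by
    rw [← hfx, hPe]
    refine Finset.sum_le_sum (fun v _ => ?_)
    simp only [hφ]
    split_ifs with hv
    · linarith
    · push Not at hv
      nlinarith [(h.pos v)]
  have hP2 : ∑ v, φ v ^ 2 * x v ≤ P := by
    rw [hPe]
    refine Finset.sum_le_sum (fun v _ => ?_)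
    simp only [hφ]
    split_ifs with hv
    · have := hf1 v hv
      nlinarith [(h.pos v)]
    · simp
  have hyy : bil M y y ≤ l * P :=
    (h.bil_trunc ha hb φ).trans (mul_le_mul_of_nonneg_left hP2 hl.le)
  have hPpos : 0 < P := lt_of_lt_of_le (mul_pos hl hσpos) hP1
  set ζ : V → ℝ := fun v => σ * y v + (-P) * θ v with hζ
  have hζζ : bil M ζ ζ ≤ 0 := by
    rw [hζ, bil_comb_self hM, ← hP, ← hσ]
    have h1 : σ ^ 2 * bil M y y ≤ σ ^ 2 * (l * P) :=
      mul_le_mul_of_nonneg_left hyy (by positivity)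
    have h2 : σ * P * (l * σ) ≤ σ * P * P :=
      mul_le_mul_of_nonneg_left hP1 (by positivity)
    nlinarith
  have hζ0 : ζ = 0 := by
    by_contra hne
    exact absurd (h.pd ζ hne) (not_lt.2 hζζ)
  have h1 := congrFun hζ0 s
  have h2 : φ s = 1 := by
    simp only [hφ]
    rw [if_pos]
    rw [hS s hs]
    exact one_pos
  simp only [hζ, hy, h2, one_mul, Pi.zero_apply] at h1
  have h3 := h.pos s
  nlinarith [mul_pos hσpos h3]

/-- Sharper form: the mass of the values outside `[0,1]` is controlled by the values inside. -/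
theorem Core.lemmaQ_mass (ha : 0 ≤ a) (hb : 0 ≤ b) (hab : 0 < a + b) (h : Core a b Gr Gb x l)
    (S : Finset V) (θ : V → ℝ) (hθ : ∀ v, v ∉ S → θ v = 0)
    (hS : ∀ v ∈ S, mv (Mat a b Gr Gb) θ v = 1) :
    ∑ v, x v * (max (mv (Mat a b Gr Gb) θ v) 0) ^ 2 ≤ ∑ v, x v * mv (Mat a b Gr Gb) θ v := by
  set M := Mat a b Gr Gb with hMdef
  have hM : ∀ u v, M u v = M v u := Mat_comm a b Gr Gb
  set f := mv M θ with hf
  have hl := h.l_pos ha hb hab
  set σ := bil M θ θ with hσ
  have hσ0 : 0 ≤ σ := h.pd' θ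
  have hσsum : σ = ∑ v, θ v := by
    rw [hσ]
    unfold bil
    refine Finset.sum_congr rfl (fun v _ => ?_)
    rw [← hf]
    by_cases hv : v ∈ S
    · rw [hS v hv, mul_one]
    · rw [hθ v hv, zero_mul]
  have hfx : ∑ v, x v * f v = l * σ := by
    have h1 : bil M x θ = ∑ v, x v * f v := rfl
    rw [← h1, bil_comm hM, h.bil_x, hσsum]
  set φ : V → ℝ := fun v => max (f v) 0 with hφ
  set y : V → ℝ := fun v => φ v * x v with hy
  set P := ∑ v, x v * φ v ^ 2 with hP
  have hPe : bil M y θ = P := by
    rw [hP]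
    unfold bil
    refine Finset.sum_congr rfl (fun v _ => ?_)
    change φ v * x v * f v = x v * φ v ^ 2
    rcases le_total (f v) 0 with h1 | h1
    · have : φ v = 0 := max_eq_right h1
      rw [this]
      ring
    · have : φ v = f v := max_eq_left h1
      rw [this]
      ring
  have hyy : bil M y y ≤ l * P := by
    refine (h.bil_trunc ha hb φ).trans (le_of_eq ?_)
    rw [hP]
    congr 1
    exact Finset.sum_congr rfl (fun v _ => mul_comm _ _)
  rw [hfx]
  by_contra hlt
  push Not at hlt
  have hPpos : 0 < P := lt_of_le_of_lt (mul_nonneg hl.le hσ0) hlt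
  have h1 := h.pd' (fun v => σ * y v + (-P) * θ v)
  rw [bil_comb_self hM, hPe, ← hσ] at h1
  have h2 : σ ^ 2 * bil M y y ≤ σ ^ 2 * (l * P) :=
    mul_le_mul_of_nonneg_left hyy (by positivity)
  rcases hσ0.eq_or_lt with h0 | h0
  · -- then `θ = 0`
    have hθ0 : θ = 0 := by
      by_contra hne
      have := h.pd θ hne
      rw [← hσ, ← h0] at this
      exact lt_irrefl _ this
    have hf0 : ∀ v, f v = 0 := by
      intro v
      rw [hf, hθ0]
      simp [mv]
    have : P = 0 := by
      rw [hP]
      refine Finset.sum_eq_zero (fun v _ => ?_)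
      simp [hφ, hf0]
    linarith
  · have h3 : σ * P * (l * σ) < σ * P * P :=
      mul_lt_mul_of_pos_left hlt (by positivity)
    nlinarith

omit [Fintype V] in
theorem Core.Mat_red (hu : ∀ u v : V, u ≠ v → Gr.Adj u v ∨ Gb.Adj u v) {u v : V} (huv : u ≠ v)
    (h : ¬ Gb.Adj u v) : Mat a b Gr Gb u v = b := by
  have := (hu u v huv).resolve_right h
  simp [Mat, this, h]

/-- three points with a nonpositive value of the form -/
theorem mv_three (M : V → V → ℝ) {u w v : V} (huw : u ≠ w) (huv : u ≠ v) (hwv : w ≠ v)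
    (p q r : ℝ) (z : V) :
    mv M (fun s => if s = u then p else if s = w then q else if s = v then r else 0) z =
      p * M z u + q * M z w + r * M z v := by
  unfold mv
  have h1 : ∀ s, M z s * (if s = u then p else if s = w then q else if s = v then r else 0) =
      (if s = u then p * M z u else 0) + (if s = w then q * M z w else 0) +
        (if s = v then r * M z v else 0) := by
    intro s
    by_cases h1 : s = u
    · subst h1
      simp [huw, huv, mul_comm]
    · by_cases h2 : s = w
      · subst h2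
        simp [h1, hwv, mul_comm]
      · by_cases h3 : s = v
        · subst h3
          simp [h1, h2, mul_comm]
        · simp [h1, h2, h3]
  simp_rw [h1]
  rw [Finset.sum_add_distrib, Finset.sum_add_distrib]
  simp

/-- LEMMA P. For `b ≥ 2a` a core has no red-only path `u w v` with `u v` green. -/
theorem Core.lemmaP (ha : 0 < a) (hb : 2 * a ≤ b) (h : Core a b Gr Gb x l) {u w v : V}
    (huw : u ≠ w) (hwv : w ≠ v) (huv : Gr.Adj u v ∧ Gb.Adj u v)
    (h1 : ¬ Gb.Adj u w) (h2 : ¬ Gb.Adj w v) : False := by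
  have hne : u ≠ v := huv.1.ne
  have hcomp := h.complete
  have huw' : Mat a b Gr Gb u w = b := Core.Mat_red hcomp huw h1
  have hwv' : Mat a b Gr Gb w v = b := Core.Mat_red hcomp hwv h2
  have huv' : Mat a b Gr Gb u v = 0 := by simp [Mat, huv.1, huv.2]
  have hwu' : Mat a b Gr Gb w u = b := by rw [Mat_comm]; exact huw'
  have hvw' : Mat a b Gr Gb v w = b := by rw [Mat_comm]; exact hwv'
  have hvu' : Mat a b Gr Gb v u = 0 := by rw [Mat_comm]; exact huv'
  have hbpos : 0 < b := by linarith
  rcases le_or_gt ((a + b) ^ 2) (2 * b ^ 2) with hcase | hcase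
  · -- the minor is not positive
    set y : V → ℝ := fun s => if s = u then b else if s = w then -(a + b) else
      if s = v then b else 0 with hy
    have hy1 : ∀ z, mv (Mat a b Gr Gb) y z = b * Mat a b Gr Gb z u +
        (-(a + b)) * Mat a b Gr Gb z w + b * Mat a b Gr Gb z v :=
      fun z => mv_three _ huw hne hwv _ _ _ z
    have hyne : y ≠ 0 := by
      intro h0
      have := congrFun h0 u
      simp [hy] at this
      linarith
    have h3 := h.pd y hyne
    unfold bil at h3
    have h4 : ∀ g : V → ℝ, ∑ s, y s * g s = b * g u + (-(a + b)) * g w + b * g v := by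
      intro g
      have := mv_three (fun _ s => g s) huw hne hwv b (-(a + b)) b u
      unfold mv at this
      rw [← this]
      exact Finset.sum_congr rfl (fun s _ => mul_comm _ _)
    rw [h4, hy1, hy1, hy1, huw', hwv', huv', hwu', hvw', hvu', Mat_self, Mat_self, Mat_self] at h3
    nlinarith
  · set D := (a + b) ^ 2 - 2 * b ^ 2 with hD
    have hDpos : 0 < D := by linarith
    set θ : V → ℝ := fun s => if s = u then a / D else if s = w then -(b - a) / D else
      if s = v then a / D else 0 with hθ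
    have hθ1 : ∀ z, mv (Mat a b Gr Gb) θ z = a / D * Mat a b Gr Gb z u +
        -(b - a) / D * Mat a b Gr Gb z w + a / D * Mat a b Gr Gb z v :=
      fun z => mv_three _ huw hne hwv _ _ _ z
    have hθ2 : ∀ z, mv (Mat a b Gr Gb) θ z = (a * Mat a b Gr Gb z u -
        (b - a) * Mat a b Gr Gb z w + a * Mat a b Gr Gb z v) / D := by
      intro z
      rw [hθ1]
      ring
    obtain ⟨z, hz, hz1, hz2⟩ := h.lemmaQ ha.le hbpos.le (by linarith) {u, w, v} θ
      (by
        intro s hs
        simp only [mem_insert, mem_singleton, not_or] at hs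
        simp [hθ, hs.1, hs.2.1, hs.2.2])
      (by
        intro s hs
        simp only [mem_insert, mem_singleton] at hs
        rw [hθ2, div_eq_one_iff_eq hDpos.ne']
        rcases hs with rfl | rfl | rfl
        · rw [Mat_self, huw', huv', hD]
          ring
        · rw [Mat_self, hwu', hwv', hD]
          ring
        · rw [Mat_self, hvu', hvw', hD]
          ring)
      (show w ∈ ({u, w, v} : Finset V) by simp)
      (by
        simp only [hθ, huw.symm, if_false, if_true]
        rw [div_le_iff₀ hDpos]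
        linarith)
    rw [hθ2] at hz1 hz2
    rw [div_lt_one hDpos] at hz2
    have hz3 := (div_pos_iff_of_pos_right hDpos).1 hz1
    simp only [mem_insert, mem_singleton, not_or] at hz
    obtain ⟨hzu, hzw, hzv⟩ := hz
    -- the possible patterns
    have hpat : ∀ s, z ≠ s → Mat a b Gr Gb z s = 0 ∨ Mat a b Gr Gb z s = a ∨
        Mat a b Gr Gb z s = b := by
      intro s hs
      rcases hcomp z s hs with h5 | h5
      · by_cases h6 : Gb.Adj z s
        · left
          simp [Mat, h5, h6]
        · right; right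
          simp [Mat, h5, h6]
      · by_cases h6 : Gr.Adj z s
        · left
          simp [Mat, h5, h6]
        · right; left
          simp [Mat, h5, h6]
    have hDe : D = a ^ 2 + 2 * a * b - b ^ 2 := by rw [hD]; ring
    have k1 : 0 ≤ (b - a) * (b - 2 * a) := mul_nonneg (by linarith) (by linarith)
    have k2 : 0 ≤ a * (b - 2 * a) := mul_nonneg ha.le (by linarith)
    have k3 : 0 ≤ b * (b - 2 * a) := mul_nonneg hbpos.le (by linarith)
    have k4 : 0 < a * b := mul_pos ha hbpos
    have k5 : 0 < a * a := mul_pos ha ha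
    rw [hDe] at hz2
    rcases hpat u hzu with e1 | e1 | e1 <;> rcases hpat w hzw with e2 | e2 | e2 <;>
      rcases hpat v hzv with e3 | e3 | e3 <;> rw [e1, e2, e3] at hz3 hz2 <;> linarith

end core

end Pool.Agent.Lib.MP_a05470_co
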