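import Pool.Agent.Lib.MP_a05470_co.Boxes

set_option autoImplicit false

namespace Pool.Agent.Lib.MP_a05470_co

open Finset Classical

section Pack

variable {n : ℕ} {V : Type} {Gr Gb : SimpleGraph (Fin n)} {H : SimpleGraph V}

/-- the vertices in `X` of `H` fit into the box `C` -/
def Loc (H : SimpleGraph V) (Gr Gb : SimpleGraph (Fin n)) (X : Finset V) (C : Finset (Fin n)) :
    Prop :=
  ∃ e : V → Fin n, (∀ x ∈ X, e x ∈ C) ∧ (∀ x ∈ X, ∀ y ∈ X, e x = e y → x = y) ∧
    ∀ x ∈ X, ∀ y ∈ X, (H.Adj x y → Gr.Adj (e x) (e y)) ∧ (Hᶜ.Adj x y → Gb.Adj (e x) (e y))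

/-- the vertices in `X` can be distributed to the boxes in `I` -/
def Packable (H : SimpleGraph V) (Gr Gb : SimpleGraph (Fin n)) (X : Finset V)
    (I : Finset (Finset (Fin n))) : Prop :=
  ∃ g : V → Finset (Fin n), (∀ x ∈ X, g x ∈ I) ∧
    ∀ C ∈ I, Loc H Gr Gb (X.filter (fun x => g x = C)) C

theorem Loc.mono {X Y : Finset V} {C : Finset (Fin n)} (h : Loc H Gr Gb X C) (hY : Y ⊆ X) :
    Loc H Gr Gb Y C := by
  obtain ⟨e, h1, h2, h3⟩ := h
  exact ⟨e, fun x hx => h1 x (hY hx), fun x hx y hy => h2 x (hY hx) y (hY hy),
    fun x hx y hy => h3 x (hY hx) y (hY hy)⟩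

theorem loc_empty {C : Finset (Fin n)} (hC : C.Nonempty) : Loc H Gr Gb ∅ C := by
  obtain ⟨z, _⟩ := hC
  exact ⟨fun _ => z, by simp, by simp, by simp⟩

theorem loc_single {C : Finset (Fin n)} (hC : C.Nonempty) (x : V) : Loc H Gr Gb {x} C := by
  obtain ⟨z, hz⟩ := hC
  refine ⟨fun _ => z, by simpa using hz, ?_, ?_⟩
  · intro a ha b hb _
    rw [Finset.mem_singleton] at ha hb
    exact ha.trans hb.symm
  · intro a ha b hb
    rw [Finset.mem_singleton] at ha hb
    rw [ha, hb]
    exact ⟨fun h => absurd h H.irrefl, fun h => absurd h Hᶜ.irrefl⟩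

/-- a blue pair in a box with a blue pair -/
theorem loc_blue {C : Finset (Fin n)} {p q : Fin n} (hp : p ∈ C) (hq : q ∈ C) (hpq : Gb.Adj p q)
    {u w : V} (huw : Hᶜ.Adj u w) : Loc H Gr Gb {u, w} C := by
  have hne : u ≠ w := Hᶜ.ne_of_adj huw
  have hnH : ¬ H.Adj u w := by
    rw [SimpleGraph.compl_adj] at huw
    exact huw.2
  refine ⟨fun x => if x = u then p else q, ?_, ?_, ?_⟩
  · intro x hx
    rw [Finset.mem_insert, Finset.mem_singleton] at hx
    rcases hx with rfl | rfl
    · simp [hp]
    · simp only [if_neg (Ne.symm hne)]
      exact hq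
  · intro x hx y hy hxy
    rw [Finset.mem_insert, Finset.mem_singleton] at hx hy
    have hpq' : p ≠ q := Gb.ne_of_adj hpq
    rcases hx with rfl | rfl <;> rcases hy with rfl | rfl
    · rfl
    · simp only [if_true, if_neg (Ne.symm hne)] at hxy
      exact absurd hxy hpq'
    · simp only [if_true, if_neg (Ne.symm hne)] at hxy
      exact absurd hxy.symm hpq'
    · rfl
  · intro x hx y hy
    rw [Finset.mem_insert, Finset.mem_singleton] at hx hy
    rcases hx with rfl | rfl <;> rcases hy with rfl | rfl
    · exact ⟨fun h => absurd h H.irrefl, fun h => absurd h Hᶜ.irrefl⟩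
    · refine ⟨fun h => absurd h hnH, fun _ => ?_⟩
      simp only [if_true, if_neg (Ne.symm hne)]
      exact hpq
    · refine ⟨fun h => absurd h.symm hnH, fun _ => ?_⟩
      simp only [if_true, if_neg (Ne.symm hne)]
      exact hpq.symm
    · exact ⟨fun h => absurd h H.irrefl, fun h => absurd h Hᶜ.irrefl⟩

/-- a red clique in a red box -/
theorem loc_red {C : Finset (Fin n)} (hC : ∀ x ∈ C, ∀ y ∈ C, x ≠ y → Gr.Adj x y)
    (hCne : C.Nonempty) {X : Finset V} (hX : ∀ x ∈ X, ∀ y ∈ X, x ≠ y → H.Adj x y)
    (hcard : X.card ≤ C.card) : Loc H Gr Gb X C := by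
  obtain ⟨z, hz⟩ := hCne
  have h1 : Fintype.card X ≤ Fintype.card C := by simpa using hcard
  obtain ⟨e⟩ := Function.Embedding.nonempty_of_card_le h1
  refine ⟨fun x => if hx : x ∈ X then (e ⟨x, hx⟩ : Fin n) else z, ?_, ?_, ?_⟩
  · intro x hx
    simp only [dif_pos hx]
    exact (e ⟨x, hx⟩).2
  · intro x hx y hy hxy
    simp only [dif_pos hx, dif_pos hy] at hxy
    have h2 := e.injective (Subtype.ext hxy)
    exact congrArg Subtype.val h2
  · intro x hx y hy
    simp only [dif_pos hx, dif_pos hy]
    constructor
    · intro h
      have hne : x ≠ y := H.ne_of_adj h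
      apply hC _ (e ⟨x, hx⟩).2 _ (e ⟨y, hy⟩).2
      intro h2
      have h3 := e.injective (Subtype.ext h2)
      exact hne (congrArg Subtype.val h3)
    · intro h
      rw [SimpleGraph.compl_adj] at h
      exact absurd (hX x hx y hy h.1) h.2

theorem packable_box {X : Finset V} {C : Finset (Fin n)} (h : Loc H Gr Gb X C) :
    Packable H Gr Gb X {C} := by
  refine ⟨fun _ => C, fun x _ => Finset.mem_singleton_self C, ?_⟩
  intro D hD
  rw [Finset.mem_singleton] at hD
  subst hD
  exact h.mono (Finset.filter_subset _ _)

theorem Packable.union {X Y : Finset V} {I J : Finset (Finset (Fin n))} (hX : Packable H Gr Gb X I)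
    (hY : Packable H Gr Gb Y J) (hIJ : Disjoint I J) : Packable H Gr Gb (X ∪ Y) (I ∪ J) := by
  obtain ⟨g, hg1, hg2⟩ := hX
  obtain ⟨g', hg1', hg2'⟩ := hY
  refine ⟨fun x => if x ∈ X then g x else g' x, ?_, ?_⟩
  · intro x hx
    rw [Finset.mem_union] at hx ⊢
    by_cases h : x ∈ X
    · simp only [if_pos h]
      exact Or.inl (hg1 x h)
    · simp only [if_neg h]
      exact Or.inr (hg1' x (hx.resolve_left h))
  · intro C hC
    rw [Finset.mem_union] at hC
    rcases hC with hC | hC
    · apply (hg2 C hC).mono
      intro x hx
      rw [Finset.mem_filter] at hx ⊢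
      by_cases h : x ∈ X
      · simp only [if_pos h] at hx
        exact ⟨h, hx.2⟩
      · simp only [if_neg h] at hx
        have h2 := hg1' x ((Finset.mem_union.1 hx.1).resolve_left h)
        rw [hx.2] at h2
        exact absurd h2 (Finset.disjoint_left.1 hIJ hC)
    · apply (hg2' C hC).mono
      intro x hx
      rw [Finset.mem_filter] at hx ⊢
      by_cases h : x ∈ X
      · simp only [if_pos h] at hx
        have h2 := hg1 x h
        rw [hx.2] at h2
        exact absurd hC (Finset.disjoint_left.1 hIJ h2)
      · simp only [if_neg h] at hx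
        exact ⟨(Finset.mem_union.1 hx.1).resolve_left h, hx.2⟩

theorem packable_empty {I : Finset (Finset (Fin n))} (hI : ∀ C ∈ I, C.Nonempty) :
    Packable H Gr Gb ∅ I := by
  by_cases h : ∃ C, C ∈ I
  · obtain ⟨C, _⟩ := h
    refine ⟨fun _ => C, by simp, ?_⟩
    intro D hD
    rw [Finset.filter_empty]
    exact loc_empty (hI D hD)
  · push Not at h
    exact ⟨fun _ => ∅, by simp, fun C hC => absurd hC (h C)⟩

theorem Packable.mono_boxes {X : Finset V} {I J : Finset (Finset (Fin n))}
    (hX : Packable H Gr Gb X I) (hIJ : I ⊆ J) (hJ : ∀ C ∈ J, C.Nonempty) :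
    Packable H Gr Gb X J := by
  have h1 : Packable H Gr Gb (X ∪ ∅) (I ∪ (J \ I)) :=
    hX.union (packable_empty (fun C hC => hJ C (Finset.mem_sdiff.1 hC).1)) Finset.disjoint_sdiff
  rwa [Finset.union_empty, Finset.union_sdiff_of_subset hIJ] at h1

/-- one vertex per box -/
theorem packable_inj {X : Finset V} {I : Finset (Finset (Fin n))} (hI : ∀ C ∈ I, C.Nonempty)
    (hcard : X.card ≤ I.card) : Packable H Gr Gb X I := by
  induction X using Finset.induction_on generalizing I with
  | empty => exact packable_empty hI
  | insert x X hx ih =>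
    rw [Finset.card_insert_of_notMem hx] at hcard
    have hne : I.Nonempty := by
      rw [← Finset.card_pos]
      omega
    obtain ⟨C, hC⟩ := hne
    have h1 : Packable H Gr Gb X (I.erase C) := by
      apply ih (fun D hD => hI D (Finset.mem_of_mem_erase hD))
      rw [Finset.card_erase_of_mem hC]
      omega
    have h2 := (packable_box (loc_single (H := H) (Gr := Gr) (Gb := Gb) (hI C hC) x)).union h1 (by
      rw [Finset.disjoint_singleton_left]
      exact Finset.notMem_erase C I)
    have h3 : ({C} : Finset (Finset (Fin n))) ∪ I.erase C = I := by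
      rw [← Finset.insert_eq, Finset.insert_erase hC]
    rw [h3, ← Finset.insert_eq] at h2
    exact h2

/-- from a distribution to an embedding -/
theorem contains_of_packable [Fintype V] {F : Finset (Finset (Fin n))} (hF : IsFam Gr Gb F)
    (h : Packable H Gr Gb Finset.univ F) : Contains H Hᶜ Gr Gb := by
  obtain ⟨g, hg, hloc⟩ := h
  rcases isEmpty_or_nonempty V with hV | ⟨⟨v0⟩⟩
  · exact ⟨fun x => (hV.false x).elim, fun x => (hV.false x).elim, fun x => (hV.false x).elim⟩
  obtain ⟨z, _⟩ := (hF.1 _ (hg v0 (Finset.mem_univ v0))).1
  have : Nonempty (V → Fin n) := ⟨fun _ => z⟩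
  choose! e he1 he2 he3 using hloc
  have hgx : ∀ x, g x ∈ F := fun x => hg x (Finset.mem_univ x)
  have hmem : ∀ x, x ∈ Finset.univ.filter (fun y => g y = g x) := fun x => by simp
  refine ⟨fun x => e (g x) x, ?_, ?_⟩
  · intro x y hxy
    simp only at hxy
    by_cases hC : g x = g y
    · apply he2 (g x) (hgx x) x (hmem x) y (by simp [hC])
      rw [hxy, hC]
    · exfalso
      have h1 := he1 (g x) (hgx x) x (hmem x)
      have h2 := he1 (g y) (hgx y) y (hmem y)
      rw [hxy] at h1
      exact Finset.disjoint_left.1 (hF.disj _ (hgx x) _ (hgx y) hC) h1 h2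
  · intro x y
    by_cases hC : g x = g y
    · have h1 := he3 (g x) (hgx x) x (hmem x) y (by simp [hC])
      simp only [hC] at h1 ⊢
      exact h1
    · have h1 := he1 (g x) (hgx x) x (hmem x)
      have h2 := he1 (g y) (hgx y) y (hmem y)
      have h3 := hF.2 _ (hgx x) _ (hgx y) hC _ h1 _ h2
      exact ⟨fun _ => h3.1, fun _ => h3.2⟩

/-- packing red cliques into red boxes -/
theorem packable_red {ι : Type} (N : ℕ) : ∀ {I : Finset (Finset (Fin n))}, I.card = N →
    (∀ C ∈ I, C.Nonempty) → (∀ C ∈ I, ∀ x ∈ C, ∀ y ∈ C, x ≠ y → Gr.Adj x y) →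
    ∀ {X : Finset V} {c : V → ι}, (∀ x ∈ X, ∀ y ∈ X, x ≠ y → c x = c y → H.Adj x y) →
    (∀ k : ℕ, 1 ≤ k → ((k : ℤ) - 1) * ((X.image c).card - 1) + X.card ≤
      k * I.card + (I.filter (fun C => k < C.card)).card) → Packable H Gr Gb X I := by
  induction N with
  | zero =>
    intro I hI hne _ X c _ hyp
    have h1 := hyp 1 le_rfl
    have h2 : I = ∅ := Finset.card_eq_zero.1 hI
    subst h2
    simp only [Nat.cast_one, sub_self, zero_mul, zero_add, Finset.card_empty, Finset.filter_empty,
      Nat.cast_zero, mul_zero, add_zero] at h1
    have h3 : X.card = 0 := by omega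
    rw [Finset.card_eq_zero] at h3
    subst h3
    exact packable_empty hne
  | succ N ih =>
    intro I hI hne hred X c hc hyp
    rcases X.eq_empty_or_nonempty with rfl | hX
    · exact packable_empty hne
    have hIne : I.Nonempty := by
      rw [← Finset.card_pos]
      omega
    obtain ⟨C, hC, hCmax⟩ := Finset.exists_max_image I (fun C => C.card) hIne
    obtain ⟨j, hj, hjmax⟩ := Finset.exists_max_image (X.image c)
      (fun j => (X.filter (fun x => c x = j)).card) (hX.image c)
    set A := X.filter (fun x => c x = j) with hA
    set d := C.card with hd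
    have hd1 : 1 ≤ d := Finset.card_pos.2 (hne C hC)
    have hbig : ∀ k, d ≤ k → (I.filter (fun C => k < C.card)).card = 0 := by
      intro k hk
      rw [Finset.card_eq_zero, Finset.filter_eq_empty_iff]
      intro D hD
      have := hCmax D hD
      omega
    have hbig' : ∀ k, d ≤ k → ((I.erase C).filter (fun C => k < C.card)).card = 0 := by
      intro k hk
      rw [Finset.card_eq_zero, Finset.filter_eq_empty_iff]
      intro D hD
      have := hCmax D (Finset.mem_of_mem_erase hD)
      omega
    have hsmall : ∀ k, k < d → (I.filter (fun C => k < C.card)).card =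
        ((I.erase C).filter (fun C => k < C.card)).card + 1 := by
      intro k hk
      have h1 : I.filter (fun C => k < C.card) =
          insert C ((I.erase C).filter (fun C => k < C.card)) := by
        conv_lhs => rw [← Finset.insert_erase hC]
        rw [Finset.filter_insert, if_pos hk]
      rw [h1, Finset.card_insert_of_notMem]
      simp
    have hK1 : 1 ≤ (X.image c).card := Finset.card_pos.2 (hX.image c)
    have hAX : A ⊆ X := Finset.filter_subset _ _
    have hAclique : ∀ x ∈ A, ∀ y ∈ A, x ≠ y → H.Adj x y := by
      intro x hx y hy hxy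
      rw [hA, Finset.mem_filter] at hx hy
      exact hc x hx.1 y hy.1 hxy (hx.2.trans hy.2.symm)
    have hA1 : 1 ≤ A.card := by
      rw [Finset.mem_image] at hj
      obtain ⟨x, hx, hxj⟩ := hj
      exact Finset.card_pos.2 ⟨x, by rw [hA, Finset.mem_filter]; exact ⟨hx, hxj⟩⟩
    have hXle : X.card ≤ (X.image c).card * A.card := by
      have h1 := Finset.card_eq_sum_card_fiberwise (f := c) (s := X) (t := X.image c)
        (fun x hx => Finset.mem_coe.2 (Finset.mem_image_of_mem c hx))
      rw [h1]
      calc ∑ b ∈ X.image c, (X.filter (fun a => c a = b)).card ≤ ∑ b ∈ X.image c, A.card :=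
            Finset.sum_le_sum (fun b hb => hjmax b hb)
        _ = _ := by rw [Finset.sum_const, smul_eq_mul]
    have hXge : ∀ Y : Finset V, (Y.image c).card ≤ Y.card := fun Y => Finset.card_image_le
    have hIe : (I.erase C).card = N := by
      rw [Finset.card_erase_of_mem hC]
      omega
    have hjoin : ∀ A' ⊆ X, Loc H Gr Gb A' C → Packable H Gr Gb (X \ A') (I.erase C) →
        Packable H Gr Gb X I := by
      intro A' hA' h1 h2
      have h3 := (packable_box h1).union h2 (by
        rw [Finset.disjoint_singleton_left]
        exact Finset.notMem_erase C I)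
      have h4 : ({C} : Finset (Finset (Fin n))) ∪ I.erase C = I := by
        rw [← Finset.insert_eq, Finset.insert_erase hC]
      rwa [h4, Finset.union_sdiff_of_subset hA'] at h3
    have hneE : ∀ D ∈ I.erase C, D.Nonempty := fun D hD => hne D (Finset.mem_of_mem_erase hD)
    have hredE : ∀ D ∈ I.erase C, ∀ x ∈ D, ∀ y ∈ D, x ≠ y → Gr.Adj x y :=
      fun D hD => hred D (Finset.mem_of_mem_erase hD)
    rcases Nat.lt_or_ge A.card 2 with hm | hm
    · -- all classes are singletons
      have hA' : A.card = 1 := by omega
      rw [hA', mul_one] at hXle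
      have hXK : X.card = (X.image c).card := le_antisymm hXle (hXge X)
      apply packable_inj hne
      have h1 := hyp d hd1
      rw [hbig d le_rfl, ← hXK] at h1
      push_cast at h1
      by_contra hcon
      push Not at hcon
      have h2 : (I.card : ℤ) + 1 ≤ X.card := by exact_mod_cast hcon
      have h3 : (1 : ℤ) ≤ d := by exact_mod_cast hd1
      nlinarith
    · rcases Nat.lt_or_ge d A.card with hdm | hdm
      · -- the box is filled by a part of the class
        obtain ⟨A', hA'A, hA'card⟩ := Finset.exists_subset_card_eq hdm.le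
        apply hjoin A' (hA'A.trans hAX)
        · apply loc_red (hred C hC) (hne C hC)
          · intro x hx y hy
            exact hAclique x (hA'A hx) y (hA'A hy)
          · omega
        · have himage : (X \ A').image c = X.image c := by
            apply Finset.Subset.antisymm (Finset.image_subset_image Finset.sdiff_subset)
            intro i hi
            rw [Finset.mem_image] at hi ⊢
            obtain ⟨x, hx, rfl⟩ := hi
            by_cases hxA : x ∈ A'
            · have h1 : (A \ A').Nonempty := by
                rw [← Finset.card_pos]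
                have h2 := Finset.card_sdiff_add_card_eq_card hA'A
                omega
              obtain ⟨y, hy⟩ := h1
              rw [Finset.mem_sdiff] at hy
              refine ⟨y, Finset.mem_sdiff.2 ⟨hAX hy.1, hy.2⟩, ?_⟩
              have h2 := hy.1
              have h3 := hA'A hxA
              rw [hA, Finset.mem_filter] at h2 h3
              exact h2.2.trans h3.2.symm
            · exact ⟨x, Finset.mem_sdiff.2 ⟨hx, hxA⟩, rfl⟩
          have hcard : ((X \ A').card : ℤ) = X.card - d := by
            have := Finset.card_sdiff_add_card_eq_card (hA'A.trans hAX)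
            have h2 : ((X \ A').card : ℤ) + A'.card = X.card := by exact_mod_cast this
            rw [hA'card] at h2
            linarith
          apply ih hIe hneE hredE (c := c)
          · intro x hx y hy
            exact hc x (Finset.mem_sdiff.1 hx).1 y (Finset.mem_sdiff.1 hy).1
          · intro k hk
            rw [himage, hcard, Finset.card_erase_of_mem hC]
            have hIcast : ((I.card - 1 : ℕ) : ℤ) = (I.card : ℤ) - 1 := by
              have : 1 ≤ I.card := by omega
              push_cast [this]
              ring
            rw [hIcast]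
            rcases Nat.lt_or_ge k d with hkd | hkd
            · have h1 := hyp k hk
              rw [hsmall k hkd] at h1
              push_cast at h1
              have h2 : (k : ℤ) + 1 ≤ d := by exact_mod_cast hkd
              linarith
            · rw [hbig' k hkd]
              have h1 := hyp d hd1
              rw [hbig d le_rfl] at h1
              have h2 : ((X.image c).card : ℤ) ≤ X.card - d := by
                rw [← hcard, ← himage]
                exact_mod_cast hXge (X \ A')
              have h3 : (1 : ℤ) ≤ d := by exact_mod_cast hd1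
              have h4 : (1 : ℤ) ≤ (X.image c).card := by exact_mod_cast hK1
              have h5 : ((X.image c).card : ℤ) ≤ (I.card : ℤ) - 1 := by
                by_contra hcon
                push Not at hcon
                push_cast at h1
                have h6 : (I.card : ℤ) ≤ (X.image c).card := by linarith
                nlinarith
              have h7 : (d : ℤ) ≤ k := by exact_mod_cast hkd
              push_cast at h1 ⊢
              nlinarith
      · -- the class fits into the box
        apply hjoin A hAX
        · exact loc_red (hred C hC) (hne C hC) hAclique hdm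
        · have himage : ((X \ A).image c) = (X.image c).erase j := by
            ext i
            rw [Finset.mem_erase, Finset.mem_image, Finset.mem_image]
            constructor
            · rintro ⟨x, hx, rfl⟩
              rw [Finset.mem_sdiff, hA, Finset.mem_filter] at hx
              exact ⟨fun h => hx.2 ⟨hx.1, h⟩, x, hx.1, rfl⟩
            · rintro ⟨h1, x, hx, rfl⟩
              refine ⟨x, ?_, rfl⟩
              rw [Finset.mem_sdiff, hA, Finset.mem_filter]
              exact ⟨hx, fun h => h1 h.2⟩
          have hcard : ((X \ A).card : ℤ) = X.card - A.card := by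
            have := Finset.card_sdiff_add_card_eq_card hAX
            have h2 : ((X \ A).card : ℤ) + A.card = X.card := by exact_mod_cast this
            linarith
          have hcard' : ((((X.image c).erase j).card : ℕ) : ℤ) = (X.image c).card - 1 := by
            rw [Finset.card_erase_of_mem hj]
            push_cast [hK1]
            ring
          apply ih hIe hneE hredE (c := c)
          · intro x hx y hy
            exact hc x (Finset.mem_sdiff.1 hx).1 y (Finset.mem_sdiff.1 hy).1
          · intro k hk
            rw [himage, hcard, hcard', Finset.card_erase_of_mem hC]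
            have hIcast : ((I.card - 1 : ℕ) : ℤ) = (I.card : ℤ) - 1 := by
              have : 1 ≤ I.card := by omega
              push_cast [this]
              ring
            rw [hIcast]
            have hm' : (2 : ℤ) ≤ A.card := by exact_mod_cast hm
            have h1 := hyp k hk
            rcases Nat.lt_or_ge k d with hkd | hkd
            · rw [hsmall k hkd] at h1
              push_cast at h1 ⊢
              linarith
            · rw [hbig' k hkd]
              rw [hbig k hkd] at h1
              push_cast at h1 ⊢
              linarith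

end Pack

end Pool.Agent.Lib.MP_a05470_co
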