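import Pool.Agent.Lib.MP_a05470_co.Pack

set_option autoImplicit false

namespace Pool.Agent.Lib.MP_a05470_co

open Finset Classical

section Mat

variable {V : Type}

/-- `T` is a set of disjoint edges of `B` inside `X` -/
def IsMat (B : SimpleGraph V) (X : Finset V) (T : Finset (Finset V)) : Prop :=
  (∀ e ∈ T, ∃ x ∈ X, ∃ y ∈ X, B.Adj x y ∧ e = {x, y}) ∧ ∀ e ∈ T, ∀ f ∈ T, e ≠ f → Disjoint e f

/-- `B` has `b` disjoint edges inside `X` -/
def HasMat (B : SimpleGraph V) (X : Finset V) (b : ℕ) : Prop :=
  ∃ T, IsMat B X T ∧ T.card = b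

variable {B : SimpleGraph V} {X : Finset V} {T : Finset (Finset V)} {b : ℕ}

theorem IsMat.sub (h : IsMat B X T) {T' : Finset (Finset V)} (hT : T' ⊆ T) : IsMat B X T' :=
  ⟨fun e he => h.1 e (hT he), fun e he f hf => h.2 e (hT he) f (hT hf)⟩

theorem HasMat.mono {b' : ℕ} (h : HasMat B X b') (hb : b ≤ b') : HasMat B X b := by
  obtain ⟨T, hT, hc⟩ := h
  obtain ⟨T', hT', hc'⟩ := Finset.exists_subset_card_eq (hb.trans_eq hc.symm)
  exact ⟨T', hT.sub hT', hc'⟩

theorem IsMat.card_edge (h : IsMat B X T) : ∀ e ∈ T, e.card = 2 := by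
  intro e he
  obtain ⟨x, _, y, _, hxy, rfl⟩ := h.1 e he
  exact Finset.card_pair (B.ne_of_adj hxy)

theorem IsMat.card_biUnion (h : IsMat B X T) : (T.biUnion id).card = 2 * T.card := by
  have h1 : (T.biUnion id).card = ∑ e ∈ T, (id e).card :=
    Finset.card_biUnion (fun e he f hf hef => h.2 e he f hf hef)
  have h2 : ∑ e ∈ T, (id e).card = ∑ e ∈ T, 2 :=
    Finset.sum_congr rfl (fun e he => h.card_edge e he)
  rw [h1, h2, Finset.sum_const, smul_eq_mul, mul_comm]

theorem IsMat.biUnion_subset (h : IsMat B X T) : T.biUnion id ⊆ X := by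
  intro z hz
  rw [Finset.mem_biUnion] at hz
  obtain ⟨e, he, hz⟩ := hz
  obtain ⟨x, hx, y, hy, _, rfl⟩ := h.1 e he
  rw [id, Finset.mem_insert, Finset.mem_singleton] at hz
  rcases hz with rfl | rfl
  · exact hx
  · exact hy

theorem HasMat.two_mul_le (h : HasMat B X b) : 2 * b ≤ X.card := by
  obtain ⟨T, hT, rfl⟩ := h
  rw [← hT.card_biUnion]
  exact Finset.card_le_card hT.biUnion_subset

/-- edges avoiding `u` and `w` -/
theorem IsMat.avoid (h : IsMat B X T) {Y : Finset V} (hY : ∀ e ∈ T, Disjoint e Y) :
    IsMat B (X \ Y) T := by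
  refine ⟨?_, h.2⟩
  intro e he
  obtain ⟨x, hx, y, hy, hxy, rfl⟩ := h.1 e he
  have h1 := Finset.disjoint_left.1 (hY _ he)
  exact ⟨x, Finset.mem_sdiff.2 ⟨hx, h1 (by simp)⟩, y, Finset.mem_sdiff.2 ⟨hy, h1 (by simp)⟩, hxy, rfl⟩

/-- removing an edge of the matching -/
theorem IsMat.erase_edge (h : IsMat B X T) {e : Finset V} (he : e ∈ T) :
    IsMat B (X \ e) (T.erase e) := by
  apply (h.sub (Finset.erase_subset e T)).avoid
  intro f hf
  rw [Finset.mem_erase] at hf
  exact h.2 f hf.2 e he hf.1

/-- removing an uncovered vertex `u` and any vertex `x` -/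
theorem IsMat.remove_pair (h : IsMat B X T) (hT : T.card = b + 1) {u x : V}
    (hu : ∀ e ∈ T, u ∉ e) : HasMat B (X \ {u, x}) b := by
  by_cases hx : ∃ e ∈ T, x ∈ e
  · obtain ⟨e, he, hxe⟩ := hx
    refine ⟨T.erase e, ?_, ?_⟩
    · apply (h.sub (Finset.erase_subset e T)).avoid
      intro f hf
      rw [Finset.mem_erase] at hf
      rw [Finset.disjoint_right]
      intro z hz
      rw [Finset.mem_insert, Finset.mem_singleton] at hz
      rcases hz with rfl | rfl
      · exact hu f hf.2
      · exact Finset.disjoint_right.1 (h.2 f hf.2 e he hf.1) hxe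
    · rw [Finset.card_erase_of_mem he]
      omega
  · push Not at hx
    apply HasMat.mono (b' := b + 1) _ (by omega)
    refine ⟨T, h.avoid ?_, hT⟩
    intro f hf
    rw [Finset.disjoint_right]
    intro z hz
    rw [Finset.mem_insert, Finset.mem_singleton] at hz
    rcases hz with rfl | rfl
    · exact hu f hf
    · exact hx f hf

/-- a class which is a singleton -/
theorem exists_singleton_class {ι : Type} {X : Finset V} {c : V → ι} {s : ℕ}
    (hX : X.card < 2 * (s + 1)) (hK : (X.image c).card = s + 1) :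
    ∃ u ∈ X, ∀ y ∈ X, c y = c u → y = u := by
  by_contra hcon
  push Not at hcon
  have h1 := Finset.card_eq_sum_card_fiberwise (f := c) (s := X) (t := X.image c)
    (fun x hx => Finset.mem_coe.2 (Finset.mem_image_of_mem c hx))
  have h2 : ∑ b ∈ X.image c, 2 ≤ ∑ b ∈ X.image c, (X.filter (fun a => c a = b)).card := by
    apply Finset.sum_le_sum
    intro j hj
    rw [Finset.mem_image] at hj
    obtain ⟨u, hu, rfl⟩ := hj
    obtain ⟨y, hy, hyu, hne⟩ := hcon u hu
    have h3 : ({u, y} : Finset V) ⊆ X.filter (fun a => c a = c u) := by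
      intro z hz
      rw [Finset.mem_insert, Finset.mem_singleton] at hz
      rw [Finset.mem_filter]
      rcases hz with rfl | rfl
      · exact ⟨hu, rfl⟩
      · exact ⟨hy, hyu⟩
    have h4 := Finset.card_le_card h3
    rwa [Finset.card_pair (Ne.symm hne)] at h4
  rw [← h1, Finset.sum_const, smul_eq_mul, hK] at h2
  omega

/-- the classes of a colouring are cliques -/
def CliqueCol {ι : Type} (H : SimpleGraph V) (X : Finset V) (c : V → ι) : Prop :=
  ∀ x ∈ X, ∀ y ∈ X, x ≠ y → c x = c y → H.Adj x y

theorem CliqueCol.sub {ι : Type} {H : SimpleGraph V} {X Y : Finset V} {c : V → ι}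
    (h : CliqueCol H X c) (hY : Y ⊆ X) : CliqueCol H Y c :=
  fun x hx y hy => h x (hY hx) y (hY hy)

/-- peeling off a pair of the other colour, so that the number of classes drops -/
theorem peel_step {ι : Type} {H : SimpleGraph V} {X : Finset V} {c : V → ι} {s b : ℕ}
    (hc : CliqueCol H X c) (hX : X.card < 2 * (s + 1)) (hK : (X.image c).card ≤ s + 1)
    (hM : HasMat Hᶜ X (b + 1)) :
    ∃ u ∈ X, ∃ w ∈ X, Hᶜ.Adj u w ∧ ∃ c' : V → ι, CliqueCol H (X \ {u, w}) c' ∧
      ((X \ {u, w}).image c').card ≤ s ∧ HasMat Hᶜ (X \ {u, w}) b := by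
  have hX2 := hM.two_mul_le
  obtain ⟨T, hT, hTc⟩ := hM
  have hTne : T.Nonempty := by
    rw [← Finset.card_pos]
    omega
  rcases Nat.lt_or_ge (X.image c).card (s + 1) with hK' | hK'
  · obtain ⟨e, he⟩ := hTne
    obtain ⟨x, hx, y, hy, hxy, rfl⟩ := hT.1 e he
    refine ⟨x, hx, y, hy, hxy, c, hc.sub Finset.sdiff_subset, ?_, T.erase {x, y},
      hT.erase_edge he, ?_⟩
    · have := Finset.card_le_card (Finset.image_subset_image (f := c)
        (Finset.sdiff_subset : X \ {x, y} ⊆ X))
      omega
    · rw [Finset.card_erase_of_mem he]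
      omega
  · have hKe : (X.image c).card = s + 1 := le_antisymm hK hK'
    obtain ⟨u, hu, hsing⟩ := exists_singleton_class hX hKe
    have himage : ∀ w, ((X \ {u, w}).image c).card ≤ s := by
      intro w
      have h1 : (X \ {u, w}).image c ⊆ (X.image c).erase (c u) := by
        intro j hj
        rw [Finset.mem_image] at hj
        obtain ⟨z, hz, rfl⟩ := hj
        rw [Finset.mem_sdiff, Finset.mem_insert, Finset.mem_singleton] at hz
        rw [Finset.mem_erase]
        refine ⟨fun h => hz.2 (Or.inl (hsing z hz.1 h)), Finset.mem_image_of_mem c hz.1⟩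
      have h2 := Finset.card_le_card h1
      rw [Finset.card_erase_of_mem (Finset.mem_image_of_mem c hu)] at h2
      omega
    by_cases hcov : ∃ e ∈ T, u ∈ e
    · obtain ⟨e, he, hue⟩ := hcov
      obtain ⟨x, hx, y, hy, hxy, rfl⟩ := hT.1 e he
      have hcard : (T.erase {x, y}).card = b := by
        rw [Finset.card_erase_of_mem he]
        omega
      rw [Finset.mem_insert, Finset.mem_singleton] at hue
      rcases hue with rfl | rfl
      · exact ⟨u, hu, y, hy, hxy, c, hc.sub Finset.sdiff_subset, himage y, T.erase {u, y},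
          hT.erase_edge he, hcard⟩
      · refine ⟨u, hu, x, hx, hxy.symm, c, hc.sub Finset.sdiff_subset, himage x, T.erase {x, u},
          ?_, hcard⟩
        have := hT.erase_edge he
        rwa [Finset.pair_comm u x]
    · push Not at hcov
      by_cases hnb : ∃ x ∈ X, Hᶜ.Adj u x
      · obtain ⟨x, hx, hux⟩ := hnb
        exact ⟨u, hu, x, hx, hux, c, hc.sub Finset.sdiff_subset, himage x,
          hT.remove_pair hTc hcov⟩
      · push Not at hnb
        have hred : ∀ x ∈ X, x ≠ u → H.Adj u x := by
          intro x hx hxu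
          by_contra h
          exact hnb x hx (by rw [SimpleGraph.compl_adj]; exact ⟨Ne.symm hxu, h⟩)
        obtain ⟨e, he⟩ := hTne
        have hue := hcov e he
        obtain ⟨x, hx, y, hy, hxy, rfl⟩ := hT.1 e he
        have hcard : (T.erase {x, y}).card = b := by
          rw [Finset.card_erase_of_mem he]
          omega
        by_cases hz : ∃ z ∈ X \ {x, y}, z ≠ u
        · obtain ⟨z, hz, hzu⟩ := hz
          refine ⟨x, hx, y, hy, hxy, Function.update c u (c z), ?_, ?_, T.erase {x, y},
            hT.erase_edge he, hcard⟩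
          · intro p hp q hq hpq hcpq
            have hpX := (Finset.mem_sdiff.1 hp).1
            have hqX := (Finset.mem_sdiff.1 hq).1
            by_cases hpu : p = u
            · rw [hpu]
              exact hred q hqX (fun h => hpq (hpu.trans h.symm))
            · by_cases hqu : q = u
              · rw [hqu]
                exact (hred p hpX hpu).symm
              · rw [Function.update_of_ne hpu, Function.update_of_ne hqu] at hcpq
                exact hc p hpX q hqX hpq hcpq
          · have h1 : (X \ {x, y}).image (Function.update c u (c z)) ⊆ (X.image c).erase (c u) := by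
              intro j hj
              rw [Finset.mem_image] at hj
              obtain ⟨q, hq, rfl⟩ := hj
              have hqX := (Finset.mem_sdiff.1 hq).1
              have hzX := (Finset.mem_sdiff.1 hz).1
              rw [Finset.mem_erase]
              by_cases hqu : q = u
              · rw [hqu, Function.update_self]
                exact ⟨fun h => hzu (hsing z hzX h), Finset.mem_image_of_mem c hzX⟩
              · rw [Function.update_of_ne hqu]
                exact ⟨fun h => hqu (hsing q hqX h), Finset.mem_image_of_mem c hqX⟩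
            have h2 := Finset.card_le_card h1
            rw [Finset.card_erase_of_mem (Finset.mem_image_of_mem c hu)] at h2
            omega
        · push Not at hz
          refine ⟨x, hx, y, hy, hxy, c, hc.sub Finset.sdiff_subset, ?_, T.erase {x, y},
            hT.erase_edge he, hcard⟩
          have h1 : X \ {x, y} ⊆ {u} := by
            intro q hq
            rw [Finset.mem_singleton]
            exact hz q hq
          have h2 := Finset.card_le_card (Finset.image_subset_image (f := c) h1)
          rw [Finset.image_singleton, Finset.card_singleton] at h2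
          have hs : 1 ≤ s := by
            have h3 : ({x, y} : Finset V) ⊆ X.erase u := by
              intro q hq
              rw [Finset.mem_insert, Finset.mem_singleton] at hq
              rw [Finset.mem_erase]
              constructor
              · intro h
                subst h
                exact hue (by rw [Finset.mem_insert, Finset.mem_singleton]; exact hq)
              · rcases hq with rfl | rfl
                · exact hx
                · exact hy
            have h4 := Finset.card_le_card h3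
            rw [Finset.card_pair (Hᶜ.ne_of_adj hxy), Finset.card_erase_of_mem hu] at h4
            omega
          omega

end Mat

section Peel

variable {n : ℕ} {V : Type} {Gr Gb : SimpleGraph (Fin n)} {H : SimpleGraph V}

theorem card_sdiff_pair {X : Finset V} {u w : V} (hu : u ∈ X) (hw : w ∈ X) (huw : u ≠ w) :
    (X \ {u, w}).card + 2 = X.card := by
  have h1 : ({u, w} : Finset V) ⊆ X := by
    intro q hq
    rw [Finset.mem_insert, Finset.mem_singleton] at hq
    rcases hq with rfl | rfl
    · exact hu
    · exact hw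
  have h2 := Finset.card_sdiff_add_card_eq_card h1
  rwa [Finset.card_pair huw] at h2

/-- boxes with a blue pair take blue pairs, the others are red boxes -/
theorem packable_peel {ι : Type} (b : ℕ) : ∀ {Ib Ir : Finset (Finset (Fin n))}, Ib.card = b →
    (∀ C ∈ Ib ∪ Ir, C.Nonempty) → (∀ C ∈ Ib, ∃ p ∈ C, ∃ q ∈ C, Gb.Adj p q) →
    (∀ C ∈ Ir, ∀ x ∈ C, ∀ y ∈ C, x ≠ y → Gr.Adj x y) → Disjoint Ib Ir →
    ∀ {X : Finset V} {c : V → ι} {s : ℕ}, CliqueCol H X c → X.card ≤ 2 * s + 1 →
    (X.image c).card ≤ s + 1 → HasMat Hᶜ X b →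
    (∀ k : ℕ, 1 ≤ k → ((s : ℤ) - b) * (k + 1) + 1 ≤
      k * Ir.card + (Ir.filter (fun C => k < C.card)).card) → Packable H Gr Gb X (Ib ∪ Ir) := by
  induction b with
  | zero =>
    intro Ib Ir hIb hne _ hIr _ X c s hc hX hK _ hyp
    rw [Finset.card_eq_zero] at hIb
    subst hIb
    rw [Finset.empty_union] at hne ⊢
    apply packable_red Ir.card rfl hne hIr hc
    intro k hk
    have h1 := hyp k hk
    have h2 : ((X.image c).card : ℤ) ≤ s + 1 := by exact_mod_cast hK
    have h3 : (X.card : ℤ) ≤ 2 * s + 1 := by exact_mod_cast hX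
    have h4 : (1 : ℤ) ≤ k := by exact_mod_cast hk
    push_cast at h1
    nlinarith
  | succ b ih =>
    intro Ib Ir hIb hne hblue hIr hdisj X c s hc hX hK hM hyp
    have hIbne : Ib.Nonempty := by
      rw [← Finset.card_pos]
      omega
    obtain ⟨C, hC⟩ := hIbne
    obtain ⟨u, hu, w, hw, huw, c', hc', hK', hM'⟩ := peel_step hc (by omega) hK hM
    have hcard := card_sdiff_pair hu hw (Hᶜ.ne_of_adj huw)
    have hX2 := hM.two_mul_le
    obtain ⟨s, rfl⟩ : ∃ s', s = s' + 1 := ⟨s - 1, by omega⟩
    have g1 : ∀ D ∈ Ib.erase C ∪ Ir, D.Nonempty := by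
      intro D hD
      apply hne
      rw [Finset.mem_union] at hD ⊢
      exact hD.imp Finset.mem_of_mem_erase id
    have g2 : ∀ k : ℕ, 1 ≤ k → ((s : ℤ) - b) * (k + 1) + 1 ≤
        k * Ir.card + (Ir.filter (fun C => k < C.card)).card := by
      intro k hk
      have := hyp k hk
      push_cast at this ⊢
      linarith
    have h1 : Packable H Gr Gb (X \ {u, w}) (Ib.erase C ∪ Ir) :=
      ih (by rw [Finset.card_erase_of_mem hC]; omega) g1
        (fun D hD => hblue D (Finset.mem_of_mem_erase hD)) hIr
        (hdisj.mono_left (Finset.erase_subset C Ib)) hc' (by omega) hK' hM' g2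
    obtain ⟨p, hp, q, hq, hpq⟩ := hblue C hC
    have h2 := (packable_box (loc_blue (Gr := Gr) hp hq hpq huw)).union h1 (by
      rw [Finset.disjoint_singleton_left, Finset.mem_union]
      rintro (h | h)
      · exact Finset.notMem_erase C Ib h
      · exact Finset.disjoint_left.1 hdisj hC h)
    have h3 : ({C} : Finset (Finset (Fin n))) ∪ (Ib.erase C ∪ Ir) = Ib ∪ Ir := by
      rw [← Finset.union_assoc, ← Finset.insert_eq, Finset.insert_erase hC]
    have h4 : ({u, w} : Finset V) ∪ (X \ {u, w}) = X := by
      apply Finset.union_sdiff_of_subset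
      intro z hz
      rw [Finset.mem_insert, Finset.mem_singleton] at hz
      rcases hz with rfl | rfl
      · exact hu
      · exact hw
    rwa [h3, h4] at h2

theorem Loc.swap {X : Finset V} {C : Finset (Fin n)} (h : Loc H Gr Gb X C) :
    Loc Hᶜ Gb Gr X C := by
  obtain ⟨e, h1, h2, h3⟩ := h
  refine ⟨e, h1, h2, fun x hx y hy => ⟨(h3 x hx y hy).2, ?_⟩⟩
  rw [compl_compl]
  exact (h3 x hx y hy).1

theorem Packable.swap {X : Finset V} {I : Finset (Finset (Fin n))} (h : Packable H Gr Gb X I) :
    Packable Hᶜ Gb Gr X I := by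
  obtain ⟨g, h1, h2⟩ := h
  exact ⟨g, h1, fun C hC => (h2 C hC).swap⟩

/-- disjoint sets, one for each box -/
theorem packable_sets (t : ℕ) : ∀ {T : Finset (Finset V)} {I : Finset (Finset (Fin n))},
    T.card = t → T.card ≤ I.card → (∀ C ∈ I, C.Nonempty) → (∀ e ∈ T, ∀ C ∈ I, Loc H Gr Gb e C) →
    Packable H Gr Gb (T.biUnion id) I := by
  induction t with
  | zero =>
    intro T I hT _ hne _
    rw [Finset.card_eq_zero] at hT
    subst hT
    rw [Finset.biUnion_empty]
    exact packable_empty hne
  | succ t ih =>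
    intro T I hT hTI hne hloc
    have h1 : T.Nonempty := by
      rw [← Finset.card_pos]
      omega
    obtain ⟨e, he⟩ := h1
    have h2 : I.Nonempty := by
      rw [← Finset.card_pos]
      omega
    obtain ⟨C, hC⟩ := h2
    have h3 : Packable H Gr Gb ((T.erase e).biUnion id) (I.erase C) := by
      apply ih
      · rw [Finset.card_erase_of_mem he]
        omega
      · rw [Finset.card_erase_of_mem he, Finset.card_erase_of_mem hC]
        omega
      · exact fun D hD => hne D (Finset.mem_of_mem_erase hD)
      · exact fun f hf D hD => hloc f (Finset.mem_of_mem_erase hf) D (Finset.mem_of_mem_erase hD)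
    have h4 := (packable_box (hloc e he C hC)).union h3 (by
      rw [Finset.disjoint_singleton_left]
      exact Finset.notMem_erase C I)
    have h5 : ({C} : Finset (Finset (Fin n))) ∪ I.erase C = I := by
      rw [← Finset.insert_eq, Finset.insert_erase hC]
    have h6 : e ∪ (T.erase e).biUnion id = T.biUnion id := by
      conv_rhs => rw [← Finset.insert_erase he]
      rw [Finset.biUnion_insert]
      rfl
    rwa [h5, h6] at h4

theorem exists_split {α : Type} [DecidableEq α] {A B : Finset α} {i j : ℕ} (hi : i ≤ A.card) (hj : j ≤ B.card)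
    (hij : i + j ≤ (A ∪ B).card) :
    ∃ A' ⊆ A, ∃ B' ⊆ B, Disjoint A' B' ∧ A'.card = i ∧ B'.card = j := by
  rcases Nat.le_total i (A \ B).card with h | h
  · obtain ⟨A', hA', hA'c⟩ := Finset.exists_subset_card_eq h
    obtain ⟨B', hB', hB'c⟩ := Finset.exists_subset_card_eq hj
    refine ⟨A', hA'.trans Finset.sdiff_subset, B', hB', ?_, hA'c, hB'c⟩
    exact Finset.disjoint_of_subset_left hA' (Finset.disjoint_of_subset_right hB'
      Finset.sdiff_disjoint)
  · obtain ⟨A', h1, h2, h3⟩ := Finset.exists_subsuperset_card_eq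
      (Finset.sdiff_subset : A \ B ⊆ A) h hi
    have h4 : (A ∪ B) \ A' ⊆ B \ A' := by
      intro x hx
      rw [Finset.mem_sdiff, Finset.mem_union] at hx
      rw [Finset.mem_sdiff]
      refine ⟨?_, hx.2⟩
      rcases hx.1 with hx1 | hx1
      · by_contra hxB
        exact hx.2 (h1 (Finset.mem_sdiff.2 ⟨hx1, hxB⟩))
      · exact hx1
    have h5 := Finset.card_le_card h4
    have h6 : ((A ∪ B) \ A').card + A'.card = (A ∪ B).card :=
      Finset.card_sdiff_add_card_eq_card (h2.trans Finset.subset_union_left)
    obtain ⟨B', hB', hB'c⟩ := Finset.exists_subset_card_eq (show j ≤ (B \ A').card by omega)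
    refine ⟨A', h2, B', hB'.trans Finset.sdiff_subset, ?_, h3, hB'c⟩
    exact Finset.disjoint_of_subset_right hB' Finset.disjoint_sdiff

/-- boxes of the family with a pair of the second colour -/
noncomputable def boxesOf (G : SimpleGraph (Fin n)) (F : Finset (Finset (Fin n))) :
    Finset (Finset (Fin n)) :=
  F.filter (fun C => ∃ p ∈ C, ∃ q ∈ C, G.Adj p q)

theorem boxesOf_subset (G : SimpleGraph (Fin n)) (F : Finset (Finset (Fin n))) :
    boxesOf G F ⊆ F := Finset.filter_subset _ _

theorem large_subset {F : Finset (Finset (Fin n))} (hF : IsFam Gr Gb F) :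
    F.filter (fun C => 1 < C.card) ⊆ boxesOf Gb F ∪ boxesOf Gr F := by
  intro C hC
  rw [Finset.mem_filter] at hC
  obtain ⟨p, hp, q, hq, hpq⟩ := Finset.one_lt_card.1 hC.2
  unfold boxesOf
  rw [Finset.mem_union, Finset.mem_filter, Finset.mem_filter]
  by_cases h : Gb.Adj p q
  · exact Or.inl ⟨hC.1, p, hp, q, hq, h⟩
  · exact Or.inr ⟨hC.1, p, hp, q, hq, ((hF.1 C hC.1).2 p hp q hq hpq).2 h⟩

/-- embedding by pairs and single vertices -/
theorem packable_pairs [Fintype V] {F : Finset (Finset (Fin n))} (hF : IsFam Gr Gb F)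
    {Tb Tr : Finset (Finset V)} (hTb : IsMat Hᶜ Finset.univ Tb) (hTr : IsMat H Finset.univ Tr)
    (hdisj : ∀ e ∈ Tb, ∀ f ∈ Tr, Disjoint e f) (h1 : Tb.card ≤ (boxesOf Gb F).card)
    (h2 : Tr.card ≤ (boxesOf Gr F).card)
    (h3 : Tb.card + Tr.card ≤ (F.filter (fun C => 1 < C.card)).card)
    (h4 : Fintype.card V ≤ F.card + Tb.card + Tr.card) : Packable H Gr Gb Finset.univ F := by
  have hne : ∀ C ∈ F, C.Nonempty := fun C hC => (hF.1 C hC).1
  obtain ⟨B, hB, R, hR, hBR, hBc, hRc⟩ := exists_split h1 h2
    (h3.trans (Finset.card_le_card (large_subset hF)))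
  have hBF : B ⊆ F := hB.trans (boxesOf_subset _ _)
  have hRF : R ⊆ F := hR.trans (boxesOf_subset _ _)
  have p1 : Packable H Gr Gb (Tb.biUnion id) B := by
    apply packable_sets _ rfl hBc.ge (fun C hC => hne C (hBF hC))
    intro e he C hC
    have hC' := hB hC
    unfold boxesOf at hC'
    rw [Finset.mem_filter] at hC'
    obtain ⟨p, hp, q, hq, hpq⟩ := hC'.2
    obtain ⟨x, _, y, _, hxy, rfl⟩ := hTb.1 e he
    exact loc_blue hp hq hpq hxy
  have p2 : Packable H Gr Gb (Tr.biUnion id) R := by
    apply packable_sets _ rfl hRc.ge (fun C hC => hne C (hRF hC))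
    intro e he C hC
    have hC' := hR hC
    unfold boxesOf at hC'
    rw [Finset.mem_filter] at hC'
    obtain ⟨p, hp, q, hq, hpq⟩ := hC'.2
    obtain ⟨x, _, y, _, hxy, rfl⟩ := hTr.1 e he
    have h5 := loc_blue (H := Hᶜ) (Gr := Gb) (Gb := Gr) hp hq hpq (u := x) (w := y)
      (by rwa [compl_compl])
    have h6 := h5.swap
    rwa [compl_compl] at h6
  have hcardb := hTb.card_biUnion
  have hcardr := hTr.card_biUnion
  have hdd : Disjoint (Tb.biUnion id) (Tr.biUnion id) := by
    rw [Finset.disjoint_biUnion_left]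
    intro e he
    rw [Finset.disjoint_biUnion_right]
    intro f hf
    exact hdisj e he f hf
  have p3 : Packable H Gr Gb (Finset.univ \ (Tb.biUnion id ∪ Tr.biUnion id)) (F \ (B ∪ R)) := by
    apply packable_inj (fun C hC => hne C (Finset.mem_sdiff.1 hC).1)
    have h5 : (Finset.univ \ (Tb.biUnion id ∪ Tr.biUnion id)).card +
        (Tb.biUnion id ∪ Tr.biUnion id).card = (Finset.univ : Finset V).card :=
      Finset.card_sdiff_add_card_eq_card (Finset.subset_univ _)
    rw [Finset.card_union_of_disjoint hdd, Finset.card_univ] at h5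
    have h6 : (F \ (B ∪ R)).card + (B ∪ R).card = F.card :=
      Finset.card_sdiff_add_card_eq_card (Finset.union_subset hBF hRF)
    rw [Finset.card_union_of_disjoint hBR] at h6
    omega
  have p4 := (p1.union p2 hBR).union p3 Finset.disjoint_sdiff
  rwa [Finset.union_sdiff_of_subset (Finset.subset_univ _),
    Finset.union_sdiff_of_subset (Finset.union_subset hBF hRF)] at p4

/-- any number of disjoint pairs -/
theorem exists_pairs (t : ℕ) : ∀ {X : Finset V}, 2 * t ≤ X.card → HasMat (⊤ : SimpleGraph V) X t := by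
  induction t with
  | zero =>
    intro X _
    exact ⟨∅, ⟨by simp, by simp⟩, rfl⟩
  | succ t ih =>
    intro X hX
    obtain ⟨x, hx, y, hy, hxy⟩ := Finset.one_lt_card.1 (show 1 < X.card by omega)
    have hcard := card_sdiff_pair hx hy hxy
    obtain ⟨T, hT, hTc⟩ := ih (X := X \ {x, y}) (by omega)
    have hnot : ({x, y} : Finset V) ∉ T := by
      intro h
      have h1 := hT.biUnion_subset
      have h2 : x ∈ T.biUnion id := by
        rw [Finset.mem_biUnion]
        exact ⟨{x, y}, h, by simp⟩
      have h3 := h1 h2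
      rw [Finset.mem_sdiff] at h3
      exact h3.2 (by simp)
    refine ⟨insert {x, y} T, ⟨?_, ?_⟩, ?_⟩
    · intro e he
      rcases Finset.mem_insert.1 he with rfl | he
      · exact ⟨x, hx, y, hy, hxy, rfl⟩
      · obtain ⟨p, hp, q, hq, hpq, rfl⟩ := hT.1 e he
        exact ⟨p, (Finset.mem_sdiff.1 hp).1, q, (Finset.mem_sdiff.1 hq).1, hpq, rfl⟩
    · have hd : ∀ f ∈ T, Disjoint {x, y} f := by
        intro f hf
        rw [Finset.disjoint_left]
        intro z hz hzf
        have h2 : z ∈ T.biUnion id := by
          rw [Finset.mem_biUnion]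
          exact ⟨f, hf, hzf⟩
        have h3 := hT.biUnion_subset h2
        rw [Finset.mem_sdiff] at h3
        exact h3.2 hz
      intro e he f hf hef
      rcases Finset.mem_insert.1 he with he' | he'
      · rcases Finset.mem_insert.1 hf with hf' | hf'
        · exact absurd (he'.trans hf'.symm) hef
        · rw [he']
          exact hd f hf'
      · rcases Finset.mem_insert.1 hf with hf' | hf'
        · rw [hf']
          exact (hd e he').symm
        · exact hT.2 e he' f hf' hef
    · rw [Finset.card_insert_of_notMem hnot, hTc]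

/-- many boxes of both kinds: any choice of pairs works -/
theorem packable_both [Fintype V] {F : Finset (Finset (Fin n))} (hF : IsFam Gr Gb F)
    (hb : ¬ HasMat Hᶜ Finset.univ (boxesOf Gb F).card)
    (hr : ¬ HasMat H Finset.univ (boxesOf Gr F).card)
    (h1 : Fintype.card V ≤ F.card + (F.filter (fun C => 1 < C.card)).card) :
    Packable H Gr Gb Finset.univ F := by
  have hne : ∀ C ∈ F, C.Nonempty := fun C hC => (hF.1 C hC).1
  rcases Nat.lt_or_ge F.card (Fintype.card V) with hlt | hge
  · set t := Fintype.card V - F.card with ht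
    have hlarge : (F.filter (fun C => 1 < C.card)).card ≤ F.card := Finset.card_filter_le _ _
    obtain ⟨T, hT, hTc⟩ := exists_pairs (V := V) t (X := Finset.univ) (by
      rw [Finset.card_univ]
      omega)
    have hB : IsMat Hᶜ Finset.univ (T.filter (fun e => ∃ x y, Hᶜ.Adj x y ∧ e = {x, y})) := by
      refine ⟨?_, (hT.sub (Finset.filter_subset _ _)).2⟩
      intro e he
      rw [Finset.mem_filter] at he
      obtain ⟨x, y, hxy, rfl⟩ := he.2
      exact ⟨x, Finset.mem_univ x, y, Finset.mem_univ y, hxy, rfl⟩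
    have hR : IsMat H Finset.univ (T.filter (fun e => ¬ ∃ x y, Hᶜ.Adj x y ∧ e = {x, y})) := by
      refine ⟨?_, (hT.sub (Finset.filter_subset _ _)).2⟩
      intro e he
      rw [Finset.mem_filter] at he
      obtain ⟨x, _, y, _, hxy, rfl⟩ := hT.1 e he.1
      refine ⟨x, Finset.mem_univ x, y, Finset.mem_univ y, ?_, rfl⟩
      by_contra hcon
      exact he.2 ⟨x, y, by rw [SimpleGraph.compl_adj]; exact ⟨hxy, hcon⟩, rfl⟩
    have hsum : (T.filter (fun e => ∃ x y, Hᶜ.Adj x y ∧ e = {x, y})).card +
        (T.filter (fun e => ¬ ∃ x y, Hᶜ.Adj x y ∧ e = {x, y})).card = t := by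
      rw [Finset.card_filter_add_card_filter_not, hTc]
    apply packable_pairs hF hB hR
    · intro e he f hf
      rw [Finset.mem_filter] at he hf
      apply hT.2 e he.1 f hf.1
      intro h
      rw [h] at he
      exact hf.2 he.2
    · by_contra hcon
      exact hb (HasMat.mono ⟨_, hB, rfl⟩ (not_le.1 hcon).le)
    · by_contra hcon
      exact hr (HasMat.mono ⟨_, hR, rfl⟩ (not_le.1 hcon).le)
    · omega
    · omega
  · apply packable_inj hne
    rw [Finset.card_univ]
    exact hge

/-- the case in which the boxes with a blue pair are not too many -/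
theorem packable_case {ι : Type} [Fintype V] {F : Finset (Finset (Fin n))} (hF : IsFam Gr Gb F)
    {s : ℕ} (hV : Fintype.card V ≤ 2 * s + 1) {c : V → ι} (hc : CliqueCol H Finset.univ c)
    (hK : (Finset.univ.image c).card ≤ s + 1)
    (hb : HasMat Hᶜ Finset.univ (boxesOf Gb F).card)
    (hk : ∀ k : ℕ, 1 ≤ k → (s : ℤ) * (k + 1) + 1 ≤
      k * F.card + (F.filter (fun C => k < C.card)).card) :
    Packable H Gr Gb Finset.univ F := by
  have hne : ∀ C ∈ F, C.Nonempty := fun C hC => (hF.1 C hC).1
  have hsub := boxesOf_subset Gb F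
  have hun : boxesOf Gb F ∪ (F \ boxesOf Gb F) = F := Finset.union_sdiff_of_subset hsub
  have h1 : ∀ C ∈ boxesOf Gb F ∪ (F \ boxesOf Gb F), C.Nonempty := by
    rw [hun]
    exact hne
  have h2 : ∀ C ∈ boxesOf Gb F, ∃ p ∈ C, ∃ q ∈ C, Gb.Adj p q := by
    intro C hC
    unfold boxesOf at hC
    exact (Finset.mem_filter.1 hC).2
  have h3 : ∀ C ∈ F \ boxesOf Gb F, ∀ x ∈ C, ∀ y ∈ C, x ≠ y → Gr.Adj x y := by
    intro C hC x hx y hy hxy
    rw [Finset.mem_sdiff] at hC
    rw [(hF.1 C hC.1).2 x hx y hy hxy]
    intro h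
    apply hC.2
    unfold boxesOf
    rw [Finset.mem_filter]
    exact ⟨hC.1, x, hx, y, hy, h⟩
  have h4 : ∀ k : ℕ, 1 ≤ k → ((s : ℤ) - (boxesOf Gb F).card) * (k + 1) + 1 ≤
      k * (F \ boxesOf Gb F).card + ((F \ boxesOf Gb F).filter (fun C => k < C.card)).card := by
    intro k hk1
    have h1 := hk k hk1
    have h2 : ((F \ boxesOf Gb F).card : ℤ) = F.card - (boxesOf Gb F).card := by
      have := Finset.card_sdiff_add_card_eq_card hsub
      have h3 : ((F \ boxesOf Gb F).card : ℤ) + (boxesOf Gb F).card = F.card := by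
        exact_mod_cast this
      linarith
    have h3 : (F.filter (fun C => k < C.card)).card ≤
        ((F \ boxesOf Gb F).filter (fun C => k < C.card)).card + (boxesOf Gb F).card := by
      have h4 : F.filter (fun C => k < C.card) ⊆
          ((F \ boxesOf Gb F).filter (fun C => k < C.card)) ∪ boxesOf Gb F := by
        intro C hC
        rw [Finset.mem_filter] at hC
        rw [Finset.mem_union, Finset.mem_filter, Finset.mem_sdiff]
        by_cases h : C ∈ boxesOf Gb F
        · exact Or.inr h
        · exact Or.inl ⟨⟨hC.1, h⟩, hC.2⟩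
      exact (Finset.card_le_card h4).trans (Finset.card_union_le _ _)
    have h5 : ((F.filter (fun C => k < C.card)).card : ℤ) ≤
        ((F \ boxesOf Gb F).filter (fun C => k < C.card)).card + (boxesOf Gb F).card := by
      exact_mod_cast h3
    rw [h2]
    linarith
  have h5 := packable_peel (H := H) (Gr := Gr) (Gb := Gb) (boxesOf Gb F).card rfl h1 h2 h3
    Finset.disjoint_sdiff hc (by rw [Finset.card_univ]; exact hV) hK hb h4
  rwa [hun] at h5

end Peel

end Pool.Agent.Lib.MP_a05470_co
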