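import Mathlib
import Pool.Agent.Lib.MP_a05470_co.MatchDefs
import Pool.Agent.Lib.MP_a05470_co.Interval

/-!
# Almost all graphs have matchings of every composition
-/

open Finset Filter Topology

namespace Pool.Agent.Lib.MP_a05470_co

section Count

variable {h : ℕ}

open Classical in
theorem card_noEdges_mul (A C : Finset (Fin h)) (hAC : Disjoint A C) :
    (univ.filter (fun R : SimpleGraph (Fin h) => ∀ x ∈ A, ∀ y ∈ C, ¬ R.Adj x y)).card *
      2 ^ (A.card * C.card) ≤ Fintype.card (SimpleGraph (Fin h)) := by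
  rw [← card_product A C, ← card_powerset, ← card_product, ← card_univ]
  refine card_le_card_of_injOn (fun z : SimpleGraph (Fin h) × Finset (Fin h × Fin h) =>
    SimpleGraph.fromRel (fun u v => z.1.Adj u v ∨ (u, v) ∈ z.2)) (fun _ _ => mem_univ _) ?_
  have hT : ∀ R : SimpleGraph (Fin h), ∀ T : Finset (Fin h × Fin h),
      (R, T) ∈ (univ.filter (fun R : SimpleGraph (Fin h) => ∀ x ∈ A, ∀ y ∈ C, ¬ R.Adj x y)) ×ˢ
        (A ×ˢ C).powerset → ∀ x y, (x, y) ∈ T ↔ (x ∈ A ∧ y ∈ C ∧
        (SimpleGraph.fromRel (fun u v => R.Adj u v ∨ (u, v) ∈ T)).Adj x y) := by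
    intro R T hz x y
    rw [mem_product, mem_filter, mem_powerset] at hz
    obtain ⟨⟨-, hR⟩, hT⟩ := hz
    dsimp only at hR hT
    rw [SimpleGraph.fromRel_adj]
    constructor
    · intro hxy
      have h1 := mem_product.mp (hT hxy)
      refine ⟨h1.1, h1.2, ?_, Or.inl (Or.inr hxy)⟩
      rintro rfl
      exact (Finset.disjoint_left.mp hAC h1.1) h1.2
    · rintro ⟨hx, hy, -, (h1 | h1) | (h1 | h1)⟩
      · exact absurd h1 (hR x hx y hy)
      · exact h1
      · exact absurd h1.symm (hR x hx y hy)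
      · have h2 := mem_product.mp (hT h1)
        exact absurd h2.2 (Finset.disjoint_left.mp hAC hx)
  have hR' : ∀ R : SimpleGraph (Fin h), ∀ T : Finset (Fin h × Fin h),
      (R, T) ∈ (univ.filter (fun R : SimpleGraph (Fin h) => ∀ x ∈ A, ∀ y ∈ C, ¬ R.Adj x y)) ×ˢ
        (A ×ˢ C).powerset → ∀ x y, R.Adj x y ↔ (¬ (x ∈ A ∧ y ∈ C) ∧ ¬ (y ∈ A ∧ x ∈ C) ∧
        (SimpleGraph.fromRel (fun u v => R.Adj u v ∨ (u, v) ∈ T)).Adj x y) := by
    intro R T hz x y
    rw [mem_product, mem_filter, mem_powerset] at hz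
    obtain ⟨⟨-, hR⟩, hT⟩ := hz
    dsimp only at hR hT
    rw [SimpleGraph.fromRel_adj]
    constructor
    · intro hxy
      exact ⟨fun h1 => hR x h1.1 y h1.2 hxy, fun h1 => hR y h1.1 x h1.2 hxy.symm, hxy.ne,
        Or.inl (Or.inl hxy)⟩
    · rintro ⟨h1, h2, -, (h3 | h3) | (h3 | h3)⟩
      · exact h3
      · exact absurd (mem_product.mp (hT h3)) h1
      · exact h3.symm
      · exact absurd (mem_product.mp (hT h3)) h2
  rintro ⟨R, T⟩ hz ⟨R', T'⟩ hz' heq
  dsimp only at heq
  have e1 : T = T' := by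
    ext ⟨x, y⟩
    rw [hT R T hz x y, hT R' T' hz' x y, heq]
  have e2 : R = R' := by
    ext x y
    rw [hR' R T hz x y, hR' R' T' hz' x y, heq]
  rw [e1, e2]

/-- The `i`-th vertex on the left. -/
def xv (m : ℕ) (hm : 2 * m ≤ h) (i : Fin m) : Fin h := ⟨i, by omega⟩

/-- The `i`-th vertex on the right. -/
def yv (m : ℕ) (hm : 2 * m ≤ h) (i : Fin m) : Fin h := ⟨m + i, by omega⟩

theorem xv_inj (m : ℕ) (hm : 2 * m ≤ h) : Function.Injective (xv m hm) := by
  intro i j hij
  have := congrArg Fin.val hij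
  exact Fin.ext this

theorem yv_inj (m : ℕ) (hm : 2 * m ≤ h) : Function.Injective (yv m hm) := by
  intro i j hij
  have := congrArg Fin.val hij
  simp only [yv] at this
  exact Fin.ext (by omega)

theorem xv_ne_yv (m : ℕ) (hm : 2 * m ≤ h) (i j : Fin m) : xv m hm i ≠ yv m hm j := by
  intro hij
  have := congrArg Fin.val hij
  simp only [yv, xv] at this
  omega

open Classical in
/-- Expansion between the left and the right vertices. -/
def Rob (m : ℕ) (hm : 2 * m ≤ h) (R : SimpleGraph (Fin h)) : Prop :=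
  ∀ A : Finset (Fin m), A.Nonempty → A.card + 2 ≤ m →
    A.card + 2 ≤ (univ.filter (fun j => ∃ i ∈ A, R.Adj (xv m hm i) (yv m hm j))).card

theorem term_le (m k j : ℕ) (hk : 1 ≤ k) (hj : 1 ≤ j) (hkj : k + j + 1 = m)
    (hm : m ^ 2 ≤ 2 ^ (m / 2)) :
    m.choose k * m.choose j * 2 ^ (m / 2) ≤ m ^ 3 * 2 ^ (k * j) := by
  wlog hle : k ≤ j generalizing k j
  · have := this j k hj hk (by omega) (by omega)
    rw [mul_comm (m.choose k), mul_comm k j]
    exact this
  have h1 : m.choose k ≤ m ^ k := Nat.choose_le_pow m k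
  have h2 : m.choose j ≤ m ^ (k + 1) := by
    rw [← Nat.choose_symm (by omega : j ≤ m), show m - j = k + 1 by omega]
    exact Nat.choose_le_pow m (k + 1)
  have hj2 : m / 2 ≤ j := by omega
  obtain ⟨l, rfl⟩ : ∃ l, k = l + 1 := ⟨k - 1, by omega⟩
  calc m.choose (l + 1) * m.choose j * 2 ^ (m / 2)
      ≤ m ^ (l + 1) * m ^ (l + 1 + 1) * 2 ^ (m / 2) := by gcongr
    _ = m ^ 3 * (m ^ 2) ^ l * 2 ^ (m / 2) := by ring
    _ ≤ m ^ 3 * (2 ^ (m / 2)) ^ l * 2 ^ (m / 2) := by gcongr
    _ = m ^ 3 * 2 ^ ((l + 1) * (m / 2)) := by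
        rw [mul_assoc, ← pow_succ, ← pow_mul, mul_comm (l + 1)]
    _ ≤ m ^ 3 * 2 ^ ((l + 1) * j) := by gcongr; norm_num

open Classical in
theorem card_not_rob (m : ℕ) (hm : 2 * m ≤ h) (hm2 : m ^ 2 ≤ 2 ^ (m / 2)) :
    (univ.filter (fun R : SimpleGraph (Fin h) => ¬ Rob m hm R)).card * 2 ^ (m / 2) ≤
      m ^ 4 * Fintype.card (SimpleGraph (Fin h)) := by
  set Bad : Finset (Fin m) × Finset (Fin m) → Finset (SimpleGraph (Fin h)) := fun z =>
    univ.filter (fun R : SimpleGraph (Fin h) => ∀ x ∈ z.1.image (xv m hm),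
      ∀ y ∈ z.2.image (yv m hm), ¬ R.Adj x y) with hBad
  have hsub : (univ.filter (fun R : SimpleGraph (Fin h) => ¬ Rob m hm R)) ⊆
      (Finset.Icc 1 (m - 2)).biUnion (fun k =>
        ((powersetCard k univ) ×ˢ (powersetCard (m - 1 - k) univ)).biUnion Bad) := by
    intro R hR
    rw [mem_filter] at hR
    have hR2 := hR.2
    unfold Rob at hR2
    push Not at hR2
    obtain ⟨A, hA, hA2, hA3⟩ := hR2
    rw [mem_biUnion]
    have hApos := hA.card_pos
    refine ⟨A.card, by rw [mem_Icc]; omega, ?_⟩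
    rw [mem_biUnion]
    set N := univ.filter (fun j => ∃ i ∈ A, R.Adj (xv m hm i) (yv m hm j)) with hN
    have hNc : m - 1 - A.card ≤ Nᶜ.card := by
      rw [card_compl, Fintype.card_fin]
      omega
    obtain ⟨C, hC, hCc⟩ := exists_subset_card_eq hNc
    refine ⟨(A, C), ?_, ?_⟩
    · rw [mem_product, mem_powersetCard, mem_powersetCard]
      exact ⟨⟨subset_univ _, rfl⟩, subset_univ _, hCc⟩
    · rw [hBad]
      dsimp only
      rw [mem_filter]
      refine ⟨mem_univ _, ?_⟩
      intro x hx y hy hxy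
      obtain ⟨i, hi, rfl⟩ := mem_image.mp hx
      obtain ⟨j, hj, rfl⟩ := mem_image.mp hy
      have := hC hj
      rw [mem_compl, hN, mem_filter] at this
      exact this ⟨mem_univ _, i, hi, hxy⟩
  have hBadc : ∀ z : Finset (Fin m) × Finset (Fin m), (Bad z).card * 2 ^ (z.1.card * z.2.card) ≤
      Fintype.card (SimpleGraph (Fin h)) := by
    intro z
    have := card_noEdges_mul (z.1.image (xv m hm)) (z.2.image (yv m hm)) (by
      rw [Finset.disjoint_left]
      intro x hx hy
      obtain ⟨i, _, rfl⟩ := mem_image.mp hx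
      obtain ⟨j, _, hj⟩ := mem_image.mp hy
      exact xv_ne_yv m hm i j hj.symm)
    rw [card_image_of_injective _ (xv_inj m hm), card_image_of_injective _ (yv_inj m hm)] at this
    exact this
  have hk : ∀ k ∈ Finset.Icc 1 (m - 2),
      (((powersetCard k (univ : Finset (Fin m))) ×ˢ
        (powersetCard (m - 1 - k) (univ : Finset (Fin m)))).biUnion Bad).card * 2 ^ (m / 2) ≤
      m ^ 3 * Fintype.card (SimpleGraph (Fin h)) := by
    intro k hk
    rw [mem_Icc] at hk
    have hj : 1 ≤ m - 1 - k := by omega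
    have h1 := term_le m k (m - 1 - k) hk.1 hj (by omega) hm2
    have h2 : (((powersetCard k (univ : Finset (Fin m))) ×ˢ
        (powersetCard (m - 1 - k) (univ : Finset (Fin m)))).biUnion Bad).card *
        2 ^ (k * (m - 1 - k)) ≤
        m.choose k * m.choose (m - 1 - k) * Fintype.card (SimpleGraph (Fin h)) := by
      calc _ ≤ (∑ z ∈ (powersetCard k (univ : Finset (Fin m))) ×ˢ
        (powersetCard (m - 1 - k) (univ : Finset (Fin m))), (Bad z).card) * 2 ^ (k * (m - 1 - k)) :=
            Nat.mul_le_mul_right _ card_biUnion_le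
        _ = ∑ z ∈ (powersetCard k (univ : Finset (Fin m))) ×ˢ
        (powersetCard (m - 1 - k) (univ : Finset (Fin m))),
            (Bad z).card * 2 ^ (k * (m - 1 - k)) := by rw [sum_mul]
        _ ≤ ∑ z ∈ (powersetCard k (univ : Finset (Fin m))) ×ˢ
        (powersetCard (m - 1 - k) (univ : Finset (Fin m))),
            Fintype.card (SimpleGraph (Fin h)) := by
            apply sum_le_sum
            intro z hz
            rw [mem_product, mem_powersetCard, mem_powersetCard] at hz
            have := hBadc z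
            rw [hz.1.2, hz.2.2] at this
            exact this
        _ = _ := by
            rw [sum_const, card_product, card_powersetCard, card_powersetCard, card_univ,
              Fintype.card_fin, smul_eq_mul]
    have hpos : 0 < 2 ^ (k * (m - 1 - k)) := by positivity
    refine Nat.le_of_mul_le_mul_right ?_ hpos
    calc _ = ((((powersetCard k (univ : Finset (Fin m))) ×ˢ
        (powersetCard (m - 1 - k) (univ : Finset (Fin m)))).biUnion Bad).card *
        2 ^ (k * (m - 1 - k))) * 2 ^ (m / 2) := by ring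
      _ ≤ (m.choose k * m.choose (m - 1 - k) * Fintype.card (SimpleGraph (Fin h))) *
          2 ^ (m / 2) := Nat.mul_le_mul_right _ h2
      _ = (m.choose k * m.choose (m - 1 - k) * 2 ^ (m / 2)) *
          Fintype.card (SimpleGraph (Fin h)) := by ring
      _ ≤ (m ^ 3 * 2 ^ (k * (m - 1 - k))) * Fintype.card (SimpleGraph (Fin h)) :=
          Nat.mul_le_mul_right _ h1
      _ = _ := by ring
  calc _ ≤ ((Finset.Icc 1 (m - 2)).biUnion (fun k =>
        ((powersetCard k univ) ×ˢ (powersetCard (m - 1 - k) univ)).biUnion Bad)).card *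
          2 ^ (m / 2) := Nat.mul_le_mul_right _ (card_le_card hsub)
    _ ≤ (∑ k ∈ Finset.Icc 1 (m - 2),
        (((powersetCard k univ) ×ˢ (powersetCard (m - 1 - k) univ)).biUnion Bad).card) *
          2 ^ (m / 2) := Nat.mul_le_mul_right _ card_biUnion_le
    _ = ∑ k ∈ Finset.Icc 1 (m - 2),
        (((powersetCard k univ) ×ˢ (powersetCard (m - 1 - k) univ)).biUnion Bad).card *
          2 ^ (m / 2) := by rw [sum_mul]
    _ ≤ ∑ k ∈ Finset.Icc 1 (m - 2), m ^ 3 * Fintype.card (SimpleGraph (Fin h)) :=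
        sum_le_sum hk
    _ = (m - 2) * (m ^ 3 * Fintype.card (SimpleGraph (Fin h))) := by
        rw [sum_const, Nat.card_Icc, smul_eq_mul]; rfl
    _ ≤ m * (m ^ 3 * Fintype.card (SimpleGraph (Fin h))) := Nat.mul_le_mul_right _ (by omega)
    _ = _ := by ring

open Classical in
theorem card_not_rob_compl (m : ℕ) (hm : 2 * m ≤ h) :
    (univ.filter (fun R : SimpleGraph (Fin h) => ¬ Rob m hm Rᶜ)).card ≤
      (univ.filter (fun R : SimpleGraph (Fin h) => ¬ Rob m hm R)).card := by
  refine card_le_card_of_injOn (fun R => Rᶜ) ?_ (fun R _ R' _ hRR' => compl_injective hRR')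
  intro R hR
  rw [mem_coe, mem_filter] at hR ⊢
  exact ⟨mem_univ _, hR.2⟩

end Count

end Pool.Agent.Lib.MP_a05470_co
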