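import Mathlib
import Pool.Agent.Lib.MP_a05470_co.MatchDefs
import Pool.Agent.Lib.MP_a05470_co.Interval
import Pool.Agent.Lib.MP_a05470_co.Random

/-!
# Almost all graphs have matchings of every composition, II
-/

open Finset

namespace Pool.Agent.Lib.MP_a05470_co

section Hall

variable {h : ℕ}

open Classical in
theorem rob_hall (m : ℕ) (hm : 2 * m ≤ h) (R : SimpleGraph (Fin h)) (hR : Rob m hm R)
    (hm3 : 3 ≤ m) : ∃ g : Fin m → Fin m, Function.Injective g ∧
      ∀ i, R.Adj (xv m hm i) (yv m hm (g i)) := by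
  have key := (Finset.all_card_le_biUnion_card_iff_exists_injective
    (fun i : Fin m => univ.filter (fun j : Fin m => R.Adj (xv m hm i) (yv m hm j)))).mp ?_
  · obtain ⟨g, hg, hg2⟩ := key
    exact ⟨g, hg, fun i => (mem_filter.mp (hg2 i)).2⟩
  · intro s
    have hN : ∀ s' : Finset (Fin m), s' ⊆ s →
        (univ.filter (fun j => ∃ i ∈ s', R.Adj (xv m hm i) (yv m hm j))).card ≤
        (s.biUnion (fun i : Fin m =>
          univ.filter (fun j : Fin m => R.Adj (xv m hm i) (yv m hm j)))).card := by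
      intro s' hs'
      apply card_le_card
      intro j hj
      rw [mem_filter] at hj
      obtain ⟨-, i, hi, hij⟩ := hj
      rw [mem_biUnion]
      exact ⟨i, hs' hi, mem_filter.mpr ⟨mem_univ _, hij⟩⟩
    rcases s.eq_empty_or_nonempty with he | hne
    · rw [he]; simp
    · have hsm : s.card ≤ m := by
        have := card_le_univ s
        rwa [Fintype.card_fin] at this
      by_cases hs : s.card + 2 ≤ m
      · have h1 := hR s hne hs
        have h2 := hN s (Subset.refl _)
        omega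
      · obtain ⟨s', hs', hs'c⟩ := exists_subset_card_eq (show m - 2 ≤ s.card by omega)
        have h1 := hR s' (card_pos.mp (by omega)) (by omega)
        have h2 := hN s' hs'
        omega

open Classical in
theorem rob_hall_del (m : ℕ) (hm : 2 * m ≤ h) (R : SimpleGraph (Fin h)) (hR : Rob m hm R)
    (D : Finset (Fin m)) (hD : D.card = 2) :
    ∃ g : {i : Fin m // i ∉ D} → Fin m, Function.Injective g ∧ (∀ i, g i ∉ D) ∧
      ∀ i, R.Adj (xv m hm i.1) (yv m hm (g i)) := by
  have key := (Finset.all_card_le_biUnion_card_iff_exists_injective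
    (fun i : {i : Fin m // i ∉ D} =>
      (univ.filter (fun j : Fin m => R.Adj (xv m hm i.1) (yv m hm j))) \ D)).mp ?_
  · obtain ⟨g, hg, hg2⟩ := key
    refine ⟨g, hg, fun i => (mem_sdiff.mp (hg2 i)).2, fun i => ?_⟩
    have h1 := (mem_sdiff.mp (hg2 i)).1
    exact (mem_filter.mp h1).2
  · intro s
    set A : Finset (Fin m) := s.map (Function.Embedding.subtype _) with hA
    have hAc : A.card = s.card := card_map _
    have hAD : Disjoint A D := by
      rw [Finset.disjoint_left]
      intro a ha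
      rw [hA, mem_map] at ha
      obtain ⟨i, _, rfl⟩ := ha
      exact i.2
    rcases s.eq_empty_or_nonempty with he | hne
    · rw [he]; simp
    · have hcard : A.card + 2 ≤ m := by
        have h1 : (A ∪ D).card ≤ m := by
          have := card_le_univ (A ∪ D)
          rwa [Fintype.card_fin] at this
        rw [card_union_of_disjoint hAD, hD] at h1
        exact h1
      have hAne : A.Nonempty := by
        rw [← card_pos, hAc]; exact hne.card_pos
      have h1 := hR A hAne hcard
      have h2 : (univ.filter (fun j => ∃ i ∈ A, R.Adj (xv m hm i) (yv m hm j))) \ D ⊆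
          s.biUnion (fun i : {i : Fin m // i ∉ D} =>
            (univ.filter (fun j : Fin m => R.Adj (xv m hm i.1) (yv m hm j))) \ D) := by
        intro j hj
        rw [mem_sdiff, mem_filter] at hj
        obtain ⟨⟨-, i, hi, hij⟩, hjD⟩ := hj
        rw [hA, mem_map] at hi
        obtain ⟨i', hi', rfl⟩ := hi
        rw [mem_biUnion]
        exact ⟨i', hi', mem_sdiff.mpr ⟨mem_filter.mpr ⟨mem_univ _, hij⟩, hjD⟩⟩
      have h3 := card_le_card h2
      have h4 := le_card_sdiff D
        (univ.filter (fun j => ∃ i ∈ A, R.Adj (xv m hm i) (yv m hm j)))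
      omega

theorem pair_inj (m : ℕ) (hm : 2 * m ≤ h) {ι : Type*} (e g : ι → Fin m)
    (he : Function.Injective e) (hg : Function.Injective g) :
    Function.Injective (fun z : ι × Bool => cond z.2 (yv m hm (g z.1)) (xv m hm (e z.1))) := by
  rintro ⟨i, c⟩ ⟨j, d⟩ hij
  cases c <;> cases d
  · exact Prod.ext (he (xv_inj m hm hij)) rfl
  · exact absurd hij (xv_ne_yv m hm _ _)
  · exact absurd hij.symm (xv_ne_yv m hm _ _)
  · exact Prod.ext (hg (yv_inj m hm hij)) rfl

theorem full_odd (m : ℕ) (hm : 2 * m ≤ h) (hh : h = 2 * m + 1) (hm3 : 3 ≤ m)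
    (R : SimpleGraph (Fin h)) (hR : Rob m hm R) (hRc : Rob m hm Rᶜ) :
    ∀ a b, a + b = h / 2 → HasMatching R a b := by
  classical
  intro a b hab
  obtain ⟨g1, hg1, hg1R⟩ := rob_hall m hm R hR hm3
  obtain ⟨g0, hg0, hg0R⟩ := rob_hall m hm Rᶜ hRc hm3
  refine hasMatching_odd R hh ?_ ?_ a b (by omega)
  · refine hasMatching_of_index R (fun z : Fin m × Bool => cond z.2 (yv m hm (g1 z.1)) (xv m hm z.1))
      (pair_inj m hm id g1 Function.injective_id hg1) m 0 ?_ (by simp)
    unfold redCount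
    rw [filter_true_of_mem, card_univ, Fintype.card_fin]
    intro i _
    exact hg1R i
  · refine hasMatching_of_index R (fun z : Fin m × Bool => cond z.2 (yv m hm (g0 z.1)) (xv m hm z.1))
      (pair_inj m hm id g0 Function.injective_id hg0) 0 m ?_ (by simp)
    unfold redCount
    rw [card_eq_zero, filter_eq_empty_iff]
    intro i _
    have := hg0R i
    rw [SimpleGraph.compl_adj] at this
    exact this.2

/-- The labelled induced path on four vertices. -/
def Pat (R : SimpleGraph (Fin h)) (x : Fin 4 → Fin h) : Prop :=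
  R.Adj (x 0) (x 1) ∧ R.Adj (x 1) (x 2) ∧ R.Adj (x 2) (x 3) ∧
    ¬ R.Adj (x 0) (x 2) ∧ ¬ R.Adj (x 1) (x 3) ∧ ¬ R.Adj (x 0) (x 3)

/-- The four vertices of the `i`-th block. -/
def blk (m : ℕ) (hm : 2 * m ≤ h) (i : Fin (m / 2)) : Fin 4 → Fin h :=
  ![xv m hm ⟨2 * i, by omega⟩, xv m hm ⟨2 * i + 1, by omega⟩,
    yv m hm ⟨2 * i, by omega⟩, yv m hm ⟨2 * i + 1, by omega⟩]

theorem blk_inj (m : ℕ) (hm : 2 * m ≤ h) (i j : Fin (m / 2)) (a b : Fin 4)
    (hab : blk m hm i a = blk m hm j b) : i = j ∧ a = b := by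
  have h1 := congrArg Fin.val hab
  have hi := i.2
  have hj := j.2
  fin_cases a <;> fin_cases b <;> simp [blk, xv, yv] at h1 ⊢ <;> first | (ext; omega) | omega

theorem full_even (m : ℕ) (hm : 2 * m ≤ h) (hh : h = 2 * m) 
    (R : SimpleGraph (Fin h)) (hR : Rob m hm R) (hRc : Rob m hm Rᶜ) (i : Fin (m / 2))
    (hP : Pat R (blk m hm i)) :
    ∀ a b, a + b = h / 2 → HasMatching R a b := by
  classical
  intro a b hab
  have hi := i.2
  set p : Fin m := ⟨2 * i, by omega⟩ with hp
  set q : Fin m := ⟨2 * i + 1, by omega⟩ with hq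
  have hpq : p ≠ q := by
    intro h1
    have := congrArg Fin.val h1
    simp [hp, hq] at this
  set D : Finset (Fin m) := {p, q} with hD
  have hDc : D.card = 2 := card_pair hpq
  obtain ⟨k, rfl⟩ : ∃ k, m = k + 2 := ⟨m - 2, by omega⟩
  obtain ⟨g1, hg1, hg1D, hg1R⟩ := rob_hall_del (k + 2) hm R hR D hDc
  obtain ⟨g0, hg0, hg0D, hg0R⟩ := rob_hall_del (k + 2) hm Rᶜ hRc D hDc
  have hcard : Fintype.card {i : Fin (k + 2) // i ∉ D} = k := by
    rw [Fintype.card_subtype_compl, Fintype.card_fin, Fintype.card_coe, hDc]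
    omega
  set e : Fin k ≃ {i : Fin (k + 2) // i ∉ D} := (Fintype.equivFinOfCardEq hcard).symm with he
  have hblk0 : blk (k + 2) hm i 0 = xv (k + 2) hm p := rfl
  have hblk1 : blk (k + 2) hm i 1 = xv (k + 2) hm q := rfl
  have hblk2 : blk (k + 2) hm i 2 = yv (k + 2) hm p := rfl
  have hblk3 : blk (k + 2) hm i 3 = yv (k + 2) hm q := rfl
  have hxW : ∀ j : Fin (k + 2), j ∉ D → xv (k + 2) hm j ∈ (univ.image (blk (k + 2) hm i))ᶜ := by
    intro j hj
    rw [mem_compl, mem_image]
    rintro ⟨c, _, hc⟩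
    rw [hD, mem_insert, mem_singleton, not_or] at hj
    fin_cases c
    · exact hj.1 (xv_inj _ hm (hblk0.symm.trans hc)).symm
    · exact hj.2 (xv_inj _ hm (hblk1.symm.trans hc)).symm
    · exact xv_ne_yv _ hm _ _ (hblk2.symm.trans hc).symm
    · exact xv_ne_yv _ hm _ _ (hblk3.symm.trans hc).symm
  have hyW : ∀ j : Fin (k + 2), j ∉ D → yv (k + 2) hm j ∈ (univ.image (blk (k + 2) hm i))ᶜ := by
    intro j hj
    rw [mem_compl, mem_image]
    rintro ⟨c, _, hc⟩
    rw [hD, mem_insert, mem_singleton, not_or] at hj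
    fin_cases c
    · exact xv_ne_yv _ hm _ _ (hblk0.symm.trans hc)
    · exact xv_ne_yv _ hm _ _ (hblk1.symm.trans hc)
    · exact hj.1 (yv_inj _ hm (hblk2.symm.trans hc)).symm
    · exact hj.2 (yv_inj _ hm (hblk3.symm.trans hc)).symm
  obtain ⟨p1, p2, p3, p4, p5, p6⟩ := hP
  refine hasMatching_even R ((univ.image (blk (k + 2) hm i))ᶜ) (blk (k + 2) hm i)
    (fun a b hab => (blk_inj _ hm i i a b hab).2) p1 p2 p3 p4 p5 p6 rfl
    (fun z : Fin k × Bool => cond z.2 (yv (k + 2) hm (g1 (e z.1))) (xv (k + 2) hm (e z.1).1))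
    (fun z : Fin k × Bool => cond z.2 (yv (k + 2) hm (g0 (e z.1))) (xv (k + 2) hm (e z.1).1))
    (pair_inj _ hm _ _ (Subtype.val_injective.comp e.injective) (hg1.comp e.injective))
    (pair_inj _ hm _ _ (Subtype.val_injective.comp e.injective) (hg0.comp e.injective))
    ?_ ?_ (fun j => hg1R (e j)) ?_ hh a b (by omega)
  · rintro ⟨j, c⟩
    cases c
    · exact hxW _ (e j).2
    · exact hyW _ (hg1D (e j))
  · rintro ⟨j, c⟩
    cases c
    · exact hxW _ (e j).2
    · exact hyW _ (hg0D (e j))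
  · intro j
    have := hg0R (e j)
    rw [SimpleGraph.compl_adj] at this
    exact this.2

end Hall

end Pool.Agent.Lib.MP_a05470_co
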