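import Mathlib
import Pool.Agent.Lib.MP_a05470_co.MatchDefs
import Pool.Agent.Lib.MP_a05470_co.Interval
import Pool.Agent.Lib.MP_a05470_co.Random
import Pool.Agent.Lib.MP_a05470_co.Random2

/-!
# Almost all graphs have matchings of every composition, III
-/

open Finset

namespace Pool.Agent.Lib.MP_a05470_co

section Pattern

variable {h u : ℕ}

open Classical in
/-- Graphs without the pattern in the first `j` blocks. -/
noncomputable def noPat (x : Fin u → Fin 4 → Fin h) (j : ℕ) : Finset (SimpleGraph (Fin h)) :=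
  univ.filter (fun R => ∀ i : Fin u, i.val < j → ¬ Pat R (x i))

open Classical in
/-- Impose the pattern on the four vertices `y`. -/
noncomputable def impose (y : Fin 4 → Fin h) (R : SimpleGraph (Fin h)) : SimpleGraph (Fin h) :=
  SimpleGraph.fromRel (fun a b => (¬ (a ∈ univ.image y ∧ b ∈ univ.image y) ∧ R.Adj a b) ∨
    (a = y 0 ∧ b = y 1) ∨ (a = y 1 ∧ b = y 2) ∨ (a = y 2 ∧ b = y 3))

open Classical in
theorem impose_adj_of_not (y : Fin 4 → Fin h) (R : SimpleGraph (Fin h)) (a b : Fin h)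
    (hab : ¬ (a ∈ univ.image y ∧ b ∈ univ.image y)) : (impose y R).Adj a b ↔ R.Adj a b := by
  have hmem : ∀ c, y c ∈ univ.image y := fun c => mem_image_of_mem _ (mem_univ _)
  unfold impose
  rw [SimpleGraph.fromRel_adj]
  constructor
  · rintro ⟨-, (⟨-, h1⟩ | ⟨rfl, rfl⟩ | ⟨rfl, rfl⟩ | ⟨rfl, rfl⟩) |
      (⟨-, h1⟩ | ⟨rfl, rfl⟩ | ⟨rfl, rfl⟩ | ⟨rfl, rfl⟩)⟩
    · exact h1
    · exact absurd ⟨hmem _, hmem _⟩ hab
    · exact absurd ⟨hmem _, hmem _⟩ hab
    · exact absurd ⟨hmem _, hmem _⟩ hab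
    · exact h1.symm
    · exact absurd ⟨hmem _, hmem _⟩ hab
    · exact absurd ⟨hmem _, hmem _⟩ hab
    · exact absurd ⟨hmem _, hmem _⟩ hab
  · intro h1
    exact ⟨h1.ne, Or.inl (Or.inl ⟨hab, h1⟩)⟩

theorem impose_pat (y : Fin 4 → Fin h) (hy : Function.Injective y) (R : SimpleGraph (Fin h)) :
    Pat (impose y R) y := by
  classical
  unfold Pat impose
  simp [SimpleGraph.fromRel_adj, hy.eq_iff]

theorem pat_impose_iff (y z : Fin 4 → Fin h) (hyz : ∀ a b, z a ≠ y b) (R : SimpleGraph (Fin h)) :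
    Pat (impose y R) z ↔ Pat R z := by
  classical
  have hz : ∀ a b, (impose y R).Adj (z a) (z b) ↔ R.Adj (z a) (z b) := by
    intro a b
    apply impose_adj_of_not
    rintro ⟨h1, -⟩
    obtain ⟨c, -, hc⟩ := mem_image.mp h1
    exact hyz a c hc.symm
  unfold Pat
  simp only [hz]

open Classical in
theorem noPat_step (x : Fin u → Fin 4 → Fin h)
    (hx : ∀ i j a b, x i a = x j b → i = j ∧ a = b) (j : ℕ) (hj : j < u) :
    65536 * (noPat x (j + 1)).card ≤ 65535 * (noPat x j).card := by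
  have hsub : noPat x (j + 1) ⊆ noPat x j := by
    intro R hR
    unfold noPat at hR ⊢
    rw [mem_filter] at hR ⊢
    exact ⟨mem_univ _, fun i hi => hR.2 i (by omega)⟩
  have hmap : (noPat x j).card ≤ ((noPat x j \ noPat x (j + 1)) ×ˢ
      (univ : Finset (Fin 4 → Fin 4 → Bool))).card := by
    refine card_le_card_of_injOn (fun R => (impose (x ⟨j, hj⟩) R,
      fun a b => decide (R.Adj (x ⟨j, hj⟩ a) (x ⟨j, hj⟩ b)))) ?_ ?_
    · intro R hR
      rw [mem_coe] at hR ⊢
      rw [mem_product]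
      refine ⟨?_, mem_univ _⟩
      rw [mem_sdiff]
      have hR2 := (mem_filter.mp hR).2
      constructor
      · unfold noPat
        rw [mem_filter]
        refine ⟨mem_univ _, ?_⟩
        intro i hi
        dsimp only
        rw [pat_impose_iff]
        · exact hR2 i hi
        · intro a b hab
          have := (hx _ _ _ _ hab).1
          rw [this] at hi
          exact lt_irrefl _ hi
      · intro h1
        have h2 := (mem_filter.mp h1).2 ⟨j, hj⟩ (Nat.lt_succ_self j)
        exact h2 (impose_pat _ (fun a b hab => (hx _ _ a b hab).2) R)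
    · intro R _ R' _ hRR'
      simp only [Prod.mk.injEq] at hRR'
      obtain ⟨h1, h2⟩ := hRR'
      ext a b
      by_cases hab : a ∈ univ.image (x ⟨j, hj⟩) ∧ b ∈ univ.image (x ⟨j, hj⟩)
      · obtain ⟨c, -, rfl⟩ := mem_image.mp hab.1
        obtain ⟨d, -, rfl⟩ := mem_image.mp hab.2
        have h3 := congrFun (congrFun h2 c) d
        exact decide_eq_decide.mp h3
      · rw [← impose_adj_of_not _ R a b hab, ← impose_adj_of_not _ R' a b hab, h1]
  have hcardu : (univ : Finset (Fin 4 → Fin 4 → Bool)).card = 65536 := by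
    rw [card_univ]
    simp
  rw [card_product, hcardu, card_sdiff_of_subset hsub] at hmap
  have := card_le_card hsub
  omega

theorem noPat_card (x : Fin u → Fin 4 → Fin h)
    (hx : ∀ i j a b, x i a = x j b → i = j ∧ a = b) (j : ℕ) (hj : j ≤ u) :
    65536 ^ j * (noPat x j).card ≤ 65535 ^ j * Nat.card (SimpleGraph (Fin h)) := by
  classical
  induction j with
  | zero =>
    simp only [pow_zero, one_mul]
    rw [Nat.card_eq_fintype_card]
    exact card_le_univ _
  | succ j ih =>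
    have h1 := noPat_step x hx j (by omega)
    have h2 := ih (by omega)
    calc 65536 ^ (j + 1) * (noPat x (j + 1)).card
        = 65536 ^ j * (65536 * (noPat x (j + 1)).card) := by ring
      _ ≤ 65536 ^ j * (65535 * (noPat x j).card) := Nat.mul_le_mul_left _ h1
      _ = 65535 * (65536 ^ j * (noPat x j).card) := by ring
      _ ≤ 65535 * (65535 ^ j * Nat.card (SimpleGraph (Fin h))) := Nat.mul_le_mul_left _ h2
      _ = _ := by ring

end Pattern

section Final

open Classical in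
theorem card_bad (h : ℕ) (hh : 6 ≤ h) (hm2 : (h / 2) ^ 2 ≤ 2 ^ (h / 2 / 2)) :
    1 - 2 * ((h / 2 : ℕ) : ℝ) ^ 4 / 2 ^ (h / 2 / 2) - (65535 / 65536 : ℝ) ^ (h / 2 / 2) ≤
      ((Set.ncard {R : SimpleGraph (Fin h) | ∀ a b, a + b = h / 2 → HasMatching R a b} : ℕ) : ℝ) /
        (Nat.card (SimpleGraph (Fin h)) : ℝ) := by
  have hm : 2 * (h / 2) ≤ h := by omega
  set m := h / 2 with hmdef
  set N := Nat.card (SimpleGraph (Fin h)) with hN
  have hNpos : 0 < N := Nat.card_pos
  have hNf : N = Fintype.card (SimpleGraph (Fin h)) := Nat.card_eq_fintype_card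
  set G : Finset (SimpleGraph (Fin h)) :=
    univ.filter (fun R => ∀ a b, a + b = m → HasMatching R a b) with hG
  have hGn : Set.ncard {R : SimpleGraph (Fin h) | ∀ a b, a + b = m → HasMatching R a b} =
      G.card := by
    rw [← Set.ncard_coe_finset, hG]
    congr 1
    ext R
    simp
  set B1 := univ.filter (fun R : SimpleGraph (Fin h) => ¬ Rob m hm R) with hB1
  set B2 := univ.filter (fun R : SimpleGraph (Fin h) => ¬ Rob m hm Rᶜ) with hB2
  set B3 := noPat (blk m hm) (m / 2) with hB3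
  have hcover : (univ : Finset (SimpleGraph (Fin h))) ⊆ G ∪ (B1 ∪ B2 ∪ B3) := by
    intro R _
    by_cases h1 : Rob m hm R
    · by_cases h2 : Rob m hm Rᶜ
      · by_cases h3 : R ∈ B3
        · exact mem_union_right _ (mem_union_right _ h3)
        · apply mem_union_left
          rw [hG, mem_filter]
          refine ⟨mem_univ _, ?_⟩
          rcases Nat.even_or_odd' h with ⟨t, ht | ht⟩
          · rw [hB3] at h3
            unfold noPat at h3
            rw [mem_filter] at h3
            push Not at h3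
            obtain ⟨i, -, hi⟩ := h3 (mem_univ _)
            exact full_even m hm (by omega) R h1 h2 i hi
          · exact full_odd m hm (by omega) (by omega) R h1 h2
      · exact mem_union_right _ (mem_union_left _ (mem_union_right _
          (mem_filter.mpr ⟨mem_univ _, h2⟩)))
    · exact mem_union_right _ (mem_union_left _ (mem_union_left _
          (mem_filter.mpr ⟨mem_univ _, h1⟩)))
  have hcard : N ≤ G.card + (B1.card + B2.card + B3.card) := by
    have h1 := card_le_card hcover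
    rw [card_univ, ← hNf] at h1
    have h2 := card_union_le G (B1 ∪ B2 ∪ B3)
    have h3 := card_union_le (B1 ∪ B2) B3
    have h4 := card_union_le B1 B2
    omega
  have hb1 : B1.card * 2 ^ (m / 2) ≤ m ^ 4 * N := by
    rw [hNf]; exact card_not_rob m hm hm2
  have hb2 : B2.card ≤ B1.card := card_not_rob_compl m hm
  have hb3 : 65536 ^ (m / 2) * B3.card ≤ 65535 ^ (m / 2) * N :=
    noPat_card (blk m hm) (blk_inj m hm) (m / 2) le_rfl
  rw [hGn]
  have hN0 : (0 : ℝ) < N := by exact_mod_cast hNpos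
  rw [le_div_iff₀ hN0]
  have e1 : (B1.card : ℝ) ≤ (m : ℝ) ^ 4 / 2 ^ (m / 2) * N := by
    rw [div_mul_eq_mul_div, le_div_iff₀ (by positivity)]
    exact_mod_cast hb1
  have e2 : (B2.card : ℝ) ≤ B1.card := by exact_mod_cast hb2
  have e3 : (B3.card : ℝ) ≤ (65535 / 65536 : ℝ) ^ (m / 2) * N := by
    rw [div_pow, div_mul_eq_mul_div, le_div_iff₀ (by positivity), mul_comm (B3.card : ℝ)]
    exact_mod_cast hb3
  have e4 : (N : ℝ) ≤ G.card + (B1.card + B2.card + B3.card) := by exact_mod_cast hcard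
  have e5 : (1 - 2 * (m : ℝ) ^ 4 / 2 ^ (m / 2) - (65535 / 65536 : ℝ) ^ (m / 2)) * (N : ℝ) =
      N - 2 * ((m : ℝ) ^ 4 / 2 ^ (m / 2) * N) - (65535 / 65536 : ℝ) ^ (m / 2) * N := by ring
  rw [e5]
  linarith

open Filter Topology in
theorem tendsto_full : Tendsto (fun h : ℕ =>
    ((Set.ncard {R : SimpleGraph (Fin h) | ∀ a b, a + b = h / 2 → HasMatching R a b} : ℕ) : ℝ) /
        (Nat.card (SimpleGraph (Fin h)) : ℝ)) atTop (𝓝 1) := by
  have hdiv : Tendsto (fun h : ℕ => h / 2 / 2) atTop atTop := by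
    apply Filter.tendsto_atTop_mono (f := fun h : ℕ => (h - 3) / 4) (fun h => by omega)
    apply tendsto_atTop_atTop.mpr
    intro b
    exact ⟨4 * b + 3, fun a ha => by omega⟩
  have hg : Tendsto (fun u : ℕ => 1 - 2 * ((6 : ℝ) ^ 4 * ((u : ℝ) ^ 4 / 2 ^ u)) -
      (65535 / 65536 : ℝ) ^ u) atTop (𝓝 1) := by
    have h1 : Tendsto (fun u : ℕ => (u : ℝ) ^ 4 / (2 : ℝ) ^ u) atTop (𝓝 0) :=
      tendsto_pow_const_div_const_pow_of_one_lt 4 (by norm_num)
    have h2 : Tendsto (fun u : ℕ => (65535 / 65536 : ℝ) ^ u) atTop (𝓝 0) :=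
      tendsto_pow_atTop_nhds_zero_of_lt_one (by norm_num) (by norm_num)
    have h3 := (((h1.const_mul ((6 : ℝ) ^ 4)).const_mul 2).const_sub 1).sub h2
    simpa using h3
  have hsmall : ∀ᶠ u : ℕ in atTop, 9 * u ^ 2 ≤ 2 ^ u := by
    have h1 : Tendsto (fun u : ℕ => (u : ℝ) ^ 2 / (2 : ℝ) ^ u) atTop (𝓝 0) :=
      tendsto_pow_const_div_const_pow_of_one_lt 2 (by norm_num)
    have h2 := h1.eventually (gt_mem_nhds (show (0 : ℝ) < 1 / 9 by norm_num))
    filter_upwards [h2] with u hu
    rw [div_lt_iff₀ (by positivity)] at hu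
    have : (9 : ℝ) * (u : ℝ) ^ 2 ≤ 2 ^ u := by linarith
    exact_mod_cast this
  refine tendsto_of_tendsto_of_tendsto_of_le_of_le' (hg.comp hdiv) tendsto_const_nhds ?_ ?_
  · filter_upwards [eventually_ge_atTop 6, hdiv.eventually hsmall] with h hh hs
    have hm3 : h / 2 ≤ 3 * (h / 2 / 2) := by omega
    refine le_trans ?_ (card_bad h hh ?_)
    · simp only [Function.comp]
      have h1 : ((h / 2 : ℕ) : ℝ) ≤ 6 * ((h / 2 / 2 : ℕ) : ℝ) := by
        have : h / 2 ≤ 6 * (h / 2 / 2) := by omega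
        exact_mod_cast this
      have h2 : ((h / 2 : ℕ) : ℝ) ^ 4 ≤ (6 : ℝ) ^ 4 * ((h / 2 / 2 : ℕ) : ℝ) ^ 4 := by
        rw [← mul_pow]
        gcongr
      have h3 : ((h / 2 : ℕ) : ℝ) ^ 4 / 2 ^ (h / 2 / 2) ≤
          (6 : ℝ) ^ 4 * (((h / 2 / 2 : ℕ) : ℝ) ^ 4 / 2 ^ (h / 2 / 2)) := by
        rw [← mul_div_assoc]
        gcongr
      rw [mul_div_assoc]
      linarith
    · calc (h / 2) ^ 2 ≤ (3 * (h / 2 / 2)) ^ 2 := Nat.pow_le_pow_left hm3 2
        _ = 9 * (h / 2 / 2) ^ 2 := by ring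
        _ ≤ _ := hs
  · filter_upwards with h
    apply div_le_one_of_le₀ _ (by positivity)
    have : Set.ncard {R : SimpleGraph (Fin h) | ∀ a b, a + b = h / 2 → HasMatching R a b} ≤
        Nat.card (SimpleGraph (Fin h)) := by
      rw [← Set.ncard_univ]
      exact Set.ncard_le_ncard (Set.subset_univ _)
    exact_mod_cast this

end Final

end Pool.Agent.Lib.MP_a05470_co
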