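import Pool.Agent.Lib.MP_a05470_co.Bal

set_option autoImplicit false

namespace Pool.Agent.Lib.MP_a05470_co

open Finset Classical

section Special

variable {V : Type} {H : SimpleGraph V} {X Y : Finset V} {j k : ℕ} {κ : V → V} {σ : V → Bool}
  {u w : V}

/-- two disjoint blue pairs can be split off -/
def Two (H : SimpleGraph V) (k t : ℕ) (X : Finset V) : Prop :=
  ∃ a ∈ X, ∃ b ∈ X, Hᶜ.Adj a b ∧ ∃ c ∈ X \ {a, b}, ∃ d ∈ X \ {a, b}, Hᶜ.Adj c d ∧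
    Cov H k ((X \ {a, b}) \ {c, d}) ∧ HasMat Hᶜ ((X \ {a, b}) \ {c, d}) t

theorem Cov.indep_le (h : Cov H k X) {I : Finset V} (hI : I ⊆ X)
    (hind : ∀ a ∈ I, ∀ b ∈ I, a ≠ b → ¬ H.Adj a b) : I.card ≤ k := by
  obtain ⟨P, h1, h2, h3⟩ := h
  choose! f hf1 hf2 using h2
  refine le_trans ?_ h1
  apply Finset.card_le_card_of_injOn f (fun x hx => hf1 x (hI hx))
  intro a ha b hb hab
  by_contra hcon
  refine hind a ha b hb hcon (h3 (f a) (hf1 a (hI ha)) a (hf2 a (hI ha)) b ?_ hcon)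
  rw [hab]
  exact hf2 b (hI hb)

theorem BalOn.not_both (hB : BalOn H Y κ σ) {a b q : V} (ha : a ∈ Y) (hb : b ∈ Y) (hq : q ∈ Y)
    (hab : H.Adj a b) : ¬ (H.Adj q a ∧ H.Adj q b) := by
  rintro ⟨h1, h2⟩
  have e1 := ((hB.adj a ha b hb).1 hab).2
  have e2 := ((hB.adj q hq a ha).1 h1).2
  have e3 := ((hB.adj q hq b hb).1 h2).2
  have h3 : ∀ p r s : Bool, p ≠ r → s ≠ p → s ≠ r → False := by decide
  exact h3 _ _ _ e1 e2 e3

/-- three red pairs -/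
theorem three_pairs (hB : BalOn H Y κ σ)
    (hF1 : ∀ z ∈ Y, ∀ z' ∈ Y, H.Adj z z' → H.Adj u z ∨ H.Adj w z')
    (hF2 : ∀ y ∈ Y, ∀ y' ∈ Y, ∀ z ∈ Y, ∀ z' ∈ Y, H.Adj y y' → ¬ H.Adj w y → H.Adj z z' →
      z ≠ y → z ≠ y' → z' ≠ y → z' ≠ y' → ¬ H.Adj y' z → ¬ H.Adj u z')
    (hF3 : ∀ y ∈ Y, ∀ y' ∈ Y, ∀ z ∈ Y, ∀ z' ∈ Y, H.Adj y y' → ¬ H.Adj u y → H.Adj z z' →
      z ≠ y → z ≠ y' → z' ≠ y → z' ≠ y' → ¬ H.Adj y' z → ¬ H.Adj w z')
    {y y' v v' z z' : V} (hy : y ∈ Y) (hy' : y' ∈ Y) (hv : v ∈ Y) (hv' : v' ∈ Y) (hz : z ∈ Y)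
    (hz' : z' ∈ Y) (hyy : H.Adj y y') (hvv : H.Adj v v') (hzz : H.Adj z z') (hwy : ¬ H.Adj w y)
    (n1 : v ≠ y) (n2 : v ≠ y') (n3 : v' ≠ y) (n4 : v' ≠ y') (n5 : z ≠ y) (n6 : z ≠ y')
    (n7 : z' ≠ y) (n8 : z' ≠ y') (n9 : z ≠ v) (n10 : z ≠ v') (n11 : z' ≠ v) (n12 : z' ≠ v')
    (hyv : ¬ H.Adj y' v) (hyz : ¬ H.Adj y' z) :
    H.Adj v y ∧ ¬ H.Adj u v' ∧ ¬ H.Adj w v' ∧ ¬ H.Adj u y := by
  have s1 : ¬ H.Adj u v' := hF2 y hy y' hy' v hv v' hv' hyy hwy hvv n1 n2 n3 n4 hyv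
  have s2 : ¬ H.Adj u z' := hF2 y hy y' hy' z hz z' hz' hyy hwy hzz n5 n6 n7 n8 hyz
  have s3 : H.Adj w v := (hF1 v' hv' v hv hvv.symm).resolve_left s1
  have s4 : H.Adj w z := (hF1 z' hz' z hz hzz.symm).resolve_left s2
  have s5 : H.Adj v z' := by
    by_contra hcon
    exact hF3 v' hv' v hv z' hz' z hz hvv.symm s1 hzz.symm n12 n11 n10 n9 hcon s4
  have s6 : ¬ H.Adj v z := fun h => hB.not_both hz hz' hv hzz ⟨h, s5⟩
  have s8 : H.Adj z v' := by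
    by_contra hcon
    exact hF3 z' hz' z hz v' hv' v hv hzz.symm s2 hvv.symm (Ne.symm n12) (Ne.symm n10)
      (Ne.symm n11) (Ne.symm n9) hcon s3
  have s10 : ¬ H.Adj w v' :=
    hF3 z' hz' z hz v hv v' hv' hzz.symm s2 hvv (Ne.symm n11) (Ne.symm n9)
      (Ne.symm n12) (Ne.symm n10) (fun h => s6 h.symm)
  have s11 : H.Adj u y' := (hF1 y' hy' y hy hyy.symm).resolve_right hwy
  have s12 : H.Adj v y := by
    by_contra hcon
    exact hF2 v' hv' v hv y hy y' hy' hvv.symm s10 hyy (Ne.symm n3) (Ne.symm n1) (Ne.symm n4)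
      (Ne.symm n2) hcon s11
  exact ⟨s12, s1, s10, hF2 v' hv' v hv y' hy' y hy hvv.symm s10 hyy.symm (Ne.symm n4)
    (Ne.symm n2) (Ne.symm n3) (Ne.symm n1) (fun h => hyv h.symm)⟩

/-- the forced structure -/
theorem forced (hB : BalOn H Y κ σ) (hcard : 6 ≤ Y.card)
    (hF1 : ∀ z ∈ Y, ∀ z' ∈ Y, H.Adj z z' → H.Adj u z ∨ H.Adj w z')
    (hF2 : ∀ y ∈ Y, ∀ y' ∈ Y, ∀ z ∈ Y, ∀ z' ∈ Y, H.Adj y y' → ¬ H.Adj w y → H.Adj z z' →
      z ≠ y → z ≠ y' → z' ≠ y → z' ≠ y' → ¬ H.Adj y' z → ¬ H.Adj u z')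
    (hF3 : ∀ y ∈ Y, ∀ y' ∈ Y, ∀ z ∈ Y, ∀ z' ∈ Y, H.Adj y y' → ¬ H.Adj u y → H.Adj z z' →
      z ≠ y → z ≠ y' → z' ≠ y → z' ≠ y' → ¬ H.Adj y' z → ¬ H.Adj w z')
    {y : V} (hy : y ∈ Y) (hwy : ¬ H.Adj w y) :
    ∀ p ∈ Y, κ p = κ y ∧ (σ p = σ y → ¬ H.Adj u p ∧ ¬ H.Adj w p) := by
  obtain ⟨y', hy', hyy⟩ := hB.partner hy
  have hB1 := hB.remove hy hy' hyy
  have hc1 := card_sdiff_pair hy hy' (H.ne_of_adj hyy)
  have info : ∀ p ∈ Y \ {y, y'}, ∀ p' ∈ Y \ {y, y'}, H.Adj p p' → ¬ H.Adj y' p →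
      H.Adj p y ∧ ¬ H.Adj u p' ∧ ¬ H.Adj w p' ∧ ¬ H.Adj u y := by
    intro p hp p' hp' hpp hyp
    have hB2 := hB1.remove hp hp' hpp
    have hc2 := card_sdiff_pair hp hp' (H.ne_of_adj hpp)
    obtain ⟨z, hz⟩ := Finset.card_pos.1 (show 0 < ((Y \ {y, y'}) \ {p, p'}).card by omega)
    obtain ⟨z', hz', hzz⟩ := hB2.partner hz
    simp only [Finset.mem_sdiff, Finset.mem_insert, Finset.mem_singleton, not_or] at hp hp' hz hz'
    obtain ⟨hp0, hp1, hp2⟩ := hp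
    obtain ⟨hp'0, hp'1, hp'2⟩ := hp'
    obtain ⟨⟨hz0, hz1, hz2⟩, hz3, hz4⟩ := hz
    obtain ⟨⟨hz'0, hz'1, hz'2⟩, hz'3, hz'4⟩ := hz'
    by_cases hyz : H.Adj y' z
    · have hyz' : ¬ H.Adj y' z' := fun h => hB.not_both hz0 hz'0 hy' hzz ⟨hyz, h⟩
      exact three_pairs hB hF1 hF2 hF3 hy hy' hp0 hp'0 hz'0 hz0 hyy hpp hzz.symm hwy hp1 hp2 hp'1
        hp'2 hz'1 hz'2 hz1 hz2 hz'3 hz'4 hz3 hz4 hyp hyz'
    · exact three_pairs hB hF1 hF2 hF3 hy hy' hp0 hp'0 hz0 hz'0 hyy hpp hzz hwy hp1 hp2 hp'1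
        hp'2 hz1 hz2 hz'1 hz'2 hz3 hz4 hz'3 hz'4 hyp hyz
  have key : ∀ p ∈ Y \ {y, y'}, κ p = κ y ∧ (σ p = σ y → ¬ H.Adj u p ∧ ¬ H.Adj w p) ∧
      ¬ H.Adj u y := by
    intro p hp
    obtain ⟨p', hp', hpp⟩ := hB1.partner hp
    have hpY := (Finset.mem_sdiff.1 hp).1
    have hp'Y := (Finset.mem_sdiff.1 hp').1
    by_cases hyp : H.Adj y' p
    · have hyp' : ¬ H.Adj y' p' := fun h => hB.not_both hpY hp'Y hy' hpp ⟨hyp, h⟩
      obtain ⟨i1, i2, i3, i4⟩ := info p' hp' p hp hpp.symm hyp'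
      exact ⟨((hB.adj p hpY p' hp'Y).1 hpp).1.trans ((hB.adj p' hp'Y y hy).1 i1).1,
        fun _ => ⟨i2, i3⟩, i4⟩
    · obtain ⟨i1, i2, i3, i4⟩ := info p hp p' hp' hpp hyp
      have i5 := (hB.adj p hpY y hy).1 i1
      exact ⟨i5.1, fun h => absurd h i5.2, i4⟩
  intro p hp
  by_cases hpy : p = y
  · rw [hpy]
    obtain ⟨q, hq⟩ := Finset.card_pos.1 (show 0 < (Y \ {y, y'}).card by omega)
    exact ⟨rfl, fun _ => ⟨(key q hq).2.2, hwy⟩⟩
  · by_cases hpy' : p = y'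
    · rw [hpy']
      have h1 := (hB.adj y hy y' hy').1 hyy
      exact ⟨h1.1.symm, fun h => absurd h.symm h1.2⟩
    · have h1 := key p (by
        simp only [Finset.mem_sdiff, Finset.mem_insert, Finset.mem_singleton]
        tauto)
      exact ⟨h1.1, h1.2.1⟩

theorem special_forced (hB : BalOn H (X \ {u, w}) κ σ) (hcard : (X \ {u, w}).card = 2 * (j + 3))
    (hu : u ∈ X) (hw : w ∈ X) (huw : Hᶜ.Adj u w) (hcov : Cov H (j + 4) X)
    (hF1 : ∀ z ∈ X \ {u, w}, ∀ z' ∈ X \ {u, w}, H.Adj z z' → H.Adj u z ∨ H.Adj w z')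
    (hF2 : ∀ y ∈ X \ {u, w}, ∀ y' ∈ X \ {u, w}, ∀ z ∈ X \ {u, w}, ∀ z' ∈ X \ {u, w},
      H.Adj y y' → ¬ H.Adj w y → H.Adj z z' →
      z ≠ y → z ≠ y' → z' ≠ y → z' ≠ y' → ¬ H.Adj y' z → ¬ H.Adj u z')
    (hF3 : ∀ y ∈ X \ {u, w}, ∀ y' ∈ X \ {u, w}, ∀ z ∈ X \ {u, w}, ∀ z' ∈ X \ {u, w},
      H.Adj y y' → ¬ H.Adj u y → H.Adj z z' →
      z ≠ y → z ≠ y' → z' ≠ y → z' ≠ y' → ¬ H.Adj y' z → ¬ H.Adj w z')
    {y : V} (hy : y ∈ X \ {u, w}) (hwy : ¬ H.Adj w y) : False := by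
  have h1 := forced hB (by omega) hF1 hF2 hF3 hy hwy
  have huw' : u ≠ w ∧ ¬ H.Adj u w := by
    rw [SimpleGraph.compl_adj] at huw
    exact huw
  set I := (X \ {u, w}).filter (fun x => σ x = σ y) with hI
  have hc : I.card = j + 3 := by
    have h2 := hB.card (κ y)
    have h3 : ∀ r : Bool, (X \ {u, w}).filter (fun x => κ x = κ y ∧ σ x = r) =
        (X \ {u, w}).filter (fun x => σ x = r) := by
      intro r
      apply Finset.filter_congr
      intro a ha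
      exact ⟨fun h => h.2, fun h => ⟨(h1 a ha).1, h⟩⟩
    rw [h3, h3] at h2
    have h4 := Finset.card_filter_add_card_filter_not (s := X \ {u, w}) (fun x => σ x = true)
    have h5 : (X \ {u, w}).filter (fun x => ¬ σ x = true) =
        (X \ {u, w}).filter (fun x => σ x = false) := by
      apply Finset.filter_congr
      intro a _
      exact Bool.not_eq_true _ ▸ Iff.rfl
    rw [h5] at h4
    cases hs : σ y with
    | true =>
      rw [hI, hs]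
      omega
    | false =>
      rw [hI, hs]
      omega
  have hIX : ∀ a ∈ I, a ∈ X ∧ a ≠ u ∧ a ≠ w ∧ σ a = σ y := by
    intro a ha
    rw [hI] at ha
    simp only [Finset.mem_filter, Finset.mem_sdiff, Finset.mem_insert, Finset.mem_singleton,
      not_or] at ha
    exact ⟨ha.1.1, ha.1.2.1, ha.1.2.2, ha.2⟩
  have hIm : ∀ a ∈ I, a ∈ X \ {u, w} := fun a ha => (Finset.mem_filter.1 ha).1
  have hcard2 : (insert u (insert w I)).card = j + 5 := by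
    rw [Finset.card_insert_of_notMem, Finset.card_insert_of_notMem, hc]
    · intro h
      exact (hIX w h).2.2.1 rfl
    · rw [Finset.mem_insert]
      rintro (h | h)
      · exact huw'.1 h
      · exact (hIX u h).2.1 rfl
  have hle := hcov.indep_le (I := insert u (insert w I)) (by
    intro a ha
    rw [Finset.mem_insert, Finset.mem_insert] at ha
    rcases ha with rfl | rfl | ha
    · exact hu
    · exact hw
    · exact (hIX a ha).1) (by
    have hua : ∀ a ∈ I, ¬ H.Adj u a := fun a ha => ((h1 a (hIm a ha)).2 (hIX a ha).2.2.2).1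
    have hwa : ∀ a ∈ I, ¬ H.Adj w a := fun a ha => ((h1 a (hIm a ha)).2 (hIX a ha).2.2.2).2
    intro a ha b hb hab
    rw [Finset.mem_insert, Finset.mem_insert] at ha hb
    rcases ha with rfl | rfl | ha <;> rcases hb with rfl | rfl | hb
    · exact absurd rfl hab
    · exact huw'.2
    · exact hua b hb
    · exact fun h => huw'.2 h.symm
    · exact absurd rfl hab
    · exact hwa b hb
    · exact fun h => hua a ha h.symm
    · exact fun h => hwa a ha h.symm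
    · intro h
      exact ((hB.adj a (hIm a ha) b (hIm b hb)).1 h).2
        ((hIX a ha).2.2.2.trans (hIX b hb).2.2.2.symm))
  omega

theorem special_beta {t : ℕ} (hB : BalOn H (X \ {u, w}) κ σ)
    (hcard : (X \ {u, w}).card = 2 * (j + 3)) (ht : 2 * t ≤ j) (hw : w ∈ X)
    {y y' z z' : V} (hy : y ∈ X \ {u, w}) (hy' : y' ∈ X \ {u, w}) (hz : z ∈ X \ {u, w})
    (hz' : z' ∈ X \ {u, w}) (hyy : H.Adj y y') (hwy : ¬ H.Adj w y) (hzz : H.Adj z z')
    (n1 : z ≠ y) (n2 : z ≠ y') (n3 : z' ≠ y) (n4 : z' ≠ y') (hyz : ¬ H.Adj y' z)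
    (huz : H.Adj u z') : Two H (j + 2) (2 * t) X := by
  have hB1 := hB.remove hy hy' hyy
  have hc1 := card_sdiff_pair hy hy' (H.ne_of_adj hyy)
  have hzm : z ∈ (X \ {u, w}) \ {y, y'} := by
    rw [Finset.mem_sdiff]
    refine ⟨hz, ?_⟩
    simp only [Finset.mem_insert, Finset.mem_singleton]
    tauto
  have hz'm : z' ∈ (X \ {u, w}) \ {y, y'} := by
    rw [Finset.mem_sdiff]
    refine ⟨hz', ?_⟩
    simp only [Finset.mem_insert, Finset.mem_singleton]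
    tauto
  have hB2 := hB1.remove hzm hz'm hzz
  have hc2 := card_sdiff_pair hzm hz'm (H.ne_of_adj hzz)
  have hT := hB2.tight (j := j + 1) (by omega)
  have hM := hT.hasMat t (by omega)
  have hne := H.ne_of_adj hyy
  simp only [Finset.mem_sdiff, Finset.mem_insert, Finset.mem_singleton, not_or] at hy hy' hz hz'
  refine ⟨w, hw, y, hy.1, compl_adj_of (Ne.symm hy.2.2) hwy, y', ?_, z, ?_,
    compl_adj_of (Ne.symm n2) hyz, ?_, ?_⟩
  · simp only [Finset.mem_sdiff, Finset.mem_insert, Finset.mem_singleton, not_or]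
    exact ⟨hy'.1, hy'.2.2, Ne.symm hne⟩
  · simp only [Finset.mem_sdiff, Finset.mem_insert, Finset.mem_singleton, not_or]
    exact ⟨hz.1, hz.2.2, n1⟩
  · apply hT.2.1.add (clique_pair huz)
    intro a ha
    simp only [Finset.mem_sdiff, Finset.mem_insert, Finset.mem_singleton] at ha ⊢
    tauto
  · apply hM.sub
    intro a ha
    simp only [Finset.mem_sdiff, Finset.mem_insert, Finset.mem_singleton] at ha ⊢
    tauto

theorem special_delta_core {t : ℕ} (hB : BalOn H (X \ {u, w}) κ σ)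
    (hcard : (X \ {u, w}).card = 2 * (j + 3)) (ht : 2 * t ≤ j)
    (hred : ∀ z ∈ X \ {u, w}, H.Adj u z ∧ H.Adj w z)
    {x x' y y' z z' : V} (hz : z ∈ X \ {u, w}) (hz' : z' ∈ X \ {u, w}) (hzz : H.Adj z z')
    (hy : y ∈ (X \ {u, w}) \ {z, z'}) (hy' : y' ∈ (X \ {u, w}) \ {z, z'}) (hyy : H.Adj y y')
    (hx : x ∈ ((X \ {u, w}) \ {z, z'}) \ {y, y'}) (hx' : x' ∈ ((X \ {u, w}) \ {z, z'}) \ {y, y'})
    (hxx : H.Adj x x') (hzy : ¬ H.Adj z y) (hzx : ¬ H.Adj z' x) : Two H (j + 2) (2 * t) X := by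
  have hB1 := hB.remove hz hz' hzz
  have hc1 := card_sdiff_pair hz hz' (H.ne_of_adj hzz)
  have hB2 := hB1.remove hy hy' hyy
  have hc2 := card_sdiff_pair hy hy' (H.ne_of_adj hyy)
  have hB3 := hB2.remove hx hx' hxx
  have hc3 := card_sdiff_pair hx hx' (H.ne_of_adj hxx)
  have hT := hB3.tight (j := j) (by omega)
  have hM := hT.hasMat t ht
  have hne1 := H.ne_of_adj hzz
  have hux : H.Adj u x' := (hred x' (Finset.mem_sdiff.1 (Finset.mem_sdiff.1 hx').1).1).1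
  have hwy : H.Adj w y' := (hred y' (Finset.mem_sdiff.1 hy').1).2
  simp only [Finset.mem_sdiff, Finset.mem_insert, Finset.mem_singleton, not_or] at hx hx' hy hy' hz hz'
  obtain ⟨⟨⟨hx0, _, _⟩, hx1, hx2⟩, hx3, hx4⟩ := hx
  obtain ⟨⟨hy0, _, _⟩, hy1, hy2⟩ := hy
  refine ⟨z, hz.1, y, hy0, compl_adj_of (Ne.symm hy1) hzy, z', ?_, x, ?_,
    compl_adj_of (Ne.symm hx2) hzx, ?_, ?_⟩
  · simp only [Finset.mem_sdiff, Finset.mem_insert, Finset.mem_singleton, not_or]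
    exact ⟨hz'.1, Ne.symm hne1, Ne.symm hy2⟩
  · simp only [Finset.mem_sdiff, Finset.mem_insert, Finset.mem_singleton, not_or]
    exact ⟨hx0, hx1, hx3⟩
  · have h1 := hT.2.1.add (clique_pair hux)
      (Y := (((X \ {u, w}) \ {z, z'}) \ {y, y'}) \ {x, x'} ∪ {u, x'}) (by
        intro a ha
        rwa [Finset.mem_union] at ha)
    apply h1.add (clique_pair hwy)
    intro a ha
    simp only [Finset.mem_sdiff, Finset.mem_insert, Finset.mem_singleton, Finset.mem_union] at ha ⊢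
    tauto
  · apply hM.sub
    intro a ha
    simp only [Finset.mem_sdiff, Finset.mem_insert, Finset.mem_singleton] at ha ⊢
    tauto

theorem special_delta {t : ℕ} (hB : BalOn H (X \ {u, w}) κ σ)
    (hcard : (X \ {u, w}).card = 2 * (j + 3)) (ht : 2 * t ≤ j)
    (hred : ∀ z ∈ X \ {u, w}, H.Adj u z ∧ H.Adj w z) : Two H (j + 2) (2 * t) X := by
  obtain ⟨z, hz⟩ := Finset.card_pos.1 (show 0 < (X \ {u, w}).card by omega)
  obtain ⟨z', hz', hzz⟩ := hB.partner hz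
  have hB1 := hB.remove hz hz' hzz
  have hc1 := card_sdiff_pair hz hz' (H.ne_of_adj hzz)
  obtain ⟨y, hy⟩ := Finset.card_pos.1 (show 0 < ((X \ {u, w}) \ {z, z'}).card by omega)
  obtain ⟨y', hy', hyy⟩ := hB1.partner hy
  have hB2 := hB1.remove hy hy' hyy
  have hc2 := card_sdiff_pair hy hy' (H.ne_of_adj hyy)
  obtain ⟨x, hx⟩ := Finset.card_pos.1 (show 0 < (((X \ {u, w}) \ {z, z'}) \ {y, y'}).card by omega)
  obtain ⟨x', hx', hxx⟩ := hB2.partner hx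
  have hxY := (Finset.mem_sdiff.1 (Finset.mem_sdiff.1 hx).1).1
  have hx'Y := (Finset.mem_sdiff.1 (Finset.mem_sdiff.1 hx').1).1
  have hyY := (Finset.mem_sdiff.1 hy).1
  have hy'Y := (Finset.mem_sdiff.1 hy').1
  by_cases h1 : H.Adj z y
  · have h1' : ¬ H.Adj z y' := fun h => hB.not_both hyY hy'Y hz hyy ⟨h1, h⟩
    rw [Finset.pair_comm y y'] at hx hx'
    by_cases h2 : H.Adj z' x
    · have h2' : ¬ H.Adj z' x' := fun h => hB.not_both hxY hx'Y hz' hxx ⟨h2, h⟩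
      exact special_delta_core hB hcard ht hred hz hz' hzz hy' hy hyy.symm hx' hx hxx.symm h1' h2'
    · exact special_delta_core hB hcard ht hred hz hz' hzz hy' hy hyy.symm hx hx' hxx h1' h2
  · by_cases h2 : H.Adj z' x
    · have h2' : ¬ H.Adj z' x' := fun h => hB.not_both hxY hx'Y hz' hxx ⟨h2, h⟩
      exact special_delta_core hB hcard ht hred hz hz' hzz hy hy' hyy hx' hx hxx.symm h1 h2'
    · exact special_delta_core hB hcard ht hred hz hz' hzz hy hy' hyy hx hx' hxx h1 h2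

/-- if the rest after splitting off one blue pair is balanced, two blue pairs can be split off -/
theorem special {t : ℕ} (hB : BalOn H (X \ {u, w}) κ σ)
    (hcard : (X \ {u, w}).card = 2 * (j + 3)) (ht : 2 * t ≤ j)
    (hu : u ∈ X) (hw : w ∈ X) (huw : Hᶜ.Adj u w) (hcov : Cov H (j + 4) X) :
    Two H (j + 2) (2 * t) X := by
  by_contra hcon
  have hB' : BalOn H (X \ {w, u}) κ σ := by
    rw [Finset.pair_comm w u]
    exact hB
  have hcard' : (X \ {w, u}).card = 2 * (j + 3) := by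
    rw [Finset.pair_comm w u]
    exact hcard
  have hF1 : ∀ z ∈ X \ {u, w}, ∀ z' ∈ X \ {u, w}, H.Adj z z' → H.Adj u z ∨ H.Adj w z' := by
    intro z hz z' hz' hzz
    by_contra h
    rw [not_or] at h
    apply hcon
    have hB1 := hB.remove hz hz' hzz
    have hc1 := card_sdiff_pair hz hz' (H.ne_of_adj hzz)
    have hT := hB1.tight (j := j + 2) (by omega)
    have hM := hT.hasMat t (by omega)
    have hne := H.ne_of_adj hzz
    have hne2 := Hᶜ.ne_of_adj huw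
    simp only [Finset.mem_sdiff, Finset.mem_insert, Finset.mem_singleton, not_or] at hz hz'
    refine ⟨u, hu, z, hz.1, compl_adj_of (Ne.symm hz.2.1) h.1, w, ?_, z', ?_,
      compl_adj_of (Ne.symm hz'.2.2) h.2, ?_, ?_⟩
    · simp only [Finset.mem_sdiff, Finset.mem_insert, Finset.mem_singleton, not_or]
      exact ⟨hw, Ne.symm hne2, Ne.symm hz.2.2⟩
    · simp only [Finset.mem_sdiff, Finset.mem_insert, Finset.mem_singleton, not_or]
      exact ⟨hz'.1, hz'.2.1, Ne.symm hne⟩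
    · apply hT.2.1.sub
      intro a ha
      simp only [Finset.mem_sdiff, Finset.mem_insert, Finset.mem_singleton] at ha ⊢
      tauto
    · apply hM.sub
      intro a ha
      simp only [Finset.mem_sdiff, Finset.mem_insert, Finset.mem_singleton] at ha ⊢
      tauto
  have hF2 : ∀ y ∈ X \ {u, w}, ∀ y' ∈ X \ {u, w}, ∀ z ∈ X \ {u, w}, ∀ z' ∈ X \ {u, w},
      H.Adj y y' → ¬ H.Adj w y → H.Adj z z' →
      z ≠ y → z ≠ y' → z' ≠ y → z' ≠ y' → ¬ H.Adj y' z → ¬ H.Adj u z' := by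
    intro y hy y' hy' z hz z' hz' hyy hwy hzz n1 n2 n3 n4 hyz huz
    exact hcon (special_beta hB hcard ht hw hy hy' hz hz' hyy hwy hzz n1 n2 n3 n4 hyz huz)
  have hF3 : ∀ y ∈ X \ {u, w}, ∀ y' ∈ X \ {u, w}, ∀ z ∈ X \ {u, w}, ∀ z' ∈ X \ {u, w},
      H.Adj y y' → ¬ H.Adj u y → H.Adj z z' →
      z ≠ y → z ≠ y' → z' ≠ y → z' ≠ y' → ¬ H.Adj y' z → ¬ H.Adj w z' := by
    intro y hy y' hy' z hz z' hz' hyy hwy hzz n1 n2 n3 n4 hyz huz
    rw [Finset.pair_comm u w] at hy hy' hz hz'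
    exact hcon (special_beta hB' hcard' ht hu hy hy' hz hz' hyy hwy hzz n1 n2 n3 n4 hyz huz)
  by_cases hd : ∀ z ∈ X \ {u, w}, H.Adj u z ∧ H.Adj w z
  · exact hcon (special_delta hB hcard ht hd)
  · push Not at hd
    obtain ⟨y, hy, hd⟩ := hd
    by_cases hwy : H.Adj w y
    · have huy : ¬ H.Adj u y := fun h => hd h hwy
      have hF1' : ∀ z ∈ X \ {w, u}, ∀ z' ∈ X \ {w, u}, H.Adj z z' → H.Adj w z ∨ H.Adj u z' := by
        intro z hz z' hz' hzz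
        rw [Finset.pair_comm w u] at hz hz'
        exact (hF1 z' hz' z hz hzz.symm).symm
      rw [Finset.pair_comm u w] at hy hF2 hF3
      exact special_forced hB' hcard' hw hu huw.symm hcov hF1' hF3 hF2 hy huy
    · exact special_forced hB hcard hu hw huw hcov hF1 hF2 hF3 hy hwy

end Special

end Pool.Agent.Lib.MP_a05470_co
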