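import Pool.Agent.Lib.MP_a05470_co.Basic

/-!
# The universal structure `U(a, b)`

Every 2-coloured multigraph `G` in which `a·(non-red degree) + b·(non-blue degree) < n` for all
vertices (`1 ≤ a ≤ b` integers) contains a green clique `u_1, …, u_a` and a blue clique
`w_1, …, w_{b+1}` such that `u_i w_i` is red and all other pairs `u_i w_j` are green.

Proof: a maximum blue clique `K` is a dual certificate. For every green `a`-clique `U`, Hall's
theorem and the maximality of `K` show that the total cost of `U` to `K` is at least `a |K|`
unless the structure is present; a greedy argument (fractional Hajnal–Szemerédi) then shows that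
the average cost of a vertex to `K` is at least `|K|`, contradicting the degree condition.
-/

set_option autoImplicit false

namespace Pool.Agent.Lib.MP_a05470_co

open Finset Classical

/-- A weighted form of the fractional Hajnal–Szemerédi theorem. Let `g` be a symmetric relation on
`S` in which every vertex has at most `|S|/a` non-neighbours (itself included), and `d` a weight
function whose sum over every `g`-clique with `a` elements is nonnegative. Then the total weight is
nonnegative. -/
theorem sum_nonneg_of_cliques {α : Type*} (g : α → α → Prop) (hirr : ∀ x, ¬ g x x)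
    (hsymm : ∀ x y, g x y → g y x) (a : ℕ) :
    ∀ (d : α → ℝ) (S : Finset α), 1 ≤ a →
      (∀ v ∈ S, a * (S.filter (fun x => ¬ g v x)).card ≤ S.card) →
      (∀ U ⊆ S, U.card = a → (∀ x ∈ U, ∀ y ∈ U, x ≠ y → g x y) → 0 ≤ ∑ x ∈ U, d x) →
      0 ≤ ∑ x ∈ S, d x := by
  induction a with
  | zero => intro d S h; omega
  | succ a ih =>
    intro d S _ hdeg hcl
    rcases Nat.eq_zero_or_pos a with rfl | ha
    · apply Finset.sum_nonneg
      intro x hx
      have := hcl {x} (by simpa using hx) (by simp) (by
        intro y hy z hz hyz
        rw [Finset.mem_singleton] at hy hz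
        exact absurd (hy.trans hz.symm) hyz)
      simpa using this
    · rcases S.eq_empty_or_nonempty with rfl | hS
      · simp
      obtain ⟨u, hu, hmin⟩ := Finset.exists_min_image S d hS
      by_cases h0 : 0 ≤ d u
      · exact Finset.sum_nonneg (fun x hx => h0.trans (hmin x hx))
      push Not at h0
      set S1 := S.filter (fun x => g u x) with hS1
      have hS1S : S1 ⊆ S := Finset.filter_subset _ _
      have hcard : S1.card + (S.filter (fun x => ¬ g u x)).card = S.card := by
        rw [hS1, Finset.card_filter_add_card_filter_not]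
      have hu1 := hdeg u hu
      have hS1card : a * S.card ≤ (a + 1) * S1.card := by nlinarith
      have haR : (0 : ℝ) < a := by exact_mod_cast ha
      have hdeg1 : ∀ v ∈ S1, a * (S1.filter (fun x => ¬ g v x)).card ≤ S1.card := by
        intro v hv
        have h1 := hdeg v (hS1S hv)
        have h2 : (S1.filter (fun x => ¬ g v x)).card ≤ (S.filter (fun x => ¬ g v x)).card :=
          Finset.card_le_card (Finset.filter_subset_filter _ hS1S)
        have h3 : (a + 1) * (a * (S1.filter (fun x => ¬ g v x)).card) ≤ (a + 1) * S1.card := by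
          calc (a + 1) * (a * (S1.filter (fun x => ¬ g v x)).card)
              = a * ((a + 1) * (S1.filter (fun x => ¬ g v x)).card) := by ring
            _ ≤ a * ((a + 1) * (S.filter (fun x => ¬ g v x)).card) := by gcongr
            _ ≤ a * S.card := by gcongr
            _ ≤ (a + 1) * S1.card := hS1card
        exact Nat.le_of_mul_le_mul_left h3 (by omega)
      have hcl1 : ∀ U ⊆ S1, U.card = a → (∀ x ∈ U, ∀ y ∈ U, x ≠ y → g x y) →
          0 ≤ ∑ x ∈ U, (d x + d u / a) := by
        intro U hU hUa hUc
        have huU : u ∉ U := by
          intro h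
          have := hU h
          rw [hS1, Finset.mem_filter] at this
          exact hirr u this.2
        have h1 := hcl (insert u U) (by
          intro x hx
          rcases Finset.mem_insert.1 hx with rfl | hx
          · exact hu
          · exact hS1S (hU hx)) (by rw [Finset.card_insert_of_notMem huU, hUa]) (by
          intro x hx y hy hxy
          have hg : ∀ z ∈ U, g u z := by
            intro z hz
            have := hU hz
            rw [hS1, Finset.mem_filter] at this
            exact this.2
          rcases Finset.mem_insert.1 hx with hxu | hxU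
          · rcases Finset.mem_insert.1 hy with hyu | hyU
            · exact absurd (hxu.trans hyu.symm) hxy
            · rw [hxu]
              exact hg y hyU
          · rcases Finset.mem_insert.1 hy with hyu | hyU
            · rw [hyu]
              exact hsymm _ _ (hg x hxU)
            · exact hUc x hxU y hyU hxy)
        rw [Finset.sum_insert huU] at h1
        rw [Finset.sum_add_distrib, Finset.sum_const, hUa, nsmul_eq_mul, mul_div_cancel₀ _ haR.ne']
        linarith
      have h1 := ih (fun x => d x + d u / a) S1 ha hdeg1 hcl1
      rw [Finset.sum_add_distrib, Finset.sum_const, nsmul_eq_mul] at h1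
      have h2 : ∑ x ∈ S, d x = ∑ x ∈ S1, d x + ∑ x ∈ S.filter (fun x => ¬ g u x), d x := by
        rw [hS1, Finset.sum_filter_add_sum_filter_not]
      have h3 : ((S.filter (fun x => ¬ g u x)).card : ℝ) * d u ≤
          ∑ x ∈ S.filter (fun x => ¬ g u x), d x := by
        rw [← nsmul_eq_mul]
        apply Finset.card_nsmul_le_sum
        intro x hx
        exact hmin x (Finset.filter_subset _ _ hx)
      have h4 : ((S.filter (fun x => ¬ g u x)).card : ℝ) = (S.card : ℝ) - S1.card := by
        have : ((S1.card + (S.filter (fun x => ¬ g u x)).card : ℕ) : ℝ) = S.card := by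
          exact_mod_cast hcard
        push_cast at this
        linarith
      have h5 : (a : ℝ) * S.card ≤ (a + 1) * S1.card := by exact_mod_cast hS1card
      have h6 : 0 ≤ d u * ((S.card : ℝ) - S1.card - S1.card / a) := by
        apply mul_nonneg_of_nonpos_of_nonpos h0.le
        have h7 : (S.card : ℝ) ≤ (a + 1) * S1.card / a := by
          rw [le_div_iff₀ haR]
          linarith
        have h8 : ((a : ℝ) + 1) * S1.card / a = S1.card + S1.card / a := by
          field_simp
        linarith
      rw [h2]
      rw [h4] at h3
      have h9 : (S1.card : ℝ) * (d u / a) = d u * (S1.card / a) := by ring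
      rw [h9] at h1
      nlinarith

section Main

variable {n : ℕ}

/-- the cost of the pair `v x` -/
noncomputable def dcost (Gr Gb : SimpleGraph (Fin n)) (a b : ℝ) (v x : Fin n) : ℝ :=
  a * (if Gr.Adj v x then 0 else 1) + b * (if Gb.Adj v x then 0 else 1)

variable {Gr Gb : SimpleGraph (Fin n)} {a b : ℝ}

theorem dcost_nonneg (ha : 0 ≤ a) (hb : 0 ≤ b) (v x : Fin n) : 0 ≤ dcost Gr Gb a b v x := by
  unfold dcost
  split_ifs
  · simp
  · simpa using hb
  · simpa using ha
  · simpa using add_nonneg ha hb

theorem sum_dcost (x : Fin n) :
    ∑ v : Fin n, dcost Gr Gb a b v x = a * nonadj Gr x + b * nonadj Gb x := by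
  unfold dcost
  rw [Finset.sum_add_distrib, ← Finset.mul_sum, ← Finset.mul_sum]
  have h : ∀ G : SimpleGraph (Fin n), ∑ v : Fin n, (if G.Adj v x then (0 : ℝ) else 1) =
      nonadj G x := by
    intro G
    unfold nonadj
    rw [Finset.card_filter]
    push_cast
    apply Finset.sum_congr rfl
    intro v _
    by_cases h : G.Adj v x
    · simp [h, h.symm]
    · have h' : ¬ G.Adj x v := fun h2 => h h2.symm
      simp [h, h']
  rw [h, h]

theorem dcost_nonblue (ha : 0 ≤ a) {v x : Fin n} (h : ¬ Gb.Adj v x) :
    b ≤ dcost Gr Gb a b v x := by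
  unfold dcost
  rw [if_neg h]
  split_ifs <;> simp <;> linarith

theorem dcost_missing {v x : Fin n} (h : ¬ Gb.Adj v x) (h' : ¬ Gr.Adj v x) :
    a + b ≤ dcost Gr Gb a b v x := by
  unfold dcost
  rw [if_neg h, if_neg h']
  simp

theorem dcost_nongreen (ha : 0 ≤ a) (hab : a ≤ b) {v x : Fin n} (h : ¬ (Gr.Adj v x ∧ Gb.Adj v x)) :
    a ≤ dcost Gr Gb a b v x := by
  unfold dcost
  split_ifs with h1 h2 h2
  · exact absurd ⟨h1, h2⟩ h
  · simp
    linarith
  · simp
  · simp
    linarith

/-- **The universal structure.** -/
theorem exists_universal {s m : ℕ} (hs : 1 ≤ s) (hsm : s < m) (hn : 0 < n)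
    (hG : ∀ v, (s : ℝ) * nonadj Gr v + ((m : ℝ) - 1) * nonadj Gb v < n) :
    ∃ (u : Fin s → Fin n) (w : Fin m → Fin n), Function.Injective w ∧
      (∀ i i', i ≠ i' → Gr.Adj (u i) (u i') ∧ Gb.Adj (u i) (u i')) ∧
      (∀ j j', j ≠ j' → Gb.Adj (w j) (w j')) ∧
      (∀ (i : Fin s) (j : Fin m), (i : ℕ) ≠ j → Gr.Adj (u i) (w j) ∧ Gb.Adj (u i) (w j)) ∧
      (∀ (i : Fin s) (j : Fin m), (i : ℕ) = j → Gr.Adj (u i) (w j)) := by
  by_contra hcon
  have hs0 : (0 : ℝ) ≤ s := by positivity
  have hsmR : (s : ℝ) ≤ (m : ℝ) - 1 := by
    have : ((s + 1 : ℕ) : ℝ) ≤ m := by exact_mod_cast hsm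
    push_cast at this
    linarith
  have hb0 : (0 : ℝ) ≤ (m : ℝ) - 1 := hs0.trans hsmR
  -- a maximum blue clique
  obtain ⟨K, hK, hmax⟩ := Finset.exists_max_image
    ((Finset.univ : Finset (Finset (Fin n))).filter
      (fun K => ∀ x ∈ K, ∀ y ∈ K, x ≠ y → Gb.Adj x y)) Finset.card ⟨∅, by simp⟩
  rw [Finset.mem_filter] at hK
  have hKb := hK.2
  have hKmax : ∀ K' : Finset (Fin n), (∀ x ∈ K', ∀ y ∈ K', x ≠ y → Gb.Adj x y) →
      K'.card ≤ K.card := by
    intro K' h
    apply hmax K'
    rw [Finset.mem_filter]
    exact ⟨Finset.mem_univ _, h⟩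
  have hKne : 0 < K.card := by
    have := hKmax {⟨0, hn⟩} (by
      intro x hx y hy hxy
      rw [Finset.mem_singleton] at hx hy
      exact absurd (hx.trans hy.symm) hxy)
    simpa using this
  set D := dcost Gr Gb (s : ℝ) ((m : ℝ) - 1) with hD
  set d : Fin n → ℝ := fun v => ∑ x ∈ K, D v x - K.card with hd
  -- the total is negative
  have htot : ∑ v : Fin n, d v < 0 := by
    simp only [hd]
    rw [Finset.sum_sub_distrib, Finset.sum_comm, Finset.sum_const, Finset.card_univ,
      Fintype.card_fin, nsmul_eq_mul]
    have h1 : ∑ x ∈ K, ∑ v : Fin n, D v x < ∑ x ∈ K, (n : ℝ) := by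
      apply Finset.sum_lt_sum_of_nonempty (Finset.card_pos.1 hKne)
      intro x _
      rw [hD, sum_dcost]
      exact hG x
    rw [Finset.sum_const, nsmul_eq_mul] at h1
    linarith
  -- every green clique with `s` elements has nonnegative total
  have hclique : ∀ U : Finset (Fin n), U.card = s →
      (∀ x ∈ U, ∀ y ∈ U, x ≠ y → Gr.Adj x y ∧ Gb.Adj x y) → 0 ≤ ∑ x ∈ U, d x := by
    intro U hUs hU
    -- Hall
    have hall : ∃ f : U → Fin n, Function.Injective f ∧
        ∀ u : U, f u ∈ K.filter (fun x => ¬ Gb.Adj u x) := by
      rw [← Finset.all_card_le_biUnion_card_iff_exists_injective]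
      intro T
      set T' : Finset (Fin n) := T.image Subtype.val with hT'
      have hT'card : T'.card = T.card := Finset.card_image_of_injective _ Subtype.val_injective
      set N := T.biUnion (fun u : U => K.filter (fun x => ¬ Gb.Adj u x)) with hN
      have hNK : N ⊆ K := by
        intro x hx
        rw [hN, Finset.mem_biUnion] at hx
        obtain ⟨u, _, hx⟩ := hx
        exact Finset.filter_subset _ _ hx
      have hcross : ∀ u ∈ T', ∀ x ∈ K \ N, Gb.Adj u x := by
        intro u hu x hx
        rw [hT', Finset.mem_image] at hu
        obtain ⟨u', hu', rfl⟩ := hu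
        rw [Finset.mem_sdiff] at hx
        by_contra hcon
        apply hx.2
        rw [hN, Finset.mem_biUnion]
        exact ⟨u', hu', by rw [Finset.mem_filter]; exact ⟨hx.1, hcon⟩⟩
      have hT'U : ∀ u ∈ T', u ∈ U := by
        intro u hu
        rw [hT', Finset.mem_image] at hu
        obtain ⟨u', _, rfl⟩ := hu
        exact u'.2
      have hdisj : Disjoint (K \ N) T' := by
        rw [Finset.disjoint_left]
        intro x hx hx'
        exact Gb.irrefl (hcross x hx' x hx)
      have h1 := hKmax ((K \ N) ∪ T') (by
        intro x hx y hy hxy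
        rw [Finset.mem_union] at hx hy
        rcases hx with hx | hx <;> rcases hy with hy | hy
        · exact hKb x (Finset.mem_sdiff.1 hx).1 y (Finset.mem_sdiff.1 hy).1 hxy
        · exact (hcross y hy x hx).symm
        · exact hcross x hx y hy
        · exact (hU x (hT'U x hx) y (hT'U y hy) hxy).2)
      rw [Finset.card_union_of_disjoint hdisj, hT'card] at h1
      have h2 := Finset.card_sdiff_add_card_eq_card hNK
      omega
    obtain ⟨f, hf, hfK⟩ := hall
    have hfK' : ∀ u : U, f u ∈ K ∧ ¬ Gb.Adj u (f u) := fun u => by
      have := hfK u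
      rwa [Finset.mem_filter] at this
    -- good partners
    set P : Finset U := Finset.univ.filter (fun u : U => Gr.Adj u (f u) ∧
      ∀ u' : U, u' ≠ u → Gr.Adj u' (f u) ∧ Gb.Adj u' (f u)) with hP
    set G0 : Finset (Fin n) := K.filter (fun x => ∀ u : U, Gr.Adj u x ∧ Gb.Adj u x) with hG0
    set X : Finset (Fin n) := Finset.univ.image f with hX
    have hXK : X ⊆ K := by
      intro x hx
      rw [hX, Finset.mem_image] at hx
      obtain ⟨u, _, rfl⟩ := hx
      exact (hfK' u).1
    have hXcard : X.card = s := by
      rw [hX, Finset.card_image_of_injective _ hf, Finset.card_univ, Fintype.card_coe, hUs]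
    have hG0X : Disjoint G0 X := by
      rw [Finset.disjoint_left]
      intro x hx hx'
      rw [hX, Finset.mem_image] at hx'
      obtain ⟨u, _, rfl⟩ := hx'
      rw [hG0, Finset.mem_filter] at hx
      exact (hfK' u).2 (hx.2 u).2
    -- few good elements
    have hfew : P.card + G0.card < m := by
      by_contra hge
      push Not at hge
      apply hcon
      -- enumerate `U`, good partners first is not needed
      have hUcard : Fintype.card U = s := by rw [Fintype.card_coe, hUs]
      let e : Fin s ≃ U := (Fintype.equivFinOfCardEq hUcard).symm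
      -- indices of `W` that receive a partner
      let J : Finset (Fin m) := Finset.univ.filter
        (fun j => ∃ h : (j : ℕ) < s, e ⟨j, h⟩ ∈ P)
      have hJmem : ∀ j : Fin m, j ∈ J ↔ ∃ h : (j : ℕ) < s, e ⟨j, h⟩ ∈ P := by
        intro j
        simp only [J, Finset.mem_filter, Finset.mem_univ, true_and]
      have hJcard : J.card = P.card := by
        apply Finset.card_bij (fun (j : Fin m) (hj : j ∈ J) => e ⟨j, ((hJmem j).1 hj).1⟩)
        · intro j hj
          exact ((hJmem j).1 hj).2
        · intro j hj j' hj' hjj
          have := e.injective hjj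
          rw [Fin.mk.injEq] at this
          exact Fin.ext this
        · intro u hu
          refine ⟨⟨e.symm u, by have := (e.symm u).2; omega⟩, ?_, ?_⟩
          · rw [hJmem]
            refine ⟨(e.symm u).2, ?_⟩
            simpa using hu
          · simp
      have hle : (Finset.univ \ J).card ≤ G0.card := by
        have h1 := Finset.card_sdiff_add_card_eq_card (Finset.subset_univ J)
        rw [Finset.card_univ, Fintype.card_fin] at h1
        omega
      have hle' : Fintype.card ↥(Finset.univ \ J) ≤ Fintype.card ↥G0 := by
        rw [Fintype.card_coe, Fintype.card_coe]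
        exact hle
      obtain ⟨φ⟩ := Function.Embedding.nonempty_of_card_le hle'
      have hnot : ∀ j : Fin m, j ∉ J → j ∈ Finset.univ \ J := by
        intro j hj
        rw [Finset.mem_sdiff]
        exact ⟨Finset.mem_univ _, hj⟩
      let w : Fin m → Fin n := fun j => if h : j ∈ J then f (e ⟨j, ((hJmem j).1 h).1⟩)
        else φ ⟨j, hnot j h⟩
      have hw1 : ∀ (j : Fin m) (h : j ∈ J), w j = f (e ⟨j, ((hJmem j).1 h).1⟩) := by
        intro j h
        simp only [w, dif_pos h]
      have hw2 : ∀ (j : Fin m) (h : j ∉ J), w j = φ ⟨j, hnot j h⟩ := by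
        intro j h
        simp only [w, dif_neg h]
      have hG0mem : ∀ (j : Fin m) (h : j ∉ J), w j ∈ G0 := by
        intro j h
        rw [hw2 j h]
        exact (φ ⟨j, hnot j h⟩).2
      have hwK : ∀ j, w j ∈ K := by
        intro j
        by_cases h : j ∈ J
        · rw [hw1 j h]
          exact (hfK' _).1
        · exact Finset.filter_subset _ _ (hG0mem j h)
      have hXmem : ∀ (j : Fin m) (h : j ∈ J), w j ∈ X := by
        intro j h
        rw [hw1 j h, hX]
        exact Finset.mem_image_of_mem _ (Finset.mem_univ _)
      have hwinj : Function.Injective w := by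
        intro j j' hjj
        by_cases h : j ∈ J <;> by_cases h' : j' ∈ J
        · rw [hw1 j h, hw1 j' h'] at hjj
          have h3 := e.injective (hf hjj)
          rw [Fin.mk.injEq] at h3
          exact Fin.ext h3
        · exact absurd (hjj ▸ hXmem j h) (Finset.disjoint_left.1 hG0X (hG0mem j' h'))
        · exact absurd (hjj ▸ hXmem j' h') (Finset.disjoint_left.1 hG0X (hG0mem j h))
        · rw [hw2 j h, hw2 j' h'] at hjj
          have h3 := φ.injective (Subtype.val_injective hjj)
          rw [Subtype.mk.injEq] at h3
          exact h3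
      refine ⟨fun i => e i, w, hwinj, ?_, ?_, ?_, ?_⟩
      · intro i i' hii
        apply hU _ (e i).2 _ (e i').2
        intro h
        exact hii (e.injective (Subtype.val_injective h))
      · intro j j' hjj
        exact hKb _ (hwK j) _ (hwK j') (fun h => hjj (hwinj h))
      · intro i j hij
        by_cases h : j ∈ J
        · rw [hw1 j h]
          have h3 := (Finset.mem_filter.1 ((hJmem j).1 h).2)
          apply h3.2.2
          intro h4
          have h5 := e.injective h4
          exact hij (congrArg Fin.val h5)
        · have h3 := hG0mem j h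
          rw [hG0, Finset.mem_filter] at h3
          exact h3.2 (e i)
      · intro i j hij
        by_cases h : j ∈ J
        · rw [hw1 j h]
          have h3 := (Finset.mem_filter.1 ((hJmem j).1 h).2)
          have h5 : (⟨(j : ℕ), ((hJmem j).1 h).1⟩ : Fin s) = i := Fin.ext hij.symm
          have h6 := h3.2.1
          rw [h5] at h6 ⊢
          exact h6
        · have h3 := hG0mem j h
          rw [hG0, Finset.mem_filter] at h3
          exact (h3.2 (e i)).1
    -- the cost
    have hcost : (s : ℝ) * ((m : ℝ) - 1) + s * (K.card - P.card - G0.card) ≤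
        ∑ x ∈ K, ∑ u ∈ U, D u x := by
      have hDnn : ∀ u x, 0 ≤ D u x := fun u x => dcost_nonneg hs0 hb0 u x
      have hone : ∀ u ∈ U, ∀ x, D u x ≤ ∑ u ∈ U, D u x := fun u hu x =>
        Finset.single_le_sum (f := fun u => D u x) (fun u _ => hDnn u x) hu
      -- split `K` into `X`, `G0` and the rest
      have hsplit : ∑ x ∈ K, ∑ u ∈ U, D u x =
          ∑ x ∈ X, ∑ u ∈ U, D u x + ∑ x ∈ K \ X, ∑ u ∈ U, D u x := by
        rw [add_comm, Finset.sum_sdiff hXK]
      have hXsum : ∑ x ∈ X, ∑ u ∈ U, D u x = ∑ u : U, ∑ u' ∈ U, D u' (f u) := by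
        rw [hX, Finset.sum_image (fun u _ u' _ h => hf h)]
      have hXge : (s : ℝ) * ((m : ℝ) - 1) + s * (s - P.card) ≤
          ∑ u : U, ∑ u' ∈ U, D u' (f u) := by
        have h1 : ∑ u : U, (((m : ℝ) - 1) + (if u ∈ P then 0 else (s : ℝ))) =
            (s : ℝ) * ((m : ℝ) - 1) + s * (s - P.card) := by
          rw [Finset.sum_add_distrib, Finset.sum_const, Finset.card_univ, Fintype.card_coe, hUs,
            nsmul_eq_mul]
          congr 1
          rw [← Finset.sum_filter_add_sum_filter_not Finset.univ (fun u : U => u ∈ P)]
          have h2 : ∑ u ∈ Finset.univ.filter (fun u : U => u ∈ P),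
              (if u ∈ P then 0 else (s : ℝ)) = 0 := by
            apply Finset.sum_eq_zero
            intro u hu
            rw [if_pos (Finset.mem_filter.1 hu).2]
          have h3 : ∑ u ∈ Finset.univ.filter (fun u : U => ¬ u ∈ P),
              (if u ∈ P then 0 else (s : ℝ)) =
              (Finset.univ.filter (fun u : U => ¬ u ∈ P)).card * (s : ℝ) := by
            rw [← nsmul_eq_mul, ← Finset.sum_const]
            apply Finset.sum_congr rfl
            intro u hu
            rw [if_neg (Finset.mem_filter.1 hu).2]
          have h4 : ((Finset.univ.filter (fun u : U => ¬ u ∈ P)).card : ℝ) = s - P.card := by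
            have h5 := Finset.card_filter_add_card_filter_not (s := (Finset.univ : Finset U))
              (fun u : U => u ∈ P)
            rw [Finset.card_univ, Fintype.card_coe, hUs] at h5
            have h6 : (Finset.univ.filter (fun u : U => u ∈ P)) = P := by
              ext u
              simp
            rw [h6] at h5
            have h7 : ((P.card + (Finset.univ.filter (fun u : U => ¬ u ∈ P)).card : ℕ) : ℝ) = s := by
              exact_mod_cast h5
            push_cast at h7
            linarith
          rw [h2, h3, h4]
          ring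
        rw [← h1]
        apply Finset.sum_le_sum
        intro u _
        by_cases hu : u ∈ P
        · rw [if_pos hu, add_zero]
          exact (dcost_nonblue hs0 (hfK' u).2).trans (hone u u.2 (f u))
        · rw [if_neg hu]
          by_cases hr : Gr.Adj u (f u)
          · have hex : ∃ u' : U, u' ≠ u ∧ ¬ (Gr.Adj u' (f u) ∧ Gb.Adj u' (f u)) := by
              by_contra hcon2
              push Not at hcon2
              apply hu
              rw [hP, Finset.mem_filter]
              exact ⟨Finset.mem_univ _, hr, hcon2⟩
            obtain ⟨u', hu', hng⟩ := hex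
            have hne : (u' : Fin n) ≠ u := fun h => hu' (Subtype.val_injective h)
            have h5 : ∑ x ∈ ({(u : Fin n), (u' : Fin n)} : Finset (Fin n)), D x (f u) ≤
                ∑ x ∈ U, D x (f u) := by
              apply Finset.sum_le_sum_of_subset_of_nonneg
              · intro x hx
                rw [Finset.mem_insert, Finset.mem_singleton] at hx
                rcases hx with rfl | rfl
                · exact u.2
                · exact u'.2
              · intro x _ _
                exact hDnn _ _
            rw [Finset.sum_pair hne.symm] at h5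
            have h6 := dcost_nonblue (Gr := Gr) (b := (m : ℝ) - 1) hs0 (hfK' u).2
            have h7 := dcost_nongreen hs0 hsmR hng
            exact (add_le_add h6 h7).trans h5
          · have h5 := dcost_missing (a := (s : ℝ)) (b := (m : ℝ) - 1) (hfK' u).2 hr
            have h6 := hone u u.2 (f u)
            linarith
      have hRge : (s : ℝ) * (K.card - s - G0.card) ≤ ∑ x ∈ K \ X, ∑ u ∈ U, D u x := by
        have h1 : ∑ x ∈ (K \ X) \ G0, (s : ℝ) ≤ ∑ x ∈ K \ X, ∑ u ∈ U, D u x := by
          calc ∑ x ∈ (K \ X) \ G0, (s : ℝ) ≤ ∑ x ∈ (K \ X) \ G0, ∑ u ∈ U, D u x := by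
                apply Finset.sum_le_sum
                intro x hx
                rw [Finset.mem_sdiff, Finset.mem_sdiff] at hx
                have hex : ∃ u : U, ¬ (Gr.Adj u x ∧ Gb.Adj u x) := by
                  by_contra hcon2
                  push Not at hcon2
                  apply hx.2
                  rw [hG0, Finset.mem_filter]
                  exact ⟨hx.1.1, hcon2⟩
                obtain ⟨u, hu⟩ := hex
                exact (dcost_nongreen hs0 hsmR hu).trans (hone u u.2 x)
            _ ≤ ∑ x ∈ K \ X, ∑ u ∈ U, D u x := by
                apply Finset.sum_le_sum_of_subset_of_nonneg Finset.sdiff_subset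
                intro x _ _
                exact Finset.sum_nonneg (fun u _ => hDnn u x)
        rw [Finset.sum_const, nsmul_eq_mul] at h1
        have hG0sub : G0 ⊆ K \ X := by
          intro x hx
          rw [Finset.mem_sdiff]
          exact ⟨Finset.filter_subset _ _ hx, Finset.disjoint_left.1 hG0X hx⟩
        have h2 := Finset.card_sdiff_add_card_eq_card hG0sub
        have h3 := Finset.card_sdiff_add_card_eq_card hXK
        rw [hXcard] at h3
        have h4 : (((K \ X) \ G0).card : ℝ) = K.card - s - G0.card := by
          have h5 : ((((K \ X) \ G0).card + G0.card + s : ℕ) : ℝ) = K.card := by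
            rw [h2, h3]
          push_cast at h5
          linarith
        rw [h4] at h1
        linarith
      rw [hsplit, hXsum]
      nlinarith
    have h1 : ∑ x ∈ U, d x = ∑ x ∈ K, ∑ u ∈ U, D u x - s * K.card := by
      simp only [hd]
      rw [Finset.sum_sub_distrib, Finset.sum_comm, Finset.sum_const, hUs, nsmul_eq_mul]
    have h2 : (P.card : ℝ) + G0.card ≤ (m : ℝ) - 1 := by
      have : ((P.card + G0.card + 1 : ℕ) : ℝ) ≤ m := by exact_mod_cast hfew
      push_cast at this
      linarith
    rw [h1]
    nlinarith
  -- conclusion
  have hfin := sum_nonneg_of_cliques (fun x y => Gr.Adj x y ∧ Gb.Adj x y)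
    (fun x h => Gr.irrefl h.1) (fun x y h => ⟨h.1.symm, h.2.symm⟩) s d Finset.univ hs (by
      intro v _
      rw [Finset.card_univ, Fintype.card_fin]
      have h1 : (s : ℝ) * ((Finset.univ : Finset (Fin n)).filter
          (fun x => ¬ (Gr.Adj v x ∧ Gb.Adj v x))).card ≤ n := by
        have h2 : ∑ x ∈ (Finset.univ : Finset (Fin n)).filter
          (fun x => ¬ (Gr.Adj v x ∧ Gb.Adj v x)), (s : ℝ) ≤ ∑ x : Fin n, D x v := by
          calc ∑ x ∈ (Finset.univ : Finset (Fin n)).filter
                (fun x => ¬ (Gr.Adj v x ∧ Gb.Adj v x)), (s : ℝ)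
              ≤ ∑ x ∈ (Finset.univ : Finset (Fin n)).filter
                (fun x => ¬ (Gr.Adj v x ∧ Gb.Adj v x)), D x v := by
                apply Finset.sum_le_sum
                intro x hx
                rw [Finset.mem_filter] at hx
                apply dcost_nongreen hs0 hsmR
                intro h
                exact hx.2 ⟨h.1.symm, h.2.symm⟩
            _ ≤ ∑ x : Fin n, D x v := by
                apply Finset.sum_le_sum_of_subset_of_nonneg (Finset.subset_univ _)
                intro x _ _
                exact dcost_nonneg hs0 hb0 _ _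
        rw [Finset.sum_const, nsmul_eq_mul, hD, sum_dcost] at h2
        have h3 := hG v
        linarith
      have h4 : s * ((Finset.univ : Finset (Fin n)).filter
          (fun x => ¬ (Gr.Adj v x ∧ Gb.Adj v x))).card ≤ n := by exact_mod_cast h1
      convert h4) (fun U _ hUs hU => hclique U hUs hU)
  linarith

end Main

end Pool.Agent.Lib.MP_a05470_co
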