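import Pool.Agent.Lib.MP_a05470_co.Univ
import Pool.Agent.Lib.MP_a05470_co.Dominate

set_option autoImplicit false

namespace Pool.Agent.Lib.MP_a05470_co

open Finset Classical Filter Topology

/-- an injection between finite types can be numbered: `σ (f x) = e x` as numbers -/
theorem exists_numbering {U W : Type} [Fintype U] [Fintype W] (f : U → W)
    (hf : Function.Injective f) :
    ∃ (e : U ≃ Fin (Fintype.card U)) (σ : W ≃ Fin (Fintype.card W)),
      ∀ x, ((σ (f x) : Fin _) : ℕ) = e x := by
  classical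
  have hle : Fintype.card U ≤ Fintype.card W := Fintype.card_le_of_injective f hf
  let e : U ≃ Fin (Fintype.card U) := Fintype.equivFin U
  let g : W ≃ Fin (Fintype.card W) := Fintype.equivFin W
  let p : Fin (Fintype.card W) → Prop := fun j => ∃ x, g (f x) = j
  let q : Fin (Fintype.card W) → Prop := fun j => ∃ x : U, Fin.castLE hle (e x) = j
  have h1 : Function.Injective (fun x => g (f x)) := g.injective.comp hf
  have h2 : Function.Injective (fun x : U => Fin.castLE hle (e x)) :=
    (Fin.castLE_injective hle).comp e.injective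
  let e1 : U ≃ {j // p j} := Equiv.ofInjective (fun x => g (f x)) h1
  let e2 : U ≃ {j // q j} := Equiv.ofInjective (fun x : U => Fin.castLE hle (e x)) h2
  let τ : Equiv.Perm (Fin (Fintype.card W)) := (e1.symm.trans e2).extendSubtype
  refine ⟨e, g.trans τ, fun x => ?_⟩
  have h3 : τ (g (f x)) = Fin.castLE hle (e x) := by
    have h4 : p (g (f x)) := ⟨x, rfl⟩
    have h5 := (e1.symm.trans e2).extendSubtype_apply_of_mem (g (f x)) h4
    have h6 : e1.symm ⟨g (f x), h4⟩ = x := by
      rw [Equiv.symm_apply_eq]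
      rfl
    have h7 : (e1.symm.trans e2) ⟨g (f x), h4⟩ = e2 x := by
      rw [Equiv.trans_apply, h6]
    show (e1.symm.trans e2).extendSubtype (g (f x)) = _
    rw [h5, h7]
    rfl
  show ((τ (g (f x)) : Fin _) : ℕ) = e x
  rw [h3]
  rfl

/-- `V(H) = U ∪ W` with `W` a blue clique, `|U| < |W|` and a red matching of `U` into `W`;
everything else is arbitrary. -/
theorem forces_univ {U W : Type} [Fintype U] [Fintype W] [Nonempty U] (f : U → W)
    (hf : Function.Injective f) (hc : Fintype.card U < Fintype.card W)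
    (H : SimpleGraph (U ⊕ W)) (hW : ∀ y y', ¬ H.Adj (Sum.inr y) (Sum.inr y'))
    (hUW : ∀ x, H.Adj (Sum.inl x) (Sum.inr (f x))) :
    Forces (Fintype.card U : ℝ) ((Fintype.card W : ℝ) - 1) H Hᶜ := by
  intro ε hε
  refine ⟨1, ?_⟩
  intro n hn Gr Gb hG0
  have hn0 : 0 < n := hn
  have hnR : (0 : ℝ) < n := by exact_mod_cast hn0
  obtain ⟨u, w, hwi, huu, hww, huw, hm⟩ := exists_universal (Gr := Gr) (Gb := Gb)
    (s := Fintype.card U) (m := Fintype.card W) Fintype.card_pos hc hn0 (by
      intro v
      have h1 := hG0 v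
      nlinarith)
  obtain ⟨e, σ, hσ⟩ := exists_numbering f hf
  have hred : ∀ x y, Gr.Adj (u (e x)) (w (σ y)) := by
    intro x y
    by_cases h : ((e x : Fin _) : ℕ) = σ y
    · exact hm _ _ h
    · exact (huw _ _ h).1
  refine ⟨Sum.elim (fun x => u (e x)) (fun y => w (σ y)), ?_, ?_⟩
  · rintro (x | y) (x' | y') hxy
    · by_contra hne
      have h1 : x ≠ x' := fun h => hne (by rw [h])
      have h2 := (huu (e x) (e x') (fun h => h1 (e.injective h))).1
      have h3 : u (e x) = u (e x') := hxy
      rw [h3] at h2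
      exact Gr.irrefl h2
    · exfalso
      have h2 := hred x y'
      have h3 : u (e x) = w (σ y') := hxy
      rw [h3] at h2
      exact Gr.irrefl h2
    · exfalso
      have h2 := hred x' y
      have h3 : w (σ y) = u (e x') := hxy
      rw [h3] at h2
      exact Gr.irrefl h2
    · have h3 : w (σ y) = w (σ y') := hxy
      rw [σ.injective (hwi h3)]
  · have hmix : ∀ x y, (H.Adj (Sum.inl x) (Sum.inr y) → Gr.Adj (u (e x)) (w (σ y))) ∧
        (Hᶜ.Adj (Sum.inl x) (Sum.inr y) → Gb.Adj (u (e x)) (w (σ y))) := by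
      intro x y
      refine ⟨fun _ => hred x y, fun h => ?_⟩
      rw [SimpleGraph.compl_adj] at h
      apply (huw _ _ _).2
      intro h4
      rw [← hσ x] at h4
      have h5 : σ (f x) = σ y := Fin.ext h4
      have h6 := σ.injective h5
      rw [← h6] at h
      exact h.2 (hUW x)
    rintro (x | y) (x' | y')
    · refine ⟨fun h => ?_, fun h => ?_⟩
      · exact (huu _ _ (fun h1 => h.ne (by rw [e.injective h1]))).1
      · exact (huu _ _ (fun h1 => h.ne (by rw [e.injective h1]))).2
    · exact hmix x y'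
    · refine ⟨fun h => ?_, fun h => ?_⟩
      · exact ((hmix x' y).1 h.symm).symm
      · exact ((hmix x' y).2 h.symm).symm
    · refine ⟨fun h => absurd h (hW y y'), fun h => ?_⟩
      exact hww _ _ (fun h1 => h.ne (by rw [σ.injective h1]))

end Pool.Agent.Lib.MP_a05470_co
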