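import Pool.Agent.Lib.MP_a05470_co.PDCore

set_option autoImplicit false

namespace Pool.Agent.Lib.MP_a05470_co

open Finset Classical Filter Topology

/-- A weighted graph in which every vertex of positive weight is dense contains `H`. -/
theorem contains_of_weighted {U V : Type} [Fintype V] {a b : ℝ} (ha : 0 ≤ a) (hb : 0 ≤ b)
    {H : SimpleGraph U} (hF : Forces a b H Hᶜ) (Gr Gb : SimpleGraph V) (y : V → ℝ)
    (hy : ∀ v, 0 ≤ y v) (hsum : 0 < ∑ v, y v) {c : ℝ} (hc : c < 1)
    (hd : ∀ v, 0 < y v → a * nmass Gr y v + b * nmass Gb y v ≤ c * ∑ v, y v) :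
    Contains H Hᶜ Gr Gb := by
  set Y := ∑ v, y v with hY
  set ε := (1 - c) / 2 with hε
  have hεpos : 0 < ε := by rw [hε]; linarith
  obtain ⟨N, hN⟩ := hF ε hεpos
  obtain ⟨n, hn1, hn2⟩ : ∃ n : ℕ, N + Fintype.card V ≤ n ∧ (Fintype.card V : ℝ) / ε ≤ n := by
    obtain ⟨k, hk⟩ := exists_nat_ge ((Fintype.card V : ℝ) / ε)
    exact ⟨max k (N + Fintype.card V), le_max_right _ _,
      hk.trans (by exact_mod_cast le_max_left _ _)⟩
  set m : V → ℕ := fun v => ⌊(n : ℝ) * (y v / Y)⌋₊ with hm
  have hm1 : ∀ v, (m v : ℝ) ≤ n * (y v / Y) := fun v =>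
    Nat.floor_le (mul_nonneg (Nat.cast_nonneg n) (div_nonneg (hy v) hsum.le))
  have hm2 : ∀ v, (n : ℝ) * (y v / Y) - 1 ≤ m v := fun v => by
    have := Nat.lt_floor_add_one ((n : ℝ) * (y v / Y))
    simp only [hm]
    linarith
  set T := Σ v, Fin (m v) with hT
  set n' := Fintype.card T with hn'
  let e : T ≃ Fin n' := Fintype.equivFin T
  let φ : Fin n' → V := fun i => (e.symm i).1
  have hcard : ∀ P : V → Prop, (univ.filter (fun i : Fin n' => P (φ i))).card =
      ∑ v, if P v then m v else 0 := by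
    intro P
    rw [Finset.card_filter]
    have h1 : ∑ i : Fin n', (if P (φ i) then 1 else 0) = ∑ t : T, (if P t.1 then 1 else 0) :=
      Equiv.sum_comp e.symm (fun t : T => if P t.1 then 1 else 0)
    rw [h1, Fintype.sum_sigma]
    refine Finset.sum_congr rfl (fun v _ => ?_)
    by_cases h : P v <;> simp [h]
  have hn'1 : (n' : ℝ) = ∑ v, (m v : ℝ) := by
    have h1 := hcard (fun _ => True)
    simp only [Finset.filter_true, if_true, Finset.card_univ, Fintype.card_fin] at h1
    rw [h1]
    push_cast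
    rfl
  have hn'2 : (n : ℝ) - Fintype.card V ≤ n' := by
    rw [hn'1]
    have h1 : ∑ v : V, ((n : ℝ) * (y v / Y) - 1) = n - Fintype.card V := by
      rw [Finset.sum_sub_distrib, ← Finset.mul_sum, ← Finset.sum_div, ← hY, div_self hsum.ne']
      simp
    rw [← h1]
    exact Finset.sum_le_sum (fun v _ => hm2 v)
  have hn'3 : N ≤ n' := by
    have h1 : (N : ℝ) + Fintype.card V ≤ n := by exact_mod_cast hn1
    have h2 : (N : ℝ) ≤ n' := by linarith
    exact_mod_cast h2
  have hpos : ∀ i : Fin n', 0 < y (φ i) := by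
    intro i
    refine lt_of_le_of_ne (hy _) (fun h0 => ?_)
    have h1 : m (φ i) = 0 := by simp [hm, ← h0]
    have h2 := (e.symm i).2
    change Fin (m (φ i)) at h2
    rw [h1] at h2
    exact h2.elim0
  have hnonadj : ∀ (G : SimpleGraph V) (i : Fin n'),
      (nonadj (G.comap φ) i : ℝ) ≤ n / Y * nmass G y (φ i) := by
    intro G i
    have h1 : nonadj (G.comap φ) i = ∑ v, if ¬ G.Adj (φ i) v then m v else 0 := by
      have := hcard (fun v => ¬ G.Adj (φ i) v)
      unfold nonadj
      convert this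
      exact SimpleGraph.comap_adj
    rw [h1]
    push_cast
    unfold nmass
    rw [Finset.mul_sum]
    refine Finset.sum_le_sum (fun v _ => ?_)
    by_cases h : G.Adj (φ i) v
    · simp [h]
    · simp only [h, not_false_eq_true, if_true, if_false]
      refine (hm1 v).trans (le_of_eq ?_)
      ring
  have hcont : Contains H Hᶜ (Gr.comap φ) (Gb.comap φ) := by
    refine hN n' hn'3 _ _ (fun i => ?_)
    have h1 := hnonadj Gr i
    have h2 := hnonadj Gb i
    have h3 := hd (φ i) (hpos i)
    have hnY : (0 : ℝ) ≤ n / Y := div_nonneg (Nat.cast_nonneg n) hsum.le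
    have h4 : a * (nonadj (Gr.comap φ) i : ℝ) + b * (nonadj (Gb.comap φ) i : ℝ) ≤ c * n := by
      calc a * (nonadj (Gr.comap φ) i : ℝ) + b * (nonadj (Gb.comap φ) i : ℝ)
          ≤ a * (n / Y * nmass Gr y (φ i)) + b * (n / Y * nmass Gb y (φ i)) :=
            add_le_add (mul_le_mul_of_nonneg_left h1 ha) (mul_le_mul_of_nonneg_left h2 hb)
        _ = n / Y * (a * nmass Gr y (φ i) + b * nmass Gb y (φ i)) := by ring
        _ ≤ n / Y * (c * Y) := mul_le_mul_of_nonneg_left h3 hnY
        _ = c * n := by field_simp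
    have h5 : (Fintype.card V : ℝ) ≤ n * ε := (div_le_iff₀ hεpos).1 hn2
    have h6 : c = 1 - 2 * ε := by rw [hε]; ring
    rcases le_total (1 - ε) 0 with h7 | h7
    · -- then `c < 0`, impossible
      exfalso
      have h8 : c < 0 := by rw [h6]; linarith
      have h9 : 0 ≤ nmass Gr y (φ i) := by
        unfold nmass
        exact Finset.sum_nonneg (fun v _ => by split_ifs; exacts [le_rfl, hy v])
      have h10 : 0 ≤ nmass Gb y (φ i) := by
        unfold nmass
        exact Finset.sum_nonneg (fun v _ => by split_ifs; exacts [le_rfl, hy v])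
      nlinarith [mul_nonneg ha h9, mul_nonneg hb h10]
    · calc a * (nonadj (Gr.comap φ) i : ℝ) + b * (nonadj (Gb.comap φ) i : ℝ) ≤ c * n := h4
        _ ≤ (1 - ε) * (n - Fintype.card V) := by
            rw [h6]
            nlinarith
        _ ≤ (1 - ε) * n' := mul_le_mul_of_nonneg_left hn'2 h7
  obtain ⟨f, hf, hadj⟩ := hcont
  refine ⟨fun u => φ (f u), fun u v huv => ?_, fun u v => hadj u v⟩
  by_contra hne
  rcases Classical.em (H.Adj u v) with h | h
  · have := (hadj u v).1 h
    simp only [SimpleGraph.comap_adj] at this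
    simp only at huv
    rw [huv] at this
    exact Gr.loopless.irrefl _ this
  · have := (hadj u v).2 (by
      rw [SimpleGraph.compl_adj]
      exact ⟨hne, h⟩)
    simp only [SimpleGraph.comap_adj] at this
    simp only at huv
    rw [huv] at this
    exact Gb.loopless.irrefl _ this

end Pool.Agent.Lib.MP_a05470_co
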